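import Pool.Agent.HERN.St

/-!
# HERN [A0]: the type over `a0` determines the type over closed sets
-/

set_option autoImplicit false
set_option linter.unusedVariables false

namespace HERN

open Set Pool.Agent.Helper5.DU Pool.Agent.Helper6.Str Pool.Agent.Helper79.VC
  Pool.Agent.Helper97.LO Pool.Agent.Helper97.VC HER

theorem thm_A0 : St_A0 := by
  intro L M S F r I U cl a0 A β _ w w' hR hC hβ hw hw' hoff hoff' hTE
  rcases Nat.eq_zero_or_pos (Nat.card β) with h0 | h0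
  · have hE : IsEmpty β := by
      rcases Nat.card_eq_zero.mp h0 with h | h
      · exact h
      · exact absurd ‹Finite β› (not_finite_iff_infinite.mpr h)
    refine te_diag S F r ?_
    rintro a (⟨x, hx, rfl⟩ | ⟨i, rfl⟩)
    · rfl
    · exact (hE.false i).elim
  · have e : β ≃ Fin (Nat.card β) := Finite.equivFin β
    obtain ⟨i, hi, -⟩ := hC.ok (Nat.card β) h0 hβ (w ∘ e.symm)
      (hw.comp e.symm.injective) (fun p => hoff _)
    obtain ⟨i', hi', -⟩ := hC.ok (Nat.card β) h0 hβ (w' ∘ e.symm)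
      (hw'.comp e.symm.injective) (fun p => hoff' _)
    have hcl : (cl A).Countable := hR.com.icl.ctbl A hC.ctbl
    obtain ⟨v, hv, hvA⟩ := (hR.gd _ i).fam.exists_off hcl
    obtain ⟨v', hv', hvA'⟩ := (hR.gd _ i').fam.exists_off hcl
    have h1 := hi v hv hvA
    have h2 := hi' v' hv' hvA'
    have hii : i = i' := by
      by_contra hne
      refine hR.dist _ i i' hne v hv v' hv' (hvA.anti (hR.com.icl.mono _ _ hC.a0A))
        (hvA'.anti (hR.com.icl.mono _ _ hC.a0A)) ?_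
      have h3 : TE S F r (dg a0 ∪ prs v (w' ∘ e.symm)) := by
        refine h1.comp hTE ?_
        rintro a (⟨x, hx, rfl⟩ | ⟨j, rfl⟩)
        · exact ⟨x, Or.inl ⟨x, hC.a0A hx, rfl⟩, Or.inl ⟨x, hx, rfl⟩⟩
        · exact ⟨w (e.symm j), Or.inr ⟨j, rfl⟩, Or.inr ⟨e.symm j, rfl⟩⟩
      refine h3.comp (h2.symm' (r := dg A ∪ prs (w' ∘ e.symm) v') ?_) ?_
      · rintro a (⟨x, hx, rfl⟩ | ⟨j, rfl⟩)
        · exact Or.inl ⟨x, hx, rfl⟩
        · exact Or.inr ⟨j, rfl⟩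
      · rintro a (⟨x, hx, rfl⟩ | ⟨j, rfl⟩)
        · exact ⟨x, Or.inl ⟨x, hx, rfl⟩, Or.inl ⟨x, hC.a0A hx, rfl⟩⟩
        · exact ⟨w' (e.symm j), Or.inr ⟨j, rfl⟩, Or.inr ⟨j, rfl⟩⟩
    subst hii
    have h3 := hi' v hv hvA
    refine (h1.symm' (r := dg A ∪ prs (w ∘ e.symm) v) ?_).comp h3 ?_
    · rintro a (⟨x, hx, rfl⟩ | ⟨j, rfl⟩)
      · exact Or.inl ⟨x, hx, rfl⟩
      · exact Or.inr ⟨j, rfl⟩
    · rintro a (⟨x, hx, rfl⟩ | ⟨j, rfl⟩)
      · exact ⟨x, Or.inl ⟨x, hx, rfl⟩, Or.inl ⟨x, hx, rfl⟩⟩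
      · refine ⟨v (e j), Or.inr ⟨e j, ?_⟩, Or.inr ⟨e j, ?_⟩⟩
        · simp
        · simp

end HERN
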