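import Pool.Agent.HERN.St

/-!
# HERN: there are only countably many disjoint bad tuples
-/

set_option autoImplicit false
set_option linter.unusedVariables false

namespace HERN

open Set Pool.Agent.Helper5.DU Pool.Agent.Helper6.Str Pool.Agent.Helper79.VC
  Pool.Agent.Helper97.LO Pool.Agent.Helper97.VC HER

variable {L : FirstOrder.Language.{0, 0}} {M : Type}

/-- generic sequences exist -/
private theorem exists_gen {J : Type} [Finite J] {β : J → Type} [∀ j, Finite (β j)]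
    {K : Set M → Set M} (hK : IsCl K) {A : Set M} (hA : A.Countable) (rk : J → ℕ)
    (V : ∀ j, Set (β j → M)) (hV : ∀ j, Fam (V j)) :
    ∃ w : ∀ j, β j → M, (∀ j, w j ∈ V j) ∧ Gen K A rk w := by
  classical
  have key : ∀ n : ℕ, ∃ w : ∀ j, β j → M, (∀ j, w j ∈ V j) ∧ ∀ j, rk j < n →
      Off (K (A ∪ {x | ∃ i, rk i < rk j ∧ x ∈ range (w i)})) (w j) := by
    intro n
    induction n with
    | zero =>
      choose w hw _ using fun j => (hV j).exists_off countable_empty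
      exact ⟨w, hw, fun j hj => absurd hj (Nat.not_lt_zero _)⟩
    | succ n ih =>
      obtain ⟨w, hw, h⟩ := ih
      have hcount : (A ∪ {x | ∃ i, rk i < n ∧ x ∈ range (w i)}).Countable := by
        refine hA.union ?_
        have h1 : {x | ∃ i, rk i < n ∧ x ∈ range (w i)} ⊆ ⋃ i, range (w i) := by
          rintro x ⟨i, -, hx⟩
          exact mem_iUnion.mpr ⟨i, hx⟩
        exact (countable_iUnion fun i => countable_range _).mono h1
      choose u hu hu' using fun j => (hV j).exists_off (hK.ctbl _ hcount)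
      refine ⟨fun j => if rk j = n then u j else w j, fun j => ?_, fun j hj => ?_⟩
      · dsimp only
        split_ifs
        exacts [hu j, hw j]
      · have hsub : ∀ m ≤ n, A ∪ {x | ∃ i, rk i < m ∧ x ∈ range (if rk i = n then u i else w i)} ⊆
            A ∪ {x | ∃ i, rk i < m ∧ x ∈ range (w i)} := by
          intro m hm
          refine union_subset_union_right _ ?_
          rintro x ⟨i, hi, hx⟩
          refine ⟨i, hi, ?_⟩
          rwa [if_neg (by omega)] at hx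
        dsimp only
        by_cases hjn : rk j = n
        · rw [if_pos hjn]
          refine (hu' j).anti (hK.mono _ _ ?_)
          rw [hjn]
          exact hsub n le_rfl
        · rw [if_neg hjn]
          exact (h j (by omega)).anti (hK.mono _ _ (hsub _ (by omega)))
  obtain ⟨N, hN⟩ : ∃ N, ∀ j, rk j < N := by
    obtain ⟨N, hN⟩ := (finite_range rk).bddAbove
    exact ⟨N + 1, fun j => Nat.lt_succ_of_le (hN (mem_range_self j))⟩
  obtain ⟨w, hw, h⟩ := key N
  exact ⟨w, hw, fun j => h j (hN j)⟩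

/-- one tuple first and last -/
private theorem cm_opt {S : L.Structure M} {G : Set M} {n : ℕ} {I : Type} {β : I → Type}
    {V : ∀ i, Set (β i → M)} {cl : Set M → Set M} (h : Cm S G n V cl) {J : Type} [Finite J]
    (l : J → I) (i0 : I) (w w' : ∀ j, β (l j) → M) (v v' : β i0 → M) (rk rk' : J → ℕ)
    {A : Set M} (hA : A.Countable) (hrk : Function.Injective rk)
    (hrk' : Function.Injective rk') (hw : ∀ j, w j ∈ V (l j)) (hw' : ∀ j, w' j ∈ V (l j))
    (hv : v ∈ V i0) (hv' : v' ∈ V i0) (hvo : Off (cl A) v)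
    (hg : Gen cl (A ∪ range v) rk w) (hg' : Gen cl A rk' w')
    (hvo' : Off (cl (A ∪ {x | ∃ j, x ∈ range (w' j)})) v') :
    TE S G n (dg A ∪ prs v v' ∪ ⋃ j, prs (w j) (w' j)) := by
  obtain ⟨N, hN⟩ : ∃ N, ∀ j, rk' j < N := by
    obtain ⟨N, hN⟩ := (finite_range rk').bddAbove
    exact ⟨N + 1, fun j => Nat.lt_succ_of_le (hN (mem_range_self j))⟩
  let l1 : Option J → I := fun o => Option.rec i0 l o
  let w1 : ∀ o, β (l1 o) → M := fun o => Option.rec (motive := fun o => β (l1 o) → M) v w o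
  let w2 : ∀ o, β (l1 o) → M := fun o => Option.rec (motive := fun o => β (l1 o) → M) v' w' o
  let r1 : Option J → ℕ := fun o => Option.rec 0 (fun j => rk j + 1) o
  let r2 : Option J → ℕ := fun o => Option.rec N rk' o
  have hr1 : Function.Injective r1 := by
    rintro (_ | j) (_ | k) hjk
    · rfl
    · exact absurd (show 0 = rk k + 1 from hjk) (by omega)
    · exact absurd (show rk j + 1 = 0 from hjk) (by omega)
    · have h1 : rk j + 1 = rk k + 1 := hjk
      rw [hrk (show rk j = rk k by omega)]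
  have hr2 : Function.Injective r2 := by
    rintro (_ | j) (_ | k) hjk
    · rfl
    · exact absurd (show N = rk' k from hjk) (by have := hN k; omega)
    · exact absurd (show rk' j = N from hjk) (by have := hN j; omega)
    · have h1 : rk' j = rk' k := hjk
      rw [hrk' h1]
  have h1 := h.com (Option J) l1 w1 w2 r1 r2 A hA hr1 hr2 (by
    rintro (_ | j)
    · exact hv
    · exact hw j) (by
    rintro (_ | j)
    · exact hv'
    · exact hw' j) (by
    rintro (_ | j)
    · refine hvo.anti (h.icl.mono _ _ ?_)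
      rintro x (hx | ⟨o, ho, -⟩)
      · exact hx
      · exact absurd (show r1 o < 0 from ho) (Nat.not_lt_zero _)
    · refine (hg j).anti (h.icl.mono _ _ ?_)
      rintro x (hx | ⟨o, ho, hx⟩)
      · exact Or.inl (Or.inl hx)
      · rcases o with _ | k
        · exact Or.inl (Or.inr hx)
        · exact Or.inr ⟨k, by
            have h2 : rk k + 1 < rk j + 1 := ho
            omega, hx⟩) (by
    rintro (_ | j)
    · refine hvo'.anti (h.icl.mono _ _ ?_)
      rintro x (hx | ⟨o, ho, hx⟩)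
      · exact Or.inl hx
      · rcases o with _ | k
        · exact absurd (show N < N from ho) (lt_irrefl _)
        · exact Or.inr ⟨k, hx⟩
    · refine (hg' j).anti (h.icl.mono _ _ ?_)
      rintro x (hx | ⟨o, ho, hx⟩)
      · exact Or.inl hx
      · rcases o with _ | k
        · exact absurd (show N < rk' j from ho) (by have := hN j; omega)
        · exact Or.inr ⟨k, ho, hx⟩)
  refine h1.anti ?_
  rintro a ((ha | ha) | ha)
  · exact Or.inl ha
  · exact Or.inr (mem_iUnion.mpr ⟨none, ha⟩)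
  · obtain ⟨j, hj⟩ := mem_iUnion.mp ha
    exact Or.inr (mem_iUnion.mpr ⟨some j, hj⟩)

theorem thm_BAD : St_BAD := by
  intro L M S F r I U cl a0 A b V hC hP hR hA hb1 hbr hV
  obtain ⟨⟨V', hV'V, hV'⟩, -⟩ := hP.pt F hC.fin Subset.rfl (Fin b) V hV
  obtain ⟨i, hi⟩ := hR.rep b hb1 hbr V' hV'
  have := fun b => hR.fin b
  -- the system `U` together with `V'`
  let β1 : Option (Σ b, I b) → Type := fun o => Option.rec (Fin b) (fun x => Fin x.1) o
  let V1 : ∀ o, Set (β1 o → M) :=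
    fun o => Option.rec (motive := fun o => Set (β1 o → M)) V' (fun x => U x.1 x.2) o
  have hβ1 : ∀ o, Finite (β1 o) := by
    rintro (_ | x)
    · exact inferInstanceAs (Finite (Fin b))
    · exact inferInstanceAs (Finite (Fin x.1))
  have hV1 : ∀ o, Gd S F r (V1 o) := by
    rintro (_ | x)
    · exact hV'
    · exact hR.gd x.1 x.2
  have hco : Countable (Option (Σ b, I b)) := inferInstance
  obtain ⟨cl1, hcl1⟩ := @PN.com L M S F r hP F hC.fin Subset.rfl (Option (Σ b, I b)) hco β1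
    hβ1 V1 hV1
  have hK : IsCl fun A => cl A ∪ cl1 A := hR.com.icl.union hcl1.icl
  obtain ⟨E, hE, hEA⟩ := hi A hA
  obtain ⟨w, hw, hwo⟩ := hV'.fam.exists_off ((hK.ctbl A hA).union hE)
  rw [off_union, off_union] at hwo
  obtain ⟨⟨hwc, hwc1⟩, hwE⟩ := hwo
  refine ⟨w, hV'V hw, i, ?_, ?_⟩
  · intro w' hw' hwo'
    obtain ⟨w2, hw2, hw2o⟩ := (hR.gd b i).fam.exists_off ((hR.com.icl.ctbl A hA).union hE)
    rw [off_union] at hw2o
    have h1 := hEA w2 hw2 w hw hw2o.2 hwE
    have h2 := cm_opt hR.com (J := Empty) (fun e => e.elim) ⟨b, i⟩ (fun e => e.elim)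
      (fun e => e.elim) w' w2 (fun e => e.elim) (fun e => e.elim) hA (fun e => e.elim)
      (fun e => e.elim) (fun e => e.elim) (fun e => e.elim) hw' hw2 hwo' (fun e => e.elim)
      (fun e => e.elim) (hw2o.1.anti (hR.com.icl.mono _ _ (by
        rintro x (hx | ⟨e, -⟩)
        · exact hx
        · exact e.elim)))
    refine h2.comp h1 ?_
    rintro a (⟨x, hx, rfl⟩ | ⟨p, rfl⟩)
    · exact ⟨x, Or.inl (Or.inl ⟨x, hx, rfl⟩), Or.inl ⟨x, hx, rfl⟩⟩
    · exact ⟨w2 p, Or.inl (Or.inr ⟨p, rfl⟩), Or.inr ⟨p, rfl⟩⟩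
  · intro J _ l w' v' rk v hrk hw' hv' hv hvo hg hg'
    have hAw : (A ∪ range w).Countable := hA.union (countable_range w)
    obtain ⟨w'', hw'', hg''⟩ := exists_gen hK hAw rk
      (fun j => U (l j).1 (l j).2) (fun j => (hR.gd _ _).fam)
    obtain ⟨x'', hx'', hgx⟩ := exists_gen hK hA rk
      (fun j => U (l j).1 (l j).2) (fun j => (hR.gd _ _).fam)
    have hX : (A ∪ {x | ∃ j, x ∈ range (x'' j)}).Countable := by
      refine hA.union ?_
      have h1 : {x | ∃ j, x ∈ range (x'' j)} = ⋃ j, range (x'' j) := by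
        ext x
        simp
      rw [h1]
      exact countable_iUnion fun j => countable_range _
    obtain ⟨E2, hE2, hE2X⟩ := hi _ hX
    obtain ⟨w2, hw2, hw2o⟩ := hV'.fam.exists_off ((hK.ctbl _ hX).union hE2)
    obtain ⟨v2, hv2, hv2o⟩ := (hR.gd b i).fam.exists_off ((hK.ctbl _ hX).union hE2)
    rw [off_union] at hw2o hv2o
    -- (b)
    have e1 := hR.com.com J l w' w'' rk rk _ hAw hrk hrk hw' hw'' hg
      (hg''.mono (fun B => subset_union_left) hK Subset.rfl)
    -- (c)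
    have e2 := cm_opt hcl1 (J := J) (fun j => some (l j)) none w'' x'' w w2 rk rk hA hrk hrk
      hw'' hx'' hw hw2 hwc1 (hg''.mono (fun B => subset_union_right) hK Subset.rfl)
      (hgx.mono (fun B => subset_union_right) hK Subset.rfl)
      (hw2o.1.anti subset_union_right)
    -- (d)
    have e3 := hE2X v2 hv2 w2 hw2 hv2o.2 hw2o.2
    -- (e)
    have e4 := cm_opt hR.com (J := J) l ⟨b, i⟩ v' x'' v v2 rk rk hA hrk hrk
      hv' hx'' hv hv2 hvo hg' (hgx.mono (fun B => subset_union_left) hK Subset.rfl)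
      (hv2o.1.anti subset_union_left)
    have f1 : TE S F r (dg A ∪ prs w w2 ∪ ⋃ j, prs (w' j) (x'' j)) := by
      refine e1.comp e2 ?_
      rintro a ((⟨x, hx, rfl⟩ | ⟨p, rfl⟩) | ha)
      · exact ⟨x, Or.inl ⟨x, Or.inl hx, rfl⟩, Or.inl (Or.inl ⟨x, hx, rfl⟩)⟩
      · exact ⟨w p, Or.inl ⟨w p, Or.inr ⟨p, rfl⟩, rfl⟩, Or.inl (Or.inr ⟨p, rfl⟩)⟩
      · obtain ⟨j, p, rfl⟩ := mem_iUnion.mp ha
        exact ⟨w'' j p, Or.inr (mem_iUnion.mpr ⟨j, p, rfl⟩),
          Or.inr (mem_iUnion.mpr ⟨j, p, rfl⟩)⟩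
    have f2 : TE S F r (dg A ∪ prs w2 v ∪ ⋃ j, prs (x'' j) (v' j)) := by
      refine TE.symm' (p := dg A ∪ prs v w2 ∪ ⋃ j, prs (v' j) (x'' j)) ?_ ?_
      · refine e4.comp e3 ?_
        rintro a ((⟨x, hx, rfl⟩ | ⟨p, rfl⟩) | ha)
        · exact ⟨x, Or.inl (Or.inl ⟨x, hx, rfl⟩), Or.inl ⟨x, Or.inl hx, rfl⟩⟩
        · exact ⟨v2 p, Or.inl (Or.inr ⟨p, rfl⟩), Or.inr ⟨p, rfl⟩⟩
        · obtain ⟨j, p, rfl⟩ := mem_iUnion.mp ha
          exact ⟨x'' j p, Or.inr (mem_iUnion.mpr ⟨j, p, rfl⟩),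
            Or.inl ⟨x'' j p, Or.inr ⟨j, p, rfl⟩, rfl⟩⟩
      · rintro a ((⟨x, hx, rfl⟩ | ⟨p, rfl⟩) | ha)
        · exact Or.inl (Or.inl ⟨x, hx, rfl⟩)
        · exact Or.inl (Or.inr ⟨p, rfl⟩)
        · obtain ⟨j, p, rfl⟩ := mem_iUnion.mp ha
          exact Or.inr (mem_iUnion.mpr ⟨j, p, rfl⟩)
    refine f1.comp f2 ?_
    rintro a ((⟨x, hx, rfl⟩ | ⟨p, rfl⟩) | ha)
    · exact ⟨x, Or.inl (Or.inl ⟨x, hx, rfl⟩), Or.inl (Or.inl ⟨x, hx, rfl⟩)⟩
    · exact ⟨w2 p, Or.inl (Or.inr ⟨p, rfl⟩), Or.inl (Or.inr ⟨p, rfl⟩)⟩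
    · obtain ⟨j, p, rfl⟩ := mem_iUnion.mp ha
      exact ⟨x'' j p, Or.inr (mem_iUnion.mpr ⟨j, p, rfl⟩),
        Or.inr (mem_iUnion.mpr ⟨j, p, rfl⟩)⟩

end HERN
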