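import Pool.Agent.HERN.St

/-!
# HERN: the end of the construction of good families (module BFIN)
-/

set_option autoImplicit false
set_option linter.unusedVariables false

namespace HERN

open Set Pool.Agent.Helper5.DU Pool.Agent.Helper6.Str Pool.Agent.Helper79.VC
  Pool.Agent.Helper97.LO Pool.Agent.Helper97.VC HER

variable {L : FirstOrder.Language.{0, 0}} {M : Type}

/-- a generic sequence with prescribed families -/
theorem BFIN_seq {β : Type} [Finite β] {V : Set (β → M)} (hV : Fam V) (W : ℕ → Set (β → M))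
    (hW : ∀ i, W i ⊆ V ∧ ¬ (W i).Countable) (C : Set M → Set M) (hC : IsCl C) (B : Set M)
    (hB : B.Countable) :
    ∃ e : ℕ → β → M, (∀ t, e t ∈ W (Nat.unpair t).1) ∧
      ∀ t, Off (C (B ∪ {x | ∃ s, s < t ∧ x ∈ range (e s)})) (e t) := by
  have hg : ∀ (i : ℕ) (D : Set M), ∃ w : β → M, D.Countable → w ∈ W i ∧ Off D w := by
    intro i D
    by_cases hD : D.Countable
    · obtain ⟨w, hw, hw'⟩ := (hV.mono (hW i).1 (hW i).2).exists_off hD
      exact ⟨w, fun _ => ⟨hw, hw'⟩⟩
    · have h1 : (W i).Nonempty := by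
        rw [nonempty_iff_ne_empty]
        intro h2
        exact (hW i).2 (by rw [h2]; exact countable_empty)
      obtain ⟨w, hw⟩ := h1
      exact ⟨w, fun h => absurd h hD⟩
  choose g hg using hg
  let D : ℕ → Set M := fun t => Nat.rec B (fun t Dt => Dt ∪ range (g (Nat.unpair t).1 (C Dt))) t
  have hDs : ∀ t, D (t + 1) = D t ∪ range (g (Nat.unpair t).1 (C (D t))) := fun t => rfl
  have hD : ∀ t, (D t).Countable := by
    intro t
    induction t with
    | zero => exact hB
    | succ t ih =>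
      rw [hDs]
      exact ih.union (countable_range _)
  have hsub : ∀ t, B ∪ {x | ∃ s, s < t ∧ x ∈ range (g (Nat.unpair s).1 (C (D s)))} ⊆ D t := by
    intro t
    induction t with
    | zero =>
      rintro x (hx | ⟨s, hs, -⟩)
      · exact hx
      · exact absurd hs (Nat.not_lt_zero s)
    | succ t ih =>
      rw [hDs]
      rintro x (hx | ⟨s, hs, hx⟩)
      · exact Or.inl (ih (Or.inl hx))
      · rcases Nat.lt_succ_iff_lt_or_eq.mp hs with h1 | h1
        · exact Or.inl (ih (Or.inr ⟨s, h1, hx⟩))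
        · subst h1
          exact Or.inr hx
  exact ⟨fun t => g (Nat.unpair t).1 (C (D t)), fun t => (hg _ _ (hC.ctbl _ (hD t))).1,
    fun t => (hg _ _ (hC.ctbl _ (hD t))).2.anti (hC.mono _ _ (hsub t))⟩

/-- a set of at most `k` elements is the range of `k` elements -/
theorem BFIN_cover {U : Set M} {k : ℕ} (hU : U.encard ≤ k) {I : Type} [Nonempty I] (f : I → M)
    (hf : U ⊆ range f) : ∃ g : Fin k → I, U ⊆ range (fun a => f (g a)) := by
  classical
  have hfin : U.Finite := finite_of_encard_le_coe hU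
  have : Finite U := hfin
  have := Fintype.ofFinite U
  have hcard : Fintype.card U ≤ Fintype.card (Fin k) := by
    rw [Fintype.card_fin]
    have h1 : U.encard = (Fintype.card U : ℕ∞) := by
      rw [Set.encard, ENat.card_eq_coe_fintype_card]
    rw [h1] at hU
    exact_mod_cast hU
  obtain ⟨ι⟩ := Function.Embedding.nonempty_of_card_le hcard
  have hh : ∀ x : U, ∃ i, f i = x := fun x => hf x.2
  choose h hh using hh
  refine ⟨Function.extend ι h (fun _ => Classical.arbitrary I), fun x hx => ⟨ι ⟨x, hx⟩, ?_⟩⟩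
  show f (Function.extend ι h (fun _ => Classical.arbitrary I) (ι ⟨x, hx⟩)) = x
  rw [ι.injective.extend_apply]
  exact hh ⟨x, hx⟩

theorem thm_BFIN (hT : St_THINB) : St_BFIN := by
  intro L M S F G n k β _ V cl cl' z W hR hFT hG hFG hk hk1 hFam hPG hMX hcl' hTot hW hz
  classical
  obtain ⟨Z, hZ⟩ : ∃ Z : Set M, Z = {x | ∃ i, x ∈ range (z i)} := ⟨_, rfl⟩
  have hZc : Z.Countable := by
    have h1 : Z = ⋃ i, range (z i) := by
      rw [hZ]
      ext x
      simp
    rw [h1]
    exact countable_iUnion fun i => countable_range _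
  have hclu : IsCl fun A => cl A ∪ cl' A := hMX.icl.union hcl'
  obtain ⟨e, heW, heO⟩ := BFIN_seq hFam W hW (fun A => cl A ∪ cl' A) hclu (Z ∪ G)
    (hZc.union hG.countable)
  have heV : ∀ t, e t ∈ V := fun t => (hW _).1 (heW t)
  have heZ : ∀ t p, e t p ∉ Z := fun t p h => heO t p (hclu.sub _ (Or.inl (Or.inl h)))
  have heG : ∀ t p, e t p ∉ G := fun t p h => heO t p (hclu.sub _ (Or.inl (Or.inr h)))
  have hed : ∀ s t p q, e s p = e t q → s = t ∧ p = q := by
    intro s t p q h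
    rcases lt_trichotomy s t with h1 | h1 | h1
    · exact absurd (hclu.sub _ (Or.inr ⟨s, h1, ⟨p, h⟩⟩)) (heO t q)
    · subst h1
      exact ⟨rfl, hFam.inj (heV s) h⟩
    · exact absurd (hclu.sub _ (Or.inr ⟨t, h1, ⟨q, h.symm⟩⟩)) (heO s p)
  have hgen : ∀ (J : Type) (τ : J → ℕ), Gen cl Z τ (fun j => e (τ j)) := by
    intro J τ j
    refine (heO (τ j)).anti (subset_union_left.trans' (hMX.icl.mono _ _ ?_))
    rintro x (hx | ⟨i, hi, hx⟩)
    · exact Or.inl (Or.inl hx)
    · exact Or.inr ⟨τ i, hi, hx⟩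
  have hgen' : ∀ (J : Type) (τ : J → ℕ), Gen cl' ∅ τ (fun j => e (τ j)) := by
    intro J τ j
    refine (heO (τ j)).anti (subset_union_right.trans' (hcl'.mono _ _ ?_))
    rintro x (hx | ⟨i, hi, hx⟩)
    · exact absurd hx (notMem_empty x)
    · exact Or.inr ⟨τ i, hi, hx⟩
  -- thinning
  obtain ⟨C, hC, t, ht⟩ := hFT (Fin k ⊕ β)
  obtain ⟨φ, ψ, hφ, hψ, hc⟩ := hT ((Fin k → Fin k) → C) k
    (fun i m E π => t (Sum.elim (fun a => z (E a) (π a)) (e (Nat.pair i m))))
  have hthin : ∀ i m m', m ≤ i → m' ≤ i → ∀ (E : Fin k → ℕ) (π : Fin k → Fin k),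
      AtEq S S (dg G ∪ prs (Sum.elim (fun a => z (φ (E a)) (π a)) (e (Nat.pair (φ i) (ψ i m))))
        (Sum.elim (fun a => z (φ (E a)) (π a)) (e (Nat.pair (φ i) (ψ i m'))))) :=
    fun i m m' hm hm' E π => (ht _ _).1 (congrFun (hc i m m' hm hm' E) π)
  obtain ⟨X, hX⟩ : ∃ X : Set M, X = G ∪ {x | ∃ i, x ∈ range (z (φ i))} ∪
    {x | ∃ i m, m ≤ i ∧ x ∈ range (e (Nat.pair (φ i) (ψ i m)))} := ⟨_, rfl⟩
  have hXc : X.Countable := by
    rw [hX]
    refine (hG.countable.union ?_).union ?_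
    · refine hZc.mono ?_
      rintro x ⟨i, hx⟩
      rw [hZ]
      exact ⟨φ i, hx⟩
    · have h1 : {x | ∃ i m, m ≤ i ∧ x ∈ range (e (Nat.pair (φ i) (ψ i m)))} ⊆
          ⋃ s : ℕ, range (e s) := by
        rintro x ⟨i, m, -, hx⟩
        exact mem_iUnion.mpr ⟨_, hx⟩
      exact (countable_iUnion fun s => countable_range (e s)).mono h1
  have hidx : ∀ i m j l, Nat.pair (φ i) (ψ i m) = Nat.pair (φ j) (ψ j l) → i = j ∧ m = l := by
    intro i m j l h
    rw [Nat.pair_eq_pair] at h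
    obtain ⟨h1, h2⟩ := h
    have h3 := hφ.injective h1
    subst h3
    exact ⟨rfl, hψ i h2⟩
  -- one full block
  have hfull : ∀ (i m m' : ℕ) (q : Set (M × M)), m ≤ i → m' ≤ i → q.encard ≤ (n + 1 : ℕ) →
      (∀ x ∈ Z, (x, x) ∈ q → ∃ j, x ∈ range (z (φ j))) →
      prs (e (Nat.pair (φ i) (ψ i m))) (e (Nat.pair (φ i) (ψ i m'))) ⊆ q →
      q ⊆ dg Z ∪ prs (e (Nat.pair (φ i) (ψ i m))) (e (Nat.pair (φ i) (ψ i m'))) →
      AtEq S S (dg G ∪ q) := by
    intro i m m' q hm hm' hqn hqz hq1 hq2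
    obtain ⟨U, hU⟩ : ∃ U : Set M, U = {x | x ∈ Z ∧ (x, x) ∈ q} := ⟨_, rfl⟩
    have hUk : U.encard ≤ k := by
      have h1 : (dg U ∪ prs (e (Nat.pair (φ i) (ψ i m))) (e (Nat.pair (φ i) (ψ i m')))).encard ≤
          (k : ℕ∞) + (Nat.card β : ℕ∞) := by
        refine (encard_le_encard ?_).trans (hqn.trans ?_)
        · refine union_subset ?_ hq1
          rintro _ ⟨x, hx, rfl⟩
          rw [hU] at hx
          exact hx.2
        · rw [← hk]
          push_cast
          exact le_rfl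
      have h2 : Disjoint (dg U) (prs (e (Nat.pair (φ i) (ψ i m)))
          (e (Nat.pair (φ i) (ψ i m')))) := by
        rw [Set.disjoint_left]
        rintro _ ⟨x, hx, rfl⟩ ⟨p, hp⟩
        rw [hU] at hx
        have h3 : e (Nat.pair (φ i) (ψ i m)) p = x := congrArg Prod.fst hp
        exact heZ _ p (h3 ▸ hx.1)
      rw [encard_union_eq h2] at h1
      have h3 : (dg U).encard = U.encard := by
        refine Function.Injective.encard_image ?_ U
        intro x y hxy
        exact congrArg Prod.fst hxy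
      have h4 : (prs (e (Nat.pair (φ i) (ψ i m))) (e (Nat.pair (φ i) (ψ i m')))).encard =
          (Nat.card β : ℕ∞) := by
        rw [prs, ← image_univ, Function.Injective.encard_image, encard_univ,
          ENat.card_eq_coe_natCard]
        intro p p' hp
        exact hFam.inj (heV _) (congrArg Prod.fst hp)
      rw [h3, h4] at h1
      exact (WithTop.add_le_add_iff_right (WithTop.coe_ne_top)).mp h1
    have : Nonempty (Fin k) := ⟨⟨0, hk1⟩⟩
    obtain ⟨g, hg⟩ := BFIN_cover hUk (I := ℕ × Fin k) (fun a => z (φ a.1) a.2) (by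
      intro x hx
      rw [hU] at hx
      obtain ⟨j, a, ha⟩ := hqz x hx.1 hx.2
      exact ⟨(j, a), ha⟩)
    refine (hthin i m m' hm hm' (fun a => (g a).1) (fun a => (g a).2)).anti ?_
    rintro a (ha | ha)
    · exact Or.inl ha
    · rcases hq2 ha with ⟨x, hx, rfl⟩ | ⟨p, rfl⟩
      · obtain ⟨b, hb⟩ := hg (show x ∈ U by rw [hU]; exact ⟨hx, ha⟩)
        exact Or.inr ⟨Sum.inl b, Prod.ext hb hb⟩
      · exact Or.inr ⟨Sum.inr p, rfl⟩
  -- rows
  have hrow : ∀ (i m m' : ℕ), m ≤ i → m' ≤ i → m ≠ m' →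
      TE S G (n + 1) (SW X (e (Nat.pair (φ i) (ψ i m))) (e (Nat.pair (φ i) (ψ i m')))) := by
    intro i m m' hm hm' hmm q hq hqn
    obtain ⟨s1, hs1⟩ : ∃ s1, s1 = Nat.pair (φ i) (ψ i m) := ⟨_, rfl⟩
    obtain ⟨s2, hs2⟩ : ∃ s2, s2 = Nat.pair (φ i) (ψ i m') := ⟨_, rfl⟩
    rw [← hs1, ← hs2] at hq
    have h12 : s1 ≠ s2 := by
      intro h
      rw [hs1, hs2] at h
      exact hmm (hidx _ _ _ _ h).2
    obtain ⟨q', hq'⟩ : ∃ q' : Set (M × M), q' = q \ dg G := ⟨_, rfl⟩
    have hq'q : q' ⊆ q := by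
      rw [hq']
      exact sdiff_subset
    have hq'n : q'.encard ≤ (n + 1 : ℕ) := (encard_le_encard hq'q).trans hqn
    have hq'f : q'.Finite := finite_of_encard_le_coe hq'n
    suffices h : AtEq S S (dg G ∪ q') by
      refine h.anti ?_
      rintro a (ha | ha)
      · exact Or.inl ha
      · by_cases h1 : a ∈ dg G
        · exact Or.inl h1
        · exact Or.inr (by rw [hq']; exact ⟨ha, h1⟩)
    have hσ1 : Equiv.swap s1 s2 s1 = s2 := Equiv.swap_apply_left _ _
    have hσ2 : Equiv.swap s1 s2 s2 = s1 := Equiv.swap_apply_right _ _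
    have key : ∀ a, ∃ t, a ∈ q' → a ∈ dg Z ∨ a ∈ prs (e t) (e (Equiv.swap s1 s2 t)) := by
      intro a
      by_cases ha : a ∈ q'
      · have haG : a ∉ dg G := by
          rw [hq'] at ha
          exact ha.2
        rcases hq (hq'q ha) with (⟨h1, h2, h3, h4⟩ | h1) | h1
        · rw [hX] at h2
          rcases h2 with (h2 | ⟨j, h2⟩) | ⟨j, l, hl, p, hp⟩
          · exact absurd (mem_dg.mpr ⟨h2, h1⟩) haG
          · refine ⟨0, fun _ => Or.inl (mem_dg.mpr ⟨?_, h1⟩)⟩
            rw [hZ]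
            exact ⟨φ j, h2⟩
          · refine ⟨Nat.pair (φ j) (ψ j l), fun _ => Or.inr ⟨p, ?_⟩⟩
            rw [Equiv.swap_apply_of_ne_of_ne]
            · exact Prod.ext hp (hp.trans h1)
            · intro h5
              rw [h5] at hp
              exact h3 ⟨p, hp⟩
            · intro h5
              rw [h5] at hp
              exact h4 ⟨p, hp⟩
        · exact ⟨s1, fun _ => Or.inr (by rw [hσ1]; exact h1)⟩
        · exact ⟨s2, fun _ => Or.inr (by rw [hσ2]; exact h1)⟩
      · exact ⟨0, fun h => absurd h ha⟩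
    choose T hTT using key
    have hJ : Finite ↥(T '' q') := (hq'f.image T).to_subtype
    have hcov : q' ⊆ dg Z ∪ ⋃ j : ↥(T '' q'), prs (e (j : ℕ)) (e (Equiv.swap s1 s2 (j : ℕ))) := by
      intro a ha
      rcases hTT a ha with h1 | h1
      · exact Or.inl h1
      · exact Or.inr (mem_iUnion.mpr ⟨⟨T a, mem_image_of_mem T ha⟩, h1⟩)
    have hqz : ∀ x ∈ Z, (x, x) ∈ q' → ∃ j, x ∈ range (z (φ j)) := by
      intro x hx hxq
      have hxG : x ∉ G := by
        intro h
        rw [hq'] at hxq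
        exact hxq.2 ⟨x, h, rfl⟩
      rcases hq (hq'q hxq) with (⟨h1, h2, h3, h4⟩ | ⟨p, hp⟩) | ⟨p, hp⟩
      · rw [hX] at h2
        rcases h2 with (h2 | ⟨j, h2⟩) | ⟨j, l, hl, p, hp⟩
        · exact absurd h2 hxG
        · exact ⟨j, h2⟩
        · exact absurd hx (by
            have h5 : e (Nat.pair (φ j) (ψ j l)) p = x := hp
            rw [← h5]
            exact heZ _ p)
      · exact absurd hx (by
          have h5 : e s1 p = x := congrArg Prod.fst hp
          rw [← h5]
          exact heZ _ p)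
      · exact absurd hx (by
          have h5 : e s2 p = x := congrArg Prod.fst hp
          rw [← h5]
          exact heZ _ p)
    have hinj : Function.Injective (fun j : ↥(T '' q') => (j : ℕ)) := Subtype.val_injective
    have hinj' : Function.Injective (fun j : ↥(T '' q') => Equiv.swap s1 s2 (j : ℕ)) :=
      (Equiv.swap s1 s2).injective.comp Subtype.val_injective
    by_cases hne : (q' ∩ dg Z).Nonempty
    · by_cases hex : ∃ j : ↥(T '' q'), prs (e (j : ℕ)) (e (Equiv.swap s1 s2 (j : ℕ))) ⊆ q' ∧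
          q' ⊆ dg Z ∪ prs (e (j : ℕ)) (e (Equiv.swap s1 s2 (j : ℕ)))
      · obtain ⟨⟨j, hjm⟩, hj1, hj2⟩ := hex
        dsimp only at hj1 hj2
        by_cases h1 : j = s1
        · rw [h1, hσ1, hs1, hs2] at hj1 hj2
          exact hfull i m m' q' hm hm' hq'n hqz hj1 hj2
        · by_cases h2 : j = s2
          · rw [h2, hσ2, hs1, hs2] at hj1 hj2
            exact hfull i m' m q' hm' hm hq'n hqz hj1 hj2
          · rw [Equiv.swap_apply_of_ne_of_ne h1 h2, prs_self] at hj2
            refine atEq_diag S ?_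
            rintro a (⟨x, -, rfl⟩ | ha)
            · rfl
            · rcases hj2 ha with ⟨x, -, rfl⟩ | ⟨x, -, rfl⟩
              · rfl
              · rfl
      · exact hMX.mx ↥(T '' q') (fun j => e (j : ℕ)) (fun j => e (Equiv.swap s1 s2 (j : ℕ)))
          (fun j => (j : ℕ)) (fun j => Equiv.swap s1 s2 (j : ℕ)) Z hZc hinj hinj'
          (fun j => heV _) (fun j => heV _) (hgen _ _) (hgen _ _) q' hcov hq'n hne hex
    · refine hTot ↥(T '' q') (fun j => e (j : ℕ)) (fun j => e (Equiv.swap s1 s2 (j : ℕ)))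
          (fun j => (j : ℕ)) (fun j => Equiv.swap s1 s2 (j : ℕ)) hinj hinj'
          (fun j => heV _) (fun j => heV _) (hgen' _ _) (hgen' _ _) q' ?_ hq'n
      intro a ha
      rcases hcov ha with h1 | h1
      · exact absurd ⟨a, ha, h1⟩ hne
      · exact h1
  -- different rows
  have hnon : ∀ (i j m l : ℕ) (r : Set (M × M)), i < j → m ≤ i → l ≤ j →
      (∀ x ∈ X, x ∈ Z → (x, x) ∈ r) →
      prs (e (Nat.pair (φ i) (ψ i m))) (e (Nat.pair (φ j) (ψ j l))) ⊆ r →
      ¬ TE S G (n + 1) r := by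
    intro i j m l r hij hm hl hr1 hr2 hTE
    have h1 := hTE (prs (z (φ i)) (z (φ i)) ∪
      prs (e (Nat.pair (φ i) (ψ i m))) (e (Nat.pair (φ j) (ψ j l)))) (by
        refine union_subset ?_ hr2
        rintro _ ⟨p, rfl⟩
        refine hr1 _ ?_ ?_
        · rw [hX]
          exact Or.inl (Or.inr ⟨i, p, rfl⟩)
        · rw [hZ]
          exact ⟨φ i, p, rfl⟩) (by
        refine (encard_union_le _ _).trans ?_
        refine (add_le_add (prs_encard_le _ _) (prs_encard_le _ _)).trans ?_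
        rw [Nat.card_eq_fintype_card, Fintype.card_fin, ← hk]
        push_cast
        exact le_rfl)
    rw [← union_assoc] at h1
    have h2 := heW (Nat.pair (φ i) (ψ i m))
    have h3 := heW (Nat.pair (φ j) (ψ j l))
    rw [Nat.unpair_pair] at h2 h3
    exact hz (φ i) (φ j) (hφ hij) _ h2 _ h3 h1
  refine hR G X (n + 1) β (fun i m => e (Nat.pair (φ i) (ψ i m))) hG hXc ?_ ?_ ⟨?_, ?_, ?_, ?_⟩
  · rw [hX]
    exact fun x hx => Or.inl (Or.inl hx)
  · exact fun x hx => hFG hx.2
  · intro i m p hm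
    refine ⟨?_, heG _ p⟩
    rw [hX]
    exact Or.inr ⟨i, m, hm, p, rfl⟩
  · intro i m p j l q hm hl h
    obtain ⟨h1, h2⟩ := hed _ _ _ _ h
    obtain ⟨h3, h4⟩ := hidx _ _ _ _ h1
    exact ⟨h3, h4, h2⟩
  · intro i m m' hm hm' hmm
    exact hrow i m m' hm hm' hmm
  · intro i j m l hij hm hl
    have hd : ∀ x ∈ X, x ∈ Z → (x, x) ∈ SW X (e (Nat.pair (φ i) (ψ i m)))
        (e (Nat.pair (φ j) (ψ j l))) := by
      intro x hx hxZ
      refine Or.inl (Or.inl ⟨rfl, hx, ?_, ?_⟩)
      · rintro ⟨p, hp⟩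
        exact heZ _ p (by rw [hp]; exact hxZ)
      · rintro ⟨p, hp⟩
        exact heZ _ p (by rw [hp]; exact hxZ)
    rcases lt_or_gt_of_ne hij with h1 | h1
    · exact hnon i j m l _ h1 hm hl hd (fun a ha => Or.inl (Or.inr ha))
    · exact hnon j i l m _ h1 hl hm hd (fun a ha => Or.inr ha)

end HERN
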