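import Pool.Agent.HERN.St

/-!
# HERN / BK0: the blocks
-/

set_option autoImplicit false
set_option linter.unusedVariables false

namespace HERN

open Set Pool.Agent.Helper5.DU Pool.Agent.Helper6.Str Pool.Agent.Helper79.VC
  Pool.Agent.Helper97.LO Pool.Agent.Helper97.VC HER

section BK0

variable {L : FirstOrder.Language.{0, 0}} {M : Type} {S : L.Structure M} {F : Set M} {r : ℕ}

private theorem BK0_symm {A : Set M} {β : Type} {P : Set β} {v v' : β → M}
    (h : TE S F r (dg A ∪ prt P v v')) : TE S F r (dg A ∪ prt P v' v) := by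
  refine h.symm' ?_
  rintro a (⟨x, hx, rfl⟩ | ⟨i, hi, rfl⟩)
  · exact Or.inl ⟨x, hx, rfl⟩
  · exact Or.inr ⟨i, hi, rfl⟩

private theorem BK0_comp {A : Set M} {β : Type} {P : Set β} {v v' v'' : β → M}
    (h : TE S F r (dg A ∪ prt P v v')) (h' : TE S F r (dg A ∪ prt P v' v'')) :
    TE S F r (dg A ∪ prt P v v'') := by
  refine h.comp h' ?_
  rintro a (⟨x, hx, rfl⟩ | ⟨i, hi, rfl⟩)
  · exact ⟨x, Or.inl ⟨x, hx, rfl⟩, Or.inl ⟨x, hx, rfl⟩⟩
  · exact ⟨v' i, Or.inr ⟨i, hi, rfl⟩, Or.inr ⟨i, hi, rfl⟩⟩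

variable {I : ℕ → Type} {U : ∀ b, I b → Set (Fin b → M)} {cl : Set M → Set M} {a0 A : Set M}

private theorem BK0_lsymm {x y : M} (h : Lnk S F r U cl a0 A x y) : Lnk S F r U cl a0 A y x := by
  obtain ⟨b, w, h1, h2, h3, h4, h5, h6⟩ := h
  exact ⟨b, w, h1, h2, h3, h4, h6, h5⟩

private theorem BK0_rsymm {x y : M} (h : Relation.ReflTransGen (Lnk S F r U cl a0 A) x y) :
    Relation.ReflTransGen (Lnk S F r U cl a0 A) y x := by
  induction h with
  | refl => exact Relation.ReflTransGen.refl
  | tail _ h2 ih => exact Relation.ReflTransGen.head (BK0_lsymm h2) ih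

private theorem BK0_eq {x y : M} : ({z | Relation.ReflTransGen (Lnk S F r U cl a0 A) x z} : Set M) =
    {z | Relation.ReflTransGen (Lnk S F r U cl a0 A) y z} ↔
      Relation.ReflTransGen (Lnk S F r U cl a0 A) x y := by
  constructor
  · intro h
    have h1 : y ∈ ({z | Relation.ReflTransGen (Lnk S F r U cl a0 A) y z} : Set M) :=
      Relation.ReflTransGen.refl
    rw [← h] at h1
    exact h1
  · intro h
    ext z
    exact ⟨fun h1 => (BK0_rsymm h).trans h1, fun h1 => h.trans h1⟩

/-- a closed set which contains `A` and meets a linked tuple contains it -/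
private theorem BK0_in {B : Set M} (hA : Clos S F r U cl a0 A) (hB : Clos S F r U cl a0 B)
    (hAB : A ⊆ B) (hcl : ∀ A' : Set M, A'.Countable → ∃ B, A' ⊆ B ∧ Clos S F r U cl a0 B)
    {x y : M} (hx : x ∈ B) (h : Lnk S F r U cl a0 A x y) : y ∈ B := by
  classical
  obtain ⟨b, w, -, hinj, hoff, hD, ⟨i, hi⟩, j, hj⟩ := h
  by_contra hy
  obtain ⟨B2, hB2, hB2c⟩ := hcl (B ∪ range w) (hB.ctbl.union (countable_range w))
  refine hD ⟨fun p => if w p ∈ B then 0 else 1, ⟨i, j, ?_⟩, fun p => if w p ∈ B then 0 else 1, w,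
    fun p q => Iff.rfl, hinj, ?_, ?_⟩
  · have h1 : w i ∈ B := hi ▸ hx
    have h2 : w j ∉ B := hj ▸ hy
    simp [h1, h2]
  · refine ⟨fun k => if k = 0 then A else if k = 1 then B else B2, if_pos rfl, fun k => ?_,
      fun k => ?_, fun p => ?_⟩
    · have h3 : B ⊆ B2 := subset_union_left.trans hB2
      rcases k with _ | _ | k
      · simpa using hAB
      · simpa using h3
      · simp
    · rcases k with _ | _ | k
      · simpa using hA
      · simpa using hB
      · simpa using hB2c
    · by_cases h1 : w p ∈ B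
      · simp only [h1, if_pos]
        exact ⟨hoff p, by simpa using h1⟩
      · simp only [h1, if_false]
        have h4 : w p ∈ B2 := hB2 (Or.inr (mem_range_self p))
        simp [h1, h4]
  · refine te_diag S F r ?_
    rintro a (⟨x, -, rfl⟩ | ⟨i, rfl⟩) <;> rfl

theorem thm_BK0 (hH : St_CH) (hF : St_FRC) : St_BK0 := by
  intro L M S F r I U cl a0 A hr har hRep hcl hA
  have hFA : F ⊆ A := hRep.Fa0.trans hA.a0A
  refine ⟨⟨hA.ctbl, fun x _ => Relation.ReflTransGen.refl, ?_, ?_⟩, ?_⟩
  · intro x hx y hy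
    refine ⟨?_, (BK0_eq.2 hy).symm⟩
    have hy' : Relation.ReflTransGen (Lnk S F r U cl a0 A) x y := hy
    rcases Relation.ReflTransGen.cases_tail hy' with h | ⟨z, -, hz⟩
    · rw [h]; exact hx
    · obtain ⟨b, w, -, -, hoff, -, -, j, hj⟩ := hz
      rw [← hj]
      exact hoff j
  · intro p hp hblk hat
    refine TE.atEq_of_arity hr har (G := F) (p := dg A ∪ p) ?_ |>.anti ?_
    swap
    · exact subset_union_right
    intro q hq hqr
    -- the part of `q` off `A`
    have hfin : (q ∩ p).Finite ∧ (q ∩ p).ncard ≤ r := by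
      have h1 : (q ∩ p).encard ≤ r := (encard_le_encard inter_subset_left).trans hqr
      obtain ⟨h2, m, h3, h4⟩ := encard_le_coe_iff.1 h1
      refine ⟨h2, ?_⟩
      have h5 : ((q ∩ p).ncard : ℕ∞) = (m : ℕ∞) := by rw [h2.cast_ncard_eq, h3]
      have h6 : (q ∩ p).ncard = m := by exact_mod_cast h5
      omega
    have hfi : Finite ↥(q ∩ p) := hfin.1.to_subtype
    let w : ↥(q ∩ p) → M := fun a => a.1.1
    let w' : ↥(q ∩ p) → M := fun a => a.1.2
    let R := Lnk S F r U cl a0 A
    have hwo : Off A w := fun a => (hp a.1 a.2.2).1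
    have hwo' : Off A w' := fun a => (hp a.1 a.2.2).2
    -- pairs in one block
    have hone : ∀ a b : ↥(q ∩ p), Relation.ReflTransGen R (w a) (w b) →
        (w a = w b ↔ w' a = w' b) := by
      intro a b hab
      refine (hat (w a) (hwo a)).1 a.1 (Or.inr ⟨a.2.2, Relation.ReflTransGen.refl⟩) b.1
        (Or.inr ⟨b.2.2, hab⟩)
    have hbl : ∀ a b : ↥(q ∩ p), Relation.ReflTransGen R (w a) (w b) ↔
        Relation.ReflTransGen R (w' a) (w' b) := by
      intro a b
      have h1 := hblk a.1 a.2.2 b.1 b.2.2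
      exact BK0_eq.symm.trans (h1.trans BK0_eq)
    have hinj : Function.Injective w := by
      intro a b hab
      have h1 : Relation.ReflTransGen R (w a) (w b) := by rw [hab]
      have h2 := (hone a b h1).1 hab
      exact Subtype.ext (Prod.ext hab h2)
    have hinj' : Function.Injective w' := by
      intro a b hab
      have h1 : Relation.ReflTransGen R (w' a) (w' b) := by rw [hab]
      have h2 := (hone a b ((hbl a b).2 h1)).2 hab
      exact Subtype.ext (Prod.ext h2 hab)
    -- the colours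
    let st : Setoid ↥(q ∩ p) :=
      { r := fun a b => Relation.ReflTransGen R (w a) (w b)
        iseqv := ⟨fun a => Relation.ReflTransGen.refl, fun h => BK0_rsymm h,
          fun h h' => h.trans h'⟩ }
    obtain ⟨f, hf⟩ := exists_injective_nat (Quotient st)
    let κ : ↥(q ∩ p) → ℕ := fun a => f (Quotient.mk st a)
    have hκ : ∀ a b, κ a = κ b ↔ Relation.ReflTransGen R (w a) (w b) := by
      intro a b
      refine hf.eq_iff.trans ?_
      exact ⟨fun h => Quotient.exact h, fun h => Quotient.sound h⟩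
    have hcard : Nat.card ↥(q ∩ p) ≤ r := by
      rw [Nat.card_coe_set_eq]
      exact hfin.2
    obtain ⟨ρ, v, h1, h2, h3, h4⟩ := hF L M S F r I U cl a0 A ↥(q ∩ p) w κ hRep hcl hA hcard
      hinj hwo hκ
    obtain ⟨ρ', v', h1', h2', h3', h4'⟩ := hF L M S F r I U cl a0 A ↥(q ∩ p) w' κ hRep hcl hA
      hcard hinj' hwo' fun a b => (hκ a b).trans (hbl a b)
    have hH1 := hH L M S F r I U cl a0 A ↥(q ∩ p) v v' ρ ρ' hRep hcard h2 h2' h3 h3'
      (fun a b => (h1 a b).trans (h1' a b).symm) fun a => by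
        have e1 : TE S F r (dg A ∪ prt {b | ρ b = ρ a} w v) :=
          h4.anti (union_subset_union_right _ (prt_subset _ _ _))
        have e2 : TE S F r (dg A ∪ prt {b | ρ b = ρ a} w' v') :=
          h4'.anti (union_subset_union_right _ (prt_subset _ _ _))
        have e3 : TE S F r (dg A ∪ prt {b | ρ b = ρ a} w w') := by
          intro s hs _
          refine (hat (w a) (hwo a)).anti ?_
          rintro c (⟨x, hx, rfl⟩ | hc)
          · exact Or.inl ⟨x, hFA hx, rfl⟩
          · rcases hs hc with h5 | ⟨b, hb, rfl⟩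
            · exact Or.inl h5
            · refine Or.inr ⟨b.2.2, ?_⟩
              exact (hκ a b).1 ((h1 a b).1 hb.symm)
        exact BK0_comp (BK0_comp (BK0_symm e1) e3) e2
    rw [← prt_univ] at h4 h4' hH1
    have h5 : TE S F r (dg A ∪ prt univ w w') :=
      BK0_comp (BK0_comp h4 hH1) (BK0_symm h4')
    refine h5 q ?_ hqr
    intro c hc
    rcases hq hc with h6 | h6
    · exact Or.inl h6
    · exact Or.inr ⟨⟨c, hc, h6⟩, mem_univ _, rfl⟩
  · intro x hx
    obtain ⟨B, hB, hBc⟩ := hcl (insert x A) (hA.ctbl.insert x)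
    have hAB : A ⊆ B := (subset_insert x A).trans hB
    refine hBc.ctbl.mono ?_
    intro y hy
    have hy' : Relation.ReflTransGen (Lnk S F r U cl a0 A) x y := hy
    induction hy' with
    | refl => exact hB (mem_insert x A)
    | tail h1 h2 ih => exact BK0_in hA hBc hAB hcl (ih h1) h2

end BK0

end HERN
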