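import Pool.Agent.HERN.St

/-!
# HERN, module BN: existence of good families
-/

set_option autoImplicit false

namespace HERN

open Set Pool.Agent.Helper5.DU Pool.Agent.Helper6.Str Pool.Agent.Helper79.VC
  Pool.Agent.Helper97.LO Pool.Agent.Helper97.VC HER

private theorem BN_PGmono {L : FirstOrder.Language.{0, 0}} {M : Type} {S : L.Structure M}
    {G : Set M} {n : ℕ} {β : Type} {V V' : Set (β → M)} (h : PG S G n V) (hV : V' ⊆ V)
    (hu : ¬ V'.Countable) : PG S G n V' :=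
  ⟨h.fam.mono hV hu, fun A hA => by
    obtain ⟨E, hE, h1⟩ := h.pg A hA
    exact ⟨E, hE, fun w hw w' hw' => h1 w (hV hw) w' (hV hw')⟩⟩

private theorem BN_MXmono {L : FirstOrder.Language.{0, 0}} {M : Type} {S : L.Structure M}
    {G : Set M} {n : ℕ} {β : Type} {V V' : Set (β → M)} {cl : Set M → Set M}
    (h : MX S G n V cl) (hV : V' ⊆ V) : MX S G n V' cl :=
  ⟨h.icl, fun J _ w w' rk rk' A hA h1 h2 h3 h4 =>
    h.mx J w w' rk rk' A hA h1 h2 (fun j => hV (h3 j)) fun j => hV (h4 j)⟩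

private theorem BN_HMmono {L : FirstOrder.Language.{0, 0}} {M : Type} {S : L.Structure M}
    {G : Set M} {n : ℕ} {β : Type} {V V' : Set (β → M)} {cl : Set M → Set M} {c c' : β → M}
    (h : HM S G n V cl c c') (hV : V' ⊆ V) : HM S G n V' cl c c' :=
  fun J _ w rk h1 h2 => h J w rk h1 fun j => hV (h2 j)

theorem thm_BN (hPGX : St_PGX) (hPGG : St_PGG) (hPGL : St_PGL) (hFP : St_FP) (hMIX : St_MIX)
    (hHOM : St_HOM) (hPAIR : St_PAIR) (hTOT : St_TOT) (hCMBN : St_CMBN) (hBFIN : St_BFIN) :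
    St_BN := by
  intro L M S F G n β _ V hC hN hG hFG hPT hV
  obtain ⟨V1, hV1, hPG1⟩ := hPGX L M S F G n β V hN hG hFG hPT hV
  have hFT : FT S G := hC.ft G hG hFG
  by_cases hb : n + 1 ≤ Nat.card β
  · obtain ⟨V', hV', hGd⟩ := hPGL L M S G n β V1 hFT hPG1 hb
    exact ⟨V', hV'.trans hV1, hGd⟩
  have hb1 : 1 ≤ Nat.card β := by
    have : Nonempty β := hV.nonempty
    exact Nat.card_pos
  obtain ⟨k, hk⟩ : ∃ k, k + Nat.card β = n + 1 := ⟨n + 1 - Nat.card β, by omega⟩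
  have hk1 : 1 ≤ k := by omega
  obtain ⟨V2, hV2, hu2, hF2⟩ := hFP L M S F G n k β V1 hC hN hG hFG hPG1 hk
  have hPG2 : PG S G n V2 := BN_PGmono hPG1 hV2 hu2
  obtain ⟨cl, hMX⟩ := hMIX L M S F G n k β V2 hN hG hFG hPG2 hk hF2
  obtain ⟨V3, hV3, hu3, hHM⟩ := hHOM L M S G (n + 1) β V2 cl hFT hPG2.fam hMX
  have hfam3 : Fam V3 := hPG2.fam.mono hV3 hu3
  obtain ⟨V4, hV4, hu4, cl4, hcl4, hPR4⟩ := hPAIR L M S F G (n + 1) β V3 cl hC hG hFG
    (by omega) hMX.icl hfam3 fun c hc c' hc' => BN_HMmono (hHM c hc c' hc') hV3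
  have hfam4 : Fam V4 := hfam3.mono hV4 hu4
  obtain ⟨cl5, hcl5, hTot⟩ := hTOT L M S F G (n + 1) β V2 V4 cl cl4 hC.sym hG hFG hMX
    (hV4.trans hV3) hfam4 (fun c hc c' hc' => hHM c (hV4 hc) c' (hV4 hc')) hcl4 hPR4
  have hPG4 : PG S G n V4 := BN_PGmono hPG2 (hV4.trans hV3) hu4
  by_contra hno
  push Not at hno
  have hbad : ∀ V' ⊆ V4, ¬ V'.Countable → ∃ U : Set M, U.encard ≤ k ∧ ¬ Trv S G V' U := by
    intro V' hV' hu'
    by_contra hc
    push Not at hc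
    refine hno V' (hV'.trans (hV4.trans (hV3.trans (hV2.trans hV1)))) ?_
    refine hPGG L M S G n β V' (BN_PGmono hPG4 hV' hu') fun U hU => hc U ?_
    have h1 : U.encard + (Nat.card β : ℕ∞) ≤ (k : ℕ∞) + (Nat.card β : ℕ∞) := by
      refine hU.trans ?_
      have h2 : ((n : ℕ∞) + 1) = ((k + Nat.card β : ℕ) : ℕ∞) := by
        rw [hk]
        push_cast
        rfl
      rw [h2]
      push_cast
      exact le_rfl
    exact (WithTop.add_le_add_iff_right (WithTop.coe_ne_top)).mp h1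
  obtain ⟨z, W, hW, hzW⟩ := hCMBN L M S G k β V4 hFT hfam4 hbad
  exact hBFIN L M S F G n k β V4 cl cl5 z W hC.rows hFT hG hFG hk hk1 hfam4 hPG4
    (BN_MXmono hMX (hV4.trans hV3)) hcl5 hTot hW hzW

end HERN
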