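import Pool.Agent.HERN.St
import Pool.Agent.HER.CCB

/-!
# HERN: [CCN] combs of good families
-/

set_option autoImplicit false
set_option linter.unusedVariables false

namespace HERN

open Set Pool.Agent.Helper5.DU Pool.Agent.Helper6.Str Pool.Agent.Helper79.VC
  Pool.Agent.Helper97.LO Pool.Agent.Helper97.VC HER

variable {L : FirstOrder.Language.{0, 0}} {M : Type} {S : L.Structure M} {G : Set M} {n : ℕ}

theorem CCN_prs_elim {γ β : Type} (z z' : γ → M) (w w' : β → M) :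
    prs (Sum.elim z w) (Sum.elim z' w') = prs z z' ∪ prs w w' := by
  ext a
  constructor
  · rintro ⟨i | i, rfl⟩
    · exact Or.inl ⟨i, rfl⟩
    · exact Or.inr ⟨i, rfl⟩
  · rintro (⟨i, rfl⟩ | ⟨i, rfl⟩)
    · exact ⟨Sum.inl i, rfl⟩
    · exact ⟨Sum.inr i, rfl⟩

/-- finitely many `TE` classes -/
theorem CCN_classes (hF : FT S G) (n : ℕ) (γ : Type) [Finite γ] :
    ∃ (C : Type) (_ : Finite C) (K : (γ → M) → C), ∀ v v', K v = K v' ↔ TE S G n (prs v v') := by
  obtain ⟨C, hC, t, ht⟩ := hF γ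
  refine ⟨Set C, inferInstance, fun v => {c | ∃ v', t v' = c ∧ TE S G n (prs v v')},
    fun v v' => ⟨fun h => ?_, fun h => ?_⟩⟩
  · have h1 : t v' ∈ {c | ∃ v'', t v'' = c ∧ TE S G n (prs v' v'')} :=
      ⟨v', rfl, by rw [prs_self]; exact te_diag S G n fun a ha => (mem_dg.1 ha).2⟩
    have h2 : t v' ∈ {c | ∃ v'', t v'' = c ∧ TE S G n (prs v v'')} := by
      have h3 : {c | ∃ v'', t v'' = c ∧ TE S G n (prs v v'')} =
        {c | ∃ v'', t v'' = c ∧ TE S G n (prs v' v'')} := h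
      rw [h3]
      exact h1
    obtain ⟨v'', h4, h5⟩ := h2
    have h6 : TE S G n (prs v'' v') := fun q hq hqn =>
      ((ht v'' v').1 h4).anti (union_subset_union_right _ hq)
    refine h5.comp h6 ?_
    rintro a ⟨i, rfl⟩
    exact ⟨v'' i, ⟨i, rfl⟩, ⟨i, rfl⟩⟩
  · have h' : TE S G n (prs v' v) := h.symm' (by
      rintro a ⟨i, rfl⟩
      exact ⟨i, rfl⟩)
    ext c
    constructor
    · rintro ⟨v'', h1, h2⟩
      refine ⟨v'', h1, h'.comp h2 ?_⟩
      rintro a ⟨i, rfl⟩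
      exact ⟨v i, ⟨i, rfl⟩, ⟨i, rfl⟩⟩
    · rintro ⟨v'', h1, h2⟩
      refine ⟨v'', h1, h.comp h2 ?_⟩
      rintro a ⟨i, rfl⟩
      exact ⟨v' i, ⟨i, rfl⟩, ⟨i, rfl⟩⟩

theorem CCN_enum {A Q : Set M} {x0 : M} (hx : x0 ∈ A) (hQ : Q ⊆ A) (hn : Q.encard ≤ n) :
    ∃ z : Fin n → A, Q ⊆ range (fun i => (z i : M)) := by
  classical
  have hfin : Q.Finite := finite_of_encard_le_coe hn
  have hcard : hfin.toFinset.card ≤ n := by
    have h1 : Q.encard = (hfin.toFinset.card : ℕ∞) := hfin.encard_eq_coe_toFinset_card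
    rw [h1] at hn
    exact_mod_cast hn
  set e := hfin.toFinset.equivFin with he
  refine ⟨fun k => if h : (k : ℕ) < hfin.toFinset.card then
    ⟨(e.symm ⟨k, h⟩ : M), hQ (hfin.mem_toFinset.1 (e.symm ⟨k, h⟩).2)⟩ else ⟨x0, hx⟩, ?_⟩
  intro x hxQ
  have hx' : x ∈ hfin.toFinset := hfin.mem_toFinset.2 hxQ
  refine ⟨⟨(e ⟨x, hx'⟩ : ℕ), lt_of_lt_of_le (e ⟨x, hx'⟩).2 hcard⟩, ?_⟩
  simp only
  rw [dif_pos (e ⟨x, hx'⟩).2]
  simp

theorem thm_CCN : St_CCN := by
  intro L M S G n β _ V hF hV hne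
  obtain ⟨C, hC, K, hK⟩ := CCN_classes hF n (Fin n ⊕ β)
  have h1 : ∀ (i : ℕ) (z : Fin n → M), ∃ (c : C) (E : Set M), E.Countable ∧
      ∀ w ∈ V i, Off E w → K (Sum.elim z w) = c := by
    intro i z
    obtain ⟨E, hE, h2⟩ := (hV i).eqv (range z) (countable_range z)
    obtain ⟨w0, hw0, hw0E⟩ := (hV i).fam.exists_off hE
    refine ⟨K (Sum.elim z w0), E, hE, fun w hw hwE => (hK _ _).2 ?_⟩
    rw [CCN_prs_elim, prs_self]
    exact h2 w hw w0 hw0 hwE hw0E
  choose f E hE hf using h1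
  -- the functions are different
  have hinj : Function.Injective f := by
    intro i j hij
    by_contra hne'
    apply hne i j hne'
    intro A hA
    obtain ⟨w0, hw0, -⟩ := (hV i).fam.exists_off countable_empty
    obtain ⟨p0⟩ := (hV i).fam.nonempty
    have hA0 : (insert (w0 p0) A).Countable := hA.insert _
    have : Countable (insert (w0 p0) A : Set M) := hA0.to_subtype
    refine ⟨⋃ z : Fin n → (insert (w0 p0) A : Set M), (E i fun k => (z k : M)) ∪
      (E j fun k => (z k : M)), countable_iUnion fun z => (hE i _).union (hE j _), ?_⟩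
    intro w hw w' hw' hwE hw'E q hq hqn
    have hQ : {x | (x, x) ∈ q ∧ x ∈ A} ⊆ insert (w0 p0) A := fun x hx => Or.inr hx.2
    have hQn : {x | (x, x) ∈ q ∧ x ∈ A}.encard ≤ n := by
      refine le_trans ?_ hqn
      have h3 : {x | (x, x) ∈ q ∧ x ∈ A} ⊆ Prod.fst '' q := fun x hx => ⟨(x, x), hx.1, rfl⟩
      exact (encard_le_encard h3).trans (encard_image_le _ _)
    obtain ⟨z, hz⟩ := CCN_enum (mem_insert _ _) hQ hQn
    have hwE' : Off (E i fun k => (z k : M)) w :=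
      hwE.anti (subset_iUnion_of_subset z subset_union_left)
    have hw'E' : Off (E j fun k => (z k : M)) w' :=
      hw'E.anti (subset_iUnion_of_subset z subset_union_right)
    have h4 : K (Sum.elim (fun k => (z k : M)) w) = K (Sum.elim (fun k => (z k : M)) w') := by
      rw [hf i _ w hw hwE', hf j _ w' hw' hw'E', hij]
    have h5 := (hK _ _).1 h4
    rw [CCN_prs_elim] at h5
    refine h5 q ?_ hqn
    intro a ha
    rcases hq ha with ⟨x, hx, rfl⟩ | h6
    · obtain ⟨k, hk⟩ := hz (show x ∈ {x | (x, x) ∈ q ∧ x ∈ A} from ⟨ha, hx⟩)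
      refine Or.inl ⟨k, ?_⟩
      simp only at hk
      exact Prod.ext hk hk
    · exact Or.inr h6
  obtain ⟨h, z, p, e, hpe, hG, hz1, hz2⟩ := thm_CCB (Fin n → M) C (range f)
    (infinite_range_of_injective hinj)
  choose ψ hψ using hG
  have hψinj : Function.Injective ψ := by
    have h3 : ∀ i j, i < j → ψ i ≠ ψ j := by
      intro i j hij h4
      have h5 : h i = h j := by rw [← hψ i, ← hψ j, h4]
      have h6 := hz1 i
      rw [h5, hz2 i j hij] at h6
      exact hpe h6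
    intro i j hij
    rcases lt_trichotomy i j with h4 | h4 | h4
    · exact absurd hij (h3 i j h4)
    · exact h4
    · exact absurd hij.symm (h3 j i h4)
  obtain ⟨σ, hσ, hσ'⟩ := Filter.strictMono_subseq_of_tendsto_atTop hψinj.nat_tendsto_atTop
  refine ⟨ψ ∘ σ, fun i => z (σ i), hσ', fun i j hij => ?_⟩
  refine ⟨E (ψ (σ i)) (z (σ i)) ∪ E (ψ (σ j)) (z (σ i)), (hE _ _).union (hE _ _), ?_⟩
  intro w hw w' hw' hwE hw'E hT
  rw [off_union] at hwE hw'E
  rw [← CCN_prs_elim, ← hK] at hT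
  have h6 := hf (ψ (σ i)) (z (σ i)) w hw hwE.1
  have h7 := hf (ψ (σ j)) (z (σ i)) w' hw' hw'E.2
  simp only at hT
  rw [hψ, hz1] at h6
  rw [hψ, hz2 _ _ (hσ hij)] at h7
  rw [h6, h7] at hT
  exact hpe hT.symm

end HERN
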