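import Pool.Agent.HERN.St

/-!
# HERN [CFC]: countable systems
-/

set_option autoImplicit false
set_option linter.unusedVariables false

namespace HERN

open Set Pool.Agent.Helper5.DU Pool.Agent.Helper6.Str Pool.Agent.Helper79.VC
  Pool.Agent.Helper97.LO Pool.Agent.Helper97.VC HER

theorem thm_CFC : St_CFC := by
  intro L M S G n I _ β V h
  choose c hc using h
  have hcl : IsCl fun A => A ∪ ⋃ I' : Finset I, c I' A :=
    ⟨fun A B hAB => union_subset_union hAB
        (iUnion_mono fun I' => (hc I').icl.mono A B hAB),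
      fun A => subset_union_left,
      fun A hA => hA.union (countable_iUnion fun I' => (hc I').icl.ctbl A hA)⟩
  refine ⟨fun A => A ∪ ⋃ I' : Finset I, c I' A, hcl, ?_⟩
  intro J _ l w w' rk rk' A hA hrk hrk' hw hw' hG hG'
  set I' : Finset I := (Set.finite_range l).toFinset with hI'
  have hl : ∀ j, l j ∈ I' := fun j => by simp [hI']
  have hsub : ∀ B, c I' B ⊆ B ∪ ⋃ I' : Finset I, c I' B := fun B =>
    (subset_iUnion (fun I' => c I' B) I').trans subset_union_right
  exact (hc I').com J (fun j => ⟨l j, hl j⟩) w w' rk rk' A hA hrk hrk' hw hw'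
    (Gen.mono (cl' := fun A => A ∪ ⋃ I' : Finset I, c I' A) hG hsub hcl Subset.rfl)
    (Gen.mono (cl' := fun A => A ∪ ⋃ I' : Finset I, c I' A) hG' hsub hcl Subset.rfl)

end HERN
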