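import Pool.Agent.HERN.St

/-!
# HERN: chain systems with the same parts are equivalent
-/

set_option autoImplicit false

namespace HERN

open Set Pool.Agent.Helper5.DU Pool.Agent.Helper6.Str Pool.Agent.Helper79.VC
  Pool.Agent.Helper97.LO Pool.Agent.Helper97.VC HER

section

variable {L : FirstOrder.Language.{0, 0}} {M : Type} {S : L.Structure M} {F : Set M} {r : ℕ}
  {I : ℕ → Type} {U : ∀ b, I b → Set (Fin b → M)} {cl : Set M → Set M} {a0 : Set M}

/-- existence of generic sequences -/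
theorem CH_exists_gen {J : Type} [Finite J] {β : J → Type} [∀ j, Finite (β j)]
    (V : ∀ j, Set (β j → M)) (hV : ∀ j, Fam (V j)) (hcl : IsCl cl) {A : Set M}
    (hA : A.Countable) (rk : J → ℕ) (hrk : Function.Injective rk) :
    ∃ w : ∀ j, β j → M, (∀ j, w j ∈ V j) ∧ Gen cl A rk w := by
  classical
  have h1 : ∀ n : ℕ, ∃ w : ∀ j, β j → M, (∀ j, w j ∈ V j) ∧ ∀ j, rk j < n →
      Off (cl (A ∪ {x | ∃ i, rk i < rk j ∧ x ∈ range (w i)})) (w j) := by
    intro n
    induction n with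
    | zero =>
      have h0 : ∀ j, ∃ w : β j → M, w ∈ V j := fun j => by
        obtain ⟨w, hw, -⟩ := (hV j).exists_off (E := ∅) countable_empty
        exact ⟨w, hw⟩
      choose w hw using h0
      exact ⟨w, hw, fun j hj => absurd hj (Nat.not_lt_zero _)⟩
    | succ n ih =>
      obtain ⟨w, hw, hw'⟩ := ih
      by_cases hj0 : ∃ j0, rk j0 = n
      · obtain ⟨j0, hj0⟩ := hj0
        have hc : (cl (A ∪ {x | ∃ i, rk i < n ∧ x ∈ range (w i)})).Countable := by
          refine hcl.ctbl _ (hA.union ?_)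
          have h2 : {x | ∃ i, rk i < n ∧ x ∈ range (w i)} ⊆ ⋃ i, range (w i) := by
            rintro x ⟨i, -, hx⟩
            exact mem_iUnion.mpr ⟨i, hx⟩
          exact (countable_iUnion fun i => countable_range (w i)).mono h2
        obtain ⟨u, hu, huo⟩ := (hV j0).exists_off hc
        refine ⟨Function.update w j0 u, ?_, ?_⟩
        · intro j
          by_cases h : j = j0
          · subst h
            rw [Function.update_self]
            exact hu
          · rw [Function.update_of_ne h]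
            exact hw j
        · intro j hj
          have hne : ∀ i, rk i < n → i ≠ j0 := by
            rintro i hi rfl
            omega
          by_cases h : j = j0
          · subst h
            rw [Function.update_self]
            refine huo.anti (hcl.mono _ _ (union_subset_union_right _ ?_))
            rintro x ⟨i, hi, hx⟩
            rw [hj0] at hi
            rw [Function.update_of_ne (hne i hi)] at hx
            exact ⟨i, hi, hx⟩
          · rw [Function.update_of_ne h]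
            have hjn : rk j < n := by
              have h3 : rk j ≠ n := fun h2 => h (hrk (h2.trans hj0.symm))
              omega
            refine (hw' j hjn).anti (hcl.mono _ _ (union_subset_union_right _ ?_))
            rintro x ⟨i, hi, hx⟩
            rw [Function.update_of_ne (hne i (hi.trans hjn))] at hx
            exact ⟨i, hi, hx⟩
      · refine ⟨w, hw, fun j hj => hw' j ?_⟩
        have h3 : rk j ≠ n := fun h => hj0 ⟨j, h⟩
        omega
  obtain ⟨N, hN⟩ := (Set.finite_range rk).bddAbove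
  obtain ⟨w, hw, hw'⟩ := h1 (N + 1)
  exact ⟨w, hw, fun j => hw' j (Nat.lt_succ_of_le (hN (mem_range_self j)))⟩

/-- a chain system is equivalent to every generic sequence, from the top -/
theorem CH_claim (hR : Rep S F r U cl a0) {J : Type} [Finite J] (rk : J → ℕ)
    (hrk : Function.Injective rk) (l : J → Σ b, I b) (B : ℕ → Set M)
    (hB : ∀ k, B k ⊆ B (k + 1)) (hC : ∀ k, (B k).Countable) (wt : ∀ j, Fin (l j).1 → M)
    (hin : ∀ j p, wt j p ∈ B (rk j + 1))
    (hE : ∀ j, Ext S F r U cl (B (rk j)) (l j).2 (wt j)) :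
    ∀ (d N m : ℕ), (∀ j, rk j < N) → N ≤ m + d → ∀ x : ∀ j, Fin (l j).1 → M,
      (∀ j, m ≤ rk j → x j ∈ U (l j).1 (l j).2) →
      (∀ j, m ≤ rk j →
        Off (cl (B m ∪ {z | ∃ i, m ≤ rk i ∧ rk i < rk j ∧ z ∈ range (x i)})) (x j)) →
      TE S F r (dg (B m) ∪ {a | ∃ j, m ≤ rk j ∧ a ∈ prs (wt j) (x j)}) := by
  intro d
  induction d with
  | zero =>
    intro N m hN hm x hx hg
    refine te_diag S F r ?_
    rintro a (⟨z, -, rfl⟩ | ⟨j, hj, -⟩)
    · rfl
    · have := hN j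
      omega
  | succ d ih =>
    intro N m hN hm x hx hg
    have hcl := hR.com.icl
    obtain ⟨y, hy, hyg⟩ := CH_exists_gen (fun j => U (l j).1 (l j).2)
      (fun j => (hR.gd _ _).fam) hcl (hC (m + 1)) rk hrk
    have h1 := ih N (m + 1) hN (by omega) y (fun j _ => hy j) (fun j _ => (hyg j).anti
      (hcl.mono _ _ (union_subset_union_right _ (by
        rintro z ⟨i, -, h2, h3⟩
        exact ⟨i, h2, h3⟩))))
    by_cases hj0 : ∃ j0, rk j0 = m
    · obtain ⟨j0, hj0⟩ := hj0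
      subst hj0
      have h2 := hE j0 {j : J // rk j0 < rk j} (fun j => l j.1) (fun j => y j.1)
        (fun j => x j.1) (fun j => rk j.1) (x j0) (fun a b hab => Subtype.ext (hrk hab))
        (fun j => hy j.1) (fun j => hx j.1 j.2.le) (hx j0 le_rfl)
        ((hg j0 le_rfl).anti (hcl.mono _ _ subset_union_left))
        (fun j => (hyg j.1).anti (hcl.mono _ _ (by
          rintro z ((hz | ⟨p, rfl⟩) | ⟨i, hi, hz⟩)
          · exact Or.inl (hB _ hz)
          · exact Or.inl (hin j0 p)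
          · exact Or.inr ⟨i.1, hi, hz⟩)))
        (fun j => (hg j.1 j.2.le).anti (hcl.mono _ _ (by
          rintro z ((hz | hz) | ⟨i, hi, hz⟩)
          · exact Or.inl hz
          · exact Or.inr ⟨j0, le_rfl, j.2, hz⟩
          · exact Or.inr ⟨i.1, i.2.le, hi, hz⟩)))
      refine h1.comp h2 ?_
      rintro a (⟨z, hz, rfl⟩ | ⟨j, hj, p, rfl⟩)
      · exact ⟨z, Or.inl ⟨z, hB _ hz, rfl⟩, Or.inl (Or.inl ⟨z, hz, rfl⟩)⟩
      · by_cases hjj : j = j0
        · subst hjj
          exact ⟨wt j p, Or.inl ⟨wt j p, hin j p, rfl⟩, Or.inl (Or.inr ⟨p, rfl⟩)⟩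
        · have hlt : rk j0 < rk j := by
            have h3 : rk j0 ≠ rk j := fun h => hjj (hrk h).symm
            omega
          exact ⟨y j p, Or.inr ⟨j, hlt, p, rfl⟩,
            Or.inr (mem_iUnion.mpr ⟨⟨j, hlt⟩, p, rfl⟩)⟩
    · have hlt : ∀ j, m ≤ rk j → m < rk j := fun j hj =>
        lt_of_le_of_ne hj fun h => hj0 ⟨j, h.symm⟩
      have h2 := hR.com.com {j : J // m < rk j} (fun j => l j.1) (fun j => y j.1)
        (fun j => x j.1) (fun j => rk j.1) (fun j => rk j.1) (B m) (hC m)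
        (fun a b hab => Subtype.ext (hrk hab)) (fun a b hab => Subtype.ext (hrk hab))
        (fun j => hy j.1) (fun j => hx j.1 j.2.le)
        (fun j => (hyg j.1).anti (hcl.mono _ _ (by
          rintro z (hz | ⟨i, hi, hz⟩)
          · exact Or.inl (hB _ hz)
          · exact Or.inr ⟨i.1, hi, hz⟩)))
        (fun j => (hg j.1 j.2.le).anti (hcl.mono _ _ (by
          rintro z (hz | ⟨i, hi, hz⟩)
          · exact Or.inl hz
          · exact Or.inr ⟨i.1, i.2.le, hi, hz⟩)))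
      refine h1.comp h2 ?_
      rintro a (⟨z, hz, rfl⟩ | ⟨j, hj, p, rfl⟩)
      · exact ⟨z, Or.inl ⟨z, hB _ hz, rfl⟩, Or.inl ⟨z, hz, rfl⟩⟩
      · exact ⟨y j p, Or.inr ⟨j, hlt j hj, p, rfl⟩,
          Or.inr (mem_iUnion.mpr ⟨⟨j, hlt j hj⟩, p, rfl⟩)⟩

end

theorem thm_CH : St_CH := by
  classical
  intro L M S F r I U cl a0 A β _ w w' ρ ρ' hR hβ hw hw' hch hch' hρ hparts
  obtain ⟨B, hB0, hBm, hBC, hBw⟩ := hch
  obtain ⟨B', hB0', hBm', hBC', hBw'⟩ := hch'
  have hcl := hR.com.icl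
  have hAc : A.Countable := hB0 ▸ (hBC 0).ctbl
  have hA0 : a0 ⊆ A := hB0 ▸ (hBC 0).a0A
  have hJ : Finite (range ρ) := (Set.finite_range ρ).to_subtype
  -- the parts
  have hP : ∀ k : range ρ, ∃ (b : ℕ) (_ : Fin b ≃ {q : β // ρ q = k.1}), 1 ≤ b ∧ b ≤ r := by
    rintro ⟨k, q, hq⟩
    have hne : Nonempty {q : β // ρ q = k} := ⟨⟨q, hq⟩⟩
    refine ⟨Nat.card {q : β // ρ q = k}, (Finite.equivFin _).symm, ?_, ?_⟩
    · exact Nat.card_pos
    · exact (Nat.card_le_card_of_injective _ Subtype.val_injective).trans hβ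
  choose b e hb1 hbr using hP
  have hrep : ∀ k : range ρ, ∃ p, ρ p = k.1 := fun k => k.2
  choose rep hrep using hrep
  have hrq : ∀ (k : range ρ) (q : β), ρ q = k.1 → ρ' q = ρ' (rep k) := fun k q hq =>
    (hρ q (rep k)).mp (hq.trans (hrep k).symm)
  have hinj : ∀ (u : β → M), Function.Injective u → ∀ k : range ρ,
      Function.Injective fun s => u (e k s).1 := fun u hu k s t hst =>
    (e k).injective (Subtype.ext (hu hst))
  -- the indices
  have hidx : ∀ k : range ρ, ∃ i : I (b k),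
      Tp S F r cl (U (b k) i) (B k.1) (fun s => w (e k s).1) ∧
        Ext S F r U cl (B k.1) i (fun s => w (e k s).1) := fun k =>
    (hBC k.1).ok (b k) (hb1 k) (hbr k) _ (hinj w hw k) (fun s hs => by
      have h1 := (hBw (e k s).1).1
      rw [(e k s).2] at h1
      exact h1 hs)
  have hidx' : ∀ k : range ρ, ∃ i : I (b k),
      Tp S F r cl (U (b k) i) (B' (ρ' (rep k))) (fun s => w' (e k s).1) ∧
        Ext S F r U cl (B' (ρ' (rep k))) i (fun s => w' (e k s).1) := fun k =>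
    (hBC' (ρ' (rep k))).ok (b k) (hb1 k) (hbr k) _ (hinj w' hw' k) (fun s hs => by
      have h1 := (hBw' (e k s).1).1
      rw [hrq k _ (e k s).2] at h1
      exact h1 hs)
  choose i hT hE using hidx
  choose i' hT' hE' using hidx'
  have hii : i = i' := by
    funext k
    by_contra hne
    obtain ⟨v, hv, hvo⟩ := (hR.gd (b k) (i k)).fam.exists_off (hcl.ctbl _ (hBC k.1).ctbl)
    obtain ⟨v', hv', hvo'⟩ := (hR.gd (b k) (i' k)).fam.exists_off
      (hcl.ctbl _ (hBC' (ρ' (rep k))).ctbl)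
    refine hR.dist (b k) (i k) (i' k) hne v hv v' hv'
      (hvo.anti (hcl.mono _ _ (hBC k.1).a0A)) (hvo'.anti (hcl.mono _ _ (hBC' _).a0A)) ?_
    have t1 := hT k v hv hvo
    have t2 := hT' k v' hv' hvo'
    have t3 := hparts (rep k)
    have t4 : TE S F r (dg a0 ∪ prs v (fun s => w' (e k s).1)) := t1.comp t3 (by
      rintro a (⟨z, hz, rfl⟩ | ⟨s, rfl⟩)
      · exact ⟨z, Or.inl ⟨z, (hBC k.1).a0A hz, rfl⟩, Or.inl ⟨z, hA0 hz, rfl⟩⟩
      · exact ⟨w (e k s).1, Or.inr ⟨s, rfl⟩, Or.inr ⟨(e k s).1,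
          (e k s).2.trans (hrep k).symm, rfl⟩⟩)
    have t5 : TE S F r (dg a0 ∪ prs (fun s => w' (e k s).1) v') := t2.symm' (by
      rintro a (⟨z, hz, rfl⟩ | ⟨s, rfl⟩)
      · exact Or.inl ⟨z, (hBC' _).a0A hz, rfl⟩
      · exact Or.inr ⟨s, rfl⟩)
    refine t4.comp t5 ?_
    rintro a (⟨z, hz, rfl⟩ | ⟨s, rfl⟩)
    · exact ⟨z, Or.inl ⟨z, hz, rfl⟩, Or.inl ⟨z, hz, rfl⟩⟩
    · exact ⟨w' (e k s).1, Or.inr ⟨s, rfl⟩, Or.inr ⟨s, rfl⟩⟩
  subst hii
  -- generic sequences
  have hrk : Function.Injective (fun k : range ρ => k.1) := Subtype.val_injective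
  have hrk' : Function.Injective (fun k : range ρ => ρ' (rep k)) := by
    intro k k' h
    have h1 := (hρ (rep k) (rep k')).mpr h
    rw [hrep, hrep] at h1
    exact Subtype.ext h1
  obtain ⟨x, hx, hxg⟩ := CH_exists_gen
    (fun k : range ρ => U (⟨b k, i k⟩ : Σ b, I b).1 (⟨b k, i k⟩ : Σ b, I b).2)
    (fun k => (hR.gd _ _).fam) hcl hAc (fun k : range ρ => k.1) hrk
  obtain ⟨x', hx', hxg'⟩ := CH_exists_gen
    (fun k : range ρ => U (⟨b k, i k⟩ : Σ b, I b).1 (⟨b k, i k⟩ : Σ b, I b).2)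
    (fun k => (hR.gd _ _).fam) hcl hAc (fun k : range ρ => ρ' (rep k)) hrk'
  have hcom := hR.com.com (range ρ) (fun k => (⟨b k, i k⟩ : Σ b, I b)) x x'
    (fun k => k.1) (fun k => ρ' (rep k)) A hAc hrk hrk' hx hx' hxg hxg'
  obtain ⟨N, hN⟩ := (Set.finite_range (fun k : range ρ => k.1)).bddAbove
  obtain ⟨N', hN'⟩ := (Set.finite_range (fun k : range ρ => ρ' (rep k))).bddAbove
  have c1 := CH_claim hR (fun k : range ρ => k.1) hrk (fun k => (⟨b k, i k⟩ : Σ b, I b)) B hBm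
    (fun k => (hBC k).ctbl) (fun k s => w (e k s).1) (fun k s => by
      have h1 := (hBw (e k s).1).2
      rw [(e k s).2] at h1
      exact h1) hE (N + 1) (N + 1) 0 (fun k => Nat.lt_succ_of_le (hN (mem_range_self k)))
    (by omega) x (fun k _ => hx k) (fun k _ => (hxg k).anti (hcl.mono _ _ (by
      rintro z (hz | ⟨j, -, hj, hz⟩)
      · exact Or.inl (hB0 ▸ hz)
      · exact Or.inr ⟨j, hj, hz⟩)))
  have c2 := CH_claim hR (fun k : range ρ => ρ' (rep k)) hrk' (fun k => (⟨b k, i k⟩ : Σ b, I b))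
    B' hBm' (fun k => (hBC' k).ctbl) (fun k s => w' (e k s).1) (fun k s => by
      have h1 := (hBw' (e k s).1).2
      rw [hrq k _ (e k s).2] at h1
      exact h1) hE' (N' + 1) (N' + 1) 0 (fun k => Nat.lt_succ_of_le (hN' (mem_range_self k)))
    (by omega) x' (fun k _ => hx' k) (fun k _ => (hxg' k).anti (hcl.mono _ _ (by
      rintro z (hz | ⟨j, -, hj, hz⟩)
      · exact Or.inl (hB0' ▸ hz)
      · exact Or.inr ⟨j, hj, hz⟩)))
  rw [hB0] at c1
  rw [hB0'] at c2
  have c3 : TE S F r (dg A ∪ {a | ∃ k : range ρ, a ∈ prs (fun s => w (e k s).1) (x' k)}) :=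
    c1.comp hcom (by
      rintro a (⟨z, hz, rfl⟩ | ⟨k, s, rfl⟩)
      · exact ⟨z, Or.inl ⟨z, hz, rfl⟩, Or.inl ⟨z, hz, rfl⟩⟩
      · exact ⟨x k s, Or.inr ⟨k, Nat.zero_le _, s, rfl⟩, Or.inr (mem_iUnion.mpr ⟨k, s, rfl⟩)⟩)
  have c4 : TE S F r (dg A ∪ {a | ∃ k : range ρ, a ∈ prs (x' k) (fun s => w' (e k s).1)}) :=
    c2.symm' (by
      rintro a (⟨z, hz, rfl⟩ | ⟨k, s, rfl⟩)
      · exact Or.inl ⟨z, hz, rfl⟩
      · exact Or.inr ⟨k, Nat.zero_le _, s, rfl⟩)
  refine c3.comp c4 ?_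
  rintro a (⟨z, hz, rfl⟩ | ⟨q, rfl⟩)
  · exact ⟨z, Or.inl ⟨z, hz, rfl⟩, Or.inl ⟨z, hz, rfl⟩⟩
  · obtain ⟨s, hs⟩ := (e ⟨ρ q, mem_range_self q⟩).surjective ⟨q, rfl⟩
    have hs' : (e ⟨ρ q, mem_range_self q⟩ s).1 = q := congrArg Subtype.val hs
    refine ⟨x' ⟨ρ q, mem_range_self q⟩ s, Or.inr ⟨⟨ρ q, mem_range_self q⟩, s, ?_⟩,
      Or.inr ⟨⟨ρ q, mem_range_self q⟩, s, ?_⟩⟩
    · beta_reduce
      rw [hs']
    · beta_reduce
      rw [hs']

end HERN
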