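import Pool.Agent.HERN.St

/-!
# HERN: existence of chain systems (module CHE).  helper91.
-/

set_option autoImplicit false

namespace HERN

open Set Pool.Agent.Helper5.DU Pool.Agent.Helper6.Str Pool.Agent.Helper79.VC
  Pool.Agent.Helper97.LO Pool.Agent.Helper97.VC HER

/-- one level: a copy of the tuple `w` over `A` outside of the closed set `B` -/
private theorem CHE_step {L : FirstOrder.Language.{0, 0}} {M : Type} {S : L.Structure M}
    {F : Set M} {r : ℕ} {I : ℕ → Type} {U : ∀ b, I b → Set (Fin b → M)} {cl : Set M → Set M}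
    {a0 A : Set M} (hrep : Rep S F r U cl a0)
    (hcl : ∀ A' : Set M, A'.Countable → ∃ B, A' ⊆ B ∧ Clos S F r U cl a0 B)
    (hA : Clos S F r U cl a0 A) (P : Type) [Finite P] (w : P → M) (hr : Nat.card P ≤ r)
    (hinj : Function.Injective w) (hoff : Off A w) (B : Set M) (hB : Clos S F r U cl a0 B) :
    ∃ (B' : Set M) (v : P → M), Clos S F r U cl a0 B' ∧ B ⊆ B' ∧ Function.Injective v ∧
      Off B v ∧ (∀ q, v q ∈ B') ∧ TE S F r (dg A ∪ prs w v) := by
  by_cases hP : IsEmpty P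
  · refine ⟨B, w, hB, Subset.rfl, hinj, fun q => hP.elim q, fun q => hP.elim q, ?_⟩
    refine te_diag S F r ?_
    rintro a (⟨x, -, rfl⟩ | ⟨q, rfl⟩)
    · rfl
    · rfl
  · have hP : Nonempty P := not_isEmpty_iff.1 hP
    have e : P ≃ Fin (Nat.card P) := Finite.equivFin P
    obtain ⟨i, h1, -⟩ := hA.ok (Nat.card P) Nat.card_pos hr (w ∘ e.symm)
      (hinj.comp e.symm.injective) fun q => hoff _
    obtain ⟨v, hv, h2⟩ := (hrep.gd (Nat.card P) i).fam.exists_off
      ((hrep.com.icl.ctbl A hA.ctbl).union hB.ctbl)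
    rw [off_union] at h2
    obtain ⟨B', h3, h4⟩ := hcl (B ∪ range v) (hB.ctbl.union (countable_range v))
    refine ⟨B', v ∘ e, h4, subset_union_left.trans h3,
      ((hrep.gd (Nat.card P) i).fam.inj hv).comp e.injective, fun q => h2.2 _,
      fun q => h3 (Or.inr (mem_range_self _)), (h1 v hv h2.1).symm' ?_⟩
    rintro a (⟨x, hx, rfl⟩ | ⟨q, rfl⟩)
    · exact Or.inl ⟨x, hx, rfl⟩
    · refine Or.inr ⟨e q, ?_⟩
      show (v (e q), w (e.symm (e q))) = (v (e q), w q)
      rw [e.symm_apply_apply]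

/-- CHE: existence of chain systems -/
theorem thm_CHE : St_CHE := by
  intro L M S F r I U cl a0 A β _ w ρ hrep hcl hA hr hinj hoff
  have step : ∀ (k : ℕ) (B : {B : Set M // Clos S F r U cl a0 B}),
      ∃ (B' : {B : Set M // Clos S F r U cl a0 B}) (v : {q // ρ q = k} → M),
        B.1 ⊆ B'.1 ∧ Function.Injective v ∧ Off B.1 v ∧ (∀ q, v q ∈ B'.1) ∧
        TE S F r (dg A ∪ prs (fun q : {q // ρ q = k} => w q) v) := by
    intro k B
    obtain ⟨B', v, h1, h2⟩ := CHE_step hrep hcl hA {q // ρ q = k}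
      (fun q : {q // ρ q = k} => w q)
      ((Finite.card_subtype_le _).trans hr) (fun p q h => Subtype.ext (hinj h)) (fun q => hoff _)
      B.1 B.2
    exact ⟨⟨B', h1⟩, v, h2⟩
  choose f v h1 h2 h3 h4 h5 using step
  let B : ℕ → {B : Set M // Clos S F r U cl a0 B} := fun n => Nat.rec ⟨A, hA⟩ (fun k p => f k p) n
  have hB : ∀ k, B (k + 1) = f k (B k) := fun k => rfl
  have hmB : Monotone fun k => (B k).1 := monotone_nat_of_le_succ fun k => h1 k (B k)
  let w' : β → M := fun p => v (ρ p) (B (ρ p)) ⟨p, rfl⟩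
  have hw : ∀ (k : ℕ) (p : β) (h : ρ p = k), w' p = v k (B k) ⟨p, h⟩ := by
    rintro k p rfl
    rfl
  have ha : ∀ p, w' p ∉ (B (ρ p)).1 := fun p => h3 _ _ _
  have hb : ∀ p, w' p ∈ (B (ρ p + 1)).1 := fun p => h4 _ _ _
  refine ⟨w', fun p q hpq => ?_, ⟨fun k => (B k).1, rfl, fun k => h1 k (B k), fun k => (B k).2,
    fun p => ⟨ha p, hb p⟩⟩, fun p => (h5 (ρ p) (B (ρ p))).anti ?_⟩
  · rcases lt_trichotomy (ρ p) (ρ q) with h | h | h
    · refine absurd (hmB (Nat.succ_le_of_lt h) (hb p)) ?_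
      rw [hpq]
      exact ha q
    · rw [hw _ p h, hw _ q rfl] at hpq
      exact congrArg Subtype.val (h2 _ _ hpq)
    · refine absurd (hmB (Nat.succ_le_of_lt h) (hb q)) ?_
      rw [← hpq]
      exact ha p
  · rintro a (ha | ⟨q, hq, rfl⟩)
    · exact Or.inl ha
    · exact Or.inr ⟨⟨q, hq⟩, Prod.ext rfl (hw (ρ p) q hq).symm⟩

end HERN
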