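import Pool.Agent.HERN.St

/-!
# HERN: grouping of the levels of chain systems (module CHG).  helper91.
-/

set_option autoImplicit false

namespace HERN

open Set Pool.Agent.Helper5.DU Pool.Agent.Helper6.Str Pool.Agent.Helper79.VC
  Pool.Agent.Helper97.LO Pool.Agent.Helper97.VC HER

/-- CHG: grouping of levels; the new levels are given by the maxima of `ρ p + 1` -/
theorem thm_CHG : St_CHG := by
  intro L M S F r I U cl a0 A β _ w ρ ρ' h hρ
  classical
  have : Fintype β := Fintype.ofFinite β
  obtain ⟨B, hB0, hB1, hB2, hB3⟩ := h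
  have hmB : Monotone B := monotone_nat_of_le_succ hB1
  let s : ℕ → ℕ := fun k => (Finset.univ.filter fun p => ρ' p < k).sup fun p => ρ p + 1
  have hs : Monotone s := by
    intro k l hkl
    refine Finset.sup_mono ?_
    intro p hp
    rw [Finset.mem_filter] at hp ⊢
    exact ⟨hp.1, lt_of_lt_of_le hp.2 hkl⟩
  have hs0 : s 0 = 0 := by
    show (Finset.univ.filter fun p => ρ' p < 0).sup (fun p => ρ p + 1) = 0
    rw [Finset.filter_eq_empty_iff.2 fun p _ => Nat.not_lt_zero _]
    rfl
  refine ⟨fun k => B (s k), ?_, fun k => hmB (hs (Nat.le_succ k)), fun k => hB2 _, fun p => ?_⟩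
  · show B (s 0) = A
    rw [hs0, hB0]
  · obtain ⟨h1, h2⟩ := hB3 p
    refine ⟨fun h3 => h1 (hmB ?_ h3), hmB ?_ h2⟩
    · refine Finset.sup_le fun q hq => ?_
      rw [Finset.mem_filter] at hq
      by_contra h4
      exact absurd (hρ p q (by omega)) (not_le.2 hq.2)
    · exact Finset.le_sup (f := fun p => ρ p + 1) (Finset.mem_filter.2
        ⟨Finset.mem_univ p, Nat.lt_succ_self _⟩)

end HERN
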