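import Pool.Agent.HERN.St
import Pool.Agent.HER.DC3

/-!
# HERN: combs which are not decoded, for the properties `CSA`
-/

set_option autoImplicit false

namespace HERN

open Set Pool.Agent.Helper5.DU Pool.Agent.Helper6.Str Pool.Agent.Helper79.VC
  Pool.Agent.Helper97.LO Pool.Agent.Helper97.VC HER

/-- [DC1] combs: the spine sees spine and rows differently -/
def CLAA_StDC1 : Prop := ∀ (M C : Type) (inv : C → C) (col : M → M → C) (N : ℕ → ℕ)
  (τ p e d ρ ρ0 : C) (z : ℕ → M) (x : ℕ → ℕ → M), CSA inv col → (∀ n, 5 ^ (n + 3) ≤ N n) →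
  Comb col N τ p e d ρ ρ0 z x → p ≠ e → τ = p

/-- [DC2] combs: the rows see infinitely many elements which are not of the colour `p` -/
def CLAA_StDC2 : Prop := ∀ (M C : Type) (inv : C → C) (col : M → M → C) (N : ℕ → ℕ)
  (p e d ρ ρ0 : C) (z : ℕ → M) (x : ℕ → ℕ → M), CSA inv col → (∀ n, 5 ^ (n + 3) ≤ N n) →
  Comb col N p p e d ρ ρ0 z x → p ≠ e → d = inv p ∧ ρ = p

/-- [DC3] combs: all elements see the later elements in the colour `p` -/
def CLAA_StDC3 : Prop := ∀ (M C : Type) (inv : C → C) (col : M → M → C) (N : ℕ → ℕ)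
  (p e ρ0 : C) (z : ℕ → M) (x : ℕ → ℕ → M), CSA inv col → (∀ n, 5 ^ (n + 3) ≤ N n) →
  Comb col N p p e (inv p) p ρ0 z x → p ≠ e →
  inv p ≠ p ∧ e = inv p ∧ (ρ0 = p ∨ ρ0 = inv p)

/-- [DCD] combs which are not decoded -/
def CLAA_StDCD : Prop := ∀ (M C : Type) (inv : C → C) (col : M → M → C)
  (τ p e d ρ ρ0 : C) (z : ℕ → M) (x : ℕ → ℕ → M), CSA inv col →
  Comb col (fun i => i + 1) τ p e d ρ ρ0 z x → p ≠ e →
  τ = p ∧ d = inv p ∧ ρ = p ∧ inv p ≠ p ∧ e = inv p ∧ (ρ0 = p ∨ ρ0 = inv p)

theorem CLAA_DC1 (hN : St_NUM) : CLAA_StDC1 := by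
  classical
  intro M C inv col N τ p e d ρ ρ0 z x hCS hNN hc hpe
  by_contra hτ
  obtain ⟨m, hm, hne⟩ := hN
  have hs := DC1_shift hc
  have hmN : ∀ f i, m f i ≤ N (i + 1) := by
    intro f i
    calc m f i ≤ 5 ^ (i + 3) := (hm f i).2
      _ ≤ 5 ^ (i + 1 + 3) := Nat.pow_le_pow_right (by norm_num) (by omega)
      _ ≤ N (i + 1) := hNN (i + 1)
  set pt : DC1_J → M := DC1_pt (fun i => z (i + 1)) (fun i => x (i + 1)) with hpt
  have hinj : ∀ f, InjOn pt (DC1_S (m f)) := fun f => DC1_inj hs (hmN f)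
  have hz0 : ∀ f, ∀ t ∈ DC1_S (m f), pt t ≠ z 0 := by
    rintro f (j | ⟨j, l⟩) ht h
    · have := hc.zinj h
      omega
    · exact hc.zx 0 (j + 1) l (((DC1_S_inr _ _).1 ht).trans_le (hmN f j)) h.symm
  set a : Fin 1 → M := fun _ => z 0 with ha
  have hra : range a = {z 0} := by
    rw [ha]
    exact range_const
  set X : (ℕ → Bool) → Set M := fun f => insert (z 0) (pt '' DC1_S (m f)) with hX
  have hXd : ∀ f, X f \ range a = pt '' DC1_S (m f) := by
    intro f
    rw [hra, hX]
    ext w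
    constructor
    · rintro ⟨h1 | h1, h2⟩
      · exact absurd h1 h2
      · exact h1
    · intro h1
      refine ⟨Or.inr h1, ?_⟩
      obtain ⟨t, ht, rfl⟩ := h1
      exact hz0 f t ht
  obtain ⟨f, g, hfg, hcnt⟩ := hCS.cnt 1 a (fun cv cw c => cv 0 = τ ∧ cw 0 = p ∧ c ≠ p) X (by
    intro f
    refine ⟨((to_countable _).image pt).insert _, ?_, ?_⟩
    · exact (DC1_inf hs.zinj (m f)).mono (subset_insert _ _)
    · rw [hra]
      exact singleton_subset_iff.2 (mem_insert _ _))
  obtain ⟨n, hn, _⟩ := hne (if d ≠ p then 1 else 0) 0 (by split_ifs <;> simp) (by simp) f g hfg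
  have hinl : ∀ (f : ℕ → Bool) (i : ℕ), {t | t ∈ DC1_S (m f) ∧
      Rl col a (fun cv cw c => cv 0 = τ ∧ cw 0 = p ∧ c ≠ p) (pt (Sum.inl i)) (pt t)}.encard =
      ((m f i + (if d ≠ p then 1 else 0) * (∑ j ∈ Finset.range i, m f j) +
        (if False then 1 else 0) * i : ℕ) : ℕ∞) := by
    intro f i
    refine DC1_card (m f) i (d ≠ p) False _ (fun j => ?_) (fun r => ?_)
    · constructor
      · rintro ⟨_, _, _, h1, _⟩
        exact absurd ((hc.zz 0 (j + 1) (by omega)).symm.trans h1) hτ
      · rintro ⟨_, h⟩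
        exact h.elim
    · obtain ⟨j, l⟩ := r
      constructor
      · rintro ⟨ht, _, _, _, h1⟩
        rw [DC1_S_inr] at ht
        refine ⟨ht, ?_⟩
        rcases lt_trichotomy i j with h2 | h2 | h2
        · exact absurd (hs.zxp i j l h2 (ht.trans_le (hmN f j))) h1
        · exact Or.inl h2.symm
        · refine Or.inr ⟨h2, ?_⟩
          have h3 := hs.zxd j i l h2 (ht.trans_le (hmN f j))
          rw [← h3]
          exact h1
      · rintro ⟨ht, h1⟩
        have hl := ht.trans_le (hmN f j)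
        refine ⟨(DC1_S_inr _ _).2 ht, hs.zx _ _ _ hl, hc.zz 0 (i + 1) (by omega),
          hc.zxp 0 (j + 1) l (by omega) hl, ?_⟩
        rcases h1 with h1 | ⟨h1, h2⟩
        · change j = i at h1
          subst h1
          intro h3
          exact hpe (h3.symm.trans (hs.zxe j l hl))
        · intro h3
          exact h2 ((hs.zxd j i l h1 hl).symm.trans h3)
  have hinr : ∀ (f : ℕ → Bool) (r : Σ _ : ℕ, ℕ), Sum.inr r ∈ DC1_S (m f) →
      {t | t ∈ DC1_S (m f) ∧
      Rl col a (fun cv cw c => cv 0 = τ ∧ cw 0 = p ∧ c ≠ p) (pt (Sum.inr r)) (pt t)}.encard =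
      0 := by
    intro f r hr
    rw [encard_eq_zero, eq_empty_iff_forall_notMem]
    rintro t ⟨_, _, h1, _⟩
    apply hτ
    rw [← h1]
    exact hc.zxp 0 (r.1 + 1) r.2 (by omega) (((DC1_S_inr _ _).1 hr).trans_le (hmN f r.1))
  have hmem : m f n + (if d ≠ p then 1 else 0) * (∑ j ∈ Finset.range n, m f j) ∈
      Cnt col a (fun cv cw c => cv 0 = τ ∧ cw 0 = p ∧ c ≠ p) (X f) := by
    rw [DC1_cnt col a _ (X f) pt (m f) (hinj f) (hXd f)]
    refine ⟨Sum.inl n, DC1_S_inl _ _, ?_⟩
    rw [hinl f n]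
    simp
  rw [hcnt, DC1_cnt col a _ (X g) pt (m g) (hinj g) (hXd g)] at hmem
  obtain ⟨s, hsS, hs1⟩ := hmem
  rcases s with n' | r
  · rw [hinl g n', Nat.cast_inj] at hs1
    refine hn n' ?_
    simp only [if_false, zero_mul, add_zero] at hs1 ⊢
    exact hs1.symm
  · rw [hinr g r hsS] at hs1
    have h1 := (hm f n).1
    have h2 : (0 : ℕ) = m f n + (if d ≠ p then 1 else 0) * (∑ j ∈ Finset.range n, m f j) := by
      exact_mod_cast hs1
    omega

/-- counting without constants -/
theorem CLAA_core {M C : Type} {inv : C → C} {col : M → M → C} {N : ℕ → ℕ}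
    {τ p e d ρ ρ0 : C} {z : ℕ → M} {x : ℕ → ℕ → M} (hCS : CSA inv col)
    (hNN : ∀ n, 5 ^ (n + 3) ≤ N n) (hc : Comb col N τ p e d ρ ρ0 z x)
    (m : (ℕ → Bool) → ℕ → ℕ) (hm : ∀ f n, 16 ≤ m f n ∧ m f n ≤ 5 ^ (n + 3)) (P : C → Prop) :
    ∃ f g, f ≠ g ∧ ∀ k : ℕ, (∃ s ∈ DC1_S (m f), {t | t ∈ DC1_S (m f) ∧
        DC1_pt z x s ≠ DC1_pt z x t ∧ P (col (DC1_pt z x s) (DC1_pt z x t))}.encard = (k : ℕ∞)) →
      ∃ s ∈ DC1_S (m g), {t | t ∈ DC1_S (m g) ∧
        DC1_pt z x s ≠ DC1_pt z x t ∧ P (col (DC1_pt z x s) (DC1_pt z x t))}.encard =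
          (k : ℕ∞) := by
  have hmN : ∀ f i, m f i ≤ N i := fun f i => (hm f i).2.trans (hNN i)
  have hinj : ∀ f, InjOn (DC1_pt z x) (DC1_S (m f)) := fun f => DC1_inj hc (hmN f)
  set a : Fin 0 → M := fun i => i.elim0 with ha
  have hra : range a = ∅ := range_eq_empty a
  have hXd : ∀ f, (DC1_pt z x '' DC1_S (m f)) \ range a = DC1_pt z x '' DC1_S (m f) := by
    intro f
    rw [hra, sdiff_empty]
  obtain ⟨f, g, hfg, hcnt⟩ := hCS.cnt 0 a (fun _ _ c => P c)
    (fun f => DC1_pt z x '' DC1_S (m f)) (by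
      intro f
      refine ⟨(to_countable _).image _, DC1_inf hc.zinj (m f), ?_⟩
      rw [hra]
      exact empty_subset _)
  refine ⟨f, g, hfg, fun k hk => ?_⟩
  have h1 := (DC1_cnt col a (fun _ _ c => P c) _ _ (m f) (hinj f) (hXd f) k).2 hk
  rw [hcnt] at h1
  exact (DC1_cnt col a (fun _ _ c => P c) _ _ (m g) (hinj g) (hXd g) k).1 h1

theorem CLAA_DC2 (hN : St_NUM) : CLAA_StDC2 := by
  classical
  intro M C inv col N p e d ρ ρ0 z x hCS hNN hc hpe
  by_contra hcon
  obtain ⟨m, hm, hne⟩ := hN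
  have hmN : ∀ f i, m f i ≤ N i := fun f i => (hm f i).2.trans (hNN i)
  obtain ⟨f, g, hfg, hcnt⟩ := CLAA_core hCS hNN hc m hm (fun c => c ≠ p)
  obtain ⟨n, hn, _⟩ := hne (if d ≠ p then 1 else 0) (if inv p ≠ p then 1 else 0)
    (by split_ifs <;> simp) (by split_ifs <;> simp) f g hfg
  have hinl : ∀ (f : ℕ → Bool) (i : ℕ), {t | t ∈ DC1_S (m f) ∧
      DC1_pt z x (Sum.inl i) ≠ DC1_pt z x t ∧
        col (DC1_pt z x (Sum.inl i)) (DC1_pt z x t) ≠ p}.encard =
      ((m f i + (if d ≠ p then 1 else 0) * (∑ j ∈ Finset.range i, m f j) +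
        (if inv p ≠ p then 1 else 0) * i : ℕ) : ℕ∞) := by
    intro f i
    refine DC1_card (m f) i (d ≠ p) (inv p ≠ p) _ (fun j => ?_) (fun r => ?_)
    · constructor
      · rintro ⟨_, h1, h2⟩
        rcases lt_trichotomy i j with h3 | h3 | h3
        · exact absurd (hc.zz i j h3) h2
        · exact absurd (congrArg z h3) h1
        · refine ⟨h3, fun h4 => h2 ?_⟩
          change col (z i) (z j) = p
          rw [hCS.sym (z j) (z i), hc.zz j i h3, h4]
      · rintro ⟨h1, h2⟩
        refine ⟨DC1_S_inl _ _, fun h3 => ?_, fun h3 => ?_⟩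
        · have := hc.zinj h3
          omega
        · apply h2
          change col (z i) (z j) = p at h3
          rw [hCS.sym (z j) (z i), hc.zz j i h1] at h3
          exact h3
    · obtain ⟨j, l⟩ := r
      constructor
      · rintro ⟨ht, _, h1⟩
        rw [DC1_S_inr] at ht
        refine ⟨ht, ?_⟩
        rcases lt_trichotomy i j with h2 | h2 | h2
        · exact absurd (hc.zxp i j l h2 (ht.trans_le (hmN f j))) h1
        · exact Or.inl h2.symm
        · refine Or.inr ⟨h2, fun h3 => h1 ?_⟩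
          rw [← h3]
          exact hc.zxd j i l h2 (ht.trans_le (hmN f j))
      · rintro ⟨ht, h1⟩
        have hl := ht.trans_le (hmN f j)
        refine ⟨(DC1_S_inr _ _).2 ht, hc.zx _ _ _ hl, ?_⟩
        rcases h1 with h1 | ⟨h1, h2⟩
        · change j = i at h1
          subst h1
          intro h3
          exact hpe (h3.symm.trans (hc.zxe j l hl))
        · intro h3
          exact h2 ((hc.zxd j i l h1 hl).symm.trans h3)
  have hinr : ∀ (f : ℕ → Bool) (r : Σ _ : ℕ, ℕ), Sum.inr r ∈ DC1_S (m f) →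
      {t | t ∈ DC1_S (m f) ∧ DC1_pt z x (Sum.inr r) ≠ DC1_pt z x t ∧
        col (DC1_pt z x (Sum.inr r)) (DC1_pt z x t) ≠ p}.Infinite := by
    rintro f ⟨i, k⟩ hr
    have hk := ((DC1_S_inr _ _).1 hr).trans_le (hmN f i)
    by_cases hd : d = inv p
    · have hρ : ρ ≠ p := fun h => hcon ⟨hd, h⟩
      have h1 : (range fun j : ℕ => (Sum.inr ⟨i + 1 + j, 0⟩ : DC1_J)).Infinite := by
        refine infinite_range_of_injective fun j j' hj => ?_
        have := congrArg Sigma.fst (Sum.inr.inj hj)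
        simp only at this
        omega
      refine h1.mono ?_
      rintro _ ⟨j, rfl⟩
      have h2 : 0 < m f (i + 1 + j) := by
        have := (hm f (i + 1 + j)).1
        omega
      have h3 := h2.trans_le (hmN f (i + 1 + j))
      refine ⟨(DC1_S_inr _ _).2 h2, fun h4 => ?_, fun h4 => ?_⟩
      · have := hc.xinj _ _ _ _ hk h3 h4
        omega
      · exact hρ ((hc.xx i (i + 1 + j) k 0 (by omega) hk h3).symm.trans h4)
    · have hd' : inv d ≠ p := fun h => hd (by rw [← h, hCS.inv2])
      have h1 : (range fun j : ℕ => (Sum.inl (i + 1 + j) : DC1_J)).Infinite := by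
        refine infinite_range_of_injective fun j j' hj => ?_
        have := Sum.inl.inj hj
        omega
      refine h1.mono ?_
      rintro _ ⟨j, rfl⟩
      refine ⟨DC1_S_inl _ _, fun h4 => ?_, fun h4 => ?_⟩
      · exact hc.zx _ _ _ hk h4.symm
      · apply hd'
        rw [← hc.zxd i (i + 1 + j) k (by omega) hk, ← hCS.sym]
        exact h4
  obtain ⟨s, hsS, hs1⟩ := hcnt _ ⟨Sum.inl n, DC1_S_inl _ _, hinl f n⟩
  rcases s with n' | r
  · rw [hinl g n', Nat.cast_inj] at hs1
    exact hn n' hs1.symm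
  · rw [(hinr g r hsS).encard_eq] at hs1
    exact ENat.natCast_ne_top _ hs1.symm

theorem CLAA_DC3 (hN : St_NUM) : CLAA_StDC3 := by
  classical
  intro M C inv col N p e ρ0 z x hCS hNN hc hpe
  obtain ⟨m, hm, hne⟩ := hN
  have hmN : ∀ f i, m f i ≤ N i := fun f i => (hm f i).2.trans (hNN i)
  -- the colours
  have hzz : ∀ i j, i ≠ j → col (z i) (z j) = p ∨ col (z i) (z j) = inv p := by
    intro i j hij
    rcases lt_or_gt_of_ne hij with h | h
    · exact Or.inl (hc.zz i j h)
    · right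
      rw [hCS.sym (z j) (z i), hc.zz j i h]
  have hzx : ∀ i j l, i ≠ j → l < N j → col (z i) (x j l) = p ∨ col (z i) (x j l) = inv p := by
    intro i j l hij hl
    rcases lt_or_gt_of_ne hij with h | h
    · exact Or.inl (hc.zxp i j l h hl)
    · exact Or.inr (hc.zxd j i l h hl)
  have hxz : ∀ i j l, i ≠ j → l < N j → col (x j l) (z i) = p ∨ col (x j l) (z i) = inv p := by
    intro i j l hij hl
    rw [hCS.sym (z i) (x j l)]
    rcases hzx i j l hij hl with h | h
    · exact Or.inr (congrArg inv h)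
    · left
      rw [h, hCS.inv2]
  have hxx : ∀ i j k l, i ≠ j → k < N i → l < N j →
      col (x i k) (x j l) = p ∨ col (x i k) (x j l) = inv p := by
    intro i j k l hij hk hl
    rcases lt_or_gt_of_ne hij with h | h
    · exact Or.inl (hc.xx i j k l h hk hl)
    · right
      rw [hCS.sym (x j l) (x i k), hc.xx j i l k h hl hk]
  have hxx0 : ∀ i k l, k ≠ l → k < N i → l < N i →
      (col (x i k) (x i l) = p ∨ col (x i k) (x i l) = inv p ↔ ρ0 = p ∨ ρ0 = inv p) := by
    intro i k l hkl hk hl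
    rcases lt_or_gt_of_ne hkl with h | h
    · rw [hc.xx0 i k l h hl]
    · rw [hCS.sym (x i l) (x i k), hc.xx0 i l k h hk]
      constructor
      · rintro (h1 | h1)
        · right
          rw [← h1, hCS.inv2]
        · left
          rw [← hCS.inv2 ρ0, h1, hCS.inv2]
      · rintro (h1 | h1)
        · exact Or.inr (congrArg inv h1)
        · left
          rw [h1, hCS.inv2]
  obtain ⟨f, g, hfg, hcnt⟩ := CLAA_core hCS hNN hc m hm (fun c => ¬ (c = p ∨ c = inv p))
  obtain ⟨n, hn, hn'⟩ := hne 0 0 (by simp) (by simp) f g hfg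
  by_cases he : e = inv p
  · -- the row sees its spine element in the colours `p`, `inv p`
    refine ⟨fun h => hpe (h.symm.trans he.symm), he, ?_⟩
    by_contra hρ
    have hinl : ∀ (f : ℕ → Bool) (i : ℕ), {t | t ∈ DC1_S (m f) ∧
        DC1_pt z x (Sum.inl i) ≠ DC1_pt z x t ∧
          ¬ (col (DC1_pt z x (Sum.inl i)) (DC1_pt z x t) = p ∨
            col (DC1_pt z x (Sum.inl i)) (DC1_pt z x t) = inv p)}.encard = 0 := by
      intro f i
      rw [encard_eq_zero, eq_empty_iff_forall_notMem]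
      rintro (j | ⟨j, l⟩) ⟨ht, h1, h2⟩
      · exact h2 (hzz i j fun h => h1 (congrArg z h))
      · have hl := ((DC1_S_inr _ _).1 ht).trans_le (hmN f j)
        by_cases hij : i = j
        · subst hij
          exact h2 (Or.inr ((hc.zxe i l hl).trans he))
        · exact h2 (hzx i j l hij hl)
    have hinr : ∀ (f : ℕ → Bool) (i k : ℕ), Sum.inr ⟨i, k⟩ ∈ DC1_S (m f) →
        {t | t ∈ DC1_S (m f) ∧ DC1_pt z x (Sum.inr ⟨i, k⟩) ≠ DC1_pt z x t ∧
          ¬ (col (DC1_pt z x (Sum.inr ⟨i, k⟩)) (DC1_pt z x t) = p ∨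
            col (DC1_pt z x (Sum.inr ⟨i, k⟩)) (DC1_pt z x t) = inv p)}.encard =
          (((if False then 1 else 0) + (if True then m f i - 1 else 0) : ℕ) : ℕ∞) := by
      intro f i k hr
      have hk' := (DC1_S_inr _ _).1 hr
      have hk := hk'.trans_le (hmN f i)
      refine DC3_card (m f) i k True False _ hk' (fun j => ?_) (fun r => ?_)
      · constructor
        · rintro ⟨_, _, h2⟩
          exfalso
          by_cases hij : j = i
          · subst hij
            apply h2
            left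
            change col (x j k) (z j) = p
            rw [hCS.sym (z j) (x j k), hc.zxe j k hk, he, hCS.inv2]
          · exact h2 (hxz j i k hij hk)
        · rintro ⟨_, h⟩
          exact h.elim
      · obtain ⟨j, l⟩ := r
        constructor
        · rintro ⟨ht, h1, h2⟩
          have hl' := (DC1_S_inr _ _).1 ht
          have hl := hl'.trans_le (hmN f j)
          by_cases hij : j = i
          · subst hij
            refine ⟨hl', rfl, fun h3 => h1 ?_, trivial⟩
            change x j k = x j l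
            rw [← h3]
          · exact absurd (hxx i j k l (Ne.symm hij) hk hl) h2
        · rintro ⟨hl', h1, h2, _⟩
          change j = i at h1
          subst h1
          have hl := hl'.trans_le (hmN f j)
          refine ⟨(DC1_S_inr _ _).2 hl', fun h3 => h2 ?_, ?_⟩
          · exact (hc.xinj _ _ _ _ hk hl h3).2.symm
          · intro h3
            exact hρ ((hxx0 j k l (Ne.symm h2) hk hl).1 h3)
    have h0 : (Sum.inr ⟨n, 0⟩ : DC1_J) ∈ DC1_S (m f) := by
      rw [DC1_S_inr]
      have := (hm f n).1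
      change 0 < m f n
      omega
    obtain ⟨s, hsS, hs1⟩ := hcnt _ ⟨_, h0, hinr f n 0 h0⟩
    have h16 := (hm f n).1
    rcases s with n' | ⟨i, k⟩
    · rw [hinl g n'] at hs1
      have h2 : (0 : ℕ) = (if False then 1 else 0) + (if True then m f n - 1 else 0) := by
        exact_mod_cast hs1
      simp only [if_false, if_true, zero_add] at h2
      omega
    · rw [hinr g i k hsS, Nat.cast_inj] at hs1
      simp only [if_false, if_true, zero_add] at hs1
      exact hn' i hs1.symm
  · exfalso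
    have hinl : ∀ (f : ℕ → Bool) (i : ℕ), {t | t ∈ DC1_S (m f) ∧
        DC1_pt z x (Sum.inl i) ≠ DC1_pt z x t ∧
          ¬ (col (DC1_pt z x (Sum.inl i)) (DC1_pt z x t) = p ∨
            col (DC1_pt z x (Sum.inl i)) (DC1_pt z x t) = inv p)}.encard =
        ((m f i + (if False then 1 else 0) * (∑ j ∈ Finset.range i, m f j) +
          (if False then 1 else 0) * i : ℕ) : ℕ∞) := by
      intro f i
      refine DC1_card (m f) i False False _ (fun j => ?_) (fun r => ?_)
      · constructor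
        · rintro ⟨_, h1, h2⟩
          exact absurd (hzz i j fun h => h1 (congrArg z h)) h2
        · rintro ⟨_, h⟩
          exact h.elim
      · obtain ⟨j, l⟩ := r
        constructor
        · rintro ⟨ht, h1, h2⟩
          have hl' := (DC1_S_inr _ _).1 ht
          have hl := hl'.trans_le (hmN f j)
          refine ⟨hl', ?_⟩
          by_cases hij : j = i
          · exact Or.inl hij
          · exact absurd (hzx i j l (Ne.symm hij) hl) h2
        · rintro ⟨hl', h1 | ⟨_, h1⟩⟩
          · change j = i at h1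
            subst h1
            have hl := hl'.trans_le (hmN f j)
            refine ⟨(DC1_S_inr _ _).2 hl', hc.zx _ _ _ hl, ?_⟩
            change ¬ (col (z j) (x j l) = p ∨ col (z j) (x j l) = inv p)
            rw [hc.zxe j l hl]
            rintro (h3 | h3)
            · exact hpe h3.symm
            · exact he h3
          · exact h1.elim
    have hinr : ∀ (f : ℕ → Bool) (i k : ℕ), Sum.inr ⟨i, k⟩ ∈ DC1_S (m f) →
        {t | t ∈ DC1_S (m f) ∧ DC1_pt z x (Sum.inr ⟨i, k⟩) ≠ DC1_pt z x t ∧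
          ¬ (col (DC1_pt z x (Sum.inr ⟨i, k⟩)) (DC1_pt z x t) = p ∨
            col (DC1_pt z x (Sum.inr ⟨i, k⟩)) (DC1_pt z x t) = inv p)}.encard =
          (((if True then 1 else 0) +
            (if ¬ (ρ0 = p ∨ ρ0 = inv p) then m f i - 1 else 0) : ℕ) : ℕ∞) := by
      intro f i k hr
      have hk' := (DC1_S_inr _ _).1 hr
      have hk := hk'.trans_le (hmN f i)
      refine DC3_card (m f) i k (¬ (ρ0 = p ∨ ρ0 = inv p)) True _ hk' (fun j => ?_) (fun r => ?_)
      · constructor
        · rintro ⟨_, _, h2⟩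
          refine ⟨?_, trivial⟩
          by_contra hij
          exact h2 (hxz j i k hij hk)
        · rintro ⟨h1, _⟩
          subst h1
          refine ⟨DC1_S_inl _ _, fun h3 => hc.zx _ _ _ hk h3.symm, ?_⟩
          change ¬ (col (x j k) (z j) = p ∨ col (x j k) (z j) = inv p)
          rw [hCS.sym (z j) (x j k), hc.zxe j k hk]
          rintro (h3 | h3)
          · apply he
            rw [← h3, hCS.inv2]
          · apply hpe
            rw [← hCS.inv2 e, h3, hCS.inv2]
      · obtain ⟨j, l⟩ := r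
        constructor
        · rintro ⟨ht, h1, h2⟩
          have hl' := (DC1_S_inr _ _).1 ht
          have hl := hl'.trans_le (hmN f j)
          by_cases hij : j = i
          · subst hij
            have h4 : l ≠ k := by
              intro h3
              apply h1
              change x j k = x j l
              rw [← h3]
            refine ⟨hl', rfl, h4, fun h5 => h2 ?_⟩
            exact (hxx0 j k l (Ne.symm h4) hk hl).2 h5
          · exact absurd (hxx i j k l (Ne.symm hij) hk hl) h2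
        · rintro ⟨hl', h1, h2, h4⟩
          change j = i at h1
          subst h1
          have hl := hl'.trans_le (hmN f j)
          refine ⟨(DC1_S_inr _ _).2 hl', fun h3 => h2 ?_, ?_⟩
          · exact (hc.xinj _ _ _ _ hk hl h3).2.symm
          · intro h3
            exact h4 ((hxx0 j k l (Ne.symm h2) hk hl).1 h3)
    obtain ⟨s, hsS, hs1⟩ := hcnt _ ⟨_, DC1_S_inl _ _, hinl f n⟩
    have h16 := (hm f n).1
    rcases s with n' | ⟨i, k⟩
    · rw [hinl g n', Nat.cast_inj] at hs1
      apply hn n'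
      simp only [if_false, zero_mul, add_zero] at hs1 ⊢
      exact hs1.symm
    · rw [hinr g i k hsS, Nat.cast_inj] at hs1
      have h1 := hn i
      have h16' := (hm g i).1
      simp only [if_false, if_true, zero_mul, add_zero] at hs1 h1
      split_ifs at hs1 with h3
      · omega
      · omega

/-- [DCD] -/
theorem CLAA_DCD (hC : St_CSB) (h1 : CLAA_StDC1) (h2 : CLAA_StDC2) (h3 : CLAA_StDC3) : CLAA_StDCD := by
  intro M C inv col τ p e d ρ ρ0 z x hCS hcomb hpe
  obtain ⟨z', x', hc⟩ := hC M C col τ p e d ρ ρ0 z x (fun n => 5 ^ (n + 3)) hcomb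
  have hN : ∀ n, 5 ^ (n + 3) ≤ (fun n => 5 ^ (n + 3)) n := fun n => le_rfl
  have e1 := h1 M C inv col _ τ p e d ρ ρ0 z' x' hCS hN hc hpe
  rw [e1] at hc
  have e2 := h2 M C inv col _ p e d ρ ρ0 z' x' hCS hN hc hpe
  rw [e2.1, e2.2] at hc
  have e3 := h3 M C inv col _ p e ρ0 z' x' hCS hN hc hpe
  exact ⟨e1, e2.1, e2.2, e3.1, e3.2.1, e3.2.2⟩

end HERN
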