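import Pool.Agent.HERN.St
import Pool.Agent.HERN.CLAAa
import Pool.Agent.HER.CSB
import Pool.Agent.HER.NUM
import Pool.Agent.HER.RAM
import Pool.Agent.HER.PR
import Pool.Agent.HER.DM
import Pool.Agent.HER.SQ
import Pool.Agent.HER.CMB
import Pool.Agent.HER.LO1
import Pool.Agent.HER.LO2
import Pool.Agent.HER.SS

/-!
# HERN: uncountable sets contain uncountable homogeneous symmetric sets, for the properties `CSA`
-/

set_option autoImplicit false

namespace HERN

open Set Pool.Agent.Helper5.DU Pool.Agent.Helper6.Str Pool.Agent.Helper79.VC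
  Pool.Agent.Helper97.LO Pool.Agent.Helper97.VC HER

/-- [SS] a set which is not split by its elements -/
def CLAA_StSS : Prop := ∀ (M C : Type) [Finite C] (inv : C → C) (col : M → M → C) (Y : Set M),
  CSA inv col → ¬ Y.Countable → (∀ y ∈ Y, ∀ t t', ¬ Spl col y Y t t') →
  ∃ Y' ⊆ Y, ¬ Y'.Countable ∧ ∃ κ, inv κ = κ ∧ Hom col Y' κ

/-- [ST] tournaments: the out-neighbourhoods -/
def CLAA_StST : Prop := ∀ (M C : Type) (inv : C → C) (col : M → M → C) (p : C) (T : Set M),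
  CSA inv col → inv p ≠ p → ¬ T.Countable →
  (∀ x ∈ T, ∀ y ∈ T, x ≠ y → col x y = p ∨ col x y = inv p) →
  ∃ T' ⊆ T, ¬ T'.Countable ∧ ∀ x ∈ T', ∀ y ∈ T', x ≠ y → col x y = p →
    {z ∈ T' | col y z = p ∧ col z x = p}.Countable

/-- [TF] no hereditarily split tournaments -/
def CLAA_StTF : Prop := ∀ (M C : Type) (inv : C → C) (col : M → M → C) (p : C) (T : Set M),
  CSA inv col → inv p ≠ p → ¬ T.Countable →
  (∀ x ∈ T, ∀ y ∈ T, x ≠ y → col x y = p ∨ col x y = inv p) →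
  ¬ ∀ T' ⊆ T, ¬ T'.Countable → ∃ y ∈ T', Spl col y T' p (inv p)

/-- [SS] -/
theorem CLAA_SS (hSQ : St_SQ) : CLAA_StSS := by
  intro M C _ inv col Y hCS hY hspl
  have h1 : ∀ y ∈ Y, ∃ k, y ∈ {y : M | {x ∈ Y | col y x ≠ k}.Countable} := by
    intro y hy
    obtain ⟨t, ht⟩ := SS_union hY (fun t => {x : M | col y x = t}) fun x _ => ⟨col y x, rfl⟩
    refine ⟨t, ?_⟩
    show {x ∈ Y | col y x ≠ t}.Countable
    have h2 : ∀ t', t' ≠ t → {x ∈ Y | col y x = t'}.Countable := by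
      intro t' ht'
      by_contra hcon
      exact hspl y hy t t' ⟨ht'.symm, ht, hcon⟩
    have h3 : ∀ t' : {t' : C // t' ≠ t}, {x ∈ Y | col y x = t'.1}.Countable :=
      fun t' => h2 t'.1 t'.2
    refine (countable_iUnion h3).mono fun x hx => ?_
    exact mem_iUnion.2 ⟨⟨col y x, hx.2⟩, hx.1, rfl⟩
  obtain ⟨k, hk⟩ := SS_union hY _ h1
  let Y1 : Set M := {y ∈ Y | y ∈ {y : M | {x ∈ Y | col y x ≠ k}.Countable}}
  have hY1 : ¬ Y1.Countable := hk
  obtain ⟨s, hs1, hs2⟩ := hSQ M Y1 (fun y => {x | x = y ∨ (y ∈ Y1 ∧ x ∈ Y ∧ col y x ≠ k)}) (by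
    intro D hD
    by_contra hcon
    push Not at hcon
    apply hY1
    have h4 : ∀ y ∈ D, {x | x = y ∨ (y ∈ Y1 ∧ x ∈ Y ∧ col y x ≠ k)}.Countable := by
      intro y _
      by_cases hy : y ∈ Y1
      · have h5 : {x ∈ Y | col y x ≠ k}.Countable := hy.2
        refine ((countable_singleton y).union h5).mono ?_
        rintro x (hx | ⟨-, hx⟩)
        · exact Or.inl hx
        · exact Or.inr hx
      · refine (countable_singleton y).mono ?_
        rintro x (hx | ⟨h6, -⟩)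
        · exact hx
        · exact absurd h6 hy
    refine (hD.biUnion h4).mono fun x hx => ?_
    obtain ⟨y, hy, hxy⟩ := hcon x hx
    exact mem_iUnion₂.2 ⟨y, hy, hxy⟩)
  have hne : ∀ a b, a < b → s b ≠ s a := fun a b hab h => hs2 a b hab (Or.inl h)
  have hcol : ∀ a b, a < b → col (s a) (s b) = k := by
    intro a b hab
    by_contra hcon
    exact hs2 a b hab (Or.inr ⟨hs1 a, (hs1 b).1, hcon⟩)
  have hinj : Function.Injective s := by
    intro a b hab
    rcases lt_trichotomy a b with h | h | h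
    · exact absurd hab.symm (hne a b h)
    · exact h
    · exact absurd hab (hne b a h)
  have hk' : inv k = k := hCS.seq1 s k hinj hcol
  refine ⟨range s, ?_, ?_, k, hk', ?_⟩
  · rintro _ ⟨a, rfl⟩
    exact (hs1 a).1
  · intro hc
    apply not_countable_om
    have h5 : (univ : Set Om) = s ⁻¹' range s := by
      ext a
      simp
    rw [h5]
    exact hc.preimage hinj
  · rintro _ ⟨a, rfl⟩ _ ⟨b, rfl⟩ hab
    rcases lt_trichotomy a b with h | h | h
    · exact hcol a b h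
    · exact absurd (congrArg s h) hab
    · rw [hCS.sym (s b) (s a), hcol b a h, hk']

private theorem ST_seq {M C : Type} {col : M → M → C} {p : C} {T : Set M}
    (hT : ¬ T.Countable)
    (h : ∀ T' ⊆ T, ¬ T'.Countable → ∃ x ∈ T', ∃ y ∈ T', x ≠ y ∧ col x y = p ∧
      ¬ {z ∈ T' | col y z = p ∧ col z x = p}.Countable) :
    ∃ xs ys : ℕ → M, (∀ i, col (xs i) (ys i) = p) ∧
      (∀ i j, i < j → col (ys i) (ys j) = p ∧ col (ys i) (xs j) = p ∧ col (ys j) (xs i) = p ∧
        col (xs j) (xs i) = p) := by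
  have h' : ∀ S : {S : Set M // S ⊆ T ∧ ¬ S.Countable}, ∃ x y : M, x ∈ S.1 ∧ y ∈ S.1 ∧
      col x y = p ∧ ¬ {z ∈ S.1 | col y z = p ∧ col z x = p}.Countable := by
    intro S
    obtain ⟨x, hx, y, hy, -, h1, h2⟩ := h S.1 S.2.1 S.2.2
    exact ⟨x, y, hx, hy, h1, h2⟩
  choose x y hx hy hxy hun using h'
  let next : {S : Set M // S ⊆ T ∧ ¬ S.Countable} → {S : Set M // S ⊆ T ∧ ¬ S.Countable} :=
    fun S => ⟨{z ∈ S.1 | col (y S) z = p ∧ col z (x S) = p},
      fun z hz => S.2.1 hz.1, hun S⟩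
  let Tn : ℕ → {S : Set M // S ⊆ T ∧ ¬ S.Countable} := fun n => next^[n] ⟨T, Subset.rfl, hT⟩
  have hTn : ∀ n, Tn (n + 1) = next (Tn n) := fun n => Function.iterate_succ_apply' _ _ _
  have hsub : ∀ n, (Tn (n + 1)).1 ⊆ (Tn n).1 := by
    intro n
    rw [hTn]
    exact fun z hz => hz.1
  have hanti : Antitone fun n => (Tn n).1 := antitone_nat_of_succ_le hsub
  have key : ∀ i j, i < j → ∀ z ∈ (Tn j).1, col (y (Tn i)) z = p ∧ col z (x (Tn i)) = p := by
    intro i j hij z hz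
    have h1 : z ∈ (Tn (i + 1)).1 := hanti (Nat.succ_le_of_lt hij) hz
    rw [hTn] at h1
    exact h1.2
  refine ⟨fun n => x (Tn n), fun n => y (Tn n), fun i => hxy _, fun i j hij => ?_⟩
  have h1 := key i j hij _ (hx (Tn j))
  have h2 := key i j hij _ (hy (Tn j))
  exact ⟨h2.1, h1.1, h2.2, h1.2⟩

/-- the substructure belonging to `g` -/
private def ST_B {M : Type} (xs ys : ℕ → M) (g : ℕ → Bool) : Set M :=
  range ys ∪ {v | ∃ n, g n = true ∧ v = xs (3 * n + 1)}

theorem CLAA_ST : CLAA_StST := by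
  intro M C inv col p T hCS hp hT _
  by_contra hcon
  push Not at hcon
  obtain ⟨xs, ys, hxy, hlt⟩ := ST_seq (p := p) hT (by
    intro T' hT' hT'2
    obtain ⟨x, hx, y, hy, hne, h1, h2⟩ := hcon T' hT' hT'2
    exact ⟨x, hx, y, hy, hne, h1, h2⟩)
  have hinv : ∀ {v w : M}, col v w = p → col w v = inv p := by
    intro v w h
    rw [hCS.sym v w, h]
  have hne : ∀ {v w : M}, col v w = p → v ≠ w := by
    rintro v w h rfl
    exact hp ((hinv h).symm.trans h)
  have hyinj : Function.Injective ys := by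
    intro i j hij
    rcases lt_trichotomy i j with h | h | h
    · exact absurd hij (hne (hlt i j h).1)
    · exact h
    · exact absurd hij.symm (hne (hlt j i h).1)
  have hyx : ∀ i j, i ≠ j → col (ys j) (xs i) = p := by
    intro i j hij
    rcases lt_or_gt_of_ne hij with h | h
    · exact (hlt i j h).2.2.1
    · exact (hlt j i h).2.1
  have hyxne : ∀ i j, ys j ≠ xs i := by
    intro i j
    by_cases hij : i = j
    · subst hij
      exact (hne (hxy i)).symm
    · exact hne (hyx i j hij)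
  -- the sets
  let a : Fin 0 → M := Fin.elim0
  have ha : range a = ∅ := range_eq_empty a
  let φ : (Fin 0 → C) → (Fin 0 → C) → C → Prop := fun _ _ c => c = inv p
  obtain ⟨f, g, hfg, hcnt⟩ := hCS.cnt 0 a φ (ST_B xs ys) (by
    intro g
    refine ⟨?_, ?_, ?_⟩
    · refine (countable_range ys).union ?_
      refine (countable_range fun n : ℕ => xs (3 * n + 1)).mono ?_
      rintro v ⟨n, -, rfl⟩
      exact ⟨n, rfl⟩
    · exact (infinite_range_of_injective hyinj).mono subset_union_left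
    · rw [ha]
      exact empty_subset _)
  -- the number
  have hset : ∀ (g : ℕ → Bool) (i : ℕ),
      {w ∈ ST_B xs ys g \ range a | Rl col a φ (ys i) w} =
        ys '' {j | j < i} ∪ {w | w = xs i ∧ ∃ n, i = 3 * n + 1 ∧ g n = true} := by
    intro g i
    ext w
    rw [ha, sdiff_empty]
    constructor
    · rintro ⟨hw | ⟨n, hn, rfl⟩, h1, h2⟩
      · obtain ⟨j, rfl⟩ := hw
        left
        refine ⟨j, ?_, rfl⟩
        change j < i
        rcases lt_trichotomy i j with h | h | h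
        · exact absurd (h2.symm.trans (hlt i j h).1) hp
        · exact absurd (congrArg ys h) h1
        · exact h
      · right
        by_cases hi : i = 3 * n + 1
        · exact ⟨by rw [hi], n, hi, hn⟩
        · exact absurd (h2.symm.trans (hyx _ _ (Ne.symm hi))) hp
    · rintro (⟨j, hj, rfl⟩ | ⟨rfl, n, hn, hg⟩)
      · exact ⟨Or.inl ⟨j, rfl⟩, (hne (hlt j i hj).1).symm, hinv (hlt j i hj).1⟩
      · exact ⟨Or.inr ⟨n, hg, by rw [hn]⟩, hyxne i i, hinv (hxy i)⟩
  have hinf : ∀ (g : ℕ → Bool) (i : ℕ),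
      {w ∈ ST_B xs ys g \ range a | Rl col a φ (xs i) w}.Infinite := by
    intro g i
    have h1 : (ys '' {j | i < j}).Infinite := (Set.Ioi_infinite i).image hyinj.injOn
    refine h1.mono ?_
    rintro _ ⟨j, hj, rfl⟩
    rw [ha, sdiff_empty]
    exact ⟨Or.inl ⟨j, rfl⟩, (hyxne i j).symm, hinv (hlt i j hj).2.2.1⟩
  have hcard1 : ∀ i : ℕ, (ys '' {j | j < i}).encard = (i : ℕ∞) := by
    intro i
    rw [hyinj.injOn.encard_image]
    have : ({j | j < i} : Set ℕ) = (Finset.range i : Set ℕ) := by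
      ext j
      simp
    rw [this, encard_coe_eq_coe_finsetCard, Finset.card_range]
  have hdis : ∀ (g : ℕ → Bool) (i : ℕ), Disjoint (ys '' {j | j < i})
      {w | w = xs i ∧ ∃ n, i = 3 * n + 1 ∧ g n = true} := by
    intro g i
    rw [Set.disjoint_left]
    rintro _ ⟨j, -, rfl⟩ ⟨h, -⟩
    exact hyxne i j h
  have hmem : ∀ (g : ℕ → Bool) (n : ℕ), 3 * n + 1 ∈ Cnt col a φ (ST_B xs ys g) ↔
      g n = false := by
    intro g n
    constructor
    · rintro ⟨v, hv, hv2⟩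
      rw [ha, sdiff_empty] at hv
      rcases hv with ⟨i, rfl⟩ | ⟨m, -, rfl⟩
      · rw [hset, encard_union_eq (hdis g i), hcard1] at hv2
        by_cases hi : ∃ n, i = 3 * n + 1 ∧ g n = true
        · have h1 : {w | w = xs i ∧ ∃ n, i = 3 * n + 1 ∧ g n = true} = {xs i} := by
            ext w
            exact ⟨fun h => h.1, fun h => ⟨h, hi⟩⟩
          rw [h1, encard_singleton] at hv2
          have h2 : i + 1 = 3 * n + 1 := by exact_mod_cast hv2
          obtain ⟨m, hm, -⟩ := hi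
          omega
        · have h1 : {w | w = xs i ∧ ∃ n, i = 3 * n + 1 ∧ g n = true} = ∅ := by
            ext w
            exact ⟨fun h => absurd h.2 hi, fun h => absurd h (notMem_empty w)⟩
          rw [h1, encard_empty, add_zero] at hv2
          have h2 : i = 3 * n + 1 := by exact_mod_cast hv2
          by_contra hgn
          exact hi ⟨n, h2, by simpa using hgn⟩
      · exfalso
        have h1 := (hinf g (3 * m + 1)).encard_eq
        rw [h1] at hv2
        exact (ENat.natCast_ne_top _) hv2.symm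
    · intro hg
      refine ⟨ys (3 * n + 1), ?_, ?_⟩
      · rw [ha, sdiff_empty]
        exact Or.inl ⟨_, rfl⟩
      · rw [hset, encard_union_eq (hdis g _), hcard1]
        have h1 : {w | w = xs (3 * n + 1) ∧ ∃ m, 3 * n + 1 = 3 * m + 1 ∧ g m = true} = ∅ := by
          ext w
          refine ⟨fun h => ?_, fun h => absurd h (notMem_empty w)⟩
          obtain ⟨-, m, hm, hgm⟩ := h
          have h2 : n = m := by omega
          subst h2
          rw [hg] at hgm
          exact absurd hgm (by decide)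
        rw [h1, encard_empty, add_zero]
  apply hfg
  funext n
  have h1 := hmem f n
  have h2 := hmem g n
  rw [hcnt, h2] at h1
  cases hf : f n <;> cases hg : g n
  · rfl
  · rw [hf, hg] at h1
    exact absurd (h1.2 rfl) (by decide)
  · rw [hf, hg] at h1
    exact absurd (h1.1 rfl) (by decide)
  · rfl

/-- [TF] no hereditarily split tournaments -/
theorem CLAA_TF (h1 : CLAA_StST) (h2 : St_LO1) (h3 : St_LO2) : CLAA_StTF := by
  intro M C inv col p T hcs hp hT hcol H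
  obtain ⟨T', hT'T, hT', hout⟩ := h1 M C inv col p T hcs hp hT hcol
  obtain ⟨Z, hZT, hZ, htr⟩ := h2 M C inv col p T' hcs.inv2 hcs.sym hp hT'
    (fun x hx y hy => hcol x (hT'T hx) y (hT'T hy)) (fun T'' h => H T'' (h.trans hT'T)) hout
  obtain ⟨i, hi, hip⟩ := h3 M C inv col p Z hcs.inv2 hcs.sym hp hZ
    (fun x hx y hy => hcol x (hT'T (hZT hx)) y (hT'T (hZT hy)))
    (fun T'' h => H T'' (h.trans (hZT.trans hT'T))) htr
  exact hp (hcs.rat i p hi hip)

/-- the hypothesis of `St_CMB` for one set -/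
private def CLA_Q {M C : Type} (col : M → M → C) (p e : C) (ρ0 : C) (Y' : Set M) : Prop :=
  ∃ y ∈ Y', ¬ {v ∈ Y' | col y v = p}.Countable ∧
    ∃ x : ℕ → M, Function.Injective x ∧ (∀ k, x k ∈ Y' ∧ x k ≠ y ∧ col y (x k) = e) ∧
      ∀ k l, k < l → col (x k) (x l) = ρ0

private theorem CLA_sub {M : Type} {Y' Y'' : Set M} (h : Y' ⊆ Y'') (P : M → Prop) :
    {v ∈ Y' | P v} ⊆ {v ∈ Y'' | P v} := fun _ hv => ⟨h hv.1, hv.2⟩

private theorem CLA_Qmono {M C : Type} (col : M → M → C) (p e : C) (ρ0 : C) {Y' Y'' : Set M}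
    (h : Y' ⊆ Y'') (hq : CLA_Q col p e ρ0 Y') : CLA_Q col p e ρ0 Y'' := by
  obtain ⟨y, hy, hu, x, hx, hk, hc⟩ := hq
  exact ⟨y, h hy, fun hcn => hu (hcn.mono (CLA_sub h _)), x, hx,
    fun k => ⟨h (hk k).1, (hk k).2⟩, hc⟩

private theorem CLA_rows (hP : St_PR) (hD : CLAA_StDCD) (hC : St_CMB) {M C : Type} [Finite C]
    {inv : C → C} {col : M → M → C} (hcs : CSA inv col) (Y1 : Set M) (hu : ¬ Y1.Countable)
    (p e : C) (hpe : p ≠ e) (P : C → Prop)
    (h : ∀ Y' ⊆ Y1, ¬ Y'.Countable → ∃ c, P c ∧ CLA_Q col p e c Y') :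
    ∃ c, P c ∧ inv p ≠ p ∧ e = inv p ∧ (c = p ∨ c = inv p) := by
  obtain ⟨Y2, hY2, hu2, c, hc⟩ := hP M C (fun c Y' => P c ∧ CLA_Q col p e c Y') Y1
    (fun c Y' Y'' hs hq => ⟨hq.1, CLA_Qmono col p e c hs hq.2⟩) hu h
  obtain ⟨r, z, x, hcomb⟩ := hC M C inv col Y2 p e c hcs.inv2 hcs.sym hu2
    (fun Y' hY' hu' => (hc Y' hY' hu').2)
  obtain ⟨-, -, -, h1, h2, h3⟩ := hD M C inv col p p e (inv r) r c z x hcs hcomb hpe
  exact ⟨c, (hc Y2 subset_rfl hu2).1, h1, h2, h3⟩

private theorem CLA_rem {M : Type} {S : Set M} (y : M) (h : ¬ S.Countable) :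
    ¬ {v ∈ S | v ≠ y}.Countable := by
  intro hc
  apply h
  refine (hc.union (countable_singleton y)).mono fun v hv => ?_
  by_cases hvy : v = y
  · exact Or.inr hvy
  · exact Or.inl ⟨hv, hvy⟩

theorem CLAA_CLA (hR : St_RAM) (hP : St_PR) (hDM : St_DM) (hD : CLAA_StDCD) (hS : CLAA_StSS)
    (hC : St_CMB) (hT : CLAA_StTF) : St_CLAA := by
  intro M C _ inv col Y hcs hY
  by_contra hno
  -- self-split
  have hsplit : ∀ Y' ⊆ Y, ¬ Y'.Countable → ∃ c : C × C, ∃ y ∈ Y', Spl col y Y' c.1 c.2 := by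
    intro Y' hY' hu
    by_contra hcon
    obtain ⟨Y'', h1, h2, h3⟩ := hS M C inv col Y' hcs hu
      (fun y hy t t' hs => hcon ⟨(t, t'), y, hy, hs⟩)
    exact hno ⟨Y'', h1.trans hY', h2, h3⟩
  obtain ⟨Y1, hY1, hu1, ⟨p, e⟩, hpe⟩ := hP M (C × C)
    (fun c Y' => ∃ y ∈ Y', Spl col y Y' c.1 c.2) Y
    (fun c Y' Y'' hs hq => by
      obtain ⟨y, hy, h0, h1, h2⟩ := hq
      exact ⟨y, hs hy, h0, fun hc => h1 (hc.mono (CLA_sub hs _)),
        fun hc => h2 (hc.mono (CLA_sub hs _))⟩) hY hsplit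
  simp only at hpe
  have hne : p ≠ e := by
    obtain ⟨y, -, h0, -, -⟩ := hpe Y1 subset_rfl hu1
    exact h0
  -- rows
  obtain ⟨-, -, hinv, he, -⟩ := CLA_rows hP hD hC hcs Y1 hu1 p e hne (fun _ => True)
    (fun Y' hY' hu => by
      obtain ⟨y, hy, h0, h1, h2⟩ := hpe Y' hY' hu
      have hinf : {v ∈ {v ∈ Y' | col y v = e} | v ≠ y}.Infinite :=
        fun hf => CLA_rem y h2 hf.countable
      have hx := (Set.Infinite.natEmbedding _ hinf)
      obtain ⟨φ, κ, hφ, hκ⟩ := hR C (fun i j => col (hx i : M) (hx j : M))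
      refine ⟨κ, trivial, y, hy, h1, fun k => (hx (φ k) : M), ?_, ?_, ?_⟩
      · intro a b hab
        exact hφ.injective (hx.injective (Subtype.ext hab))
      · intro k
        exact ⟨(hx (φ k)).2.1.1, (hx (φ k)).2.2, (hx (φ k)).2.1.2⟩
      · intro k l hkl
        exact hκ k l hkl)
  subst he
  -- the graph
  set G : M → M → Prop := fun x y => col x y ≠ p ∧ col x y ≠ inv p with hG
  have hGs : ∀ x y, G x y → G y x := by
    intro x y hxy
    refine ⟨fun h => hxy.2 ?_, fun h => hxy.1 ?_⟩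
    · rw [← hcs.inv2 (col x y), ← hcs.sym x y, h]
    · rw [← hcs.inv2 (col x y), ← hcs.sym x y, h, hcs.inv2]
  have hclq : ∀ Y' ⊆ Y1, ¬ Y'.Countable → ∃ x : ℕ → M, Function.Injective x ∧
      (∀ k, x k ∈ Y') ∧ ∀ k l, k < l → G (x k) (x l) := by
    intro Y' hY' hu
    by_contra hcon
    obtain ⟨T, hT1, hT2, hT3⟩ := hDM M G Y' hGs hu hcon
    refine hT M C inv col p T hcs hinv hT2 (fun x hx y hy hxy => ?_)
      (fun T' hT' hu' => hpe T' (hT'.trans (hT1.trans hY')) hu')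
    have := hT3 x hx y hy hxy
    simp only [hG, not_and_or, not_not] at this
    exact this
  obtain ⟨c, hc1, -, -, hc2⟩ := CLA_rows hP hD hC hcs Y1 hu1 p (inv p) hne
    (fun c => c ≠ p ∧ c ≠ inv p)
    (fun Y' hY' hu => by
      obtain ⟨y, hy, h0, h1, h2⟩ := hpe Y' hY' hu
      obtain ⟨x, hx1, hx2, hx3⟩ := hclq {v ∈ {v ∈ Y' | col y v = inv p} | v ≠ y}
        (fun v hv => hY' hv.1.1) (CLA_rem y h2)
      obtain ⟨φ, κ, hφ, hκ⟩ := hR C (fun i j => col (x i) (x j))
      refine ⟨κ, ?_, y, hy, h1, fun k => x (φ k), hx1.comp hφ.injective, ?_, ?_⟩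
      · rw [← hκ 0 1 one_pos]
        exact hx3 _ _ (hφ one_pos)
      · intro k
        exact ⟨(hx2 (φ k)).1.1, (hx2 (φ k)).2, (hx2 (φ k)).1.2⟩
      · intro k l hkl
        exact hκ k l hkl)
  rcases hc2 with h | h
  · exact hc1.1 h
  · exact hc1.2 h

/-- [CLAA] -/
theorem thm_CLAA : St_CLAA :=
  CLAA_CLA thm_RAM thm_PR (thm_DM thm_SQ)
    (CLAA_DCD thm_CSB (CLAA_DC1 thm_NUM) (CLAA_DC2 thm_NUM) (CLAA_DC3 thm_NUM))
    (CLAA_SS thm_SQ) thm_CMB (CLAA_TF CLAA_ST thm_LO1 thm_LO2)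

end HERN
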