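import Pool.Agent.HERN.St

/-!
# HERN: closed countable sets
-/

set_option autoImplicit false
set_option linter.unusedVariables false

namespace HERN

open Set Pool.Agent.Helper5.DU Pool.Agent.Helper6.Str Pool.Agent.Helper79.VC
  Pool.Agent.Helper97.LO Pool.Agent.Helper97.VC HER

variable {L : FirstOrder.Language.{0, 0}} {M : Type}

/-- increasing unions -/
private theorem te_iUnion {S : L.Structure M} {G : Set M} {n : ℕ} {A : ℕ → Set M}
    (hA : Monotone A) {p : Set (M × M)} (h : ∀ k, TE S G n (dg (A k) ∪ p)) :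
    TE S G n (dg (⋃ k, A k) ∪ p) := by
  classical
  intro q hq hn
  have hfin : q.Finite := finite_of_encard_le_coe hn
  have h1 : ∀ a : M × M, ∃ k, a ∈ q → a ∈ dg (A k) ∪ p := by
    intro a
    by_cases ha : a ∈ q
    · rcases hq ha with ⟨x, hx, rfl⟩ | h2
      · obtain ⟨k, hk⟩ := mem_iUnion.mp hx
        exact ⟨k, fun _ => Or.inl ⟨x, hk, rfl⟩⟩
      · exact ⟨0, fun _ => Or.inr h2⟩
    · exact ⟨0, fun h3 => absurd h3 ha⟩
  choose f hf using h1
  obtain ⟨N, hN⟩ := (hfin.image f).bddAbove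
  refine h N q (fun a ha => ?_) hn
  rcases hf a ha with ⟨x, hx, rfl⟩ | h2
  · exact Or.inl ⟨x, hA (hN (mem_image_of_mem f ha)) hx, rfl⟩
  · exact Or.inr h2

/-- a maximal family of disjoint tuples -/
private theorem exists_max {b : ℕ} (hb : 1 ≤ b) (Q : (Fin b → M) → Prop)
    (hQ : ∀ w, Q w → Function.Injective w)
    (h : ∀ V : Set (Fin b → M), Fam V → ∃ w ∈ V, ¬ Q w) :
    ∃ C : Set M, C.Countable ∧ ∀ w, Off C w → ¬ Q w := by
  let P : Set (Set (Fin b → M)) :=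
    {V | (∀ w ∈ V, Q w) ∧ ∀ w ∈ V, ∀ w' ∈ V, w ≠ w' → ∀ p q, w p ≠ w' q}
  obtain ⟨V, hV⟩ := zorn_subset P (by
    intro c hc hch
    refine ⟨⋃₀ c, ⟨?_, ?_⟩, fun s hs => subset_sUnion_of_mem hs⟩
    · rintro w ⟨s, hs, hw⟩
      exact (hc hs).1 w hw
    · rintro w ⟨s, hs, hw⟩ w' ⟨s', hs', hw'⟩ hne
      rcases hch.total hs hs' with h1 | h1
      · exact (hc hs').2 w (h1 hw) w' hw' hne
      · exact (hc hs).2 w hw w' (h1 hw') hne)
  have hct : V.Countable := by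
    by_contra hun
    obtain ⟨w, hw, hw'⟩ := h V ⟨hun, fun w hw w' hw' p q hpq => by
      by_cases hww : w = w'
      · subst hww
        exact ⟨rfl, hQ w (hV.prop.1 w hw) hpq⟩
      · exact absurd hpq (hV.prop.2 w hw w' hw' hww p q)⟩
    exact hw' (hV.prop.1 w hw)
  refine ⟨{x | ∃ w ∈ V, x ∈ range w}, countable_ranges hct, fun w hw hQw => ?_⟩
  have hins : insert w V ∈ P := by
    refine ⟨?_, ?_⟩
    · rintro v (rfl | hv)
      · exact hQw
      · exact hV.prop.1 v hv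
    · rintro v (rfl | hv) v' (rfl | hv') hne p q
      · exact absurd rfl hne
      · intro hpq
        exact hw p ⟨v', hv', q, hpq.symm⟩
      · intro hpq
        exact hw q ⟨v, hv, p, hpq⟩
      · exact hV.prop.2 v hv v' hv' hne p q
  have h2 : w ∈ V := hV.le_of_ge hins (subset_insert w V) (mem_insert w V)
  exact hw ⟨0, hb⟩ ⟨w, h2, ⟨0, hb⟩, rfl⟩

theorem thm_CLX (hB : St_BAD) : St_CLX := by
  intro L M S F r I U cl a0 A hC hP hR hA
  have hstep : ∀ A' : Set M, A'.Countable → ∃ A'' : Set M, A''.Countable ∧ A' ⊆ A'' ∧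
      ∀ b, 1 ≤ b → b ≤ r → ∀ w : Fin b → M, Function.Injective w → Off A'' w →
        ∃ i : I b, Tp S F r cl (U b i) A' w ∧ Ext S F r U cl A' i w := by
    intro A' hA'
    have h1 : ∀ b : ℕ, ∃ C : Set M, C.Countable ∧ (1 ≤ b → b ≤ r →
        ∀ w : Fin b → M, Off C w → ¬ (Function.Injective w ∧
          ¬ ∃ i : I b, Tp S F r cl (U b i) A' w ∧ Ext S F r U cl A' i w)) := by
      intro b
      by_cases hb : 1 ≤ b ∧ b ≤ r
      · obtain ⟨C, hC1, hC2⟩ := exists_max hb.1 (fun w : Fin b → M => Function.Injective w ∧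
          ¬ ∃ i : I b, Tp S F r cl (U b i) A' w ∧ Ext S F r U cl A' i w)
          (fun w hw => hw.1) (fun V hV => by
            obtain ⟨w, hw, i, hi⟩ := hB L M S F r I U cl a0 A' b V hC hP hR hA' hb.1 hb.2 hV
            exact ⟨w, hw, fun h => h.2 ⟨i, hi⟩⟩)
        exact ⟨C, hC1, fun _ _ => hC2⟩
      · exact ⟨∅, countable_empty, fun h2 h3 => absurd ⟨h2, h3⟩ hb⟩
    choose C hC1 hC2 using h1
    refine ⟨A' ∪ ⋃ b, C b, hA'.union (countable_iUnion hC1), subset_union_left, ?_⟩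
    intro b hb1 hbr w hw hwo
    have h2 := hC2 b hb1 hbr w (hwo.anti (subset_union_of_subset_right
      (subset_iUnion C b) _))
    by_contra h3
    exact h2 ⟨hw, h3⟩
  choose! st hst1 hst2 hst3 using hstep
  let Ak : ℕ → Set M := fun k => Nat.rec (A ∪ a0) (fun _ X => st X) k
  have hAc : ∀ k, (Ak k).Countable := by
    intro k
    induction k with
    | zero => exact hA.union hR.a0f.countable
    | succ k ih => exact hst1 _ ih
  have hmono : Monotone Ak := monotone_nat_of_le_succ fun k => hst2 _ (hAc k)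
  have h0 : ∀ k, a0 ⊆ Ak k := fun k =>
    (subset_union_right : a0 ⊆ A ∪ a0).trans (hmono (Nat.zero_le k))
  have hB' : ∀ k, Ak k ⊆ ⋃ k, Ak k := fun k => subset_iUnion Ak k
  refine ⟨⋃ k, Ak k, (subset_union_left : A ⊆ A ∪ a0).trans (hB' 0),
    countable_iUnion hAc, (h0 0).trans (hB' 0), ?_⟩
  intro b hb1 hbr w hw hwo
  have h1 : ∀ k, ∃ i : I b, Tp S F r cl (U b i) (Ak k) w ∧ Ext S F r U cl (Ak k) i w :=
    fun k => hst3 (Ak k) (hAc k) b hb1 hbr w hw (hwo.anti (hB' (k + 1)))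
  choose i hi1 hi2 using h1
  have hii : ∀ k, i k = i 0 := by
    intro k
    by_contra hne
    obtain ⟨w1, hw1, hw1o⟩ := (hR.gd b (i k)).fam.exists_off (hR.com.icl.ctbl _ (hAc k))
    obtain ⟨w0, hw0, hw0o⟩ := (hR.gd b (i 0)).fam.exists_off (hR.com.icl.ctbl _ (hAc 0))
    refine hR.dist b (i k) (i 0) hne w1 hw1 w0 hw0
      (hw1o.anti (hR.com.icl.mono _ _ (h0 k))) (hw0o.anti (hR.com.icl.mono _ _ (h0 0))) ?_
    refine ((hi1 k) w1 hw1 hw1o).comp ((hi1 0) w0 hw0 hw0o).symm ?_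
    rintro a (⟨x, hx, rfl⟩ | ⟨p, rfl⟩)
    · exact ⟨x, Or.inl ⟨x, h0 k hx, rfl⟩, Or.inl ⟨x, h0 0 hx, rfl⟩⟩
    · exact ⟨w p, Or.inr ⟨p, rfl⟩, Or.inr ⟨p, rfl⟩⟩
  refine ⟨i 0, ?_, ?_⟩
  · intro w' hw' hwo'
    refine te_iUnion hmono fun k => ?_
    have h2 := hi1 k
    rw [hii k] at h2
    exact h2 w' hw' (hwo'.anti (hR.com.icl.mono _ _ (hB' k)))
  · intro J _ l w' v' rk v hrk hw' hv' hv hvo hg hg'
    rw [union_assoc]
    refine te_iUnion hmono fun k => ?_
    have h2 := hi2 k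
    rw [hii k] at h2
    rw [← union_assoc]
    exact h2 J l w' v' rk v hrk hw' hv' hv (hvo.anti (hR.com.icl.mono _ _ (hB' k)))
      (hg.mono (fun B => Subset.rfl) hR.com.icl (union_subset_union_left _ (hB' k)))
      (hg'.mono (fun B => Subset.rfl) hR.com.icl (union_subset_union_left _ (hB' k)))

end HERN
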