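import Pool.Agent.HERN.St

/-!
# HERN, [CMBN]: combs of tuples (helper23)
-/

set_option autoImplicit false

namespace HERN

open Set Pool.Agent.Helper5.DU Pool.Agent.Helper6.Str Pool.Agent.Helper79.VC
  Pool.Agent.Helper97.LO Pool.Agent.Helper97.VC HER

theorem CMBN_prs {M β γ : Type} (u u' : γ → M) (w w' : β → M) :
    prs (Sum.elim u w) (Sum.elim u' w') = prs u u' ∪ prs w w' := by
  ext a
  constructor
  · rintro ⟨i | i, rfl⟩
    · exact Or.inl ⟨i, rfl⟩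
    · exact Or.inr ⟨i, rfl⟩
  · rintro (⟨i, rfl⟩ | ⟨i, rfl⟩)
    · exact ⟨Sum.inl i, rfl⟩
    · exact ⟨Sum.inr i, rfl⟩

/-- a tuple which contains a small set -/
theorem CMBN_tuple {M : Type} [Nonempty M] {k : ℕ} {U : Set M} (hU : U.encard ≤ k) :
    ∃ z : Fin k → M, U ⊆ range z := by
  classical
  have hfin : U.Finite := finite_of_encard_le_coe hU
  have := hfin.fintype
  have hcard : Fintype.card U ≤ Fintype.card (Fin k) := by
    rw [Fintype.card_fin]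
    rw [Set.encard_eq_coe_toFinset_card, Set.toFinset_card] at hU
    exact_mod_cast hU
  obtain ⟨f⟩ := Function.Embedding.nonempty_of_card_le hcard
  obtain ⟨m⟩ := ‹Nonempty M›
  refine ⟨fun i => if h : ∃ x, f x = i then (h.choose : M) else m, fun x hx => ?_⟩
  refine ⟨f ⟨x, hx⟩, ?_⟩
  have h : ∃ y, f y = f ⟨x, hx⟩ := ⟨⟨x, hx⟩, rfl⟩
  show (if h : ∃ y, f y = f ⟨x, hx⟩ then (h.choose : M) else m) = x
  rw [dif_pos h, f.injective h.choose_spec]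

/-- one step of the comb -/
theorem CMBN_step {L : FirstOrder.Language.{0, 0}} {M : Type} {S : L.Structure M}
    {G : Set M} {k : ℕ} {β : Type} [Finite β] {V : Set (β → M)} (hFT : FT S G) (hV : Fam V)
    (h : ∃ U : Set M, U.encard ≤ k ∧ ¬ Trv S G V U) :
    ∃ (z : Fin k → M) (W V' : Set (β → M)), W ⊆ V ∧ ¬ W.Countable ∧ V' ⊆ V ∧ ¬ V'.Countable ∧
      ∀ w ∈ W, ∀ w' ∈ V', ¬ AtEq S S (dg G ∪ prs z z ∪ prs w w') := by
  obtain ⟨U, hU, hUT⟩ := h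
  have hβ : Nonempty β := hV.nonempty
  obtain ⟨w0, hw0, -⟩ := hV.exists_off countable_empty
  have hM : Nonempty M := ⟨w0 hβ.some⟩
  obtain ⟨z, hz⟩ := CMBN_tuple hU
  obtain ⟨C, hC, t, ht⟩ := hFT (Fin k ⊕ β)
  obtain ⟨c, hc⟩ := exists_uncountable_fiber hV.unc fun w => t (Sum.elim z w)
  have h1 : ¬ {w ∈ V | t (Sum.elim z w) ≠ c}.Countable := by
    intro h2
    refine hUT ⟨{x | ∃ w ∈ {w ∈ V | t (Sum.elim z w) ≠ c}, x ∈ range w},
      countable_ranges h2, fun w hw w' hw' hwE hwE' => ?_⟩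
    have h3 : ∀ v ∈ V, Off {x | ∃ w ∈ {w ∈ V | t (Sum.elim z w) ≠ c}, x ∈ range w} v →
        t (Sum.elim z v) = c := by
      intro v hv hvE
      by_contra h4
      exact hvE hβ.some ⟨v, ⟨hv, h4⟩, mem_range_self _⟩
    have h4 := (h3 w hw hwE).trans (h3 w' hw' hwE').symm
    rw [ht, CMBN_prs, prs_self] at h4
    refine h4.anti ?_
    rintro a ((h5 | h5) | h5)
    · exact Or.inl h5
    · exact Or.inr (Or.inl (dg_mono hz h5))
    · exact Or.inr (Or.inr h5)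
  obtain ⟨c', hc'⟩ := exists_uncountable_fiber h1 fun w => t (Sum.elim z w)
  refine ⟨z, {w ∈ V | t (Sum.elim z w) = c}, {w ∈ {w ∈ V | t (Sum.elim z w) ≠ c} |
    t (Sum.elim z w) = c'}, fun w hw => hw.1, hc, fun w hw => hw.1.1, hc', ?_⟩
  rintro w ⟨-, hw⟩ w' ⟨⟨-, hw'⟩, -⟩ h2
  apply hw'
  rw [← hw]
  symm
  rw [ht, CMBN_prs]
  rw [union_assoc] at h2
  exact h2

theorem thm_CMBN : St_CMBN := by
  intro L M S G k β _ V hFT hV h
  have hstep : ∀ V1 : {V1 : Set (β → M) // V1 ⊆ V ∧ ¬ V1.Countable},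
      ∃ (z : Fin k → M) (W V' : Set (β → M)), W ⊆ V1.1 ∧ ¬ W.Countable ∧ V' ⊆ V1.1 ∧
        ¬ V'.Countable ∧ ∀ w ∈ W, ∀ w' ∈ V', ¬ AtEq S S (dg G ∪ prs z z ∪ prs w w') :=
    fun V1 => CMBN_step hFT (hV.mono V1.2.1 V1.2.2) (h V1.1 V1.2.1 V1.2.2)
  choose z W V' hW hW' hV1 hV2 hne using hstep
  obtain ⟨F, hF⟩ : ∃ F : ℕ → {V1 : Set (β → M) // V1 ⊆ V ∧ ¬ V1.Countable},
      ∀ i, (F (i + 1)).1 = V' (F i) := by
    refine ⟨fun i => Nat.rec ⟨V, Subset.rfl, hV.unc⟩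
      (fun _ V1 => ⟨V' V1, (hV1 V1).trans V1.2.1, hV2 V1⟩) i, fun i => rfl⟩
  have hanti : ∀ i j, i ≤ j → (F j).1 ⊆ (F i).1 := by
    intro i j hij
    induction j, hij using Nat.le_induction with
    | base => exact Subset.rfl
    | succ j _ ih =>
      rw [hF]
      exact (hV1 _).trans ih
  refine ⟨fun i => z (F i), fun i => W (F i), fun i => ⟨(hW _).trans (F i).2.1, hW' _⟩,
    fun i j hij w hw w' hw' => hne (F i) w hw w' ?_⟩
  rw [← hF]
  exact hanti (i + 1) j hij (hW _ hw')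

end HERN
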