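import Pool.Agent.HERN.St

/-!
# HERN: [CN] finitely many good families
-/

set_option autoImplicit false
set_option linter.unusedVariables false

namespace HERN

open Set Pool.Agent.Helper5.DU Pool.Agent.Helper6.Str Pool.Agent.Helper79.VC
  Pool.Agent.Helper97.LO Pool.Agent.Helper97.VC HER

variable {L : FirstOrder.Language.{0, 0}} {M : Type} {S : L.Structure M} {G : Set M} {n : ℕ}

/-- generic sequences -/
theorem CN_seq {β : Type} [Finite β] {V : ℕ → Set (β → M)} (hV : ∀ i, Fam (V i))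
    {cl : Set M → Set M} (hcl : IsCl cl) {B : Set M} (hB : B.Countable) (f : ℕ → ℕ) :
    ∃ u : ℕ → β → M, (∀ m, u m ∈ V (f m)) ∧
      ∀ m, Off (cl (B ∪ {x | ∃ i, i < m ∧ x ∈ range (u i)})) (u m) := by
  classical
  have h1 : ∀ (D : Set M) (i : ℕ), ∃ w : β → M, D.Countable → w ∈ V i ∧ Off (cl (B ∪ D)) w := by
    intro D i
    by_cases hD : D.Countable
    · obtain ⟨w, hw, hw'⟩ := (hV i).exists_off (hcl.ctbl _ (hB.union hD))
      exact ⟨w, fun _ => ⟨hw, hw'⟩⟩
    · obtain ⟨w, hw, hw'⟩ := (hV i).exists_off countable_empty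
      exact ⟨w, fun h => absurd h hD⟩
  choose next hnext using h1
  set D : ℕ → Set M := fun m => Nat.rec ∅ (fun m D => D ∪ range (next D (f m))) m with hD
  have hD0 : D 0 = ∅ := rfl
  have hDs : ∀ m, D (m + 1) = D m ∪ range (next (D m) (f m)) := fun m => rfl
  have hDc : ∀ m, (D m).Countable := by
    intro m
    induction m with
    | zero => rw [hD0]; exact countable_empty
    | succ m ih => rw [hDs]; exact ih.union (countable_range _)
  have hDr : ∀ m i, i < m → range (next (D i) (f i)) ⊆ D m := by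
    intro m
    induction m with
    | zero => intro i hi; exact absurd hi (Nat.not_lt_zero i)
    | succ m ih =>
      intro i hi
      rw [hDs]
      rcases Nat.lt_succ_iff_lt_or_eq.1 hi with h | h
      · exact (ih i h).trans subset_union_left
      · rw [h]
        exact subset_union_right
  refine ⟨fun m => next (D m) (f m), fun m => (hnext _ _ (hDc m)).1, fun m => ?_⟩
  refine (hnext (D m) (f m) (hDc m)).2.anti (hcl.mono _ _ (union_subset_union_right _ ?_))
  rintro x ⟨i, hi, hx⟩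
  exact hDr m i hi hx

theorem CN_sw_symm {β : Type} {X : Set M} {w w' : β → M} (h : TE S G n (SW X w w')) :
    TE S G n (SW X w' w) := by
  refine h.symm' ?_
  rintro a ((⟨h1, h2, h3, h4⟩ | ⟨i, rfl⟩) | ⟨i, rfl⟩)
  · refine Or.inl (Or.inl ⟨h1.symm, ?_, ?_, ?_⟩)
    · rw [← h1]; exact h2
    · rw [← h1]; exact h4
    · rw [← h1]; exact h3
  · exact Or.inl (Or.inr ⟨i, rfl⟩)
  · exact Or.inr ⟨i, rfl⟩

theorem thm_CN (hC : St_CCN) : St_CN := by
  classical
  intro L M S F G n β _ hR hF hG hFG hcom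
  rintro ⟨V0, hV0, hne⟩
  obtain ⟨φ, z, hφ, hz⟩ := hC L M S G n β V0 hF hV0 hne
  have hE : ∀ i j, ∃ E : Set M, E.Countable ∧ (i < j → ∀ w ∈ V0 (φ i), ∀ w' ∈ V0 (φ j),
      Off E w → Off E w' → ¬ TE S G n (prs (z i) (z i) ∪ prs w w')) := by
    intro i j
    by_cases hij : i < j
    · obtain ⟨E, h1, h2⟩ := hz i j hij
      exact ⟨E, h1, fun _ => h2⟩
    · exact ⟨∅, countable_empty, fun h => absurd h hij⟩
  choose E hEc hE using hE
  set V : ℕ → Set (β → M) := fun i => V0 (φ i) with hVdef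
  have hV : ∀ i, Gd S G n (V i) := fun i => hV0 _
  obtain ⟨cl, hcl⟩ := hcom V hV
  set A : Set M := G ∪ ⋃ i, range (z i) with hA
  have hAc : A.Countable := hG.countable.union (countable_iUnion fun i => countable_range _)
  set B : Set M := A ∪ ⋃ i, ⋃ j, E i j with hB
  have hBc : B.Countable := hAc.union (countable_iUnion fun i => countable_iUnion fun j => hEc i j)
  obtain ⟨u, hu, hoff⟩ := CN_seq (fun i => (hV i).fam) hcl.icl hBc (fun m => (Nat.unpair m).1)
  have hfp : ∀ i k, (Nat.unpair (Nat.pair i k)).1 = i := fun i k => by rw [Nat.unpair_pair]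
  have huV : ∀ i k, u (Nat.pair i k) ∈ V i := by
    intro i k
    have := hu (Nat.pair i k)
    rwa [hfp] at this
  have hoB : ∀ m, Off B (u m) := fun m =>
    (hoff m).anti (subset_union_left.trans (hcl.icl.sub _))
  have hdisj : ∀ m m' p q, m < m' → u m p ≠ u m' q := by
    intro m m' p q hm he
    exact hoff m' q (hcl.icl.sub _ (Or.inr ⟨m, hm, ⟨p, he⟩⟩))
  have hdis : ∀ m m' p q, u m p = u m' q → m = m' ∧ p = q := by
    intro m m' p q he
    rcases lt_trichotomy m m' with h | h | h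
    · exact absurd he (hdisj m m' p q h)
    · subst h
      exact ⟨rfl, (hV _).fam.inj (hu m) he⟩
    · exact absurd he.symm (hdisj m' m q p h)
  set X : Set M := A ∪ {x | ∃ i k, k ≤ i ∧ x ∈ range (u (Nat.pair i k))} with hX
  have hXc : X.Countable := by
    refine hAc.union ?_
    refine (countable_iUnion fun m : ℕ => countable_range (u m)).mono ?_
    rintro x ⟨i, k, -, hx⟩
    exact mem_iUnion.2 ⟨_, hx⟩
  -- the inequivalent rows
  have hnon : ∀ i j k l, i < j → ¬ TE S G n (SW X (u (Nat.pair i k)) (u (Nat.pair j l))) := by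
    intro i j k l hij hT
    have hsub : E i j ⊆ B := by
      intro x hx
      exact Or.inr (mem_iUnion.2 ⟨i, mem_iUnion.2 ⟨j, hx⟩⟩)
    refine hE i j hij _ (huV i k) _ (huV j l) ((hoB _).anti hsub) ((hoB _).anti hsub)
      (hT.anti ?_)
    rintro a (⟨t, rfl⟩ | ha)
    · have h1 : z i t ∈ A := Or.inr (mem_iUnion.2 ⟨i, ⟨t, rfl⟩⟩)
      refine Or.inl (Or.inl ⟨rfl, Or.inl h1, ?_, ?_⟩)
      · rintro ⟨p, hp⟩
        exact hoB (Nat.pair i k) p (hp ▸ Or.inl h1)
      · rintro ⟨p, hp⟩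
        exact hoB (Nat.pair j l) p (hp ▸ Or.inl h1)
    · exact Or.inl (Or.inr ha)
  refine hR G X n β (fun i k => u (Nat.pair i k)) hG hXc
    (fun x hx => Or.inl (Or.inl hx)) (fun x hx => hFG hx.2) ⟨?_, ?_, ?_, ?_⟩
  · intro i k p hk
    exact ⟨Or.inr ⟨i, k, hk, ⟨p, rfl⟩⟩, fun h => hoB _ p (Or.inl (Or.inl h))⟩
  · intro i k p j l q hk hl he
    obtain ⟨h1, h2⟩ := hdis _ _ _ _ he
    have h3 := Nat.pair_eq_pair.1 h1
    exact ⟨h3.1, h3.2, h2⟩
  · intro i k l hk hl hkl q hq hqn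
    set a := Nat.pair i k with ha
    set b := Nat.pair i l with hb
    have hfab : ∀ m, (Nat.unpair (Equiv.swap a b m)).1 = (Nat.unpair m).1 := by
      intro m
      have hfa : (Nat.unpair a).1 = i := hfp i k
      have hfb : (Nat.unpair b).1 = i := hfp i l
      by_cases h1 : m = a
      · rw [h1, Equiv.swap_apply_left, hfa, hfb]
      · by_cases h2 : m = b
        · rw [h2, Equiv.swap_apply_right, hfa, hfb]
        · rw [Equiv.swap_apply_of_ne_of_ne h1 h2]
    have hqf : q.Finite := finite_of_encard_le_coe hqn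
    have hJ : ({a, b} ∪ ⋃ c ∈ q, {m : ℕ | c.1 ∈ range (u m)}).Finite := by
      refine (Set.toFinite _).union (hqf.biUnion fun c _ => ?_)
      refine Set.Subsingleton.finite ?_
      rintro m ⟨p, hp⟩ m' ⟨p', hp'⟩
      exact (hdis m m' p p' (hp.trans hp'.symm)).1
    have : Finite ({a, b} ∪ ⋃ c ∈ q, {m : ℕ | c.1 ∈ range (u m)} : Set ℕ) := hJ.to_subtype
    have key := hcl.com ({a, b} ∪ ⋃ c ∈ q, {m : ℕ | c.1 ∈ range (u m)} : Set ℕ)
      (fun j => (Nat.unpair j.1).1) (fun j => u j.1) (fun j => u (Equiv.swap a b j.1))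
      (fun j => j.1) (fun j => Equiv.swap a b j.1) A hAc Subtype.val_injective
      ((Equiv.swap a b).injective.comp Subtype.val_injective) (fun j => hu j.1)
      (fun j => by
        have := hu (Equiv.swap a b j.1)
        rw [hfab] at this
        exact this)
      (fun j => by
        refine (hoff j.1).anti (hcl.icl.mono _ _ (union_subset_union subset_union_left ?_))
        rintro x ⟨i', hi', hx⟩
        exact ⟨i'.1, hi', hx⟩)
      (fun j => by
        refine (hoff (Equiv.swap a b j.1)).anti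
          (hcl.icl.mono _ _ (union_subset_union subset_union_left ?_))
        rintro x ⟨i', hi', hx⟩
        exact ⟨Equiv.swap a b i'.1, hi', hx⟩)
    refine key q ?_ hqn
    intro c hc
    rcases hq hc with (⟨h1, h2, h3, h4⟩ | ⟨p, rfl⟩) | ⟨p, rfl⟩
    · rcases h2 with h2 | ⟨i', k', -, p, hp⟩
      · exact Or.inl (mem_dg.2 ⟨h2, h1⟩)
      · have hm : Nat.pair i' k' ∈ ({a, b} ∪ ⋃ c ∈ q, {m : ℕ | c.1 ∈ range (u m)} : Set ℕ) :=
          Or.inr (mem_iUnion₂.2 ⟨c, hc, ⟨p, hp⟩⟩)
        refine Or.inr (mem_iUnion.2 ⟨⟨_, hm⟩, ⟨p, ?_⟩⟩)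
        have h5 : Nat.pair i' k' ≠ a := by
          intro h6
          rw [h6] at hp
          exact h3 ⟨p, hp⟩
        have h7 : Nat.pair i' k' ≠ b := by
          intro h6
          rw [h6] at hp
          exact h4 ⟨p, hp⟩
        simp only
        rw [Equiv.swap_apply_of_ne_of_ne h5 h7]
        exact Prod.ext hp (hp.trans h1)
    · have hm : a ∈ ({a, b} ∪ ⋃ c ∈ q, {m : ℕ | c.1 ∈ range (u m)} : Set ℕ) :=
        Or.inl (Or.inl rfl)
      refine Or.inr (mem_iUnion.2 ⟨⟨_, hm⟩, ⟨p, ?_⟩⟩)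
      simp only
      rw [Equiv.swap_apply_left]
    · have hm : b ∈ ({a, b} ∪ ⋃ c ∈ q, {m : ℕ | c.1 ∈ range (u m)} : Set ℕ) :=
        Or.inl (Or.inr rfl)
      refine Or.inr (mem_iUnion.2 ⟨⟨_, hm⟩, ⟨p, ?_⟩⟩)
      simp only
      rw [Equiv.swap_apply_right]
  · intro i j k l hij hk hl hT
    rcases lt_or_gt_of_ne hij with h | h
    · exact hnon i j k l h hT
    · exact hnon j i l k h (CN_sw_symm hT)

end HERN
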