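import Pool.Agent.HERN.St

/-!
# HERN, module COM: good families commute
-/

set_option autoImplicit false

namespace HERN

open Set Pool.Agent.Helper5.DU Pool.Agent.Helper6.Str Pool.Agent.Helper79.VC
  Pool.Agent.Helper97.LO Pool.Agent.Helper97.VC HER

theorem thm_COM (hP : St_PCM) (hR : St_CR) (hF : St_CFC) : St_COM := by
  intro L M S F G n I _ β _ V hC hN hG hFG hV
  refine hF L M S G (n + 1) I β V fun I' => ?_
  obtain ⟨cl, hcl⟩ := hP L M S F G n I' (fun i => β i) (fun i => V i) hN hG hFG
    (fun i => hV i)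
  exact hR L M S F G n I' (fun i => β i) (fun i => V i) cl hC.sym (hC.ft G hG hFG) hG hFG
    (fun i => hV i) hcl

end HERN
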