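import Pool.Agent.HERN.DAT

/-!
# HERN, module CR: finite systems of good families are commuting
-/

set_option autoImplicit false
set_option linter.unusedVariables false

namespace HERN

open Set Pool.Agent.Helper5.DU Pool.Agent.Helper6.Str Pool.Agent.Helper79.VC
  Pool.Agent.Helper97.LO Pool.Agent.Helper97.VC HER

variable {L : FirstOrder.Language.{0, 0}} {M : Type} {S : L.Structure M} {G : Set M} {n : ℕ}

section sys

variable {I I' : Type} {β : I → Type} {V : ∀ i, Set (β i → M)} {cl : Set M → Set M}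

/-- subsystems -/
theorem CR_pcm (hP : PCm S G n V cl) (π : I' → I) (V' : ∀ a, Set (β (π a) → M))
    (hV : ∀ a, V' a ⊆ V (π a)) : PCm (β := fun a => β (π a)) S G n V' cl :=
  ⟨hP.icl, fun J _ l w w' rk rk' A hA hrk hrk' hw hw' hg hg' g hgA =>
    hP.com J (fun j => π (l j)) w w' rk rk' A hA hrk hrk' (fun j => hV _ (hw j))
      (fun j => hV _ (hw' j)) hg hg' g hgA⟩

theorem CR_dat {γ : Type} {c c' : γ → M} (h : Dat S G n V cl c c') (π : I' → I)
    (V' : ∀ a, Set (β (π a) → M)) (hV : ∀ a, V' a ⊆ V (π a)) :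
    Dat (β := fun a => β (π a)) S G n V' cl c c' :=
  fun J _ l w rk hrk hw hg => h J (fun j => π (l j)) w rk hrk (fun j => hV _ (hw j)) hg

end sys

/-- the system with two new families -/
def CR_fam {I : Type} {β : I → Type} (i : I) (W : ∀ j, Set (β j → M)) (V' V'' : Set (β i → M)) :
    ∀ a : I ⊕ Bool, Set (β (Sum.elim id (fun _ => i) a) → M)
  | Sum.inl j => W j
  | Sum.inr true => V'
  | Sum.inr false => V''

/-- the sequence with a new first member -/
def CR_seq {I J : Type} {β : I → Type} {i : I} (b : Bool) (l : J → I) (c : β i → M)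
    (w : ∀ j, β (l j) → M) :
    ∀ o : Option J, β (Sum.elim id (fun _ => i) (o.elim (Sum.inr b) fun j => Sum.inl (l j))) → M
  | none => c
  | some j => w j

theorem CR_fin {J : Type} [Finite J] (rk : J → ℕ) : ∃ N, ∀ j, rk j < N := by
  obtain ⟨N, hN⟩ := (finite_range rk).bddAbove
  exact ⟨N + 1, fun j => Nat.lt_succ_of_le (hN (mem_range_self j))⟩

/-- the type of a generic sequence does not depend on the position of the new member -/
theorem CR_move {I J : Type} [Finite J] {β : I → Type} {cl : Set M → Set M} {i : I}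
    {W : ∀ j, Set (β j → M)} {V' V'' : Set (β i → M)} (b : Bool)
    (hC : Cm (β := fun a => β (Sum.elim id (fun _ => i) a)) S G n (CR_fam i W V' V'') cl)
    {l : J → I} {w w2 : ∀ j, β (l j) → M} {rk : J → ℕ} (hrk : Function.Injective rk)
    {c c2 : β i → M} (hw : ∀ j, w j ∈ W (l j)) (hw2 : ∀ j, w2 j ∈ W (l j))
    (hc : c ∈ CR_fam i W V' V'' (Sum.inr b)) (hc2 : c2 ∈ CR_fam i W V' V'' (Sum.inr b))
    (hc0 : Off (cl ∅) c) (hg : Gen cl (range c) rk w) (hg2 : Gen cl ∅ rk w2)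
    (hc2o : Off (cl {x | ∃ j, x ∈ range (w2 j)}) c2) :
    TE S G n (prs (DAT_cw c w) (DAT_cw c2 w2)) := by
  obtain ⟨N, hN⟩ := CR_fin rk
  have h1 := hC.com (Option J) (fun o => o.elim (Sum.inr b) fun j => Sum.inl (l j))
    (CR_seq b l c w) (CR_seq b l c2 w2) (fun o => o.elim 0 fun j => rk j + 1)
    (fun o => o.elim N rk) ∅ countable_empty ?_ ?_ ?_ ?_ ?_ ?_
  · refine h1.anti ?_
    rintro _ ⟨(p | ⟨j, x⟩), rfl⟩
    · exact Or.inr (mem_iUnion.mpr ⟨none, p, rfl⟩)
    · exact Or.inr (mem_iUnion.mpr ⟨some j, x, rfl⟩)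
  · rintro (_ | j) (_ | k) h
    · rfl
    · exact absurd h (Nat.succ_ne_zero _).symm
    · exact absurd h (Nat.succ_ne_zero _)
    · exact congrArg some (hrk (Nat.succ_injective h))
  · rintro (_ | j) (_ | k) h
    · rfl
    · exact absurd h (hN k).ne'
    · exact absurd h (hN j).ne
    · exact congrArg some (hrk h)
  · rintro (_ | j)
    · exact hc
    · exact hw j
  · rintro (_ | j)
    · exact hc2
    · exact hw2 j
  · rintro (_ | j)
    · refine hc0.anti (hC.icl.mono _ _ ?_)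
      rintro x (hx | ⟨o, ho, -⟩)
      · exact hx
      · exact absurd ho (Nat.not_lt_zero _)
    · refine (hg j).anti (hC.icl.mono _ _ ?_)
      rintro x (hx | ⟨(_ | k), hk, hx⟩)
      · exact absurd hx (notMem_empty x)
      · exact Or.inl hx
      · exact Or.inr ⟨k, Nat.lt_of_succ_lt_succ hk, hx⟩
  · rintro (_ | j)
    · refine hc2o.anti (hC.icl.mono _ _ ?_)
      rintro x (hx | ⟨(_ | k), hk, hx⟩)
      · exact absurd hx (notMem_empty x)
      · exact absurd hk (lt_irrefl _)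
      · exact ⟨k, hx⟩
    · refine (hg2 j).anti (hC.icl.mono _ _ ?_)
      rintro x (hx | ⟨(_ | k), hk, hx⟩)
      · exact Or.inl hx
      · exact absurd hk (not_lt_of_gt (hN j))
      · exact Or.inr ⟨k, hk, hx⟩

theorem CR_claim (hD : St_DAT) (hU : St_CU) {F : Set M} {I : Type} [Finite I] {β : I → Type}
    [∀ i, Finite (β i)] {V : ∀ i, Set (β i → M)} {cl : Set M → Set M} (hS : SymP S F)
    (hFT : FT S G) (hG : G.Finite) (hF : F ⊆ G) (hV : ∀ i, Gd S G (n + 1) (V i))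
    (hP : PCm S G n V cl) (i : I) :
    ∃ c ∈ V i, {c' ∈ V i | ¬ Dat S G (n + 1) V cl c c'}.Countable := by
  classical
  have hD' : ∀ j, _ := fun j => hD L M S G n I β V cl (β j) (V j) hFT hV hP (hV j).fam.unc
  choose D1 D2 C hC t ht using hD'
  -- colour classes
  have hcc : ∀ j, ∃ κ, ¬ {c ∈ V j | t j c = κ}.Countable := fun j =>
    haveI := hC j
    exists_uncountable_fiber (hV j).fam.unc (t j)
  choose κ hκ using hcc
  by_contra hcon
  push Not at hcon
  set V' : Set (β i → M) := {c ∈ V i | t i c = κ i} with hV'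
  obtain ⟨c0, hc0⟩ : V'.Nonempty := by
    rw [nonempty_iff_ne_empty]
    intro h
    exact hκ i (by rw [← hV', h]; exact countable_empty)
  obtain ⟨κ', hκ'⟩ : ∃ κ', ¬ {c ∈ {c' ∈ V i | ¬ Dat S G (n + 1) V cl c0 c'} |
      t i c = κ'}.Countable :=
    haveI := hC i
    exists_uncountable_fiber (hcon c0 hc0.1) (t i)
  set V'' : Set (β i → M) := {c ∈ {c' ∈ V i | ¬ Dat S G (n + 1) V cl c0 c'} | t i c = κ'}
    with hV''
  have hsub : ∀ a : I ⊕ Bool, CR_fam i (fun j => {c ∈ V j | t j c = κ j}) V' V'' a ⊆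
      V (Sum.elim id (fun _ => i) a) := by
    rintro (j | (_ | _)) c hc
    · exact hc.1
    · exact (show c ∈ V'' from hc).1.1
    · exact (show c ∈ V' from hc).1
  have hunc : ∀ a : I ⊕ Bool,
      ¬ (CR_fam i (fun j => {c ∈ V j | t j c = κ j}) V' V'' a).Countable := by
    rintro (j | (_ | _))
    · exact hκ j
    · exact hκ'
    · exact hκ i
  have hdat : ∀ a : I ⊕ Bool, ∀ c ∈ CR_fam i (fun j => {c ∈ V j | t j c = κ j}) V' V'' a,
      ∀ c' ∈ CR_fam i (fun j => {c ∈ V j | t j c = κ j}) V' V'' a,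
      Dat S G (n + 1) V cl c c' := by
    rintro (j | (_ | _)) c hc c' hc'
    · exact ht j c hc.1 c' hc'.1 (hc.2.trans hc'.2.symm)
    · have h1 : c ∈ V'' := hc
      have h2 : c' ∈ V'' := hc'
      exact ht i c h1.1.1 c' h2.1.1 (h1.2.trans h2.2.symm)
    · have h1 : c ∈ V' := hc
      have h2 : c' ∈ V' := hc'
      exact ht i c h1.1 c' h2.1 (h1.2.trans h2.2.symm)
  have hCm : Cm (β := fun a => β (Sum.elim id (fun _ => i) a)) S G (n + 1)
      (CR_fam i (fun j => {c ∈ V j | t j c = κ j}) V' V'') cl := by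
    refine hU L M S F G n (I ⊕ Bool) (fun a => β (Sum.elim id (fun _ => i) a)) _ cl hS hG hF
      (fun a => (hV _).mono (hsub a) (hunc a)) (CR_pcm hP _ _ hsub) ?_
    intro a c hc c' hc'
    exact CR_dat (hdat a c hc c' hc') _ _ hsub
  have hcl := hP.icl
  have hfV' : Fam V' := (hV i).fam.mono (fun c hc => hc.1) (hκ i)
  have hfV'' : Fam V'' := (hV i).fam.mono (fun c hc => hc.1.1) hκ'
  obtain ⟨c', hc', hc'0⟩ := hfV'.exists_off (hcl.ctbl ∅ countable_empty)
  obtain ⟨c'', hc'', hc''0⟩ := hfV''.exists_off (hcl.ctbl ∅ countable_empty)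
  -- the contradiction
  have hnd : ¬ Dat S G (n + 1) V cl c' c'' := by
    intro h
    refine hc''.1.2 ?_
    exact D1 i c0 hc0.1 c' hc'.1 c'' hc''.1.1
      (ht i c0 hc0.1 c' hc'.1 (hc0.2.trans hc'.2.symm)) h
  apply hnd
  rw [DAT_dat]
  intro J _ l w rk hrk hw hg
  refine DAT_te_prs fun Z hZ => ?_
  by_cases hp : ∃ p, Sum.inl p ∈ Z
  · obtain ⟨p, hp⟩ := hp
    have hfW : ∀ j, Fam {c ∈ V (l j) | t (l j) c = κ (l j)} := fun j =>
      (hV (l j)).fam.mono (fun c hc => hc.1) (hκ (l j))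
    obtain ⟨w1, hw1, hg1⟩ := DAT_gen hcl (fun j => {c ∈ V (l j) | t (l j) c = κ (l j)}) hfW rk
      ((countable_range c').union (countable_range c''))
    obtain ⟨w2, hw2, hg2⟩ := DAT_gen hcl (fun j => {c ∈ V (l j) | t (l j) c = κ (l j)}) hfW rk
      (countable_empty)
    have hA : {x | ∃ j, x ∈ range (w2 j)}.Countable := by
      have h1 : {x | ∃ j, x ∈ range (w2 j)} = ⋃ j, range (w2 j) := by
        ext x
        simp
      rw [h1]
      exact countable_iUnion fun j => countable_range (w2 j)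
    obtain ⟨E, hE, hEq⟩ := (hV i).eqv _ hA
    obtain ⟨c2', hc2', hc2'o⟩ := hfV'.exists_off (hE.union (hcl.ctbl _ hA))
    obtain ⟨c2'', hc2'', hc2''o⟩ := hfV''.exists_off (hE.union (hcl.ctbl _ hA))
    rw [off_union] at hc2'o hc2''o
    have s1 : AtEq S S (dg G ∪ prt Z (DAT_cw c' w) (DAT_cw c' w1)) :=
      DAT_K1 hP hrk hrk hw (fun j => (hw1 j).1)
        (hg.mono (fun _ => Subset.rfl) hcl subset_union_left)
        (hg1.mono (fun _ => Subset.rfl) hcl subset_union_left) hZ hp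
    have s2 : AtEq S S (dg G ∪ prt Z (DAT_cw c' w1) (DAT_cw c2' w2)) := by
      refine DAT_te_to ?_ hZ
      exact CR_move true hCm hrk hw1 hw2 hc' hc2' hc'0
        (hg1.mono (fun _ => Subset.rfl) hcl subset_union_left) hg2 hc2'o.2
    have s3 : AtEq S S (dg G ∪ prt Z (DAT_cw c2' w2) (DAT_cw c2'' w2)) := by
      refine DAT_te_to ((hEq c2' hc2'.1 c2'' hc2''.1.1 hc2'o.1 hc2''o.1).anti ?_) hZ
      rintro _ ⟨(p | ⟨j, x⟩), rfl⟩
      · exact Or.inr ⟨p, rfl⟩
      · exact Or.inl ⟨w2 j x, ⟨j, x, rfl⟩, rfl⟩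
    have s4 : AtEq S S (dg G ∪ prt Z (DAT_cw c2'' w2) (DAT_cw c'' w1)) := by
      refine DAT_symm (DAT_te_to ?_ hZ)
      exact CR_move false hCm hrk hw1 hw2 hc'' hc2'' hc''0
        (hg1.mono (fun _ => Subset.rfl) hcl subset_union_right) hg2 hc2''o.2
    have s5 : AtEq S S (dg G ∪ prt Z (DAT_cw c'' w1) (DAT_cw c'' w)) :=
      DAT_K1 hP hrk hrk (fun j => (hw1 j).1) hw
        (hg1.mono (fun _ => Subset.rfl) hcl subset_union_right)
        (hg.mono (fun _ => Subset.rfl) hcl subset_union_right) hZ hp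
    exact DAT_comp (DAT_comp (DAT_comp (DAT_comp s1 s2) s3) s4) s5
  · exact DAT_diag fun p hp' => hp ⟨p, hp'⟩

theorem thm_CR (hD : St_DAT) (hU : St_CU) : St_CR := by
  intro L M S F G n I _ β _ V cl hS hFT hG hF hV hP
  have hcl := hP.icl
  choose c hc hcc using CR_claim hD hU hS hFT hG hF hV hP
  have hD' := fun j => hD L M S G n I β V cl (β j) (V j) hFT hV hP (hV j).fam.unc
  let W : ∀ i, Set (β i → M) := fun i => {v ∈ V i | Dat S G (n + 1) V cl (c i) v}
  have hWV : ∀ i, W i ⊆ V i := fun i v hv => hv.1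
  have hunc : ∀ i, ¬ (W i).Countable := by
    intro i h
    refine (hV i).fam.unc ((h.union (hcc i)).mono fun v hv => ?_)
    by_cases h1 : Dat S G (n + 1) V cl (c i) v
    · exact Or.inl ⟨hv, h1⟩
    · exact Or.inr ⟨hv, h1⟩
  have hCm : Cm S G (n + 1) W cl := by
    refine hU L M S F G n I β W cl hS hG hF (fun i => (hV i).mono (hWV i) (hunc i))
      (CR_pcm hP id W hWV) ?_
    intro i v hv v' hv'
    have h1 : Dat S G (n + 1) V cl v v' :=
      (hD' i).1 v hv.1 (c i) (hc i) v' hv'.1 ((hD' i).2.1 (c i) (hc i) v hv.1 hv.2) hv'.2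
    exact CR_dat h1 id W hWV
  let E0 : Set M := {x | ∃ i, ∃ v ∈ {v ∈ V i | ¬ Dat S G (n + 1) V cl (c i) v}, x ∈ range v}
  have hE0 : E0.Countable := by
    refine (countable_iUnion fun i => countable_ranges (hcc i)).mono ?_
    rintro x ⟨i, hx⟩
    exact mem_iUnion.mpr ⟨i, hx⟩
  refine ⟨fun A => cl (A ∪ E0), ⟨fun A B hAB => hcl.mono _ _ (union_subset_union_left _ hAB),
    fun A => subset_union_left.trans (hcl.sub _), fun A hA => hcl.ctbl _ (hA.union hE0)⟩, ?_⟩
  intro J _ l w w' rk rk' A hA hrk hrk' hw hw' hg hg'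
  have hmem : ∀ (w : ∀ j, β (l j) → M) (rk : J → ℕ), (∀ j, w j ∈ V (l j)) →
      Gen (fun A => cl (A ∪ E0)) A rk w → (∀ j, w j ∈ W (l j)) ∧ Gen cl A rk w := by
    intro w rk hw hg
    refine ⟨fun j => ⟨hw j, ?_⟩, fun j => (hg j).anti (hcl.mono _ _ subset_union_left)⟩
    by_contra h1
    obtain ⟨b⟩ := (hV (l j)).fam.nonempty
    refine hg j b (hcl.sub _ (Or.inr ?_))
    exact ⟨l j, w j, ⟨hw j, h1⟩, b, rfl⟩
  obtain ⟨h1, h2⟩ := hmem w rk hw hg
  obtain ⟨h3, h4⟩ := hmem w' rk' hw' hg'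
  exact hCm.com J l w w' rk rk' A hA hrk hrk' h1 h3 h2 h4

end HERN
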