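import Pool.Agent.HERN.St
import Pool.Agent.HER.HF
import Pool.Agent.HER.PIG

/-!
# HERN, module CX: the general properties of large structures
-/

set_option autoImplicit false

namespace HERN

open Set Pool.Agent.Helper5.DU Pool.Agent.Helper6.Str Pool.Agent.Helper79.VC
  Pool.Agent.Helper97.LO Pool.Agent.Helper97.VC HER

theorem thm_CX (hFT : St_FTN) (hV : St_VQ) (hR : St_ROWS) (hO : St_ORDB) (hS : St_SYM) :
    St_CX := by
  intro L _ _ K δ M S hS' hK hM
  obtain ⟨F, hF, hHer⟩ := thm_HF L K δ M S hS' hK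
  have hP : Pig S F := thm_PIG L K M S F hS'.scat hHer
  have hPG : ∀ G : Set M, G.Finite → F ⊆ G → Pig S G := by
    intro G hG hFG X G' γ hG' hGG'
    exact hP X G' γ hG' (hFG.trans hGG')
  have hinf : Infinite M := by
    by_contra h
    have : Finite M := not_infinite_iff_finite.mp h
    exact hM (Set.to_countable _)
  have hvq : VQp S := hV L K δ M S hS' hK
  exact ⟨F, ⟨hF, hM, hP, hvq, fun G hG hFG => hFT L M S G hG hinf (hPG G hG hFG),
    hR L M S F hF hP, hO L M S F hF hP, hS L M S F hvq⟩⟩

end HERN
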