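import Pool.Agent.HERN.St

/-!
# HERN, module DAT: finitely many data
-/

set_option autoImplicit false
set_option linter.unusedVariables false

namespace HERN

open Set Pool.Agent.Helper5.DU Pool.Agent.Helper6.Str Pool.Agent.Helper79.VC
  Pool.Agent.Helper97.LO Pool.Agent.Helper97.VC HER

variable {L : FirstOrder.Language.{0, 0}} {M : Type} {S : L.Structure M} {G : Set M} {n : ℕ}

/-- subsets of `prs u v` are given by index sets -/
theorem DAT_sec {T : Type} {u v : T → M} {q : Set (M × M)} (hq : q ⊆ prs u v) :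
    ∃ Z : Set T, prt Z u v = q ∧ Z.encard ≤ q.encard := by
  have h1 : ∀ a ∈ q, ∃ i : T, (u i, v i) = a := fun a ha => hq ha
  choose f hf using h1
  refine ⟨range fun a : q => f a.1 a.2, ?_, ?_⟩
  · ext a
    constructor
    · rintro ⟨_, ⟨a, rfl⟩, rfl⟩
      have h2 := hf a.1 a.2
      show (u (f a.1 a.2), v (f a.1 a.2)) ∈ q
      rw [h2]
      exact a.2
    · intro ha
      exact ⟨f a ha, ⟨⟨a, ha⟩, rfl⟩, hf a ha⟩
  · rw [← image_univ]
    refine (encard_image_le _ _).trans ?_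
    rw [encard_univ, ENat.card_coe_set_eq]

/-- the types of tuples by index sets -/
theorem DAT_te_prs {T : Type} {m : ℕ} {u v : T → M}
    (h : ∀ Z : Set T, Z.encard ≤ m → AtEq S S (dg G ∪ prt Z u v)) : TE S G m (prs u v) := by
  intro q hq hn
  obtain ⟨Z, hZ, hZn⟩ := DAT_sec hq
  rw [← hZ]
  exact h Z (hZn.trans hn)

/-- composition for index sets -/
theorem DAT_comp {T : Type} {Z : Set T} {u v x : T → M} (h : AtEq S S (dg G ∪ prt Z u v))
    (h' : AtEq S S (dg G ∪ prt Z v x)) : AtEq S S (dg G ∪ prt Z u x) := by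
  refine AtEq.comp' h h' ?_
  rintro a (⟨y, hy, rfl⟩ | ⟨i, hi, rfl⟩)
  · exact ⟨y, Or.inl ⟨y, hy, rfl⟩, Or.inl ⟨y, hy, rfl⟩⟩
  · exact ⟨v i, Or.inr ⟨i, hi, rfl⟩, Or.inr ⟨i, hi, rfl⟩⟩

theorem DAT_symm {T : Type} {Z : Set T} {u v : T → M} (h : AtEq S S (dg G ∪ prt Z u v)) :
    AtEq S S (dg G ∪ prt Z v u) := by
  refine AtEq.symm' h ?_
  rintro a (⟨y, hy, rfl⟩ | ⟨i, hi, rfl⟩)
  · exact Or.inl ⟨y, hy, rfl⟩
  · exact Or.inr ⟨i, hi, rfl⟩

theorem DAT_te_to {T : Type} {m : ℕ} {u v : T → M} (h : TE S G m (prs u v)) {Z : Set T}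
    (hZ : Z.encard ≤ m) : AtEq S S (dg G ∪ prt Z u v) :=
  h _ (prt_subset Z u v) ((encard_image_le _ _).trans hZ)

/-- existence of generic sequences -/
theorem DAT_gen {J : Type} [Countable J] {β : J → Type} [∀ j, Finite (β j)]
    {cl : Set M → Set M} (hcl : IsCl cl) (V : ∀ j, Set (β j → M)) (hV : ∀ j, Fam (V j))
    (rk : J → ℕ) {A : Set M} (hA : A.Countable) :
    ∃ w : ∀ j, β j → M, (∀ j, w j ∈ V j) ∧ Gen cl A rk w := by
  classical
  have hE : ∀ (N : ℕ) (w : ∀ j, β j → M),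
      (cl (A ∪ {x | ∃ i, rk i < N ∧ x ∈ range (w i)})).Countable := by
    intro N w
    refine hcl.ctbl _ (hA.union ?_)
    have : {x | ∃ i, rk i < N ∧ x ∈ range (w i)} ⊆ ⋃ i, range (w i) := by
      rintro x ⟨i, -, hx⟩
      exact mem_iUnion.mpr ⟨i, hx⟩
    exact (countable_iUnion fun i => countable_range (w i)).mono this
  have key : ∀ w0 : (∀ j, β j → M), ∀ j : J, ∃ v ∈ V j,
      Off (cl (A ∪ {x | ∃ i, rk i < rk j ∧ x ∈ range (w0 i)})) v :=
    fun w0 j => (hV j).exists_off (hE (rk j) w0)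
  choose v hvV hvO using key
  have hne : ∀ j, (V j).Nonempty := fun j => by
    obtain ⟨w, hw, -⟩ := (hV j).exists_off countable_empty
    exact ⟨w, hw⟩
  choose b hb using hne
  -- the sequence is given by iteration
  let it : ℕ → ∀ j, β j → M := fun N => Nat.rec b (fun N w0 j => if rk j = N then v w0 j else w0 j) N
  have hit : ∀ N j, it (N + 1) j = if rk j = N then v (it N) j else it N j := fun N j => rfl
  have hst : ∀ N j, rk j < N → it N j = it (rk j + 1) j := by
    intro N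
    induction N with
    | zero => intro j hj; exact absurd hj (Nat.not_lt_zero _)
    | succ N ih =>
      intro j hj
      rcases Nat.lt_succ_iff_lt_or_eq.mp hj with h | h
      · rw [hit, if_neg (Nat.ne_of_lt h), ih j h]
      · rw [h]
  refine ⟨fun j => it (rk j + 1) j, fun j => ?_, fun j => ?_⟩
  · show it (rk j + 1) j ∈ V j
    rw [hit, if_pos rfl]
    exact hvV _ _
  · show Off _ (it (rk j + 1) j)
    rw [hit, if_pos rfl]
    have h1 : {x | ∃ i, rk i < rk j ∧ x ∈ range (it (rk i + 1) i)} =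
        {x | ∃ i, rk i < rk j ∧ x ∈ range (it (rk j) i)} := by
      ext x
      constructor
      · rintro ⟨i, hi, hx⟩
        exact ⟨i, hi, by rwa [hst _ _ hi]⟩
      · rintro ⟨i, hi, hx⟩
        exact ⟨i, hi, by rwa [← hst _ _ hi]⟩
    rw [h1]
    exact hvO (it (rk j)) j

/-- the tuple `(c, w)` -/
def DAT_cw {γ J : Type} {β : J → Type} (c : γ → M) (w : ∀ j, β j → M) :
    γ ⊕ (Σ j, β j) → M := Sum.elim c fun x => w x.1 x.2

theorem DAT_sets {γ J : Type} {β : J → Type} (c c' : γ → M) (w w' : ∀ j, β j → M) :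
    prs (DAT_cw c w) (DAT_cw c' w') = prs c c' ∪ ⋃ j, prs (w j) (w' j) := by
  ext a
  constructor
  · rintro ⟨(p | ⟨j, b⟩), rfl⟩
    · exact Or.inl ⟨p, rfl⟩
    · exact Or.inr (mem_iUnion.mpr ⟨j, b, rfl⟩)
  · rintro (⟨p, rfl⟩ | h)
    · exact ⟨Sum.inl p, rfl⟩
    · obtain ⟨j, b, rfl⟩ := mem_iUnion.mp h
      exact ⟨Sum.inr ⟨j, b⟩, rfl⟩

/-- two generic sequences over `c` -/
theorem DAT_K1 {I : Type} {β : I → Type} {V : ∀ i, Set (β i → M)} {cl : Set M → Set M}
    (hP : PCm S G n V cl) {γ : Type} [Countable γ] {J : Type} [Finite J] {l : J → I}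
    {w w' : ∀ j, β (l j) → M}
    {rk rk' : J → ℕ} (hrk : Function.Injective rk) (hrk' : Function.Injective rk')
    (hw : ∀ j, w j ∈ V (l j)) (hw' : ∀ j, w' j ∈ V (l j)) {c : γ → M}
    (hg : Gen cl (range c) rk w) (hg' : Gen cl (range c) rk' w')
    {Z : Set (γ ⊕ Σ j, β (l j))} (hZ : Z.encard ≤ n + 1) {p : γ} (hp : Sum.inl p ∈ Z) :
    AtEq S S (dg G ∪ prt Z (DAT_cw c w) (DAT_cw c w')) := by
  have h1 := hP.com J l w w' rk rk' (range c) (countable_range c) hrk hrk' hw hw' hg hg' (c p)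
    (mem_range_self p)
  refine h1.of_insertG ?_ ((encard_image_le _ _).trans (by exact_mod_cast hZ)) ⟨Sum.inl p, hp, rfl⟩
  refine (prt_subset _ _ _).trans ?_
  rw [DAT_sets, prs_self]

/-- index sets without elements of the first kind -/
theorem DAT_diag {γ J : Type} {β : J → Type} {c c' : γ → M} {w : ∀ j, β j → M}
    {Z : Set (γ ⊕ Σ j, β j)} (hZ : ∀ p, Sum.inl p ∉ Z) :
    AtEq S S (dg G ∪ prt Z (DAT_cw c w) (DAT_cw c' w)) := by
  refine atEq_diag S ?_
  rintro a (⟨x, -, rfl⟩ | ⟨i, hi, rfl⟩)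
  · rfl
  · rcases i with p | x
    · exact absurd hi (hZ p)
    · rfl

theorem DAT_dat {I : Type} {β : I → Type} {V : ∀ i, Set (β i → M)} {cl : Set M → Set M}
    {γ : Type} {c c' : γ → M} :
    Dat S G n V cl c c' ↔ ∀ (J : Type) [Finite J] (l : J → I) (w : ∀ j, β (l j) → M)
      (rk : J → ℕ), Function.Injective rk → (∀ j, w j ∈ V (l j)) →
      Gen cl (range c ∪ range c') rk w → TE S G n (prs (DAT_cw c w) (DAT_cw c' w)) := by
  constructor
  · intro h J _ l w rk hrk hw hg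
    rw [DAT_sets]
    simp only [prs_self]
    exact h J l w rk hrk hw hg
  · intro h J _ l w rk hrk hw hg
    have h1 := h J l w rk hrk hw hg
    rw [DAT_sets] at h1
    simp only [prs_self] at h1
    exact h1

theorem DAT_trans {I : Type} {β : I → Type} [∀ i, Finite (β i)] {V : ∀ i, Set (β i → M)}
    {cl : Set M → Set M} (hV : ∀ i, Fam (V i)) (hP : PCm S G n V cl) {γ : Type} [Finite γ]
    {c c' c'' : γ → M} (h : Dat S G (n + 1) V cl c c') (h' : Dat S G (n + 1) V cl c' c'') :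
    Dat S G (n + 1) V cl c c'' := by
  rw [DAT_dat] at h h' ⊢
  intro J _ l w rk hrk hw hg
  obtain ⟨w1, hw1, hg1⟩ := DAT_gen hP.icl (fun j => V (l j)) (fun j => hV (l j)) rk
    (((countable_range c).union (countable_range c')).union (countable_range c''))
  refine DAT_te_prs fun Z hZ => ?_
  by_cases hp : ∃ p, Sum.inl p ∈ Z
  · obtain ⟨p, hp⟩ := hp
    have hcl := hP.icl
    have s1 : AtEq S S (dg G ∪ prt Z (DAT_cw c w) (DAT_cw c w1)) :=
      DAT_K1 hP hrk hrk hw hw1 (hg.mono (fun _ => Subset.rfl) hcl subset_union_left)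
        (hg1.mono (fun _ => Subset.rfl) hcl (subset_union_left.trans subset_union_left)) hZ hp
    have s2 := DAT_te_to (h J l w1 rk hrk hw1
      (hg1.mono (fun _ => Subset.rfl) hcl subset_union_left)) hZ
    have s3 := DAT_te_to (h' J l w1 rk hrk hw1
      (hg1.mono (fun _ => Subset.rfl) hcl (union_subset
        (subset_union_right.trans subset_union_left) subset_union_right))) hZ
    have s4 : AtEq S S (dg G ∪ prt Z (DAT_cw c'' w1) (DAT_cw c'' w)) :=
      DAT_K1 hP hrk hrk hw1 hw (hg1.mono (fun _ => Subset.rfl) hcl subset_union_right)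
        (hg.mono (fun _ => Subset.rfl) hcl subset_union_right) hZ hp
    exact DAT_comp (DAT_comp (DAT_comp s1 s2) s3) s4
  · exact DAT_diag fun p hp' => hp ⟨p, hp'⟩

theorem DAT_sy {I : Type} {β : I → Type} {V : ∀ i, Set (β i → M)} {cl : Set M → Set M}
    {γ : Type} {c c' : γ → M} (h : Dat S G n V cl c c') : Dat S G n V cl c' c := by
  intro J _ l w rk hrk hw hg
  rw [union_comm] at hg
  refine (h J l w rk hrk hw hg).symm' ?_
  rintro a (⟨i, rfl⟩ | ha)
  · exact Or.inl ⟨i, rfl⟩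
  · obtain ⟨j, x, hx, rfl⟩ := mem_iUnion.mp ha
    exact Or.inr (mem_iUnion.mpr ⟨j, x, hx, rfl⟩)

/-- the blocks which occur in a small index set, in increasing order -/
theorem DAT_blocks {γ J : Type} {β : J → Type} {rk : J → ℕ} (hrk : Function.Injective rk)
    {Z : Set (γ ⊕ Σ j, β j)} (hZ : Z.encard ≤ n + 1) {p : γ} (hp : Sum.inl p ∈ Z) :
    ∃ (s : ℕ) (e : Fin s → J), s ≤ n ∧ (∀ i k, i < k ↔ rk (e i) < rk (e k)) ∧
      ∀ j b, Sum.inr ⟨j, b⟩ ∈ Z → ∃ k, e k = j := by
  classical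
  let g : γ ⊕ (Σ j, β j) → ℕ := Sum.elim (fun _ => 0) fun x => rk x.1
  let Z' : Set (γ ⊕ Σ j, β j) := {z | z ∈ Z ∧ ∃ j b, z = Sum.inr ⟨j, b⟩}
  have hZ' : Z'.encard ≤ n := by
    have h1 : Z' ⊆ Z \ {Sum.inl p} := by
      rintro z ⟨hz, j, b, rfl⟩
      refine ⟨hz, ?_⟩
      intro h
      exact Sum.inr_ne_inl h
    refine (encard_le_encard h1).trans ?_
    have h2 := encard_sdiff_singleton_add_one hp
    rw [← h2] at hZ
    exact (WithTop.add_le_add_iff_right (WithTop.one_ne_top)).mp hZ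
  have hfin : (g '' Z').Finite := by
    refine Set.Finite.image _ (finite_of_encard_le_coe hZ')
  have hcard : hfin.toFinset.card ≤ n := by
    have h1 : (g '' Z').encard ≤ n := (encard_image_le _ _).trans hZ'
    rw [hfin.encard_eq_coe_toFinset_card] at h1
    exact_mod_cast h1
  have hex : ∀ k : Fin hfin.toFinset.card, ∃ j : J,
      rk j = hfin.toFinset.orderEmbOfFin rfl k := by
    intro k
    have h1 := hfin.toFinset.orderEmbOfFin_mem rfl k
    rw [Set.Finite.mem_toFinset] at h1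
    obtain ⟨z, ⟨-, j, b, rfl⟩, hz⟩ := h1
    exact ⟨j, hz⟩
  choose e he using hex
  refine ⟨hfin.toFinset.card, e, hcard, fun i k => ?_, fun j b hjb => ?_⟩
  · rw [he, he]
    exact ((hfin.toFinset.orderEmbOfFin rfl).lt_iff_lt).symm
  · have h1 : rk j ∈ hfin.toFinset := by
      rw [Set.Finite.mem_toFinset]
      exact ⟨Sum.inr ⟨j, b⟩, ⟨hjb, j, b, rfl⟩, rfl⟩
    have h2 : rk j ∈ range (hfin.toFinset.orderEmbOfFin rfl) := by
      rw [Finset.range_orderEmbOfFin]
      exact h1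
    obtain ⟨k, hk⟩ := h2
    exact ⟨k, hrk (by rw [he, hk])⟩

theorem thm_DAT : St_DAT := by
  intro L M S G n I _ β _ V cl γ _ Y hFT hV hP hY
  refine ⟨fun c _ c' _ c'' _ h h' => DAT_trans (fun i => (hV i).fam) hP h h',
    fun c _ c' _ h => DAT_sy h, ?_⟩
  have hgen : ∀ (x : Σ s : Fin (n + 1), (Fin s → I)) (c : γ → M),
      ∃ w : ∀ j : Fin x.1, β (x.2 j) → M, (∀ j, w j ∈ V (x.2 j)) ∧
        Gen cl (range c) (fun j : Fin x.1 => (j : ℕ)) w := fun x c =>
    DAT_gen hP.icl (fun j => V (x.2 j)) (fun j => (hV _).fam) _ (countable_range c)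
  choose w hwV hwG using hgen
  have hFT' : ∀ x : Σ s : Fin (n + 1), (Fin s → I), ∃ (C : Type) (_ : Finite C)
      (t : ((γ ⊕ Σ j : Fin x.1, β (x.2 j)) → M) → C),
      ∀ v v', t v = t v' ↔ AtEq S S (dg G ∪ prs v v') := fun x => hFT _
  choose C hC t ht using hFT'
  have : ∀ x, Finite (C x) := hC
  refine ⟨∀ x, C x, inferInstance, fun c x => t x (DAT_cw c (w x c)), fun c _ c' _ hcc' => ?_⟩
  rw [DAT_dat]
  intro J _ l v rk hrk hv hg
  refine DAT_te_prs fun Z hZ => ?_
  by_cases hp : ∃ p, Sum.inl p ∈ Z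
  · obtain ⟨p, hp⟩ := hp
    obtain ⟨s, e, hs, he, heZ⟩ := DAT_blocks hrk hZ hp
    have hinj : Function.Injective e := by
      intro i k hik
      by_contra hne
      rcases lt_or_gt_of_ne hne with h | h
      · have h1 := (he i k).mp h
        rw [hik] at h1
        exact lt_irrefl _ h1
      · have h1 := (he k i).mp h
        rw [hik] at h1
        exact lt_irrefl _ h1
    let x : Σ s : Fin (n + 1), (Fin s → I) := ⟨⟨s, Nat.lt_succ_of_le hs⟩, fun k => l (e k)⟩
    have hcl := hP.icl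
    let φ : (γ ⊕ Σ k : Fin s, β (l (e k))) → (γ ⊕ Σ j, β (l j)) :=
      Sum.map id fun y => ⟨e y.1, y.2⟩
    have hφ : Function.Injective φ := by
      refine Sum.map_injective.mpr ⟨Function.injective_id, ?_⟩
      rintro ⟨i, b⟩ ⟨k, b'⟩ hik
      have h1 : e i = e k := congrArg Sigma.fst hik
      have h2 := hinj h1
      subst h2
      simp only [Sigma.mk.injEq, heq_eq_eq, true_and] at hik
      rw [hik]
    let Z' := φ ⁻¹' Z
    have hZ' : Z'.encard ≤ n + 1 := by
      have h1 : Z'.encard ≤ Z.encard := by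
        rw [← hφ.encard_image]
        exact encard_le_encard (image_preimage_subset _ _)
      exact h1.trans hZ
    have hp' : Sum.inl p ∈ Z' := hp
    let v' : ∀ k : Fin s, β (l (e k)) → M := fun k => v (e k)
    have hv' : ∀ k, v' k ∈ V (l (e k)) := fun k => hv (e k)
    have hg' : Gen cl (range c ∪ range c') (fun j : Fin s => (j : ℕ)) v' := by
      intro k
      refine (hg (e k)).anti (hcl.mono _ _ (union_subset_union_right _ ?_))
      rintro y ⟨i, hi, hy⟩
      exact ⟨e i, (he i k).mp hi, hy⟩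
    have s1 : AtEq S S (dg G ∪ prt Z' (DAT_cw c v') (DAT_cw c (w x c))) :=
      DAT_K1 (l := fun k => l (e k)) hP Fin.val_injective Fin.val_injective hv' (hwV x c)
        (hg'.mono (fun _ => Subset.rfl) hcl subset_union_left) (hwG x c) hZ' hp'
    have s2 : AtEq S S (dg G ∪ prt Z' (DAT_cw c (w x c)) (DAT_cw c' (w x c'))) := by
      have h1 := (ht x _ _).mp (congrFun hcc' x)
      exact h1.anti (union_subset_union_right _ (prt_subset _ _ _))
    have s3 : AtEq S S (dg G ∪ prt Z' (DAT_cw c' (w x c')) (DAT_cw c' v')) :=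
      DAT_K1 (l := fun k => l (e k)) hP Fin.val_injective Fin.val_injective (hwV x c') hv'
        (hwG x c') (hg'.mono (fun _ => Subset.rfl) hcl subset_union_right) hZ' hp'
    refine (DAT_comp (DAT_comp s1 s2) s3).anti (union_subset_union_right _ ?_)
    rintro _ ⟨(q | ⟨j, b⟩), hz, rfl⟩
    · exact ⟨Sum.inl q, hz, rfl⟩
    · obtain ⟨k, rfl⟩ := heZ j b hz
      exact ⟨Sum.inr ⟨k, b⟩, hz, rfl⟩
  · exact DAT_diag fun p hp' => hp ⟨p, hp'⟩

end HERN
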