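import Pool.Agent.HERN.St

/-!
# HERN [FIT]: finite blocks, each of uncountably many occurrences
-/

set_option autoImplicit false
set_option linter.unusedVariables false
set_option linter.unusedSectionVars false

namespace HERN

open Set Pool.Agent.Helper5.DU Pool.Agent.Helper6.Str Pool.Agent.Helper79.VC
  Pool.Agent.Helper97.LO Pool.Agent.Helper97.VC HER

section

variable {L : FirstOrder.Language.{0, 0}} {M : Type} {S : L.Structure M} {A A' : Set M}
  {B : M → Set M}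

/-- elements of a set which is a union of blocks -/
theorem FIT_mem (hB : BlkN S A B) (hu : ∀ x ∈ A', x ∉ A → B x ⊆ A') {z x : M} (hz : z ∈ A')
    (hzA : z ∉ A) (hxA : x ∉ A) (h : B z = B x) : x ∈ A' :=
  hu z hz hzA (by rw [h]; exact hB.self x hxA)

theorem FIT_blk (hB : BlkN S A B) (hA : A ⊆ A') (hc : A'.Countable)
    (hu : ∀ x ∈ A', x ∉ A → B x ⊆ A') : BlkN S A' B where
  ctbl := hc
  self := fun x hx => hB.self x fun h => hx (hA h)
  out := by
    intro x hx y hy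
    have hxA : x ∉ A := fun h => hx (hA h)
    have h1 := hB.out x hxA y hy
    exact ⟨fun h2 => hx (FIT_mem hB hu h2 h1.1 hxA h1.2), h1.2⟩
  cross := by
    intro p hp1 hp2 hp3
    have hp1' : ∀ a ∈ p, a.1 ∉ A ∧ a.2 ∉ A := fun a ha =>
      ⟨fun h => (hp1 a ha).1 (hA h), fun h => (hp1 a ha).2 (hA h)⟩
    have h1 := hB.cross (dg (A' \ A) ∪ p) (by
      rintro a (⟨x, hx, rfl⟩ | ha)
      · exact ⟨hx.2, hx.2⟩
      · exact hp1' a ha) (by
      rintro a (⟨x, hx, rfl⟩ | ha) b (⟨y, hy, rfl⟩ | hb)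
      · exact Iff.rfl
      · constructor
        · intro h
          exact absurd (FIT_mem hB hu hx.1 hx.2 (hp1' b hb).1 h) (hp1 b hb).1
        · intro h
          exact absurd (FIT_mem hB hu hx.1 hx.2 (hp1' b hb).2 h) (hp1 b hb).2
      · constructor
        · intro h
          exact absurd (FIT_mem hB hu hy.1 hy.2 (hp1' a ha).1 h.symm) (hp1 a ha).1
        · intro h
          exact absurd (FIT_mem hB hu hy.1 hy.2 (hp1' a ha).2 h.symm) (hp1 a ha).2
      · exact hp2 a ha b hb) (by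
      intro x hx
      by_cases hxA : x ∈ A'
      · refine atEq_diag S ?_
        rintro a (⟨y, hy, rfl⟩ | ⟨⟨y, hy, rfl⟩ | ha, hax⟩)
        · rfl
        · rfl
        · exact absurd (hu x hxA hx hax) (hp1 a ha).1
      · refine (hp3 x hxA).anti ?_
        rintro a (⟨y, hy, rfl⟩ | ⟨⟨y, hy, rfl⟩ | ha, hax⟩)
        · exact Or.inl ⟨y, hA hy, rfl⟩
        · exact Or.inl ⟨y, hy.1, rfl⟩
        · exact Or.inr ⟨ha, hax⟩)
    refine h1.anti ?_
    rintro a (⟨x, hx, rfl⟩ | ha)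
    · by_cases hxA : x ∈ A
      · exact Or.inl ⟨x, hxA, rfl⟩
      · exact Or.inr (Or.inl ⟨x, ⟨hx, hxA⟩, rfl⟩)
    · exact Or.inr (Or.inr ha)

theorem FIT_bin (hB : BlkN S A B) (hA : A ⊆ A') (hu : ∀ x ∈ A', x ∉ A → B x ⊆ A') {x y : M}
    (hx : x ∉ A') (hy : y ∉ A') (h : BIN S A B x y) : BIN S A' B x y := by
  obtain ⟨f, hf1, hf2, hf3⟩ := h
  refine ⟨f, hf1, hf2, ?_⟩
  have hxA : x ∉ A := fun h => hx (hA h)
  have hyA : y ∉ A := fun h => hy (hA h)
  have h1 := hB.cross (dg (A' \ A) ∪ {a | a.1 ∈ B x ∧ a.2 = f a.1}) (by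
    rintro a (⟨z, hz, rfl⟩ | ⟨ha1, ha2⟩)
    · exact ⟨hz.2, hz.2⟩
    · rw [ha2]
      exact ⟨(hB.out x hxA _ ha1).1, (hB.out y hyA _ (hf1.mapsTo ha1)).1⟩) (by
    have key : ∀ (z : M) (b : M × M), z ∈ A' \ A → (b.1 ∈ B x ∧ b.2 = f b.1) →
        (B z = B b.1 ↔ B z = B b.2) := by
      rintro z b hz ⟨hb1, hb2⟩
      rw [hb2, (hB.out x hxA _ hb1).2, (hB.out y hyA _ (hf1.mapsTo hb1)).2]
      constructor
      · intro h
        exact absurd (FIT_mem hB hu hz.1 hz.2 hxA h) hx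
      · intro h
        exact absurd (FIT_mem hB hu hz.1 hz.2 hyA h) hy
    rintro a (⟨z, hz, rfl⟩ | ha) b (⟨z', hz', rfl⟩ | hb)
    · exact Iff.rfl
    · exact key z b hz hb
    · rw [eq_comm, key z' a hz' ha, eq_comm]
    · rw [ha.2, hb.2, (hB.out x hxA _ ha.1).2, (hB.out x hxA _ hb.1).2,
        (hB.out y hyA _ (hf1.mapsTo ha.1)).2, (hB.out y hyA _ (hf1.mapsTo hb.1)).2]
      exact ⟨fun _ => rfl, fun _ => rfl⟩) (by
    intro x' hx'
    by_cases hxx : B x' = B x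
    · refine hf3.anti ?_
      rintro a (⟨z, hz, rfl⟩ | ⟨⟨z, hz, rfl⟩ | ha, hax⟩)
      · exact Or.inl ⟨z, hz, rfl⟩
      · exfalso
        rw [hxx] at hax
        exact hx (FIT_mem hB hu hz.1 hz.2 hxA (hB.out x hxA _ hax).2)
      · exact Or.inr ha
    · refine atEq_diag S ?_
      rintro a (⟨z, hz, rfl⟩ | ⟨⟨z, hz, rfl⟩ | ha, hax⟩)
      · rfl
      · rfl
      · exact absurd ((hB.out x' hx' _ hax).2.symm.trans (hB.out x hxA _ ha.1).2) hxx)
  refine h1.anti ?_
  rintro a (⟨x, hx, rfl⟩ | ha)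
  · by_cases hxA : x ∈ A
    · exact Or.inl ⟨x, hxA, rfl⟩
    · exact Or.inr (Or.inl ⟨x, ⟨hx, hxA⟩, rfl⟩)
  · exact Or.inr (Or.inr ha)

end

section

variable {L : FirstOrder.Language.{0, 0}} {M : Type} {S : L.Structure M} {F : Set M} {r : ℕ}
  {I : ℕ → Type} {U : ∀ b, I b → Set (Fin b → M)} {cl : Set M → Set M} {a0 A : Set M}

/-- finitely many types of tuples over the closed set `A` -/
theorem FIT_col (hr : 2 ≤ r) (hL : ∀ m, r < m → IsEmpty (L.Relations m))
    (hRep : Rep S F r U cl a0) (hC : Clos S F r U cl a0 A) (s : ℕ) :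
    ∃ (C : Type) (_ : Finite C) (t : (Fin s → M) → C), ∀ c c' : Fin s → M,
      Function.Injective c → Function.Injective c' → Off A c → Off A c' → t c = t c' →
      AtEq S S (dg A ∪ prs c c') := by
  classical
  have hfin := hRep.fin
  have hok : ∀ (b : Fin (r + 1)) (w : Fin b → M), ∃ i : Option (I b), 1 ≤ (b : ℕ) →
      Function.Injective w → Off A w → ∃ i', i = some i' ∧ Tp S F r cl (U b i') A w := by
    intro b w
    by_cases h : 1 ≤ (b : ℕ) ∧ Function.Injective w ∧ Off A w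
    · obtain ⟨i, hi, -⟩ := hC.ok b h.1 (Nat.lt_succ_iff.mp b.2) w h.2.1 h.2.2
      exact ⟨some i, fun _ _ _ => ⟨i, rfl, hi⟩⟩
    · exact ⟨none, fun h1 h2 h3 => absurd ⟨h1, h2, h3⟩ h⟩
  choose t ht using hok
  refine ⟨∀ b : Fin (r + 1), (Fin b → Fin s) → Option (I b), inferInstance,
    fun c b e => t b (c ∘ e), ?_⟩
  intro c c' hc hc' hA hA' htt
  have hTE : TE S F r (dg A ∪ prs c c') := by
    intro q hq hn
    -- the coordinates which occur in `q`
    let P : Set (Fin s) := {i | (c i, c' i) ∈ q}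
    have hPq : P.encard ≤ r := by
      refine le_trans ?_ hn
      have h1 : Function.Injective fun i : Fin s => (c i, c' i) := fun i j hij =>
        hc (congrArg Prod.fst hij)
      rw [← h1.encard_image]
      refine encard_le_encard ?_
      rintro _ ⟨i, hi, rfl⟩
      exact hi
    have hPf : Finite P := toFinite P
    have hcard : Nat.card P ≤ r := by
      have h3 : P.encard = (Nat.card P : ℕ∞) := by
        rw [Set.encard, ENat.card_eq_coe_natCard]
      rw [h3] at hPq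
      exact_mod_cast hPq
    by_cases hP0 : Nat.card P = 0
    · refine atEq_diag S ?_
      rintro a (⟨x, hx, rfl⟩ | ha)
      · rfl
      · rcases hq ha with ⟨x, hx, rfl⟩ | ⟨i, rfl⟩
        · rfl
        · exfalso
          have : IsEmpty P := (Finite.card_eq_zero_iff).mp hP0
          exact this.false ⟨i, ha⟩
    · let b : Fin (r + 1) := ⟨Nat.card P, Nat.lt_succ_of_le hcard⟩
      let e0 : P ≃ Fin (Nat.card P) := Finite.equivFin P
      let e : Fin b → Fin s := fun i => (e0.symm i : P)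
      have he : Function.Injective e := fun i j hij => e0.symm.injective (Subtype.ext hij)
      have hb : 1 ≤ (b : ℕ) := Nat.one_le_iff_ne_zero.mpr hP0
      obtain ⟨i, hi, hTp⟩ := ht b (c ∘ e) hb (hc.comp he) fun j => hA _
      obtain ⟨i', hi', hTp'⟩ := ht b (c' ∘ e) hb (hc'.comp he) fun j => hA' _
      have hii : i = i' := by
        have h4 : t b (c ∘ e) = t b (c' ∘ e) := congrFun (congrFun htt b) e
        rw [hi, hi'] at h4
        exact Option.some_injective _ h4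
      subst hii
      obtain ⟨w, hw, hwA⟩ := (hRep.gd b i).fam.exists_off (hRep.com.icl.ctbl A hC.ctbl)
      have h5 := hTp w hw hwA
      have h6 := hTp' w hw hwA
      have h7 : TE S F r (dg A ∪ prs (c ∘ e) w) := by
        refine h5.symm' ?_
        rintro a (⟨x, hx, rfl⟩ | ⟨j, rfl⟩)
        · exact Or.inl ⟨x, hx, rfl⟩
        · exact Or.inr ⟨j, rfl⟩
      have h8 : TE S F r (dg A ∪ prs (c ∘ e) (c' ∘ e)) := by
        refine h7.comp h6 ?_
        rintro a (⟨x, hx, rfl⟩ | ⟨j, rfl⟩)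
        · exact ⟨x, Or.inl ⟨x, hx, rfl⟩, Or.inl ⟨x, hx, rfl⟩⟩
        · exact ⟨w j, Or.inr ⟨j, rfl⟩, Or.inr ⟨j, rfl⟩⟩
      refine h8 q ?_ hn
      intro a ha
      rcases hq ha with h9 | ⟨j, rfl⟩
      · exact Or.inl h9
      · refine Or.inr ⟨e0 ⟨j, ha⟩, ?_⟩
        have h10 : e (e0 ⟨j, ha⟩) = j := congrArg Subtype.val (e0.symm_apply_apply ⟨j, ha⟩)
        show (c (e (e0 ⟨j, ha⟩)), c' (e (e0 ⟨j, ha⟩))) = (c j, c' j)
        rw [h10]
  exact (TE.atEq_of_arity hr hL hTE).anti subset_union_right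

end

theorem thm_FIT : St_FIT := by
  intro L M S F r I U cl a0 A B m hr hL hRep hC hB hBc hfin
  classical
  let A1 : Set M := A ∪ ⋃₀ {D : Set M | ∃ x ∉ A, D = B x ∧ (m : ℕ∞) < D.encard}
  have hA1 : A ⊆ A1 := subset_union_left
  have hA1c : A1.Countable := by
    refine hB.ctbl.union (hfin.countable.sUnion ?_)
    rintro D ⟨x, hx, rfl, -⟩
    exact hBc x hx
  have hA1u : ∀ x ∈ A1, x ∉ A → B x ⊆ A1 := by
    rintro x (hx | ⟨D, ⟨y, hy, rfl, hD⟩, hxD⟩) hxA
    · exact absurd hx hxA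
    · rw [(hB.out y hy x hxD).2]
      exact (subset_sUnion_of_mem (show B y ∈ {D : Set M | ∃ x ∉ A, D = B x ∧
        (m : ℕ∞) < D.encard} from ⟨y, hy, rfl, hD⟩)).trans subset_union_right
  have hsm : ∀ x ∉ A1, (B x).encard ≤ m := by
    intro x hx
    by_contra h
    push Not at h
    have hxA : x ∉ A := fun h => hx (hA1 h)
    exact hx (Or.inr ⟨B x, ⟨x, hxA, rfl, h⟩, hB.self x hxA⟩)
  -- labellings and colours
  have hcol : ∀ s : ℕ, ∃ (C : Type) (_ : Finite C) (t : (Fin s → M) → C),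
      ∀ c c' : Fin s → M, Function.Injective c → Function.Injective c' → Off A c → Off A c' →
        t c = t c' → AtEq S S (dg A ∪ prs c c') := fun s => FIT_col hr hL hRep hC s
  choose C hCf t ht using hcol
  have hlab : ∀ x : M, ∃ κ : Option (Σ s : Fin (m + 1), Fin s × C s), x ∉ A1 →
      ∃ (s : Fin (m + 1)) (k : Fin s) (c : Fin s → M), Function.Injective c ∧ range c = B x ∧
        c k = x ∧ κ = some ⟨s, k, t s c⟩ := by
    intro x
    by_cases hx : x ∈ A1
    · exact ⟨none, fun h => absurd hx h⟩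
    · have h1 : (B x).Finite := finite_of_encard_le_coe (hsm x hx)
      have : Finite (B x) := h1
      have h2 : Nat.card (B x) ≤ m := by
        have h3 : (B x).encard = (Nat.card (B x) : ℕ∞) := by
          rw [Set.encard, ENat.card_eq_coe_natCard]
        have h4 := hsm x hx
        rw [h3] at h4
        exact_mod_cast h4
      let s : Fin (m + 1) := ⟨Nat.card (B x), Nat.lt_succ_of_le h2⟩
      let e : B x ≃ Fin (Nat.card (B x)) := Finite.equivFin (B x)
      let c : Fin s → M := fun i => (e.symm i : B x)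
      have hxB : x ∈ B x := hB.self x fun h => hx (hA1 h)
      refine ⟨some ⟨s, e ⟨x, hxB⟩, t s c⟩, fun _ => ⟨s, e ⟨x, hxB⟩, c, ?_, ?_, ?_, rfl⟩⟩
      · intro i j hij
        exact e.symm.injective (Subtype.ext hij)
      · apply Subset.antisymm
        · rintro _ ⟨i, rfl⟩
          exact (e.symm i).2
        · intro y hy
          exact ⟨e ⟨y, hy⟩, congrArg Subtype.val (e.symm_apply_apply ⟨y, hy⟩)⟩
      · exact congrArg Subtype.val (e.symm_apply_apply ⟨x, hxB⟩)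
  choose κ hκ using hlab
  have hbin : ∀ x y, x ∉ A1 → y ∉ A1 → κ x = κ y → BIN S A B x y := by
    intro x y hx hy hxy
    have hxA : x ∉ A := fun h => hx (hA1 h)
    have hyA : y ∉ A := fun h => hy (hA1 h)
    obtain ⟨s, k, c, hc1, hc2, hc3, hc4⟩ := hκ x hx
    obtain ⟨s', k', c', hc1', hc2', hc3', hc4'⟩ := hκ y hy
    rw [hc4, hc4', Option.some_inj, Sigma.mk.injEq] at hxy
    obtain ⟨hs, h2⟩ := hxy
    subst hs
    rw [heq_eq_eq, Prod.mk.injEq] at h2
    obtain ⟨h2, h3⟩ := h2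
    subst h2
    have hoff : Off A c := fun i => (hB.out x hxA (c i) (hc2 ▸ ⟨i, rfl⟩)).1
    have hoff' : Off A c' := fun i => (hB.out y hyA (c' i) (hc2' ▸ ⟨i, rfl⟩)).1
    have h4 := ht s c c' hc1 hc1' hoff hoff' h3
    let f : M → M := fun z => if h : ∃ i, c i = z then c' h.choose else z
    have hf : ∀ i, f (c i) = c' i := by
      intro i
      have h5 : ∃ j, c j = c i := ⟨i, rfl⟩
      simp only [f, dif_pos h5]
      rw [hc1 h5.choose_spec]
    refine ⟨f, ⟨?_, ?_, ?_⟩, ?_, h4.anti ?_⟩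
    · intro z hz
      rw [← hc2] at hz
      obtain ⟨i, rfl⟩ := hz
      rw [hf, ← hc2']
      exact ⟨i, rfl⟩
    · intro z hz z' hz' hzz
      rw [← hc2] at hz hz'
      obtain ⟨i, rfl⟩ := hz
      obtain ⟨j, rfl⟩ := hz'
      rw [hf, hf] at hzz
      rw [hc1' hzz]
    · intro z hz
      rw [← hc2'] at hz
      obtain ⟨i, rfl⟩ := hz
      exact ⟨c i, hc2 ▸ ⟨i, rfl⟩, hf i⟩
    · rw [← hc3, hf, hc3']
    · rintro a (⟨z, hz, rfl⟩ | ⟨ha1, ha2⟩)
      · exact Or.inl ⟨z, hz, rfl⟩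
      · rw [← hc2] at ha1
        obtain ⟨i, hi⟩ := ha1
        refine Or.inr ⟨i, ?_⟩
        refine Prod.ext hi ?_
        rw [ha2, ← hi, hf]
  -- the points whose isomorphism type occurs countably often
  let Z : Set M := {x | x ∉ A1 ∧ {y | y ∉ A1 ∧ BIN S A B x y}.Countable}
  have hZ : Z.Countable := by
    have h1 : Z ⊆ ⋃ k, {x | x ∈ Z ∧ κ x = k} := fun x hx => mem_iUnion.mpr ⟨κ x, hx, rfl⟩
    refine (countable_iUnion fun k => ?_).mono h1
    by_cases h2 : ∃ x, x ∈ Z ∧ κ x = k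
    · obtain ⟨x, hx, hk⟩ := h2
      refine hx.2.mono ?_
      rintro y ⟨hy, hyk⟩
      exact ⟨hy.1, hbin x y hx.1 hy.1 (hk.trans hyk.symm)⟩
    · refine countable_empty.mono ?_
      intro x hx
      exact h2 ⟨x, hx⟩
  let A2 : Set M := A1 ∪ ⋃ x ∈ Z, B x
  have hA12 : A1 ⊆ A2 := subset_union_left
  have hA2 : A ⊆ A2 := hA1.trans hA12
  have hA2c : A2.Countable :=
    hA1c.union (hZ.biUnion fun x hx => hBc x fun h => hx.1 (hA1 h))
  have hA2u : ∀ x ∈ A2, x ∉ A → B x ⊆ A2 := by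
    rintro x (hx | hx) hxA
    · exact (hA1u x hx hxA).trans hA12
    · obtain ⟨y, hy, hxy⟩ := mem_iUnion₂.mp hx
      rw [(hB.out y (fun h => hy.1 (hA1 h)) x hxy).2]
      exact (subset_biUnion_of_mem (u := fun x => B x) hy).trans subset_union_right
  have hnA1 : ∀ x, x ∉ A2 → x ∉ A1 := fun x hx h => hx (hA12 h)
  have hnA : ∀ x, x ∉ A2 → x ∉ A := fun x hx h => hx (hA2 h)
  have hbin2 : ∀ x y, x ∉ A2 → y ∉ A2 → BIN S A B x y → BIN S A2 B x y := fun x y hx hy h =>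
    FIT_bin hB hA2 hA2u hx hy h
  have hpick : ∀ k, ∃ t : Set M, t.Countable ∧ (∀ x ∈ t, x ∉ A2) ∧
      ∀ x, x ∉ A2 → κ x = k → ∃ y ∈ t, κ y = k := by
    intro k
    by_cases h : ∃ x, x ∉ A2 ∧ κ x = k
    · obtain ⟨x, hx, hk⟩ := h
      refine ⟨{x}, countable_singleton x, ?_, fun y hy hyk => ⟨x, rfl, hk⟩⟩
      rintro y rfl
      exact hx
    · exact ⟨∅, countable_empty, fun x hx => absurd hx (notMem_empty x), fun x hx hk =>
        absurd ⟨x, hx, hk⟩ h⟩
  choose T hT1 hT2 hT3 using hpick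
  refine ⟨A2, B, ⋃ k, T k, FIT_blk hB hA2 hA2c hA2u, ?_, ?_, countable_iUnion hT1, ?_, ?_⟩
  · intro x hx
    exact finite_of_encard_le_coe (hsm x (hnA1 x hx))
  · intro x hx hcon
    have h1 : x ∉ Z := fun h => hx (Or.inr (mem_iUnion₂.mpr ⟨x, h, hB.self x (hnA x hx)⟩))
    refine h1 ⟨hnA1 x hx, ?_⟩
    refine (hA2c.union hcon).mono ?_
    rintro y ⟨hy1, hy2⟩
    by_cases hy : y ∈ A2
    · exact Or.inl hy
    · exact Or.inr ⟨hy, hbin2 x y hx hy hy2⟩
  · intro x hx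
    obtain ⟨k, hk⟩ := mem_iUnion.mp hx
    exact hT2 k x hk
  · intro x hx
    obtain ⟨y, hy, hyk⟩ := hT3 (κ x) x hx rfl
    have hy2 := hT2 _ y hy
    exact ⟨y, mem_iUnion.mpr ⟨_, hy⟩, hbin2 y x hy2 hx (hbin y x (hnA1 y hy2) (hnA1 x hx) hyk)⟩

end HERN
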