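import Pool.Agent.HERN.Defs

/-!
# HERN: basic lemmas on `TE`, families and generic sequences
-/

set_option autoImplicit false
set_option linter.unusedVariables false
set_option linter.unusedSectionVars false

namespace HERN

open Set Pool.Agent.Helper5.DU Pool.Agent.Helper6.Str Pool.Agent.Helper79.VC
  Pool.Agent.Helper97.LO Pool.Agent.Helper97.VC HER

variable {L : FirstOrder.Language.{0, 0}} {M N P : Type} {S : L.Structure M}
  {G : Set M} {n : ℕ} {p p' q r : Set (M × M)}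

/-! ## AtEq -/

theorem atEq_diag (S : L.Structure M) {p : Set (M × M)} (h : ∀ a ∈ p, a.1 = a.2) :
    AtEq S S p := by
  refine ⟨fun a ha b hb => by rw [h a ha, h b hb], fun n R v hv => ?_⟩
  have : (fun i => (v i).1) = fun i => (v i).2 := by
    funext i
    exact h _ (hv i)
  rw [this]

theorem AtEq.comp' {S : L.Structure M} {S' : L.Structure N} {S'' : L.Structure P}
    {Γ : Set (M × N)} {Δ : Set (N × P)} {r : Set (M × P)} (h1 : AtEq S S' Γ)
    (h2 : AtEq S' S'' Δ) (hr : ∀ a ∈ r, ∃ b, (a.1, b) ∈ Γ ∧ (b, a.2) ∈ Δ) : AtEq S S'' r := by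
  refine ⟨fun a ha b hb => ?_, fun n R v hv => ?_⟩
  · obtain ⟨x, hx1, hx2⟩ := hr a ha
    obtain ⟨y, hy1, hy2⟩ := hr b hb
    rw [h1.1 _ hx1 _ hy1]
    exact h2.1 _ hx2 _ hy2
  · choose b hb1 hb2 using fun i => hr _ (hv i)
    rw [h1.2 n R (fun i => ((v i).1, b i)) hb1]
    exact h2.2 n R (fun i => (b i, (v i).2)) hb2

theorem AtEq.symm' {S : L.Structure M} {S' : L.Structure N} {Γ : Set (M × N)}
    {r : Set (N × M)} (h : AtEq S S' Γ) (hr : ∀ a ∈ r, (a.2, a.1) ∈ Γ) : AtEq S' S r := by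
  refine ⟨fun a ha b hb => (h.1 _ (hr a ha) _ (hr b hb)).symm, fun n R v hv => ?_⟩
  exact (h.2 n R (fun i => (v i).swap) fun i => hr _ (hv i)).symm

/-! ## TE -/

theorem TE.anti (h : TE S G n p) (hq : q ⊆ p) : TE S G n q := fun r hr hn => h r (hr.trans hq) hn

theorem TE.le {m : ℕ} (h : TE S G n p) (hm : m ≤ n) : TE S G m p := fun r hr hn =>
  h r hr (hn.trans (by exact_mod_cast hm))

theorem TE.antiG {G' : Set M} (h : TE S G n p) (hG : G' ⊆ G) : TE S G' n p := fun r hr hn =>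
  (h r hr hn).anti (union_subset_union_left _ (image_mono hG))

theorem te_diag (S : L.Structure M) (G : Set M) (n : ℕ) (h : ∀ a ∈ p, a.1 = a.2) :
    TE S G n p := by
  intro r hr _
  refine atEq_diag S ?_
  rintro a (⟨x, -, rfl⟩ | ha)
  · rfl
  · exact h a (hr ha)

theorem TE.symm (h : TE S G n p) : TE S G n (Prod.swap ⁻¹' p) := by
  intro r hr hn
  have h1 := h (Prod.swap ⁻¹' r) (fun a ha => by simpa using hr ha) (by
    rw [← image_swap_eq_preimage_swap]
    exact (encard_image_le _ _).trans hn)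
  refine AtEq.symm' h1 ?_
  rintro a (⟨x, hx, rfl⟩ | ha)
  · exact Or.inl ⟨x, hx, rfl⟩
  · exact Or.inr ha

theorem TE.symm' (h : TE S G n p) (hr : ∀ a ∈ r, (a.2, a.1) ∈ p) : TE S G n r :=
  h.symm.anti fun a ha => hr a ha

/-- composition -/
theorem TE.comp (h : TE S G n p) (h' : TE S G n p')
    (hr : ∀ a ∈ r, ∃ b, (a.1, b) ∈ p ∧ (b, a.2) ∈ p') : TE S G n r := by
  intro s hs hn
  have hr' : ∀ a : M × M, ∃ b, a ∈ r → (a.1, b) ∈ p ∧ (b, a.2) ∈ p' := fun a => by
    by_cases ha : a ∈ r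
    · obtain ⟨b, hb⟩ := hr a ha
      exact ⟨b, fun _ => hb⟩
    · exact ⟨a.1, fun h => absurd h ha⟩
  choose f hf using hr'
  have hf1 : ∀ a ∈ r, (a.1, f a) ∈ p := fun a ha => (hf a ha).1
  have hf2 : ∀ a ∈ r, (f a, a.2) ∈ p' := fun a ha => (hf a ha).2
  have h1 := h ((fun a => (a.1, f a)) '' s) (by
    rintro _ ⟨a, ha, rfl⟩
    exact hf1 a (hs ha)) ((encard_image_le _ _).trans hn)
  have h2 := h' ((fun a => (f a, a.2)) '' s) (by
    rintro _ ⟨a, ha, rfl⟩
    exact hf2 a (hs ha)) ((encard_image_le _ _).trans hn)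
  refine AtEq.comp' h1 h2 ?_
  rintro a (⟨x, hx, rfl⟩ | ha)
  · exact ⟨x, Or.inl ⟨x, hx, rfl⟩, Or.inl ⟨x, hx, rfl⟩⟩
  · exact ⟨f a, Or.inr ⟨a, ha, rfl⟩, Or.inr ⟨a, ha, rfl⟩⟩

/-- small sets of pairs -/
theorem TE.atEq (h : TE S G n p) (hn : p.encard ≤ n) : AtEq S S (dg G ∪ p) := h p Subset.rfl hn

theorem TE.insertG {g : M} (h : TE S G (n + 1) (insert (g, g) p)) : TE S (insert g G) n p := by
  intro r hr hn
  have h1 := h (insert (g, g) r) (insert_subset_insert hr)
    ((encard_insert_le _ _).trans (by exact_mod_cast add_le_add_left hn 1))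
  refine h1.anti ?_
  rintro a (⟨x, hx | hx, rfl⟩ | ha)
  · exact Or.inr (Or.inl (by subst hx; rfl))
  · exact Or.inl ⟨x, hx, rfl⟩
  · exact Or.inr (Or.inr ha)

/-- sets of pairs which contain `(g, g)` -/
theorem TE.of_insertG {g : M} (h : TE S (insert g G) n p) (hq : q ⊆ p) (hn : q.encard ≤ n + 1)
    (hg : (g, g) ∈ q) : AtEq S S (dg G ∪ q) := by
  have h1 := h (q \ {(g, g)}) (sdiff_subset.trans hq) (by
    have h2 := encard_sdiff_singleton_add_one hg
    rw [← h2] at hn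
    exact (WithTop.add_le_add_iff_right (WithTop.one_ne_top)).mp hn)
  refine h1.anti ?_
  rintro a (⟨x, hx, rfl⟩ | ha)
  · exact Or.inl ⟨x, Or.inr hx, rfl⟩
  · by_cases h3 : a = (g, g)
    · subst h3
      exact Or.inl ⟨g, Or.inl rfl, rfl⟩
    · exact Or.inr ⟨ha, h3⟩

/-- the arities are bounded -/
theorem TE.atEq_of_arity {k : ℕ} (hk : 2 ≤ k) (hL : ∀ m, k < m → IsEmpty (L.Relations m))
    (h : TE S G k p) : AtEq S S (dg G ∪ p) := by
  refine ⟨fun a ha b hb => ?_, fun m R v hv => ?_⟩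
  · have h1 := h ({a, b} ∩ p) inter_subset_right (by
      refine (encard_le_encard inter_subset_left).trans ((encard_insert_le _ _).trans ?_)
      rw [encard_singleton]
      exact_mod_cast hk)
    refine h1.1 a ?_ b ?_
    · rcases ha with ha | ha
      · exact Or.inl ha
      · exact Or.inr ⟨Or.inl rfl, ha⟩
    · rcases hb with hb | hb
      · exact Or.inl hb
      · exact Or.inr ⟨Or.inr rfl, hb⟩
  · by_cases hm : k < m
    · exact (hL m hm).elim R
    · have h1 := h (range v ∩ p) inter_subset_right (by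
        refine (encard_le_encard inter_subset_left).trans ?_
        rw [← image_univ]
        refine (encard_image_le _ _).trans ?_
        rw [encard_univ, ENat.card_eq_coe_fintype_card, Fintype.card_fin]
        exact_mod_cast not_lt.mp hm)
      refine h1.2 m R v fun i => ?_
      rcases hv i with h2 | h2
      · exact Or.inl h2
      · exact Or.inr ⟨mem_range_self i, h2⟩

/-! ## Pairs -/

section prs

variable {β γ : Type}

theorem mem_prs {w : β → M} {w' : β → N} (i : β) : (w i, w' i) ∈ prs w w' := mem_range_self i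

theorem prt_univ (w : β → M) (w' : β → N) : prt univ w w' = prs w w' := image_univ

theorem prt_subset (P : Set β) (w : β → M) (w' : β → N) : prt P w w' ⊆ prs w w' :=
  image_subset_range _ _

theorem prt_mono {P Q : Set β} (h : P ⊆ Q) (w : β → M) (w' : β → N) : prt P w w' ⊆ prt Q w w' :=
  image_mono h

theorem prs_self (w : β → M) : prs w w = dg (range w) := by
  ext a
  constructor
  · rintro ⟨i, rfl⟩
    exact ⟨w i, mem_range_self i, rfl⟩
  · rintro ⟨_, ⟨i, rfl⟩, rfl⟩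
    exact ⟨i, rfl⟩

theorem prs_encard_le [Finite β] (w : β → M) (w' : β → N) : (prs w w').encard ≤ Nat.card β := by
  rw [prs, ← image_univ]
  refine (encard_image_le _ _).trans ?_
  rw [encard_univ, ENat.card_eq_coe_natCard]

theorem prs_comp_perm (e : Equiv.Perm β) (w : β → M) (w' : β → N) :
    prs (w ∘ e) (w' ∘ e) = prs w w' := by
  ext a
  constructor
  · rintro ⟨i, rfl⟩
    exact ⟨e i, rfl⟩
  · rintro ⟨i, rfl⟩
    exact ⟨e.symm i, by simp⟩

theorem dg_union (A B : Set M) : dg (A ∪ B) = dg A ∪ dg B := image_union _ _ _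

theorem dg_mono {A B : Set M} (h : A ⊆ B) : dg A ⊆ dg B := image_mono h

theorem mem_dg {A : Set M} {a : M × M} : a ∈ dg A ↔ a.1 ∈ A ∧ a.1 = a.2 := by
  constructor
  · rintro ⟨x, hx, rfl⟩
    exact ⟨hx, rfl⟩
  · rintro ⟨h1, h2⟩
    exact ⟨a.1, h1, Prod.ext rfl h2⟩

end prs

/-! ## Families -/

section fam

variable {β : Type} {V V' : Set (β → M)}

theorem Off.anti {E E' : Set M} {w : β → M} (h : Off E w) (hE : E' ⊆ E) : Off E' w :=
  fun i hi => h i (hE hi)

theorem off_union {E E' : Set M} {w : β → M} : Off (E ∪ E') w ↔ Off E w ∧ Off E' w :=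
  ⟨fun h => ⟨h.anti subset_union_left, h.anti subset_union_right⟩,
    fun h i hi => hi.elim (h.1 i) (h.2 i)⟩

theorem Fam.inj (h : Fam V) {w : β → M} (hw : w ∈ V) : Function.Injective w :=
  fun p q hpq => (h.dis w hw w hw p q hpq).2

theorem Fam.mono (h : Fam V) (hV : V' ⊆ V) (hu : ¬ V'.Countable) : Fam V' :=
  ⟨hu, fun w hw w' hw' => h.dis w (hV hw) w' (hV hw')⟩

/-- countably many members of a family meet a countable set -/
theorem Fam.ctbl (h : Fam V) {E : Set M} (hE : E.Countable) : {w ∈ V | ¬ Off E w}.Countable := by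
  classical
  by_cases hβ : Nonempty β
  · have h1 : ∀ w ∈ {w ∈ V | ¬ Off E w}, ∃ i, w i ∈ E := by
      rintro w ⟨-, hw⟩
      by_contra h2
      push Not at h2
      exact hw h2
    choose! i hi using h1
    refine (MapsTo.countable_of_injOn (f := fun w => w (i w)) (t := E) (fun w hw => hi w hw)
      ?_ hE)
    intro w hw w' hw' hww'
    exact (h.dis w hw.1 w' hw'.1 _ _ hww').1
  · have : IsEmpty β := not_nonempty_iff.mp hβ
    exact (Set.subsingleton_of_subsingleton).countable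

theorem Fam.unc_off (h : Fam V) {E : Set M} (hE : E.Countable) :
    ¬ {w ∈ V | Off E w}.Countable := by
  intro h1
  refine h.unc ((h1.union (h.ctbl hE)).mono ?_)
  intro w hw
  by_cases h2 : Off E w
  · exact Or.inl (show w ∈ {w ∈ V | Off E w} from ⟨hw, h2⟩)
  · exact Or.inr (show w ∈ {w ∈ V | ¬ Off E w} from ⟨hw, h2⟩)

theorem Fam.exists_off (h : Fam V) {E : Set M} (hE : E.Countable) : ∃ w ∈ V, Off E w := by
  by_contra h1
  push Not at h1
  exact h.unc ((h.ctbl hE).mono fun w hw => show w ∈ {w ∈ V | ¬ Off E w} from ⟨hw, h1 w hw⟩)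

theorem Fam.nonempty (h : Fam V) : Nonempty β := by
  by_contra h1
  have : IsEmpty β := not_nonempty_iff.mp h1
  exact h.unc (Set.subsingleton_of_subsingleton).countable

/-- the elements of a countable set of tuples -/
theorem countable_ranges [Finite β] {D : Set (β → M)} (h : D.Countable) :
    {x | ∃ w ∈ D, x ∈ range w}.Countable := by
  have : {x | ∃ w ∈ D, x ∈ range w} = ⋃ w ∈ D, range w := by
    ext x
    simp
  rw [this]
  exact h.biUnion fun w _ => countable_range w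

/-- an uncountable set with finitely many colours -/
theorem exists_uncountable_fiber {X C : Type} [Finite C] {Y : Set X} (hY : ¬ Y.Countable)
    (f : X → C) : ∃ c, ¬ {x ∈ Y | f x = c}.Countable := by
  by_contra h
  push Not at h
  refine hY ((countable_iUnion h).mono fun x hx => mem_iUnion.mpr ⟨f x, ?_⟩)
  exact ⟨hx, rfl⟩

theorem Gd.mono {V V' : Set (β → M)} (h : Gd S G n V) (hV : V' ⊆ V) (hu : ¬ V'.Countable) :
    Gd S G n V' :=
  ⟨h.fam.mono hV hu, fun A hA => by
    obtain ⟨E, hE, h1⟩ := h.eqv A hA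
    exact ⟨E, hE, fun w hw w' hw' => h1 w (hV hw) w' (hV hw')⟩⟩

theorem Gd.le {m : ℕ} (h : Gd S G n V) (hm : m ≤ n) : Gd S G m V :=
  ⟨h.fam, fun A hA => by
    obtain ⟨E, hE, h1⟩ := h.eqv A hA
    exact ⟨E, hE, fun w hw w' hw' h2 h3 => (h1 w hw w' hw' h2 h3).le hm⟩⟩

/-- good families over more constants -/
theorem Gd.insertG (h : Gd S G (n + 1) V) (g : M) : Gd S (insert g G) n V :=
  ⟨h.fam, fun A hA => by
    obtain ⟨E, hE, h1⟩ := h.eqv (insert g A) (hA.insert g)
    refine ⟨E, hE, fun w hw w' hw' h2 h3 => TE.insertG ((h1 w hw w' hw' h2 h3).anti ?_)⟩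
    rintro a (rfl | ⟨x, hx, rfl⟩ | ha)
    · exact Or.inl ⟨g, mem_insert _ _, rfl⟩
    · exact Or.inl ⟨x, mem_insert_of_mem _ hx, rfl⟩
    · exact Or.inr ha⟩

theorem Eqv.symm (h : Eqv S G n V V') : Eqv S G n V' V := fun A hA => by
  obtain ⟨E, hE, h1⟩ := h A hA
  refine ⟨E, hE, fun w hw w' hw' h2 h3 => (h1 w' hw' w hw h3 h2).symm' ?_⟩
  rintro a (⟨x, hx, rfl⟩ | ⟨i, rfl⟩)
  · exact Or.inl ⟨x, hx, rfl⟩
  · exact Or.inr ⟨i, rfl⟩

theorem Eqv.trans {V'' : Set (β → M)} (h : Eqv S G n V V') (hF : Fam V')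
    (h' : Eqv S G n V' V'') : Eqv S G n V V'' := fun A hA => by
  obtain ⟨E, hE, h1⟩ := h A hA
  obtain ⟨E', hE', h2⟩ := h' A hA
  obtain ⟨v, hv, hvE⟩ := hF.exists_off (hE.union hE')
  rw [off_union] at hvE
  refine ⟨E ∪ E', hE.union hE', fun w hw w' hw' h3 h4 => ?_⟩
  rw [off_union] at h3 h4
  refine (h1 w hw v hv h3.1 hvE.1).comp (h2 v hv w' hw' hvE.2 h4.2) ?_
  rintro a (⟨x, hx, rfl⟩ | ⟨i, rfl⟩)
  · exact ⟨x, Or.inl ⟨x, hx, rfl⟩, Or.inl ⟨x, hx, rfl⟩⟩
  · exact ⟨v i, Or.inr ⟨i, rfl⟩, Or.inr ⟨i, rfl⟩⟩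

end fam

/-! ## Closure operators -/

section cl

theorem IsCl.union {cl cl' : Set M → Set M} (h : IsCl cl) (h' : IsCl cl') :
    IsCl fun A => cl A ∪ cl' A :=
  ⟨fun A B hAB => union_subset_union (h.mono A B hAB) (h'.mono A B hAB),
    fun A => (h.sub A).trans subset_union_left, fun A hA => (h.ctbl A hA).union (h'.ctbl A hA)⟩

/-- the closure operator given by countable sets attached to the finite subsets -/
theorem isCl_of_fin (E : Set M → Set M) (hE : ∀ A, A.Finite → (E A).Countable) :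
    IsCl fun A => A ∪ ⋃ B ∈ {B : Set M | B ⊆ A ∧ B.Finite}, E B := by
  refine ⟨fun A B hAB => ?_, fun A => subset_union_left, fun A hA => hA.union ?_⟩
  · refine union_subset_union hAB ?_
    refine iUnion₂_mono' ?_
    rintro C ⟨hC, hC'⟩
    exact ⟨C, ⟨hC.trans hAB, hC'⟩, Subset.rfl⟩
  · refine Countable.biUnion ?_ fun B hB => hE B hB.2
    have h1 := countable_ofPred_finite_subset hA
    refine h1.mono fun B hB => ?_
    exact ⟨hB.2, hB.1⟩

variable {J : Type} {β : J → Type} {cl cl' : Set M → Set M} {A A' : Set M} {rk : J → ℕ}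
  {w : ∀ j, β j → M}

theorem Gen.mono (h : Gen cl' A' rk w) (hcl : ∀ B, cl B ⊆ cl' B) (hcl' : IsCl cl')
    (hA : A ⊆ A') : Gen cl A rk w := fun j =>
  (h j).anti ((hcl _).trans (hcl'.mono _ _ (union_subset_union_left _ hA)))

theorem Gen.off (h : Gen cl A rk w) (hcl : IsCl cl) (j : J) : Off (cl A) (w j) :=
  (h j).anti (hcl.mono _ _ subset_union_left)

/-- the tuples of a generic sequence are disjoint -/
theorem Gen.disj (h : Gen cl A rk w) (hcl : IsCl cl) (hrk : Function.Injective rk) {i j : J}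
    (hij : i ≠ j) (p : β i) (q : β j) : w i p ≠ w j q := by
  rcases lt_or_gt_of_ne (fun h1 => hij (hrk h1)) with h1 | h1
  · intro h2
    refine h j q (hcl.sub _ (Or.inr ⟨i, h1, ?_⟩))
    exact ⟨p, h2⟩
  · intro h2
    refine h i p (hcl.sub _ (Or.inr ⟨j, h1, ?_⟩))
    exact ⟨q, h2.symm⟩

end cl

end HERN
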