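import Pool.Agent.HERN.St
import Pool.Agent.HERN.TE

/-!
# HERN [FP]: most labels are trivial
-/

set_option autoImplicit false
set_option linter.unusedVariables false

namespace HERN

open Set Pool.Agent.Helper5.DU Pool.Agent.Helper6.Str Pool.Agent.Helper79.VC
  Pool.Agent.Helper97.LO Pool.Agent.Helper97.VC HER

section

variable {L : FirstOrder.Language.{0, 0}} {M : Type} {S : L.Structure M} {G : Set M} {k : ℕ}
  {β : Type} {V V' : Set (β → M)} {u u' u'' : Fin k → M}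

/-- two tuples have the same label on the family `V` -/
private def FP_SL (S : L.Structure M) (G : Set M) (V : Set (β → M)) (u u' : Fin k → M) : Prop :=
  ∃ E : Set M, E.Countable ∧ ∀ w ∈ V, Off E w → AtEq S S (dg G ∪ prs u u' ∪ dg (range w))

private theorem FP_SL.refl (S : L.Structure M) (G : Set M) (V : Set (β → M)) (u : Fin k → M) :
    FP_SL S G V u u := by
  refine ⟨∅, countable_empty, fun w _ _ => atEq_diag S ?_⟩
  rintro a ((⟨x, -, rfl⟩ | ⟨i, rfl⟩) | ⟨x, -, rfl⟩) <;> rfl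

private theorem FP_SL.symm (h : FP_SL S G V u u') : FP_SL S G V u' u := by
  obtain ⟨E, hE, h⟩ := h
  refine ⟨E, hE, fun w hw hwE => AtEq.symm' (h w hw hwE) ?_⟩
  rintro a ((⟨x, hx, rfl⟩ | ⟨i, rfl⟩) | ⟨x, hx, rfl⟩)
  · exact Or.inl (Or.inl ⟨x, hx, rfl⟩)
  · exact Or.inl (Or.inr ⟨i, rfl⟩)
  · exact Or.inr ⟨x, hx, rfl⟩

private theorem FP_SL.trans (h : FP_SL S G V u u') (h' : FP_SL S G V u' u'') :
    FP_SL S G V u u'' := by
  obtain ⟨E, hE, h⟩ := h
  obtain ⟨E', hE', h'⟩ := h'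
  refine ⟨E ∪ E', hE.union hE', fun w hw hwE => ?_⟩
  rw [off_union] at hwE
  refine AtEq.comp' (h w hw hwE.1) (h' w hw hwE.2) ?_
  rintro a ((⟨x, hx, rfl⟩ | ⟨i, rfl⟩) | ⟨x, hx, rfl⟩)
  · exact ⟨x, Or.inl (Or.inl ⟨x, hx, rfl⟩), Or.inl (Or.inl ⟨x, hx, rfl⟩)⟩
  · exact ⟨u' i, Or.inl (Or.inr ⟨i, rfl⟩), Or.inl (Or.inr ⟨i, rfl⟩)⟩
  · exact ⟨x, Or.inr ⟨x, hx, rfl⟩, Or.inr ⟨x, hx, rfl⟩⟩

private theorem FP_SL.mono (h : FP_SL S G V u u') (hV : V' ⊆ V) : FP_SL S G V' u u' := by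
  obtain ⟨E, hE, h⟩ := h
  exact ⟨E, hE, fun w hw => h w (hV hw)⟩

private theorem FP_Trv.mono {U : Set M} (h : Trv S G V U) (hV : V' ⊆ V) : Trv S G V' U := by
  obtain ⟨E, hE, h⟩ := h
  exact ⟨E, hE, fun w hw w' hw' => h w (hV hw) w' (hV hw')⟩

private theorem FP_SL.trv (h : FP_SL S G V u u') (ht : Trv S G V (range u')) :
    Trv S G V (range u) := by
  obtain ⟨E, hE, h⟩ := h
  obtain ⟨E', hE', ht⟩ := ht
  refine ⟨E ∪ E', hE.union hE', fun w hw w' hw' hwE hwE' => ?_⟩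
  rw [off_union] at hwE hwE'
  have h1 : AtEq S S (dg G ∪ prs u u' ∪ prs w w') := by
    refine AtEq.comp' (h w hw hwE.1) (ht w hw w' hw' hwE.2 hwE'.2) ?_
    rintro a ((⟨x, hx, rfl⟩ | ⟨i, rfl⟩) | ⟨i, rfl⟩)
    · exact ⟨x, Or.inl (Or.inl ⟨x, hx, rfl⟩), Or.inl (Or.inl ⟨x, hx, rfl⟩)⟩
    · exact ⟨u' i, Or.inl (Or.inr ⟨i, rfl⟩), Or.inl (Or.inr ⟨u' i, mem_range_self i, rfl⟩)⟩
    · exact ⟨w i, Or.inr ⟨w i, mem_range_self i, rfl⟩, Or.inr ⟨i, rfl⟩⟩
  have h2 : AtEq S S (dg G ∪ prs u' u ∪ dg (range w')) := by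
    refine AtEq.symm' (h w' hw' hwE'.1) ?_
    rintro a ((⟨x, hx, rfl⟩ | ⟨i, rfl⟩) | ⟨x, hx, rfl⟩)
    · exact Or.inl (Or.inl ⟨x, hx, rfl⟩)
    · exact Or.inl (Or.inr ⟨i, rfl⟩)
    · exact Or.inr ⟨x, hx, rfl⟩
  refine AtEq.comp' h1 h2 ?_
  rintro a ((⟨x, hx, rfl⟩ | ⟨x, ⟨i, rfl⟩, rfl⟩) | ⟨i, rfl⟩)
  · exact ⟨x, Or.inl (Or.inl ⟨x, hx, rfl⟩), Or.inl (Or.inl ⟨x, hx, rfl⟩)⟩
  · exact ⟨u' i, Or.inl (Or.inr ⟨i, rfl⟩), Or.inl (Or.inr ⟨i, rfl⟩)⟩
  · exact ⟨w' i, Or.inr ⟨i, rfl⟩, Or.inr ⟨w' i, mem_range_self i, rfl⟩⟩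

/-- labels -/
private def FP_S (S : L.Structure M) (G : Set M) (V : Set (β → M)) (k : ℕ) : Setoid (Fin k → M) where
  r := FP_SL S G V
  iseqv := ⟨FP_SL.refl S G V, FP_SL.symm, FP_SL.trans⟩

/-- finitely many labels of tuples containing `g` -/
private theorem FP_fin {g : M} (h : ∃ N : ℕ, ∀ u : Fin (N + 1) → Fin k → M, (∀ i, g ∈ range (u i)) →
    ∃ i j, i ≠ j ∧ ∃ E : Set M, E.Countable ∧ ∀ w ∈ V, Off E w →
      AtEq S S (dg G ∪ prs (u i) (u j) ∪ dg (range w))) :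
    ((fun u => (Quotient.mk (FP_S S G V k) u)) '' {u | g ∈ range u}).Finite := by
  obtain ⟨N, hN⟩ := h
  by_contra hinf
  rw [← Set.Infinite] at hinf
  obtain ⟨t, ht, hc⟩ := hinf.exists_subset_card_eq (N + 1)
  have e := (Finset.equivFinOfCardEq hc).symm
  have h1 : ∀ i : Fin (N + 1), ∃ u : Fin k → M, g ∈ range u ∧
      Quotient.mk (FP_S S G V k) u = (e i : Quotient (FP_S S G V k)) := by
    intro i
    obtain ⟨u, hu, h2⟩ := ht (e i).2
    exact ⟨u, hu, h2⟩
  choose u hu1 hu2 using h1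
  obtain ⟨i, j, hij, h2⟩ := hN u hu1
  have h3 : Quotient.mk (FP_S S G V k) (u i) = Quotient.mk (FP_S S G V k) (u j) :=
    Quotient.sound h2
  rw [hu2, hu2] at h3
  exact hij (e.injective (Subtype.ext h3))

/-- the labels of the tuples which meet `w` -/
private def FP_Q (S : L.Structure M) (G : Set M) (V : Set (β → M)) (k : ℕ) (w : β → M) :
    Set (Quotient (FP_S S G V k)) :=
  (fun u => (Quotient.mk (FP_S S G V k) u)) '' {u | (range u ∩ range w).Nonempty}

end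

theorem thm_FP (hL : St_LAB) : St_FP := by
  classical
  intro L M S F G n k β _ V hC hP hG hFG hV hk
  have hFT := hC.ft G hG hFG
  -- labels of tuples containing an element
  have hlab : ∀ V' ⊆ V, ¬ V'.Countable → ∀ g : M,
      ((fun u => (Quotient.mk (FP_S S G V' k) u)) '' {u | g ∈ range u}).Finite := by
    intro V' hV' hu g
    refine FP_fin (hL L M S G n k β V' g hFT ?_ hk)
    exact (hP.pt (insert g G) (hG.insert g) (hFG.trans (subset_insert _ _)) β V'
      (hV.fam.mono hV' hu)).2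
  have hQ : ∀ w : β → M, (FP_Q S G V k w).Finite := by
    intro w
    have h1 : FP_Q S G V k w ⊆ ⋃ p : β,
        (fun u => (Quotient.mk (FP_S S G V k) u)) '' {u | w p ∈ range u} := by
      rintro _ ⟨u, ⟨x, hx, ⟨p, rfl⟩⟩, rfl⟩
      exact mem_iUnion.2 ⟨p, u, hx, rfl⟩
    exact (finite_iUnion fun p => hlab V Subset.rfl hV.fam.unc (w p)).subset h1
  -- a uniform bound for the number of labels
  obtain ⟨N0, hN0⟩ : ∃ N0 : ℕ, ¬ {w ∈ V | (FP_Q S G V k w).ncard = N0}.Countable := by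
    by_contra h
    push Not at h
    refine hV.fam.unc ((countable_iUnion h).mono fun w hw => ?_)
    exact mem_iUnion.2 ⟨(FP_Q S G V k w).ncard, hw, rfl⟩
  set V0 := {w ∈ V | (FP_Q S G V k w).ncard = N0} with hV0
  have hV0V : V0 ⊆ V := fun w hw => hw.1
  -- the claim
  have hclaim : ∃ V' ⊆ V0, ¬ V'.Countable ∧ ∀ u : Fin k → M, ¬ Trv S G V' (range u) →
      {w ∈ V' | ∃ u' : Fin k → M, (range u' ∩ range w).Nonempty ∧ FP_SL S G V' u' u}.Countable := by
    by_contra hno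
    push Not at hno
    have hM : Nonempty M := by
      obtain ⟨w, -, -⟩ := hV.fam.exists_off countable_empty
      obtain ⟨p⟩ := hV.fam.nonempty
      exact ⟨w p⟩
    -- one step
    have hstep : ∀ V' : Set (β → M), V' ⊆ V0 → ¬ V'.Countable → ∃ (V'' : Set (β → M))
        (u : Fin k → M), V'' ⊆ V' ∧ ¬ V''.Countable ∧ ¬ Trv S G V' (range u) ∧
        Trv S G V'' (range u) ∧
        ∀ w ∈ V'', ∃ u' : Fin k → M, (range u' ∩ range w).Nonempty ∧ FP_SL S G V' u' u := by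
      intro V' hV' hu
      obtain ⟨u, hu1, hu2⟩ := hno V' hV' hu
      obtain ⟨C, _, t, ht⟩ := hFT (Fin k ⊕ β)
      obtain ⟨c, hc⟩ := exists_uncountable_fiber hu2 fun w => t (Sum.elim u w)
      refine ⟨_, u, ?_, hc, hu1, ?_, ?_⟩
      · exact fun w hw => hw.1.1
      · refine ⟨∅, countable_empty, fun w hw w' hw' _ _ => ?_⟩
        have h1 := (ht (Sum.elim u w) (Sum.elim u w')).1 (hw.2.trans hw'.2.symm)
        refine h1.anti ?_
        rintro a ((⟨x, hx, rfl⟩ | ⟨x, ⟨i, rfl⟩, rfl⟩) | ⟨i, rfl⟩)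
        · exact Or.inl ⟨x, hx, rfl⟩
        · exact Or.inr ⟨Sum.inl i, rfl⟩
        · exact Or.inr ⟨Sum.inr i, rfl⟩
      · exact fun w hw => hw.1.2
    choose! nxt tup hn1 hn2 hn3 hn4 hn5 using hstep
    set W : ℕ → Set (β → M) := fun i => nxt^[i] V0 with hW
    have hWs : ∀ i, W (i + 1) = nxt (W i) := fun i => Function.iterate_succ_apply' nxt i V0
    have hWi : ∀ i, W i ⊆ V0 ∧ ¬ (W i).Countable := by
      intro i
      induction i with
      | zero => exact ⟨Subset.rfl, hN0⟩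
      | succ i ih =>
        rw [hWs]
        exact ⟨(hn1 _ ih.1 ih.2).trans ih.1, hn2 _ ih.1 ih.2⟩
    have hWmono : ∀ i j, i ≤ j → W j ⊆ W i := by
      intro i j hij
      induction j, hij using Nat.le_induction with
      | base => exact Subset.rfl
      | succ j _ ih =>
        rw [hWs]
        exact (hn1 _ (hWi j).1 (hWi j).2).trans ih
    have hne : (W (N0 + 1)).Nonempty := by
      rw [nonempty_iff_ne_empty]
      intro h
      exact (hWi (N0 + 1)).2 (h ▸ countable_empty)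
    obtain ⟨w, hw⟩ := hne
    have hex : ∀ i : Fin (N0 + 1), ∃ u' : Fin k → M, (range u' ∩ range w).Nonempty ∧
        FP_SL S G (W i) u' (tup (W i)) := by
      intro i
      refine hn5 (W i) (hWi i).1 (hWi i).2 w ?_
      rw [← hWs]
      exact hWmono _ _ (by omega) hw
    choose v hv1 hv2 using hex
    have hinj : Function.Injective fun i : Fin (N0 + 1) => Quotient.mk (FP_S S G V k) (v i) := by
      have key : ∀ i j : Fin (N0 + 1), i < j → ¬ FP_SL S G V (v i) (v j) := by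
        intro i j hij h
        have hi := (hWi i)
        have hj := (hWi j)
        have h1 : Trv S G (W (i + 1)) (range (v i)) := by
          refine FP_SL.trv ((hv2 i).mono (hWmono _ _ (Nat.le_succ _))) ?_
          rw [hWs]
          exact hn4 _ hi.1 hi.2
        have h2 : Trv S G (W j) (range (v i)) := FP_Trv.mono h1 (hWmono _ _ hij)
        have h3 : Trv S G (W j) (range (v j)) :=
          FP_SL.trv ((h.mono (hj.1.trans hV0V)).symm) h2
        exact hn3 _ hj.1 hj.2 (FP_SL.trv (hv2 j).symm h3)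
      intro i j hij
      by_contra hne
      have h : FP_SL S G V (v i) (v j) := Quotient.exact hij
      rcases lt_or_gt_of_ne hne with h1 | h1
      · exact key i j h1 h
      · exact key j i h1 h.symm
    have hw0 := (hWi (N0 + 1)).1 hw
    have hsub : range (fun i : Fin (N0 + 1) => Quotient.mk (FP_S S G V k) (v i)) ⊆
        FP_Q S G V k w := by
      rintro _ ⟨i, rfl⟩
      exact ⟨v i, hv1 i, rfl⟩
    have hcard := ncard_le_ncard hsub (hQ w)
    rw [hw0.2, ← image_univ, ncard_image_of_injective _ hinj, ncard_univ, Nat.card_eq_fintype_card,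
      Fintype.card_fin] at hcard
    omega
  obtain ⟨V', hV'0, hV'u, hV'⟩ := hclaim
  have hV'V : V' ⊆ V := hV'0.trans hV0V
  have hfam : Fam V' := hV.fam.mono hV'V hV'u
  refine ⟨V', hV'V, hV'u, fun A hA => ?_⟩
  -- the exceptional set
  set T : M → Set (Quotient (FP_S S G V' k)) := fun g =>
    (fun u => (Quotient.mk (FP_S S G V' k) u)) '' {u | g ∈ range u} with hT
  set R : Quotient (FP_S S G V' k) → Set (β → M) := fun c =>
    if Trv S G V' (range c.out) then ∅ else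
      {w ∈ V' | ∃ u' : Fin k → M, (range u' ∩ range w).Nonempty ∧ FP_SL S G V' u' c.out} with hR
  have hRc : ∀ c, (R c).Countable := by
    intro c
    rw [hR]
    dsimp only
    split_ifs with h
    · exact countable_empty
    · exact hV' _ h
  refine ⟨{x | ∃ w ∈ ⋃ g ∈ A, ⋃ c ∈ T g, R c, x ∈ range w}, countable_ranges ?_, ?_⟩
  · exact hA.biUnion fun g _ => (hlab V' hV'V hV'u g).countable.biUnion fun c _ => hRc c
  intro w hw hwE U hU hUA hUw
  by_contra htrv
  obtain ⟨g, hgU, hgA⟩ := hUA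
  -- a tuple with range `U`
  have hUf : U.Finite := finite_of_encard_le_coe hU
  obtain ⟨u, hu⟩ : ∃ u : Fin k → M, range u = U := by
    have hne : Nonempty U := ⟨⟨g, hgU⟩⟩
    have : Fintype U := hUf.fintype
    have hcard : Fintype.card U ≤ k := by
      rw [← hUf.cast_ncard_eq] at hU
      rw [← Nat.card_eq_fintype_card]
      exact_mod_cast hU
    obtain ⟨f, hf⟩ : ∃ f : Fin k → U, Function.Surjective f := by
      have h1 : Nonempty (U ↪ Fin k) := Function.Embedding.nonempty_of_card_le (by simpa using hcard)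
      obtain ⟨e⟩ := h1
      exact ⟨Function.invFun e, Function.invFun_surjective e.injective⟩
    refine ⟨fun i => (f i : M), ?_⟩
    ext x
    constructor
    · rintro ⟨i, rfl⟩
      exact (f i).2
    · intro hx
      obtain ⟨i, hi⟩ := hf ⟨x, hx⟩
      exact ⟨i, congrArg Subtype.val hi⟩
  subst hu
  set c := Quotient.mk (FP_S S G V' k) u with hc
  have hcu : FP_SL S G V' c.out u := Quotient.exact (Quotient.out_eq c)
  have hcn : ¬ Trv S G V' (range c.out) := fun h => htrv (FP_SL.trv hcu.symm h)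
  have hwR : w ∈ R c := by
    rw [hR]
    dsimp only
    rw [if_neg hcn]
    exact ⟨hw, u, hUw, hcu.symm⟩
  obtain ⟨p⟩ := hfam.nonempty
  refine hwE p ⟨w, ?_, mem_range_self p⟩
  exact mem_biUnion hgA (mem_biUnion (show c ∈ T g from ⟨u, hgU, rfl⟩) hwR)

end HERN
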