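import Pool.Agent.HERN.St

/-!
# HERN: the parts of a tuple in the different components are free
-/

set_option autoImplicit false
set_option linter.unusedVariables false
set_option linter.unusedSectionVars false

namespace HERN

open Set Pool.Agent.Helper5.DU Pool.Agent.Helper6.Str Pool.Agent.Helper79.VC
  Pool.Agent.Helper97.LO Pool.Agent.Helper97.VC HER

section

variable {L : FirstOrder.Language.{0, 0}} {M : Type} {S : L.Structure M} {F : Set M} {r : ℕ}
  {I : ℕ → Type} {U : ∀ b, I b → Set (Fin b → M)} {cl : Set M → Set M} {a0 A : Set M}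

private theorem FRC_sub {β : Type} {ρ : β → ℕ} {w : β → M} (P : Set β)
    (h : Chn S F r U cl a0 A ρ w) :
    Chn S F r U cl a0 A (fun p : P => ρ p) (fun p : P => w p) := by
  obtain ⟨B, h0, h1, h2, h3⟩ := h
  exact ⟨B, h0, h1, h2, fun p => h3 p⟩

/-- relabelling -/
private theorem FRC_rel {β γ : Type} (e : γ ≃ β) {w : β → M}
    (h : Dcp S F r U cl a0 A (w ∘ e)) : Dcp S F r U cl a0 A w := by
  obtain ⟨κ, ⟨p, q, hpq⟩, ρ, w', h1, h2, ⟨B, b0, b1, b2, b3⟩, h4⟩ := h
  refine ⟨κ ∘ e.symm, ⟨e p, e q, ?_⟩, ρ ∘ e.symm, w' ∘ e.symm, fun x y => h1 _ _,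
    h2.comp e.symm.injective, ⟨B, b0, b1, b2, fun x => b3 _⟩, h4.anti ?_⟩
  · show κ (e.symm (e p)) ≠ κ (e.symm (e q))
    rw [e.symm_apply_apply, e.symm_apply_apply]
    exact hpq
  · rintro a (ha | ⟨i, rfl⟩)
    · exact Or.inl ha
    · refine Or.inr ⟨e.symm i, ?_⟩
      show (w (e (e.symm i)), w' (e.symm i)) = (w i, w' (e.symm i))
      rw [e.apply_symm_apply]

/-- composition over `A`, parts -/
private theorem FRC_comp {β : Type} {n : ℕ} {G : Set M} {P : Set β} {w v u : β → M}
    (h : TE S G n (dg A ∪ prt P v w)) (h' : TE S G n (dg A ∪ prt P v u)) :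
    TE S G n (dg A ∪ prt P w u) := by
  refine (h.symm' (r := dg A ∪ prt P w v) ?_).comp h' ?_
  · rintro a (⟨x, hx, rfl⟩ | ⟨i, hi, rfl⟩)
    · exact Or.inl ⟨x, hx, rfl⟩
    · exact Or.inr ⟨i, hi, rfl⟩
  · rintro a (⟨x, hx, rfl⟩ | ⟨i, hi, rfl⟩)
    · exact ⟨x, Or.inl ⟨x, hx, rfl⟩, Or.inl ⟨x, hx, rfl⟩⟩
    · exact ⟨v i, Or.inr ⟨i, hi, rfl⟩, Or.inr ⟨i, hi, rfl⟩⟩

private theorem FRC_part {β : Type} {n : ℕ} {G : Set M} (P : Set β) {w v : β → M}
    (h : TE S G n (dg A ∪ prs w v)) : TE S G n (dg A ∪ prt P w v) :=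
  h.anti (union_subset_union_right _ (prt_subset P w v))

private theorem FRC_trans {β : Type} {n : ℕ} {G : Set M} {w v u : β → M}
    (h : TE S G n (dg A ∪ prs w v)) (h' : TE S G n (dg A ∪ prs v u)) :
    TE S G n (dg A ∪ prs w u) := by
  refine h.comp h' ?_
  rintro a (⟨x, hx, rfl⟩ | ⟨i, rfl⟩)
  · exact ⟨x, Or.inl ⟨x, hx, rfl⟩, Or.inl ⟨x, hx, rfl⟩⟩
  · exact ⟨v i, Or.inr ⟨i, rfl⟩, Or.inr ⟨i, rfl⟩⟩

private theorem FRC_lex {K a b c d : ℕ} (hb : b ≤ K) (hd : d ≤ K)
    (h : a * (K + 1) + b ≤ c * (K + 1) + d) : a ≤ c := by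
  by_contra hlt
  push Not at hlt
  have h1 : (c + 1) * (K + 1) ≤ a * (K + 1) := Nat.mul_le_mul_right _ hlt
  have h2 : (c + 1) * (K + 1) = c * (K + 1) + (K + 1) := by ring
  omega

private theorem FRC_lexeq {K a b c d : ℕ} (hb : b ≤ K) (hd : d ≤ K) :
    a * (K + 1) + b = c * (K + 1) + d ↔ a = c ∧ b = d := by
  constructor
  · intro h
    have h1 := FRC_lex hb hd h.le
    have h2 := FRC_lex hd hb h.ge
    have h3 : a = c := le_antisymm h1 h2
    subst h3
    exact ⟨rfl, by omega⟩
  · rintro ⟨rfl, rfl⟩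
    rfl

private theorem FRC_bd {β : Type} [Finite β] (f : β → ℕ) : ∃ K, ∀ p, f p ≤ K := by
  obtain ⟨K, hK⟩ := (Set.finite_range f).bddAbove
  exact ⟨K, fun p => hK ⟨p, rfl⟩⟩

end

theorem thm_FRC (hH : St_CH) (hE : St_CHE) (hG : St_CHG) : St_FRC := by
  intro L M S F r I U cl a0 A β _ w κ hRep hCl hA hcard hw hoff hκ
  -- strong induction on the number of elements
  suffices H : ∀ (m : ℕ) (β : Type) [Finite β] (w : β → M) (κ : β → ℕ), Nat.card β = m →
      Nat.card β ≤ r → Function.Injective w → Off A w →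
      (∀ p q, κ p = κ q ↔ Relation.ReflTransGen (Lnk S F r U cl a0 A) (w p) (w q)) →
      Fre S F r U cl a0 A κ w from H _ β w κ rfl hcard hw hoff hκ
  intro m
  induction m using Nat.strong_induction_on with
  | _ m ih =>
  intro β _ w κ hm hcard hw hoff hκ
  by_cases hconst : ∀ p q, κ p = κ q
  · -- one part
    obtain ⟨B, hB1, hB2⟩ := hCl (A ∪ range w) (hA.ctbl.union (countable_range w))
    refine ⟨fun _ => 0, w, fun p q => ⟨fun _ => hconst p q, fun _ => rfl⟩, hw,
      ⟨fun k => if k = 0 then A else B, ?_, ?_, ?_, ?_⟩, ?_⟩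
    · simp
    · intro k
      by_cases hk : k = 0
      · simp only [hk, if_true, zero_add, one_ne_zero, if_false]
        exact subset_union_left.trans hB1
      · simp only [hk, if_false, Nat.succ_ne_zero]
        exact Subset.rfl
    · intro k
      by_cases hk : k = 0
      · simpa only [hk, if_true] using hA
      · simpa only [hk, if_false] using hB2
    · intro p
      simp only [if_true, zero_add, one_ne_zero, if_false]
      exact ⟨hoff p, hB1 (Or.inr ⟨p, rfl⟩)⟩
    · refine te_diag S F r ?_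
      rintro a (⟨x, -, rfl⟩ | ⟨i, rfl⟩)
      · rfl
      · rfl
  · -- the tuple is decomposable
    have hD : Dcp S F r U cl a0 A w := by
      by_contra hD
      apply hconst
      intro p q
      rw [hκ]
      apply Relation.ReflTransGen.single
      let e : Fin (Nat.card β) ≃ β := (Finite.equivFin β).symm
      refine ⟨Nat.card β, w ∘ e, hcard, hw.comp e.injective, fun i => hoff _,
        fun h => hD (FRC_rel e h), ⟨e.symm p, ?_⟩, ⟨e.symm q, ?_⟩⟩
      · show w (e (e.symm p)) = w p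
        rw [e.apply_symm_apply]
      · show w (e (e.symm q)) = w q
        rw [e.apply_symm_apply]
    obtain ⟨κ', ⟨p0, q0, hpq0⟩, ρ', w', hρ', hw', hchn', hte'⟩ := hD
    obtain ⟨K, hK⟩ := FRC_bd κ
    obtain ⟨K', hK'⟩ := FRC_bd ρ'
    -- the finer chain, levels ordered by `ρ'` first
    obtain ⟨w2, hw2, hchn2, hte2⟩ := hE L M S F r I U cl a0 A β w
      (fun p => ρ' p * (K + 1) + κ p) hRep hCl hA hcard hw hoff
    -- the finer chain, levels ordered by `κ` first
    obtain ⟨w3, hw3, hchn3, hte3⟩ := hE L M S F r I U cl a0 A β w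
      (fun p => κ p * (K' + 1) + ρ' p) hRep hCl hA hcard hw hoff
    have hset2 : ∀ p, {q | (fun p => ρ' p * (K + 1) + κ p) q = (fun p => ρ' p * (K + 1) + κ p) p} =
        {q | ρ' q = ρ' p ∧ κ q = κ p} := by
      intro p
      ext q
      exact FRC_lexeq (hK q) (hK p)
    have hset3 : ∀ p, {q | (fun p => κ p * (K' + 1) + ρ' p) q =
        (fun p => κ p * (K' + 1) + ρ' p) p} = {q | ρ' q = ρ' p ∧ κ q = κ p} := by
      intro p
      ext q
      exact (FRC_lexeq (hK' q) (hK' p)).trans and_comm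
    -- the parts of the coarse chain
    have hpart : ∀ p, TE S F r (dg A ∪ prt {q | ρ' q = ρ' p} w w2) := by
      intro p
      let P : Set β := {q | ρ' q = ρ' p}
      have hlt : Nat.card P < m := by
        rw [← hm]
        by_cases h1 : ρ' p0 = ρ' p
        · have h2 : ¬ (q0 ∈ P) := fun h2 => hpq0 ((hρ' _ _).1 (h1.trans (show ρ' q0 = ρ' p from h2).symm))
          exact Finite.card_subtype_lt h2
        · have h2 : ¬ (p0 ∈ P) := h1
          exact Finite.card_subtype_lt h2
      obtain ⟨ρP, wP, hρP, hwP, hchnP, hteP⟩ := ih (Nat.card P) hlt P (fun q => w q)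
        (fun q => κ q) rfl (by omega) (fun x y h => Subtype.ext (hw h)) (fun i => hoff _)
        (fun p q => hκ p q)
      have h1 : TE S F r (dg A ∪ prs wP (fun q : P => w2 q)) := by
        refine hH L M S F r I U cl a0 A P wP (fun q : P => w2 q) ρP
          (fun q : P => ρ' q * (K + 1) + κ q) hRep (by omega) hwP
          (fun x y h => Subtype.ext (hw2 h)) hchnP (FRC_sub P hchn2) ?_ ?_
        · intro x y
          rw [hρP, FRC_lexeq (hK _) (hK _)]
          have hx : ρ' x = ρ' p := x.2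
          have hy : ρ' y = ρ' p := y.2
          rw [hx, hy]
          exact ⟨fun h => ⟨rfl, h⟩, fun h => h.2⟩
        · intro x
          have h2 := hte2 x
          rw [hset2] at h2
          have h3 : TE S F r (dg A ∪ prt {q | ρP q = ρP x} (fun q : P => w q) wP) :=
            FRC_part _ hteP
          have h4 : TE S F r (dg A ∪ prt {q | ρP q = ρP x} (fun q : P => w q)
              (fun q : P => w2 q)) := by
            refine h2.anti (union_subset_union_right _ ?_)
            rintro _ ⟨q, hq, rfl⟩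
            refine ⟨q, ⟨?_, (hρP _ _).1 hq⟩, rfl⟩
            exact (show ρ' q = ρ' p from q.2).trans (show ρ' x = ρ' p from x.2).symm
          exact FRC_comp h3 h4
      refine (FRC_trans hteP h1).anti (union_subset_union_right _ ?_)
      rintro _ ⟨q, hq, rfl⟩
      exact ⟨⟨q, hq⟩, rfl⟩
    -- `w2` has the type of `w`
    have h2 : TE S F r (dg A ∪ prs w w2) := by
      refine FRC_trans hte' ?_
      refine hH L M S F r I U cl a0 A β w' w2 ρ' ρ' hRep hcard hw' hw2 hchn'
        (hG L M S F r I U cl a0 A β w2 _ ρ' hchn2 fun p q h => FRC_lex (hK p) (hK q) h)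
        (fun p q => Iff.rfl) fun p => ?_
      exact FRC_comp (FRC_part _ hte') (hpart p)
    -- `w3` has the type of `w`
    have h3 : TE S F r (dg A ∪ prs w w3) := by
      refine FRC_trans h2 ?_
      refine hH L M S F r I U cl a0 A β w2 w3 _ _ hRep hcard hw2 hw3 hchn2 hchn3 ?_ fun p => ?_
      · intro p q
        have e1 := FRC_lexeq (a := ρ' p) (c := ρ' q) (hK p) (hK q)
        have e2 := FRC_lexeq (a := κ p) (c := κ q) (hK' p) (hK' q)
        exact e1.trans (and_comm.trans e2.symm)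
      · have h4 := hte3 p
        rw [hset3, ← hset2] at h4
        exact FRC_comp (hte2 p) h4
    exact ⟨κ, w3, fun p q => Iff.rfl, hw3,
      hG L M S F r I U cl a0 A β w3 _ κ hchn3 fun p q h => FRC_lex (hK' p) (hK' q) h, h3⟩

end HERN
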