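import Pool.Agent.HERN.St

/-!
# HERN, module FTN: finitely many types of tuples

If there were infinitely many types of `β`-tuples over `F`, then by Ramsey's theorem there would be
tuples `x (φ 0), x (φ 1), ...` of different types such that the type of `x (φ k)` is not realised by
the elements of `F` and of the tuples `x (φ j)`, `j ≠ k` (the colour of a set of `d + 1` indices is
the set of the patterns which realise the type of one of the members). So the set
`F ∪ ⋃_{j ∈ J} range (x (φ j))` decodes the set `J`.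
-/

set_option autoImplicit false

namespace HERN

open Set Pool.Agent.Helper5.DU Pool.Agent.Helper6.Str Pool.Agent.Helper79.VC
  Pool.Agent.Helper97.LO Pool.Agent.Helper97.VC HER

section FTN

variable {L : FirstOrder.Language.{0, 0}} {M β : Type} {S : L.Structure M} {F : Set M}

private theorem FTN_symm {v v' : β → M} (h : AtEq S S (dg F ∪ prs v v')) :
    AtEq S S (dg F ∪ prs v' v) := by
  refine AtEq.symm' h ?_
  rintro a (⟨x, hx, rfl⟩ | ⟨i, rfl⟩)
  · exact Or.inl ⟨x, hx, rfl⟩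
  · exact Or.inr ⟨i, rfl⟩

private theorem FTN_trans {v v' v'' : β → M} (h : AtEq S S (dg F ∪ prs v v'))
    (h' : AtEq S S (dg F ∪ prs v' v'')) : AtEq S S (dg F ∪ prs v v'') := by
  refine AtEq.comp' h h' ?_
  rintro a (⟨x, hx, rfl⟩ | ⟨i, rfl⟩)
  · exact ⟨x, Or.inl ⟨x, hx, rfl⟩, Or.inl ⟨x, hx, rfl⟩⟩
  · exact ⟨v' i, Or.inr ⟨i, rfl⟩, Or.inr ⟨i, rfl⟩⟩

private theorem FTN_refl (v : β → M) : AtEq S S (dg F ∪ prs v v) := by
  refine atEq_diag S ?_
  rintro a (⟨x, hx, rfl⟩ | ⟨i, rfl⟩)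
  · rfl
  · rfl

/-- moves -/
private theorem FTN_moves [Finite β] {X Y : Set M}
    (h : BFR S S X Y (Nat.card β : Ordinal.{0}) (dg F)) (v : β → M) (hv : ∀ i, v i ∈ X) :
    ∃ v' : β → M, (∀ i, v' i ∈ Y) ∧ AtEq S S (dg F ∪ prs v v') := by
  have e : β ≃ Fin (Nat.card β) := Finite.equivFin β
  obtain ⟨y, hy, h1⟩ := BFR.forth_many (γ := 0) (Nat.card β) (by rwa [zero_add])
    (v ∘ e.symm) (fun i => hv _)
  refine ⟨y ∘ e, fun i => hy _, AtEq.anti ?_ h1.atEq⟩
  rintro a (ha | ⟨i, rfl⟩)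
  · exact Or.inl ha
  · refine Or.inr ⟨e i, ?_⟩
    simp

/-- Ramsey: the type of `x (φ k)` is not realised by the other tuples `x (φ j)` and `F` -/
private theorem FTN_ramsey (hR : St_RAMN) [Finite β] (hF : F.Finite) (x : ℕ → β → M)
    (hx : ∀ i j, AtEq S S (dg F ∪ prs (x i) (x j)) → i = j) :
    ∃ φ : ℕ → ℕ, StrictMono φ ∧ ∀ (k : ℕ) (J : Set ℕ) (v : β → M), k ∉ J →
      (∀ i, v i ∈ F ∨ ∃ j ∈ J, ∃ q, v i = x (φ j) q) →
      ¬ AtEq S S (dg F ∪ prs v (x (φ k))) := by
  classical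
  have _ := hF.to_subtype
  let d := Nat.card β
  let tup : (Fin (d + 1) → ℕ) → (β → F ⊕ (Fin (d + 1) × β)) → β → M :=
    fun e π i => Sum.elim (fun g : F => (g : M)) (fun a => x (e a.1) a.2) (π i)
  obtain ⟨φ, κ, hφ, hκ⟩ := hR (Set (Fin (d + 1) × (β → F ⊕ (Fin (d + 1) × β)))) (d + 1)
    (fun e => {a | AtEq S S (dg F ∪ prs (tup e a.2) (x (e a.1)))})
  have key : ∀ a ∈ κ, ∃ i q, a.2 i = Sum.inr (a.1, q) := by
    intro a ha
    by_contra hcon
    push Not at hcon
    let e₁ : Fin (d + 1) → ℕ := fun j => 2 * (j : ℕ)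
    let e₂ : Fin (d + 1) → ℕ := fun j => if j = a.1 then 2 * (j : ℕ) + 1 else 2 * (j : ℕ)
    have he₁ : StrictMono e₁ := by
      intro i j hij
      have : (i : ℕ) < j := hij
      show 2 * (i : ℕ) < 2 * (j : ℕ)
      omega
    have he₂ : StrictMono e₂ := by
      intro i j hij
      have : (i : ℕ) < j := hij
      show (if i = a.1 then 2 * (i : ℕ) + 1 else 2 * (i : ℕ)) <
        (if j = a.1 then 2 * (j : ℕ) + 1 else 2 * (j : ℕ))
      split_ifs <;> omega
    have h1 : AtEq S S (dg F ∪ prs (tup (φ ∘ e₁) a.2) (x (φ (e₁ a.1)))) := by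
      have h2 := hκ e₁ he₁
      rw [← h2] at ha
      exact ha
    have h2 : AtEq S S (dg F ∪ prs (tup (φ ∘ e₂) a.2) (x (φ (e₂ a.1)))) := by
      have h2 := hκ e₂ he₂
      rw [← h2] at ha
      exact ha
    have h3 : tup (φ ∘ e₁) a.2 = tup (φ ∘ e₂) a.2 := by
      funext i
      have h4 := hcon i
      show Sum.elim _ _ (a.2 i) = Sum.elim _ _ (a.2 i)
      rcases h5 : a.2 i with g | ⟨b, q⟩
      · rfl
      · have h6 : b ≠ a.1 := by
          rintro rfl
          exact h4 q h5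
        show x (φ (e₁ b)) q = x (φ (e₂ b)) q
        have h7 : e₂ b = e₁ b := if_neg h6
        rw [h7]
    rw [h3] at h1
    have h8 := hφ.injective (hx _ _ (FTN_trans (FTN_symm h1) h2))
    have h9 : e₂ a.1 = 2 * (a.1 : ℕ) + 1 := if_pos rfl
    have h10 : e₁ a.1 = 2 * (a.1 : ℕ) := rfl
    omega
  refine ⟨φ, hφ, fun k J v hk hv hcon => ?_⟩
  -- a pattern
  have h1 : ∀ i, ∃ ρ : F ⊕ (ℕ × β), v i = Sum.elim (fun g : F => (g : M))
      (fun a => x (φ a.1) a.2) ρ ∧ ∀ a, ρ = Sum.inr a → a.1 ∈ J := by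
    intro i
    rcases hv i with h | ⟨j, hj, q, h⟩
    · exact ⟨Sum.inl ⟨v i, h⟩, rfl, fun a ha => by cases ha⟩
    · exact ⟨Sum.inr (j, q), h, fun a ha => by cases ha; exact hj⟩
  choose ρ hρ hρJ using h1
  let _ : Fintype β := Fintype.ofFinite β
  let J₀ : Finset ℕ := Finset.univ.image fun i => Sum.elim (fun _ => k) (fun a => a.1) (ρ i)
  have hJ₀ : (insert k J₀).card ≤ d + 1 := by
    refine (Finset.card_insert_le _ _).trans (Nat.add_le_add_right ?_ 1)
    refine Finset.card_image_le.trans ?_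
    rw [Finset.card_univ, ← Nat.card_eq_fintype_card]
  obtain ⟨u, hu, hcard⟩ := Infinite.exists_superset_card_eq (insert k J₀) (d + 1) hJ₀
  let e := u.orderEmbOfFin hcard
  have he : ∀ m ∈ u, ∃ b, e b = m := by
    intro m hm
    have h2 := Finset.range_orderEmbOfFin u hcard
    have h3 : m ∈ Set.range (u.orderEmbOfFin hcard) := by
      rw [h2]
      exact hm
    exact h3
  obtain ⟨i₀, hi₀⟩ := he k (hu (Finset.mem_insert_self _ _))
  have h2 : ∀ i, ∃ b, e b = Sum.elim (fun _ => k) (fun a => a.1) (ρ i) := fun i =>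
    he _ (hu (Finset.mem_insert_of_mem (Finset.mem_image_of_mem _ (Finset.mem_univ i))))
  choose b hb using h2
  let π : β → F ⊕ (Fin (d + 1) × β) := fun i => Sum.map id (fun a => (b i, a.2)) (ρ i)
  have h3 : tup (φ ∘ e) π = v := by
    funext i
    rw [hρ i]
    show Sum.elim _ _ (Sum.map id (fun a => (b i, a.2)) (ρ i)) = _
    rcases h5 : ρ i with g | a
    · rfl
    · show x (φ (e (b i))) a.2 = x (φ a.1) a.2
      rw [hb i, h5]
      rfl
  have h4 : (i₀, π) ∈ κ := by
    rw [← hκ e e.strictMono]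
    show AtEq S S (dg F ∪ prs (tup (φ ∘ e) π) (x (φ (e i₀))))
    rw [h3, hi₀]
    exact hcon
  obtain ⟨i, q, h5⟩ := key _ h4
  have h6 : Sum.map id (fun a => (b i, a.2)) (ρ i) = Sum.inr (i₀, q) := h5
  rcases h7 : ρ i with g | a
  · rw [h7] at h6
    cases h6
  · rw [h7] at h6
    have h8 : b i = i₀ := congrArg Prod.fst (Sum.inr_injective h6)
    have h9 := hb i
    rw [h8, hi₀, h7] at h9
    have h10 : k = a.1 := h9
    exact hk (h10 ▸ hρJ i a h7)

end FTN

theorem thm_FTN (hR : St_RAMN) : St_FTN := by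
  intro L M S F hF _ hP β _
  classical
  let s : Setoid (β → M) := ⟨fun v v' => AtEq S S (dg F ∪ prs v v'),
    ⟨FTN_refl, FTN_symm, FTN_trans⟩⟩
  refine ⟨Quotient s, ?_, Quotient.mk s, fun v v' => Quotient.eq⟩
  by_contra hinf
  have hinf' : Infinite (Quotient s) := not_finite_iff_infinite.1 hinf
  let y : ℕ ↪ Quotient s := Infinite.natEmbedding _
  let x : ℕ → β → M := fun k => (y k).out
  have hx : ∀ i j, AtEq S S (dg F ∪ prs (x i) (x j)) → i = j := by
    intro i j h
    apply y.injective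
    rw [← Quotient.out_eq (y i), ← Quotient.out_eq (y j)]
    exact Quotient.sound h
  obtain ⟨φ, hφ, hφ2⟩ := FTN_ramsey hR hF x hx
  let J : (ℕ → Bool) → Set ℕ := fun f => {j | j % 2 = 0 ∨ f (j / 2) = true}
  let X : (ℕ → Bool) → Set M := fun f => F ∪ {z | ∃ j ∈ J f, ∃ q, z = x (φ j) q}
  have hX : ∀ f, (X f).Countable ∧ (X f).Infinite ∧ F ⊆ X f := by
    intro f
    refine ⟨hF.countable.union ?_, ?_, subset_union_left⟩
    · refine (countable_range (fun a : ℕ × β => x (φ a.1) a.2)).mono ?_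
      rintro z ⟨j, -, q, rfl⟩
      exact ⟨(j, q), rfl⟩
    · intro hfin
      have _ := hfin.to_subtype
      let g : ℕ → β → X f := fun k i =>
        ⟨x (φ (2 * k)) i, Or.inr ⟨2 * k, Or.inl (by omega), i, rfl⟩⟩
      refine not_injective_infinite_finite g fun k l hkl => ?_
      have h1 : x (φ (2 * k)) = x (φ (2 * l)) := by
        funext i
        exact congrArg Subtype.val (congrFun hkl i)
      have h2 := hφ.injective (hx (φ (2 * k)) (φ (2 * l)) (by
        rw [h1]
        exact FTN_refl _))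
      omega
  have hgame : ∀ f g k, f k = true → g k = false →
      ¬ BFR S S (X f) (X g) (Nat.card β : Ordinal.{0}) (dg F) := by
    intro f g k hf hg h
    obtain ⟨v', hv', h1⟩ := FTN_moves h (x (φ (2 * k + 1))) (fun i => by
      refine Or.inr ⟨2 * k + 1, Or.inr ?_, i, rfl⟩
      rw [show (2 * k + 1) / 2 = k by omega]
      exact hf)
    refine hφ2 (2 * k + 1) (J g) v' ?_ hv' (FTN_symm h1)
    rintro (h2 | h2)
    · omega
    · rw [show (2 * k + 1) / 2 = k by omega, hg] at h2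
      exact Bool.false_ne_true h2
  obtain ⟨f, g, hfg, h⟩ := hP X F (Nat.card β : Ordinal.{0}) hF Subset.rfl (natCast_lt_om1 _) hX
  obtain ⟨k, hk⟩ := Function.ne_iff.1 hfg
  cases hfk : f k with
  | true =>
    cases hgk : g k with
    | true => exact hk (by rw [hfk, hgk])
    | false => exact hgame f g k hfk hgk h
  | false =>
    cases hgk : g k with
    | true =>
      refine hgame g f k hgk hfk (BFR.anti ?_ h.swap)
      rintro a ⟨z, hz, rfl⟩
      exact ⟨z, hz, rfl⟩
    | false => exact hk (by rw [hfk, hgk])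

end HERN
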