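import Pool.Agent.HERN.St
import Pool.Agent.HER.CNT

/-!
# HERN [HCO]: the sizes of the components of hypergraphs
-/

set_option autoImplicit false
set_option linter.unusedVariables false

namespace HERN

open Set Pool.Agent.Helper5.DU Pool.Agent.Helper6.Str Pool.Agent.Helper79.VC
  Pool.Agent.Helper97.LO Pool.Agent.Helper97.VC HER

variable {L : FirstOrder.Language.{0, 0}} {M : Type} {S : L.Structure M}

theorem HCO_sub {r : ℕ} {a0 : Set M} {H : ∀ b : ℕ, (Fin b → M) → Prop} {X Y : Set M}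
    (hH : ∀ b h h', AtEq S S (dg a0 ∪ prs h h') → (H b h ↔ H b h'))
    (h : BFR S S X Y Ordinal.omega0 (dg a0)) {m : ℕ} {D : Set M} (hDm : D.encard = (m : ℕ∞))
    (hD : IsCmp r a0 H X D) : ∃ D', D'.encard = (m : ℕ∞) ∧ IsCmp r a0 H Y D' := by
  obtain ⟨hDX, hout, hcon⟩ := hD
  obtain ⟨w, hwinj, hwr⟩ := CNT_enum hDm
  have hwD : ∀ i, w i ∈ D := fun i => by
    rw [← hwr]
    exact mem_range_self i
  have h1 : BFR S S X Y ((r : Ordinal.{0}) + (m : Ordinal.{0})) (dg a0) := by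
    refine h.mono (le_of_lt ?_)
    have h2 := Ordinal.natCast_lt_omega0 (r + m)
    rwa [Nat.cast_add] at h2
  obtain ⟨w', hw', h2⟩ := BFR.forth_many m h1 w (fun i => (hDX (hwD i)).1)
  have hpe := h2.atEq
  have hpa : ∀ x ∈ a0, (x, x) ∈ dg a0 ∪ range fun i => (w i, w' i) := fun x hx =>
    Or.inl ⟨x, hx, rfl⟩
  have hpw : ∀ i, (w i, w' i) ∈ dg a0 ∪ range fun i => (w i, w' i) := fun i => Or.inr ⟨i, rfl⟩
  have hw'inj : Function.Injective w' := by
    intro i j hij
    exact hwinj ((hpe.1 _ (hpw i) _ (hpw j)).2 hij)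
  have hw'a : ∀ i, w' i ∉ a0 := by
    intro i hi
    have h3 := (hpe.1 _ (hpw i) _ (hpa _ hi)).2 rfl
    simp only at h3
    apply (hDX (hwD i)).2
    rw [h3]
    exact hi
  refine ⟨range w', CNT_encard hw'inj, ?_, ?_, ?_⟩
  · rintro _ ⟨i, rfl⟩
    exact ⟨hw' i, hw'a i⟩
  · rintro b hb h' hinj hY hHb ⟨p0, i0, hp0⟩ p
    have h3 : BFR S S X Y ((0 : Ordinal.{0}) + (b : Ordinal.{0}))
        (dg a0 ∪ range fun i => (w i, w' i)) := by
      refine h2.mono ?_
      rw [zero_add]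
      exact_mod_cast hb
    obtain ⟨g, hg, h4⟩ := BFR.back_many b h3 h' (fun p => (hY p).1)
    have hqe := h4.atEq
    have hqa : ∀ x ∈ a0, (x, x) ∈ (dg a0 ∪ range fun i => (w i, w' i)) ∪
        range fun i => (g i, h' i) := fun x hx => Or.inl (hpa x hx)
    have hqw : ∀ i, (w i, w' i) ∈ (dg a0 ∪ range fun i => (w i, w' i)) ∪
        range fun i => (g i, h' i) := fun i => Or.inl (hpw i)
    have hqg : ∀ i, (g i, h' i) ∈ (dg a0 ∪ range fun i => (w i, w' i)) ∪
        range fun i => (g i, h' i) := fun i => Or.inr ⟨i, rfl⟩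
    have hginj : Function.Injective g := by
      intro i j hij
      exact hinj ((hqe.1 _ (hqg i) _ (hqg j)).1 hij)
    have hga : ∀ i, g i ∉ a0 := by
      intro i hi
      have h5 := (hqe.1 _ (hqg i) _ (hqa _ hi)).1 rfl
      simp only at h5
      apply (hY i).2
      rw [h5]
      exact hi
    have hHg : H b g := by
      refine (hH b g h' (hqe.anti ?_)).2 hHb
      rintro a (ha | ⟨i, rfl⟩)
      · exact Or.inl (Or.inl ha)
      · exact hqg i
    have h6 : g p0 ∈ D := by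
      have h7 := (hqe.1 _ (hqg p0) _ (hqw i0)).2 hp0.symm
      simp only at h7
      rw [h7]
      exact hwD i0
    have h8 := hout b hb g hginj (fun p => ⟨hg p, hga p⟩) hHg ⟨p0, h6⟩ p
    rw [← hwr] at h8
    obtain ⟨j, hj⟩ := h8
    exact ⟨j, (hqe.1 _ (hqw j) _ (hqg p)).1 hj⟩
  · intro D' hD' hne hne'
    obtain ⟨b, hb, g, hginj, hgD, hHg, ⟨p1, hp1⟩, p2, hp2⟩ :=
      hcon {x | ∃ i, x = w i ∧ w' i ∈ D'} (by
          rintro _ ⟨i, rfl, -⟩
          exact hwD i) (by
          obtain ⟨x, hx⟩ := hne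
          obtain ⟨i, rfl⟩ := hD' hx
          exact ⟨w i, i, rfl, hx⟩) (by
          intro heq
          apply hne'
          refine hD'.antisymm ?_
          rintro _ ⟨i, rfl⟩
          have h3 := hwD i
          rw [← heq] at h3
          obtain ⟨j, hj, hj'⟩ := h3
          rw [hwinj hj]
          exact hj')
    have hk : ∀ p, ∃ i, w i = g p := by
      intro p
      have h3 := hgD p
      rw [← hwr] at h3
      exact h3
    choose k hk using hk
    refine ⟨b, hb, fun p => w' (k p), fun p q hpq => ?_, fun p => mem_range_self _, ?_, ?_, ?_⟩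
    · apply hginj
      rw [← hk p, ← hk q, hw'inj hpq]
    · refine (hH b g _ (hpe.anti ?_)).1 hHg
      rintro a (ha | ⟨i, rfl⟩)
      · exact Or.inl ha
      · refine Or.inr ⟨k i, ?_⟩
        show (w (k i), w' (k i)) = (g i, w' (k i))
        rw [hk i]
    · obtain ⟨i, hi, hi'⟩ := hp1
      refine ⟨p1, ?_⟩
      rw [← hk p1] at hi
      show w' (k p1) ∈ D'
      rw [hwinj hi]
      exact hi'
    · exact ⟨p2, fun h3 => hp2 ⟨k p2, (hk p2).symm, h3⟩⟩

/-- [HCO] -/
theorem thm_HCO : St_HCO := by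
  intro L M S F r a0 H X hPig hfin hF hH hX
  obtain ⟨f, g, hfg, h⟩ := hPig X a0 Ordinal.omega0 hfin hF omega_lt_om1 hX
  have h' := h.symm (q := dg a0) (by
    rintro _ ⟨x, hx, rfl⟩
    exact ⟨x, hx, rfl⟩)
  refine ⟨f, g, hfg, Set.ext fun m => ⟨?_, ?_⟩⟩
  · rintro ⟨D, hDm, hD⟩
    exact HCO_sub hH h hDm hD
  · rintro ⟨D, hDm, hD⟩
    exact HCO_sub hH h' hDm hD

end HERN
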