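import Pool.Agent.HERN.DAT

/-!
# HERN, module HOM: homogeneous subfamilies
-/

set_option autoImplicit false
set_option linter.unusedVariables false

namespace HERN

open Set Pool.Agent.Helper5.DU Pool.Agent.Helper6.Str Pool.Agent.Helper79.VC
  Pool.Agent.Helper97.LO Pool.Agent.Helper97.VC HER

variable {L : FirstOrder.Language.{0, 0}} {M : Type} {S : L.Structure M} {G : Set M} {n : ℕ}

/-- index sets of one full block and elements of the first kind -/
def HOM_Ex {γ J β : Type} (Z : Set (γ ⊕ Σ _ : J, β)) : Prop :=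
  ∃ j, (∀ b, Sum.inr ⟨j, b⟩ ∈ Z) ∧ ∀ j' b', Sum.inr ⟨j', b'⟩ ∈ Z → j' = j

/-- two generic sequences over `c` -/
theorem HOM_K1 {β : Type} {V : Set (β → M)} {cl : Set M → Set M} (hF : Fam V)
    (hP : MX S G n V cl) {γ : Type} [Countable γ] {J : Type} [Finite J] {w w' : J → β → M}
    {rk rk' : J → ℕ} (hrk : Function.Injective rk) (hrk' : Function.Injective rk')
    (hw : ∀ j, w j ∈ V) (hw' : ∀ j, w' j ∈ V) {c : γ → M}
    (hg : Gen cl (range c) rk w) (hg' : Gen cl (range c) rk' w')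
    {Z : Set (γ ⊕ Σ _ : J, β)} (hZ : Z.encard ≤ n) {p : γ} (hp : Sum.inl p ∈ Z)
    (hE : ¬ HOM_Ex Z) : AtEq S S (dg G ∪ prt Z (DAT_cw c w) (DAT_cw c w')) := by
  have hoff : ∀ j b, w j b ∉ range c := fun j b hb => hg.off hP.icl j b (hP.icl.sub _ hb)
  refine hP.mx J w w' rk rk' (range c) (countable_range c) hrk hrk' hw hw' hg hg' _ ?_
    ((encard_image_le _ _).trans hZ) ⟨(c p, c p), ⟨Sum.inl p, hp, rfl⟩, c p, mem_range_self p, rfl⟩
    ?_
  · refine (prt_subset _ _ _).trans ?_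
    rw [DAT_sets, prs_self]
  · rintro ⟨j, h1, h2⟩
    apply hE
    refine ⟨j, fun b => ?_, fun j' b' hz => ?_⟩
    · obtain ⟨z, hz, hzb⟩ := h1 ⟨b, rfl⟩
      have h3 : DAT_cw c w z = w j b := congrArg Prod.fst hzb
      rcases z with p' | ⟨j', b'⟩
      · exact absurd ⟨p', h3⟩ (hoff j b)
      · have h4 : w j' b' = w j b := h3
        have h5 : j' = j := by
          by_contra hne
          exact hg.disj hP.icl hrk hne b' b h4
        subst h5
        rw [← hF.inj (hw j') h4]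
        exact hz
    · have h3 : (w j' b', w' j' b') ∈ dg (range c) ∪ prs (w j) (w' j) :=
        h2 ⟨Sum.inr ⟨j', b'⟩, hz, rfl⟩
      rcases h3 with h3 | ⟨b, hb⟩
      · exact absurd (mem_dg.mp h3).1 (hoff j' b')
      · have h4 : w j b = w j' b' := congrArg Prod.fst hb
        by_contra hne
        exact hg.disj hP.icl hrk (Ne.symm hne) b b' h4

theorem thm_HOM : St_HOM := by
  intro L M S G n β _ V cl hFT hF hP
  have hgen : ∀ (s : Fin (n + 1)) (c : β → M), ∃ w : Fin s → β → M, (∀ j, w j ∈ V) ∧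
      Gen cl (range c) (fun j : Fin s => (j : ℕ)) w := fun s c =>
    DAT_gen hP.icl (fun _ => V) (fun _ => hF) _ (countable_range c)
  choose w hwV hwG using hgen
  have hFT' : ∀ s : Fin (n + 1), ∃ (C : Type) (_ : Finite C)
      (t : ((β ⊕ Σ _ : Fin s, β) → M) → C),
      ∀ v v', t v = t v' ↔ AtEq S S (dg G ∪ prs v v') := fun s => hFT _
  choose C hC t ht using hFT'
  have : ∀ s, Finite (C s) := hC
  obtain ⟨κ, hκ⟩ := exists_uncountable_fiber (C := ∀ s, C s) hF.unc
    (fun c s => t s (DAT_cw c (w s c)))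
  refine ⟨{c ∈ V | (fun s => t s (DAT_cw c (w s c))) = κ}, fun c hc => hc.1, hκ, ?_⟩
  intro c hc c' hc' J _ v rk hrk hv hg q hq hqn hqE
  have hcc' : (fun s => t s (DAT_cw c (w s c))) = fun s => t s (DAT_cw c' (w s c')) :=
    hc.2.trans hc'.2.symm
  have hq' : q ⊆ prs (DAT_cw c v) (DAT_cw c' v) := by
    rw [DAT_sets]
    simp only [prs_self]
    exact hq
  obtain ⟨Z, hZq, hZn⟩ := DAT_sec hq'
  have hE : ¬ HOM_Ex Z := by
    rintro ⟨j, h1, h2⟩
    apply hqE
    refine ⟨j, ?_, ?_⟩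
    · rintro _ ⟨_, ⟨b, rfl⟩, rfl⟩
      rw [← hZq]
      exact ⟨Sum.inr ⟨j, b⟩, h1 b, rfl⟩
    · rw [← hZq]
      rintro _ ⟨(p | ⟨j', b'⟩), hz, rfl⟩
      · exact Or.inl ⟨p, rfl⟩
      · have h3 := h2 j' b' hz
        subst h3
        exact Or.inr ⟨v j' b', mem_range_self b', rfl⟩
  have hZ : Z.encard ≤ n := hZn.trans hqn
  rw [← hZq]
  by_cases hp : ∃ p, Sum.inl p ∈ Z
  · obtain ⟨p, hp⟩ := hp
    have hnn : ((n : ℕ) : ℕ∞) ≤ (n : ℕ∞) + 1 := le_self_add
    obtain ⟨s, e, hs, he, heZ⟩ := DAT_blocks (n := n) hrk (hZ.trans hnn) hp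
    have hinj : Function.Injective e := by
      intro i k hik
      by_contra hne
      rcases lt_or_gt_of_ne hne with h | h
      · have h1 := (he i k).mp h
        rw [hik] at h1
        exact lt_irrefl _ h1
      · have h1 := (he k i).mp h
        rw [hik] at h1
        exact lt_irrefl _ h1
    let x : Fin (n + 1) := ⟨s, Nat.lt_succ_of_le hs⟩
    have hcl := hP.icl
    let φ : (β ⊕ Σ _ : Fin s, β) → (β ⊕ Σ _ : J, β) := Sum.map id fun y => ⟨e y.1, y.2⟩
    have hφ : Function.Injective φ := by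
      refine Sum.map_injective.mpr ⟨Function.injective_id, ?_⟩
      rintro ⟨i, b⟩ ⟨k, b'⟩ hik
      have h1 : e i = e k := congrArg Sigma.fst hik
      have h2 := hinj h1
      subst h2
      simp only [Sigma.mk.injEq, heq_eq_eq, true_and] at hik
      rw [hik]
    let Z' := φ ⁻¹' Z
    have hZ' : Z'.encard ≤ n := by
      have h1 : Z'.encard ≤ Z.encard := by
        rw [← hφ.encard_image]
        exact encard_le_encard (image_preimage_subset _ _)
      exact h1.trans hZ
    have hp' : Sum.inl p ∈ Z' := hp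
    have hE' : ¬ HOM_Ex Z' := by
      rintro ⟨k, h1, h2⟩
      apply hE
      refine ⟨e k, fun b => h1 b, fun j' b' hz => ?_⟩
      obtain ⟨k', rfl⟩ := heZ j' b' hz
      rw [h2 k' b' hz]
    let v' : Fin s → β → M := fun k => v (e k)
    have hv' : ∀ k, v' k ∈ V := fun k => hv (e k)
    have hg' : Gen cl (range c ∪ range c') (fun j : Fin s => (j : ℕ)) v' := by
      intro k
      refine (hg (e k)).anti (hcl.mono _ _ (union_subset_union_right _ ?_))
      rintro y ⟨i, hi, hy⟩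
      exact ⟨e i, (he i k).mp hi, hy⟩
    have s1 : AtEq S S (dg G ∪ prt Z' (DAT_cw c v') (DAT_cw c (w x c))) :=
      HOM_K1 hF hP Fin.val_injective Fin.val_injective hv' (hwV x c)
        (hg'.mono (fun _ => Subset.rfl) hcl subset_union_left) (hwG x c) hZ' hp' hE'
    have s2 : AtEq S S (dg G ∪ prt Z' (DAT_cw c (w x c)) (DAT_cw c' (w x c'))) := by
      have h1 := (ht x _ _).mp (congrFun hcc' x)
      exact h1.anti (union_subset_union_right _ (prt_subset _ _ _))
    have s3 : AtEq S S (dg G ∪ prt Z' (DAT_cw c' (w x c')) (DAT_cw c' v')) :=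
      HOM_K1 hF hP Fin.val_injective Fin.val_injective (hwV x c') hv'
        (hwG x c') (hg'.mono (fun _ => Subset.rfl) hcl subset_union_right) hZ' hp' hE'
    refine (DAT_comp (DAT_comp s1 s2) s3).anti (union_subset_union_right _ ?_)
    rintro _ ⟨(q | ⟨j, b⟩), hz, rfl⟩
    · exact ⟨Sum.inl q, hz, rfl⟩
    · obtain ⟨k, rfl⟩ := heZ j b hz
      exact ⟨Sum.inr ⟨k, b⟩, hz, rfl⟩
  · exact DAT_diag fun p hp' => hp ⟨p, hp'⟩

end HERN
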