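import Pool.Agent.HERN.St

/-!
# HERN: uniform systems, generic sequences in the same order
-/

set_option autoImplicit false

namespace HERN

open Set Pool.Agent.Helper5.DU Pool.Agent.Helper6.Str Pool.Agent.Helper79.VC
  Pool.Agent.Helper97.LO Pool.Agent.Helper97.VC HER

/-- generic sequences exist -/
theorem INC_exists {M I J : Type} [Countable J] {β : I → Type} [∀ i, Finite (β i)]
    {V : ∀ i, Set (β i → M)} {cl : Set M → Set M} (hcl : IsCl cl) (hV : ∀ i, Fam (V i))
    (l : J → I) (rk : J → ℕ) (A : Set M) (hA : A.Countable) :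
    ∃ w : ∀ j, β (l j) → M, (∀ j, w j ∈ V (l j)) ∧ Gen cl A rk w := by
  have hex : ∀ (j : J) (E : Set M), ∃ w, E.Countable → w ∈ V (l j) ∧ Off E w := by
    intro j E
    by_cases hE : E.Countable
    · obtain ⟨w, hw, hw'⟩ := (hV (l j)).exists_off hE
      exact ⟨w, fun _ => ⟨hw, hw'⟩⟩
    · obtain ⟨w, _, _⟩ := (hV (l j)).exists_off (countable_empty)
      exact ⟨w, fun h => absurd h hE⟩
  choose F hF using hex
  have hwf : WellFounded (fun i j : J => rk i < rk j) := InvImage.wf rk wellFounded_lt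
  let w : ∀ j, β (l j) → M := hwf.fix (C := fun j => β (l j) → M)
    (fun j ih => F j (cl (A ∪ {x | ∃ i, ∃ h : rk i < rk j, x ∈ range (ih i h)})))
  have hw : ∀ j, w j = F j (cl (A ∪ {x | ∃ i, rk i < rk j ∧ x ∈ range (w i)})) := by
    intro j
    have h2 : w j = F j (cl (A ∪ {x | ∃ i, ∃ _ : rk i < rk j, x ∈ range (w i)})) :=
      hwf.fix_eq _ j
    have h3 : {x | ∃ i, ∃ _ : rk i < rk j, x ∈ range (w i)} =
        {x | ∃ i, rk i < rk j ∧ x ∈ range (w i)} := by
      ext x
      constructor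
      · rintro ⟨i, hi, hx⟩
        exact ⟨i, hi, hx⟩
      · rintro ⟨i, hi, hx⟩
        exact ⟨i, hi, hx⟩
    rw [h3] at h2
    exact h2
  have hc : ∀ j, (cl (A ∪ {x | ∃ i, rk i < rk j ∧ x ∈ range (w i)})).Countable := by
    intro j
    refine hcl.ctbl _ (hA.union ?_)
    refine (countable_iUnion fun i => countable_range (w i)).mono ?_
    rintro x ⟨i, -, hx⟩
    exact mem_iUnion.2 ⟨i, hx⟩
  refine ⟨w, fun j => ?_, fun j => ?_⟩
  · rw [hw j]
    exact (hF j _ (hc j)).1
  · have h4 := (hF j _ (hc j)).2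
    rw [← hw j] at h4
    exact h4

/-- subsequences of generic sequences -/
theorem INC_sub {M J J' : Type} {β : J → Type} {cl : Set M → Set M} (hcl : IsCl cl) {A : Set M}
    {rk : J → ℕ} {w : ∀ j, β j → M} (h : Gen cl A rk w) (e : J' → J) :
    Gen cl A (fun j => rk (e j)) (fun j => w (e j)) := by
  intro j
  refine (h (e j)).anti (hcl.mono _ _ (union_subset_union_right _ ?_))
  rintro x ⟨i, hi, hx⟩
  exact ⟨e i, hi, hx⟩

/-- composition of three equivalences -/
theorem INC_comp3 {L : FirstOrder.Language.{0, 0}} {M : Type} {S : L.Structure M} {G : Set M}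
    {q : Set (M × M)} (f g : M × M → M)
    (h1 : AtEq S S (dg G ∪ (fun a => (a.1, f a)) '' q))
    (h2 : AtEq S S (dg G ∪ (fun a => (f a, g a)) '' q))
    (h3 : AtEq S S (dg G ∪ (fun a => (g a, a.2)) '' q)) : AtEq S S (dg G ∪ q) := by
  have h4 : AtEq S S (dg G ∪ (fun a => (a.1, g a)) '' q) := by
    refine AtEq.comp' h1 h2 ?_
    rintro a (⟨x, hx, rfl⟩ | ⟨a, ha, rfl⟩)
    · exact ⟨x, Or.inl ⟨x, hx, rfl⟩, Or.inl ⟨x, hx, rfl⟩⟩
    · exact ⟨f a, Or.inr ⟨a, ha, rfl⟩, Or.inr ⟨a, ha, rfl⟩⟩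
  refine AtEq.comp' h4 h3 ?_
  rintro a (⟨x, hx, rfl⟩ | ha)
  · exact ⟨x, Or.inl ⟨x, hx, rfl⟩, Or.inl ⟨x, hx, rfl⟩⟩
  · exact ⟨g a, Or.inr ⟨a, ha, rfl⟩, Or.inr ⟨a, ha, rfl⟩⟩

theorem thm_INC : St_INC := by
  intro L M S G n I β _ V cl hG hP hDat
  have main : ∀ (k : ℕ) (J : Type) [Finite J] (l : J → I) (w w' : ∀ j, β (l j) → M)
      (rk : J → ℕ), Nat.card J = k → Function.Injective rk → (∀ j, w j ∈ V (l j)) →
      (∀ j, w' j ∈ V (l j)) → Gen cl ∅ rk w → Gen cl ∅ rk w' →
      TE S G (n + 1) (⋃ j, prs (w j) (w' j)) := by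
    intro k
    induction k using Nat.strong_induction_on with
    | _ k ih =>
    intro J _ l w w' rk hk hrk hw hw' hg hg' q hq hn
    by_cases hJ : Nonempty J
    swap
    · refine atEq_diag S ?_
      rintro a (⟨x, -, rfl⟩ | ha)
      · rfl
      · obtain ⟨j, _⟩ := mem_iUnion.1 (hq ha)
        exact absurd ⟨j⟩ hJ
    obtain ⟨j0, hj0⟩ := Finite.exists_min rk
    have hlt : ∀ j, j ≠ j0 → rk j0 < rk j := fun j hj =>
      lt_of_le_of_ne (hj0 j) fun h => hj (hrk h).symm
    by_cases hq0 : ∃ p, (w j0 p, w' j0 p) ∈ q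
    · obtain ⟨p0, hp0⟩ := hq0
      have hcA : (range (w j0) ∪ range (w' j0)).Countable :=
        (countable_range _).union (countable_range _)
      obtain ⟨w2, hw2, hg2⟩ := INC_exists (J := {j : J // j ≠ j0}) hP.icl
        (fun i => (hG i).fam) (fun j => l j.1) (fun j => rk j.1) _ hcA
      have hrk' : Function.Injective (fun j : {j : J // j ≠ j0} => rk j.1) := fun i j h =>
        Subtype.ext (hrk h)
      have hgen : ∀ v : ∀ j, β (l j) → M, Gen cl ∅ rk v →
          Gen cl (range (v j0)) (fun j : {j : J // j ≠ j0} => rk j.1)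
            (fun j : {j : J // j ≠ j0} => v j.1) := by
        intro v hv j
        refine (hv j.1).anti (hP.icl.mono _ _ ?_)
        rintro x (hx | ⟨i, hi, hx⟩)
        · exact Or.inr ⟨j0, hlt j.1 j.2, hx⟩
        · exact Or.inr ⟨i.1, hi, hx⟩
      have h1 := hP.com {j : J // j ≠ j0} (fun j => l j.1) (fun j => w j.1) w2
        (fun j => rk j.1) (fun j => rk j.1) (range (w j0)) (countable_range _) hrk' hrk'
        (fun j => hw j.1) hw2 (hgen w hg)
        (hg2.mono (fun _ => Subset.rfl) hP.icl subset_union_left) (w j0 p0) ⟨p0, rfl⟩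
      have h2 := hDat (l j0) (w j0) (hw j0) (w' j0) (hw' j0) {j : J // j ≠ j0}
        (fun j => l j.1) w2 (fun j => rk j.1) hrk' hw2 hg2
      have h3 := hP.com {j : J // j ≠ j0} (fun j => l j.1) w2 (fun j => w' j.1)
        (fun j => rk j.1) (fun j => rk j.1) (range (w' j0)) (countable_range _) hrk' hrk'
        hw2 (fun j => hw' j.1) (hg2.mono (fun _ => Subset.rfl) hP.icl subset_union_right)
        (hgen w' hg') (w' j0 p0) ⟨p0, rfl⟩
      -- the elements in the middle
      have hmid : ∀ a : M × M, ∃ b : M × M, a ∈ q → ((a = (w j0 p0, w' j0 p0) → b = a) ∧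
          (((∃ p, a = (w j0 p, w' j0 p)) ∧ b = a) ∨
          ∃ (j : {j : J // j ≠ j0}) (p : β (l j.1)), a = (w j.1 p, w' j.1 p) ∧
            b = (w2 j p, w2 j p))) := by
        intro a
        by_cases ha : a ∈ q
        · by_cases ha0 : ∃ p, a = (w j0 p, w' j0 p)
          · exact ⟨a, fun _ => ⟨fun _ => rfl, Or.inl ⟨ha0, rfl⟩⟩⟩
          · obtain ⟨j, hj⟩ := mem_iUnion.1 (hq ha)
            obtain ⟨p, hp⟩ := hj
            have hj' : j ≠ j0 := by
              rintro rfl
              exact ha0 ⟨p, hp.symm⟩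
            exact ⟨(w2 ⟨j, hj'⟩ p, w2 ⟨j, hj'⟩ p), fun _ => ⟨fun h => absurd ⟨p0, h⟩ ha0,
              Or.inr ⟨⟨j, hj'⟩, p, hp.symm, rfl⟩⟩⟩
        · exact ⟨a, fun h => absurd h ha⟩
      choose f hf using hmid
      refine INC_comp3 (fun a => (f a).1) (fun a => (f a).2) ?_ ?_ ?_
      · refine h1.of_insertG (q := (fun a => (a.1, (f a).1)) '' q) ?_
          ((encard_image_le _ _).trans hn) ⟨_, hp0, ?_⟩
        · rintro _ ⟨a, ha, rfl⟩
          rcases (hf a ha).2 with ⟨⟨p, hp⟩, hb⟩ | ⟨j, p, hp, hb⟩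
          · left
            refine ⟨w j0 p, ⟨p, rfl⟩, ?_⟩
            simp only [hb]
            rw [hp]
          · right
            refine mem_iUnion.2 ⟨j, p, ?_⟩
            simp only [hb]
            rw [hp]
        · have h4 := (hf _ hp0).1 rfl
          simp only [h4]
      · refine h2 _ ?_ ((encard_image_le _ _).trans hn)
        rintro _ ⟨a, ha, rfl⟩
        rcases (hf a ha).2 with ⟨⟨p, hp⟩, hb⟩ | ⟨j, p, hp, hb⟩
        · left
          refine ⟨p, ?_⟩
          simp only [hb]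
          rw [hp]
        · right
          refine mem_iUnion.2 ⟨j, w2 j p, ⟨p, rfl⟩, ?_⟩
          simp only [hb]
      · refine h3.of_insertG (q := (fun a => ((f a).2, a.2)) '' q) ?_
          ((encard_image_le _ _).trans hn) ⟨_, hp0, ?_⟩
        · rintro _ ⟨a, ha, rfl⟩
          rcases (hf a ha).2 with ⟨⟨p, hp⟩, hb⟩ | ⟨j, p, hp, hb⟩
          · left
            refine ⟨w' j0 p, ⟨p, rfl⟩, ?_⟩
            simp only [hb]
            rw [hp]
          · right
            refine mem_iUnion.2 ⟨j, p, ?_⟩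
            simp only [hb]
            rw [hp]
        · have h4 := (hf _ hp0).1 rfl
          simp only [h4]
    · have hlt' : Nat.card {j : J // j ≠ j0} < k := by
        rw [← hk]
        exact Finite.card_subtype_lt (p := fun j => j ≠ j0) (x := j0) (by simp)
      have h1 := ih _ hlt' {j : J // j ≠ j0} (fun j => l j.1) (fun j => w j.1)
        (fun j => w' j.1) (fun j => rk j.1) rfl (fun i j h => Subtype.ext (hrk h))
        (fun j => hw j.1) (fun j => hw' j.1) (INC_sub hP.icl hg Subtype.val)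
        (INC_sub hP.icl hg' Subtype.val)
      refine h1 q ?_ hn
      intro a ha
      obtain ⟨j, hj⟩ := mem_iUnion.1 (hq ha)
      obtain ⟨p, hp⟩ := hj
      have hj' : j ≠ j0 := by
        rintro rfl
        refine hq0 ⟨p, ?_⟩
        simp only at hp
        rw [hp]
        exact ha
      exact mem_iUnion.2 ⟨⟨j, hj'⟩, p, hp⟩
  intro J _ l w w' rk hrk hw hw' hg hg'
  exact main _ J l w w' rk rfl hrk hw hw' hg hg'

end HERN
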