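import Pool.Agent.HERN.St

/-!
# HERN, [LAB]: finitely many labels of tuples containing `g` (helper23)
-/

set_option autoImplicit false

namespace HERN

open Set Pool.Agent.Helper5.DU Pool.Agent.Helper6.Str Pool.Agent.Helper79.VC
  Pool.Agent.Helper97.LO Pool.Agent.Helper97.VC HER

theorem LAB_prs {M β γ : Type} (u u' : γ → M) (w w' : β → M) :
    prs (Sum.elim u w) (Sum.elim u' w') = prs u u' ∪ prs w w' := by
  ext a
  constructor
  · rintro ⟨i | i, rfl⟩
    · exact Or.inl ⟨i, rfl⟩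
    · exact Or.inr ⟨i, rfl⟩
  · rintro (⟨i, rfl⟩ | ⟨i, rfl⟩)
    · exact ⟨Sum.inl i, rfl⟩
    · exact ⟨Sum.inr i, rfl⟩

/-- two of many objects with finitely many colours have the same colour -/
theorem LAB_pigeon {C : Type} [Finite C] (c : Fin (Nat.card C + 1) → C) :
    ∃ i j, i ≠ j ∧ c i = c j := by
  have := Fintype.ofFinite C
  refine Fintype.exists_ne_map_eq_of_card_lt c ?_
  rw [Fintype.card_fin, Nat.card_eq_fintype_card]
  exact Nat.lt_succ_self _

theorem thm_LAB : St_LAB := by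
  intro L M S G n k β _ V g hFT hPT hk
  obtain ⟨C, hC, t, ht⟩ := hFT (Fin k ⊕ β)
  rcases isEmpty_or_nonempty β with hβ | hβ
  · refine ⟨Nat.card C, fun u _ => ?_⟩
    obtain ⟨i, j, hij, h1⟩ := LAB_pigeon fun i => t (Sum.elim (u i) (fun b => hβ.elim b))
    refine ⟨i, j, hij, ∅, countable_empty, fun w _ _ => ?_⟩
    rw [ht, LAB_prs] at h1
    refine h1.anti ?_
    rintro a ((h2 | h2) | h2)
    · exact Or.inl h2
    · exact Or.inr (Or.inl h2)
    · obtain ⟨_, ⟨b, rfl⟩, rfl⟩ := h2
      exact hβ.elim b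
  · obtain ⟨K, U, hU, hUc⟩ := hPT
    have hlab : ∀ (u : Fin k → M) (l : Fin K), g ∈ range u → ∃ (c : C) (E : Set M),
        E.Countable ∧ ∀ w ∈ U l, Off E w → t (Sum.elim u w) = c := by
      intro u l hg
      obtain ⟨E, hE, h1⟩ := (hU l).2.eqv (range u) (countable_range u)
      obtain ⟨w0, hw0, hw0E⟩ := (hU l).2.fam.exists_off hE
      refine ⟨t (Sum.elim u w0), E, hE, fun w hw hwE => ?_⟩
      rw [ht, LAB_prs, prs_self]
      refine TE.of_insertG (h1 w hw w0 hw0 hwE hw0E) Subset.rfl ?_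
        (Or.inl ⟨g, hg, rfl⟩)
      refine (encard_union_le _ _).trans ?_
      have h2 : (dg (range u)).encard ≤ k := by
        rw [← prs_self]
        refine (prs_encard_le u u).trans ?_
        rw [Nat.card_eq_fintype_card, Fintype.card_fin]
      have h3 : (prs w w0).encard ≤ Nat.card β := prs_encard_le w w0
      refine (add_le_add h2 h3).trans ?_
      exact_mod_cast hk.le
    refine ⟨Nat.card (Fin K → C), fun u hu => ?_⟩
    choose c E hE hc using fun i l => hlab (u i) l (hu i)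
    obtain ⟨i, j, hij, h1⟩ := LAB_pigeon fun i => c i
    refine ⟨i, j, hij, (⋃ l, (E i l ∪ E j l)) ∪ {x | ∃ w ∈ V \ ⋃ l, U l, x ∈ range w},
      (countable_iUnion fun l => (hE i l).union (hE j l)).union (countable_ranges hUc),
      fun w hw hwE => ?_⟩
    rw [off_union] at hwE
    have h2 : w ∈ ⋃ l, U l := by
      by_contra h3
      obtain ⟨b⟩ := hβ
      exact hwE.2 b ⟨w, ⟨hw, h3⟩, mem_range_self b⟩
    obtain ⟨l, hl⟩ := mem_iUnion.mp h2
    have h4 : Off (E i l ∪ E j l) w := hwE.1.anti (subset_iUnion (fun l => E i l ∪ E j l) l)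
    rw [off_union] at h4
    have h5 : t (Sum.elim (u i) w) = t (Sum.elim (u j) w) := by
      rw [hc i l w hl h4.1, hc j l w hl h4.2, h1]
    rw [ht, LAB_prs, prs_self] at h5
    rw [union_assoc]
    exact h5

end HERN
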