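import Pool.Agent.HERN.St

/-!
# HERN, module MAINN: the large structures of hereditary classes of bounded arity are tame
-/

set_option autoImplicit false

namespace HERN

open Set Pool.Agent.Helper5.DU Pool.Agent.Helper6.Str Pool.Agent.Helper79.VC
  Pool.Agent.Helper97.LO Pool.Agent.Helper97.VC HER

theorem thm_MAINN (hCX : St_CX) (h0 : St_PN0) (hS : St_PNS) (hREP : St_REP) (hCLX : St_CLX)
    (hBK : St_BK0) (hSIZ : St_SIZ) (hFIT : St_FIT) (hTAM : St_TAMN) : St_MAINN := by
  intro L _ _ K δ M S r hL hV hK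
  by_cases hM : (univ : Set M).Countable
  · exact tameX_of_countable hM
  obtain ⟨F, hC⟩ := hCX L K δ M S hV hK hM
  have hPN : ∀ n, PN S F n := by
    intro n
    induction n with
    | zero => exact h0 L M S F hC
    | succ n ih => exact hS L M S F n hC ih
  have hL' : ∀ m, max r 2 < m → IsEmpty (L.Relations m) := fun m hm =>
    hL m ((le_max_left _ _).trans_lt hm)
  obtain ⟨I, U, cl, a0, hR⟩ := hREP L M S F (max r 2) hC (hPN _)
  have hcl : ∀ A' : Set M, A'.Countable → ∃ B, A' ⊆ B ∧ Clos S F (max r 2) U cl a0 B :=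
    fun A' hA' => hCLX L M S F (max r 2) I U cl a0 A' hC (hPN _) hR hA'
  obtain ⟨A, -, hA⟩ := hcl ∅ countable_empty
  obtain ⟨hB, hBc⟩ := hBK L M S F (max r 2) I U cl a0 A (le_max_right _ _) hL' hR hcl hA
  obtain ⟨m, hm⟩ := hSIZ L M S F (max r 2) I U cl a0 A hC hR hcl hA
  obtain ⟨A', B', T, h1, h2, h3, h4, h5, h6⟩ := hFIT L M S F (max r 2) I U cl a0 A
    (fun x => {y | Relation.ReflTransGen (Lnk S F (max r 2) U cl a0 A) x y}) m
    (le_max_right _ _) hL' hR hA hB hBc hm
  exact hTAM L M S A' B' T h1 h2 h3 h4 h5 h6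

end HERN
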