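import Pool.Agent.HERN.St

/-!
# HERN [MIX]: types which meet `A`
-/

set_option autoImplicit false
set_option linter.unusedVariables false
set_option linter.unusedSectionVars false

namespace HERN

open Set Pool.Agent.Helper5.DU Pool.Agent.Helper6.Str Pool.Agent.Helper79.VC
  Pool.Agent.Helper97.LO Pool.Agent.Helper97.VC HER

/-- existence of generic sequences -/
theorem MIX_exists_gen {M J : Type} [Finite J] {β : J → Type} [∀ j, Finite (β j)]
    {cl : Set M → Set M} (hcl : IsCl cl) {A : Set M} (hA : A.Countable)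
    {V : ∀ j, Set (β j → M)} (hV : ∀ j, Fam (V j)) (rk : J → ℕ) :
    ∃ w : ∀ j, β j → M, (∀ j, w j ∈ V j) ∧ Gen cl A rk w := by
  classical
  have hc : ∀ j (u : ∀ i, rk i < rk j → β i → M),
      (cl (A ∪ {x | ∃ i, ∃ h : rk i < rk j, x ∈ range (u i h)})).Countable := by
    intro j u
    refine hcl.ctbl _ (hA.union ?_)
    have : {x | ∃ i, ∃ h : rk i < rk j, x ∈ range (u i h)} =
        ⋃ i, ⋃ h : rk i < rk j, range (u i h) := by
      ext x
      simp
    rw [this]
    exact countable_iUnion fun i => countable_iUnion fun h => countable_range _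
  have hex : ∀ j (u : ∀ i, rk i < rk j → β i → M), ∃ w ∈ V j,
      Off (cl (A ∪ {x | ∃ i, ∃ h : rk i < rk j, x ∈ range (u i h)})) w :=
    fun j u => (hV j).exists_off (hc j u)
  choose f hf1 hf2 using hex
  let wf : WellFounded (fun i j : J => rk i < rk j) := InvImage.wf rk wellFounded_lt
  let w : ∀ j, β j → M := wf.fix fun j u => f j u
  have hw : ∀ j, w j = f j fun i _ => w i := fun j => wf.fix_eq _ j
  refine ⟨w, fun j => by rw [hw]; exact hf1 _ _, fun j => ?_⟩
  have h1 := hf2 j fun i _ => w i
  rw [← hw j] at h1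
  refine h1.anti (hcl.mono _ _ (union_subset_union_right _ ?_))
  rintro x ⟨i, hi, hx⟩
  exact ⟨i, hi, hx⟩

/-- evaluation of codes -/
private def ev {M J β : Type} (v : J → β → M) : M ⊕ (J × β) → M :=
  Sum.elim id fun jp => v jp.1 jp.2

/-- the pairs given by a set of codes -/
private def prC {M J β : Type} (C : Set (M ⊕ (J × β))) (v v' : J → β → M) : Set (M × M) :=
  (fun z => (ev v z, ev v' z)) '' C

private theorem prC_comp {L : FirstOrder.Language.{0, 0}} {M J β : Type} {S : L.Structure M}
    {G : Set M} {C : Set (M ⊕ (J × β))} {v v' v'' : J → β → M}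
    (h : AtEq S S (dg G ∪ prC C v v')) (h' : AtEq S S (dg G ∪ prC C v' v'')) :
    AtEq S S (dg G ∪ prC C v v'') := by
  refine AtEq.comp' h h' ?_
  rintro a (⟨x, hx, rfl⟩ | ⟨z, hz, rfl⟩)
  · exact ⟨x, Or.inl ⟨x, hx, rfl⟩, Or.inl ⟨x, hx, rfl⟩⟩
  · exact ⟨ev v' z, Or.inr ⟨z, hz, rfl⟩, Or.inr ⟨z, hz, rfl⟩⟩

private theorem prC_sub {M J β : Type} {A : Set M} {C : Set (M ⊕ (J × β))}
    (hC : ∀ x, Sum.inl x ∈ C → x ∈ A) (v v' : J → β → M) :
    prC C v v' ⊆ dg A ∪ ⋃ j, prs (v j) (v' j) := by
  rintro _ ⟨z, hz, rfl⟩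
  rcases z with x | ⟨j, p⟩
  · exact Or.inl ⟨x, hC x hz, rfl⟩
  · exact Or.inr (mem_iUnion.mpr ⟨j, ⟨p, rfl⟩⟩)

theorem thm_MIX : St_MIX := by
  classical
  intro L M S F G n k β _ V hPN hG hFG hPG hk hFP
  -- the data
  have hpt : ∀ g : M, PT S (insert g G) n V := fun g =>
    (hPN.pt (insert g G) (hG.insert g) (hFG.trans (subset_insert _ _)) β V hPG.fam).2
  choose kk U hU hR using hpt
  have hcom : ∀ g : M, ∃ cl, Cm S (insert g G) n (fun i : Fin (kk g) => U g i) cl := fun g =>
    hPN.com (insert g G) (hG.insert g) (hFG.trans (subset_insert _ _)) (Fin (kk g))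
      (fun _ => β) (U g) fun i => (hU g i).2
  choose clg hclg using hcom
  have hpg : ∀ A : Set M, ∃ E : Set M, E.Countable ∧ (A.Countable →
      ∀ w ∈ V, ∀ w' ∈ V, Off E w → Off E w' →
      (∀ P : Set β, P ≠ univ → TE S G (n + 1) (dg A ∪ prt P w w')) ∧
      TE S G n (dg A ∪ prs w w')) := fun A => by
    by_cases hA : A.Countable
    · obtain ⟨E, hE, h⟩ := hPG.pg A hA
      exact ⟨E, hE, fun _ => h⟩
    · exact ⟨∅, countable_empty, fun h => absurd h hA⟩
  choose E1 hE1c hE1 using hpg
  have hfp : ∀ A : Set M, ∃ E : Set M, E.Countable ∧ (A.Countable →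
      ∀ w ∈ V, Off E w → ∀ U : Set M, U.encard ≤ k → (U ∩ A).Nonempty →
        (U ∩ range w).Nonempty → Trv S G V U) := fun A => by
    by_cases hA : A.Countable
    · obtain ⟨E, hE, h⟩ := hFP A hA
      exact ⟨E, hE, fun _ => h⟩
    · exact ⟨∅, countable_empty, fun h => absurd h hA⟩
  choose E2 hE2c hE2 using hfp
  have htr : ∀ A : Set M, ∃ E : Set M, E.Countable ∧ (Trv S G V A →
      ∀ w ∈ V, ∀ w' ∈ V, Off E w → Off E w' →
        AtEq S S (dg G ∪ dg A ∪ prs w w')) := fun A => by
    by_cases hA : Trv S G V A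
    · obtain ⟨E, hE, h⟩ := hA
      exact ⟨E, hE, fun _ => h⟩
    · exact ⟨∅, countable_empty, fun h => absurd h hA⟩
  choose E3 hE3c hE3 using htr
  let R : M → Set M := fun g => {x | ∃ w ∈ (V \ ⋃ i, U g i), x ∈ range w}
  let EE : Set M → Set M := fun B => (⋃ g ∈ B, R g) ∪ (E1 B ∪ (E2 B ∪ E3 B))
  have hEE : ∀ B : Set M, B.Finite → (EE B).Countable := fun B hB =>
    (hB.countable.biUnion fun g _ => countable_ranges (hR g)).union
      ((hE1c B).union ((hE2c B).union (hE3c B)))
  let cl1 : Set M → Set M := fun A => A ∪ ⋃ B ∈ {B : Set M | B ⊆ A ∧ B.Finite}, EE B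
  let cl2 : Set M → Set M := fun A => A ∪ ⋃ g ∈ A, clg g A
  have hcl1 : IsCl cl1 := isCl_of_fin EE hEE
  have hcl2 : IsCl cl2 := by
    refine ⟨fun A B hAB => union_subset_union hAB ?_, fun A => subset_union_left,
      fun A hA => hA.union (hA.biUnion fun g _ => (hclg g).icl.ctbl A hA)⟩
    refine iUnion₂_subset fun g hg => ?_
    exact ((hclg g).icl.mono A B hAB).trans (subset_biUnion_of_mem (u := fun g => clg g B)
      (hAB hg))
  let cl : Set M → Set M := fun A => cl1 A ∪ cl2 A
  have hcl : IsCl cl := hcl1.union hcl2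
  have hclEE : ∀ A B : Set M, B ⊆ A → B.Finite → EE B ⊆ cl A := fun A B hB hBf =>
    (subset_biUnion_of_mem (u := EE) (show B ∈ {B : Set M | B ⊆ A ∧ B.Finite} from
      ⟨hB, hBf⟩)).trans (subset_union_right.trans subset_union_left)
  have hclclg : ∀ (A : Set M) (g : M), g ∈ A → clg g A ⊆ cl A := fun A g hg =>
    (subset_biUnion_of_mem (u := fun g => clg g A) hg).trans
      (subset_union_right.trans subset_union_right)
  refine ⟨cl, hcl, ?_⟩
  intro J _ w w' rk rk' A hA hrk hrk' hw hw' hGw hGw' q hq hqn hqA hqx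
  obtain ⟨⟨g, g'⟩, hgq, hgA⟩ := hqA
  rw [mem_dg] at hgA
  obtain ⟨hgA, hgg⟩ := hgA
  simp only at hgA hgg
  subst hgg
  -- members of the good families
  have hmem : ∀ {rk : J → ℕ} {w : J → β → M}, (∀ j, w j ∈ V) → Gen cl A rk w →
      ∀ j, ∃ i, w j ∈ U g i := by
    intro rk w hw hGw j
    by_contra h1
    have h2 : w j ∈ V \ ⋃ i, U g i := ⟨hw j, fun h => h1 (mem_iUnion.mp h)⟩
    obtain ⟨p⟩ := hPG.fam.nonempty
    refine hGw.off hcl j p (hclEE A {g} (singleton_subset_iff.mpr hgA) (finite_singleton g)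
      (Or.inl ?_))
    exact mem_iUnion₂.mpr ⟨g, rfl, w j, h2, p, rfl⟩
  choose l hl using hmem hw hGw
  choose l' hl' using hmem hw' hGw'
  -- codes
  have hcode : ∀ a : M × M, ∃ z : M ⊕ (J × β), a ∈ q → (a = (ev w z, ev w' z) ∧
      (∀ x, z = Sum.inl x → x ∈ A) ∧ (a ∈ dg A → z = Sum.inl a.1)) := by
    intro a
    by_cases ha : a ∈ q
    · by_cases haA : a ∈ dg A
      · refine ⟨Sum.inl a.1, fun _ => ⟨?_, ?_, fun _ => rfl⟩⟩
        · rw [mem_dg] at haA
          exact Prod.ext rfl haA.2.symm
        · rw [mem_dg] at haA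
          rintro x hx
          rw [← Sum.inl.inj hx]
          exact haA.1
      · rcases hq ha with h1 | h1
        · exact absurd h1 haA
        · obtain ⟨j, p, h2⟩ := mem_iUnion.mp h1
          exact ⟨Sum.inr (j, p), fun _ => ⟨h2.symm, fun x hx => by simp at hx,
            fun h => absurd h haA⟩⟩
    · exact ⟨Sum.inl a.1, fun h => absurd h ha⟩
  choose c hc using hcode
  let C : Set (M ⊕ (J × β)) := c '' q
  have hCn : C.encard ≤ n + 1 := (encard_image_le _ _).trans (by exact_mod_cast hqn)
  have hCA : ∀ x, Sum.inl x ∈ C → x ∈ A := by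
    rintro x ⟨a, ha, hx⟩
    exact (hc a ha).2.1 x hx
  have hCg : Sum.inl g ∈ C := ⟨(g, g), hgq, (hc _ hgq).2.2 ⟨g, hgA, rfl⟩⟩
  have hCq : prC C w w' = q := by
    ext a
    constructor
    · rintro ⟨z, ⟨b, hb, rfl⟩, rfl⟩
      show (ev w (c b), ev w' (c b)) ∈ q
      rw [← (hc b hb).1]
      exact hb
    · intro ha
      exact ⟨c a, ⟨a, ha, rfl⟩, (hc a ha).1.symm⟩
  have hCx : ∀ j, (∀ p, Sum.inr (j, p) ∈ C) → ∃ i p, i ≠ j ∧ Sum.inr (i, p) ∈ C := by
    intro j hj
    by_contra h1
    push Not at h1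
    refine hqx ⟨j, ?_, ?_⟩
    · rintro _ ⟨p, rfl⟩
      rw [← hCq]
      exact ⟨_, hj p, rfl⟩
    · rw [← hCq]
      rintro _ ⟨z, hz, rfl⟩
      rcases z with x | ⟨i, p⟩
      · exact Or.inl ⟨x, hCA x hz, rfl⟩
      · by_cases hij : i = j
        · subst hij
          exact Or.inr ⟨p, rfl⟩
        · exact absurd hz (h1 i p hij)
  rw [← hCq]
  have hprn : ∀ v v' : J → β → M, (prC C v v').encard ≤ (n + 1 : ℕ) := fun v v' =>
    (encard_image_le _ _).trans (by exact_mod_cast hCn)
  -- the same families
  have hsame : ∀ (l : J → Fin (kk g)) (v v' : J → β → M) (rk rk' : J → ℕ),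
      Function.Injective rk → Function.Injective rk' → (∀ j, v j ∈ U g (l j)) →
      (∀ j, v' j ∈ U g (l j)) → Gen cl A rk v → Gen cl A rk' v' →
      AtEq S S (dg G ∪ prC C v v') := by
    intro l v v' rk rk' hrk hrk' hv hv' hGv hGv'
    have hle : ∀ {rk : J → ℕ} {v : J → β → M}, Gen cl A rk v → Gen (clg g) A rk v :=
      fun h j => (h j).anti (hclclg _ g (Or.inl hgA))
    have h1 := (hclg g).com J l v v' rk rk' A hA hrk hrk' hv hv' (hle hGv) (hle hGv')
    exact TE.of_insertG h1 (prC_sub hCA v v') (by exact_mod_cast hprn v v')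
      ⟨Sum.inl g, hCg, rfl⟩
  have hUV : ∀ i, U g i ⊆ V := fun i => (hU g i).1
  have hUF : ∀ i, Fam (U g i) := fun i => (hU g i).2.fam
  -- change of one index
  have hone : ∀ (l : J → Fin (kk g)) (j0 : J) (i0 : Fin (kk g)) (v v' : J → β → M)
      (rk rk' : J → ℕ), Function.Injective rk → Function.Injective rk' →
      (∀ j, v j ∈ U g (l j)) → (∀ j, v' j ∈ U g (Function.update l j0 i0 j)) →
      Gen cl A rk v → Gen cl A rk' v' → AtEq S S (dg G ∪ prC C v v') := by
    intro l j0 i0 v v' rk rk' hrk hrk' hv hv' hGv hGv'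
    obtain ⟨N, hN⟩ : ∃ N, ∀ j, rk j ≤ N := by
      obtain ⟨N, hN⟩ := (finite_range rk).bddAbove
      exact ⟨N, fun j => hN (mem_range_self j)⟩
    let rk0 : J → ℕ := Function.update rk j0 (N + 1)
    have hrk0a : rk0 j0 = N + 1 := Function.update_self ..
    have hrk0b : ∀ j, j ≠ j0 → rk0 j = rk j := fun j hj => Function.update_of_ne hj ..
    have hrk0 : Function.Injective rk0 := by
      intro i j hij
      by_cases hi : i = j0
      · by_cases hj : j = j0
        · rw [hi, hj]
        · subst hi
          rw [hrk0a, hrk0b j hj] at hij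
          have := hN j
          omega
      · by_cases hj : j = j0
        · subst hj
          rw [hrk0a, hrk0b i hi] at hij
          have := hN i
          omega
        · rw [hrk0b i hi, hrk0b j hj] at hij
          exact hrk hij
    obtain ⟨u, hu, hGu⟩ := MIX_exists_gen (β := fun _ : J => β) (V := fun j => U g (l j)) hcl hA
      (fun j => hUF (l j)) rk0
    let D : Set M := A ∪ {x | ∃ i, rk0 i < rk0 j0 ∧ x ∈ range (u i)}
    have hD : D.Countable := by
      refine hA.union ?_
      have h1 : {x | ∃ i, rk0 i < rk0 j0 ∧ x ∈ range (u i)} ⊆ ⋃ i, range (u i) := by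
        rintro x ⟨i, -, hx⟩
        exact mem_iUnion.mpr ⟨i, hx⟩
      exact (countable_iUnion fun i => countable_range (u i)).mono h1
    obtain ⟨y, hy, hyD⟩ := (hUF i0).exists_off (hcl.ctbl D hD)
    let u' : J → β → M := Function.update u j0 y
    have hu'a : u' j0 = y := Function.update_self ..
    have hu'b : ∀ j, j ≠ j0 → u' j = u j := fun j hj => Function.update_of_ne hj ..
    have hlt : ∀ i, i ≠ j0 → rk0 i < rk0 j0 := by
      intro i hi
      rw [hrk0a, hrk0b i hi]
      have := hN i
      omega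
    have hGu' : Gen cl A rk0 u' := by
      intro j
      have h1 : {x | ∃ i, rk0 i < rk0 j ∧ x ∈ range (u' i)} =
          {x | ∃ i, rk0 i < rk0 j ∧ x ∈ range (u i)} := by
        ext x
        constructor
        · rintro ⟨i, hi, hx⟩
          have hij : i ≠ j0 := by
            rintro rfl
            by_cases hj : j = i
            · subst hj
              exact lt_irrefl _ hi
            · exact lt_asymm hi (hlt j hj)
          rw [hu'b i hij] at hx
          exact ⟨i, hi, hx⟩
        · rintro ⟨i, hi, hx⟩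
          have hij : i ≠ j0 := by
            rintro rfl
            by_cases hj : j = i
            · subst hj
              exact lt_irrefl _ hi
            · exact lt_asymm hi (hlt j hj)
          rw [← hu'b i hij] at hx
          exact ⟨i, hi, hx⟩
      rw [h1]
      by_cases hj : j = j0
      · subst hj
        rw [hu'a]
        exact hyD
      · rw [hu'b j hj]
        exact hGu j
    have hu' : ∀ j, u' j ∈ U g (Function.update l j0 i0 j) := by
      intro j
      by_cases hj : j = j0
      · subst hj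
        rw [hu'a, Function.update_self]
        exact hy
      · rw [hu'b j hj, Function.update_of_ne hj]
        exact hu j
    refine prC_comp (hsame l v u rk rk0 hrk hrk0 hv hu hGv hGu)
      (prC_comp ?_ (hsame _ u' v' rk0 rk' hrk0 hrk' hu' hv' hGu' hGv'))
    -- comparison of `u` and `u'`
    let W : Set M := ev u '' {z ∈ C | ∀ p, z ≠ Sum.inr (j0, p)}
    let P : Set β := {p | Sum.inr (j0, p) ∈ C}
    have hWf : W.Finite := by
      refine Finite.image _ (Finite.subset ?_ (fun z hz => hz.1 : _ ⊆ C))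
      exact finite_of_encard_le_coe (k := n + 1) (by exact_mod_cast hCn)
    have hWD : W ⊆ D := by
      rintro _ ⟨z, ⟨hz, hz'⟩, rfl⟩
      rcases z with x | ⟨i, p⟩
      · exact Or.inl (hCA x hz)
      · refine Or.inr ⟨i, hlt i ?_, p, rfl⟩
        rintro rfl
        exact hz' p rfl
    have hpr : prC C u u' ⊆ dg W ∪ prt P (u j0) y := by
      rintro _ ⟨z, hz, rfl⟩
      by_cases hz' : ∀ p, z ≠ Sum.inr (j0, p)
      · refine Or.inl ⟨ev u z, ⟨z, ⟨hz, hz'⟩, rfl⟩, ?_⟩
        rcases z with x | ⟨i, p⟩
        · rfl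
        · have hi : i ≠ j0 := by
            rintro rfl
            exact hz' p rfl
          show (u i p, u i p) = (u i p, u' i p)
          rw [hu'b i hi]
      · push Not at hz'
        obtain ⟨p, rfl⟩ := hz'
        refine Or.inr ⟨p, hz, ?_⟩
        show (u j0 p, y p) = (u j0 p, u' j0 p)
        rw [hu'a]
    have hoffx : Off (EE W) (u j0) := (hGu j0).anti (hclEE D W hWD hWf)
    have hoffy : Off (EE W) y := hyD.anti (hclEE D W hWD hWf)
    by_cases hP : P = univ
    · -- the whole tuple: a second tuple is met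
      have hPC : ∀ p, Sum.inr (j0, p) ∈ C := fun p => (by rw [hP]; trivial : p ∈ P)
      obtain ⟨i, p, hij, hip⟩ := hCx j0 hPC
      have hWk : W.encard ≤ k := by
        have h1 : {z ∈ C | ∀ p, z ≠ Sum.inr (j0, p)}.encard +
            (range fun p : β => (Sum.inr (j0, p) : M ⊕ (J × β))).encard ≤ n + 1 := by
          rw [← encard_union_eq]
          · refine (encard_le_encard ?_).trans hCn
            rintro z (hz | ⟨p, rfl⟩)
            · exact hz.1
            · exact hPC p
          · rw [disjoint_left]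
            rintro z hz ⟨p, rfl⟩
            exact hz.2 p rfl
        have h2 : (range fun p : β => (Sum.inr (j0, p) : M ⊕ (J × β))).encard =
            (Nat.card β : ℕ∞) := by
          rw [← image_univ, InjOn.encard_image, encard_univ, ENat.card_eq_coe_natCard]
          intro p _ p' _ h
          simpa using h
        rw [h2] at h1
        have h3 : ((n + 1 : ℕ) : ℕ∞) = (k : ℕ∞) + (Nat.card β : ℕ∞) := by
          rw [← hk]
          push_cast
          rfl
        have h4 : {z ∈ C | ∀ p, z ≠ Sum.inr (j0, p)}.encard + (Nat.card β : ℕ∞) ≤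
            (k : ℕ∞) + (Nat.card β : ℕ∞) := by
          rw [← h3]
          exact_mod_cast h1
        exact (encard_image_le _ _).trans
          ((WithTop.add_le_add_iff_right (WithTop.natCast_ne_top _)).mp h4)
      have hWtr : Trv S G V W := by
        refine hE2 {g} (countable_singleton g) (u i) (hUV _ (hu i)) ?_ W hWk ?_ ?_
        · refine (hGu.off hcl i).anti ((subset_union_left.trans
            (subset_union_right.trans subset_union_right)).trans
            (hclEE A {g} (singleton_subset_iff.mpr hgA) (finite_singleton g)))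
        · exact ⟨g, ⟨Sum.inl g, ⟨hCg, fun p => by simp⟩, rfl⟩, rfl⟩
        · refine ⟨u i p, ⟨Sum.inr (i, p), ⟨hip, fun p' h => hij ?_⟩, rfl⟩, p, rfl⟩
          have := Sum.inr.inj h
          exact (Prod.mk.inj this).1
      have h1 := hE3 W hWtr (u j0) (hUV _ (hu j0)) y (hUV _ hy)
        (hoffx.anti (subset_union_right.trans (subset_union_right.trans subset_union_right)))
        (hoffy.anti (subset_union_right.trans (subset_union_right.trans subset_union_right)))
      refine h1.anti ?_
      rintro a (ha | ha)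
      · exact Or.inl (Or.inl ha)
      · rcases hpr ha with h2 | h2
        · exact Or.inl (Or.inr h2)
        · exact Or.inr (prt_subset _ _ _ h2)
    · -- a proper part
      have h1 := (hE1 W hWf.countable (u j0) (hUV _ (hu j0)) y (hUV _ hy)
        (hoffx.anti (subset_union_left.trans subset_union_right))
        (hoffy.anti (subset_union_left.trans subset_union_right))).1 P hP
      exact h1 _ hpr (hprn u u')
  -- change of all indices
  have hall : ∀ (s : Finset J) (v v' : J → β → M) (rk rk' : J → ℕ),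
      Function.Injective rk → Function.Injective rk' → (∀ j, v j ∈ U g (l j)) →
      (∀ j, v' j ∈ U g (if j ∈ s then l' j else l j)) → Gen cl A rk v → Gen cl A rk' v' →
      AtEq S S (dg G ∪ prC C v v') := by
    intro s
    induction s using Finset.induction_on with
    | empty =>
      intro v v' rk rk' hrk hrk' hv hv' hGv hGv'
      exact hsame l v v' rk rk' hrk hrk' hv (fun j => by simpa using hv' j) hGv hGv'
    | insert j0 s hj0 ih =>
      intro v v' rk rk' hrk hrk' hv hv' hGv hGv'
      obtain ⟨u, hu, hGu⟩ := MIX_exists_gen (β := fun _ : J => β)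
        (V := fun j => U g (if j ∈ s then l' j else l j)) hcl hA (fun j => hUF _) rk
      refine prC_comp (ih v u rk rk hrk hrk hv hu hGv hGu)
        (hone (fun j => if j ∈ s then l' j else l j) j0 (l' j0) u v' rk rk' hrk hrk' hu ?_
          hGu hGv')
      intro j
      have h1 := hv' j
      by_cases hj : j = j0
      · subst hj
        rw [Function.update_self]
        simpa using h1
      · rw [Function.update_of_ne hj]
        simpa [hj] using h1
  cases nonempty_fintype J
  exact hall Finset.univ w w' rk rk' hrk hrk' hl (fun j => by simpa using hl' j) hGw hGw'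

end HERN
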