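import Pool.Agent.HERN.St

/-!
# HERN: exchange of two tuples as a permutation
-/

set_option autoImplicit false
set_option linter.unusedVariables false

namespace HERN

open Set Pool.Agent.Helper5.DU Pool.Agent.Helper6.Str Pool.Agent.Helper79.VC
  Pool.Agent.Helper97.LO Pool.Agent.Helper97.VC HER

section

variable {M β : Type}

/-- the exchange of two disjoint tuples -/
private theorem NAB_swap (w w' : β → M) (h : Dj w w') :
    ∃ σ : Equiv.Perm M, (∀ p, σ (w p) = w' p) ∧ (∀ p, σ (w' p) = w p) ∧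
      ∀ x, x ∉ range w → x ∉ range w' → σ x = x := by
  classical
  obtain ⟨hi, hi', hd⟩ := h
  obtain ⟨f, hf⟩ : ∃ f : M → M, f = fun x => if h : ∃ p, w p = x then w' h.choose
    else if h : ∃ p, w' p = x then w h.choose else x := ⟨_, rfl⟩
  have h1 : ∀ p, f (w p) = w' p := by
    intro p
    have h2 : ∃ q, w q = w p := ⟨p, rfl⟩
    rw [hf]
    simp only [dif_pos h2]
    exact congrArg w' (hi h2.choose_spec)
  have h3 : ∀ p, f (w' p) = w p := by
    intro p
    have h2 : ∃ q, w' q = w' p := ⟨p, rfl⟩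
    have h4 : ¬ ∃ q, w q = w' p := by
      rintro ⟨q, hq⟩
      exact hd q p hq
    rw [hf]
    simp only [dif_neg h4, dif_pos h2]
    exact congrArg w (hi' h2.choose_spec)
  have h5 : ∀ x, x ∉ range w → x ∉ range w' → f x = x := by
    intro x hx hx'
    have h6 : ¬ ∃ p, w p = x := hx
    have h7 : ¬ ∃ p, w' p = x := hx'
    rw [hf]
    simp only [dif_neg h6, dif_neg h7]
  have h8 : Function.Involutive f := by
    intro x
    by_cases hx : x ∈ range w
    · obtain ⟨p, rfl⟩ := hx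
      rw [h1, h3]
    · by_cases hx' : x ∈ range w'
      · obtain ⟨p, rfl⟩ := hx'
        rw [h3, h1]
      · rw [h5 x hx hx', h5 x hx hx']
  exact ⟨h8.toPerm f, h1, h3, h5⟩

private theorem NAB_inv (σ : Equiv.Perm M) (x : M) : σ (σ⁻¹ x) = x :=
  σ.apply_symm_apply x

end

theorem thm_NAB : St_NAB := by
  intro L M S G n X
  refine ⟨⟨fun x => Iff.rfl, te_diag S G n fun a ha => ha.2.symm⟩, ?_, ?_, ?_⟩
  · rintro σ τ ⟨h1, h2⟩ ⟨h3, h4⟩
    refine ⟨fun x => ?_, h4.comp h2 ?_⟩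
    · rw [Equiv.Perm.mul_apply, h1, h3]
    · rintro a ⟨ha, ha'⟩
      exact ⟨τ a.1, ⟨ha, rfl⟩, (h3 _).mpr ha, ha'⟩
  · rintro σ ⟨h1, h2⟩
    refine ⟨fun x => ?_, h2.symm' ?_⟩
    · rw [← h1, NAB_inv]
    · rintro a ⟨ha, ha'⟩
      refine ⟨?_, ?_⟩
      · show a.2 ∈ X
        rw [← h1, ha', NAB_inv]
        exact ha
      · show a.1 = σ a.2
        rw [ha', NAB_inv]
  · intro β _ w w' hD hw hw'
    obtain ⟨σ, h1, h2, h3⟩ := NAB_swap w w' hD
    refine ⟨σ, h1, h2, h3, ?_⟩
    have h4 : {a : M × M | a.1 ∈ X ∧ a.2 = σ a.1} = SW X w w' := by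
      ext ⟨x, y⟩
      constructor
      · rintro ⟨hx, hy⟩
        simp only at hx hy
        subst hy
        by_cases h5 : x ∈ range w
        · obtain ⟨p, rfl⟩ := h5
          rw [h1]
          exact Or.inl (Or.inr ⟨p, rfl⟩)
        · by_cases h6 : x ∈ range w'
          · obtain ⟨p, rfl⟩ := h6
            rw [h2]
            exact Or.inr ⟨p, rfl⟩
          · rw [h3 x h5 h6]
            exact Or.inl (Or.inl ⟨rfl, hx, h5, h6⟩)
      · rintro ((⟨h5, h6, h7, h8⟩ | ⟨p, hp⟩) | ⟨p, hp⟩)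
        · simp only at h5 h6 h7 h8
          subst h5
          exact ⟨h6, (h3 x h7 h8).symm⟩
        · simp only [Prod.mk.injEq] at hp
          obtain ⟨rfl, rfl⟩ := hp
          exact ⟨hw p, (h1 p).symm⟩
        · simp only [Prod.mk.injEq] at hp
          obtain ⟨rfl, rfl⟩ := hp
          exact ⟨hw' p, (h2 p).symm⟩
    have h5 : ∀ x, σ x ∈ X ↔ x ∈ X := by
      intro x
      by_cases h5 : x ∈ range w
      · obtain ⟨p, rfl⟩ := h5
        rw [h1]
        exact ⟨fun _ => hw p, fun _ => hw' p⟩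
      · by_cases h6 : x ∈ range w'
        · obtain ⟨p, rfl⟩ := h6
          rw [h2]
          exact ⟨fun _ => hw' p, fun _ => hw p⟩
        · rw [h3 x h5 h6]
    unfold NA
    rw [h4]
    exact ⟨fun h => h.2, fun h => ⟨h5, h⟩⟩

end HERN
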