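import Pool.Agent.HERN.St
import Pool.Agent.HER.LOF

/-!
# HERN, [ORDB]: visible sequences of visible tuples are decoded
-/

set_option autoImplicit false
set_option linter.unusedVariables false
set_option linter.unusedSectionVars false

namespace HERN

open Set Pool.Agent.Helper5.DU Pool.Agent.Helper6.Str Pool.Agent.Helper79.VC
  Pool.Agent.Helper97.LO Pool.Agent.Helper97.VC HER

section

variable {L : FirstOrder.Language.{0, 0}} {M β : Type}

/-- visible sequences of visible tuples -/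
structure ORDB_H (S : L.Structure M) (G : Set M) (u : ℚ → β → M) (B : (β → M) → Prop)
    (O : (β → M) → (β → M) → Prop) : Prop where
  inj : ∀ x p y q, u x p = u y q → x = y ∧ p = q
  off : ∀ x p, u x p ∉ G
  bInv : ∀ h h', AtEq S S (dg G ∪ prs h h') → (B h ↔ B h')
  oInv : ∀ h k h' k', AtEq S S (dg G ∪ prs h h' ∪ prs k k') → (O h k ↔ O h' k')
  bu : ∀ x, B (u x)
  br : ∀ h, (∀ p, ∃ x q, h p = u x q) → B h → ∃ x, range h = range (u x)
  or : ∀ x y h k, x ≠ y → range h = range (u x) → range k = range (u y) → B h → B k →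
    (O h k ↔ x < y)

variable {S : L.Structure M} {G : Set M} {u : ℚ → β → M} {B : (β → M) → Prop}
  {O : (β → M) → (β → M) → Prop}

/-- images of blocks are blocks -/
theorem ORDB_img [Nonempty β] (H : ORDB_H S G u B O) {B₀ : Set ℚ} {a : ℚ} {k : β → M}
    (hat : AtEq S S (dg G ∪ prs (u a) k)) (hk : ∀ i, k i ∈ G ∨ ∃ b ∈ B₀, ∃ q, k i = u b q) :
    ∃ b ∈ B₀, range k = range (u b) ∧ B k := by
  have hBk : B k := (H.bInv _ _ hat).mp (H.bu a)
  have hk' : ∀ i, ∃ b ∈ B₀, ∃ q, k i = u b q := by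
    intro i
    rcases hk i with h1 | h1
    · exfalso
      have h2 := (hat.1 (u a i, k i) (Or.inr (mem_prs i)) (k i, k i)
        (Or.inl ⟨k i, h1, rfl⟩)).mpr rfl
      have h3 : u a i = k i := h2
      exact H.off a i (h3 ▸ h1)
    · exact h1
  obtain ⟨b, hb⟩ := H.br k (fun i => by
    obtain ⟨b, -, q, hq⟩ := hk' i
    exact ⟨b, q, hq⟩) hBk
  obtain ⟨i⟩ := (inferInstance : Nonempty β)
  obtain ⟨b', hb', q, hq⟩ := hk' i
  have h1 : k i ∈ range (u b) := by
    rw [← hb]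
    exact mem_range_self i
  obtain ⟨q', hq'⟩ := h1
  have h2 : b = b' := (H.inj _ _ _ _ (hq'.trans hq)).1
  subst h2
  exact ⟨b, hb', hb, hBk⟩

/-- blocks which meet -/
theorem ORDB_eq [Nonempty β] (H : ORDB_H S G u B O) {x x' y y' : ℚ} {h k h' k' : β → M}
    (hat : AtEq S S (dg G ∪ prs h k ∪ prs h' k'))
    (h1 : range h = range (u x)) (h2 : range k = range (u y))
    (h3 : range h' = range (u x')) (h4 : range k' = range (u y')) (hx : x = x') : y = y' := by
  subst hx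
  obtain ⟨i⟩ := (inferInstance : Nonempty β)
  have h5 : h i ∈ range h' := by
    rw [h3, ← h1]
    exact mem_range_self i
  obtain ⟨j, hj⟩ := h5
  have h6 := (hat.1 (h i, k i) (Or.inl (Or.inr (mem_prs i))) (h' j, k' j)
    (Or.inr (mem_prs j))).mp hj.symm
  have h7 : k i = k' j := h6
  have h8 : k i ∈ range (u y) := by
    rw [← h2]
    exact mem_range_self i
  have h9 : k' j ∈ range (u y') := by
    rw [← h4]
    exact mem_range_self j
  obtain ⟨q, hq⟩ := h8
  obtain ⟨q', hq'⟩ := h9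
  exact (H.inj _ _ _ _ (hq.trans (h7.trans hq'.symm))).1

/-- the order is preserved -/
theorem ORDB_lt [Nonempty β] (H : ORDB_H S G u B O) {x x' y y' : ℚ} {h k h' k' : β → M}
    (hat : AtEq S S (dg G ∪ prs h k ∪ prs h' k'))
    (h1 : range h = range (u x)) (h2 : range k = range (u y))
    (h3 : range h' = range (u x')) (h4 : range k' = range (u y'))
    (b1 : B h) (b2 : B k) (b3 : B h') (b4 : B k') : x < x' ↔ y < y' := by
  have hat' : AtEq S S (dg G ∪ prs k h ∪ prs k' h') := by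
    refine AtEq.symm' hat ?_
    rintro a ((⟨z, hz, rfl⟩ | ⟨i, rfl⟩) | ⟨i, rfl⟩)
    · exact Or.inl (Or.inl ⟨z, hz, rfl⟩)
    · exact Or.inl (Or.inr (mem_prs i))
    · exact Or.inr (mem_prs i)
  by_cases hx : x = x'
  · have hy := ORDB_eq H hat h1 h2 h3 h4 hx
    rw [hx, hy]
    exact ⟨fun h => absurd h (lt_irrefl _), fun h => absurd h (lt_irrefl _)⟩
  · have hy : y ≠ y' := fun hy => hx (ORDB_eq H hat' h2 h1 h4 h3 hy)
    rw [← H.or x x' h h' hx h1 h3 b1 b3, ← H.or y y' k k' hy h2 h4 b2 b4]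
    exact H.oInv _ _ _ _ hat

/-- matched blocks of two coded linear orders give equivalent linear orders -/
theorem ORDB_core [Nonempty β] (H : ORDB_H S G u B O) {m : ℕ} (e : Fin m ≃ β) {X Y : Set M}
    (A₀ B₀ : Set ℚ) (hX : ∀ a ∈ A₀, ∀ q, u a q ∈ X) (hY : ∀ b ∈ B₀, ∀ q, u b q ∈ Y)
    (hX' : ∀ x ∈ X, x ∈ G ∨ ∃ a ∈ A₀, ∃ q, x = u a q)
    (hY' : ∀ y ∈ Y, y ∈ G ∨ ∃ b ∈ B₀, ∃ q, y = u b q) (γ : Ordinal.{0}) :
    ∀ (A B' : Set ℚ) (p : Set (M × M)), A ⊆ A₀ → B' ⊆ B₀ → dg G ⊆ p →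
      (∀ a ∈ A₀, ∀ b ∈ B₀, ∀ h k, range h = range (u a) → range k = range (u b) → B h → B k →
        AtEq S S (p ∪ prs h k) → (a ∈ A ↔ b ∈ B')) →
      BFR S S X Y ((m : Ordinal.{0}) * γ) p → LE γ A B' := by
  induction γ using WellFoundedLT.induction with
  | _ γ ih =>
    intro A B' p hA hB hp hAB hb
    -- the step for a new matched pair of blocks
    have key : ∀ β' < γ, ∀ a ∈ A₀, ∀ b ∈ B₀, ∀ h k, range h = range (u a) →
        range k = range (u b) → B h → B k →
        BFR S S X Y ((m : Ordinal.{0}) * β') (p ∪ prs h k) →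
        LE β' (A ∩ Iio a) (B' ∩ Iio b) ∧ LE β' (A ∩ Ioi a) (B' ∩ Ioi b) := by
      intro β' hβ a ha b hb' h k h1 h2 b1 b2 hbf
      have hsub : ∀ h' k' : β → M, dg G ∪ prs h k ∪ prs h' k' ⊆ (p ∪ prs h k) ∪ prs h' k' := by
        intro h' k'
        exact union_subset_union_left _ (union_subset_union_left _ hp)
      have hsub2 : ∀ h' k' : β → M, dg G ∪ prs h' k' ∪ prs h k ⊆ (p ∪ prs h k) ∪ prs h' k' := by
        intro h' k'
        rintro z ((hz | hz) | hz)
        · exact Or.inl (Or.inl (hp hz))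
        · exact Or.inr hz
        · exact Or.inl (Or.inr hz)
      have hsub3 : ∀ h' k' : β → M, p ∪ prs h' k' ⊆ (p ∪ prs h k) ∪ prs h' k' := fun h' k' =>
        union_subset_union_left _ subset_union_left
      constructor
      · refine ih β' hβ _ _ _ (inter_subset_left.trans hA) (inter_subset_left.trans hB)
          (hp.trans subset_union_left) (fun a' ha' b' hb'' h' k' h3 h4 b3 b4 hat => ?_) hbf
        have e1 := hAB a' ha' b' hb'' h' k' h3 h4 b3 b4 (hat.anti (hsub3 h' k'))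
        have e2 := ORDB_lt H (hat.anti (hsub2 h' k')) h3 h4 h1 h2 b3 b4 b1 b2
        exact and_congr e1 e2
      · refine ih β' hβ _ _ _ (inter_subset_left.trans hA) (inter_subset_left.trans hB)
          (hp.trans subset_union_left) (fun a' ha' b' hb'' h' k' h3 h4 b3 b4 hat => ?_) hbf
        have e1 := hAB a' ha' b' hb'' h' k' h3 h4 b3 b4 (hat.anti (hsub3 h' k'))
        have e2 := ORDB_lt H (hat.anti (hsub h' k')) h1 h2 h3 h4 b1 b2 b3 b4
        exact and_congr e1 e2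
    rw [LOF_def]
    intro β' hβ
    have hle : (m : Ordinal.{0}) * β' + (m : Ordinal.{0}) ≤ (m : Ordinal.{0}) * γ := by
      calc (m : Ordinal.{0}) * β' + (m : Ordinal.{0}) = (m : Ordinal.{0}) * (β' + 1) := by
            rw [mul_add, mul_one]
        _ ≤ (m : Ordinal.{0}) * γ := by
            gcongr
            exact Order.add_one_le_of_lt hβ
    have hb1 : BFR S S X Y ((m : Ordinal.{0}) * β' + (m : Ordinal.{0})) p := hb.mono hle
    constructor
    · intro x hx
      obtain ⟨y, hy, h⟩ := BFR.forth_many m hb1 (fun i => u x (e i)) (fun i => hX x (hA hx) _)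
      have h' : BFR S S X Y ((m : Ordinal.{0}) * β') (p ∪ prs (u x) (fun i => y (e.symm i))) := by
        refine BFR.anti (union_subset_union_right _ ?_) h
        rintro _ ⟨i, rfl⟩
        refine ⟨e.symm i, ?_⟩
        show (_, _) = (_, _)
        rw [Equiv.apply_symm_apply]
      obtain ⟨b, hb', hr, hBk⟩ := ORDB_img H (B₀ := B₀)
        (h'.atEq.anti (union_subset_union_left _ hp)) (fun i => hY' _ (hy _))
      exact ⟨b, (hAB x (hA hx) b hb' _ _ rfl hr (H.bu x) hBk h'.atEq).mp hx,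
        key β' hβ x (hA hx) b hb' _ _ rfl hr (H.bu x) hBk h'⟩
    · intro y hy
      obtain ⟨x, hx, h⟩ := BFR.back_many m hb1 (fun i => u y (e i)) (fun i => hY y (hB hy) _)
      have h' : BFR S S X Y ((m : Ordinal.{0}) * β') (p ∪ prs (fun i => x (e.symm i)) (u y)) := by
        refine BFR.anti (union_subset_union_right _ ?_) h
        rintro _ ⟨i, rfl⟩
        refine ⟨e.symm i, ?_⟩
        show (_, _) = (_, _)
        rw [Equiv.apply_symm_apply]
      have hat : AtEq S S (dg G ∪ prs (u y) (fun i => x (e.symm i))) := by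
        refine AtEq.symm' h'.atEq ?_
        rintro a (⟨z, hz, rfl⟩ | ⟨i, rfl⟩)
        · exact Or.inl (hp ⟨z, hz, rfl⟩)
        · exact Or.inr (mem_prs i)
      obtain ⟨a, ha, hr, hBh⟩ := ORDB_img H (B₀ := A₀) hat (fun i => hX' _ (hx _))
      exact ⟨a, (hAB a ha y (hB hy) _ _ hr rfl hBh (H.bu y) h'.atEq).mpr hy,
        key β' hβ a ha y (hB hy) _ _ hr rfl hBh (H.bu y) h'⟩

private theorem ORDB_mul (m : ℕ) {γ : Ordinal.{0}} (h : γ < om1) :
    (m : Ordinal.{0}) * γ < om1 := by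
  rw [lt_om1_iff] at h ⊢
  rw [Ordinal.card_mul]
  have h2 : Ordinal.card (m : Ordinal.{0}) ≤ Cardinal.aleph0 := by
    rw [Ordinal.card_nat]
    exact Cardinal.natCast_lt_aleph0.le
  calc Ordinal.card (m : Ordinal.{0}) * γ.card ≤ Cardinal.aleph0 * Cardinal.aleph0 :=
        mul_le_mul' h2 h
    _ = Cardinal.aleph0 := Cardinal.aleph0_mul_aleph0

end

theorem thm_ORDB : St_ORDB := by
  intro L M S F hF hP G β _ _ u B O hG hFG hinj hoff hBi hOi hBu hBr hOr
  have H : ORDB_H S G u B O := ⟨hinj, hoff, hBi, hOi, hBu, hBr, hOr⟩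
  obtain ⟨I, γ, hγ, hI, hIinj⟩ := thm_LOF
  have e : Fin (Nat.card β) ≃ β := (Finite.equivFin β).symm
  obtain ⟨i₀⟩ := (inferInstance : Nonempty β)
  let X : (ℕ → Bool) → Set M := fun f => G ∪ {z | ∃ a ∈ I f, ∃ q, z = u a q}
  have hXc : ∀ f, (X f).Countable := by
    intro f
    refine hG.countable.union ?_
    have h1 : {z | ∃ a ∈ I f, ∃ q, z = u a q} ⊆ range fun z : ℚ × β => u z.1 z.2 := by
      rintro z ⟨a, -, q, rfl⟩
      exact ⟨(a, q), rfl⟩
    exact (countable_range _).mono h1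
  have hXi : ∀ f, (X f).Infinite := by
    intro f
    have h1 : ((fun a => u a i₀) '' I f).Infinite :=
      (hI f).1.image (fun a _ b _ h => (hinj _ _ _ _ h).1)
    refine h1.mono ?_
    rintro _ ⟨a, ha, rfl⟩
    exact Or.inr ⟨a, ha, i₀, rfl⟩
  obtain ⟨f, g, hfg, h⟩ := hP X G ((Nat.card β : ℕ) * γ) hG hFG (ORDB_mul _ hγ)
    fun f => ⟨hXc f, hXi f, subset_union_left⟩
  apply hfg
  apply hIinj
  exact ORDB_core H e (I f) (I g) (fun a ha q => Or.inr ⟨a, ha, q, rfl⟩)
    (fun b hb q => Or.inr ⟨b, hb, q, rfl⟩) (fun x hx => hx) (fun y hy => hy) γ (I f) (I g) (dg G)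
    Subset.rfl Subset.rfl Subset.rfl
    (fun a ha b hb _ _ _ _ _ _ _ => ⟨fun _ => hb, fun _ => ha⟩) h

end HERN
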