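import Pool.Agent.HERN.St
import Pool.Agent.HER.PR

/-!
# HERN, module PA0: two members which see the members of a family in different ways
-/

set_option autoImplicit false
set_option linter.unusedVariables false

namespace HERN

open Set Pool.Agent.Helper5.DU Pool.Agent.Helper6.Str Pool.Agent.Helper79.VC
  Pool.Agent.Helper97.LO Pool.Agent.Helper97.VC HER

/-- the classes of pairs of tuples -/
private theorem PA0_cls {L : FirstOrder.Language.{0, 0}} {M : Type} {S : L.Structure M}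
    {G : Set M} (n : ℕ) {β : Type} [Finite β] (h : FT S G) :
    ∃ (D : Type) (_ : Finite D) (cls : (β → M) → (β → M) → D),
      ∀ c w c' w', cls c w = cls c' w' ↔ TE S G n (prs c c' ∪ prs w w') := by
  obtain ⟨C, hC, t, ht⟩ := h (β ⊕ β)
  let R : Setoid ((β → M) × (β → M)) :=
    { r := fun x y => TE S G n (prs x.1 y.1 ∪ prs x.2 y.2)
      iseqv := by
        refine ⟨fun x q hq _ => ?_, fun {x y} hxy => ?_, fun {x y z} hxy hyz => ?_⟩
        · refine atEq_diag S ?_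
          rintro a (⟨b, -, rfl⟩ | ha)
          · rfl
          · rcases hq ha with ⟨i, rfl⟩ | ⟨i, rfl⟩ <;> rfl
        · refine TE.symm' hxy ?_
          rintro a (⟨i, rfl⟩ | ⟨i, rfl⟩)
          · exact Or.inl ⟨i, rfl⟩
          · exact Or.inr ⟨i, rfl⟩
        · refine TE.comp hxy hyz ?_
          rintro a (⟨i, rfl⟩ | ⟨i, rfl⟩)
          · exact ⟨y.1 i, Or.inl ⟨i, rfl⟩, Or.inl ⟨i, rfl⟩⟩
          · exact ⟨y.2 i, Or.inr ⟨i, rfl⟩, Or.inr ⟨i, rfl⟩⟩ }
  have hfin : Finite (Quotient R) := by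
    refine Finite.of_injective (fun q : Quotient R => t (Sum.elim q.out.1 q.out.2)) ?_
    intro q q' hq
    have h1 := (ht _ _).1 hq
    have h2 : R q.out q'.out := by
      intro s hs _
      refine h1.anti ?_
      rintro a (ha | ha)
      · exact Or.inl ha
      · rcases hs ha with ⟨i, rfl⟩ | ⟨i, rfl⟩
        · exact Or.inr ⟨Sum.inl i, rfl⟩
        · exact Or.inr ⟨Sum.inr i, rfl⟩
    have h3 := Quotient.sound h2
    rwa [Quotient.out_eq, Quotient.out_eq] at h3
  refine ⟨Quotient R, hfin, fun c w => Quotient.mk R (c, w), fun c w c' w' => ?_⟩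
  exact Quotient.eq (r := R)

theorem thm_PA0 : St_PA0 := by
  classical
  intro L M S G n β _ V hFT hV
  obtain ⟨D, hD, cls, hcls⟩ := PA0_cls (S := S) (G := G) n (β := β) hFT
  have hβ : Nonempty β := hV.nonempty
  have hDn : Nonempty D := by
    obtain ⟨w, -, -⟩ := hV.exists_off (countable_empty (α := M))
    exact ⟨cls w w⟩
  by_cases hI : ∃ V' ⊆ V, ¬ V'.Countable ∧ ∀ c ∈ V', ∃ t, {w ∈ V' | cls c w ≠ t}.Countable
  · left
    obtain ⟨V', hV', hu, hc⟩ := hI
    choose! tc htc using hc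
    obtain ⟨t, ht⟩ := exists_uncountable_fiber hu tc
    let V'' : Set (β → M) := {c ∈ V' | tc c = t}
    have hV'' : V'' ⊆ V := fun c hc => hV' hc.1
    have hF : Fam V'' := hV.mono hV'' ht
    let E : (β → M) → Set M := fun c => {x | ∃ w ∈ {w ∈ V' | cls c w ≠ t}, x ∈ range w}
    have hE : ∀ c ∈ V'', (E c).Countable := fun c hc => by
      have h1 := htc c hc.1
      rw [hc.2] at h1
      exact countable_ranges h1
    have hEc : ∀ c ∈ V'', ∀ w ∈ V'', Off (E c) w → cls c w = t := by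
      intro c hc w hw hoff
      by_contra hne
      obtain ⟨i⟩ := hβ
      exact hoff i ⟨w, ⟨hw.1, hne⟩, mem_range_self i⟩
    let cl : Set M → Set M := fun A => A ∪ ⋃ c ∈ {c ∈ V'' | ¬ Off A c}, E c
    have hcl : IsCl cl := by
      refine ⟨fun A B hAB => ?_, fun A => subset_union_left, fun A hA => hA.union ?_⟩
      · refine union_subset_union hAB (iUnion₂_mono' ?_)
        rintro c ⟨hc, hc'⟩
        exact ⟨c, ⟨hc, fun h => hc' (h.anti hAB)⟩, Subset.rfl⟩
      · exact Countable.biUnion (hF.ctbl hA) fun c hc => hE c hc.1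
    have hsub : ∀ c ∈ V'', E c ⊆ cl (range c) := by
      intro c hc x hx
      refine Or.inr (mem_iUnion₂.2 ⟨c, ⟨hc, fun h => ?_⟩, hx⟩)
      obtain ⟨i⟩ := hβ
      exact h i (mem_range_self i)
    refine ⟨V'', hV'', ht, cl, hcl, ?_⟩
    intro c hc w hw c' hc' w' hw' h1 h2
    rw [← hcls, hEc c hc w hw (h1.anti (hsub c hc)), hEc c' hc' w' hw' (h2.anti (hsub c' hc'))]
  · right
    have hII : ∀ V' ⊆ V, ¬ V'.Countable → ∃ c ∈ V', ∃ t0 t1, t0 ≠ t1 ∧
        ¬ {w ∈ V' | cls c w = t0}.Countable ∧ ¬ {w ∈ V' | cls c w = t1}.Countable := by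
      intro V' hV' hu
      have h1 : ∃ c ∈ V', ∀ t, ¬ {w ∈ V' | cls c w ≠ t}.Countable := by
        by_contra h2
        push Not at h2
        exact hI ⟨V', hV', hu, h2⟩
      obtain ⟨c, hc, h1⟩ := h1
      obtain ⟨t0, h2⟩ := exists_uncountable_fiber hu (cls c)
      obtain ⟨t1, h3⟩ := exists_uncountable_fiber (h1 t0) (cls c)
      have h4 : t0 ≠ t1 := by
        rintro rfl
        refine h3 ?_
        have h5 : {x ∈ {w ∈ V' | cls c w ≠ t0} | cls c x = t0} = ∅ := by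
          ext x
          constructor
          · rintro ⟨⟨-, h6⟩, h7⟩
            exact h6 h7
          · intro h6
            exact h6.elim
        rw [h5]
        exact countable_empty
      refine ⟨c, hc, t0, t1, h4, h2, fun h5 => h3 (h5.mono ?_)⟩
      rintro x ⟨⟨h6, -⟩, h7⟩
      exact ⟨h6, h7⟩
    obtain ⟨V₁, hV₁, hu₁, ⟨t0, t1⟩, hQ⟩ := thm_PR (β → M) (D × D)
      (fun t Y => t.1 ≠ t.2 ∧ ∃ c ∈ Y, ¬ {w ∈ Y | cls c w = t.1}.Countable ∧
        ¬ {w ∈ Y | cls c w = t.2}.Countable) V (by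
        rintro t Y' Y'' hY ⟨h0, c, hc, h1, h2⟩
        have h4 : ∀ t, {w ∈ Y' | cls c w = t} ⊆ {w ∈ Y'' | cls c w = t} :=
          fun t x hx => ⟨hY hx.1, hx.2⟩
        exact ⟨h0, c, hY hc, fun h3 => h1 (Countable.mono (h4 _) h3),
          fun h3 => h2 (Countable.mono (h4 _) h3)⟩) hV.unc (by
        intro V' hV' hu
        obtain ⟨c, hc, t0, t1, h0, h1, h2⟩ := hII V' hV' hu
        exact ⟨(t0, t1), h0, c, hc, h1, h2⟩)
    obtain ⟨hne, c1, hc1, h1, -⟩ := hQ V₁ Subset.rfl hu₁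
    obtain ⟨-, c2, hc2, -, h2⟩ := hQ {w ∈ V₁ | cls c1 w = t0} (fun w hw => hw.1) h1
    refine ⟨c1, hV₁ hc1, c2, hV₁ hc2.1, {w ∈ {w ∈ V₁ | cls c1 w = t0} | cls c2 w = t1},
      fun w hw => hV₁ hw.1.1, h2, ?_⟩
    rintro w ⟨⟨-, h3⟩, h4⟩ h5
    rw [← prs_self, ← hcls, h3, h4] at h5
    exact hne h5

end HERN
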