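import Pool.Agent.HERN.St

/-!
# HERN: [PA2] tuples which are not members of the family
-/

set_option autoImplicit false
set_option linter.unusedVariables false

namespace HERN

open Set Pool.Agent.Helper5.DU Pool.Agent.Helper6.Str Pool.Agent.Helper79.VC
  Pool.Agent.Helper97.LO Pool.Agent.Helper97.VC HER

private theorem PA2_encard {β M : Type} {f : β → M} (hf : Function.Injective f) :
    (range f).encard = (univ : Set β).encard := by
  rw [← image_univ, hf.encard_image]

theorem thm_PA2 (hQ : St_SQC) : St_PA2 := by
  classical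
  intro L M S G n β _ V V' cl c1 c2 hcl hV hV' hu hHM
  have hF : Fam V' := hV.mono hV' hu
  have hβ : Nonempty β := hF.nonempty
  obtain ⟨s, hs1, hs2⟩ := hQ (β → M) V'
    (fun D x => Off (cl (range c1 ∪ range c2 ∪ {y | ∃ w ∈ D, y ∈ range w})) x) (by
      intro D hD hc
      exact hF.exists_off (hcl.ctbl _ (((countable_range c1).union (countable_range c2)).union
        (countable_ranges hc))))
  have hlt : ∀ a b, a < b → ∀ p q, s a p ≠ s b q := by
    intro a b hab p q h
    refine hs2 b q (hcl.sub _ (Or.inr ⟨s a, ⟨a, hab, rfl⟩, ?_⟩))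
    rw [← h]
    exact mem_range_self p
  have hinj : Function.Injective s := by
    intro a b hab
    by_contra hne
    obtain ⟨p⟩ := hβ
    rcases lt_or_gt_of_ne hne with h | h
    · exact hlt a b h p p (by rw [hab])
    · exact hlt b a h p p (by rw [hab])
  refine ⟨range s, ?_, ?_, ?_⟩
  · rintro _ ⟨a, rfl⟩
    exact hs1 a
  · intro h
    refine not_countable_om ?_
    have h1 : (s '' univ).Countable := by rwa [image_univ]
    exact (countable_of_injective_of_countable_image hinj.injOn h1)
  · intro h hh hp hr
    have h1 : ∀ p, ∃ a, h p ∈ range (s a) := by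
      intro p
      obtain ⟨w, ⟨a, rfl⟩, hw⟩ := hp p
      exact ⟨a, hw⟩
    choose a ha using h1
    let J : Type := range a
    have : Finite J := (finite_range a).to_subtype
    have : Fintype J := Fintype.ofFinite J
    let rk : J → ℕ := fun j => (Finset.univ.filter fun i : J => i.1 < j.1).card
    have hrk : ∀ i j : J, i.1 < j.1 → rk i < rk j := by
      intro i j hij
      refine Finset.card_lt_card ⟨?_, ?_⟩
      · intro k hk
        rw [Finset.mem_filter] at hk ⊢
        exact ⟨hk.1, hk.2.trans hij⟩
      · intro hsub
        have h2 : i ∈ Finset.univ.filter fun k : J => k.1 < j.1 :=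
          Finset.mem_filter.2 ⟨Finset.mem_univ _, hij⟩
        exact lt_irrefl _ (Finset.mem_filter.1 (hsub h2)).2
    have hrk' : ∀ i j : J, rk i < rk j → i.1 < j.1 := by
      intro i j hij
      by_contra hcon
      rcases (not_lt.1 hcon).lt_or_eq with h2 | h2
      · exact absurd (hrk j i h2) (not_lt.2 hij.le)
      · rw [Subtype.ext h2] at hij
        exact lt_irrefl _ hij
    have hrki : Function.Injective rk := by
      intro i j hij
      by_contra hne
      rcases lt_or_gt_of_ne (fun h2 => hne (Subtype.ext h2) : i.1 ≠ j.1) with h2 | h2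
      · exact absurd hij (hrk i j h2).ne
      · exact absurd hij.symm (hrk j i h2).ne
    have hgen : Gen cl (range c1 ∪ range c2) rk (fun j : J => s j.1) := by
      intro j
      refine (hs2 j.1).anti (hcl.mono _ _ (union_subset_union_right _ ?_))
      rintro x ⟨i, hij, hx⟩
      exact ⟨s i.1, ⟨i.1, hrk' i j hij, rfl⟩, hx⟩
    intro q hq hn
    refine hHM J (fun j : J => s j.1) rk hrki (fun j => hV' (hs1 j.1)) hgen q ?_ hn ?_
    · intro x hx
      rcases hq hx with h2 | h2
      · exact Or.inl h2
      · obtain ⟨y, ⟨p, rfl⟩, rfl⟩ := h2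
        exact Or.inr (mem_iUnion.2 ⟨⟨a p, mem_range_self p⟩, ⟨h p, ha p, rfl⟩⟩)
    · rintro ⟨j, hj, -⟩
      have h2 : range (s j.1) ⊆ range h := by
        intro x hx
        rcases hq (hj ⟨x, hx, rfl⟩) with h3 | h3
        · exfalso
          obtain ⟨p, hp⟩ := h3
          have h4 : x = c1 p := (congrArg Prod.fst hp).symm
          obtain ⟨r, hr'⟩ := hx
          refine hs2 j.1 r (hcl.sub _ (Or.inl (Or.inl ?_)))
          rw [hr', h4]
          exact mem_range_self p
        · obtain ⟨y, hy, h4⟩ := h3
          have h5 : y = x := congrArg Prod.fst h4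
          rw [← h5]
          exact hy
      have h3 : range (s j.1) = range h := by
        refine (finite_range _).eq_of_subset_of_encard_le h2 (le_of_eq ?_)
        rw [PA2_encard hh, PA2_encard (hV.inj (hV' (hs1 j.1)))]
      exact hr (s j.1) (mem_range_self _) h3.symm

end HERN
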