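import Pool.Agent.HERN.St

/-!
# HERN: generic pairs in visible families
-/

set_option autoImplicit false
set_option linter.unusedVariables false
set_option linter.unusedSectionVars false

namespace HERN

open Set Pool.Agent.Helper5.DU Pool.Agent.Helper6.Str Pool.Agent.Helper79.VC
  Pool.Agent.Helper97.LO Pool.Agent.Helper97.VC HER

section

variable {L : FirstOrder.Language.{0, 0}} {M β : Type} {S : L.Structure M} {G D : Set M} {n : ℕ}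

/-! ## The group of relabellings -/

private theorem PA5_ai (π : Equiv.Perm β) (i : β) : π (π⁻¹ i) = i := π.apply_symm_apply i

private theorem PA5_one (w : β → M) : TE S G n (dg D ∪ prs (w ∘ (1 : Equiv.Perm β)) w) := by
  refine te_diag S G n ?_
  rintro a (⟨x, -, rfl⟩ | ⟨i, rfl⟩)
  · rfl
  · rfl

private theorem PA5_mul {w : β → M} {π ρ : Equiv.Perm β}
    (h1 : TE S G n (dg D ∪ prs (w ∘ π) w)) (h2 : TE S G n (dg D ∪ prs (w ∘ ρ) w)) :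
    TE S G n (dg D ∪ prs (w ∘ (π * ρ : Equiv.Perm β)) w) := by
  refine h1.comp h2 ?_
  rintro a (⟨x, hx, rfl⟩ | ⟨i, rfl⟩)
  · exact ⟨x, Or.inl ⟨x, hx, rfl⟩, Or.inl ⟨x, hx, rfl⟩⟩
  · exact ⟨w (ρ i), Or.inr ⟨ρ i, rfl⟩, Or.inr ⟨i, rfl⟩⟩

private theorem PA5_inv {w : β → M} {π : Equiv.Perm β}
    (h1 : TE S G n (dg D ∪ prs (w ∘ π) w)) :
    TE S G n (dg D ∪ prs (w ∘ (π⁻¹ : Equiv.Perm β)) w) := by
  refine h1.symm' ?_
  rintro a (⟨x, hx, rfl⟩ | ⟨i, rfl⟩)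
  · exact Or.inl ⟨x, hx, rfl⟩
  · refine Or.inr ⟨π⁻¹ i, ?_⟩
    show (w (π (π⁻¹ i)), w (π⁻¹ i)) = (w i, w (π⁻¹ i))
    rw [PA5_ai]

private theorem PA5_ch {w w' : β → M} {π : Equiv.Perm β} (h0 : TE S G n (dg D ∪ prs w w'))
    (h1 : TE S G n (dg D ∪ prs (w ∘ π) w)) : TE S G n (dg D ∪ prs (w' ∘ π) w') := by
  have h0' : TE S G n (dg D ∪ prs w' w) := by
    refine h0.symm' ?_
    rintro a (⟨x, hx, rfl⟩ | ⟨i, rfl⟩)
    · exact Or.inl ⟨x, hx, rfl⟩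
    · exact Or.inr ⟨i, rfl⟩
  have h2 : TE S G n (dg D ∪ prs (w' ∘ π) w) := by
    refine h0'.comp h1 ?_
    rintro a (⟨x, hx, rfl⟩ | ⟨i, rfl⟩)
    · exact ⟨x, Or.inl ⟨x, hx, rfl⟩, Or.inl ⟨x, hx, rfl⟩⟩
    · exact ⟨w (π i), Or.inr ⟨π i, rfl⟩, Or.inr ⟨i, rfl⟩⟩
  refine h2.comp h0 ?_
  rintro a (⟨x, hx, rfl⟩ | ⟨i, rfl⟩)
  · exact ⟨x, Or.inl ⟨x, hx, rfl⟩, Or.inl ⟨x, hx, rfl⟩⟩
  · exact ⟨w i, Or.inr ⟨i, rfl⟩, Or.inr ⟨i, rfl⟩⟩

/-! ## The colours -/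

private theorem PA5_refl (w w' v v' : β → M) (h : TE S G n (prs w v ∪ prs w' v')) :
    ColE S G n D w w' v v' :=
  ⟨1, 1, PA5_one w, PA5_one w', h⟩

private theorem PA5_symm {w w' v v' : β → M} (hw : TE S G n (dg D ∪ prs w v))
    (hw' : TE S G n (dg D ∪ prs w' v')) (h : ColE S G n D w w' v v') :
    ColE S G n D v v' w w' := by
  obtain ⟨π, π', h1, h2, h3⟩ := h
  refine ⟨π⁻¹, π'⁻¹, PA5_inv (PA5_ch hw h1), PA5_inv (PA5_ch hw' h2), h3.symm' ?_⟩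
  rintro a (⟨i, rfl⟩ | ⟨i, rfl⟩)
  · refine Or.inl ⟨π⁻¹ i, ?_⟩
    show (w (π (π⁻¹ i)), v (π⁻¹ i)) = (w i, v (π⁻¹ i))
    rw [PA5_ai]
  · refine Or.inr ⟨π'⁻¹ i, ?_⟩
    show (w' (π' (π'⁻¹ i)), v' (π'⁻¹ i)) = (w' i, v' (π'⁻¹ i))
    rw [PA5_ai]

private theorem PA5_trans {w w' v v' u u' : β → M} (hw : TE S G n (dg D ∪ prs v w))
    (hw' : TE S G n (dg D ∪ prs v' w')) (h : ColE S G n D w w' v v')
    (h' : ColE S G n D v v' u u') : ColE S G n D w w' u u' := by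
  obtain ⟨π, π', h1, h2, h3⟩ := h
  obtain ⟨ρ, ρ', k1, k2, k3⟩ := h'
  refine ⟨π * ρ, π' * ρ', PA5_mul h1 (PA5_ch hw k1), PA5_mul h2 (PA5_ch hw' k2), ?_⟩
  refine h3.comp k3 ?_
  rintro a (⟨i, rfl⟩ | ⟨i, rfl⟩)
  · exact ⟨v (ρ i), Or.inl ⟨ρ i, rfl⟩, Or.inl ⟨i, rfl⟩⟩
  · exact ⟨v' (ρ' i), Or.inr ⟨ρ' i, rfl⟩, Or.inr ⟨i, rfl⟩⟩

private theorem PA5_swap {w w' v v' : β → M} (h : ColE S G n D w w' v v') :
    ColE S G n D w' w v' v := by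
  obtain ⟨π, π', h1, h2, h3⟩ := h
  exact ⟨π', π, h2, h1, by rwa [union_comm]⟩

/-- the colours, as a setoid -/
private def PA5_set {V : Set (β → M)} (hV : ∀ w ∈ V, ∀ w' ∈ V, TE S G n (dg D ∪ prs w w')) :
    Setoid (V × V) where
  r := fun a b => ColE S G n D (a.1 : β → M) a.2 b.1 b.2
  iseqv :=
    { refl := fun a => PA5_refl _ _ _ _ (te_diag S G n (by
        rintro x (⟨i, rfl⟩ | ⟨i, rfl⟩)
        · rfl
        · rfl))
      symm := fun {a b} h => PA5_symm (hV _ a.1.2 _ b.1.2) (hV _ a.2.2 _ b.2.2) h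
      trans := fun {a b c} h h' =>
        PA5_trans (hV _ b.1.2 _ a.1.2) (hV _ b.2.2 _ a.2.2) h h' }

/-! ## Two pairs of the same symmetric colour -/

private theorem PA5_key {w w' v v' : β → M}
    (hT : ∀ π : Equiv.Perm β, TE S G n (dg D ∪ prs (w' ∘ π) w') →
      TE S G n (dg (range w) ∪ prs (w' ∘ π) w'))
    (hT' : ∀ π : Equiv.Perm β, TE S G n (dg D ∪ prs (v' ∘ π) v') →
      TE S G n (dg (range v) ∪ prs (v' ∘ π) v'))
    (hwv : TE S G n (dg D ∪ prs w v'))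
    (h1 : ColE S G n D w w' v v') (h2 : ColE S G n D w w' v' v) :
    TE S G n (prs w v ∪ prs w' v') := by
  obtain ⟨π, π', a1, a2, a3⟩ := h1
  obtain ⟨ρ, ρ', b1, b2, b3⟩ := h2
  -- (1)
  have e1 : TE S G n (prs (w ∘ π) v ∪ prs w' v') := by
    refine ((hT π' a2).symm' (r := dg (range w) ∪ prs w' (w' ∘ π')) ?_).comp a3 ?_
    · rintro a (⟨x, hx, rfl⟩ | ⟨i, rfl⟩)
      · exact Or.inl ⟨x, hx, rfl⟩
      · exact Or.inr ⟨i, rfl⟩
    · rintro a (⟨i, rfl⟩ | ⟨i, rfl⟩)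
      · exact ⟨w (π i), Or.inl ⟨w (π i), ⟨π i, rfl⟩, rfl⟩, Or.inl ⟨i, rfl⟩⟩
      · exact ⟨w' (π' i), Or.inr ⟨i, rfl⟩, Or.inr ⟨i, rfl⟩⟩
  -- (3)
  have e3 : TE S G n (prs (w ∘ ρ) v' ∪ prs w' v) := by
    refine ((hT ρ' b2).symm' (r := dg (range w) ∪ prs w' (w' ∘ ρ')) ?_).comp b3 ?_
    · rintro a (⟨x, hx, rfl⟩ | ⟨i, rfl⟩)
      · exact Or.inl ⟨x, hx, rfl⟩
      · exact Or.inr ⟨i, rfl⟩
    · rintro a (⟨i, rfl⟩ | ⟨i, rfl⟩)
      · exact ⟨w (ρ i), Or.inl ⟨w (ρ i), ⟨ρ i, rfl⟩, rfl⟩, Or.inl ⟨i, rfl⟩⟩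
      · exact ⟨w' (ρ' i), Or.inr ⟨i, rfl⟩, Or.inr ⟨i, rfl⟩⟩
  -- (2)
  have e2 : TE S G n (prs (w ∘ π) w ∪ dg (range w')) := by
    have hσ : TE S G n (dg D ∪ prs (v' ∘ (ρ⁻¹ * π * ρ : Equiv.Perm β)) v') :=
      PA5_ch hwv (PA5_mul (PA5_mul (PA5_inv b1) a1) b1)
    have f1 := hT' _ hσ
    have f2 : TE S G n (prs (w ∘ (π * ρ : Equiv.Perm β)) v' ∪ prs w' v) := by
      refine e3.comp f1 ?_
      rintro a (⟨i, rfl⟩ | ⟨i, rfl⟩)
      · refine ⟨v' ((ρ⁻¹ * π * ρ : Equiv.Perm β) i), Or.inl ⟨(ρ⁻¹ * π * ρ : Equiv.Perm β) i, ?_⟩,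
          Or.inr ⟨i, rfl⟩⟩
        show (w (ρ (ρ⁻¹ (π (ρ i)))), v' (ρ⁻¹ (π (ρ i)))) = (w (π (ρ i)), v' (ρ⁻¹ (π (ρ i))))
        rw [PA5_ai]
      · exact ⟨v i, Or.inr ⟨i, rfl⟩, Or.inl ⟨v i, ⟨i, rfl⟩, rfl⟩⟩
    refine f2.comp (e3.symm' (r := prs v' (w ∘ ρ) ∪ prs v w') ?_) ?_
    · rintro a (⟨i, rfl⟩ | ⟨i, rfl⟩)
      · exact Or.inl ⟨i, rfl⟩
      · exact Or.inr ⟨i, rfl⟩
    · rintro a (⟨i, rfl⟩ | ⟨x, ⟨i, rfl⟩, rfl⟩)
      · refine ⟨v' (ρ⁻¹ i), Or.inl ⟨ρ⁻¹ i, ?_⟩, Or.inl ⟨ρ⁻¹ i, ?_⟩⟩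
        · show (w (π (ρ (ρ⁻¹ i))), v' (ρ⁻¹ i)) = (w (π i), v' (ρ⁻¹ i))
          rw [PA5_ai]
        · show (v' (ρ⁻¹ i), w (ρ (ρ⁻¹ i))) = (v' (ρ⁻¹ i), w i)
          rw [PA5_ai]
      · exact ⟨v i, Or.inr ⟨i, rfl⟩, Or.inr ⟨i, rfl⟩⟩
  refine (e2.symm' (r := prs w (w ∘ π) ∪ dg (range w')) ?_).comp e1 ?_
  · rintro a (⟨i, rfl⟩ | ⟨x, hx, rfl⟩)
    · exact Or.inl ⟨i, rfl⟩
    · exact Or.inr ⟨x, hx, rfl⟩
  · rintro a (⟨i, rfl⟩ | ⟨i, rfl⟩)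
    · exact ⟨w (π i), Or.inl ⟨i, rfl⟩, Or.inl ⟨i, rfl⟩⟩
    · exact ⟨w' i, Or.inr ⟨w' i, ⟨i, rfl⟩, rfl⟩, Or.inr ⟨i, rfl⟩⟩

/-! ## Finitely many colours -/

private theorem PA5_fin [Finite β] (hFT : FT S G) {V : Set (β → M)}
    (hV : ∀ w ∈ V, ∀ w' ∈ V, TE S G n (dg D ∪ prs w w')) : Finite (Quotient (PA5_set hV)) := by
  obtain ⟨C, hC, t, ht⟩ := hFT (β ⊕ β)
  refine Finite.of_injective (fun c : Quotient (PA5_set hV) =>
    t (Sum.elim (c.out.1 : β → M) (c.out.2 : β → M))) ?_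
  intro c c' h
  have h1 := (ht _ _).1 h
  rw [← Quotient.out_eq c, ← Quotient.out_eq c']
  apply Quotient.sound
  refine PA5_refl _ _ _ _ ?_
  intro q hq _
  refine h1.anti ?_
  rintro a (ha | ha)
  · exact Or.inl ha
  · refine Or.inr ?_
    rcases hq ha with ⟨i, rfl⟩ | ⟨i, rfl⟩
    · exact ⟨Sum.inl i, rfl⟩
    · exact ⟨Sum.inr i, rfl⟩

end

theorem thm_PA5 (hA : St_CLAA) (hC : St_PAC) (hR : St_PAR) (hS : St_PAS) : St_PA5 := by
  intro L M S F G n β _ V D hCx hG hFG hD hn hVis hT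
  have hV := hVis.eqD
  let st := PA5_set hV
  let C : Type := Quotient st
  have hfin : Finite C := PA5_fin (hCx.ft G hG hFG) hV
  let col : V → V → C := fun w w' => Quotient.mk st (w, w')
  have hcol : ∀ w w' v v' : V, col w w' = col v v' ↔ ColE S G n D (w : β → M) w' v v' := by
    intro w w' v v'
    constructor
    · intro h
      exact Quotient.exact h
    · intro h
      exact Quotient.sound (s := st) h
  let inv : C → C := Quotient.map Prod.swap (fun a b h => PA5_swap h)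
  have hinv : ∀ w w' : V, inv (col w w') = col w' w := fun w w' => rfl
  have hCSA : CSA inv col := by
    refine ⟨?_, fun x y => rfl, ?_, ?_, ?_⟩
    · intro c
      induction c using Quotient.inductionOn with
      | h a => rfl
    · intro k a φ X hX
      exact hC L M S F G n β V D C col hCx.fin hCx.pig hG hFG hD hn hVis hcol k a φ X hX
    · intro i κ hi hκ
      have h1 := hR L M S F G n β V D hCx.fin hCx.ord hG hFG hD hn hVis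
        (fun x => (i x : β → M)) (fun x y h => hi (Subtype.ext h)) (fun x => (i x).2)
        (fun x y x' y' h h' => (hcol _ _ _ _).1 ((hκ x y h).trans (hκ x' y' h').symm)) 0 1
        (by norm_num)
      have h2 := (hcol (i 0) (i 1) (i 1) (i 0)).2 h1
      rw [← hκ 0 1 (by norm_num), hinv]
      exact h2.symm
    · intro s κ hs hκ
      obtain ⟨x, y, hxy⟩ : ∃ x y : Om, x < y := by
        have hinf := infinite_om
        obtain ⟨x, y, hne⟩ := exists_pair_ne Om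
        rcases lt_or_gt_of_ne hne with h | h
        · exact ⟨x, y, h⟩
        · exact ⟨y, x, h⟩
      have h1 := hS L M S F G n β V D hCx.vq hG hFG hD hn hVis
        (fun x => (s x : β → M)) (fun x y h => hs (Subtype.ext h)) (fun x => (s x).2)
        (fun x y x' y' h h' => (hcol _ _ _ _).1 ((hκ x y h).trans (hκ x' y' h').symm)) x y hxy
      have h2 := (hcol (s x) (s y) (s y) (s x)).2 h1
      rw [← hκ x y hxy, hinv]
      exact h2.symm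
  have hunc : ¬ (univ : Set V).Countable := by
    intro h
    refine hVis.fam.unc ?_
    have := h.image (Subtype.val : V → (β → M))
    rwa [image_univ, Subtype.range_coe] at this
  obtain ⟨Y, -, hYu, κ, hκ, hHom⟩ := hA V C inv col univ hCSA hunc
  have hβ : Nonempty β := hVis.fam.nonempty
  choose! E hE1 hE2 using hT
  have hsub : Subtype.val '' Y ⊆ V := by
    rintro _ ⟨w, -, rfl⟩
    exact w.2
  refine ⟨Subtype.val '' Y, hsub, ?_, fun A => A ∪ ⋃ w ∈ {w ∈ V | ¬ Off A w}, E w, ?_, ?_⟩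
  · intro h
    refine hYu ?_
    have := h.preimage (Subtype.val_injective : Function.Injective (Subtype.val : V → (β → M)))
    rwa [preimage_image_eq _ Subtype.val_injective] at this
  · refine ⟨fun A B hAB => ?_, fun A => subset_union_left, fun A hA => ?_⟩
    · refine union_subset_union hAB ?_
      refine biUnion_subset_biUnion_left ?_
      rintro w ⟨hw, hw'⟩
      exact ⟨hw, fun h => hw' (h.anti hAB)⟩
    · exact hA.union ((hVis.fam.ctbl hA).biUnion fun w hw => hE1 w hw.1)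
  · rintro _ ⟨w, hw, rfl⟩ _ ⟨w', hw', rfl⟩ _ ⟨v, hv, rfl⟩ _ ⟨v', hv', rfl⟩ h1 h2
    obtain ⟨i0⟩ := hβ
    have g1 : ∀ (x y : V), Off (range (x : β → M) ∪
        ⋃ w ∈ {w ∈ V | ¬ Off (range (x : β → M)) w}, E w) (y : β → M) →
        x ≠ y ∧ Off (E (x : β → M)) (y : β → M) := by
      intro x y h
      constructor
      · intro hxy
        refine h i0 (Or.inl ⟨i0, ?_⟩)
        rw [hxy]
      · refine h.anti (subset_union_of_subset_right ?_ _)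
        refine subset_biUnion_of_mem (u := fun w => E w) ?_
        exact ⟨x.2, fun h' => h' i0 ⟨i0, rfl⟩⟩
    obtain ⟨hne1, ho1⟩ := g1 w w' h1
    obtain ⟨hne2, ho2⟩ := g1 v v' h2
    have c1 : col w w' = κ := hHom w hw w' hw' hne1
    have c2 : col v v' = κ := hHom v hv v' hv' hne2
    have c3 : col v' v = κ := by rw [← hinv, c2, hκ]
    exact PA5_key (fun π h => hE2 w w.2 w' w'.2 ho1 π h) (fun π h => hE2 v v.2 v' v'.2 ho2 π h)
      (hV w w.2 v' v'.2) ((hcol _ _ _ _).1 (c1.trans c2.symm))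
      ((hcol _ _ _ _).1 (c1.trans c3.symm))

end HERN
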