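import Pool.Agent.HERN.St
import Pool.Agent.HER.CNT

/-!
# HERN [PAC]: the counting invariants
-/

set_option autoImplicit false
set_option linter.unusedVariables false

namespace HERN

open Set Pool.Agent.Helper5.DU Pool.Agent.Helper6.Str Pool.Agent.Helper79.VC
  Pool.Agent.Helper97.LO Pool.Agent.Helper97.VC HER

variable {L : FirstOrder.Language.{0, 0}} {M N : Type} {S : L.Structure M}
  {S' : L.Structure N}

theorem PAC_forth {U : Set M} {V : Set N} {ι : Type} [Finite ι] {γ : Ordinal.{0}}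
    {p : Set (M × N)} (h : BFR S S' U V (γ + (Nat.card ι : ℕ)) p) (x : ι → M)
    (hx : ∀ i, x i ∈ U) :
    ∃ y : ι → N, (∀ i, y i ∈ V) ∧ BFR S S' U V γ (p ∪ prs x y) := by
  let e := Finite.equivFin ι
  obtain ⟨y, hy, h1⟩ := BFR.forth_many (Nat.card ι) h (fun k => x (e.symm k)) (fun k => hx _)
  refine ⟨fun i => y (e i), fun i => hy _, BFR.anti ?_ h1⟩
  rintro a (ha | ⟨i, rfl⟩)
  · exact Or.inl ha
  · refine Or.inr ⟨e i, ?_⟩
    simp only [Equiv.symm_apply_apply]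

theorem PAC_back {U : Set M} {V : Set N} {ι : Type} [Finite ι] {γ : Ordinal.{0}}
    {p : Set (M × N)} (h : BFR S S' U V (γ + (Nat.card ι : ℕ)) p) (y : ι → N)
    (hy : ∀ i, y i ∈ V) :
    ∃ x : ι → M, (∀ i, x i ∈ U) ∧ BFR S S' U V γ (p ∪ prs x y) := by
  let e := Finite.equivFin ι
  obtain ⟨x, hx, h1⟩ := BFR.back_many (Nat.card ι) h (fun k => y (e.symm k)) (fun k => hy _)
  refine ⟨fun i => x (e i), fun i => hx _, BFR.anti ?_ h1⟩
  rintro a (ha | ⟨i, rfl⟩)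
  · exact Or.inl ha
  · refine Or.inr ⟨e i, ?_⟩
    simp only [Equiv.symm_apply_apply]

section

variable {G D : Set M} {n : ℕ} {β : Type} {V : Set (β → M)}

/-- `v` corresponds to `v'` in `p` up to a relabelling -/
def PAC_cor (S : L.Structure M) (G D : Set M) (n : ℕ) (p : Set (M × M)) (v v' : β → M) : Prop :=
  ∃ π : Equiv.Perm β, prs v (v' ∘ π) ⊆ p ∧ TE S G n (dg D ∪ prs (v' ∘ π) v')

theorem PAC_cor.mono {p q : Set (M × M)} {v v' : β → M} (h : PAC_cor S G D n p v v')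
    (hpq : p ⊆ q) : PAC_cor S G D n q v v' := by
  obtain ⟨π, h1, h2⟩ := h
  exact ⟨π, h1.trans hpq, h2⟩

theorem PAC_cor_self {p : Set (M × M)} {v : β → M} (h : dg (range v) ⊆ p) :
    PAC_cor S G D n p v v := by
  refine ⟨1, ?_, te_diag S G n ?_⟩
  · rintro _ ⟨i, rfl⟩
    exact h ⟨v i, mem_range_self i, rfl⟩
  · rintro a (⟨x, -, rfl⟩ | ⟨i, rfl⟩)
    · rfl
    · rfl

theorem PAC_cor_swap (hV : Vis S G n D V) {p q : Set (M × M)} (hq : ∀ a ∈ p, (a.2, a.1) ∈ q)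
    {v v' : β → M} (hv : v ∈ V) (hv' : v' ∈ V)
    (h : PAC_cor S G D n p v v') : PAC_cor S G D n q v' v := by
  obtain ⟨π, h1, h2⟩ := h
  refine ⟨π.symm, ?_, ?_⟩
  · rintro _ ⟨i, rfl⟩
    have h3 : (v (π.symm i), v' (π (π.symm i))) ∈ p := h1 ⟨π.symm i, rfl⟩
    rw [Equiv.apply_symm_apply] at h3
    exact hq _ h3
  · -- `v (π⁻¹ i) → v' (π⁻¹ i) → v' i → v i`
    have h3 : TE S G n (dg D ∪ prs (v' ∘ π.symm) v') := by
      refine h2.symm' ?_
      rintro a (⟨x, hx, rfl⟩ | ⟨i, rfl⟩)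
      · exact Or.inl ⟨x, hx, rfl⟩
      · refine Or.inr ⟨π.symm i, ?_⟩
        simp
    have h4 := (hV.eqD v hv v' hv').comp h3 (r := dg D ∪ prs (v ∘ π.symm) v') (by
      rintro a (⟨x, hx, rfl⟩ | ⟨i, rfl⟩)
      · exact ⟨x, Or.inl ⟨x, hx, rfl⟩, Or.inl ⟨x, hx, rfl⟩⟩
      · exact ⟨v' (π.symm i), Or.inr ⟨π.symm i, rfl⟩, Or.inr ⟨i, rfl⟩⟩)
    refine h4.comp (hV.eqD v' hv' v hv) ?_
    rintro a (⟨x, hx, rfl⟩ | ⟨i, rfl⟩)
    · exact ⟨x, Or.inl ⟨x, hx, rfl⟩, Or.inl ⟨x, hx, rfl⟩⟩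
    · exact ⟨v' i, Or.inr ⟨i, rfl⟩, Or.inr ⟨i, rfl⟩⟩

theorem PAC_eq (hV : Fam V) [Nonempty β] {p : Set (M × M)} (hp : AtEq S S p)
    {v v' w w' : β → M} (hv : v ∈ V) (hv' : v' ∈ V) (hw : w ∈ V) (hw' : w' ∈ V)
    (h : PAC_cor S G D n p v v') (h' : PAC_cor S G D n p w w') : v = w ↔ v' = w' := by
  obtain ⟨π, h1, -⟩ := h
  obtain ⟨π', h2, -⟩ := h'
  obtain ⟨i⟩ := ‹Nonempty β›
  constructor
  · rintro rfl
    have h3 := (hp.1 _ (h1 ⟨i, rfl⟩) _ (h2 ⟨i, rfl⟩)).1 rfl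
    exact (hV.dis _ hv' _ hw' _ _ h3).1
  · rintro rfl
    have h3 := (hp.1 _ (h1 ⟨i, rfl⟩) _ (h2 ⟨π'.symm (π i), rfl⟩)).2 (by simp)
    exact (hV.dis _ hv _ hw _ _ h3).1

theorem PAC_cole {p : Set (M × M)} (hp : AtEq S S p) (hG : dg G ⊆ p)
    {v v' w w' : β → M} (h : PAC_cor S G D n p v v') (h' : PAC_cor S G D n p w w') :
    ColE S G n D v' w' v w := by
  obtain ⟨π, h1, h2⟩ := h
  obtain ⟨π', h1', h2'⟩ := h'
  refine ⟨π, π', h2, h2', ?_⟩
  intro q hq _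
  refine AtEq.symm' hp ?_
  rintro a (⟨x, hx, rfl⟩ | ha)
  · exact hG ⟨x, hx, rfl⟩
  · rcases hq ha with ⟨i, rfl⟩ | ⟨i, rfl⟩
    · exact h1 ⟨i, rfl⟩
    · exact h1' ⟨i, rfl⟩

variable {C : Type} {col : V → V → C} {k : ℕ} {a : Fin k → V}
  {φ : (Fin k → C) → (Fin k → C) → C → Prop}

theorem PAC_rg (hV : Fam V) [Nonempty β] {p : Set (M × M)} (hp : AtEq S S p)
    (ha : ∀ i, dg (range (a i).1) ⊆ p) {v v' : V} (h : PAC_cor S G D n p v.1 v'.1) :
    v ∈ range a ↔ v' ∈ range a := by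
  constructor
  · rintro ⟨i, hi⟩
    refine ⟨i, ?_⟩
    rw [Subtype.ext_iff] at hi ⊢
    exact (PAC_eq hV hp (a i).2 (a i).2 v.2 v'.2 (PAC_cor_self (ha i)) h).1 hi
  · rintro ⟨i, hi⟩
    refine ⟨i, ?_⟩
    rw [Subtype.ext_iff] at hi ⊢
    exact (PAC_eq hV hp (a i).2 (a i).2 v.2 v'.2 (PAC_cor_self (ha i)) h).2 hi

theorem PAC_rl (hV : Fam V) [Nonempty β]
    (hcol : ∀ w w' v v' : V, col w w' = col v v' ↔ ColE S G n D (w : β → M) w' v v')
    {p : Set (M × M)} (hp : AtEq S S p) (hG : dg G ⊆ p)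
    (ha : ∀ i, dg (range (a i).1) ⊆ p) {v v' w w' : V} (h : PAC_cor S G D n p v.1 v'.1)
    (h' : PAC_cor S G D n p w.1 w'.1) : Rl col a φ v w ↔ Rl col a φ v' w' := by
  have h1 : v = w ↔ v' = w' := by
    rw [Subtype.ext_iff, Subtype.ext_iff]
    exact PAC_eq hV hp v.2 v'.2 w.2 w'.2 h h'
  have h2 : (fun i => col (a i) v') = fun i => col (a i) v :=
    funext fun i => (hcol _ _ _ _).2 (PAC_cole hp hG (PAC_cor_self (ha i)) h)
  have h3 : (fun i => col (a i) w') = fun i => col (a i) w :=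
    funext fun i => (hcol _ _ _ _).2 (PAC_cole hp hG (PAC_cor_self (ha i)) h')
  have h4 : col v' w' = col v w := (hcol _ _ _ _).2 (PAC_cole hp hG h h')
  unfold Rl
  rw [h2, h3, h4, ne_eq, ne_eq, h1]

/-- the elements of the members -/
def PAC_el (G D : Set M) (X : Set V) : Set M := G ∪ D ∪ {x | ∃ w ∈ X, x ∈ range w.1}

theorem PAC_lift (hV : Vis S G n D V) [Finite β] [Nonempty β] {Y : Set V} {p : Set (M × M)}
    (hp : AtEq S S p) (hG : dg (G ∪ D) ⊆ p) (ha : ∀ i, dg (range (a i).1) ⊆ p) {v : V}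
    (hva : v ∉ range a) {h : β → M} (hh : prs v.1 h ⊆ p) (hY : ∀ q, h q ∈ PAC_el G D Y) :
    ∃ v' ∈ Y, PAC_cor S G D n p v.1 v'.1 := by
  have hGp : dg G ⊆ p := (dg_mono subset_union_left).trans hG
  have hDp : dg D ⊆ p := (dg_mono subset_union_right).trans hG
  -- `h` avoids the constants
  have h1 : ∀ q, h q ∉ G ∪ D := by
    intro q hq
    have h2 := (hp.1 _ (hh ⟨q, rfl⟩) _ (hG ⟨h q, hq, rfl⟩)).2 rfl
    simp only at h2
    apply hV.off v.1 v.2 q
    rw [h2]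
    exact hq
  have h2 : ∀ q, ∃ w ∈ Y, h q ∈ range w.1 := by
    intro q
    rcases hY q with h3 | h3
    · exact absurd h3 (h1 q)
    · exact h3
  have hte : TE S G n (dg D ∪ prs h v.1) := by
    intro q hq _
    refine AtEq.symm' hp ?_
    rintro b (⟨x, hx, rfl⟩ | hb)
    · exact hGp ⟨x, hx, rfl⟩
    · rcases hq hb with ⟨x, hx, rfl⟩ | ⟨i, rfl⟩
      · exact hDp ⟨x, hx, rfl⟩
      · exact hh ⟨i, rfl⟩
  obtain ⟨v', hv', hr⟩ := hV.vis h (fun q => by
    obtain ⟨w, hw, hqw⟩ := h2 q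
    exact ⟨w.1, w.2, hqw⟩) ⟨v.1, v.2, hte⟩
  obtain ⟨q0⟩ := ‹Nonempty β›
  have hv'Y : (⟨v', hv'⟩ : V) ∈ Y := by
    obtain ⟨w, hw, i, hi⟩ := h2 q0
    have h3 : h q0 ∈ range v' := by
      rw [← hr]
      exact mem_range_self q0
    obtain ⟨j, hj⟩ := h3
    have h4 := (hV.fam.dis v' hv' w.1 w.2 j i (by rw [hj, hi])).1
    have h5 : (⟨v', hv'⟩ : V) = w := Subtype.ext h4
    rw [h5]
    exact hw
  have hinj : Function.Injective h := by
    intro i j hij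
    exact hV.fam.inj v.2 ((hp.1 _ (hh ⟨i, rfl⟩) _ (hh ⟨j, rfl⟩)).2 hij)
  have h3 : ∀ q, ∃ q', v' q' = h q := by
    intro q
    have h4 : h q ∈ range v' := by
      rw [← hr]
      exact mem_range_self q
    exact h4
  choose π hπ using h3
  have hπinj : Function.Injective π := by
    intro i j hij
    apply hinj
    rw [← hπ i, ← hπ j, hij]
  let π' : Equiv.Perm β := Equiv.ofBijective π (Finite.injective_iff_bijective.1 hπinj)
  have hπ' : v' ∘ π' = h := funext hπ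
  refine ⟨⟨v', hv'⟩, hv'Y, π', ?_, ?_⟩
  · change prs v.1 (v' ∘ π') ⊆ p
    rw [hπ']
    exact hh
  · change TE S G n (dg D ∪ prs (v' ∘ π') v')
    rw [hπ']
    refine hte.comp (hV.eqD v.1 v.2 v' hv') ?_
    rintro b (⟨x, hx, rfl⟩ | ⟨i, rfl⟩)
    · exact ⟨x, Or.inl ⟨x, hx, rfl⟩, Or.inl ⟨x, hx, rfl⟩⟩
    · exact ⟨v.1 i, Or.inr ⟨i, rfl⟩, Or.inr ⟨i, rfl⟩⟩

theorem PAC_lift' (hV : Vis S G n D V) [Finite β] [Nonempty β] {X : Set V} {p : Set (M × M)}
    (hp : AtEq S S p) (hG : dg (G ∪ D) ⊆ p) (ha : ∀ i, dg (range (a i).1) ⊆ p) {v' : V}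
    (hva : v' ∉ range a) {h : β → M} (hh : prs h v'.1 ⊆ p) (hX : ∀ q, h q ∈ PAC_el G D X) :
    ∃ v ∈ X, PAC_cor S G D n p v.1 v'.1 := by
  obtain ⟨v, hv, h1⟩ := PAC_lift (p := Prod.swap ⁻¹' p) hV (AtEq.symm' hp fun a ha => ha)
    (by
      rintro _ ⟨x, hx, rfl⟩
      exact hG ⟨x, hx, rfl⟩)
    (by
      rintro i _ ⟨x, hx, rfl⟩
      exact ha i ⟨x, hx, rfl⟩) hva (h := h) (by
      rintro _ ⟨i, rfl⟩
      exact hh ⟨i, rfl⟩) hX
  exact ⟨v, hv, PAC_cor_swap hV (q := p) (fun a ha => ha) v'.2 v.2 h1⟩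

theorem PAC_sub (hV : Vis S G n D V) [Finite β] [Nonempty β]
    (hcol : ∀ w w' v v' : V, col w w' = col v v' ↔ ColE S G n D (w : β → M) w' v v')
    {X Y : Set V}
    (h : BFR S S (PAC_el G D X) (PAC_el G D Y) Ordinal.omega0 (dg (PAC_el G D (range a)))) :
    Cnt col a φ X ⊆ Cnt col a φ Y := by
  have hdG : dg (G ∪ D) ⊆ dg (PAC_el G D (range a)) := dg_mono subset_union_left
  have hda : ∀ i, dg (range (a i).1) ⊆ dg (PAC_el G D (range a)) := fun i =>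
    dg_mono fun x hx => Or.inr ⟨a i, mem_range_self i, hx⟩
  rintro m ⟨v, ⟨hvX, hva⟩, hv⟩
  obtain ⟨w, hwinj, hwr⟩ := CNT_enum hv
  have hwX : ∀ i, w i ∈ X ∧ w i ∉ range a ∧ Rl col a φ v (w i) := by
    intro i
    have h1 : w i ∈ range w := mem_range_self i
    rw [hwr] at h1
    exact ⟨h1.1.1, h1.1.2, h1.2⟩
  -- the tuple of all members
  let x : Option (Fin m) → V := fun j => j.elim v w
  have hxX : ∀ j, x j ∈ X := by
    rintro (_ | i)
    · exact hvX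
    · exact (hwX i).1
  have hxa : ∀ j, x j ∉ range a := by
    rintro (_ | i)
    · exact hva
    · exact (hwX i).2.1
  have h1 : BFR S S (PAC_el G D X) (PAC_el G D Y)
      (((Nat.card β : ℕ) : Ordinal.{0}) + (Nat.card (Option (Fin m) × β) : ℕ))
      (dg (PAC_el G D (range a))) := by
    refine h.mono (le_of_lt ?_)
    have h2 := Ordinal.natCast_lt_omega0 (Nat.card β + Nat.card (Option (Fin m) × β))
    rwa [Nat.cast_add] at h2
  obtain ⟨y, hy, h2⟩ := PAC_forth h1 (fun jq : Option (Fin m) × β => (x jq.1).1 jq.2)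
    (fun jq => Or.inr ⟨x jq.1, hxX jq.1, mem_range_self _⟩)
  set p : Set (M × M) := dg (PAC_el G D (range a)) ∪
    prs (fun jq : Option (Fin m) × β => (x jq.1).1 jq.2) y with hpdef
  have hp := h2.atEq
  have hpG : dg (G ∪ D) ⊆ p := hdG.trans subset_union_left
  have hpG' : dg G ⊆ p := (dg_mono subset_union_left).trans hpG
  have hpa : ∀ i, dg (range (a i).1) ⊆ p := fun i => (hda i).trans subset_union_left
  have hlift : ∀ j, ∃ v' ∈ Y, PAC_cor S G D n p (x j).1 v'.1 := by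
    intro j
    refine PAC_lift hV hp hpG hpa (hxa j) (h := fun q => y (j, q)) ?_ (fun q => hy _)
    rintro _ ⟨q, rfl⟩
    exact Or.inr ⟨(j, q), rfl⟩
  choose x' hx'Y hx' using hlift
  have hx'a : ∀ j, x' j ∉ range a := fun j hj => hxa j ((PAC_rg hV.fam hp hpa (hx' j)).2 hj)
  refine ⟨x' none, ⟨hx'Y none, hx'a none⟩, ?_⟩
  have hinj : Function.Injective fun i : Fin m => x' (some i) := by
    intro i j hij
    apply hwinj
    have h3 : (x' (some i)).1 = (x' (some j)).1 := congrArg _ hij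
    exact Subtype.ext ((PAC_eq hV.fam hp (w i).2 (x' (some i)).2 (w j).2 (x' (some j)).2
      (hx' (some i)) (hx' (some j))).2 h3)
  have hset : {u ∈ Y \ range a | Rl col a φ (x' none) u} =
      range fun i : Fin m => x' (some i) := by
    ext u
    constructor
    · rintro ⟨⟨huY, hua⟩, hur⟩
      have h3 : BFR S S (PAC_el G D X) (PAC_el G D Y)
          ((0 : Ordinal.{0}) + (Nat.card β : ℕ)) p := by
        rw [zero_add]
        exact h2
      obtain ⟨z, hz, h4⟩ := PAC_back h3 u.1 (fun q => Or.inr ⟨u, huY, mem_range_self q⟩)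
      have hq := h4.atEq
      have hqG : dg (G ∪ D) ⊆ p ∪ prs z u.1 := hpG.trans subset_union_left
      have hqG' : dg G ⊆ p ∪ prs z u.1 := hpG'.trans subset_union_left
      have hqa : ∀ i, dg (range (a i).1) ⊆ p ∪ prs z u.1 := fun i =>
        (hpa i).trans subset_union_left
      obtain ⟨u₁, hu₁, h5⟩ := PAC_lift' hV hq hqG hqa hua (h := z) subset_union_right hz
      have h6 : u₁ ∈ range w := by
        rw [hwr]
        exact ⟨⟨hu₁, fun h7 => hua ((PAC_rg hV.fam hq hqa h5).1 h7)⟩,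
          (PAC_rl hV.fam hcol hq hqG' hqa ((hx' none).mono subset_union_left) h5).2 hur⟩
      obtain ⟨i, rfl⟩ := h6
      refine ⟨i, Subtype.ext ?_⟩
      exact (PAC_eq hV.fam hq (w i).2 (x' (some i)).2 (w i).2 u.2
        ((hx' (some i)).mono subset_union_left) h5).1 rfl
    · rintro ⟨i, rfl⟩
      exact ⟨⟨hx'Y _, hx'a _⟩,
        (PAC_rl hV.fam hcol hp hpG' hpa (hx' none) (hx' (some i))).1 (hwX i).2.2⟩
  rw [hset]
  exact CNT_encard hinj

end

theorem thm_PAC : St_PAC := by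
  intro L M S F G n β _ V D C col hF hPig hG hFG hD hn hV hcol k a φ X hX
  have hne : Nonempty β := hV.fam.nonempty
  obtain ⟨q0⟩ := hne
  have hne : Nonempty β := ⟨q0⟩
  have hG' : (PAC_el G D (range a)).Finite := by
    refine (hG.union hD).union ?_
    have : {x | ∃ w ∈ range a, x ∈ range w.1} = ⋃ i, range (a i).1 := by
      ext x
      simp
    rw [this]
    exact finite_iUnion fun i => finite_range _
  obtain ⟨f, g, hfg, h⟩ := hPig (fun f => PAC_el G D (X f)) (PAC_el G D (range a))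
    Ordinal.omega0 hG' (hFG.trans (subset_union_left.trans subset_union_left))
    omega_lt_om1 (by
      intro f
      refine ⟨?_, ?_, ?_⟩
      · refine (hG.union hD).countable.union ?_
        have : {x | ∃ w ∈ X f, x ∈ range w.1} = ⋃ w ∈ X f, range w.1 := by
          ext x
          simp
        rw [this]
        exact (hX f).1.biUnion fun w _ => countable_range _
      · refine ((hX f).2.1.image (f := fun w : V => w.1 q0) ?_).mono ?_
        · intro w _ w' _ hww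
          exact Subtype.ext (hV.fam.dis w.1 w.2 w'.1 w'.2 q0 q0 hww).1
        · rintro _ ⟨w, hw, rfl⟩
          exact Or.inr ⟨w, hw, mem_range_self q0⟩
      · rintro x (hx | ⟨w, hw, hx⟩)
        · exact Or.inl hx
        · exact Or.inr ⟨w, (hX f).2.2 hw, hx⟩)
  have h' := h.symm (q := dg (PAC_el G D (range a))) (by
    rintro _ ⟨x, hx, rfl⟩
    exact ⟨x, hx, rfl⟩)
  exact ⟨f, g, hfg, (PAC_sub (φ := φ) hV hcol h).antisymm (PAC_sub (φ := φ) hV hcol h')⟩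

end HERN
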