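import Pool.Agent.HERN.St

/-!
# HERN: [PAIR] generic pairs
-/

set_option autoImplicit false
set_option linter.unusedVariables false

namespace HERN

open Set Pool.Agent.Helper5.DU Pool.Agent.Helper6.Str Pool.Agent.Helper79.VC
  Pool.Agent.Helper97.LO Pool.Agent.Helper97.VC HER

theorem PAIR_inj {L : FirstOrder.Language.{0, 0}} {M β : Type} {S : L.Structure M} {G D : Set M}
    {n : ℕ} (hn : 2 ≤ n) {h w : β → M} (hw : Function.Injective w)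
    (hT : TE S G n (dg D ∪ prs h w)) : Function.Injective h := by
  intro p q hpq
  have h1 := hT {(h p, w p), (h q, w q)} (by
    rintro a (rfl | rfl)
    · exact Or.inr ⟨p, rfl⟩
    · exact Or.inr ⟨q, rfl⟩) (by
    refine (encard_insert_le _ _).trans ?_
    rw [encard_singleton]
    exact_mod_cast hn)
  have h2 := h1.1 (h p, w p) (Or.inr (Or.inl rfl)) (h q, w q) (Or.inr (Or.inr rfl))
  exact hw (h2.1 hpq)

theorem thm_PAIR (h0 : St_PA0) (h2 : St_PA2) (h3 : St_PA3) (h5 : St_PA5) : St_PAIR := by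
  intro L M S F G n β _ V cl hC hG hFG hn hcl hV hHM
  rcases h0 L M S G n β V (hC.ft G hG hFG) hV with ⟨V', hV', hu, cl', hcl', hP⟩ |
    ⟨c1, hc1, c2, hc2, V', hV', hu, hno⟩
  · exact ⟨V', hV', hu, cl', hcl', hP⟩
  obtain ⟨V2, hV2, hu2, hyes⟩ := h2 L M S G n β V V' cl c1 c2 hcl hV hV' hu (hHM c1 hc1 c2 hc2)
  have hF2 : Fam V2 := hV.mono (hV2.trans hV') hu2
  obtain ⟨D, hD, hDf, V3, hV3, hu3, heq, hmin⟩ := h3 L M S F G n β V2 (range c1 ∪ range c2)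
    (fun G' hG' hF' => hC.ft G' hG' hF') hG hFG ((finite_range c1).union (finite_range c2)) hF2
  have hF3 : Fam V3 := hF2.mono hV3 hu3
  have hGD : (G ∪ D).Countable := (hG.union hDf).countable
  have hu4 := hF3.unc_off hGD
  have hsub : {w ∈ V3 | Off (G ∪ D) w} ⊆ V3 := fun w hw => hw.1
  have hF4 : Fam {w ∈ V3 | Off (G ∪ D) w} := hF3.mono hsub hu4
  have hvis : Vis S G n D {w ∈ V3 | Off (G ∪ D) w} := by
    refine ⟨hF4, fun w hw => hw.2, fun w hw w' hw' => heq w hw.1 w' hw'.1, ?_⟩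
    rintro h hh ⟨w0, hw0, hT⟩
    by_contra hcon
    push Not at hcon
    have hinj : Function.Injective h := PAIR_inj hn (hF4.inj hw0) hT
    have h6 : ∀ w ∈ V2, range h ≠ range w := by
      intro w hw he
      obtain ⟨p⟩ := hF2.nonempty
      obtain ⟨w', hw', q, hq⟩ := hh p
      have h7 : h p ∈ range w := he ▸ mem_range_self p
      obtain ⟨q', hq'⟩ := h7
      have h8 := (hF2.dis w hw w' (hV3 hw'.1) q' q (hq'.trans hq.symm)).1
      subst h8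
      exact hcon w hw' he
    have h7 := hyes h hinj (fun p => by
      obtain ⟨w, hw, hp⟩ := hh p
      exact ⟨w, hV3 hw.1, hp⟩) h6
    apply hno w0 (hV2 (hV3 hw0.1))
    have h8 : TE S G n (prs c1 c2 ∪ prs w0 h) := by
      refine (hT.symm' (r := dg D ∪ prs w0 h) ?_).comp h7 ?_
      · rintro a (⟨x, hx, rfl⟩ | ⟨i, rfl⟩)
        · exact Or.inl ⟨x, hx, rfl⟩
        · exact Or.inr ⟨i, rfl⟩
      · rintro a (⟨i, rfl⟩ | ⟨i, rfl⟩)
        · exact ⟨c1 i, Or.inl ⟨c1 i, hD (Or.inl ⟨i, rfl⟩), rfl⟩, Or.inl ⟨i, rfl⟩⟩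
        · exact ⟨h i, Or.inr ⟨i, rfl⟩, Or.inr ⟨h i, ⟨i, rfl⟩, rfl⟩⟩
    refine h8.comp hT ?_
    rintro a (⟨i, rfl⟩ | ⟨_, ⟨i, rfl⟩, rfl⟩)
    · exact ⟨c2 i, Or.inl ⟨i, rfl⟩, Or.inl ⟨c2 i, hD (Or.inr ⟨i, rfl⟩), rfl⟩⟩
    · exact ⟨h i, Or.inr ⟨i, rfl⟩, Or.inr ⟨i, rfl⟩⟩
  obtain ⟨V5, hV5, hu5, cl', hcl', hP⟩ := h5 L M S F G n β _ D hC hG hFG hDf hn hvis
    (fun w hw => by
      obtain ⟨E, hE, h9⟩ := hmin w hw.1
      exact ⟨E, hE, fun w' hw' => h9 w' hw'.1⟩)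
  exact ⟨V5, hV5.trans (hsub.trans (hV3.trans (hV2.trans hV'))), hu5, cl', hcl', hP⟩

end HERN
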