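import Pool.Agent.HERN.St

/-!
# HERN: [PAR] rational sequences
-/

set_option autoImplicit false
set_option linter.unusedVariables false

namespace HERN

open Set Pool.Agent.Helper5.DU Pool.Agent.Helper6.Str Pool.Agent.Helper79.VC
  Pool.Agent.Helper97.LO Pool.Agent.Helper97.VC HER

section PAR

variable {L : FirstOrder.Language.{0, 0}} {M β : Type} {S : L.Structure M} {G D : Set M} {n : ℕ}

private theorem PAR_trans {a b c : β → M} (h : TE S G n (dg D ∪ prs a b))
    (h' : TE S G n (dg D ∪ prs b c)) : TE S G n (dg D ∪ prs a c) := by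
  refine h.comp h' ?_
  rintro _ (⟨x, hx, rfl⟩ | ⟨p, rfl⟩)
  · exact ⟨x, Or.inl ⟨x, hx, rfl⟩, Or.inl ⟨x, hx, rfl⟩⟩
  · exact ⟨b p, Or.inr ⟨p, rfl⟩, Or.inr ⟨p, rfl⟩⟩

private theorem PAR_symm {a b : β → M} (h : TE S G n (dg D ∪ prs a b)) :
    TE S G n (dg D ∪ prs b a) := by
  refine h.symm' ?_
  rintro _ (⟨x, hx, rfl⟩ | ⟨p, rfl⟩)
  · exact Or.inl ⟨x, hx, rfl⟩
  · exact Or.inr ⟨p, rfl⟩

private theorem PAR_perm {a b : β → M} (h : TE S G n (dg D ∪ prs a b)) (ρ : Equiv.Perm β) :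
    TE S G n (dg D ∪ prs (a ∘ ρ) (b ∘ ρ)) := by
  rw [prs_comp_perm]; exact h

private theorem PAR_trans2 {a b c a' b' c' : β → M} (h : TE S G n (prs a b ∪ prs a' b'))
    (h' : TE S G n (prs b c ∪ prs b' c')) : TE S G n (prs a c ∪ prs a' c') := by
  refine h.comp h' ?_
  rintro _ (⟨p, rfl⟩ | ⟨p, rfl⟩)
  · exact ⟨b p, Or.inl ⟨p, rfl⟩, Or.inl ⟨p, rfl⟩⟩
  · exact ⟨b' p, Or.inr ⟨p, rfl⟩, Or.inr ⟨p, rfl⟩⟩

private theorem PAR_symm2 {a b a' b' : β → M} (h : TE S G n (prs a b ∪ prs a' b')) :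
    TE S G n (prs b a ∪ prs b' a') := by
  refine h.symm' ?_
  rintro _ (⟨p, rfl⟩ | ⟨p, rfl⟩)
  · exact Or.inl ⟨p, rfl⟩
  · exact Or.inr ⟨p, rfl⟩

private theorem PAR_perm2 {a b a' b' : β → M} (h : TE S G n (prs a b ∪ prs a' b'))
    (ρ ρ' : Equiv.Perm β) : TE S G n (prs (a ∘ ρ) (b ∘ ρ) ∪ prs (a' ∘ ρ') (b' ∘ ρ')) := by
  rw [prs_comp_perm, prs_comp_perm]; exact h

/-- the colour relation is symmetric -/
theorem PAR_colE_symm {w w' v v' : β → M} (hwv : TE S G n (dg D ∪ prs w v))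
    (hwv' : TE S G n (dg D ∪ prs w' v')) (h : ColE S G n D w w' v v') :
    ColE S G n D v v' w w' := by
  obtain ⟨π, π', h1, h2, h3⟩ := h
  have key : ∀ (a b : β → M) (ρ : Equiv.Perm β), TE S G n (dg D ∪ prs a b) →
      TE S G n (dg D ∪ prs (a ∘ ρ) a) → TE S G n (dg D ∪ prs (b ∘ ρ.symm) b) := by
    intro a b ρ hab hρ
    -- `b ∘ ρ⁻¹ → a ∘ ρ⁻¹ → a → b`
    have h4 : TE S G n (dg D ∪ prs a (a ∘ ρ.symm)) := by
      have h5 := PAR_perm hρ ρ.symm
      have h6 : (a ∘ ρ) ∘ ρ.symm = a := by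
        funext p
        simp
      rwa [h6] at h5
    exact PAR_trans (PAR_symm (PAR_perm hab ρ.symm)) (PAR_trans (PAR_symm h4) hab)
  refine ⟨π.symm, π'.symm, key _ _ _ hwv h1, key _ _ _ hwv' h2, ?_⟩
  have h5 := PAR_perm2 (PAR_symm2 h3) π.symm π'.symm
  have h6 : (w ∘ π) ∘ π.symm = w := by
    funext p
    simp
  have h7 : (w' ∘ π') ∘ π'.symm = w' := by
    funext p
    simp
  rwa [h6, h7] at h5

/-- the colour relation is transitive -/
theorem PAR_colE_trans {w w' v v' u u' : β → M} (hwv : TE S G n (dg D ∪ prs w v))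
    (hwv' : TE S G n (dg D ∪ prs w' v')) (h : ColE S G n D w w' v v')
    (h' : ColE S G n D v v' u u') : ColE S G n D w w' u u' := by
  obtain ⟨π, π', h1, h2, h3⟩ := h
  obtain ⟨σ, σ', h4, h5, h6⟩ := h'
  have key : ∀ (a b : β → M) (ρ τ : Equiv.Perm β), TE S G n (dg D ∪ prs a b) →
      TE S G n (dg D ∪ prs (a ∘ ρ) a) → TE S G n (dg D ∪ prs (b ∘ τ) b) →
      TE S G n (dg D ∪ prs (a ∘ (τ.trans ρ)) a) := by
    intro a b ρ τ hab hρ hτ
    -- `a ∘ ρ ∘ τ → a ∘ τ → b ∘ τ → b → a`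
    have h7 : a ∘ (τ.trans ρ) = (a ∘ ρ) ∘ τ := rfl
    rw [h7]
    exact PAR_trans (PAR_perm hρ τ) (PAR_trans (PAR_perm hab τ) (PAR_trans hτ (PAR_symm hab)))
  refine ⟨σ.trans π, σ'.trans π', key _ _ _ _ hwv h1 h4, key _ _ _ _ hwv' h2 h5, ?_⟩
  exact PAR_trans2 (PAR_perm2 h3 σ σ') h6

/-- exchange of the two members -/
theorem PAR_colE_flip {w w' v v' : β → M} (h : ColE S G n D w w' v v') :
    ColE S G n D w' w v' v := by
  obtain ⟨π, π', h1, h2, h3⟩ := h
  exact ⟨π', π, h2, h1, by rwa [union_comm]⟩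

/-- permutation of the coordinates of the first pair -/
theorem PAR_colE_perm {w w' v v' h k : β → M} {ρ ρ' : Equiv.Perm β}
    (hh : h = w ∘ ρ) (hk : k = w' ∘ ρ') (hρ : TE S G n (dg D ∪ prs h w))
    (hρ' : TE S G n (dg D ∪ prs k w')) (hc : ColE S G n D w w' v v') :
    ColE S G n D h k v v' := by
  obtain ⟨π, π', h1, h2, h3⟩ := hc
  refine ⟨π.trans ρ.symm, π'.trans ρ'.symm, ?_, ?_, ?_⟩
  · have : h ∘ (π.trans ρ.symm) = w ∘ π := by
      subst hh
      funext p
      simp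
    rw [this]
    exact PAR_trans h1 (PAR_symm hρ)
  · have : k ∘ (π'.trans ρ'.symm) = w' ∘ π' := by
      subst hk
      funext p
      simp
    rw [this]
    exact PAR_trans h2 (PAR_symm hρ')
  · have e1 : h ∘ (π.trans ρ.symm) = w ∘ π := by
      subst hh
      funext p
      simp
    have e2 : k ∘ (π'.trans ρ'.symm) = w' ∘ π' := by
      subst hk
      funext p
      simp
    rw [e1, e2]
    exact h3

/-- two tuples with the same range -/
theorem PAR_exists_perm [Finite β] {h w : β → M} (hw : Function.Injective w)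
    (hr : range h = range w) : ∃ ρ : Equiv.Perm β, h = w ∘ ρ := by
  have h1 : ∀ p, ∃ q, w q = h p := fun p => by
    have : h p ∈ range w := hr ▸ mem_range_self p
    exact this
  choose f hf using h1
  have hsurj : Function.Surjective f := by
    intro q
    have : w q ∈ range h := hr ▸ mem_range_self q
    obtain ⟨p, hp⟩ := this
    exact ⟨p, hw ((hf p).trans hp)⟩
  have hbij : Function.Bijective f := ⟨Finite.injective_iff_surjective.mpr hsurj, hsurj⟩
  refine ⟨Equiv.ofBijective f hbij, ?_⟩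
  funext p
  exact (hf p).symm

/-- [PAR] rational sequences -/
theorem thm_PAR : St_PAR := by
  intro L M S F G n β _ V D hF hO hG hFG hD hn hV i hi hiV hcol x0 y0 hxy
  by_contra hne
  have : Nonempty β := hV.fam.nonempty
  have hte : ∀ q : Set (M × M), AtEq S S (dg (G ∪ D) ∪ q) → TE S G n (dg D ∪ q) := by
    intro q hq r hr _
    refine hq.anti ?_
    rw [dg_union, union_assoc]
    exact union_subset_union_right _ hr
  have heq : ∀ x y, TE S G n (dg D ∪ prs (i x) (i y)) := fun x y => hV.eqD _ (hiV x) _ (hiV y)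
  refine hO (G ∪ D) β i (fun h => TE S G n (dg D ∪ prs h (i 0)))
    (fun h k => ColE S G n D h k (i x0) (i y0)) (hG.union hD) (hFG.trans subset_union_left)
    ?_ ?_ ?_ ?_ ?_ ?_ ?_
  · intro x p y q h
    obtain ⟨h1, h2⟩ := hV.fam.dis _ (hiV x) _ (hiV y) p q h
    exact ⟨hi h1, h2⟩
  · intro x p
    exact hV.off _ (hiV x) p
  · intro h h' hA
    have h1 := hte _ hA
    exact ⟨fun h2 => PAR_trans (PAR_symm h1) h2, fun h2 => PAR_trans h1 h2⟩
  · have key : ∀ h k h' k', AtEq S S (dg (G ∪ D) ∪ prs h h' ∪ prs k k') →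
        ColE S G n D h k (i x0) (i y0) → ColE S G n D h' k' (i x0) (i y0) := by
      intro h k h' k' hA hc
      rw [union_assoc] at hA
      have h1 := hte _ hA
      have hh : TE S G n (dg D ∪ prs h h') :=
        h1.anti (union_subset_union_right _ subset_union_left)
      have hk : TE S G n (dg D ∪ prs k k') :=
        h1.anti (union_subset_union_right _ subset_union_right)
      have hhk : TE S G n (prs h h' ∪ prs k k') := h1.anti subset_union_right
      obtain ⟨π, π', h2, h3, h4⟩ := hc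
      exact ⟨π, π', PAR_trans (PAR_symm (PAR_perm hh π)) (PAR_trans h2 hh),
        PAR_trans (PAR_symm (PAR_perm hk π')) (PAR_trans h3 hk),
        PAR_trans2 (PAR_symm2 (PAR_perm2 hhk π π')) h4⟩
    intro h k h' k' hA
    refine ⟨key h k h' k' hA, key h' k' h k ?_⟩
    refine AtEq.symm' hA ?_
    rintro _ ((⟨x, hx, rfl⟩ | ⟨p, rfl⟩) | ⟨p, rfl⟩)
    · exact Or.inl (Or.inl ⟨x, hx, rfl⟩)
    · exact Or.inl (Or.inr ⟨p, rfl⟩)
    · exact Or.inr ⟨p, rfl⟩
  · intro x
    exact heq x 0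
  · intro h hh hB
    obtain ⟨w, hw, hr⟩ := hV.vis h (fun p => by
      obtain ⟨x, q, hq⟩ := hh p
      exact ⟨i x, hiV x, q, hq.symm⟩) ⟨i 0, hiV 0, hB⟩
    obtain ⟨p⟩ := this
    obtain ⟨x, q, hq⟩ := hh p
    have h1 : h p ∈ range w := hr ▸ mem_range_self p
    obtain ⟨r, hr'⟩ := h1
    obtain ⟨h2, -⟩ := hV.fam.dis w hw (i x) (hiV x) r q (hr'.trans hq)
    exact ⟨x, h2 ▸ hr⟩
  · intro x y h k hne' hrx hry hBh hBk
    obtain ⟨ρ, hρ⟩ := PAR_exists_perm (hV.fam.inj (hiV x)) hrx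
    obtain ⟨ρ', hρ'⟩ := PAR_exists_perm (hV.fam.inj (hiV y)) hry
    have hhx : TE S G n (dg D ∪ prs h (i x)) := PAR_trans hBh (heq 0 x)
    have hky : TE S G n (dg D ∪ prs k (i y)) := PAR_trans hBk (heq 0 y)
    constructor
    · intro hc
      rcases lt_or_gt_of_ne hne' with hlt | hgt
      · exact hlt
      · exfalso
        have e1 : i x = h ∘ ρ.symm := by
          rw [hρ]
          funext p
          simp
        have e2 : i y = k ∘ ρ'.symm := by
          rw [hρ']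
          funext p
          simp
        have h1 : ColE S G n D (i x) (i y) (i x0) (i y0) :=
          PAR_colE_perm e1 e2 (PAR_symm hhx) (PAR_symm hky) hc
        have h2 : ColE S G n D (i x) (i y) (i y0) (i x0) :=
          PAR_colE_flip (hcol y x x0 y0 hgt hxy)
        exact hne (PAR_colE_trans (heq _ _) (heq _ _) (PAR_colE_symm (heq _ _) (heq _ _) h1) h2)
    · intro hlt
      exact PAR_colE_perm hρ hρ' hhx hky (hcol x y x0 y0 hlt hxy)

end PAR

end HERN
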