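import Pool.Agent.HERN.St

/-!
# HERN, module PAS: sequences of length `ω₁` of visible tuples
-/

set_option autoImplicit false
set_option linter.unusedVariables false

namespace HERN

open Set Pool.Agent.Helper5.DU Pool.Agent.Helper6.Str Pool.Agent.Helper79.VC
  Pool.Agent.Helper97.LO Pool.Agent.Helper97.VC HER

section aux

variable {L : FirstOrder.Language.{0, 0}} {M N : Type} {S : L.Structure M} {T : L.Structure N}
  {G D : Set M} {n : ℕ} {P p p' : Set (M × N)}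

/-- types of level `n` of pairs of elements of two structures -/
private def PAS_TE2 (S : L.Structure M) (T : L.Structure N) (P : Set (M × N)) (n : ℕ)
    (p : Set (M × N)) : Prop :=
  ∀ q ⊆ p, q.encard ≤ n → AtEq S T (P ∪ q)

private theorem PAS_comp1 {r : Set (M × M)} (h : TE S G n r) (h' : PAS_TE2 S T P n p)
    (hP : ∀ a ∈ P, a.1 ∈ G) (hr : ∀ a ∈ p', ∃ b, (a.1, b) ∈ r ∧ (b, a.2) ∈ p) :
    PAS_TE2 S T P n p' := by
  intro s hs hn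
  have hr' : ∀ a : M × N, ∃ b, a ∈ p' → (a.1, b) ∈ r ∧ (b, a.2) ∈ p := fun a => by
    by_cases ha : a ∈ p'
    · obtain ⟨b, hb⟩ := hr a ha
      exact ⟨b, fun _ => hb⟩
    · exact ⟨a.1, fun h => absurd h ha⟩
  choose f hf using hr'
  have h1 := h ((fun a => (a.1, f a)) '' s) (by
    rintro _ ⟨a, ha, rfl⟩
    exact (hf a (hs ha)).1) ((encard_image_le _ _).trans hn)
  have h2 := h' ((fun a => (f a, a.2)) '' s) (by
    rintro _ ⟨a, ha, rfl⟩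
    exact (hf a (hs ha)).2) ((encard_image_le _ _).trans hn)
  refine AtEq.comp' h1 h2 ?_
  rintro a (ha | ha)
  · exact ⟨a.1, Or.inl ⟨a.1, hP a ha, rfl⟩, Or.inl ha⟩
  · exact ⟨f a, Or.inr ⟨a, ha, rfl⟩, Or.inr ⟨a, ha, rfl⟩⟩

private theorem PAS_comp2 {r : Set (N × N)} (h : PAS_TE2 S T P n p) (h' : AtEq T T r)
    (hP : ∀ a ∈ P, (a.2, a.2) ∈ r) (hr : ∀ a ∈ p', ∃ b, (a.1, b) ∈ p ∧ (b, a.2) ∈ r) :
    PAS_TE2 S T P n p' := by
  intro s hs hn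
  have hr' : ∀ a : M × N, ∃ b, a ∈ p' → (a.1, b) ∈ p ∧ (b, a.2) ∈ r := fun a => by
    by_cases ha : a ∈ p'
    · obtain ⟨b, hb⟩ := hr a ha
      exact ⟨b, fun _ => hb⟩
    · exact ⟨a.2, fun h => absurd h ha⟩
  choose f hf using hr'
  have h1 := h ((fun a => (a.1, f a)) '' s) (by
    rintro _ ⟨a, ha, rfl⟩
    exact (hf a (hs ha)).1) ((encard_image_le _ _).trans hn)
  refine AtEq.comp' h1 h' ?_
  rintro a (ha | ha)
  · exact ⟨a.2, Or.inl ha, hP a ha⟩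
  · exact ⟨f a, Or.inr ⟨a, ha, rfl⟩, (hf a (hs ha)).2⟩

private theorem PAS_comp3 {r : Set (M × N)} {q : Set (M × M)} (h : PAS_TE2 S T P n p)
    (h' : AtEq S T r) (hP : ∀ x ∈ G, ∃ b, (x, b) ∈ P ∧ (x, b) ∈ r)
    (hr : ∀ a ∈ q, ∃ b, (a.1, b) ∈ p ∧ (a.2, b) ∈ r) : TE S G n q := by
  intro s hs hn
  have hr' : ∀ a : s, ∃ b, ((a : M × M).1, b) ∈ p ∧ ((a : M × M).2, b) ∈ r :=
    fun a => hr a (hs a.2)
  choose f hf using hr'
  have h1 := h (range fun a : s => ((a : M × M).1, f a)) (by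
    rintro _ ⟨a, rfl⟩
    exact (hf a).1) (by
      rw [← image_univ]
      refine (encard_image_le _ _).trans ?_
      rw [encard_univ]
      exact hn)
  have h2 : AtEq T S (Prod.swap ⁻¹' r) := AtEq.symm' h' fun a ha => ha
  refine AtEq.comp' h1 h2 ?_
  rintro a (⟨x, hx, rfl⟩ | ha)
  · obtain ⟨b, hb1, hb2⟩ := hP x hx
    exact ⟨b, Or.inl hb1, hb2⟩
  · exact ⟨f ⟨a, ha⟩, Or.inr ⟨⟨a, ha⟩, rfl⟩, (hf ⟨a, ha⟩).2⟩


private theorem PAS_of {r : Set (M × N)} (h : AtEq S T r) (hP : P ⊆ r) (hp : p ⊆ r) :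
    PAS_TE2 S T P n p := fun q hq _ => h.anti (union_subset hP (hq.trans hp))

private theorem PAS_vq {β : Type} {u : ℚ → β → N} {W : Om → β → M} {Γ : Set (M × N)}
    (h : ∀ (s : ℕ) (q : Fin s → ℚ), StrictMono q → ∃ a : Fin s → Om, StrictMono a ∧
      AtEq S T (Γ ∪ ⋃ j, prs (W (a j)) (u (q j)))) (o : Om) (X : Finset ℚ) :
    ∃ a : ℚ → Om, (∀ x ∈ X, ∀ y ∈ X, x < y → a x < a y) ∧
      AtEq S T (Γ ∪ {c | ∃ x ∈ X, ∃ p, c = (W (a x) p, u x p)}) := by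
  classical
  obtain ⟨a', ha', hat⟩ := h X.card (X.orderEmbOfFin rfl) (X.orderEmbOfFin rfl).strictMono
  let a : ℚ → Om := fun x => if hx : x ∈ X then a' ((X.orderIsoOfFin rfl).symm ⟨x, hx⟩) else o
  have ha : ∀ x (hx : x ∈ X), a x = a' ((X.orderIsoOfFin rfl).symm ⟨x, hx⟩) := fun x hx =>
    dif_pos hx
  refine ⟨a, fun x hx y hy hxy => ?_, hat.anti ?_⟩
  · rw [ha x hx, ha y hy]
    exact ha' ((X.orderIsoOfFin rfl).symm.strictMono (show (⟨x, hx⟩ : X) < ⟨y, hy⟩ from hxy))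
  · refine union_subset_union_right _ ?_
    rintro _ ⟨x, hx, p, rfl⟩
    refine mem_iUnion.mpr ⟨(X.orderIsoOfFin rfl).symm ⟨x, hx⟩, p, ?_⟩
    have : X.orderEmbOfFin rfl ((X.orderIsoOfFin rfl).symm ⟨x, hx⟩) = x := by
      rw [← Finset.coe_orderIsoOfFin_apply, OrderIso.apply_symm_apply]
    simp only [this, ha x hx]

end aux

section main

variable {L : FirstOrder.Language.{0, 0}} {M : Type} {S : L.Structure M} {G D : Set M} {n : ℕ}
  {β : Type} {V : Set (β → M)}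

/-- relabellings which preserve the type over `D` -/
private def PAS_Pi (S : L.Structure M) (G D : Set M) (n : ℕ) (w : β → M) (π : Equiv.Perm β) :
    Prop := TE S G n (dg D ∪ prs (w ∘ π) w)

private theorem PAS_Pi_conj (h : ∀ w ∈ V, ∀ w' ∈ V, TE S G n (dg D ∪ prs w w')) {w w' : β → M}
    (hw : w ∈ V) (hw' : w' ∈ V) {π : Equiv.Perm β} (hπ : PAS_Pi S G D n w π) :
    PAS_Pi S G D n w' π := by
  have h1 : TE S G n (dg D ∪ prs (w' ∘ π) w) := by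
    refine (h w' hw' w hw).comp hπ ?_
    rintro a (⟨x, hx, rfl⟩ | ⟨i, rfl⟩)
    · exact ⟨x, Or.inl ⟨x, hx, rfl⟩, Or.inl ⟨x, hx, rfl⟩⟩
    · exact ⟨w (π i), Or.inr ⟨π i, rfl⟩, Or.inr ⟨i, rfl⟩⟩
  refine h1.comp (h w hw w' hw') ?_
  rintro a (⟨x, hx, rfl⟩ | ⟨i, rfl⟩)
  · exact ⟨x, Or.inl ⟨x, hx, rfl⟩, Or.inl ⟨x, hx, rfl⟩⟩
  · exact ⟨w i, Or.inr ⟨i, rfl⟩, Or.inr ⟨i, rfl⟩⟩

private theorem PAS_Pi_mul {w : β → M} {π σ : Equiv.Perm β} (hπ : PAS_Pi S G D n w π)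
    (hσ : PAS_Pi S G D n w σ) : PAS_Pi S G D n w (π * σ) := by
  refine TE.comp hπ hσ ?_
  rintro a (⟨x, hx, rfl⟩ | ⟨i, rfl⟩)
  · exact ⟨x, Or.inl ⟨x, hx, rfl⟩, Or.inl ⟨x, hx, rfl⟩⟩
  · exact ⟨w (σ i), Or.inr ⟨σ i, rfl⟩, Or.inr ⟨i, rfl⟩⟩

private theorem PAS_Pi_inv {w : β → M} {π : Equiv.Perm β} (hπ : PAS_Pi S G D n w π) :
    PAS_Pi S G D n w π⁻¹ := by
  refine TE.symm' hπ ?_
  rintro a (⟨x, hx, rfl⟩ | ⟨i, rfl⟩)
  · exact Or.inl ⟨x, hx, rfl⟩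
  · exact Or.inr ⟨π⁻¹ i, by simp⟩


/-- a labelling of the range of an injective tuple -/
private theorem PAS_lab {N : Type} [Finite β] {h u : β → N} (hh : Function.Injective h)
    (hr : range h = range u) : ∃ σ : Equiv.Perm β, h = u ∘ σ := by
  have h1 : ∀ p, ∃ q, u q = h p := fun p => by
    have : h p ∈ range u := hr ▸ mem_range_self p
    exact this
  choose f hf using h1
  have hfi : Function.Injective f := fun p q hpq => hh (by rw [← hf p, ← hf q, hpq])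
  exact ⟨Equiv.ofBijective f (Finite.injective_iff_bijective.mp hfi), funext fun p => (hf p).symm⟩

end main

theorem thm_PAS (hO : St_ORDB) : St_PAS := by
  intro L M S F G n β _ V D hvq hG hFG hD hn hV s hs hsV hcol x0 y0 hxy0
  by_contra hneg
  have hβ : Nonempty β := hV.fam.nonempty
  obtain ⟨m, g, hg, hgr⟩ := (hG.union hD).fin_param
  have hdis : ∀ a p a' p', s a p = s a' p' → a = a' ∧ p = p' := fun a p a' p' h => by
    obtain ⟨h1, h2⟩ := hV.fam.dis _ (hsV a) _ (hsV a') p p' h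
    exact ⟨hs h1, h2⟩
  obtain ⟨N, T, F', g', u, hF', hPig, hVQ⟩ := hvq β m s g hdis
  have hvq' := PAS_vq (W := s) (u := u) hVQ x0
  set P : Set (M × N) := {a ∈ prs g g' | a.1 ∈ G} with hP
  set PD : Set (M × N) := {a ∈ prs g g' | a.1 ∈ D} with hPD
  have hPG : ∀ a ∈ P, a.1 ∈ G := fun a ha => ha.2
  have hPx : ∀ x ∈ G, ∃ b, (x, b) ∈ P := fun x hx => by
    have : x ∈ range g := hgr ▸ Or.inl hx
    obtain ⟨i, rfl⟩ := this
    exact ⟨g' i, ⟨i, rfl⟩, hx⟩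
  have hPDx : ∀ x ∈ D, ∃ b, (x, b) ∈ PD := fun x hx => by
    have : x ∈ range g := hgr ▸ Or.inr hx
    obtain ⟨i, rfl⟩ := this
    exact ⟨g' i, ⟨i, rfl⟩, hx⟩
  -- the relations
  let B : (β → N) → Prop := fun h => PAS_TE2 S T P n (PD ∪ prs (s x0) h)
  let O : (β → N) → (β → N) → Prop := fun h k => ∃ π π' : Equiv.Perm β,
    PAS_Pi S G D n (s x0) π ∧ PAS_Pi S G D n (s x0) π' ∧
      PAS_TE2 S T P n (prs (s x0 ∘ π) h ∪ prs (s y0 ∘ π') k)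
  -- pulling back
  have hpull : ∀ {r : Set (M × N)} {h : β → N} {h0 : β → M}, AtEq S T r → prs g g' ⊆ r →
      (∀ p, (h0 p, h p) ∈ r) → B h → TE S G n (dg D ∪ prs (s x0) h0) := by
    intro r h h0 hr hgr' hh hB
    refine PAS_comp3 hB hr (fun x hx => ?_) ?_
    · obtain ⟨b, hb⟩ := hPx x hx
      exact ⟨b, hb, hgr' hb.1⟩
    · rintro a (⟨x, hx, rfl⟩ | ⟨p, rfl⟩)
      · obtain ⟨b, hb⟩ := hPDx x hx
        exact ⟨b, Or.inl hb, hgr' hb.1⟩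
      · exact ⟨h p, Or.inr ⟨p, rfl⟩, hh p⟩
  have hpullO : ∀ {r : Set (M × N)} {h k : β → N} {h0 k0 v v' : β → M}, AtEq S T r →
      prs g g' ⊆ r → (∀ p, (h0 p, h p) ∈ r) → (∀ p, (k0 p, k p) ∈ r) →
      PAS_TE2 S T P n (prs v h ∪ prs v' k) → TE S G n (prs v h0 ∪ prs v' k0) := by
    intro r h k h0 k0 v v' hr hgr' hh hk hB
    refine PAS_comp3 hB hr (fun x hx => ?_) ?_
    · obtain ⟨b, hb⟩ := hPx x hx
      exact ⟨b, hb, hgr' hb.1⟩
    · rintro a (⟨p, rfl⟩ | ⟨p, rfl⟩)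
      · exact ⟨h p, Or.inl ⟨p, rfl⟩, hh p⟩
      · exact ⟨k p, Or.inr ⟨p, rfl⟩, hk p⟩
  have hinj : ∀ h, B h → Function.Injective h := by
    intro h hB p q hpq
    have h1 := hB {(s x0 p, h p), (s x0 q, h q)} (by
      rintro a (rfl | rfl)
      · exact Or.inr ⟨p, rfl⟩
      · exact Or.inr ⟨q, rfl⟩) (by
        refine (encard_insert_le _ _).trans ?_
        rw [encard_singleton]
        exact_mod_cast hn)
    exact hV.fam.inj (hsV x0) ((h1.1 _ (Or.inr (Or.inl rfl)) _ (Or.inr (Or.inr rfl))).mpr hpq)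
  have huinj : ∀ x p y q, u x p = u y q → x = y ∧ p = q := by
    intro x p y q hxy
    obtain ⟨a, ha, hat⟩ := hvq' {x, y}
    have h1 := (hat.1 (s (a x) p, u x p) (Or.inr ⟨x, by simp, p, rfl⟩) (s (a y) q, u y q)
      (Or.inr ⟨y, by simp, q, rfl⟩)).mpr hxy
    obtain ⟨h2, h3⟩ := hdis _ _ _ _ h1
    refine ⟨?_, h3⟩
    rcases lt_trichotomy x y with h4 | h4 | h4
    · exact absurd h2 (ha x (by simp) y (by simp) h4).ne
    · exact h4
    · exact absurd h2 (ha y (by simp) x (by simp) h4).ne'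
  have huoff : ∀ x p, u x p ∉ range g' := by
    rintro x p ⟨i, hi⟩
    obtain ⟨a, ha, hat⟩ := hvq' {x}
    have h1 : g i = s (a x) p := (hat.1 (g i, g' i) (Or.inl ⟨i, rfl⟩) (s (a x) p, u x p)
      (Or.inr ⟨x, by simp, p, rfl⟩)).mpr hi
    have h2 : g i ∈ G ∪ D := hgr ▸ mem_range_self i
    rw [h1] at h2
    exact hV.off _ (hsV _) p h2
  -- the interval
  have hbad : {x : ℚ | ∃ p, u x p ∈ F'}.Finite := by
    have h1 : ∀ x ∈ {x : ℚ | ∃ p, u x p ∈ F'}, ∃ p, u x p ∈ F' := fun x hx => hx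
    choose! i hi using h1
    exact Set.Finite.of_injOn (f := fun x => u x (i x)) (t := F') (fun x hx => hi x hx)
      (fun x _ y _ hxy => (huinj _ _ _ _ hxy).1) hF'
  obtain ⟨c, hc⟩ := hbad.bddAbove
  obtain ⟨e⟩ := Order.embedding_from_countable_to_dense ℚ (Ioi c)
  let f : ℚ → ℚ := fun x => (e x : ℚ)
  have hf : StrictMono f := fun x y hxy => e.strictMono hxy
  have hfc : ∀ x, c < f x := fun x => (e x).2
  refine hO L N T F' hF' hPig (range g' ∪ F') β (fun x => u (f x)) B O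
    ((finite_range g').union hF') subset_union_right ?_ ?_ ?_ ?_ ?_ ?_ ?_
  · -- injective
    intro x p y q hxy
    obtain ⟨h1, h2⟩ := huinj _ _ _ _ hxy
    exact ⟨hf.injective h1, h2⟩
  · -- off
    rintro x p (h | h)
    · exact huoff _ _ h
    · exact absurd (hc ⟨p, h⟩) (not_le.mpr (hfc x))
  · -- invariance of B
    have : ∀ h h' : β → N, AtEq T T (dg (range g' ∪ F') ∪ prs h h') → B h → B h' := by
      intro h h' hat hB
      refine PAS_comp2 hB hat (fun a ha => Or.inl ⟨a.2, Or.inl ?_, rfl⟩) ?_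
      · obtain ⟨⟨i, rfl⟩, -⟩ := ha
        exact ⟨i, rfl⟩
      · rintro a (ha | ⟨p, rfl⟩)
        · refine ⟨a.2, Or.inl ha, Or.inl ⟨a.2, Or.inl ?_, rfl⟩⟩
          obtain ⟨⟨i, rfl⟩, -⟩ := ha
          exact ⟨i, rfl⟩
        · exact ⟨h p, Or.inr ⟨p, rfl⟩, Or.inr ⟨p, rfl⟩⟩
    intro h h' hat
    refine ⟨this h h' hat, this h' h (AtEq.symm' hat ?_)⟩
    rintro a (⟨x, hx, rfl⟩ | ⟨p, rfl⟩)
    · exact Or.inl ⟨x, hx, rfl⟩
    · exact Or.inr ⟨p, rfl⟩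
  · -- invariance of O
    have : ∀ h k h' k' : β → N, AtEq T T (dg (range g' ∪ F') ∪ prs h h' ∪ prs k k') →
        O h k → O h' k' := by
      rintro h k h' k' hat ⟨π, π', hπ, hπ', hB⟩
      refine ⟨π, π', hπ, hπ', PAS_comp2 hB hat
        (fun a ha => Or.inl (Or.inl ⟨a.2, Or.inl ?_, rfl⟩)) ?_⟩
      · obtain ⟨⟨i, rfl⟩, -⟩ := ha
        exact ⟨i, rfl⟩
      · rintro a (⟨p, rfl⟩ | ⟨p, rfl⟩)
        · exact ⟨h p, Or.inl ⟨p, rfl⟩, Or.inl (Or.inr ⟨p, rfl⟩)⟩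
        · exact ⟨k p, Or.inr ⟨p, rfl⟩, Or.inr ⟨p, rfl⟩⟩
    intro h k h' k' hat
    refine ⟨this h k h' k' hat, this h' k' h k (AtEq.symm' hat ?_)⟩
    rintro a ((⟨x, hx, rfl⟩ | ⟨p, rfl⟩) | ⟨p, rfl⟩)
    · exact Or.inl (Or.inl ⟨x, hx, rfl⟩)
    · exact Or.inl (Or.inr ⟨p, rfl⟩)
    · exact Or.inr ⟨p, rfl⟩
  · -- members
    intro x
    obtain ⟨a, ha, hat⟩ := hvq' {f x}
    have h1 : PAS_TE2 S T P n (PD ∪ prs (s (a (f x))) (u (f x))) := by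
      refine PAS_of hat (fun b hb => Or.inl hb.1) ?_
      rintro b (hb | ⟨p, rfl⟩)
      · exact Or.inl hb.1
      · exact Or.inr ⟨f x, by simp, p, rfl⟩
    refine PAS_comp1 (hV.eqD _ (hsV x0) _ (hsV (a (f x)))) h1 hPG ?_
    rintro b (hb | ⟨p, rfl⟩)
    · exact ⟨b.1, Or.inl ⟨b.1, hb.2, rfl⟩, Or.inl hb⟩
    · exact ⟨s (a (f x)) p, Or.inr ⟨p, rfl⟩, Or.inr ⟨p, rfl⟩⟩
  · -- visibility
    intro h hh hB
    choose x q hxq using hh
    classical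
    let _ := Fintype.ofFinite β
    obtain ⟨a, ha, hat⟩ := hvq' (Finset.univ.image fun p => f (x p))
    have hmem : ∀ p, f (x p) ∈ (Finset.univ.image fun p => f (x p)) := fun p =>
      Finset.mem_image.mpr ⟨p, Finset.mem_univ p, rfl⟩
    have haf : ∀ p p', a (f (x p)) = a (f (x p')) → x p = x p' := by
      intro p p' hpp
      rcases lt_trichotomy (x p) (x p') with h1 | h1 | h1
      · exact absurd hpp (ha _ (hmem p) _ (hmem p') (hf h1)).ne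
      · exact h1
      · exact absurd hpp (ha _ (hmem p') _ (hmem p) (hf h1)).ne'
    have h1 := hpull (h := h) (h0 := fun p => s (a (f (x p))) (q p)) hat subset_union_left
      (fun p => Or.inr ⟨f (x p), hmem p, q p, by rw [hxq p]⟩) hB
    obtain ⟨w, hw, hwr⟩ := hV.vis (fun p => s (a (f (x p))) (q p))
      (fun p => ⟨s (a (f (x p))), hsV _, mem_range_self _⟩)
      ⟨s x0, hsV x0, h1.symm' (by
        rintro b (⟨y, hy, rfl⟩ | ⟨p, rfl⟩)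
        · exact Or.inl ⟨y, hy, rfl⟩
        · exact Or.inr ⟨p, rfl⟩)⟩
    obtain ⟨p0⟩ := hβ
    have h2 : ∀ p, s (a (f (x p))) (q p) ∈ range w := fun p => hwr ▸ mem_range_self p
    have h3 : ∀ p, s (a (f (x p))) = w := fun p => by
      obtain ⟨p', hp'⟩ := h2 p
      exact ((hV.fam.dis _ hw _ (hsV _) p' (q p) hp').1).symm
    have h4 : ∀ p, x p = x p0 := fun p => haf p p0 (hs (by rw [h3, h3]))
    refine ⟨x p0, Subset.antisymm ?_ ?_⟩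
    · rintro _ ⟨p, rfl⟩
      exact ⟨q p, by rw [hxq p, h4 p]⟩
    · rintro _ ⟨j, rfl⟩
      have h5 : s (a (f (x p0))) j ∈ range w := by
        rw [h3]
        exact mem_range_self j
      rw [← hwr] at h5
      obtain ⟨p, hp⟩ := h5
      have h6 := (hdis _ _ _ _ hp).2
      exact ⟨p, by rw [hxq p, h4 p, h6]⟩
  · -- the order
    intro x y h k hxy hhx hky hBh hBk
    obtain ⟨σ, hσ⟩ := PAS_lab (hinj h hBh) hhx
    obtain ⟨τ, hτ⟩ := PAS_lab (hinj k hBk) hky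
    -- relabellings of visible tuples are proper
    have hproper : ∀ (z : ℚ) (h : β → N) (σ : Equiv.Perm β), B h → h = u (f z) ∘ σ →
        PAS_Pi S G D n (s x0) σ := by
      intro z h σ hBh hσ
      obtain ⟨a, ha, hat⟩ := hvq' {f z}
      have h1 := hpull (h := h) (h0 := s (a (f z)) ∘ σ) hat subset_union_left
        (fun p => Or.inr ⟨f z, by simp, σ p, by rw [hσ]; rfl⟩) hBh
      have h2 : PAS_Pi S G D n (s (a (f z))) σ := by
        refine (h1.symm' (r := dg D ∪ prs (s (a (f z)) ∘ σ) (s x0)) ?_).comp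
          (hV.eqD _ (hsV x0) _ (hsV (a (f z)))) ?_
        · rintro b (⟨y, hy, rfl⟩ | ⟨p, rfl⟩)
          · exact Or.inl ⟨y, hy, rfl⟩
          · exact Or.inr ⟨p, rfl⟩
        · rintro b (⟨y, hy, rfl⟩ | ⟨p, rfl⟩)
          · exact ⟨y, Or.inl ⟨y, hy, rfl⟩, Or.inl ⟨y, hy, rfl⟩⟩
          · exact ⟨s x0 p, Or.inr ⟨p, rfl⟩, Or.inr ⟨p, rfl⟩⟩
      exact PAS_Pi_conj hV.eqD (hsV _) (hsV x0) h2
    have hσP := hproper x h σ hBh hσ
    have hτP := hproper y k τ hBk hτ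
    constructor
    · rintro ⟨π, π', hπ, hπ', hO⟩
      by_contra hlt
      have hyx : y < x := lt_of_le_of_ne (not_lt.mp hlt) (Ne.symm hxy)
      obtain ⟨a, ha, hat⟩ := hvq' {f x, f y}
      have haa : a (f y) < a (f x) := ha _ (by simp) _ (by simp) (hf hyx)
      have h1 := hpullO (h0 := s (a (f x)) ∘ σ) (k0 := s (a (f y)) ∘ τ) hat subset_union_left
        (fun p => Or.inr ⟨f x, by simp, σ p, by rw [hσ]; rfl⟩)
        (fun p => Or.inr ⟨f y, by simp, τ p, by rw [hτ]; rfl⟩) hO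
      obtain ⟨ρ, ρ', hρ, hρ', h2⟩ := hcol x0 y0 (a (f y)) (a (f x)) hxy0 haa
      have hρ'' : PAS_Pi S G D n (s x0) ρ' := PAS_Pi_conj hV.eqD (hsV _) (hsV x0) hρ'
      have hA : PAS_Pi S G D n (s x0) (ρ * τ * π'⁻¹) :=
        PAS_Pi_mul (PAS_Pi_mul hρ hτP) (PAS_Pi_inv hπ')
      have hB' : PAS_Pi S G D n (s x0) (ρ' * σ * π⁻¹) :=
        PAS_Pi_mul (PAS_Pi_mul hρ'' hσP) (PAS_Pi_inv hπ)
      refine hneg ⟨ρ * τ * π'⁻¹, ρ' * σ * π⁻¹, hA, PAS_Pi_conj hV.eqD (hsV _) (hsV _) hB', ?_⟩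
      refine TE.comp h2 (h1.symm' (r := prs (s (a (f x)) ∘ σ) (s x0 ∘ π) ∪
        prs (s (a (f y)) ∘ τ) (s y0 ∘ π')) ?_) ?_
      · rintro b (⟨p, rfl⟩ | ⟨p, rfl⟩)
        · exact Or.inl ⟨p, rfl⟩
        · exact Or.inr ⟨p, rfl⟩
      · rintro b (⟨p, rfl⟩ | ⟨p, rfl⟩)
        · refine ⟨s (a (f y)) (τ (π'⁻¹ p)), Or.inl ⟨τ (π'⁻¹ p), by simp⟩,
            Or.inr ⟨π'⁻¹ p, by simp⟩⟩
        · refine ⟨s (a (f x)) (σ (π⁻¹ p)), Or.inr ⟨σ (π⁻¹ p), by simp⟩,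
            Or.inl ⟨π⁻¹ p, by simp⟩⟩
    · intro hlt
      obtain ⟨a, ha, hat⟩ := hvq' {f x, f y}
      have haa : a (f x) < a (f y) := ha _ (by simp) _ (by simp) (hf hlt)
      obtain ⟨ρ, ρ', hρ, hρ', h2⟩ := hcol x0 y0 (a (f x)) (a (f y)) hxy0 haa
      have hρ'' : PAS_Pi S G D n (s x0) ρ' := PAS_Pi_conj hV.eqD (hsV _) (hsV x0) hρ'
      refine ⟨ρ * σ, ρ' * τ, PAS_Pi_mul hρ hσP, PAS_Pi_mul hρ'' hτP, ?_⟩
      have h3 : PAS_TE2 S T P n (prs (s (a (f x))) (u (f x)) ∪ prs (s (a (f y))) (u (f y))) := by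
        refine PAS_of hat (fun b hb => Or.inl hb.1) ?_
        rintro b (⟨p, rfl⟩ | ⟨p, rfl⟩)
        · exact Or.inr ⟨f x, by simp, p, rfl⟩
        · exact Or.inr ⟨f y, by simp, p, rfl⟩
      refine PAS_comp1 h2 h3 hPG ?_
      rintro b (⟨p, rfl⟩ | ⟨p, rfl⟩)
      · exact ⟨s (a (f x)) (σ p), Or.inl ⟨σ p, rfl⟩, Or.inl ⟨σ p, by rw [hσ]; rfl⟩⟩
      · exact ⟨s (a (f y)) (τ p), Or.inr ⟨τ p, rfl⟩, Or.inr ⟨τ p, by rw [hτ]; rfl⟩⟩

end HERN
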