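import Pool.Agent.HERN.St

/-!
# HERN, module PCM: types which meet `A`
-/

set_option autoImplicit false
set_option linter.unusedVariables false

namespace HERN

open Set Pool.Agent.Helper5.DU Pool.Agent.Helper6.Str Pool.Agent.Helper79.VC
  Pool.Agent.Helper97.LO Pool.Agent.Helper97.VC HER

theorem thm_PCM : St_PCM := by
  intro L M S F G n I _ β _ V hP hG hF hV
  have h1 : ∀ g : M, ∃ cl, Cm S (insert g G) n V cl := fun g =>
    hP.com (insert g G) (hG.insert g) (hF.trans (subset_insert g G)) I β V
      fun i => (hV i).insertG g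
  choose c hc using h1
  have hsub : ∀ (A : Set M) (g : M), g ∈ A → c g A ⊆ A ∪ ⋃ g ∈ A, c g A := fun A g hg =>
    (subset_biUnion_of_mem (u := fun g => c g A) hg).trans subset_union_right
  refine ⟨fun A => A ∪ ⋃ g ∈ A, c g A, ⟨?_, fun A => subset_union_left, ?_⟩, ?_⟩
  · intro A B hAB
    refine union_subset_union hAB (iUnion₂_subset fun g hg => ?_)
    exact ((hc g).icl.mono A B hAB).trans (subset_biUnion_of_mem (u := fun g => c g B) (hAB hg))
  · intro A hA
    exact hA.union (hA.biUnion fun g _ => (hc g).icl.ctbl A hA)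
  · intro J _ l w w' rk rk' A hA hrk hrk' hw hw' hg hg' g hgA
    refine (hc g).com J l w w' rk rk' A hA hrk hrk' hw hw' (fun j => ?_) (fun j => ?_)
    · exact (hg j).anti (hsub _ g (Or.inl hgA))
    · exact (hg' j).anti (hsub _ g (Or.inl hgA))

end HERN
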