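import Pool.Agent.HERN.St

/-!
# HERN [PGG]: partially good families with trivial labels are good
-/

set_option autoImplicit false
set_option linter.unusedVariables false
set_option linter.unusedSectionVars false

namespace HERN

open Set Pool.Agent.Helper5.DU Pool.Agent.Helper6.Str Pool.Agent.Helper79.VC
  Pool.Agent.Helper97.LO Pool.Agent.Helper97.VC HER

private theorem PGG_encard {M β : Type} [Finite β] {w w' : β → M} (hw : Function.Injective w) :
    (prs w w').encard = Nat.card β := by
  have hinj : Function.Injective fun i => (w i, w' i) := fun i j h => hw (congrArg Prod.fst h)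
  rw [prs, ← image_univ, hinj.encard_image, encard_univ, ENat.card_eq_coe_natCard]

theorem thm_PGG : St_PGG := by
  classical
  intro L M S G n β _ V hPG hT
  refine ⟨hPG.fam, fun A hA => ?_⟩
  obtain ⟨E₀, hE₀, h0⟩ := hPG.pg A hA
  have hE : ∀ U : Set M, ∃ E : Set M, E.Countable ∧ (Trv S G V U → ∀ w ∈ V, ∀ w' ∈ V,
      Off E w → Off E w' → AtEq S S (dg G ∪ dg U ∪ prs w w')) := by
    intro U
    by_cases h : Trv S G V U
    · obtain ⟨E, hE, h1⟩ := h
      exact ⟨E, hE, fun _ => h1⟩
    · exact ⟨∅, countable_empty, fun h' => absurd h' h⟩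
  choose E1 hE1 h1 using hE
  have hcf : {U : Set M | U ⊆ A ∧ U.Finite}.Countable :=
    (countable_ofPred_finite_subset hA).mono fun U (hU : U ⊆ A ∧ U.Finite) =>
      show U.Finite ∧ U ⊆ A from ⟨hU.2, hU.1⟩
  refine ⟨E₀ ∪ ⋃ U ∈ {U : Set M | U ⊆ A ∧ U.Finite}, E1 U,
    hE₀.union (hcf.biUnion fun U _ => hE1 U), fun w hw w' hw' hoff hoff' => ?_⟩
  rw [off_union] at hoff hoff'
  obtain ⟨h2, h3⟩ := h0 w hw w' hw' hoff.1 hoff'.1
  intro q hq hqn
  by_cases hP : {p | (w p, w' p) ∈ q} = univ
  · have hsub : prs w w' ⊆ q := by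
      rintro a ⟨p, rfl⟩
      have : p ∈ {p | (w p, w' p) ∈ q} := by rw [hP]; trivial
      exact this
    set U : Set M := {x | x ∈ A ∧ (x, x) ∈ q ∧ (x, x) ∉ prs w w'} with hU
    have hUq : dg U ∪ prs w w' ⊆ q := by
      rintro a (⟨x, hx, rfl⟩ | ha)
      · exact hx.2.1
      · exact hsub ha
    have hqU : q ⊆ dg U ∪ prs w w' := by
      intro a ha
      by_cases ha' : a ∈ prs w w'
      · exact Or.inr ha'
      · rcases hq ha with h4 | h4
        · obtain ⟨x, hx, rfl⟩ := h4
          exact Or.inl ⟨x, ⟨hx, ha, ha'⟩, rfl⟩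
        · exact absurd h4 ha'
    have hdis : Disjoint (dg U) (prs w w') := by
      rw [Set.disjoint_left]
      rintro a ⟨x, hx, rfl⟩ ha
      exact hx.2.2 ha
    have hdg : (dg U).encard = U.encard := by
      have hinj : Function.Injective fun x : M => (x, x) := fun x y h => congrArg Prod.fst h
      exact hinj.encard_image U
    have hcard : U.encard + Nat.card β ≤ n + 1 := by
      have h5 : (dg U ∪ prs w w').encard ≤ q.encard := encard_le_encard hUq
      rw [encard_union_eq hdis, hdg, PGG_encard (hPG.fam.inj hw)] at h5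
      exact h5.trans (by exact_mod_cast hqn)
    have hUf : U.Finite := by
      rw [← encard_lt_top_iff]
      refine lt_of_le_of_lt (le_self_add.trans hcard) ?_
      exact_mod_cast ENat.natCast_lt_top (n + 1)
    have hUm : U ∈ {U : Set M | U ⊆ A ∧ U.Finite} := ⟨fun x hx => hx.1, hUf⟩
    have hEU : E1 U ⊆ ⋃ U ∈ {U : Set M | U ⊆ A ∧ U.Finite}, E1 U :=
      subset_biUnion_of_mem (u := fun U => E1 U) hUm
    have h6 := h1 U (hT U hcard) w hw w' hw' (hoff.2.anti hEU) (hoff'.2.anti hEU)
    refine h6.anti ?_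
    rintro a (ha | ha)
    · exact Or.inl (Or.inl ha)
    · rcases hqU ha with h7 | h7
      · exact Or.inl (Or.inr h7)
      · exact Or.inr h7
  · refine h2 _ hP q ?_ hqn
    intro a ha
    rcases hq ha with h4 | ⟨p, rfl⟩
    · exact Or.inl h4
    · exact Or.inr ⟨p, ha, rfl⟩

end HERN
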