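import Pool.Agent.HERN.St

/-!
# HERN [PGL]: large tuples
-/

set_option autoImplicit false
set_option linter.unusedVariables false
set_option linter.unusedSectionVars false

namespace HERN

open Set Pool.Agent.Helper5.DU Pool.Agent.Helper6.Str Pool.Agent.Helper79.VC
  Pool.Agent.Helper97.LO Pool.Agent.Helper97.VC HER

theorem thm_PGL (hG : St_PGG) : St_PGL := by
  intro L M S G n β _ V hFT hPG hn
  obtain ⟨C, hC, t, ht⟩ := hFT β
  obtain ⟨c, hc⟩ := exists_uncountable_fiber hPG.fam.unc t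
  refine ⟨{w ∈ V | t w = c}, fun w hw => hw.1, ?_⟩
  refine hG L M S G n β _ ⟨hPG.fam.mono (fun w hw => hw.1) hc, fun A hA => ?_⟩ ?_
  · obtain ⟨E, hE, h1⟩ := hPG.pg A hA
    exact ⟨E, hE, fun w hw w' hw' => h1 w hw.1 w' hw'.1⟩
  · intro U hU
    have hU0 : U = ∅ := by
      rw [← encard_eq_zero]
      by_contra h0
      have h1 : (1 : ℕ∞) ≤ U.encard := Order.one_le_iff_pos.2 (pos_iff_ne_zero.2 h0)
      have h2 : (1 : ℕ∞) + Nat.card β ≤ n + 1 := (by gcongr : (1 : ℕ∞) + Nat.card β ≤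
        U.encard + Nat.card β).trans hU
      have h3 : 1 + Nat.card β ≤ n + 1 := by exact_mod_cast h2
      omega
    refine ⟨∅, countable_empty, fun w hw w' hw' _ _ => ?_⟩
    have h1 := (ht w w').1 (hw.2.trans hw'.2.symm)
    refine h1.anti ?_
    rintro a ((ha | ha) | ha)
    · exact Or.inl ha
    · rw [hU0] at ha
      obtain ⟨x, hx, -⟩ := ha
      exact absurd hx (notMem_empty x)
    · exact Or.inr ha

end HERN
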