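import Pool.Agent.HERN.St

/-!
# HERN [PGX]: partially good families
-/

set_option autoImplicit false
set_option linter.unusedVariables false
set_option linter.unusedSectionVars false

namespace HERN

open Set Pool.Agent.Helper5.DU Pool.Agent.Helper6.Str Pool.Agent.Helper79.VC
  Pool.Agent.Helper97.LO Pool.Agent.Helper97.VC HER

section

variable {β M : Type}

/-- restriction of tuples -/
private def PGX_r (P : Set β) (w : β → M) : P → M := fun p => w p

private theorem PGX_inj {V : Set (β → M)} (hV : Fam V) {P : Set β} (hP : P.Nonempty) :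
    InjOn (PGX_r P) V := by
  intro w hw w' hw' h
  obtain ⟨p, hp⟩ := hP
  exact (hV.dis w hw w' hw' p p (congrFun h ⟨p, hp⟩)).1

private theorem PGX_fam {V : Set (β → M)} (hV : Fam V) {P : Set β} (hP : P.Nonempty) :
    Fam (PGX_r P '' V) := by
  refine ⟨fun h => hV.unc (countable_of_injective_of_countable_image (PGX_inj hV hP) h), ?_⟩
  rintro _ ⟨w, hw, rfl⟩ _ ⟨w', hw', rfl⟩ p q hpq
  obtain ⟨h1, h2⟩ := hV.dis w hw w' hw' p q hpq
  exact ⟨by rw [h1], Subtype.ext h2⟩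

private theorem PGX_prt (P : Set β) (w w' : β → M) :
    prt P w w' = prs (PGX_r P w) (PGX_r P w') := by
  ext a
  constructor
  · rintro ⟨p, hp, rfl⟩
    exact ⟨⟨p, hp⟩, rfl⟩
  · rintro ⟨⟨p, hp⟩, rfl⟩
    exact ⟨p, hp, rfl⟩

end

theorem thm_PGX : St_PGX := by
  classical
  intro L M S F G n β _ V hPN hGf hFG hPT hV
  -- shrink the family
  have hshr : ∀ s : Finset (Set β), (∀ P ∈ s, P ≠ univ ∧ P.Nonempty) → ∃ V' ⊆ V, Fam V' ∧
      ∀ P ∈ s, Gd S G (n + 1) (PGX_r P '' V') := by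
    intro s
    induction s using Finset.induction_on with
    | empty =>
      intro _
      exact ⟨V, Subset.rfl, hV, fun P hP => absurd hP (Finset.notMem_empty P)⟩
    | insert P s hPs ih =>
      intro hs
      obtain ⟨V', hV', hF', h1⟩ := ih fun Q hQ => hs Q (Finset.mem_insert_of_mem hQ)
      obtain ⟨hP1, hP2⟩ := hs P (Finset.mem_insert_self P s)
      obtain ⟨k, U, hU, hrest⟩ := hPT P (PGX_r P '' V') hP1 (PGX_fam hF' hP2)
      -- a piece with uncountable preimage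
      have hex : ∃ i, ¬ {w ∈ V' | PGX_r P w ∈ U i}.Countable := by
        by_contra hcon
        push Not at hcon
        apply hF'.unc
        have h2 : {w ∈ V' | PGX_r P w ∉ ⋃ i, U i}.Countable := by
          have h3 : (PGX_r P '' {w ∈ V' | PGX_r P w ∉ ⋃ i, U i}).Countable := by
            refine hrest.mono ?_
            rintro _ ⟨w, hw, rfl⟩
            exact ⟨⟨w, hw.1, rfl⟩, hw.2⟩
          exact countable_of_injective_of_countable_image
            ((PGX_inj hF' hP2).mono (s₁ := {w ∈ V' | PGX_r P w ∉ ⋃ i, U i}) fun w hw => hw.1) h3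
        refine ((countable_iUnion hcon).union h2).mono ?_
        intro w hw
        by_cases h4 : PGX_r P w ∈ ⋃ i, U i
        · obtain ⟨i, hi⟩ := mem_iUnion.1 h4
          exact Or.inl (mem_iUnion.2 ⟨i, hw, hi⟩)
        · exact Or.inr ⟨hw, h4⟩
      obtain ⟨i, hi⟩ := hex
      have hF'' : Fam {w ∈ V' | PGX_r P w ∈ U i} := hF'.mono (fun w hw => hw.1) hi
      refine ⟨{w ∈ V' | PGX_r P w ∈ U i}, fun w hw => hV' hw.1, hF'', ?_⟩
      intro Q hQ
      have hQ' := hs Q hQ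
      rcases Finset.mem_insert.1 hQ with rfl | hQs
      · refine (hU i).2.mono ?_ (PGX_fam hF'' hQ'.2).unc
        rintro _ ⟨w, hw, rfl⟩
        exact hw.2
      · refine (h1 Q hQs).mono ?_ (PGX_fam hF'' hQ'.2).unc
        rintro _ ⟨w, hw, rfl⟩
        exact ⟨w, hw.1, rfl⟩
  have : Fintype (Set β) := Fintype.ofFinite _
  obtain ⟨V', hV', hF', h1⟩ := hshr (Finset.univ.filter fun P => P ≠ univ ∧ P.Nonempty)
    (fun P hP => (Finset.mem_filter.1 hP).2)
  obtain ⟨V'', hV'', hGd⟩ := (hPN.pt G hGf hFG β V' hF').1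
  refine ⟨V'', hV''.trans hV', hGd.fam, fun A hA => ?_⟩
  obtain ⟨E₀, hE₀, h2⟩ := hGd.eqv A hA
  have hE : ∀ P : Set β, ∃ E : Set M, E.Countable ∧ (P ≠ univ → P.Nonempty → ∀ w ∈ V',
      ∀ w' ∈ V', Off E w → Off E w' → TE S G (n + 1) (dg A ∪ prt P w w')) := by
    intro P
    by_cases hP : P ≠ univ ∧ P.Nonempty
    · obtain ⟨E, hE, h3⟩ := (h1 P (Finset.mem_filter.2 ⟨Finset.mem_univ P, hP⟩)).eqv A hA
      refine ⟨E, hE, fun _ _ w hw w' hw' h4 h5 => ?_⟩
      rw [PGX_prt]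
      exact h3 _ ⟨w, hw, rfl⟩ _ ⟨w', hw', rfl⟩ (fun p => h4 p) (fun p => h5 p)
    · exact ⟨∅, countable_empty, fun h3 h4 => absurd ⟨h3, h4⟩ hP⟩
  choose E1 hE1 h3 using hE
  refine ⟨E₀ ∪ ⋃ P, E1 P, hE₀.union (countable_iUnion hE1), fun w hw w' hw' ho ho' => ?_⟩
  rw [off_union] at ho ho'
  refine ⟨fun P hP => ?_, h2 w hw w' hw' ho.1 ho'.1⟩
  by_cases hPn : P.Nonempty
  · exact h3 P hP hPn w (hV'' hw) w' (hV'' hw') (ho.2.anti (subset_iUnion E1 P))
      (ho'.2.anti (subset_iUnion E1 P))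
  · rw [not_nonempty_iff_eq_empty] at hPn
    subst hPn
    refine te_diag S G (n + 1) ?_
    rintro a (⟨x, -, rfl⟩ | ⟨p, hp, -⟩)
    · rfl
    · exact absurd hp (notMem_empty p)

end HERN
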