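import Pool.Agent.HERN.St

/-!
# HERN: level `0` of the induction
-/

set_option autoImplicit false
set_option linter.unusedVariables false

namespace HERN

open Set Pool.Agent.Helper5.DU Pool.Agent.Helper6.Str Pool.Agent.Helper79.VC
  Pool.Agent.Helper97.LO Pool.Agent.Helper97.VC HER

private theorem te_zero {L : FirstOrder.Language.{0, 0}} {M : Type} (S : L.Structure M)
    (G : Set M) (p : Set (M × M)) : TE S G 0 p := by
  intro q hq hn
  have h : q = ∅ := by simpa using hn
  subst h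
  rw [union_empty]
  refine atEq_diag S ?_
  rintro _ ⟨x, -, rfl⟩
  rfl

theorem thm_PN0 : St_PN0 := by
  intro L M S F hC
  refine ⟨?_, ?_, ?_⟩
  · intro G hG hFG I _ β _ V hV
    exact ⟨id, ⟨fun A B h => h, fun A => Subset.rfl, fun A h => h⟩,
      fun J _ l w w' rk rk' A _ _ _ _ _ _ _ => te_zero S G _⟩
  · intro G hG hFG β _ V hV
    have hg : Gd S G 0 V :=
      ⟨hV, fun A hA => ⟨∅, countable_empty, fun w _ w' _ _ _ => te_zero S G _⟩⟩
    refine ⟨⟨V, Subset.rfl, hg⟩, 1, fun _ => V, fun _ => ⟨Subset.rfl, hg⟩, ?_⟩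
    have h1 : V \ ⋃ _ : Fin 1, V = ∅ := by
      rw [sdiff_eq_empty]
      exact fun w hw => mem_iUnion.mpr ⟨0, hw⟩
    rw [h1]
    exact countable_empty
  · rintro G hG hFG β _ ⟨V, hV, h⟩
    exact h 0 1 (by decide) fun A hA => ⟨∅, countable_empty, fun w _ w' _ _ _ => te_zero S G _⟩

end HERN
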