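import Pool.Agent.HERN.St

/-!
# HERN, module PNS: the induction step
-/

set_option autoImplicit false

namespace HERN

open Set Pool.Agent.Helper5.DU Pool.Agent.Helper6.Str Pool.Agent.Helper79.VC
  Pool.Agent.Helper97.LO Pool.Agent.Helper97.VC HER

theorem thm_PNS (hCOM : St_COM) (hBN : St_BN) (hPT : St_PTF) (hCN : St_CN) : St_PNS := by
  intro L M S F n hC hN
  have hcom : ∀ G : Set M, G.Finite → F ⊆ G → ∀ (I : Type) [Countable I] (β : I → Type)
      [∀ i, Finite (β i)] (V : ∀ i, Set (β i → M)), (∀ i, Gd S G (n + 1) (V i)) →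
      ∃ cl, Cm S G (n + 1) V cl := by
    intro G hG hFG I _ β _ V hV
    exact hCOM L M S F G n I β V hC hN hG hFG hV
  have hcc : ∀ G : Set M, G.Finite → F ⊆ G → ∀ (β : Type) [Finite β],
      ¬ ∃ V : ℕ → Set (β → M), (∀ i, Gd S G (n + 1) (V i)) ∧
        ∀ i j, i ≠ j → ¬ Eqv S G (n + 1) (V i) (V j) := by
    intro G hG hFG β _
    exact hCN L M S F G (n + 1) β hC.rows (hC.ft G hG hFG) hG hFG
      fun V hV => hcom G hG hFG ℕ (fun _ => β) V hV
  have hmain : ∀ (m : ℕ) (G : Set M), G.Finite → F ⊆ G → ∀ (β : Type) [Finite β],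
      Nat.card β = m → ∀ V : Set (β → M), Fam V →
      (∃ V' ⊆ V, Gd S G (n + 1) V') ∧ PT S G (n + 1) V := by
    intro m
    induction m using Nat.strong_induction_on with
    | _ m ih =>
      intro G hG hFG β _ hm V hV
      have hP : ∀ (P : Set β) (V' : Set (P → M)), P ≠ univ → Fam V' → PT S G (n + 1) V' := by
        intro P V' hPu hV'
        refine (ih (Nat.card P) ?_ G hG hFG P rfl V' hV').2
        rw [← hm]
        have h1 : P.ncard < (univ : Set β).ncard :=
          Set.ncard_lt_ncard (Set.ssubset_univ_iff.mpr hPu) (Set.toFinite _)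
        rw [Set.ncard_univ] at h1
        exact h1
      have hB : ∀ V' : Set (β → M), Fam V' → ∃ V'' ⊆ V', Gd S G (n + 1) V'' := fun V' hV' =>
        hBN L M S F G n β V' hC hN hG hFG hP hV'
      refine ⟨hB V hV, hPT L M S G (n + 1) β V hV (fun V' _ hV' => hB V' hV') ?_⟩
      rintro ⟨U, hU, hU'⟩
      exact hcc G hG hFG β ⟨U, fun i => (hU i).2, hU'⟩
  exact ⟨hcom, fun G hG hFG β _ V hV => hmain _ G hG hFG β rfl V hV, hcc⟩

end HERN
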