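import Pool.Agent.HERN.St

/-!
# HERN: partition of a family in good families
-/

set_option autoImplicit false
set_option linter.unusedVariables false

namespace HERN

open Set Pool.Agent.Helper5.DU Pool.Agent.Helper6.Str Pool.Agent.Helper79.VC
  Pool.Agent.Helper97.LO Pool.Agent.Helper97.VC HER

section

variable {L : FirstOrder.Language.{0, 0}} {M β : Type} {S : L.Structure M} {G : Set M} {n : ℕ}

/-- composition over a common set of constants -/
private theorem PTF_comp {A : Set M} {u v w : β → M} (h : TE S G n (dg A ∪ prs u v))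
    (h' : TE S G n (dg A ∪ prs v w)) : TE S G n (dg A ∪ prs u w) := by
  refine h.comp h' ?_
  rintro a (⟨x, hx, rfl⟩ | ⟨i, rfl⟩)
  · exact ⟨x, Or.inl ⟨x, hx, rfl⟩, Or.inl ⟨x, hx, rfl⟩⟩
  · exact ⟨v i, Or.inr ⟨i, rfl⟩, Or.inr ⟨i, rfl⟩⟩

private theorem PTF_symm {A : Set M} {u v : β → M} (h : TE S G n (dg A ∪ prs u v)) :
    TE S G n (dg A ∪ prs v u) := by
  refine h.symm' ?_
  rintro a (⟨x, hx, rfl⟩ | ⟨i, rfl⟩)
  · exact Or.inl ⟨x, hx, rfl⟩
  · exact Or.inr ⟨i, rfl⟩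

private theorem PTF_anti {A B : Set M} {u v : β → M} (h : TE S G n (dg B ∪ prs u v))
    (hA : A ⊆ B) : TE S G n (dg A ∪ prs u v) :=
  h.anti (union_subset_union_left _ (dg_mono hA))

end

theorem thm_PTF : St_PTF := by
  classical
  intro L M S G n β _ V hV hB hC
  -- a finite net of good families
  obtain ⟨s, hs1, hs2⟩ : ∃ s : Finset (Set (β → M)), (∀ U ∈ s, U ⊆ V ∧ Gd S G n U) ∧
      ∀ U, U ⊆ V ∧ Gd S G n U → ∃ U' ∈ s, Eqv S G n U' U := by
    by_contra hcon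
    push Not at hcon
    apply hC
    obtain ⟨f, hf1, hf2⟩ := exists_seq_of_forall_finset_exists
      (fun U : Set (β → M) => U ⊆ V ∧ Gd S G n U) (fun U U' => ¬ Eqv S G n U U')
      (fun s hs => by
        obtain ⟨U, hU, h⟩ := hcon s hs
        exact ⟨U, hU, h⟩)
    refine ⟨f, hf1, fun i j hij h => ?_⟩
    rcases lt_or_gt_of_ne hij with h1 | h1
    · exact hf2 i j h1 h
    · exact hf2 j i h1 h.symm
  -- the countable set on which inequivalent families differ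
  have hA0 : ∀ U U' : Set (β → M), ∃ A : Set M, A.Countable ∧ (¬ Eqv S G n U U' →
      ∀ E : Set M, E.Countable → ∃ w ∈ U, ∃ w' ∈ U', Off E w ∧ Off E w' ∧
        ¬ TE S G n (dg A ∪ prs w w')) := by
    intro U U'
    by_cases h : Eqv S G n U U'
    · exact ⟨∅, countable_empty, fun h1 => absurd h h1⟩
    · unfold Eqv at h
      push Not at h
      obtain ⟨A, hA, h1⟩ := h
      refine ⟨A, hA, fun _ E hE => ?_⟩
      obtain ⟨w, hw, w', hw', h2, h3, h4⟩ := h1 E hE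
      exact ⟨w, hw, w', hw', h2, h3, h4⟩
  choose A0 hA01 hA02 using hA0
  obtain ⟨As, hAs, hAsub⟩ : ∃ As : Set M, As.Countable ∧ ∀ U ∈ s, ∀ U' ∈ s, A0 U U' ⊆ As := by
    refine ⟨⋃ U ∈ s, ⋃ U' ∈ s, A0 U U', ?_, fun U hU U' hU' => ?_⟩
    · exact s.countable_toSet.biUnion fun U _ => s.countable_toSet.biUnion fun U' _ => hA01 U U'
    · exact (subset_iUnion₂_of_subset U hU (subset_iUnion₂_of_subset U' hU' Subset.rfl))
  -- the exceptional sets
  have hE0 : ∀ A : Set M, A.Countable → ∃ E : Set M, E.Countable ∧ ∀ U ∈ s, ∀ w ∈ U, ∀ w' ∈ U,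
      Off E w → Off E w' → TE S G n (dg A ∪ prs w w') := by
    intro A hA
    have h1 : ∀ U : Set (β → M), ∃ E : Set M, E.Countable ∧ (U ∈ s → ∀ w ∈ U, ∀ w' ∈ U,
        Off E w → Off E w' → TE S G n (dg A ∪ prs w w')) := by
      intro U
      by_cases hU : U ∈ s
      · obtain ⟨E, hE, h2⟩ := (hs1 U hU).2.eqv A hA
        exact ⟨E, hE, fun _ => h2⟩
      · exact ⟨∅, countable_empty, fun h => absurd h hU⟩
    choose E hE h2 using h1
    refine ⟨⋃ U ∈ s, E U, s.countable_toSet.biUnion fun U _ => hE U, ?_⟩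
    intro U hU w hw w' hw' h3 h4
    have h5 : E U ⊆ ⋃ U ∈ s, E U := subset_iUnion₂_of_subset U hU Subset.rfl
    exact h2 U hU w hw w' hw' (h3.anti h5) (h4.anti h5)
  obtain ⟨Es, hEs, hEgood⟩ := hE0 As hAs
  -- members which agree over `As` are in equivalent families
  have hdiff : ∀ U ∈ s, ∀ U' ∈ s, ∀ v ∈ U, ∀ v' ∈ U', Off Es v → Off Es v' →
      TE S G n (dg As ∪ prs v v') → Eqv S G n U U' := by
    intro U hU U' hU' v hv v' hv' h1 h2 h3
    by_contra h4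
    obtain ⟨w, hw, w', hw', h5, h6, h7⟩ := hA02 U U' h4 Es hEs
    apply h7
    exact PTF_anti (PTF_comp (hEgood U hU w hw v hv h5 h1)
      (PTF_comp h3 (hEgood U' hU' v' hv' w' hw' h2 h6))) (hAsub U hU U' hU')
  have hw0 : ∀ U : Set (β → M), ∃ w : β → M, U ∈ s → w ∈ U ∧ Off Es w := by
    intro U
    by_cases hU : U ∈ s
    · obtain ⟨w, hw, h⟩ := (hs1 U hU).2.fam.exists_off hEs
      exact ⟨w, fun _ => ⟨hw, h⟩⟩
    · obtain ⟨w, hw, -⟩ := hV.exists_off countable_empty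
      exact ⟨w, fun h => absurd h hU⟩
  choose W hW using hw0
  let VV : Set (β → M) → Set (β → M) := fun U => {w ∈ V | TE S G n (dg As ∪ prs (W U) w)}
  have hVV : ∀ U ∈ s, VV U ⊆ V ∧ Gd S G n (VV U) := by
    intro U hU
    obtain ⟨hUV, hUg⟩ := hs1 U hU
    refine ⟨fun w hw => hw.1, ?_, ?_⟩
    · refine hV.mono (fun w hw => hw.1) fun h => hUg.fam.unc_off hEs (h.mono ?_)
      rintro w ⟨hw, hwE⟩
      exact ⟨hUV hw, hEgood U hU _ (hW U hU).1 w hw (hW U hU).2 hwE⟩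
    · intro A hA
      have hA' : (A ∪ As).Countable := hA.union hAs
      obtain ⟨EA, hEA, hEAg⟩ := hE0 (A ∪ As) hA'
      obtain ⟨v, hv, hvE⟩ := hUg.fam.exists_off hEA
      have hD : {w ∈ VV U | ¬ TE S G n (dg (A ∪ As) ∪ prs v w)}.Countable := by
        by_contra hD
        obtain ⟨V'', h1, h2⟩ := hB {w ∈ VV U | ¬ TE S G n (dg (A ∪ As) ∪ prs v w)}
          (fun w hw => hw.1.1) (hV.mono (fun w hw => hw.1.1) hD)
        obtain ⟨U', hU', h3⟩ := hs2 V'' ⟨fun w hw => (h1 hw).1.1, h2⟩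
        -- `U'` is equivalent to `U`
        have h4 : Eqv S G n U U' := by
          obtain ⟨E, hE, h5⟩ := h3 As hAs
          obtain ⟨v'', hv'', h6⟩ := h2.fam.exists_off hE
          obtain ⟨u, hu, h7⟩ := (hs1 U' hU').2.fam.exists_off (hE.union hEs)
          rw [off_union] at h7
          exact hdiff U hU U' hU' _ (hW U hU).1 u hu (hW U hU).2 h7.2
            (PTF_comp (h1 hv'').1.2 (PTF_symm (h5 u hu v'' hv'' h7.1 h6)))
        obtain ⟨E, hE, h5⟩ := (h4.trans (hs1 U' hU').2.fam h3) (A ∪ As) hA'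
        obtain ⟨v'', hv'', h6⟩ := h2.fam.exists_off hE
        obtain ⟨u, hu, h7⟩ := hUg.fam.exists_off (hE.union hEA)
        rw [off_union] at h7
        exact (h1 hv'').2 (PTF_comp (hEAg U hU v hv u hu hvE h7.2) (h5 u hu v'' hv'' h7.1 h6))
      refine ⟨_, countable_ranges hD, ?_⟩
      have hne := hV.nonempty
      have hkey : ∀ w ∈ VV U, Off {x | ∃ w ∈ {w ∈ VV U |
          ¬ TE S G n (dg (A ∪ As) ∪ prs v w)}, x ∈ range w} w →
          TE S G n (dg (A ∪ As) ∪ prs v w) := by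
        intro w hw h
        by_contra h1
        obtain ⟨i⟩ := hne
        exact h i ⟨w, ⟨hw, h1⟩, mem_range_self i⟩
      intro w hw w' hw' h1 h2
      exact PTF_anti (PTF_comp (PTF_symm (hkey w hw h1)) (hkey w' hw' h2)) subset_union_left
  refine ⟨s.card, fun i => VV (s.equivFin.symm i).1, fun i => hVV _ (s.equivFin.symm i).2, ?_⟩
  by_contra hcon
  obtain ⟨V'', h1, h2⟩ := hB _ sdiff_subset (hV.mono sdiff_subset hcon)
  obtain ⟨U, hU, h3⟩ := hs2 V'' ⟨h1.trans sdiff_subset, h2⟩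
  obtain ⟨E, hE, h5⟩ := h3 As hAs
  obtain ⟨v, hv, h6⟩ := h2.fam.exists_off hE
  obtain ⟨u, hu, h7⟩ := (hs1 U hU).2.fam.exists_off (hE.union hEs)
  rw [off_union] at h7
  refine (h1 hv).2 (mem_iUnion.2 ⟨s.equivFin ⟨U, hU⟩, ?_⟩)
  rw [Equiv.symm_apply_apply]
  exact ⟨(h1 hv).1, PTF_comp (hEgood U hU _ (hW U hU).1 u hu (hW U hU).2 h7.2)
    (h5 u hu v hv h7.1 h6)⟩

end HERN
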