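import Pool.Agent.HERN.St
import Pool.Agent.Helper18.EH.Ramsey

/-!
# HERN, module RAMN: Ramsey's theorem for `k`-subsets
-/

set_option autoImplicit false

namespace HERN

open Set Pool.Agent.Helper5.DU Pool.Agent.Helper6.Str Pool.Agent.Helper79.VC
  Pool.Agent.Helper97.LO Pool.Agent.Helper97.VC HER

theorem thm_RAMN : St_RAMN := by
  classical
  intro C _ k c
  let F : Finset ℕ → C := fun s =>
    if h : s.card = k then c (s.orderEmbOfFin h) else c fun _ => 0
  obtain ⟨B, -, hB, κ, hκ⟩ := Pool.Agent.Helper18.EH.ramsey k F Set.univ Set.infinite_univ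
  have hBi : Infinite B := hB.to_subtype
  let φ : ℕ → ℕ := fun i => (Nat.orderEmbeddingOfSet B) i
  have hφ : StrictMono φ := (Nat.orderEmbeddingOfSet B).strictMono
  have hφB : ∀ i, φ i ∈ B := fun i => by
    have h1 : φ i ∈ Set.range (Nat.orderEmbeddingOfSet B) := ⟨i, rfl⟩
    rwa [Nat.orderEmbeddingOfSet_range] at h1
  refine ⟨φ, κ, hφ, fun v hv => ?_⟩
  let s : Finset ℕ := Finset.univ.image (φ ∘ v)
  have hinj : Function.Injective (φ ∘ v) := (hφ.comp hv).injective
  have hs : s.card = k := by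
    rw [Finset.card_image_of_injective _ hinj, Finset.card_univ, Fintype.card_fin]
  have h1 : F s = κ := by
    refine hκ s ?_ hs
    intro x hx
    obtain ⟨i, -, rfl⟩ := Finset.mem_image.1 (Finset.mem_coe.1 hx)
    exact hφB _
  have h2 : F s = c (s.orderEmbOfFin hs) := dif_pos hs
  have h3 : φ ∘ v = s.orderEmbOfFin hs :=
    Finset.orderEmbOfFin_unique hs (fun i => Finset.mem_image_of_mem _ (Finset.mem_univ i))
      (hφ.comp hv)
  rw [h3, ← h2, h1]

end HERN
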