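import Pool.Agent.HERN.St

/-!
# HERN: classes of good blocks
-/

set_option autoImplicit false
set_option linter.unusedVariables false

namespace HERN

open Set Pool.Agent.Helper5.DU Pool.Agent.Helper6.Str Pool.Agent.Helper79.VC
  Pool.Agent.Helper97.LO Pool.Agent.Helper97.VC HER

section

variable {L : FirstOrder.Language.{0, 0}} {M : Type} {S : L.Structure M} {G : Set M} {n : ℕ}
  {X : Set M} {β γ : Type}

private theorem RCL_fix {u v : β → M} {x : M} (hx : x ∈ X) (h1 : x ∉ range u)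
    (h2 : x ∉ range v) : (x, x) ∈ SW X u v := Or.inl (Or.inl ⟨rfl, hx, h1, h2⟩)

private theorem RCL_l {u v : β → M} (p : β) : (u p, v p) ∈ SW X u v := Or.inl (Or.inr ⟨p, rfl⟩)

private theorem RCL_r {u v : β → M} (p : β) : (v p, u p) ∈ SW X u v := Or.inr ⟨p, rfl⟩

private theorem RCL_symm (u v : β → M) : SW X u v = SW X v u := by
  ext a
  unfold SW
  simp only [mem_union, mem_ofPred_eq]
  tauto

private theorem RCL_perm {u v : β → M} (hu : Function.Injective u) (hv : Function.Injective v)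
    (h : range u = range v) : ∃ π : Equiv.Perm β, v = u ∘ π := by
  refine ⟨(Equiv.ofInjective v hv).trans ((Equiv.setCongr h.symm).trans
    (Equiv.ofInjective u hu).symm), ?_⟩
  funext p
  have h1 := Equiv.apply_ofInjective_symm hu ((Equiv.setCongr h.symm) (Equiv.ofInjective v hv p))
  exact h1.symm

private theorem RCL_comp (u v : β → M) (π : Equiv.Perm β) :
    SW X (u ∘ π) (v ∘ π) = SW X u v := by
  unfold SW
  rw [prs_comp_perm, prs_comp_perm, π.surjective.range_comp, π.surjective.range_comp]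

/-- conjugation of the exchange of `a` and `v ∘ f` by the exchange of `v` and `v'` -/
private theorem RCL_conj {v v' : β → M} (hD : Dj v v') (hv : ∀ p, v p ∈ X)
    (hv' : ∀ p, v' p ∈ X) (a : γ → M) (ha : ∀ q, a q ∈ X) (f : γ → β)
    (h1 : ∀ q p, a q ≠ v p) (h2 : ∀ q p, a q ≠ v' p) (hs : TE S G n (SW X v v'))
    (ht : TE S G n (SW X a (v ∘ f))) : TE S G n (SW X a (v' ∘ f)) := by
  obtain ⟨hi, hi', hd⟩ := hD
  have hst : TE S G n {c : M × M | ∃ b, (c.1, b) ∈ SW X v v' ∧ (b, c.2) ∈ SW X a (v ∘ f)} :=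
    hs.comp ht fun c hc => hc
  refine hst.comp hs ?_
  have e1 : ∀ p, v' p ∉ range v := by
    rintro p ⟨q, hq⟩
    exact hd q p hq
  have e1' : ∀ p, v p ∉ range v' := by
    rintro p ⟨q, hq⟩
    exact hd p q hq.symm
  have e2 : ∀ p, v' p ∉ range (v ∘ f) := by
    rintro p ⟨q, hq⟩
    exact e1 p ⟨f q, hq⟩
  have e3 : ∀ p, v p ∉ range a := by
    rintro p ⟨q, hq⟩
    exact h1 q p hq
  have e4 : ∀ p, v' p ∉ range a := by
    rintro p ⟨q, hq⟩
    exact h2 q p hq
  have e5 : ∀ q, a q ∉ range v := by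
    rintro q ⟨p, hp⟩
    exact h1 q p hp.symm
  have e6 : ∀ q, a q ∉ range v' := by
    rintro q ⟨p, hp⟩
    exact h2 q p hp.symm
  rintro ⟨x, y⟩ ((⟨hxy, hx, hxa, hxv⟩ | ⟨q, hq⟩) | ⟨q, hq⟩)
  · change x = y at hxy
    subst hxy
    change x ∈ X at hx
    change x ∉ range a at hxa
    change x ∉ range (v' ∘ f) at hxv
    by_cases h3 : x ∈ range v
    · obtain ⟨p, rfl⟩ := h3
      exact ⟨v' p, ⟨v' p, RCL_l p, RCL_fix (hv' p) (e4 p) (e2 p)⟩, RCL_r p⟩
    · by_cases h4 : x ∈ range v'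
      · obtain ⟨p, rfl⟩ := h4
        refine ⟨v p, ⟨v p, RCL_r p, RCL_fix (hv p) (e3 p) ?_⟩, RCL_l p⟩
        rintro ⟨q, hq⟩
        exact hxv ⟨q, by
          have : f q = p := hi hq
          show v' (f q) = v' p
          rw [this]⟩
      · exact ⟨x, ⟨x, RCL_fix hx h3 h4, RCL_fix hx hxa (by
          rintro ⟨q, hq⟩
          exact h3 ⟨f q, hq⟩)⟩, RCL_fix hx h3 h4⟩
  · obtain ⟨rfl, rfl⟩ := Prod.ext_iff.1 hq
    exact ⟨v (f q), ⟨a q, RCL_fix (ha q) (e5 q) (e6 q), RCL_l (u := a) (v := v ∘ f) q⟩,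
      RCL_l (f q)⟩
  · obtain ⟨rfl, rfl⟩ := Prod.ext_iff.1 hq
    exact ⟨a q, ⟨v (f q), RCL_r (f q), RCL_r (u := a) (v := v ∘ f) q⟩,
      RCL_fix (ha q) (e5 q) (e6 q)⟩

/-- labellings which can be exchanged with `w0` -/
private def RCL_T (S : L.Structure M) (G : Set M) (n : ℕ) (X : Set M) (w0 u : β → M) : Prop :=
  Function.Injective u ∧ (∀ p, u p ∈ X) ∧
    (u = w0 ∨ (Disjoint (range u) (range w0) ∧ TE S G n (SW X w0 u)))

private theorem RCL_ne {u v : β → M} {v' : γ → M} {u' : γ → M}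
    (h : Disjoint (range u) (range v')) (p : β) (q : γ) : u p ≠ v' q := by
  intro hpq
  exact Set.disjoint_left.1 h ⟨p, rfl⟩ ⟨q, hpq.symm⟩

private theorem RCL_TT {w0 u v : β → M} (h0 : Function.Injective w0) (h0X : ∀ p, w0 p ∈ X)
    (hu : RCL_T S G n X w0 u) (hv : RCL_T S G n X w0 v)
    (h : Disjoint (range u) (range v)) : TE S G n (SW X u v) := by
  obtain ⟨hui, huX, hu | ⟨hu1, hu2⟩⟩ := hu
  · obtain ⟨hvi, hvX, hv | ⟨hv1, hv2⟩⟩ := hv
    · subst hu
      subst hv
      rw [disjoint_self] at h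
      refine te_diag S G n ?_
      rintro a ((⟨ha, -⟩ | ⟨p, hp⟩) | ⟨p, hp⟩)
      · exact ha
      · have : v p ∈ range v := ⟨p, rfl⟩
        rw [h] at this
        exact this.elim
      · have : v p ∈ range v := ⟨p, rfl⟩
        rw [h] at this
        exact this.elim
    · rw [hu]
      exact hv2
  · obtain ⟨hvi, hvX, hv | ⟨hv1, hv2⟩⟩ := hv
    · rw [hv, RCL_symm]
      exact hu2
    · have h1 : Dj w0 v := ⟨h0, hvi, fun p q hpq =>
        Set.disjoint_left.1 hv1 ⟨q, rfl⟩ ⟨p, hpq⟩⟩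
      rw [RCL_symm] at hu2
      exact RCL_conj (f := id) h1 h0X hvX u huX (fun q p hqp =>
        Set.disjoint_left.1 hu1 ⟨q, rfl⟩ ⟨p, hqp.symm⟩) (fun q p hqp =>
        Set.disjoint_left.1 h ⟨q, rfl⟩ ⟨p, hqp.symm⟩) hv2 hu2

private theorem RCL_lab {w0 : β → M} (h0 : Function.Injective w0) {C : Set M}
    (hC : BE S G n X β (range w0) C) : ∃ c : β → M, Function.Injective c ∧ range c = C ∧
      (c = w0 ∨ (Disjoint (range c) (range w0) ∧ TE S G n (SW X w0 c))) := by
  rcases hC with hC | ⟨h, h', ⟨hi, hi', hd⟩, hr, hr', hT⟩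
  · exact ⟨w0, h0, hC, Or.inl rfl⟩
  · obtain ⟨π, hπ⟩ := RCL_perm hi h0 hr
    refine ⟨h' ∘ π, hi'.comp π.injective, ?_, Or.inr ⟨?_, ?_⟩⟩
    · rw [π.surjective.range_comp, hr']
    · rw [π.surjective.range_comp, ← hr, Set.disjoint_left]
      rintro _ ⟨p, rfl⟩ ⟨q, hq⟩
      exact hd q p hq
    · rw [hπ, RCL_comp]
      exact hT

private theorem RCL_GB {K : ℕ} {B : Set M} (h : GB S G n X β K B) :
    ∀ x ∈ B, x ∈ X ∧ x ∉ G := by
  obtain ⟨w, hw, k, rfl⟩ := h
  rintro _ ⟨p, rfl⟩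
  exact hw.inX k p

end

theorem thm_RCL (hN : St_NAB) (hB : St_RGB) : St_RCL := by
  intro L M S G n X β _ K hK
  refine ⟨?_, ?_, ?_, ?_⟩
  · rintro B B' (rfl | ⟨h, h', ⟨hi, hi', hd⟩, hr, hr', hT⟩)
    · exact Or.inl rfl
    · exact Or.inr ⟨h', h, ⟨hi', hi, fun p q hpq => hd q p hpq.symm⟩, hr', hr, by
        rw [RCL_symm]
        exact hT⟩
  · intro B B' B'' gB gB' gB'' e1 e2
    rcases e1 with rfl | ⟨h, h', ⟨hi, hi', hd⟩, hr, hr', hT⟩
    · exact e2
    rcases e2 with rfl | ⟨k, k', ⟨ki, ki', kd⟩, kr, kr', kT⟩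
    · exact Or.inr ⟨h, h', ⟨hi, hi', hd⟩, hr, hr', hT⟩
    by_cases hBB : B = B''
    · exact Or.inl hBB
    have hdis : Disjoint B B'' := (hB L M S G n X β K B B'' hK gB gB'').resolve_left hBB
    obtain ⟨π, hπ⟩ := RCL_perm ki hi' (kr.trans hr'.symm)
    have hB' : ∀ x ∈ B, x ∈ X := fun x hx => (RCL_GB gB x hx).1
    have hB1' : ∀ x ∈ B', x ∈ X := fun x hx => (RCL_GB gB' x hx).1
    have hB2' : ∀ x ∈ B'', x ∈ X := fun x hx => (RCL_GB gB'' x hx).1
    have hT' : TE S G n (SW X h' h) := by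
      rw [RCL_symm]
      exact hT
    have kT' : TE S G n (SW X (k' ∘ π) (h' ∘ id)) := by
      rw [RCL_symm]
      show TE S G n (SW X h' (k' ∘ π))
      rw [hπ, RCL_comp]
      exact kT
    have key := RCL_conj (a := k' ∘ π) (f := id) (v := h') (v' := h)
      ⟨hi', hi, fun p q hpq => hd q p hpq.symm⟩ (fun p => hB1' _ (by rw [← hr']; exact ⟨p, rfl⟩))
      (fun p => hB' _ (by rw [← hr]; exact ⟨p, rfl⟩))
      (fun q => hB2' _ (by rw [← kr']; exact ⟨π q, rfl⟩))
      (fun q p hqp => by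
        have h3 : h' p ∈ range k := by
          rw [kr, ← hr']
          exact ⟨p, rfl⟩
        obtain ⟨p', hp'⟩ := h3
        exact kd p' (π q) (hp'.trans hqp.symm))
      (fun q p hqp => by
        refine Set.disjoint_left.1 hdis (show h p ∈ B by rw [← hr]; exact ⟨p, rfl⟩) ?_
        rw [← hqp, ← kr']
        exact ⟨π q, rfl⟩) hT' kT'
    refine Or.inr ⟨h, k' ∘ π, ⟨hi, ki'.comp π.injective, fun p q hpq => ?_⟩, hr, ?_, ?_⟩
    · refine Set.disjoint_left.1 hdis (show h p ∈ B by rw [← hr]; exact ⟨p, rfl⟩) ?_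
      rw [hpq, ← kr']
      exact ⟨π q, rfl⟩
    · rw [π.surjective.range_comp, kr']
    · rw [RCL_symm]
      exact key
  · intro B m C gB hC hCB
    obtain ⟨r, hr, k0, rfl⟩ := gB
    have hri : ∀ j, Function.Injective (r j) := fun j p q hpq => (hr.dis j p j q hpq).2
    have hrX : ∀ j p, r j p ∈ X := fun j p => (hr.inX j p).1
    have hrd : ∀ i j, i ≠ j → Disjoint (range (r i)) (range (r j)) := by
      intro i j hij
      rw [Set.disjoint_left]
      rintro _ ⟨p, rfl⟩ ⟨q, hq⟩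
      exact hij (hr.dis j q i p hq).1.symm
    choose c hci hcr hcT using fun i => RCL_lab (hri k0) (hCB i).2
    have hcX : ∀ i p, c i p ∈ X ∧ c i p ∉ G := fun i p =>
      RCL_GB (hCB i).1 _ (by rw [← hcr i]; exact ⟨p, rfl⟩)
    have Tc : ∀ i, RCL_T S G n X (r k0) (c i) := fun i => ⟨hci i, fun p => (hcX i p).1, hcT i⟩
    have Tr : ∀ j, RCL_T S G n X (r k0) (r j) := by
      intro j
      refine ⟨hri j, hrX j, ?_⟩
      by_cases hj : j = k0
      · exact Or.inl (by rw [hj])
      · exact Or.inr ⟨hrd j k0 hj, hr.row k0 j (Ne.symm hj)⟩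
    have hcd : ∀ i j, i ≠ j → Disjoint (range (c i)) (range (c j)) := by
      intro i j hij
      rw [hcr, hcr]
      exact (hB L M S G n X β K (C i) (C j) hK (hCB i).1 (hCB j).1).resolve_left
        fun h => hij (hC h)
    refine ⟨c, ⟨hcX, fun k p l q hpq => ?_, fun k l hkl => ?_, fun k l Q hkl hQ hQ' hT => ?_⟩,
      hcr⟩
    · by_cases hkl : k = l
      · subst hkl
        exact ⟨rfl, hci k hpq⟩
      · exact (Set.disjoint_left.1 (hcd k l hkl) ⟨p, rfl⟩ ⟨q, hpq.symm⟩).elim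
    · exact RCL_TT (hri k0) (hrX k0) (Tc k) (Tc l) (hcd k l hkl)
    · -- two members of the row off the blocks `C k`, `C l`
      classical
      obtain ⟨q0, hq0⟩ := hQ
      have hone : ∀ D : Set M, (Finset.univ.filter fun j : Fin K => range (r j) = D).card ≤ 1 := by
        intro D
        rw [Finset.card_le_one]
        intro i hi j hj
        rw [Finset.mem_filter] at hi hj
        by_contra hij
        have h3 := hrd i j hij
        rw [hi.2, hj.2, disjoint_self] at h3
        have h4 : r i q0 ∈ range (r i) := ⟨q0, rfl⟩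
        rw [hi.2, h3] at h4
        exact h4
      have hcard : 1 < (Finset.univ.filter fun j : Fin K =>
          range (r j) ≠ C k ∧ range (r j) ≠ C l).card := by
        have h5 : (Finset.univ : Finset (Fin K)) ⊆
            (Finset.univ.filter fun j : Fin K => range (r j) ≠ C k ∧ range (r j) ≠ C l) ∪
              ((Finset.univ.filter fun j : Fin K => range (r j) = C k) ∪
                (Finset.univ.filter fun j : Fin K => range (r j) = C l)) := by
          intro j _
          simp only [Finset.mem_union, Finset.mem_filter, Finset.mem_univ, true_and]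
          tauto
        have h6 := (Finset.card_le_card h5).trans (Finset.card_union_le _ _)
        have h7 := Finset.card_union_le (Finset.univ.filter fun j : Fin K => range (r j) = C k)
          (Finset.univ.filter fun j : Fin K => range (r j) = C l)
        rw [Finset.card_univ, Fintype.card_fin] at h6
        have h8 := hone (C k)
        have h9 := hone (C l)
        omega
      obtain ⟨j1, hj1, j2, hj2, hj12⟩ := Finset.one_lt_card.1 hcard
      simp only [Finset.mem_filter, Finset.mem_univ, true_and] at hj1 hj2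
      have hGBr : ∀ j, GB S G n X β K (range (r j)) := fun j => ⟨r, hr, j, rfl⟩
      have d1k : Disjoint (range (r j1)) (range (c k)) := by
        rw [hcr]
        exact (hB L M S G n X β K _ (C k) hK (hGBr j1) (hCB k).1).resolve_left hj1.1
      have d1l : Disjoint (range (r j1)) (range (c l)) := by
        rw [hcr]
        exact (hB L M S G n X β K _ (C l) hK (hGBr j1) (hCB l).1).resolve_left hj1.2
      have d2k : Disjoint (range (r j2)) (range (c k)) := by
        rw [hcr]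
        exact (hB L M S G n X β K _ (C k) hK (hGBr j2) (hCB k).1).resolve_left hj2.1
      have dkl := hcd k l hkl
      -- first step: `(c k, c l)` to `(c k, r j1)`
      have s1 : TE S G n (SW X (fun q : Q => c k q) (r j1 ∘ fun q : Q => (q : β))) := by
        refine RCL_conj (v := c l) (v' := r j1) ⟨hci l, hri j1, fun p q hpq => ?_⟩
          (fun p => (hcX l p).1) (hrX j1) (fun q : Q => c k q) (fun q => (hcX k q).1)
          (fun q : Q => (q : β)) (fun q p hqp => ?_) (fun q p hqp => ?_)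
          (RCL_TT (hri k0) (hrX k0) (Tc l) (Tr j1) d1l.symm) hT
        · exact Set.disjoint_left.1 d1l ⟨q, rfl⟩ ⟨p, hpq⟩
        · exact Set.disjoint_left.1 dkl ⟨q, rfl⟩ ⟨p, hqp.symm⟩
        · exact Set.disjoint_left.1 d1k ⟨p, rfl⟩ ⟨q, hqp⟩
      -- second step: `(r j1, c k)` to `(r j1, r j2)`
      have s2 : TE S G n (SW X (fun q : Q => r j1 q) (r j2 ∘ fun q : Q => (q : β))) := by
        rw [RCL_symm] at s1
        refine RCL_conj (v := c k) (v' := r j2) ⟨hci k, hri j2, fun p q hpq => ?_⟩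
          (fun p => (hcX k p).1) (hrX j2) (fun q : Q => r j1 q) (fun q => hrX j1 q)
          (fun q : Q => (q : β)) (fun q p hqp => ?_) (fun q p hqp => ?_)
          (RCL_TT (hri k0) (hrX k0) (Tc k) (Tr j2) d2k.symm) s1
        · exact Set.disjoint_left.1 d2k ⟨q, rfl⟩ ⟨p, hpq⟩
        · exact Set.disjoint_left.1 d1k ⟨q, rfl⟩ ⟨p, hqp.symm⟩
        · exact hj12 (hr.dis j1 q j2 p hqp).1
      exact hr.prim j1 j2 Q hj12 ⟨q0, hq0⟩ hQ' s2
  · intro B m v gB hv hvd
    obtain ⟨r, hr, k0, rfl⟩ := gB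
    have hri : Function.Injective (r k0) := fun p q hpq => (hr.dis k0 p k0 q hpq).2
    have hrX : ∀ p, r k0 p ∈ X := fun p => (hr.inX k0 p).1
    choose c hci hcr hcT using fun i => RCL_lab hri (hv i).2.2
    have hcX : ∀ i p, c i p ∈ X := fun i p =>
      (RCL_GB (hv i).2.1 _ (by rw [← hcr i]; exact ⟨p, rfl⟩)).1
    have Tc : ∀ i, RCL_T S G n X (r k0) (c i) := fun i => ⟨hci i, hcX i, hcT i⟩
    choose π hπ using fun i => RCL_perm (hci i) (hv i).1 (hcr i)
    have hinj : Function.Injective π := by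
      intro i j hij
      by_contra hne
      obtain ⟨h1, h2⟩ := hvd i j hne
      apply h2
      rw [hπ i, hπ j, hij, RCL_comp]
      refine RCL_TT hri hrX (Tc i) (Tc j) ?_
      rw [hcr, hcr]
      exact h1
    have h3 := Nat.card_le_card_of_injective π hinj
    rwa [Nat.card_eq_fintype_card, Fintype.card_fin, Nat.card_perm] at h3

end HERN
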