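import Pool.Agent.HERN.St

/-!
# HERN [REP]: representatives of good families
-/

set_option autoImplicit false
set_option linter.unusedVariables false

namespace HERN

open Set Pool.Agent.Helper5.DU Pool.Agent.Helper6.Str Pool.Agent.Helper79.VC
  Pool.Agent.Helper97.LO Pool.Agent.Helper97.VC HER

variable {L : FirstOrder.Language.{0, 0}} {M : Type} {S : L.Structure M}

/-- a generic sequence with one member -/
theorem REP_gen {cl : Set M → Set M} (hcl : IsCl cl) {β : Type} {A : Set M} {w : β → M}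
    (h : Off (cl A) w) : Gen cl A (fun _ : Unit => 0) (fun _ : Unit => w) := by
  intro j
  refine h.anti (hcl.mono _ _ ?_)
  rintro x (hx | ⟨i, hi, -⟩)
  · exact hx
  · exact absurd hi (lt_irrefl _)

/-- all generic members of a family of a commuting system have the same type -/
theorem REP_one {F : Set M} {r : ℕ} {I : Type} {β : I → Type} {V : ∀ i, Set (β i → M)}
    {cl : Set M → Set M} (h : Cm S F r V cl) {A : Set M} (hA : A.Countable) (i : I)
    {w w' : β i → M} (hw : w ∈ V i) (hw' : w' ∈ V i) (h1 : Off (cl A) w)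
    (h2 : Off (cl A) w') : TE S F r (dg A ∪ prs w w') := by
  refine (h.com Unit (fun _ => i) (fun _ => w) (fun _ => w') (fun _ => 0) (fun _ => 0) A hA
    (fun _ _ _ => rfl) (fun _ _ _ => rfl) (fun _ => hw) (fun _ => hw') (REP_gen h.icl h1)
    (REP_gen h.icl h2)).anti ?_
  exact union_subset_union_right _ fun a ha => mem_iUnion.mpr ⟨(), ha⟩

theorem REP_fin {F : Set M} {r : ℕ} (γ : Type)
    (hcc : ¬ ∃ V : ℕ → Set (γ → M), (∀ i, Gd S F r (V i)) ∧
      ∀ i j, i ≠ j → ¬ Eqv S F r (V i) (V j)) :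
    ∃ (Q : Type) (_ : Finite Q) (U : Q → Set (γ → M)), (∀ i, Gd S F r (U i)) ∧
      (∀ i j, i ≠ j → ¬ Eqv S F r (U i) (U j)) ∧
      ∀ V, Gd S F r V → ∃ i, Eqv S F r (U i) V := by
  let s : Setoid {V : Set (γ → M) // Gd S F r V} :=
    { r := fun V V' => Eqv S F r V.1 V'.1
      iseqv := ⟨fun V => V.2.eqv, fun h => h.symm, fun {V V' V''} h h' => h.trans V'.2.fam h'⟩ }
  have hout : ∀ q : Quotient s, Quotient.mk s q.out = q := fun q => Quotient.out_eq q
  have hne : ∀ i j : Quotient s, i ≠ j → ¬ Eqv S F r i.out.1 j.out.1 := by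
    intro i j hij h
    apply hij
    rw [← hout i, ← hout j]
    exact Quotient.sound h
  have hfin : Finite (Quotient s) := by
    by_contra hinf
    rw [not_finite_iff_infinite] at hinf
    let f := Infinite.natEmbedding (Quotient s)
    exact hcc ⟨fun i => (f i).out.1, fun i => (f i).out.2,
      fun i j hij => hne _ _ fun h => hij (f.injective h)⟩
  refine ⟨Quotient s, hfin, fun q => q.out.1, fun q => q.out.2, hne, fun V hV => ?_⟩
  refine ⟨Quotient.mk s ⟨V, hV⟩, ?_⟩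
  exact Quotient.exact (hout (Quotient.mk s ⟨V, hV⟩))

theorem thm_REP : St_REP := by
  intro L M S F r hC hP
  choose Q hQ U hU hne hmax using fun b : ℕ => REP_fin (S := S) (F := F) (r := r) (Fin b)
    (hP.cc F hC.fin Subset.rfl (Fin b))
  let I : ℕ → Type := fun b => {q : Q b // b ≤ r}
  have hI : ∀ b, Finite (I b) := fun b => inferInstance
  have hIc : ∀ b, Countable (I b) := fun b => inferInstance
  let U' : ∀ b, I b → Set (Fin b → M) := fun b i => U b i.1
  obtain ⟨cl, hcl⟩ := hP.com F hC.fin Subset.rfl (Σ b, I b) (fun x => Fin x.1)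
    (fun x => U' x.1 x.2) (fun x => hU x.1 x.2.1)
  -- a finite set for every pair
  have key : ∀ b (i i' : I b), ∃ T : Set M, T.Finite ∧ (i ≠ i' → ∀ w ∈ U' b i, ∀ w' ∈ U' b i',
      Off (cl T) w → Off (cl T) w' → ¬ TE S F r (dg T ∪ prs w w')) := by
    intro b i i'
    by_cases hii : i = i'
    · exact ⟨∅, finite_empty, fun h => absurd hii h⟩
    have h1 := hne b i.1 i'.1 fun h => hii (Subtype.ext h)
    unfold Eqv at h1
    push Not at h1
    obtain ⟨A, hA, h2⟩ := h1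
    obtain ⟨w, hw, w', hw', hwE, hwE', h3⟩ := h2 (cl A) (hcl.icl.ctbl A hA)
    unfold TE at h3
    push Not at h3
    obtain ⟨q, hq, hqr, h4⟩ := h3
    have hqfin : q.Finite := finite_of_encard_le_coe hqr
    refine ⟨{x ∈ A | (x, x) ∈ q}, ?_, ?_⟩
    · refine (hqfin.image Prod.fst).subset ?_
      rintro x ⟨-, hx⟩
      exact ⟨_, hx, rfl⟩
    intro _ v hv v' hv' hvT hvT' h5
    have hTA : {x ∈ A | (x, x) ∈ q} ⊆ A := fun x hx => hx.1
    have hTc : {x ∈ A | (x, x) ∈ q}.Countable := hA.mono hTA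
    have hTcl := hcl.icl.mono _ _ hTA
    have h6 : TE S F r (dg {x ∈ A | (x, x) ∈ q} ∪ prs w v) :=
      REP_one hcl hTc (⟨b, i⟩ : Σ b, I b) (w := w) (w' := v) hw hv (hwE.anti hTcl) hvT
    have h7 : TE S F r (dg {x ∈ A | (x, x) ∈ q} ∪ prs v' w') :=
      REP_one hcl hTc (⟨b, i'⟩ : Σ b, I b) (w := v') (w' := w') hv' hw' hvT'
        (hwE'.anti hTcl)
    have h8 : TE S F r (dg {x ∈ A | (x, x) ∈ q} ∪ prs v w') := by
      refine h5.comp h7 ?_
      rintro a (⟨x, hx, rfl⟩ | ⟨p, rfl⟩)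
      · exact ⟨x, Or.inl ⟨x, hx, rfl⟩, Or.inl ⟨x, hx, rfl⟩⟩
      · exact ⟨v' p, Or.inr ⟨p, rfl⟩, Or.inr ⟨p, rfl⟩⟩
    have h9 : TE S F r (dg {x ∈ A | (x, x) ∈ q} ∪ prs w w') := by
      refine h6.comp h8 ?_
      rintro a (⟨x, hx, rfl⟩ | ⟨p, rfl⟩)
      · exact ⟨x, Or.inl ⟨x, hx, rfl⟩, Or.inl ⟨x, hx, rfl⟩⟩
      · exact ⟨v p, Or.inr ⟨p, rfl⟩, Or.inr ⟨p, rfl⟩⟩
    refine h4 (h9 q ?_ hqr)
    intro a ha
    rcases hq ha with ⟨x, hx, rfl⟩ | h10
    · exact Or.inl ⟨x, ⟨hx, ha⟩, rfl⟩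
    · exact Or.inr h10
  choose T hT hTd using key
  refine ⟨I, U', cl, F ∪ ⋃ b ∈ Iic r, ⋃ i : I b, ⋃ i' : I b, T b i i', ?_⟩
  have hsub : ∀ b (i i' : I b), T b i i' ⊆
      F ∪ ⋃ b ∈ Iic r, ⋃ i : I b, ⋃ i' : I b, T b i i' := by
    intro b i i' x hx
    refine Or.inr ?_
    simp only [mem_iUnion]
    exact ⟨b, i.2, i, i', hx⟩
  refine ⟨hI, fun b i => hU b i.1, ?_, hcl, ?_, subset_union_left, ?_⟩
  · intro b _ hb V hV
    obtain ⟨q, hq⟩ := hmax b V hV
    exact ⟨⟨q, hb⟩, hq⟩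
  · refine hC.fin.union ((finite_Iic r).biUnion fun b _ => ?_)
    exact finite_iUnion fun i => finite_iUnion fun i' => hT b i i'
  · intro b i i' hii w hw w' hw' h1 h2 h3
    have h4 := hsub b i i'
    exact hTd b i i' hii w hw w' hw' (h1.anti (hcl.icl.mono _ _ h4))
      (h2.anti (hcl.icl.mono _ _ h4))
      (h3.anti (union_subset_union_left _ (dg_mono h4)))

end HERN
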