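import Pool.Agent.HERN.St

/-!
# HERN: good blocks are equal or disjoint

`τ = (h h')`, `σ = (w w_i)`; `c_i = σ (τ σ τ⁻¹)` is the 3-cycle `w → w_i → τ w → w` of the `P`-parts, and
`(c_0 c_2) (c_1 c_3) (c_0 c_2)` is `(w_0 w_1) (w_2 w_3)` on the `P`-parts.
-/

set_option autoImplicit false
set_option linter.unusedVariables false

namespace HERN

open Set Pool.Agent.Helper5.DU Pool.Agent.Helper6.Str Pool.Agent.Helper79.VC
  Pool.Agent.Helper97.LO Pool.Agent.Helper97.VC HER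

private theorem RGB_word {β M : Type} {P : Set β} (x z : β → M) (y : Fin 4 → β → M)
    (c : Fin 4 → Equiv.Perm M) (h1 : ∀ i, ∀ p ∈ P, c i (x p) = y i p)
    (h2 : ∀ i, ∀ p ∈ P, c i (y i p) = z p) (h3 : ∀ i, ∀ p ∈ P, c i (z p) = x p)
    (h4 : ∀ i m, (∀ p ∈ P, m ≠ x p) → (∀ p ∈ P, m ≠ y i p) → (∀ p ∈ P, m ≠ z p) → c i m = m)
    (hyy : ∀ i j, i ≠ j → ∀ p q, y i p ≠ y j q) (hyx : ∀ i p, ∀ q ∈ P, y i p ≠ x q)
    (hyz : ∀ i p, ∀ q ∈ P, y i p ≠ z q) :
    (∀ p ∈ P, (c 0 * c 2 * (c 1 * c 3) * (c 0 * c 2)) (y 0 p) = y 1 p) ∧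
    (∀ p ∈ P, (c 0 * c 2 * (c 1 * c 3) * (c 0 * c 2)) (y 1 p) = y 0 p) ∧
    (∀ m, (∀ i, ∀ p ∈ P, m ≠ y i p) → (c 0 * c 2 * (c 1 * c 3) * (c 0 * c 2)) m = m) := by
  have h5 : ∀ i j, i ≠ j → ∀ p, c i (y j p) = y j p := fun i j hij p =>
    h4 i _ (fun q hq => hyx j p q hq) (fun q _ => hyy j i (Ne.symm hij) p q)
      (fun q hq => hyz j p q hq)
  refine ⟨fun p hp => ?_, fun p hp => ?_, fun m hm => ?_⟩
  · simp only [Equiv.Perm.mul_apply]
    rw [h5 2 0 (by decide), h2 0 p hp, h3 3 p hp, h1 1 p hp, h5 2 1 (by decide),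
      h5 0 1 (by decide)]
  · simp only [Equiv.Perm.mul_apply]
    rw [h5 2 1 (by decide), h5 0 1 (by decide), h5 3 1 (by decide), h2 1 p hp, h3 2 p hp,
      h1 0 p hp]
  · by_cases hx : ∃ p ∈ P, m = x p
    · obtain ⟨p, hp, rfl⟩ := hx
      simp only [Equiv.Perm.mul_apply]
      rw [h1 2 p hp, h5 0 2 (by decide), h5 3 2 (by decide), h5 1 2 (by decide), h2 2 p hp,
        h3 0 p hp]
    · by_cases hz : ∃ p ∈ P, m = z p
      · obtain ⟨p, hp, rfl⟩ := hz
        simp only [Equiv.Perm.mul_apply]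
        rw [h3 2 p hp, h1 0 p hp, h5 3 0 (by decide), h5 1 0 (by decide), h5 2 0 (by decide),
          h2 0 p hp]
      · push Not at hx hz
        have h6 : ∀ i, c i m = m := fun i => h4 i m hx (hm i) hz
        simp only [Equiv.Perm.mul_apply, h6]

private theorem RGB_cyc {L : FirstOrder.Language.{0, 0}} {M : Type} {S : L.Structure M}
    {G : Set M} {n : ℕ} {X : Set M} {β : Type}
    (hmul : ∀ σ τ, NA S G n X σ → NA S G n X τ → NA S G n X (σ * τ))
    (hinv : ∀ σ, NA S G n X σ → NA S G n X σ⁻¹) (w y h h' : β → M) (σ τ : Equiv.Perm M)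
    (hσ : NA S G n X σ) (hτ : NA S G n X τ) (hwy : ∀ p q, w p ≠ y q)
    (hwi : Function.Injective w)
    (s1 : ∀ p, σ (w p) = y p) (s2 : ∀ p, σ (y p) = w p)
    (s3 : ∀ x, x ∉ range w → x ∉ range y → σ x = x)
    (t1 : ∀ p, τ (h p) = h' p) (t2 : ∀ p, τ (h' p) = h p)
    (t3 : ∀ x, x ∉ range h → x ∉ range h' → τ x = x)
    (hwh : ∀ p, w p ∉ range h') (hyh : ∀ p, y p ∉ range h) (hyh' : ∀ p, y p ∉ range h') :
    ∃ c : Equiv.Perm M, NA S G n X c ∧
      (∀ p ∈ {p | w p ∈ range h}, c (w p) = y p) ∧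
      (∀ p ∈ {p | w p ∈ range h}, c (y p) = τ (w p)) ∧
      (∀ p ∈ {p | w p ∈ range h}, c (τ (w p)) = w p) ∧
      ∀ m, (∀ p ∈ {p | w p ∈ range h}, m ≠ w p) → (∀ p ∈ {p | w p ∈ range h}, m ≠ y p) →
        (∀ p ∈ {p | w p ∈ range h}, m ≠ τ (w p)) → c m = m := by
  have i1 : ∀ m, τ⁻¹ (τ m) = m := fun m => by simp
  have i2 : ∀ m, τ (τ⁻¹ m) = m := fun m => by simp
  have hτy : ∀ p, τ (y p) = y p := fun p => t3 _ (hyh p) (hyh' p)
  have hτy' : ∀ p, τ⁻¹ (y p) = y p := fun p => by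
    rw [Equiv.Perm.inv_eq_iff_eq, hτy]
  have hz : ∀ p ∈ {p | w p ∈ range h}, τ (w p) ∈ range h' := by
    rintro p ⟨q, hq⟩
    exact ⟨q, by rw [← hq, t1]⟩
  have hz' : ∀ p, p ∉ {p | w p ∈ range h} → τ (w p) = w p := fun p hp => t3 _ hp (hwh p)
  -- the conjugate
  have a1 : ∀ p, (τ * σ * τ⁻¹) (τ (w p)) = y p := fun p => by
    simp only [Equiv.Perm.mul_apply, i1, s1, hτy]
  have a2 : ∀ p, (τ * σ * τ⁻¹) (y p) = τ (w p) := fun p => by
    simp only [Equiv.Perm.mul_apply, hτy', s2]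
  have a3 : ∀ m, (∀ p, m ≠ τ (w p)) → (∀ p, m ≠ y p) → (τ * σ * τ⁻¹) m = m := fun m h1 h2 => by
    simp only [Equiv.Perm.mul_apply]
    rw [s3, i2]
    · rintro ⟨p, hp⟩
      refine h1 p ?_
      rw [hp, i2]
    · rintro ⟨p, hp⟩
      refine h2 p ?_
      rw [← hτy p, hp, i2]
  have hzw : ∀ p ∈ {p | w p ∈ range h}, τ (w p) ∉ range w := by
    rintro p hp ⟨q, hq⟩
    refine hwh q ?_
    rw [hq]
    exact hz p hp
  have hzy : ∀ p ∈ {p | w p ∈ range h}, τ (w p) ∉ range y := by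
    rintro p hp ⟨q, hq⟩
    refine hyh' q ?_
    rw [hq]
    exact hz p hp
  refine ⟨σ * (τ * σ * τ⁻¹), hmul _ _ hσ (hmul _ _ (hmul _ _ hτ hσ) (hinv _ hτ)), ?_, ?_, ?_, ?_⟩
  · intro p hp
    rw [Equiv.Perm.mul_apply, a3 (w p) ?_ (fun q => hwy p q), s1]
    intro q hq
    by_cases h1 : q ∈ {p | w p ∈ range h}
    · exact hzw q h1 ⟨p, hq⟩
    · rw [hz' q h1] at hq
      rw [hwi hq] at hp
      exact h1 hp
  · intro p hp
    rw [Equiv.Perm.mul_apply, a2, s3 _ (hzw p hp) (hzy p hp)]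
  · intro p hp
    rw [Equiv.Perm.mul_apply, a1, s2]
  · intro m m1 m2 m3
    rw [Equiv.Perm.mul_apply]
    by_cases h1 : ∃ p, m = w p
    · obtain ⟨p, rfl⟩ := h1
      have h2 : p ∉ {p | w p ∈ range h} := fun h2 => m1 p h2 rfl
      have h3 := a1 p
      rw [hz' p h2] at h3
      rw [h3, s2]
    · by_cases h4 : ∃ p, m = y p
      · obtain ⟨p, rfl⟩ := h4
        have h2 : p ∉ {p | w p ∈ range h} := fun h2 => m2 p h2 rfl
        rw [a2, hz' p h2, s1]
      · push Not at h1 h4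
        have h5 : ∀ p, m ≠ τ (w p) := fun p hp => by
          by_cases h2 : p ∈ {p | w p ∈ range h}
          · exact m3 p h2 hp
          · rw [hz' p h2] at hp
            exact h1 p hp
        rw [a3 m h5 h4, s3]
        · rintro ⟨p, hp⟩
          exact h1 p hp.symm
        · rintro ⟨p, hp⟩
          exact h4 p hp.symm

private theorem RGB_choose {β M : Type} {K : ℕ} (w : Fin K → β → M)
    (hd : ∀ k p l q, w k p = w l q → k = l ∧ p = q) (E : Set M) (e : ℕ) (hE : E.encard ≤ e)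
    (T : Finset (Fin K)) (hK : e + T.card + 2 ≤ K) :
    ∃ k k', k ≠ k' ∧ k ∉ T ∧ k' ∉ T ∧ (∀ p, w k p ∉ E) ∧ ∀ p, w k' p ∉ E := by
  classical
  set bad : Finset (Fin K) := Finset.univ.filter fun k => ∃ p, w k p ∈ E with hbad
  have h1 : bad.card ≤ e := by
    have h2 : ∀ k : {k // k ∈ bad}, ∃ p, w k p ∈ E := fun k => (Finset.mem_filter.1 k.2).2
    choose f hf using h2
    have hg : Function.Injective fun k : {k // k ∈ bad} => w k (f k) := fun k l hkl =>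
      Subtype.ext (hd _ _ _ _ hkl).1
    have h3 : (range fun k : {k // k ∈ bad} => w k (f k)).encard ≤ E.encard :=
      encard_le_encard (range_subset_iff.2 hf)
    have h4 := hg.encard_range.trans (h3.trans hE)
    rw [ENat.card_eq_coe_fintype_card, Fintype.card_coe] at h4
    exact_mod_cast h4
  have h4 : 1 < ((bad ∪ T)ᶜ).card := by
    rw [Finset.card_compl, Fintype.card_fin]
    have := Finset.card_union_le bad T
    omega
  obtain ⟨k, hk, k', hk', hkk⟩ := Finset.one_lt_card.1 h4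
  rw [Finset.mem_compl, Finset.mem_union, not_or] at hk hk'
  refine ⟨k, k', hkk, hk.2, hk'.2, fun p hp => hk.1 ?_, fun p hp => hk'.1 ?_⟩
  · rw [hbad, Finset.mem_filter]
    exact ⟨Finset.mem_univ _, p, hp⟩
  · rw [hbad, Finset.mem_filter]
    exact ⟨Finset.mem_univ _, p, hp⟩

private theorem RGB_encard {β M : Type} [Finite β] (w : β → M) :
    (range w).encard ≤ (Nat.card β : ℕ) := by
  rw [← image_univ]
  refine (encard_image_le _ _).trans ?_
  rw [encard_univ, ENat.card_eq_coe_natCard]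

theorem thm_RGB (hN : St_NAB) : St_RGB := by
  intro L M S G n X β _ K B B' hK hB hB'
  obtain ⟨w, hw, k0, rfl⟩ := hB
  obtain ⟨h, hh, l0, rfl⟩ := hB'
  by_cases hdisj : Disjoint (range (w k0)) (range (h l0))
  · exact Or.inr hdisj
  left
  obtain ⟨-, hmul, hinv, hswap⟩ := hN L M S G n X
  -- swaps of members of rows
  have hrow : ∀ v : Fin K → β → M, PRow S G n X K v → ∀ k l, k ≠ l → ∃ σ : Equiv.Perm M,
      (∀ p, σ (v k p) = v l p) ∧ (∀ p, σ (v l p) = v k p) ∧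
      (∀ x, x ∉ range (v k) → x ∉ range (v l) → σ x = x) ∧ NA S G n X σ := by
    intro v hv k l hkl
    have hdj : Dj (v k) (v l) := ⟨fun p q hpq => (hv.dis _ _ _ _ hpq).2,
      fun p q hpq => (hv.dis _ _ _ _ hpq).2, fun p q hpq => hkl (hv.dis _ _ _ _ hpq).1⟩
    obtain ⟨σ, s1, s2, s3, s4⟩ := hswap β (v k) (v l) hdj (fun p => (hv.inX k p).1)
      fun p => (hv.inX l p).1
    exact ⟨σ, s1, s2, s3, s4.2 (hv.row k l hkl)⟩
  by_contra hne
  set P : Set β := {p | w k0 p ∈ range (h l0)} with hP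
  have hPne : P.Nonempty := by
    rw [Set.not_disjoint_iff] at hdisj
    obtain ⟨x, ⟨p, rfl⟩, hx⟩ := hdisj
    exact ⟨p, hx⟩
  have hinjw : ∀ k, Function.Injective (w k) := fun k p q hpq => (hw.dis _ _ _ _ hpq).2
  have hinjh : ∀ k, Function.Injective (h k) := fun k p q hpq => (hh.dis _ _ _ _ hpq).2
  have hPu : P ≠ univ := by
    intro hPu
    refine hne (Set.Finite.eq_of_subset_of_encard_le (finite_range _) ?_ ?_)
    · rintro _ ⟨p, rfl⟩
      have : p ∈ P := by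
        rw [hPu]
        exact mem_univ p
      exact this
    · refine (RGB_encard _).trans ?_
      rw [← ENat.card_eq_coe_natCard]
      exact (hinjw k0).encard_range
  -- the member of the second row
  obtain ⟨l1, -, -, hl1, -, hl1w, -⟩ := RGB_choose h hh.dis (range (w k0)) (Nat.card β)
    (RGB_encard _) {l0} (by rw [Finset.card_singleton]; omega)
  rw [Finset.mem_singleton] at hl1
  obtain ⟨τ, t1, t2, t3, hτ⟩ := hrow h hh l0 l1 (Ne.symm hl1)
  -- two members of the first row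
  obtain ⟨k1, k2, hk12, hk1, hk2, hk1E, hk2E⟩ := RGB_choose w hw.dis
    (range (h l0) ∪ range (h l1)) (Nat.card β + Nat.card β) ((encard_union_le _ _).trans (by
      push_cast
      exact add_le_add (RGB_encard _) (RGB_encard _))) {k0} (by rw [Finset.card_singleton]; omega)
  rw [Finset.mem_singleton] at hk1 hk2
  refine hw.prim k1 k2 P hk12 hPne hPu ?_
  intro q hq hqn
  obtain ⟨k3, k4, hk34, hk3, hk4, hk3E, hk4E⟩ := RGB_choose w hw.dis
    (range (h l0) ∪ range (h l1) ∪ Prod.fst '' q) (Nat.card β + Nat.card β + n)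
    ((encard_union_le _ _).trans (by
      push_cast
      refine add_le_add ((encard_union_le _ _).trans
        (add_le_add (RGB_encard _) (RGB_encard _))) ((encard_image_le _ _).trans hqn)))
    {k0, k1, k2} (by
      have := Finset.card_le_three (a := k0) (b := k1) (c := k2)
      omega)
  simp only [Finset.mem_insert, Finset.mem_singleton, not_or] at hk3 hk4
  set y : Fin 4 → Fin K := ![k1, k2, k3, k4] with hy
  have hy0 : ∀ i, y i ≠ k0 := by
    intro i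
    fin_cases i
    · exact hk1
    · exact hk2
    · exact hk3.1
    · exact hk4.1
  have hyE : ∀ i p, w (y i) p ∉ range (h l0) ∪ range (h l1) := by
    intro i p
    fin_cases i
    · exact hk1E p
    · exact hk2E p
    · exact fun h1 => hk3E p (Or.inl h1)
    · exact fun h1 => hk4E p (Or.inl h1)
  have hyy : ∀ i j, i ≠ j → y i ≠ y j := by
    have e1 : k1 ≠ k3 := Ne.symm hk3.2.1
    have e2 : k1 ≠ k4 := Ne.symm hk4.2.1
    have e3 : k2 ≠ k3 := Ne.symm hk3.2.2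
    have e4 : k2 ≠ k4 := Ne.symm hk4.2.2
    intro i j hij
    fin_cases i <;> fin_cases j
    all_goals first
      | exact absurd rfl hij
      | exact hk12
      | exact hk12.symm
      | exact hk34
      | exact hk34.symm
      | exact e1
      | exact e1.symm
      | exact e2
      | exact e2.symm
      | exact e3
      | exact e3.symm
      | exact e4
      | exact e4.symm
  have hc : ∀ i, ∃ c : Equiv.Perm M, NA S G n X c ∧ (∀ p ∈ P, c (w k0 p) = w (y i) p) ∧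
      (∀ p ∈ P, c (w (y i) p) = τ (w k0 p)) ∧ (∀ p ∈ P, c (τ (w k0 p)) = w k0 p) ∧
      ∀ m, (∀ p ∈ P, m ≠ w k0 p) → (∀ p ∈ P, m ≠ w (y i) p) →
        (∀ p ∈ P, m ≠ τ (w k0 p)) → c m = m := by
    intro i
    obtain ⟨σ, s1, s2, s3, hσ⟩ := hrow w hw k0 (y i) (Ne.symm (hy0 i))
    exact RGB_cyc hmul hinv (w k0) (w (y i)) (h l0) (h l1) σ τ hσ hτ
      (fun p q hpq => hy0 i (hw.dis _ _ _ _ hpq).1.symm) (hinjw k0) s1 s2 s3 t1 t2 t3
      (fun p hp => by
        obtain ⟨q, hq⟩ := hp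
        exact hl1w q ⟨p, hq.symm⟩) (fun p hp => hyE i p (Or.inl hp))
      (fun p hp => hyE i p (Or.inr hp))
  choose c c0 c1 c2 c3 c4 using hc
  have hz : ∀ p ∈ P, τ (w k0 p) ∈ range (h l1) := by
    rintro p ⟨q, hq⟩
    exact ⟨q, by rw [← hq, t1]⟩
  obtain ⟨r1, r2, r3⟩ := RGB_word (P := P) (w k0) (fun p => τ (w k0 p)) (fun i => w (y i)) c c1 c2
    c3 c4 (fun i j hij p p' hpp => hyy i j hij (hw.dis _ _ _ _ hpp).1)
    (fun i p p' _ hpp => hy0 i (hw.dis _ _ _ _ hpp).1)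
    (fun i p p' hp' hpp => hyE i p (Or.inr (by rw [hpp]; exact hz p' hp')))
  have hρ : NA S G n X (c 0 * c 2 * (c 1 * c 3) * (c 0 * c 2)) :=
    hmul _ _ (hmul _ _ (hmul _ _ (c0 0) (c0 2)) (hmul _ _ (c0 1) (c0 3))) (hmul _ _ (c0 0) (c0 2))
  refine hρ.2 q ?_ hqn
  intro a ha
  rcases hq ha with (⟨b1, b2, b3, b4⟩ | ⟨p, rfl⟩) | ⟨p, rfl⟩
  · refine ⟨b2, ?_⟩
    rw [r3, b1]
    intro i p hp hap
    fin_cases i
    · exact b3 ⟨⟨p, hp⟩, hap.symm⟩
    · exact b4 ⟨⟨p, hp⟩, hap.symm⟩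
    · refine hk3E p (Or.inr ⟨a, ha, ?_⟩)
      exact hap
    · refine hk4E p (Or.inr ⟨a, ha, ?_⟩)
      exact hap
  · exact ⟨(hw.inX k1 p).1, (r1 p p.2).symm⟩
  · exact ⟨(hw.inX k2 p).1, (r2 p p.2).symm⟩

end HERN
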