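import Pool.Agent.HERN.St

/-!
# HERN [RINV]: the sizes of the classes of good blocks are invariant
-/

set_option autoImplicit false
set_option linter.unusedVariables false
set_option linter.unusedSectionVars false

namespace HERN

open Set Pool.Agent.Helper5.DU Pool.Agent.Helper6.Str Pool.Agent.Helper79.VC
  Pool.Agent.Helper97.LO Pool.Agent.Helper97.VC HER

variable {L : FirstOrder.Language.{0, 0}} {M : Type} {S : L.Structure M}

/-- matched pairs, `j` moves are left -/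
structure RINV_R (S : L.Structure M) (F G X Y : Set M) (j : ℕ) (p : Set (M × M)) : Prop where
  gx : G ⊆ X
  gy : G ⊆ Y
  fx : X ∩ F ⊆ G
  fy : Y ∩ F ⊆ G
  dgp : dg (G ∪ F) ⊆ p
  bf : BFR S S (X ∪ F) (Y ∪ F) (j : Ordinal.{0}) p
  mem : ∀ a ∈ p, a.1 ∈ X ∪ F ∧ a.2 ∈ Y ∪ F

variable {F G X Y : Set M} {j i : ℕ} {p q : Set (M × M)}

theorem RINV_R.swap (h : RINV_R S F G X Y j p) : RINV_R S F G Y X j (Prod.swap ⁻¹' p) where
  gx := h.gy
  gy := h.gx
  fx := h.fy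
  fy := h.fx
  dgp := by
    rintro _ ⟨x, hx, rfl⟩
    exact h.dgp ⟨x, hx, rfl⟩
  bf := h.bf.swap
  mem := fun a ha => (h.mem _ ha).symm

theorem RINV_R.mono (h : RINV_R S F G X Y j p) (hij : i ≤ j) : RINV_R S F G X Y i p where
  gx := h.gx
  gy := h.gy
  fx := h.fx
  fy := h.fy
  dgp := h.dgp
  bf := h.bf.mono (by exact_mod_cast hij)
  mem := h.mem

theorem RINV_R.inj (h : RINV_R S F G X Y j p) {x y x' y' : M} (h1 : (x, y) ∈ p)
    (h2 : (x', y') ∈ p) : x = x' ↔ y = y' :=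
  h.bf.atEq.1 _ h1 _ h2

/-- elements of `X` outside `G` correspond to elements of `Y` outside `G` -/
theorem RINV_R.out (h : RINV_R S F G X Y j p) {x y : M} (h1 : (x, y) ∈ p) (hx : x ∈ X)
    (hg : x ∉ G) : y ∈ Y ∧ y ∉ G := by
  have h2 : y ∉ G ∪ F := by
    intro h3
    have h4 := (h.inj h1 (h.dgp ⟨y, h3, rfl⟩)).mpr rfl
    subst h4
    rcases h3 with h3 | h3
    · exact hg h3
    · exact hg (h.fx ⟨hx, h3⟩)
  have h3 := (h.mem _ h1).2
  refine ⟨?_, fun h4 => h2 (Or.inl h4)⟩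
  rcases h3 with h3 | h3
  · exact h3
  · exact absurd (Or.inr h3) h2

/-- elements of `Y` correspond to elements of `X` -/
theorem RINV_R.inY (h : RINV_R S F G X Y j p) {x y : M} (h1 : (x, y) ∈ p) (hx : x ∈ X) :
    y ∈ Y := by
  by_cases hg : x ∈ G
  · have h4 := (h.inj h1 (h.dgp ⟨x, Or.inl hg, rfl⟩)).mp rfl
    rw [h4]
    exact h.gy hg
  · exact (h.out h1 hx hg).1

theorem RINV_R.forth {γ : Type} [Finite γ] (h : RINV_R S F G X Y (j + Nat.card γ) p) (x : γ → M)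
    (hx : ∀ i, x i ∈ X ∪ F) : ∃ (p' : Set (M × M)) (y : γ → M), p ⊆ p' ∧
      (∀ i, (x i, y i) ∈ p') ∧ RINV_R S F G X Y j p' := by
  classical
  let e : γ ≃ Fin (Nat.card γ) := Finite.equivFin γ
  have h1 : BFR S S (X ∪ F) (Y ∪ F) ((j : Ordinal.{0}) + ((Nat.card γ : ℕ) : Ordinal.{0})) p := by
    have := h.bf
    push_cast at this
    exact this
  obtain ⟨y, hy, h2⟩ := BFR.forth_many (Nat.card γ) h1 (fun i => x (e.symm i)) fun i => hx _
  refine ⟨p ∪ range fun i => (x (e.symm i), y i), fun i => y (e i), subset_union_left,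
    fun i => Or.inr ⟨e i, by simp⟩, h.gx, h.gy, h.fx, h.fy, h.dgp.trans subset_union_left, h2, ?_⟩
  rintro a (ha | ⟨i, rfl⟩)
  · exact h.mem a ha
  · exact ⟨hx _, hy _⟩

theorem RINV_R.back {γ : Type} [Finite γ] (h : RINV_R S F G X Y (j + Nat.card γ) p) (y : γ → M)
    (hy : ∀ i, y i ∈ Y ∪ F) : ∃ (p' : Set (M × M)) (x : γ → M), p ⊆ p' ∧
      (∀ i, (x i, y i) ∈ p') ∧ RINV_R S F G X Y j p' := by
  obtain ⟨p', x, h1, h2, h3⟩ := h.swap.forth y hy
  exact ⟨Prod.swap ⁻¹' p', x, fun a ha => h1 (by simpa using ha), fun i => h2 i, h3.swap⟩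

/-- exchanges which preserve the types -/
theorem RINV_R.te {n : ℕ} {γ : Type} (h : RINV_R S F G X Y n p) {w w' v v' : γ → M}
    (h1 : ∀ i, (w i, v i) ∈ p) (h2 : ∀ i, (w' i, v' i) ∈ p) (hT : TE S G n (SW X w w')) :
    TE S G n (SW Y v v') := by
  classical
  intro q' hq' hn
  let q0 : Set (M × M) := {a ∈ q' | a.1 = a.2 ∧ a.1 ∈ Y}
  have hq0 : q0.encard ≤ n := (encard_le_encard fun a ha => ha.1).trans hn
  have hfin : q0.Finite := finite_of_encard_le_coe hq0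
  have : Finite q0 := hfin
  have hcard : Nat.card q0 ≤ n := by
    have h3 : q0.encard = (Nat.card q0 : ℕ∞) := by
      rw [Set.encard, ENat.card_eq_coe_natCard]
    rw [h3] at hq0
    exact_mod_cast hq0
  have h' : RINV_R S F G X Y (0 + Nat.card q0) p := h.mono (by omega)
  obtain ⟨p', x, hp', hx, h3⟩ := h'.back (fun a : q0 => a.1.1) fun a => Or.inl a.2.2.2
  have hkey : ∀ a ∈ q', ∃ b : M × M, b ∈ SW X w w' ∧ (b.1, a.1) ∈ p' ∧ (b.2, a.2) ∈ p' := by
    intro a ha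
    rcases hq' ha with (⟨ha1, ha2, ha3, ha4⟩ | ⟨i, rfl⟩) | ⟨i, rfl⟩
    · let a0 : q0 := ⟨a, ha, ha1, ha2⟩
      have h4 : (x a0, a.1) ∈ p' := hx a0
      refine ⟨(x a0, x a0), Or.inl (Or.inl ⟨rfl, ?_, ?_, ?_⟩), h4, ?_⟩
      · exact h3.swap.inY h4 ha2
      · rintro ⟨i, hi⟩
        refine ha3 ⟨i, ?_⟩
        exact (h3.inj (hp' (h1 i)) h4).mp hi
      · rintro ⟨i, hi⟩
        refine ha4 ⟨i, ?_⟩
        exact (h3.inj (hp' (h2 i)) h4).mp hi
      · rw [← ha1]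
        exact h4
    · exact ⟨(w i, w' i), Or.inl (Or.inr ⟨i, rfl⟩), hp' (h1 i), hp' (h2 i)⟩
    · exact ⟨(w' i, w i), Or.inr ⟨i, rfl⟩, hp' (h2 i), hp' (h1 i)⟩
  choose! f hf1 hf2 hf3 using hkey
  have h5 := hT (f '' q') (by
    rintro _ ⟨a, ha, rfl⟩
    exact hf1 a ha) ((encard_image_le _ _).trans hn)
  have h6 : AtEq S S p' := h3.bf.atEq
  have h7 : AtEq S S {a : M × M | ∃ b, (a.1, b) ∈ dg G ∪ f '' q' ∧ (b, a.2) ∈ p'} :=
    AtEq.comp' h5 h6 fun a ha => ha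
  refine AtEq.comp' (AtEq.symm' h6 (r := Prod.swap ⁻¹' p') fun a ha => ha) h7 ?_
  rintro a (⟨x, hx, rfl⟩ | ha)
  · have h8 : (x, x) ∈ p' := h3.dgp ⟨x, Or.inl hx, rfl⟩
    exact ⟨x, h8, x, Or.inl ⟨x, hx, rfl⟩, h8⟩
  · exact ⟨(f a).1, hf2 a ha, (f a).2, Or.inr ⟨a, ha, rfl⟩, hf3 a ha⟩

/-- primitive rows -/
theorem RINV_R.prow {n K : ℕ} {β : Type} (h : RINV_R S F G X Y n p) {w v : Fin K → β → M}
    (h1 : ∀ k i, (w k i, v k i) ∈ p) (hw : PRow S G n X K w) : PRow S G n Y K v where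
  inX := fun k i => h.out (h1 k i) (hw.inX k i).1 (hw.inX k i).2
  dis := fun k i l j hij => hw.dis k i l j ((h.inj (h1 k i) (h1 l j)).mpr hij)
  row := fun k l hkl => h.te (h1 k) (h1 l) (hw.row k l hkl)
  prim := fun k l Q hkl hQ hQ' hT => hw.prim k l Q hkl hQ hQ'
    (h.swap.te (w := fun q : Q => v k q) (w' := fun q : Q => v l q)
      (v := fun q : Q => w k q) (v' := fun q : Q => w l q) (fun i => h1 k i) (fun i => h1 l i) hT)

/-- matched sets -/
def RINV_M (p : Set (M × M)) (B B' : Set M) : Prop :=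
  (∀ x ∈ B, ∃ y ∈ B', (x, y) ∈ p) ∧ ∀ y ∈ B', ∃ x ∈ B, (x, y) ∈ p

theorem RINV_M.swap {B B' : Set M} (h : RINV_M p B B') : RINV_M (Prod.swap ⁻¹' p) B' B :=
  ⟨fun x hx => h.2 x hx, fun y hy => h.1 y hy⟩

theorem RINV_M.mono {B B' : Set M} (h : RINV_M p B B') (hpq : p ⊆ q) : RINV_M q B B' :=
  ⟨fun x hx => (h.1 x hx).imp fun y hy => ⟨hy.1, hpq hy.2⟩,
    fun y hy => (h.2 y hy).imp fun x hx => ⟨hx.1, hpq hx.2⟩⟩

theorem RINV_M.of_range {γ : Type} {w v : γ → M} (h : ∀ i, (w i, v i) ∈ p) :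
    RINV_M p (range w) (range v) := by
  constructor
  · rintro _ ⟨i, rfl⟩
    exact ⟨v i, ⟨i, rfl⟩, h i⟩
  · rintro _ ⟨i, rfl⟩
    exact ⟨w i, ⟨i, rfl⟩, h i⟩

theorem RINV_M.eq (h : RINV_R S F G X Y j p) {B B' C C' : Set M} (h1 : RINV_M p B B')
    (h2 : RINV_M p C C') (hBC : B = C) : B' = C' := by
  subst hBC
  apply Subset.antisymm
  · intro y hy
    obtain ⟨x, hx, hxy⟩ := h1.2 y hy
    obtain ⟨y', hy', hxy'⟩ := h2.1 x hx
    rw [(h.inj hxy hxy').mp rfl]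
    exact hy'
  · intro y hy
    obtain ⟨x, hx, hxy⟩ := h2.2 y hy
    obtain ⟨y', hy', hxy'⟩ := h1.1 x hx
    rw [(h.inj hxy hxy').mp rfl]
    exact hy'

/-- a labelling of a matched set -/
theorem RINV_M.range_eq (h : RINV_R S F G X Y j p) {γ : Type} {w v : γ → M} {B B' : Set M}
    (hB : RINV_M p B B') (hw : range w = B) (h1 : ∀ i, (w i, v i) ∈ p) : range v = B' := by
  refine RINV_M.eq h (RINV_M.of_range h1) hB hw

/-- good blocks -/
theorem RINV_R.gb {n K : ℕ} {β : Type} [Finite β] {B B' : Set M}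
    (h : RINV_R S F G X Y (n + Nat.card (Fin K × β)) p) (hB : RINV_M p B B')
    (hG : GB S G n X β K B) : GB S G n Y β K B' := by
  obtain ⟨w, hw, k, hk⟩ := hG
  obtain ⟨p', v, hp', hv, h1⟩ := h.forth (fun a : Fin K × β => w a.1 a.2)
    fun a => Or.inl (hw.inX _ _).1
  refine ⟨fun k i => v (k, i), h1.prow (w := w) (fun k i => hv (k, i)) hw, k, ?_⟩
  exact (RINV_M.range_eq h1 (hB.mono hp') hk.symm (fun i => hv (k, i))).symm

/-- equivalent blocks -/
theorem RINV_R.be {n : ℕ} {β : Type} {B B' C C' : Set M} (h : RINV_R S F G X Y n p)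
    (hB : RINV_M p B B') (hC : RINV_M p C C') (hE : BE S G n X β B C) :
    BE S G n Y β B' C' := by
  rcases hE with hE | ⟨w, w', hD, hw, hw', hT⟩
  · exact Or.inl (RINV_M.eq h hB hC hE)
  · right
    have h1 : ∀ i, ∃ y, (w i, y) ∈ p := fun i => by
      obtain ⟨y, -, hy⟩ := hB.1 (w i) (hw ▸ ⟨i, rfl⟩)
      exact ⟨y, hy⟩
    have h2 : ∀ i, ∃ y, (w' i, y) ∈ p := fun i => by
      obtain ⟨y, -, hy⟩ := hC.1 (w' i) (hw' ▸ ⟨i, rfl⟩)
      exact ⟨y, hy⟩
    choose v hv using h1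
    choose v' hv' using h2
    refine ⟨v, v', ⟨fun a b hab => hD.1 ((h.inj (hv a) (hv b)).mpr hab),
      fun a b hab => hD.2.1 ((h.inj (hv' a) (hv' b)).mpr hab),
      fun a b hab => hD.2.2 a b ((h.inj (hv a) (hv' b)).mpr hab)⟩,
      RINV_M.range_eq h hB hw hv, RINV_M.range_eq h hC hw' hv', h.te hv hv' hT⟩

theorem thm_RINV : St_RINV := by
  intro L M S F G n X Y β _ K hF hG hGX hGY hXF hYF hbf
  classical
  rintro m ⟨B, hB, hm⟩
  set T : Set (Set M) := {B' | GB S G n X β K B' ∧ BE S G n X β B B'} with hT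
  have hTf : T.Finite := finite_of_encard_eq_coe hm
  have : Finite T := hTf
  -- labellings of the blocks
  have hlab : ∀ B' : T, ∃ c : β → M, range c = B' ∧ ∀ i, c i ∈ X := by
    rintro ⟨B', ⟨w, hw, k, hk⟩, -⟩
    exact ⟨w k, hk.symm, fun i => (hw.inX k i).1⟩
  choose c hc hcX using hlab
  obtain ⟨w, hw, k, hk⟩ := id hB
  let N : ℕ := n + Nat.card (Fin K × β)
  have h0 : RINV_R S F G X Y (N + Nat.card β + Nat.card (β ⊕ (T × β))) (dg (G ∪ F)) := by
    refine ⟨hGX, hGY, hXF, hYF, Subset.rfl, hbf.mono (Ordinal.natCast_lt_omega0 _).le, ?_⟩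
    rintro _ ⟨x, hx | hx, rfl⟩
    · exact ⟨Or.inl (hGX hx), Or.inl (hGY hx)⟩
    · exact ⟨Or.inr hx, Or.inr hx⟩
  obtain ⟨p, y, hp, hy, h1⟩ := h0.forth (Sum.elim (w k) fun a : T × β => c a.1 a.2) (by
    rintro (i | a)
    · exact Or.inl (hw.inX k i).1
    · exact Or.inl (hcX _ _))
  let B1 : Set M := range fun i : β => y (Sum.inl i)
  let C1 : T → Set M := fun B' => range fun i : β => y (Sum.inr (B', i))
  have hB1 : RINV_M p B B1 := by
    rw [hk]
    exact RINV_M.of_range fun i => hy (Sum.inl i)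
  have hC1 : ∀ B' : T, RINV_M p B' (C1 B') := fun B' => by
    have h2 := RINV_M.of_range (p := p) (w := c B') (v := fun i : β => y (Sum.inr (B', i)))
      fun i => hy (Sum.inr (B', i))
    rw [hc] at h2
    exact h2
  have h1' : RINV_R S F G X Y N p := h1.mono (by omega)
  have h1n : RINV_R S F G X Y n p := h1.mono (by omega)
  refine ⟨B1, h1'.gb hB1 hB, ?_⟩
  have hset : {B' | GB S G n Y β K B' ∧ BE S G n Y β B1 B'} = range C1 := by
    apply Subset.antisymm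
    · rintro D' ⟨hD', hBD'⟩
      obtain ⟨v, hv, l, hl⟩ := id hD'
      obtain ⟨p', d, hp', hd, h2⟩ := h1.back (v l) fun i => Or.inl (hv.inX l i).1
      have hMD : RINV_M p' (range d) D' := by
        rw [hl]
        exact RINV_M.of_range hd
      have h3 : GB S G n X β K (range d) := h2.swap.gb hMD.swap hD'
      have h4 : BE S G n X β B (range d) :=
        (h2.mono (show n ≤ N by omega)).swap.be (hB1.mono hp').swap hMD.swap hBD'
      exact ⟨⟨range d, h3, h4⟩, RINV_M.eq h2 ((hC1 ⟨range d, h3, h4⟩).mono hp') hMD rfl⟩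
    · rintro _ ⟨B', rfl⟩
      exact ⟨h1'.gb (hC1 B') B'.2.1, h1n.be hB1 (hC1 B') B'.2.2⟩
  have hinj : Function.Injective C1 := by
    intro B' B'' h2
    apply Subtype.ext
    exact RINV_M.eq h1.swap (hC1 B').swap (hC1 B'').swap h2
  rw [hset, ← image_univ, hinj.encard_image, encard_univ, ENat.card_eq_coe_natCard, ← hm]
  rw [Set.encard, ENat.card_eq_coe_natCard]

end HERN
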