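import Pool.Agent.HERN.St

/-!
# HERN: moving tuples into a truncated set (RMV)
-/

set_option autoImplicit false

namespace HERN

open Set Pool.Agent.Helper5.DU Pool.Agent.Helper6.Str Pool.Agent.Helper79.VC
  Pool.Agent.Helper97.LO Pool.Agent.Helper97.VC HER

private theorem RMV_range_encard {M γ : Type} [Finite γ] (h : γ → M) :
    (range h).encard ≤ Nat.card γ := by
  rw [← image_univ]
  refine (encard_image_le _ _).trans ?_
  rw [encard_univ, ENat.card_eq_coe_natCard]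

theorem thm_RMV : St_RMV := by
  intro L M S G n X X' d _ hX'X hmove γ _ h h' hγ _ hX
  constructor
  · intro hT q hq hn
    have hqX : ∀ a ∈ q, a.1 ∈ X ∧ a.2 ∈ X := by
      intro a ha
      rcases hq ha with (⟨h1, h2, -, -⟩ | ⟨p, rfl⟩) | ⟨p, rfl⟩
      · exact ⟨h2, h1 ▸ h2⟩
      · exact ⟨hX'X (hX p).1, hX'X (hX p).2⟩
      · exact ⟨hX'X (hX p).2, hX'X (hX p).1⟩
    obtain ⟨σ, ⟨-, hσ⟩, hσU, hσV⟩ := hmove (range h ∪ range h') (Prod.fst '' q)
      (by
        rintro _ (⟨p, rfl⟩ | ⟨p, rfl⟩)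
        · exact (hX p).1
        · exact (hX p).2)
      (by
        rintro _ ⟨a, ha, rfl⟩
        exact (hqX a ha).1)
      (by
        refine (encard_union_le _ _).trans ((add_le_add (RMV_range_encard h)
          (RMV_range_encard h')).trans ?_)
        rw [← two_mul]
        exact_mod_cast hγ)
      ((encard_image_le _ _).trans hn)
    have hh : ∀ p, σ (h p) = h p := fun p => hσU _ (Or.inl ⟨p, rfl⟩)
    have hh' : ∀ p, σ (h' p) = h' p := fun p => hσU _ (Or.inr ⟨p, rfl⟩)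
    have hq' : ∀ a ∈ q, (σ a.1, σ a.2) ∈ SW X' h h' := by
      intro a ha
      rcases hq ha with (⟨h1, h2, h3, h4⟩ | ⟨p, rfl⟩) | ⟨p, rfl⟩
      · refine Or.inl (Or.inl ⟨by rw [h1], hσV _ ⟨a, ha, rfl⟩, ?_, ?_⟩)
        · rintro ⟨p, hp⟩
          exact h3 ⟨p, σ.injective ((hh p).trans hp)⟩
        · rintro ⟨p, hp⟩
          exact h4 ⟨p, σ.injective ((hh' p).trans hp)⟩
      · refine Or.inl (Or.inr ⟨p, ?_⟩)
        change (h p, h' p) = (σ (h p), σ (h' p))
        rw [hh, hh']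
      · refine Or.inr ⟨p, ?_⟩
        change (h' p, h p) = (σ (h' p), σ (h p))
        rw [hh, hh']
    have hs : TE S G n {a | a.2 ∈ X ∧ a.1 = σ a.2} := hσ.symm' fun a ha => ha
    have h1 : TE S G n ((fun b => (σ b.1, b.2)) '' q) := by
      refine hT.comp hs ?_
      rintro _ ⟨b, hb, rfl⟩
      exact ⟨σ b.2, hq' b hb, (hqX b hb).2, rfl⟩
    have h2 : TE S G n q := by
      refine hσ.comp h1 ?_
      intro b hb
      exact ⟨σ b.1, ⟨(hqX b hb).1, rfl⟩, ⟨b, hb, rfl⟩⟩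
    exact h2.atEq hn
  · intro hT
    refine hT.anti ?_
    rintro a ((⟨h1, h2, h3, h4⟩ | ha) | ha)
    · exact Or.inl (Or.inl ⟨h1, hX'X h2, h3, h4⟩)
    · exact Or.inl (Or.inr ha)
    · exact Or.inr ha

end HERN
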