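import Pool.Agent.HERN.St

/-!
# HERN: there are no rows (ROWS)
-/

set_option autoImplicit false

namespace HERN

open Set Pool.Agent.Helper5.DU Pool.Agent.Helper6.Str Pool.Agent.Helper79.VC
  Pool.Agent.Helper97.LO Pool.Agent.Helper97.VC HER

theorem thm_ROWS (hP : St_RPR) (hT : St_RTR) (hI : St_RINV) : St_ROWS := by
  intro L M S F hF hpig G X n β _ w hG hXc hGX hXF hR
  obtain ⟨P, φ, -, hPne, hR', hprim⟩ := hP L M S G n X β w hR
  obtain ⟨K, L', hX⟩ := hT L M S G n X P (fun i k p => w (φ i) k p) hPne.to_subtype hGX hR'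
    hprim
  choose X' h1 h2 h3 h4 using hX
  obtain ⟨f, g, hfg, hb⟩ := hpig (fun f => X' f ∪ F) (G ∪ F) Ordinal.omega0 (hG.union hF)
    subset_union_right omega_lt_om1 fun f =>
      ⟨(hXc.mono (h2 f)).union hF.countable, (h3 f).mono subset_union_left,
        union_subset_union_left _ (h1 f)⟩
  have hXF' : ∀ f, X' f ∩ F ⊆ G := fun f => (inter_subset_inter_left _ (h2 f)).trans hXF
  have e1 : Inv S G n (X' f) P K ⊆ Inv S G n (X' g) P K :=
    hI L M S F G n (X' f) (X' g) P K hF hG (h1 f) (h1 g) (hXF' f) (hXF' g) hb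
  apply hfg
  funext i
  obtain ⟨j, hj⟩ := (h4 g (L' + 1 + 2 * i + (if f i then 1 else 0)) (by omega)).1
    (e1 ((h4 f _ (by omega)).2 ⟨i, rfl⟩))
  have hij : i = j := by
    cases hf : f i <;> cases hg : g j <;> rw [hf, hg] at hj <;> simp at hj <;> omega
  subst hij
  cases hf : f i <;> cases hg : g i <;> rw [hf, hg] at hj <;> simp at hj

end HERN
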