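import Pool.Agent.HERN.St

/-!
# HERN: primitive rows
-/

set_option autoImplicit false
set_option linter.unusedVariables false

namespace HERN

open Set Pool.Agent.Helper5.DU Pool.Agent.Helper6.Str Pool.Agent.Helper79.VC
  Pool.Agent.Helper97.LO Pool.Agent.Helper97.VC HER

/-! ## Groups -/

section grp

variable {β I : Type}

open Classical in
/-- the exchange of the `P`-parts of two members -/
noncomputable def RPR_sw (P : Set β) (a b : I) : β → Equiv.Perm I :=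
  fun p => if p ∈ P then Equiv.swap a b else 1

open Classical in
theorem RPR_sw_pos {P : Set β} {a b : I} {p : β} (h : p ∈ P) :
    RPR_sw P a b p = Equiv.swap a b := by simp [RPR_sw, h]

theorem RPR_sw_neg {P : Set β} {a b : I} {p : β} (h : p ∉ P) : RPR_sw P a b p = 1 := by
  simp [RPR_sw, h]

theorem RPR_sw_left {P : Set β} {a b : I} {p : β} (h : p ∈ P) : RPR_sw P a b p a = b := by
  classical
  rw [RPR_sw_pos h, Equiv.swap_apply_left]

theorem RPR_sw_right {P : Set β} {a b : I} {p : β} (h : p ∈ P) : RPR_sw P a b p b = a := by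
  classical
  rw [RPR_sw_pos h, Equiv.swap_apply_right]

theorem RPR_sw_other (P : Set β) {a b c : I} (p : β) (hca : c ≠ a) (hcb : c ≠ b) :
    RPR_sw P a b p c = c := by
  classical
  by_cases h : p ∈ P
  · rw [RPR_sw_pos h, Equiv.swap_apply_of_ne_of_ne hca hcb]
  · rw [RPR_sw_neg h]; rfl

theorem RPR_sw_self (P : Set β) (a : I) : RPR_sw P a a = 1 := by
  classical
  funext p
  by_cases h : p ∈ P
  · rw [RPR_sw_pos h, Equiv.swap_self]; rfl
  · rw [RPR_sw_neg h]; rfl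

theorem RPR_sw_comm (P : Set β) (a b : I) : RPR_sw P a b = RPR_sw P b a := by
  classical
  funext p
  by_cases h : p ∈ P
  · rw [RPR_sw_pos h, RPR_sw_pos h, Equiv.swap_comm]
  · rw [RPR_sw_neg h, RPR_sw_neg h]

theorem RPR_sw_conj {P Q : Set β} (hPQ : P ⊆ Q) {a b c : I} (h1 : a ≠ b) (h2 : a ≠ c) :
    RPR_sw Q b c * RPR_sw P a b * RPR_sw Q b c = RPR_sw P a c := by
  classical
  funext p
  simp only [Pi.mul_apply]
  by_cases h : p ∈ P
  · rw [RPR_sw_pos h, RPR_sw_pos h, RPR_sw_pos (hPQ h), Equiv.swap_mul_swap_mul_swap h1 h2,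
      Equiv.swap_comm]
  · rw [RPR_sw_neg h, RPR_sw_neg h, mul_one]
    by_cases h' : p ∈ Q
    · rw [RPR_sw_pos h', Equiv.swap_mul_self]
    · rw [RPR_sw_neg h', mul_one]

theorem RPR_sw_union {P Q : Set β} (hPQ : Disjoint P Q) (a b : I) :
    RPR_sw (P ∪ Q) a b = RPR_sw P a b * RPR_sw Q a b := by
  classical
  funext p
  simp only [Pi.mul_apply]
  by_cases h : p ∈ P
  · have h' : p ∉ Q := fun h' => (Set.disjoint_left.1 hPQ h) h'
    rw [RPR_sw_pos (mem_union_left Q h), RPR_sw_pos h, RPR_sw_neg h', mul_one]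
  · rw [RPR_sw_neg h, one_mul]
    by_cases h' : p ∈ Q
    · rw [RPR_sw_pos (mem_union_right P h'), RPR_sw_pos h']
    · rw [RPR_sw_neg h', RPR_sw_neg (fun h2 => h2.elim h h')]

theorem RPR_sw_compl (P : Set β) (a b : I) :
    RPR_sw univ a b * RPR_sw P a b = RPR_sw Pᶜ a b := by
  classical
  funext p
  simp only [Pi.mul_apply]
  rw [RPR_sw_pos (mem_univ p)]
  by_cases h : p ∈ P
  · have h' : p ∉ Pᶜ := fun h' => h' h
    rw [RPR_sw_pos h, RPR_sw_neg h', Equiv.swap_mul_self]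
  · rw [RPR_sw_neg h, RPR_sw_pos (mem_compl h), mul_one]

open Classical in
theorem RPR_three {a b c : I} (hab : a ≠ b) (hbc : b ≠ c) (hac : a ≠ c) :
    (Equiv.swap a b * Equiv.swap b c) * (Equiv.swap a b * Equiv.swap b c) *
      (Equiv.swap a b * Equiv.swap b c) = 1 := by
  have e1 : Equiv.swap b c * Equiv.swap a b * Equiv.swap b c = Equiv.swap c a :=
    Equiv.swap_mul_swap_mul_swap hab hac
  have e2 : Equiv.swap b a * Equiv.swap c b * Equiv.swap b a = Equiv.swap a c :=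
    Equiv.swap_mul_swap_mul_swap hbc.symm hac.symm
  rw [Equiv.swap_comm b a, Equiv.swap_comm c b] at e2
  calc _ = (Equiv.swap a b * Equiv.swap b c * Equiv.swap a b) *
      (Equiv.swap b c * Equiv.swap a b * Equiv.swap b c) := by simp only [mul_assoc]
    _ = 1 := by rw [e1, e2, Equiv.swap_comm c a, Equiv.swap_mul_self]

open Classical in
theorem RPR_four (a b c d x : I) (hxc : x ≠ c) (hxd : x ≠ d) :
    ((Equiv.swap a b * Equiv.swap b c) * (Equiv.swap b c * Equiv.swap c d)) x =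
      Equiv.swap a b x := by
  have e : (Equiv.swap a b * Equiv.swap b c) * (Equiv.swap b c * Equiv.swap c d) =
      Equiv.swap a b * Equiv.swap c d := by
    rw [mul_assoc, ← mul_assoc (Equiv.swap b c), Equiv.swap_mul_self, one_mul]
  rw [e, Equiv.Perm.mul_apply, Equiv.swap_apply_of_ne_of_ne hxc hxd]

open Classical in
/-- the three-cycle of the `P ∩ Q`-parts -/
theorem RPR_cycle (H : Subgroup (β → Equiv.Perm I)) {P Q : Set β} {a b c : I}
    (hab : a ≠ b) (hbc : b ≠ c) (hac : a ≠ c) (h1 : RPR_sw P a b ∈ H) (h2 : RPR_sw Q b c ∈ H) :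
    (fun p => if p ∈ P ∩ Q then Equiv.swap a b * Equiv.swap b c else 1) ∈ H := by
  have h3 : ((RPR_sw P a b * RPR_sw Q b c) * (RPR_sw P a b * RPR_sw Q b c))⁻¹ ∈ H :=
    H.inv_mem (H.mul_mem (H.mul_mem h1 h2) (H.mul_mem h1 h2))
  have h4 : ((RPR_sw P a b * RPR_sw Q b c) * (RPR_sw P a b * RPR_sw Q b c))⁻¹ =
      (fun p => if p ∈ P ∩ Q then Equiv.swap a b * Equiv.swap b c else 1) := by
    funext p
    simp only [Pi.inv_apply, Pi.mul_apply]
    by_cases hP : p ∈ P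
    · by_cases hQ : p ∈ Q
      · rw [if_pos ⟨hP, hQ⟩, RPR_sw_pos hP, RPR_sw_pos hQ, inv_eq_iff_mul_eq_one]
        exact RPR_three hab hbc hac
      · rw [if_neg (fun h => hQ h.2), RPR_sw_pos hP, RPR_sw_neg hQ, mul_one,
          Equiv.swap_mul_self, inv_one]
    · rw [if_neg (fun h => hP h.1), RPR_sw_neg hP, one_mul]
      by_cases hQ : p ∈ Q
      · rw [RPR_sw_pos hQ, Equiv.swap_mul_self, inv_one]
      · rw [RPR_sw_neg hQ, mul_one, inv_one]
  rwa [h4] at h3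

/-- transitivity -/
theorem RPR_trans (H : Subgroup (β → Equiv.Perm I)) {P : Set β} {a b c : I}
    (h1 : RPR_sw P a b ∈ H) (h2 : RPR_sw P b c ∈ H) : RPR_sw P a c ∈ H := by
  by_cases hab : a = b
  · subst hab; exact h2
  by_cases hac : a = c
  · subst hac; rw [RPR_sw_self]; exact H.one_mem
  rw [← RPR_sw_conj Subset.rfl hab hac]
  exact H.mul_mem (H.mul_mem h2 h1) h2

/-- all exchanges of the `P`-parts of members of one row -/
theorem RPR_row (H : Subgroup (β → Equiv.Perm I)) {P : Set β} (R : Set I)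
    (hR : ∀ a ∈ R, ∀ b ∈ R, RPR_sw univ a b ∈ H) {a b : I} (ha : a ∈ R) (hb : b ∈ R)
    (hab : a ≠ b) (h : RPR_sw P a b ∈ H) : ∀ c ∈ R, ∀ d ∈ R, RPR_sw P c d ∈ H := by
  have h1 : ∀ c ∈ R, RPR_sw P a c ∈ H := by
    intro c hc
    by_cases hac : a = c
    · subst hac; rw [RPR_sw_self]; exact H.one_mem
    · rw [← RPR_sw_conj (subset_univ P) hab hac]
      exact H.mul_mem (H.mul_mem (hR b hb c hc) h) (hR b hb c hc)
  intro c hc d hd
  refine RPR_trans H ?_ (h1 d hd)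
  rw [RPR_sw_comm]
  exact h1 c hc

end grp

/-- the members of all rows -/
abbrev RPR_I : Type := {x : ℕ × ℕ // x.2 ≤ x.1}

/-- two members of a row outside of a small set -/
theorem RPR_two (i k : ℕ) (E : Finset RPR_I) (hE : E.card ≤ k) (hi : k + 1 ≤ i) :
    ∃ c d : RPR_I, c.1.1 = i ∧ d.1.1 = i ∧ c ≠ d ∧ c ∉ E ∧ d ∉ E := by
  classical
  have h1 : 1 < (Finset.range (i + 1) \ E.image fun x => x.1.2).card := by
    have h2 := Finset.le_card_sdiff (E.image fun x => x.1.2) (Finset.range (i + 1))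
    have h3 : (E.image fun x => x.1.2).card ≤ E.card := Finset.card_image_le
    rw [Finset.card_range] at h2
    omega
  obtain ⟨a, ha, b, hb, hab⟩ := Finset.one_lt_card.1 h1
  rw [Finset.mem_sdiff, Finset.mem_range] at ha hb
  refine ⟨⟨(i, a), Nat.lt_succ_iff.1 ha.1⟩, ⟨(i, b), Nat.lt_succ_iff.1 hb.1⟩, rfl, rfl, ?_, ?_, ?_⟩
  · intro h
    exact hab (congrArg (fun x : RPR_I => x.1.2) h)
  · intro h
    exact ha.2 (Finset.mem_image.2 ⟨_, h, rfl⟩)
  · intro h
    exact hb.2 (Finset.mem_image.2 ⟨_, h, rfl⟩)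

/-- sets of coordinates which can be exchanged in row `i` -/
def RPR_J {β : Type} (H : Subgroup (β → Equiv.Perm RPR_I)) (i : ℕ) : Set (Set β) :=
  {J | ∀ a b : RPR_I, a.1.1 = i → b.1.1 = i → RPR_sw J a b ∈ H}

section abs

variable {β : Type} {n : ℕ} {H : Subgroup (β → Equiv.Perm RPR_I)}
  (h1 : ∀ a b : RPR_I, a.1.1 = b.1.1 → RPR_sw univ a b ∈ H)
  (h3 : ∀ f : β → Equiv.Perm RPR_I, (∀ A : Finset (β × RPR_I), A.card ≤ n → ∃ g ∈ H,
    ∀ x ∈ A, g x.1 x.2 = f x.1 x.2) → f ∈ H)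

include h1

theorem RPR_J_some {i : ℕ} {J : Set β} {a b : RPR_I} (ha : a.1.1 = i) (hb : b.1.1 = i)
    (hab : a ≠ b) (h : RPR_sw J a b ∈ H) : J ∈ RPR_J H i := by
  intro c d hc hd
  exact RPR_row H {a : RPR_I | a.1.1 = i} (fun x hx y hy => h1 x y (hx.trans hy.symm)) ha hb hab h
    c hc d hd

theorem RPR_J_univ (i : ℕ) : univ ∈ RPR_J H i :=
  fun a b ha hb => h1 a b (ha.trans hb.symm)

theorem RPR_J_compl {i : ℕ} {J : Set β} (hJ : J ∈ RPR_J H i) : Jᶜ ∈ RPR_J H i := by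
  intro a b ha hb
  rw [← RPR_sw_compl]
  exact H.mul_mem (h1 a b (ha.trans hb.symm)) (hJ a b ha hb)

include h3

omit h1 in
open Classical in
theorem RPR_J_inter {i : ℕ} (hi : n + 3 ≤ i) {J J' : Set β} (hJ : J ∈ RPR_J H i)
    (hJ' : J' ∈ RPR_J H i) : J ∩ J' ∈ RPR_J H i := by
  intro a b ha hb
  by_cases hab : a = b
  · subst hab; rw [RPR_sw_self]; exact H.one_mem
  apply h3
  intro A hA
  have hE : (insert a (insert b (A.image Prod.snd))).card ≤ n + 2 := by
    refine (Finset.card_insert_le _ _).trans ?_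
    have h4 := Finset.card_insert_le b (A.image Prod.snd)
    have h5 : (A.image Prod.snd).card ≤ A.card := Finset.card_image_le
    omega
  obtain ⟨c, d, hc, hd, hcd, hcE, hdE⟩ := RPR_two i (n + 2) _ hE (by omega)
  simp only [Finset.mem_insert, not_or] at hcE hdE
  have k1 := RPR_cycle H (P := J) (Q := J') hab (Ne.symm hcE.2.1) (Ne.symm hcE.1)
    (hJ a b ha hb) (hJ' b c hb hc)
  have k2 := RPR_cycle H (P := J) (Q := J') (Ne.symm hcE.2.1) hcd (Ne.symm hdE.2.1)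
    (hJ b c hb hc) (hJ' c d hc hd)
  refine ⟨_, H.mul_mem k1 k2, ?_⟩
  rintro ⟨p, x⟩ hx
  have hxc : x ≠ c := by
    rintro rfl
    exact hcE.2.2 (Finset.mem_image.2 ⟨_, hx, rfl⟩)
  have hxd : x ≠ d := by
    rintro rfl
    exact hdE.2.2 (Finset.mem_image.2 ⟨_, hx, rfl⟩)
  simp only [Pi.mul_apply]
  by_cases hp : p ∈ J ∩ J'
  · rw [if_pos hp, if_pos hp, RPR_sw_pos hp]
    exact RPR_four a b c d x hxc hxd
  · rw [if_neg hp, if_neg hp, RPR_sw_neg hp, mul_one]

/-- the atoms -/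
theorem RPR_atoms [Finite β] {i : ℕ} (hi : n + 3 ≤ i) : ∃ at' : β → Set β,
    (∀ p, p ∈ at' p ∧ at' p ∈ RPR_J H i) ∧
    (∀ p, ∀ Q ∈ RPR_J H i, Q ⊆ at' p → Q.Nonempty → Q = at' p) := by
  classical
  refine ⟨fun p => ⋂₀ {J | J ∈ RPR_J H i ∧ p ∈ J}, fun p => ⟨fun J hJ => hJ.2, ?_⟩, ?_⟩
  · have hfin : {J | J ∈ RPR_J H i ∧ p ∈ J}.Finite := Set.toFinite _
    have : ∀ T : Finset (Set β), (∀ J ∈ T, J ∈ RPR_J H i) → ⋂₀ (T : Set (Set β)) ∈ RPR_J H i := by
      intro T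
      induction T using Finset.induction_on with
      | empty => intro _; simpa using RPR_J_univ h1 i
      | insert J T hJ ih =>
        intro hT
        rw [Finset.coe_insert, sInter_insert]
        exact RPR_J_inter h3 hi (hT J (Finset.mem_insert_self J T))
          (ih fun K hK => hT K (Finset.mem_insert_of_mem hK))
    have h4 := this hfin.toFinset (fun J hJ => (hfin.mem_toFinset.1 hJ).1)
    rwa [hfin.coe_toFinset] at h4
  · intro p Q hQ hsub hne
    refine hsub.antisymm ?_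
    by_cases hp : p ∈ Q
    · exact sInter_subset_of_mem ⟨hQ, hp⟩
    · exfalso
      obtain ⟨q, hq⟩ := hne
      have h4 : q ∈ Qᶜ := hsub hq _ ⟨RPR_J_compl h1 hQ, hp⟩
      exact h4 hq

end abs

theorem RPR_abs {β : Type} [Finite β] (n : ℕ) (H : Subgroup (β → Equiv.Perm RPR_I))
    (h1 : ∀ a b : RPR_I, a.1.1 = b.1.1 → RPR_sw univ a b ∈ H)
    (h2 : ∀ a b : RPR_I, a.1.1 ≠ b.1.1 → RPR_sw univ a b ∉ H)
    (h3 : ∀ f : β → Equiv.Perm RPR_I, (∀ A : Finset (β × RPR_I), A.card ≤ n → ∃ g ∈ H,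
      ∀ x ∈ A, g x.1 x.2 = f x.1 x.2) → f ∈ H) :
    ∃ (P : Set β) (φ : ℕ → ℕ), StrictMono φ ∧ P.Nonempty ∧
      (∀ (i : ℕ) (a b : RPR_I), a.1.1 = φ i → b.1.1 = φ i → RPR_sw P a b ∈ H) ∧
      (∀ (i j : ℕ) (a b : RPR_I), i ≠ j → a.1.1 = φ i → b.1.1 = φ j → RPR_sw P a b ∉ H) ∧
      ∀ (i : ℕ) (a b : RPR_I) (Q : Set β), a ≠ b → a.1.1 = φ i → b.1.1 = φ i → Q ⊆ P →
        Q.Nonempty → Q ≠ P → RPR_sw Q a b ∉ H := by
  classical
  obtain ⟨J, hJ⟩ := Finite.exists_infinite_fiber (fun i : ℕ => RPR_J H i)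
  rw [Set.infinite_coe_iff] at hJ
  set 𝒢 : Set ℕ := {i | n + 3 ≤ i ∧ RPR_J H i = J} with h𝒢
  have hGinf : 𝒢.Infinite := by
    intro hfin
    apply hJ
    refine (hfin.union (Set.finite_lt_nat (n + 3))).subset ?_
    intro i hi
    by_cases h : n + 3 ≤ i
    · exact Or.inl ⟨h, hi⟩
    · exact Or.inr (not_le.1 h)
  obtain ⟨i₀, hi₀⟩ := hGinf.nonempty
  obtain ⟨at', hat1, hat2⟩ := RPR_atoms h1 h3 hi₀.1
  rw [hi₀.2] at hat1 hat2
  have hrow : ∀ i : ℕ, ∃ a : RPR_I, a.1.1 = i := fun i => ⟨⟨(i, 0), Nat.zero_le _⟩, rfl⟩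
  have hG : ∀ i ∈ 𝒢, ∀ p, at' p ∈ RPR_J H i := fun i hi p => by rw [hi.2]; exact (hat1 p).2
  -- the relations
  let R : Set β → ℕ → ℕ → Prop := fun K i j =>
    ∀ a b : RPR_I, a.1.1 = i → b.1.1 = j → RPR_sw K a b ∈ H
  have Rsymm : ∀ K i j, R K i j → R K j i := by
    intro K i j h a b ha hb
    rw [RPR_sw_comm]
    exact h b a hb ha
  have Rtrans : ∀ K i j k, R K i j → R K j k → R K i k := by
    intro K i j k h h' a b ha hb
    obtain ⟨c, hc⟩ := hrow j
    exact RPR_trans H (h a c ha hc) (h' c b hc hb)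
  have Rsome : ∀ p, ∀ i ∈ 𝒢, ∀ j ∈ 𝒢, ∀ a b : RPR_I, a.1.1 = i → b.1.1 = j →
      RPR_sw (at' p) a b ∈ H → R (at' p) i j := by
    intro p i hi j hj a b ha hb h c d hc hd
    exact RPR_trans H (hG i hi p c a hc ha) (RPR_trans H h (hG j hj p b d hb hd))
  let c : β → ℕ → ℕ := fun p i => sInf {j | j ∈ 𝒢 ∧ R (at' p) i j}
  have hc : ∀ p, ∀ i ∈ 𝒢, c p i ∈ 𝒢 ∧ R (at' p) i (c p i) := by
    intro p i hi
    exact Nat.sInf_mem (s := {j | j ∈ 𝒢 ∧ R (at' p) i j}) ⟨i, hi, hG i hi p⟩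
  have hceq : ∀ p i j, R (at' p) i j → c p i = c p j := by
    intro p i j h
    have : {k | k ∈ 𝒢 ∧ R (at' p) i k} = {k | k ∈ 𝒢 ∧ R (at' p) j k} := by
      ext k
      exact ⟨fun hk => ⟨hk.1, Rtrans _ _ _ _ (Rsymm _ _ _ h) hk.2⟩,
        fun hk => ⟨hk.1, Rtrans _ _ _ _ h hk.2⟩⟩
    exact congrArg sInf this
  obtain ⟨p, hp⟩ : ∃ p, (c p '' 𝒢).Infinite := by
    by_contra hcon
    simp only [not_exists, Set.not_infinite] at hcon
    have hfin : (Set.pi univ fun p => c p '' 𝒢).Finite := Set.Finite.pi fun p => hcon p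
    obtain ⟨i, hi, j, hj, hij, he⟩ := hGinf.exists_ne_map_eq_of_mapsTo
      (f := fun i p => c p i) (t := Set.pi univ fun p => c p '' 𝒢)
      (fun i hi p _ => ⟨i, hi, rfl⟩) hfin
    have hR : ∀ p, R (at' p) i j := by
      intro p
      have e : c p i = c p j := congrFun he p
      refine Rtrans _ _ _ _ (hc p i hi).2 ?_
      rw [e]
      exact Rsymm _ _ _ (hc p j hj).2
    obtain ⟨a, ha⟩ := hrow i
    obtain ⟨b, hb⟩ := hrow j
    have hun : ∀ T : Finset β, RPR_sw (⋃ p ∈ T, at' p) a b ∈ H := by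
      intro T
      induction T using Finset.induction_on with
      | empty =>
        have : RPR_sw (⋃ p ∈ (∅ : Finset β), at' p) a b = 1 := by
          funext p
          rw [RPR_sw_neg (by simp)]
          rfl
        rw [this]
        exact H.one_mem
      | insert q T hq ih =>
        rw [Finset.set_biUnion_insert]
        by_cases hd : Disjoint (at' q) (⋃ p ∈ T, at' p)
        · rw [RPR_sw_union hd]
          exact H.mul_mem (hR q a b ha hb) ih
        · obtain ⟨x, hx1, hx2⟩ := Set.not_disjoint_iff.1 hd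
          obtain ⟨r, hr, hxr⟩ := Set.mem_iUnion₂.1 hx2
          have hin : at' q ∩ at' r ∈ J := by
            have := RPR_J_inter h3 hi₀.1 (J := at' q) (J' := at' r)
              (by rw [hi₀.2]; exact (hat1 q).2) (by rw [hi₀.2]; exact (hat1 r).2)
            rwa [hi₀.2] at this
          have e1 := hat2 q _ hin inter_subset_left ⟨x, hx1, hxr⟩
          have e2 := hat2 r _ hin inter_subset_right ⟨x, hx1, hxr⟩
          have e3 : at' q ∪ (⋃ p ∈ T, at' p) = ⋃ p ∈ T, at' p := by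
            apply union_eq_self_of_subset_left
            rw [← e1, e2]
            exact Set.subset_biUnion_of_mem (u := fun p => at' p) hr
          rw [e3]
          exact ih
    have := Fintype.ofFinite β
    have h5 := hun Finset.univ
    have h6 : (⋃ p ∈ (Finset.univ : Finset β), at' p) = univ := by
      rw [eq_univ_iff_forall]
      intro p
      exact Set.mem_iUnion₂.2 ⟨p, Finset.mem_univ p, (hat1 p).1⟩
    rw [h6] at h5
    exact h2 a b (by rw [ha, hb]; exact hij) h5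
  -- the indices
  set T : Set ℕ := c p '' 𝒢 with hT
  have : Infinite T := hp.to_subtype
  let φ : ℕ ↪o ℕ := Nat.orderEmbeddingOfSet T
  have hφ : ∀ i, φ i ∈ T := fun i => Nat.orderEmbeddingOfSet_apply (s := T) ▸ Subtype.coe_prop _
  have hTG : ∀ t ∈ T, t ∈ 𝒢 ∧ c p t = t := by
    rintro _ ⟨k, hk, rfl⟩
    exact ⟨(hc p k hk).1, (hceq p _ _ (hc p k hk).2).symm⟩
  refine ⟨at' p, φ, φ.strictMono, ⟨p, (hat1 p).1⟩, ?_, ?_, ?_⟩
  · intro i a b ha hb
    exact hG _ (hTG _ (hφ i)).1 p a b ha hb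
  · intro i j a b hij ha hb h
    have h5 := Rsome p _ (hTG _ (hφ i)).1 _ (hTG _ (hφ j)).1 a b ha hb h
    have h6 := hceq p _ _ h5
    rw [(hTG _ (hφ i)).2, (hTG _ (hφ j)).2] at h6
    exact hij (φ.injective h6)
  · intro i a b Q hab ha hb hQ hne hQP h
    have h5 := RPR_J_some h1 ha hb hab h
    rw [(hTG _ (hφ i)).1.2] at h5
    exact hQP (hat2 p Q h5 hQ hne)

/-- primitive rows -/
theorem thm_RPR (hN : St_NAB) : St_RPR := by
  classical
  intro L M S G n X β _ w hw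
  obtain ⟨n1, nmul, ninv, nsw⟩ := hN L M S G n X
  -- all members
  let m : (Σ _ : β, RPR_I) → M := fun x => w x.2.1.1 x.2.1.2 x.1
  have hm : Function.Injective m := by
    rintro ⟨p, ⟨⟨i, k⟩, hk⟩⟩ ⟨q, ⟨⟨j, l⟩, hl⟩⟩ h
    obtain ⟨h1, h2, h3⟩ := hw.dis i k p j l q hk hl h
    subst h1 h2 h3
    rfl
  let ι : (Σ _ : β, RPR_I) ↪ M := ⟨m, hm⟩
  let Ψ : (β → Equiv.Perm RPR_I) →* Equiv.Perm M :=
    (Equiv.Perm.viaEmbeddingHom ι).comp (Equiv.Perm.sigmaCongrRightHom fun _ : β => RPR_I)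
  have hΨ : ∀ f p a, Ψ f (m ⟨p, a⟩) = m ⟨p, f p a⟩ := fun f p a =>
    Equiv.Perm.viaEmbedding_apply _ ι ⟨p, a⟩
  have hΨ' : ∀ f x, x ∉ range m → Ψ f x = x := fun f x hx =>
    Equiv.Perm.viaEmbedding_apply_of_notMem _ ι x hx
  have hmX : ∀ x, m x ∈ X := by
    rintro ⟨p, ⟨⟨i, k⟩, hk⟩⟩
    exact (hw.inX i k p hk).1
  let N : Subgroup (Equiv.Perm M) :=
    { carrier := {σ | NA S G n X σ}
      mul_mem' := fun {a b} ha hb => nmul a b ha hb
      one_mem' := n1
      inv_mem' := fun {a} ha => ninv a ha }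
  let H : Subgroup (β → Equiv.Perm RPR_I) := N.comap Ψ
  have hH : ∀ f, f ∈ H ↔ NA S G n X (Ψ f) := fun f => Iff.rfl
  -- exchanges
  have link : ∀ (γ : Type) [Finite γ] (e : γ → β) (P : Set β) (a b : RPR_I),
      Function.Injective e → range e = P → a ≠ b →
      (RPR_sw P a b ∈ H ↔ TE S G n (SW X (fun q : γ => w a.1.1 a.1.2 (e q))
        (fun q : γ => w b.1.1 b.1.2 (e q)))) := by
    intro γ _ e P a b he hP hab
    have hd : Dj (fun q : γ => w a.1.1 a.1.2 (e q)) (fun q : γ => w b.1.1 b.1.2 (e q)) := by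
      refine ⟨fun q q' h => ?_, fun q q' h => ?_, fun q q' h => ?_⟩
      · exact he (hw.dis _ _ _ _ _ _ a.2 a.2 h).2.2
      · exact he (hw.dis _ _ _ _ _ _ b.2 b.2 h).2.2
      · obtain ⟨h1, h2, -⟩ := hw.dis _ _ _ _ _ _ a.2 b.2 h
        exact hab (Subtype.ext (Prod.ext h1 h2))
    obtain ⟨σ, s1, s2, s3, s4⟩ := nsw γ _ _ hd (fun q => (hw.inX _ _ _ a.2).1)
      (fun q => (hw.inX _ _ _ b.2).1)
    have hσ : Ψ (RPR_sw P a b) = σ := by
      ext x
      by_cases hx1 : ∃ q, w a.1.1 a.1.2 (e q) = x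
      · obtain ⟨q, rfl⟩ := hx1
        rw [s1 q]
        refine (hΨ _ (e q) a).trans ?_
        rw [RPR_sw_left (hP ▸ mem_range_self q)]
      by_cases hx2 : ∃ q, w b.1.1 b.1.2 (e q) = x
      · obtain ⟨q, rfl⟩ := hx2
        rw [s2 q]
        refine (hΨ _ (e q) b).trans ?_
        rw [RPR_sw_right (hP ▸ mem_range_self q)]
      rw [s3 x hx1 hx2]
      by_cases hx : x ∈ range m
      · obtain ⟨⟨p, c⟩, rfl⟩ := hx
        rw [hΨ]
        by_cases hp : p ∈ P
        · rw [← hP] at hp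
          obtain ⟨q, rfl⟩ := hp
          have hca : c ≠ a := by
            rintro rfl
            exact hx1 ⟨q, rfl⟩
          have hcb : c ≠ b := by
            rintro rfl
            exact hx2 ⟨q, rfl⟩
          rw [RPR_sw_other _ _ hca hcb]
        · rw [RPR_sw_neg hp]
          rfl
      · exact hΨ' _ x hx
    rw [hH, hσ]
    exact s4
  have k1 : ∀ a b : RPR_I, a.1.1 = b.1.1 → RPR_sw univ a b ∈ H := by
    intro a b hab
    by_cases h : a = b
    · subst h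
      rw [RPR_sw_self]
      exact H.one_mem
    · rw [link β id univ a b Function.injective_id range_id h]
      obtain ⟨⟨i, k⟩, hk⟩ := a
      obtain ⟨⟨j, l⟩, hl⟩ := b
      simp only at hab
      subst hab
      refine hw.row i k l hk hl ?_
      rintro rfl
      exact h rfl
  have k2 : ∀ a b : RPR_I, a.1.1 ≠ b.1.1 → RPR_sw univ a b ∉ H := by
    intro a b hab h
    have hne : a ≠ b := by
      rintro rfl
      exact hab rfl
    rw [link β id univ a b Function.injective_id range_id hne] at h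
    exact hw.non _ _ _ _ hab a.2 b.2 h
  have k3 : ∀ f : β → Equiv.Perm RPR_I, (∀ A : Finset (β × RPR_I), A.card ≤ n → ∃ g ∈ H,
      ∀ x ∈ A, g x.1 x.2 = f x.1 x.2) → f ∈ H := by
    intro f hf
    rw [hH]
    refine ⟨fun x => ?_, ?_⟩
    · by_cases hx : x ∈ range m
      · obtain ⟨⟨p, c⟩, rfl⟩ := hx
        rw [hΨ]
        exact ⟨fun _ => hmX _, fun _ => hmX _⟩
      · rw [hΨ' _ x hx]
    · intro q hq hn
      set A' : Set (β × RPR_I) := {x | m ⟨x.1, x.2⟩ ∈ Prod.fst '' q} with hA'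
      have hA'n : A'.encard ≤ n := by
        refine (Set.encard_le_encard_of_injOn (f := fun x : β × RPR_I => m ⟨x.1, x.2⟩)
          (t := Prod.fst '' q) (fun x hx => hx) ?_).trans ((encard_image_le _ _).trans hn)
        intro x _ y _ hxy
        have h4 := hm hxy
        have h5 : x.1 = y.1 := congrArg (fun z : (Σ _ : β, RPR_I) => z.1) h4
        have h6 : x.2 = y.2 := congrArg (fun z : (Σ _ : β, RPR_I) => z.2) h4
        exact Prod.ext h5 h6
      have hfin : A'.Finite := Set.finite_of_encard_le_coe hA'n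
      obtain ⟨g, hg, hgf⟩ := hf hfin.toFinset (by
        have h4 : ((hfin.toFinset : Finset (β × RPR_I)) : Set (β × RPR_I)).encard ≤ n := by
          rw [hfin.coe_toFinset]; exact hA'n
        rw [encard_coe_eq_coe_finsetCard] at h4
        exact_mod_cast h4)
      rw [hH] at hg
      refine hg.2 q (fun a ha => ?_) hn
      obtain ⟨h4, h5⟩ := hq ha
      refine ⟨h4, ?_⟩
      rw [h5]
      by_cases hx : a.1 ∈ range m
      · obtain ⟨⟨p, c⟩, hpc⟩ := hx
        rw [← hpc, hΨ, hΨ]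
        have h6 : ((p, c) : β × RPR_I) ∈ hfin.toFinset := by
          rw [hfin.mem_toFinset]
          exact ⟨a, ha, hpc.symm⟩
        rw [hgf _ h6]
      · rw [hΨ' _ _ hx, hΨ' _ _ hx]
  obtain ⟨P, φ, hφ, hP, g1, g2, g3⟩ := RPR_abs n H k1 k2 k3
  refine ⟨P, φ, hφ, hP, ⟨?_, ?_, ?_, ?_⟩, ?_⟩
  · intro i k p hk
    exact hw.inX _ _ _ (hk.trans hφ.le_apply)
  · intro i k p j l q hk hl h
    obtain ⟨h1, h2, h3⟩ := hw.dis _ _ _ _ _ _ (hk.trans hφ.le_apply) (hl.trans hφ.le_apply) h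
    exact ⟨hφ.injective h1, h2, Subtype.ext h3⟩
  · intro i k l hk hl hkl
    have h := (link P Subtype.val P ⟨(φ i, k), hk.trans hφ.le_apply⟩
      ⟨(φ i, l), hl.trans hφ.le_apply⟩ Subtype.val_injective Subtype.range_val ?_).1
      (g1 i _ _ rfl rfl)
    · exact h
    · intro h
      exact hkl (congrArg (fun x : RPR_I => x.1.2) h)
  · intro i j k l hij hk hl h
    refine g2 i j ⟨(φ i, k), hk.trans hφ.le_apply⟩ ⟨(φ j, l), hl.trans hφ.le_apply⟩ hij rfl rfl
      ((link P Subtype.val P ⟨(φ i, k), hk.trans hφ.le_apply⟩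
      ⟨(φ j, l), hl.trans hφ.le_apply⟩ Subtype.val_injective Subtype.range_val ?_).2 h)
    intro h
    exact hij (hφ.injective (congrArg (fun x : RPR_I => x.1.1) h))
  · intro i k l Q hk hl hkl hQ hQ' h
    have hne : (⟨(φ i, k), hk.trans hφ.le_apply⟩ : RPR_I) ≠
        ⟨(φ i, l), hl.trans hφ.le_apply⟩ := by
      intro h
      exact hkl (congrArg (fun x : RPR_I => x.1.2) h)
    refine g3 i ⟨(φ i, k), hk.trans hφ.le_apply⟩ ⟨(φ i, l), hl.trans hφ.le_apply⟩
      (Subtype.val '' Q) hne rfl rfl ?_ (hQ.image _) ?_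
      ((link Q (fun q : Q => ((q : P) : β)) (Subtype.val '' Q) _ _ ?_ ?_ hne).2 h)
    · rintro _ ⟨q, -, rfl⟩
      exact q.2
    · intro h1
      apply hQ'
      rw [eq_univ_iff_forall]
      intro p
      have h2 : (p : β) ∈ Subtype.val '' Q := by rw [h1]; exact p.2
      obtain ⟨q, hq, hqp⟩ := h2
      rwa [← Subtype.ext hqp]
    · intro q q' h1
      exact Subtype.ext (Subtype.ext h1)
    · ext x
      constructor
      · rintro ⟨q, rfl⟩
        exact ⟨q.1, q.2, rfl⟩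
      · rintro ⟨q, hq, rfl⟩
        exact ⟨⟨q, hq⟩, rfl⟩

end HERN
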