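import Pool.Agent.HERN.St

/-!
# HERN, module RTR: sets with given sizes of the classes
-/

set_option autoImplicit false
set_option linter.unusedVariables false

namespace HERN

open Set Pool.Agent.Helper5.DU Pool.Agent.Helper6.Str Pool.Agent.Helper79.VC
  Pool.Agent.Helper97.LO Pool.Agent.Helper97.VC HER

variable {L : FirstOrder.Language.{0, 0}} {M : Type} {S : L.Structure M} {G : Set M} {n : ℕ}
  {X X' : Set M} {β : Type} {K L' : ℕ} {w : ℕ → ℕ → β → M}

theorem RTR_dj (hR : Rows S G n X w) {i k l : ℕ} (hk : k ≤ i) (hl : l ≤ i) (hkl : k ≠ l) :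
    Dj (w i k) (w i l) :=
  ⟨fun p q hpq => (hR.dis _ _ _ _ _ _ hk hk hpq).2.2,
    fun p q hpq => (hR.dis _ _ _ _ _ _ hl hl hpq).2.2,
    fun p q hpq => hkl (hR.dis _ _ _ _ _ _ hk hl hpq).2.1⟩

/-- members of long rows are good blocks -/
theorem RTR_good (hR : Rows S G n X w) (hP : RPrim S G n X w) {i k : ℕ} (hK : 0 < K)
    (hi : K ≤ i) (hk : k ≤ i) : GB S G n X β K (range (w i k)) := by
  classical
  have hle : ∀ a : Fin K, Equiv.swap (0 : ℕ) k a ≤ i := by
    intro a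
    have ha := a.2
    rw [Equiv.swap_apply_def]
    split_ifs
    · exact hk
    · exact Nat.zero_le _
    · omega
  have hinj : ∀ a a' : Fin K, Equiv.swap (0 : ℕ) k a = Equiv.swap (0 : ℕ) k a' → a = a' :=
    fun a a' h => Fin.ext ((Equiv.swap (0 : ℕ) k).injective h)
  refine ⟨fun a => w i (Equiv.swap (0 : ℕ) k a), ⟨?_, ?_, ?_, ?_⟩, ⟨0, hK⟩, ?_⟩
  · intro a p
    exact hR.inX _ _ _ (hle a)
  · intro a p a' q h
    obtain ⟨-, h1, h2⟩ := hR.dis _ _ _ _ _ _ (hle a) (hle a') h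
    exact ⟨hinj _ _ h1, h2⟩
  · intro a a' h
    exact hR.row _ _ _ (hle a) (hle a') fun h1 => h (hinj _ _ h1)
  · intro a a' Q h hQ hQ'
    exact hP i _ _ Q (hle a) (hle a') (fun h1 => h (hinj _ _ h1)) hQ hQ'
  · simp

theorem RTR_be (hR : Rows S G n X w) {i k l : ℕ} (hk : k ≤ i) (hl : l ≤ i) :
    BE S G n X β (range (w i k)) (range (w i l)) := by
  by_cases h : k = l
  · subst h
    exact Or.inl rfl
  · exact Or.inr ⟨w i k, w i l, RTR_dj hR hk hl h, rfl, rfl, hR.row i k l hk hl h⟩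

/-- the class of a block -/
def RTR_cls {L : FirstOrder.Language.{0, 0}} {M : Type} (S : L.Structure M) (G : Set M) (n : ℕ)
    (X : Set M) (β : Type) (K : ℕ) (B : Set M) : Set (Set M) :=
  {B' | GB S G n X β K B' ∧ BE S G n X β B B'}

/-- a sequence of rows in different classes -/
theorem RTR_seq (hC : St_RCL) [Finite β] (hK : 2 * Nat.card β + n + 6 = K)
    (hR : Rows S G n X w) (hP : RPrim S G n X w) (m0 : ℕ) (hm0 : K ≤ m0) :
    ∃ r : ℕ → ℕ, (∀ j, m0 + 2 * j ≤ r j) ∧ ∀ i j, i ≠ j →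
      ¬ BE S G n X β (range (w (r i) 0)) (range (w (r j) 0)) := by
  classical
  obtain ⟨hC1, hC2, -, hC4⟩ := hC L M S G n X β K hK.le
  have hKpos : 0 < K := by omega
  have hfin : ∀ i, K ≤ i → {j | K ≤ j ∧ BE S G n X β (range (w i 0)) (range (w j 0))}.Finite := by
    intro i hi
    by_contra hinf
    obtain ⟨t, ht, htc⟩ := Set.Infinite.exists_subset_card_eq hinf ((Nat.card β).factorial + 1)
    let e := t.equivFin
    have hmem : ∀ a : Fin t.card, ((e.symm a : t) : ℕ) ∈ t := fun a => (e.symm a).2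
    have h1 : t.card ≤ (Nat.card β).factorial := by
      refine hC4 (range (w i 0)) t.card (fun a => w (e.symm a : t) 0)
        (RTR_good hR hP hKpos hi (Nat.zero_le _)) (fun a => ⟨?_, ?_, ?_⟩) fun a a' haa => ⟨?_, ?_⟩
      · intro p q hpq
        exact (hR.dis _ _ _ _ _ _ (Nat.zero_le _) (Nat.zero_le _) hpq).2.2
      · exact RTR_good hR hP hKpos (ht (hmem a)).1 (Nat.zero_le _)
      · exact (ht (hmem a)).2
      · rw [Set.disjoint_left]
        rintro _ ⟨p, rfl⟩ ⟨q, hq⟩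
        have := (hR.dis _ _ _ _ _ _ (Nat.zero_le _) (Nat.zero_le _) hq).1
        exact haa (e.symm.injective (Subtype.ext this)).symm
      · refine hR.non _ _ _ _ (fun h => haa ?_) (Nat.zero_le _) (Nat.zero_le _)
        exact e.symm.injective (Subtype.ext h)
    omega
  obtain ⟨r, hr1, hr2⟩ := exists_seq_of_forall_finset_exists (fun i : ℕ => m0 ≤ i)
    (fun i j => i + 2 ≤ j ∧ ¬ BE S G n X β (range (w i 0)) (range (w j 0))) (by
      intro s hs
      have h1 : (⋃ i ∈ s, {j | K ≤ j ∧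
          BE S G n X β (range (w i 0)) (range (w j 0))}).Finite :=
        Set.Finite.biUnion s.finite_toSet fun i hi => hfin i (hm0.trans (hs i hi))
      obtain ⟨N, hN⟩ := h1.bddAbove
      obtain ⟨N', hN'⟩ := s.bddAbove
      refine ⟨m0 + N + N' + 3, by omega, fun i hi => ⟨?_, fun h2 => ?_⟩⟩
      · have := hN' (Finset.mem_coe.mpr hi)
        omega
      · have : m0 + N + N' + 3 ≤ N := hN (mem_iUnion₂.mpr ⟨i, hi, by
          show K ≤ _
          omega, h2⟩)
        omega)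
  refine ⟨r, fun j => ?_, fun i j hij => ?_⟩
  · induction j with
    | zero => simpa using hr1 0
    | succ j ih =>
      have := (hr2 j (j + 1) (Nat.lt_succ_self j)).1
      omega
  · rcases lt_or_gt_of_ne hij with h | h
    · exact (hr2 i j h).2
    · exact fun h1 => (hr2 j i h).2 (hC1 _ _ h1)

theorem thm_RTR (hB : St_RGB) (hC : St_RCL) (hK : St_RKP) : St_RTR := by
  classical
  intro L M S G n X β _ w hβ hGX hR hP
  obtain ⟨K, hKdef⟩ : ∃ K, 2 * Nat.card β + n + 6 = K := ⟨_, rfl⟩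
  obtain ⟨L', hLdef⟩ : ∃ L', K + n + 2 * Nat.card β = L' := ⟨_, rfl⟩
  refine ⟨K, L', fun f => ?_⟩
  obtain ⟨hC1, hC2, -, -⟩ := hC L M S G n X β K hKdef.le
  have hKpos : 0 < K := by omega
  obtain ⟨r, hr1, hr2⟩ := RTR_seq hC hKdef hR hP (L' + 3) (by omega)
  have hrK : ∀ j, K ≤ r j := fun j => by
    have := hr1 j
    omega
  -- classes
  set cls := RTR_cls S G n X β K with hcls
  have hclsmem : ∀ B B' : Set M, B' ∈ cls B ↔ GB S G n X β K B' ∧ BE S G n X β B B' :=
    fun B B' => Iff.rfl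
  have hself : ∀ B, GB S G n X β K B → B ∈ cls B := fun B h => ⟨h, Or.inl rfl⟩
  have hclseq : ∀ B B', GB S G n X β K B → GB S G n X β K B' → BE S G n X β B B' →
      cls B = cls B' := by
    intro B B' h h' h1
    ext B''
    constructor
    · rintro ⟨h2, h3⟩
      exact ⟨h2, hC2 _ _ _ h' h h2 (hC1 _ _ h1) h3⟩
    · rintro ⟨h2, h3⟩
      exact ⟨h2, hC2 _ _ _ h h' h2 h1 h3⟩
  have hgr : ∀ j k, k ≤ r j → GB S G n X β K (range (w (r j) k)) := fun j k hk =>
    RTR_good hR hP hKpos (hrK j) hk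
  have hrcls : ∀ i j, cls (range (w (r i) 0)) = cls (range (w (r j) 0)) → i = j := by
    intro i j hij
    by_contra hne
    apply hr2 i j hne
    have h1 := hself _ (hgr j 0 (Nat.zero_le _))
    rw [← hij] at h1
    exact h1.2
  have hsize : ∀ j, ((r j + 1 : ℕ) : ℕ∞) ≤ (cls (range (w (r j) 0))).encard := by
    intro j
    have hinj : Function.Injective (fun k : Fin (r j + 1) => range (w (r j) k)) := by
      intro k l hkl
      obtain ⟨p⟩ := hβ
      have h1 : w (r j) k p ∈ range (w (r j) l) := by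
        have : range (w (r j) k) = range (w (r j) l) := hkl
        rw [← this]
        exact mem_range_self p
      obtain ⟨q, hq⟩ := h1
      exact Fin.ext (hR.dis _ _ _ _ _ _ (Nat.lt_succ_iff.mp l.2) (Nat.lt_succ_iff.mp k.2)
        hq).2.1.symm
    have h1 := hinj.encard_range
    rw [ENat.card_eq_coe_fintype_card, Fintype.card_fin] at h1
    refine h1.trans (Set.encard_le_encard ?_)
    rintro _ ⟨k, rfl⟩
    have hk := Nat.lt_succ_iff.mp k.2
    exact ⟨hgr j k hk, RTR_be hR (Nat.zero_le _) hk⟩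
  -- kept blocks
  have hex : ∀ C : Set (Set M), ∃ D ⊆ C,
      (∀ j, C = cls (range (w (r j) 0)) →
        D.encard = ((L' + 1 + 2 * j + (if f j then 1 else 0) : ℕ) : ℕ∞)) ∧
      ((∀ j, C ≠ cls (range (w (r j) 0))) → ((L' : ℕ∞) < C.encard → D.encard = (L' : ℕ∞)) ∧
        (C.encard ≤ (L' : ℕ∞) → D = C)) := by
    intro C
    by_cases h1 : ∃ j, C = cls (range (w (r j) 0))
    · obtain ⟨j, hj⟩ := h1
      have h2 : ((L' + 1 + 2 * j + (if f j then 1 else 0) : ℕ) : ℕ∞) ≤ C.encard := by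
        rw [hj]
        refine le_trans ?_ (hsize j)
        have := hr1 j
        have h3 : L' + 1 + 2 * j + (if f j then 1 else 0) ≤ r j + 1 := by
          split_ifs <;> omega
        exact_mod_cast h3
      obtain ⟨D, hD, hDc⟩ := Set.exists_subset_encard_eq h2
      refine ⟨D, hD, fun j' hj' => ?_, fun h => (h j hj).elim⟩
      have : j' = j := hrcls _ _ (hj'.symm.trans hj)
      rw [this]
      exact hDc
    · push Not at h1
      by_cases h2 : (L' : ℕ∞) < C.encard
      · obtain ⟨D, hD, hDc⟩ := Set.exists_subset_encard_eq h2.le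
        exact ⟨D, hD, fun j hj => (h1 j hj).elim, fun _ => ⟨fun _ => hDc, fun h => absurd h2
          (not_lt.mpr h)⟩⟩
      · exact ⟨C, Subset.rfl, fun j hj => (h1 j hj).elim, fun _ => ⟨fun h => absurd h h2,
          fun _ => rfl⟩⟩
  choose kp hkp1 hkp2 hkp3 using hex
  set Kept : Set M → Prop := fun B => GB S G n X β K B ∧ B ∈ kp (cls B) with hKept
  set X' : Set M := {x | x ∈ X ∧ ∀ B, GB S G n X β K B → ¬ Kept B → x ∉ B} with hX'
  have hgd := fun B B' => hB L M S G n X β K B B' hKdef.le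
  have hne : ∀ B, GB S G n X β K B → B.Nonempty := by
    rintro B ⟨v, hv, k, rfl⟩
    obtain ⟨p⟩ := hβ
    exact ⟨v k p, mem_range_self p⟩
  have hGBX : ∀ B, GB S G n X β K B → B ⊆ X := by
    rintro B ⟨v, hv, k, rfl⟩ _ ⟨p, rfl⟩
    exact (hv.inX k p).1
  have hkept1 : ∀ B, Kept B → B ⊆ X' := by
    intro B hBk x hx
    refine ⟨hGBX B hBk.1 hx, fun B' hB' hnk hxB' => ?_⟩
    rcases hgd B B' hBk.1 hB' with h | h
    · subst h
      exact hnk hBk
    · exact Set.disjoint_left.mp h hx hxB'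
  have hkept2 : ∀ B, GB S G n X β K B → ¬ Kept B → Disjoint B X' := by
    intro B hGB hnk
    rw [Set.disjoint_left]
    intro x hx hx'
    exact hx'.2 B hGB hnk hx
  have hkept3 : ∀ B, GB S G n X β K B → (B ⊆ X' ↔ Kept B) := by
    intro B hGB
    refine ⟨fun h => ?_, hkept1 B⟩
    by_contra hnk
    obtain ⟨x, hx⟩ := hne B hGB
    exact Set.disjoint_left.mp (hkept2 B hGB hnk) hx (h hx)
  -- the kept blocks of a class
  have hkc : ∀ B, GB S G n X β K B →
      {B' | GB S G n X β K B' ∧ BE S G n X β B B' ∧ B' ⊆ X'} = kp (cls B) := by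
    intro B hGB
    ext B'
    constructor
    · rintro ⟨h1, h2, h3⟩
      have h4 := ((hkept3 B' h1).mp h3).2
      rwa [← hclseq B B' hGB h1 h2] at h4
    · intro h1
      obtain ⟨h2, h3⟩ := hkp1 _ h1
      refine ⟨h2, h3, (hkept3 B' h2).mpr ⟨h2, ?_⟩⟩
      rwa [← hclseq B B' hGB h2 h3]
  have hT : Trunc S G n X β K L' X' := by
    refine ⟨fun x hx => hx.1, fun x hx hx' => ?_, fun B hGB hBX => ?_⟩
    · have h1 : ∃ B, GB S G n X β K B ∧ ¬ Kept B ∧ x ∈ B := by
        by_contra h2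
        push Not at h2
        exact hx' ⟨hx, fun B h3 h4 => h2 B h3 h4⟩
      obtain ⟨B, h2, h3, h4⟩ := h1
      exact ⟨B, h2, h4, hkept2 B h2 h3⟩
    · rw [hkc B hGB]
      by_cases h1 : ∃ j, cls B = cls (range (w (r j) 0))
      · obtain ⟨j, hj⟩ := h1
        rw [hkp2 _ j hj]
        exact_mod_cast (show L' ≤ L' + 1 + 2 * j + (if f j then 1 else 0) by omega)
      · push Not at h1
        obtain ⟨h2, h3⟩ := hkp3 (cls B) h1
        by_cases h4 : (L' : ℕ∞) < (cls B).encard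
        · rw [h2 h4]
        · exfalso
          apply hBX
          rw [hkept3 B hGB]
          refine ⟨hGB, ?_⟩
          rw [h3 (not_lt.mp h4)]
          exact hself B hGB
  obtain ⟨hG', hGB', hBE'⟩ := hK L M S G n X β K L' X' hGX hKdef.le hLdef.le hT
  have hInv : ∀ B, GB S G n X' β K B →
      {B' | GB S G n X' β K B' ∧ BE S G n X' β B B'} = kp (cls B) := by
    intro B h
    obtain ⟨h1, h2⟩ := (hGB' B).mp h
    rw [← hkc B h1]
    ext B'
    constructor
    · rintro ⟨h3, h4⟩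
      obtain ⟨h5, h6⟩ := (hGB' B').mp h3
      exact ⟨h5, (hBE' B B' h2 h6).mp h4, h6⟩
    · rintro ⟨h3, h4, h5⟩
      exact ⟨(hGB' B').mpr ⟨h3, h5⟩, (hBE' B B' h2 h5).mpr h4⟩
  have hrow : ∀ j, ∃ B, Kept B ∧ cls B = cls (range (w (r j) 0)) := by
    intro j
    have h1 := hkp2 (cls (range (w (r j) 0))) j rfl
    have h2 : (kp (cls (range (w (r j) 0)))).Nonempty := by
      rw [← Set.encard_ne_zero, h1]
      exact_mod_cast (show L' + 1 + 2 * j + (if f j then 1 else 0) ≠ 0 by omega)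
    obtain ⟨B, hBk⟩ := h2
    obtain ⟨h3, h4⟩ := hkp1 _ hBk
    have h5 := hclseq _ _ (hgr j 0 (Nat.zero_le _)) h3 h4
    exact ⟨B, ⟨h3, by rwa [← h5]⟩, h5.symm⟩
  refine ⟨X', hG', fun x hx => hx.1, ?_, fun m hm => ⟨?_, ?_⟩⟩
  · choose Bj hBj1 hBj2 using hrow
    choose x hx using fun j => hne (Bj j) (hBj1 j).1
    refine Set.infinite_of_injective_forall_mem (f := x) (fun i j hij => ?_) fun j =>
      hkept1 _ (hBj1 j) (hx j)
    apply hrcls
    rw [← hBj2 i, ← hBj2 j]
    rcases hgd _ _ (hBj1 i).1 (hBj1 j).1 with h | h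
    · rw [h]
    · exact (Set.disjoint_left.mp h (hx i) (by rw [hij]; exact hx j)).elim
  · rintro ⟨B, hBG, hBm⟩
    rw [hInv B hBG] at hBm
    obtain ⟨h1, h2⟩ := (hGB' B).mp hBG
    by_cases h3 : ∃ j, cls B = cls (range (w (r j) 0))
    · obtain ⟨j, hj⟩ := h3
      rw [hkp2 _ j hj] at hBm
      exact ⟨j, by exact_mod_cast hBm.symm⟩
    · exfalso
      push Not at h3
      obtain ⟨h4, h5⟩ := hkp3 (cls B) h3
      by_cases h6 : (L' : ℕ∞) < (cls B).encard
      · rw [h4 h6] at hBm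
        have : L' = m := by exact_mod_cast hBm
        omega
      · have h7 := not_lt.mp h6
        rw [h5 h7] at hBm
        rw [hBm] at h7
        have : m ≤ L' := by exact_mod_cast h7
        omega
  · rintro ⟨j, rfl⟩
    obtain ⟨B, hBk, hBc⟩ := hrow j
    refine ⟨B, (hGB' B).mpr ⟨hBk.1, hkept1 B hBk⟩, ?_⟩
    rw [hInv B ((hGB' B).mpr ⟨hBk.1, hkept1 B hBk⟩), hkp2 _ j hBc]

end HERN
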