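import Pool.Agent.HERN.St

/-!
# HERN [SIZ]: the sizes of the components are bounded
-/

set_option autoImplicit false
set_option linter.unusedVariables false
set_option linter.unusedSectionVars false

namespace HERN

open Set Pool.Agent.Helper5.DU Pool.Agent.Helper6.Str Pool.Agent.Helper79.VC
  Pool.Agent.Helper97.LO Pool.Agent.Helper97.VC HER

section

variable {L : FirstOrder.Language.{0, 0}} {M : Type} {S : L.Structure M} {F : Set M} {r : ℕ}
  {I : ℕ → Type} {U : ∀ b, I b → Set (Fin b → M)} {cl : Set M → Set M} {a0 A : Set M}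

theorem SIZ_symm {β : Type} {w v : β → M} (h : TE S F r (dg A ∪ prs w v)) :
    TE S F r (dg A ∪ prs v w) := by
  refine h.symm' ?_
  rintro a (⟨x, hx, rfl⟩ | ⟨i, rfl⟩)
  · exact Or.inl ⟨x, hx, rfl⟩
  · exact Or.inr ⟨i, rfl⟩

theorem SIZ_comp {β : Type} {w v u : β → M} (h : TE S F r (dg A ∪ prs w v))
    (h' : TE S F r (dg A ∪ prs v u)) : TE S F r (dg A ∪ prs w u) := by
  refine h.comp h' ?_
  rintro a (⟨x, hx, rfl⟩ | ⟨i, rfl⟩)
  · exact ⟨x, Or.inl ⟨x, hx, rfl⟩, Or.inl ⟨x, hx, rfl⟩⟩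
  · exact ⟨v i, Or.inr ⟨i, rfl⟩, Or.inr ⟨i, rfl⟩⟩

theorem SIZ_dcp {b : ℕ} {w v : Fin b → M} (h : TE S F r (dg A ∪ prs w v))
    (hd : Dcp S F r U cl a0 A w) : Dcp S F r U cl a0 A v := by
  obtain ⟨κ, hκ, ρ, w', h1, h2, h3, h4⟩ := hd
  exact ⟨κ, hκ, ρ, w', h1, h2, h3, SIZ_comp (SIZ_symm h) h4⟩

theorem SIZ_lnk_symm {x y : M} (h : Lnk S F r U cl a0 A x y) : Lnk S F r U cl a0 A y x := by
  obtain ⟨b, w, hb, hw, hA, hD, hx, hy⟩ := h
  exact ⟨b, w, hb, hw, hA, hD, hy, hx⟩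

theorem SIZ_rtg_symm {x y : M} (h : Relation.ReflTransGen (Lnk S F r U cl a0 A) x y) :
    Relation.ReflTransGen (Lnk S F r U cl a0 A) y x := by
  induction h with
  | refl => exact Relation.ReflTransGen.refl
  | tail _ h2 ih => exact Relation.ReflTransGen.head (SIZ_lnk_symm h2) ih

/-- the class of `x` -/
def SIZ_C (S : L.Structure M) (F : Set M) (r : ℕ) (U : ∀ b, I b → Set (Fin b → M))
    (cl : Set M → Set M) (a0 A : Set M) (x : M) : Set M :=
  {y | Relation.ReflTransGen (Lnk S F r U cl a0 A) x y}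

theorem SIZ_C_eq {x y : M} (h : y ∈ SIZ_C S F r U cl a0 A x) :
    SIZ_C S F r U cl a0 A y = SIZ_C S F r U cl a0 A x := by
  ext z
  exact ⟨fun hz => Relation.ReflTransGen.trans h hz, fun hz =>
    Relation.ReflTransGen.trans (SIZ_rtg_symm h) hz⟩

theorem SIZ_C_off {x y : M} (hx : x ∉ A) (h : y ∈ SIZ_C S F r U cl a0 A x) : y ∉ A := by
  rcases Relation.ReflTransGen.cases_tail h with h1 | ⟨z, -, b, w, hb, hw, hA, hD, -, i, hi⟩
  · rw [h1]
    exact hx
  · rw [← hi]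
    exact hA i

/-- sets which are connected by indecomposable tuples -/
theorem SIZ_conn {x : M} {y z : M} (hy : y ∈ SIZ_C S F r U cl a0 A x)
    (hz : z ∈ SIZ_C S F r U cl a0 A x) : Relation.ReflTransGen (fun x' y' =>
      ∃ b ≤ r, ∃ h : Fin b → M, Function.Injective h ∧ (∀ p, h p ∈ SIZ_C S F r U cl a0 A x) ∧
        (b ≤ r ∧ Function.Injective h ∧ Off A h ∧ ¬ Dcp S F r U cl a0 A h) ∧ x' ∈ range h ∧
          y' ∈ range h) y z := by
  have h1 : Relation.ReflTransGen (Lnk S F r U cl a0 A) y z := by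
    have := SIZ_C_eq hy
    rw [← this] at hz
    exact hz
  induction h1 with
  | refl => exact Relation.ReflTransGen.refl
  | tail h2 h3 ih =>
    rename_i u v
    have hu : u ∈ SIZ_C S F r U cl a0 A x := Relation.ReflTransGen.trans hy h2
    refine (ih hu).tail ?_
    obtain ⟨b, w, hb, hw, hA, hD, hxw, hyw⟩ := h3
    exact ⟨b, hb, w, hw, fun p => Relation.ReflTransGen.tail hu
      ⟨b, w, hb, hw, hA, hD, hxw, ⟨p, rfl⟩⟩, ⟨hb, hw, hA, hD⟩, hxw, hyw⟩

end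

/-- connected sets -/
def SIZ_K {M : Type} (r : ℕ) (H : ∀ b : ℕ, (Fin b → M) → Prop) (D : Set M) : Prop :=
  ∀ D' ⊆ D, D'.Nonempty → D' ≠ D → ∃ b ≤ r, ∃ h : Fin b → M, Function.Injective h ∧
    (∀ p, h p ∈ D) ∧ H b h ∧ (∃ p, h p ∈ D') ∧ ∃ p, h p ∉ D'

theorem SIZ_cmp_eq {M : Type} {r : ℕ} {a0 : Set M} {H : ∀ b : ℕ, (Fin b → M) → Prop}
    {X D E : Set M} (hD : IsCmp r a0 H X D) (hE : IsCmp r a0 H X E) (h : (D ∩ E).Nonempty) :
    D = E := by
  have key : ∀ D E : Set M, IsCmp r a0 H X D → IsCmp r a0 H X E → (D ∩ E).Nonempty → D ⊆ E := by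
    intro D E hD hE h
    by_contra h1
    have h2 : D ∩ E ≠ D := fun h3 => h1 (by rw [← h3]; exact inter_subset_right)
    obtain ⟨b, hb, h', hinj, hmem, hH, ⟨p, hp⟩, q, hq⟩ :=
      hD.2.2 (D ∩ E) inter_subset_left h h2
    exact hq ⟨hmem q, hE.2.1 b hb h' hinj (fun i => hD.1 (hmem i)) hH ⟨p, hp.2⟩ q⟩
  exact Subset.antisymm (key D E hD hE h) (key E D hE hD (by rwa [inter_comm]))

theorem thm_SIZ (hA0 : St_A0) (hH : St_HCO) (hW : St_WIN) : St_SIZ := by
  intro L M S F r I U cl a0 A hCx hRep _ hClos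
  classical
  by_contra hcon
  push Not at hcon
  let C : M → Set M := SIZ_C S F r U cl a0 A
  let s : ℕ → ℕ := fun n => (2 * r + 4) * n
  -- different large classes
  obtain ⟨c, hc1, hc2⟩ := exists_seq_of_forall_finset_exists
    (fun c : ℕ × M => c.2 ∉ A ∧ ((s c.1 + 2 * r + 3 : ℕ) : ℕ∞) < (C c.2).encard)
    (fun c c' => c.1 < c'.1 ∧ C c.2 ≠ C c'.2) (by
      intro T _
      let N : ℕ := T.sup (fun c => c.1) + 1
      have h1 := hcon (s N + 2 * r + 3)
      obtain ⟨D, hD, hD'⟩ := h1.exists_notMem_finset (T.image fun c => C c.2)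
      obtain ⟨x, hx, rfl, hx'⟩ := hD
      refine ⟨(N, x), ⟨hx, hx'⟩, fun c hc => ⟨?_, fun h2 => ?_⟩⟩
      · exact Nat.lt_succ_of_le (Finset.le_sup (f := fun c : ℕ × M => c.1) hc)
      · exact hD' (Finset.mem_image.mpr ⟨c, hc, h2⟩))
  have hle : ∀ n, n ≤ (c n).1 := by
    intro n
    induction n with
    | zero => exact Nat.zero_le _
    | succ n ih => exact Nat.succ_le_of_lt (ih.trans_lt (hc2 n (n + 1) (Nat.lt_succ_self n)).1)
  have hxA : ∀ n, (c n).2 ∉ A := fun n => (hc1 n).1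
  have hbig : ∀ n, ((s n + 2 * r + 3 : ℕ) : ℕ∞) < (C (c n).2).encard := by
    intro n
    refine lt_of_le_of_lt ?_ (hc1 n).2
    have : s n ≤ s (c n).1 := Nat.mul_le_mul_left _ (hle n)
    exact_mod_cast (by omega : s n + 2 * r + 3 ≤ s (c n).1 + 2 * r + 3)
  have hne : ∀ m n, m ≠ n → C (c m).2 ≠ C (c n).2 := by
    intro m n hmn
    rcases lt_or_gt_of_ne hmn with h | h
    · exact (hc2 m n h).2
    · exact fun h1 => (hc2 n m h).2 h1.symm
  have hdis : ∀ m n x, x ∈ C (c m).2 → x ∈ C (c n).2 → m = n := by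
    intro m n x h1 h2
    by_contra h3
    exact hne m n h3 ((SIZ_C_eq h1).symm.trans (SIZ_C_eq h2))
  let H : ∀ b : ℕ, (Fin b → M) → Prop := fun b h =>
    b ≤ r ∧ Function.Injective h ∧ Off A h ∧ ¬ Dcp S F r U cl a0 A h
  have hD : ∀ (n : ℕ) (e : Bool), ∃ D ⊆ C (c n).2,
      ((s n + (if e then r + 1 else 0) : ℕ) : ℕ∞) < D.encard ∧
      D.encard ≤ ((s n + (if e then r + 1 else 0)) + r + 1 : ℕ) ∧ SIZ_K r H D := by
    intro n e
    refine hW M r H (C (c n).2) (s n + (if e then r + 1 else 0)) (lt_of_le_of_lt ?_ (hbig n))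
      fun y hy z hz => SIZ_conn hy hz
    have : s n + (if e then r + 1 else 0) ≤ s n + 2 * r + 3 := by
      split_ifs <;> omega
    exact_mod_cast this
  choose D hD1 hD2 hD3 hD4 using hD
  have hDA : ∀ n e x, x ∈ D n e → x ∉ A := fun n e x hx => SIZ_C_off (hxA n) (hD1 n e hx)
  have hDfin : ∀ n e, (D n e).Finite := fun n e => finite_of_encard_le_coe (hD3 n e)
  have hDne : ∀ n e, (D n e).Nonempty := by
    intro n e
    rw [← encard_pos]
    exact lt_of_le_of_lt (zero_le) (hD2 n e)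
  let X : (ℕ → Bool) → Set M := fun f => a0 ∪ ⋃ n, D n (f n)
  let H' : ∀ b : ℕ, (Fin b → M) → Prop := fun b h =>
    ∃ h' : Fin b → M, H b h' ∧ TE S F r (dg a0 ∪ prs h h')
  have haA : a0 ⊆ A := hClos.a0A
  have hXA : ∀ f x, x ∈ X f \ a0 → ∃ n, x ∈ D n (f n) := by
    rintro f x ⟨h1 | h1, h2⟩
    · exact absurd h1 h2
    · exact mem_iUnion.mp h1
  have hXX : ∀ f n, D n (f n) ⊆ X f \ a0 := by
    intro f n x hx
    exact ⟨Or.inr (mem_iUnion.mpr ⟨n, hx⟩), fun h => hDA n _ x hx (haA h)⟩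
  -- the two hypergraphs agree
  have hHH : ∀ (b : ℕ) (h : Fin b → M), Function.Injective h → Off A h → H' b h → H b h := by
    rintro b h hinj hoff ⟨h', ⟨h1, h2, h3, h4⟩, h5⟩
    have h6 := hA0 L M S F r I U cl a0 A (Fin b) h h' hRep hClos (by simpa using h1) hinj h2
      hoff h3 h5
    exact ⟨h1, hinj, hoff, fun h7 => h4 (SIZ_dcp h6 h7)⟩
  have hHH' : ∀ (b : ℕ) (h : Fin b → M), H b h → H' b h := fun b h h1 =>
    ⟨h, h1, te_diag _ _ _ (by
      rintro a (⟨x, hx, rfl⟩ | ⟨i, rfl⟩)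
      · rfl
      · rfl)⟩
  have hcmp : ∀ f n, IsCmp r a0 H' (X f) (D n (f n)) := by
    intro f n
    refine ⟨hXX f n, ?_, ?_⟩
    · rintro b hb h hinj hmem hHb ⟨p, hp⟩ q
      have hoff : Off A h := fun i => by
        obtain ⟨k, hk⟩ := hXA f _ (hmem i)
        exact hDA k _ _ hk
      obtain ⟨h1, h2, h3, h4⟩ := hHH b h hinj hoff hHb
      have h5 : h q ∈ C (c n).2 := Relation.ReflTransGen.tail (hD1 n _ hp)
        ⟨b, h, h1, h2, h3, h4, ⟨p, rfl⟩, ⟨q, rfl⟩⟩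
      obtain ⟨k, hk⟩ := hXA f _ (hmem q)
      have h6 := hdis k n _ (hD1 k _ hk) h5
      subst h6
      exact hk
    · intro D' hD' hne' hne''
      obtain ⟨b, hb, h, h1, h2, h3, h4, h5⟩ := hD4 n (f n) D' hD' hne' hne''
      exact ⟨b, hb, h, h1, h2, hHH' b h h3, h4, h5⟩
  -- two sets with the same sizes
  obtain ⟨f, g, hfg, hsz⟩ := hH L M S F r a0 H' X hCx.pig hRep.a0f hRep.Fa0 (by
    have key : ∀ (b : ℕ) (h h' : Fin b → M), AtEq S S (dg a0 ∪ prs h h') → H' b h → H' b h' := by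
      rintro b h h' hat ⟨k, hk, h1⟩
      refine ⟨k, hk, SIZ_comp (SIZ_symm ?_) h1⟩
      intro q hq _
      refine hat.anti (union_subset ?_ hq)
      exact (dg_mono hRep.Fa0).trans subset_union_left
    intro b h h' hat
    refine ⟨key b h h' hat, key b h' h (AtEq.symm' hat ?_)⟩
    rintro a (⟨x, hx, rfl⟩ | ⟨i, rfl⟩)
    · exact Or.inl ⟨x, hx, rfl⟩
    · exact Or.inr ⟨i, rfl⟩) (by
    intro f
    refine ⟨hRep.a0f.countable.union (countable_iUnion fun n => (hDfin n _).countable), ?_,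
      subset_union_left⟩
    choose x hx using fun n => hDne n (f n)
    refine (infinite_range_of_injective (f := x) fun m n hmn => ?_).mono ?_
    · exact hdis m n (x m) (hD1 m _ (hx m)) (by rw [hmn]; exact hD1 n _ (hx n))
    · rintro _ ⟨n, rfl⟩
      exact Or.inr (mem_iUnion.mpr ⟨n, hx n⟩))
  obtain ⟨n, hn⟩ := Function.ne_iff.mp hfg
  obtain ⟨a, ha⟩ := ENat.ne_top_iff_exists.mp (encard_ne_top_iff.mpr (hDfin n (f n)))
  have h1 : a ∈ {m : ℕ | ∃ D, D.encard = (m : ℕ∞) ∧ IsCmp r a0 H' (X f) D} :=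
    ⟨D n (f n), ha.symm, hcmp f n⟩
  rw [hsz] at h1
  obtain ⟨E, hE1, hE2⟩ := h1
  have hb1 := hD2 n (f n)
  have hb2 := hD3 n (f n)
  rw [← ha] at hb1 hb2
  have hb1' : s n + (if f n then r + 1 else 0) < a := by exact_mod_cast hb1
  have hb2' : a ≤ (s n + (if f n then r + 1 else 0)) + r + 1 := by exact_mod_cast hb2
  have hEne : E.Nonempty := by
    rw [← encard_pos, hE1]
    exact_mod_cast (Nat.zero_le _).trans_lt hb1'
  obtain ⟨x, hx⟩ := hEne
  obtain ⟨k, hk⟩ := hXA g x (hE2.1 hx)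
  have h2 : E = D k (g k) := SIZ_cmp_eq hE2 (hcmp g k) ⟨x, hx, hk⟩
  have hc1 := hD2 k (g k)
  have hc2 := hD3 k (g k)
  rw [← h2, hE1] at hc1 hc2
  have hc1' : s k + (if g k then r + 1 else 0) < a := by exact_mod_cast hc1
  have hc2' : a ≤ (s k + (if g k then r + 1 else 0)) + r + 1 := by exact_mod_cast hc2
  have hs : ∀ i j : ℕ, i < j → s i + (2 * r + 4) ≤ s j := by
    intro i j hij
    have : (2 * r + 4) * (i + 1) ≤ (2 * r + 4) * j := Nat.mul_le_mul_left _ hij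
    calc s i + (2 * r + 4) = (2 * r + 4) * (i + 1) := by ring
      _ ≤ _ := this
  have hkn : k = n := by
    rcases lt_trichotomy k n with h3 | h3 | h3
    · have := hs k n h3
      split_ifs at hb1' hb2' hc1' hc2' <;> omega
    · exact h3
    · have := hs n k h3
      split_ifs at hb1' hb2' hc1' hc2' <;> omega
  subst hkn
  cases hfk : f k <;> cases hgk : g k <;> simp [hfk, hgk] at hn hb1' hb2' hc1' hc2' <;> omega

end HERN
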