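import Pool.Agent.HERN.St

/-!
# HERN: transfinite choice
-/

set_option autoImplicit false

namespace HERN

open Set Pool.Agent.Helper5.DU Pool.Agent.Helper6.Str Pool.Agent.Helper79.VC
  Pool.Agent.Helper97.LO Pool.Agent.Helper97.VC HER

theorem thm_SQC : St_SQC := by
  intro X Y R h
  obtain ⟨x₀, _, _⟩ := h ∅ (empty_subset _) countable_empty
  have h1 : ∀ D : Set X, ∃ x, D ⊆ Y → D.Countable → x ∈ Y ∧ R D x := by
    intro D
    by_cases hD : D ⊆ Y ∧ D.Countable
    · obtain ⟨x, hx, hx'⟩ := h D hD.1 hD.2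
      exact ⟨x, fun _ _ => ⟨hx, hx'⟩⟩
    · exact ⟨x₀, fun h' h'' => absurd ⟨h', h''⟩ hD⟩
  choose F hF using h1
  have hwf : WellFounded ((· < ·) : Om → Om → Prop) := wellFounded_lt
  let s : Om → X := hwf.fix (fun b ih => F {x | ∃ a, ∃ h : a < b, ih a h = x})
  have hs : ∀ b, s b = F (s '' {a | a < b}) := by
    intro b
    have h2 : s b = F {x | ∃ a, ∃ _ : a < b, s a = x} := hwf.fix_eq _ b
    rw [h2]
    congr 1
    ext x
    constructor
    · rintro ⟨a, ha, rfl⟩
      exact ⟨a, ha, rfl⟩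
    · rintro ⟨a, ha, rfl⟩
      exact ⟨a, ha, rfl⟩
  have hc : ∀ b, (s '' {a | a < b}).Countable := fun b => (countable_Iio_om b).image s
  have hY : ∀ b, s b ∈ Y := by
    intro b
    induction b using hwf.induction with
    | _ b ih =>
      rw [hs b]
      refine (hF _ ?_ (hc b)).1
      rintro _ ⟨a, ha, rfl⟩
      exact ih a ha
  refine ⟨s, hY, fun b => ?_⟩
  have h2 := (hF (s '' {a | a < b}) (by
    rintro _ ⟨a, _, rfl⟩
    exact hY a) (hc b)).2
  rwa [← hs b] at h2

end HERN
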