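import Pool.Agent.HERN.St

/-!
# HERN, module SYA: adjacent transpositions
-/

set_option autoImplicit false
set_option linter.unusedVariables false

namespace HERN

open Set Pool.Agent.Helper5.DU Pool.Agent.Helper6.Str Pool.Agent.Helper79.VC
  Pool.Agent.Helper97.LO Pool.Agent.Helper97.VC HER

theorem SYA_perm {L : FirstOrder.Language.{0, 0}} {M : Type} {S : L.Structure M} {G : Set M}
    {n : ℕ} {β : Type} {u : ℚ → β → M} (hC : Cmm S G n u univ univ) {s : ℕ}
    (a : Fin s → ℚ) (ha : StrictMono a) (π : Equiv.Perm (Fin s)) :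
    TE S G n (⋃ j, prs (u (a j)) (u (a (π j)))) := by
  rcases s with _ | s
  · refine te_diag S G n ?_
    intro z hz
    obtain ⟨j, -⟩ := mem_iUnion.1 hz
    exact j.elim0
  have hπ : π ∈ Submonoid.closure (Set.range fun i : Fin s => Equiv.swap i.castSucc i.succ) := by
    rw [Equiv.Perm.mclosure_swap_castSucc_succ]
    trivial
  induction hπ using Submonoid.closure_induction with
  | mem π hπ =>
    obtain ⟨i, rfl⟩ := hπ
    have hlt : i.castSucc < i.succ := Fin.castSucc_lt_succ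
    refine (hC (a i.castSucc) (a i.succ) (ha hlt)
      {c | ∃ j, j ≠ i.castSucc ∧ j ≠ i.succ ∧ c = a j} ?_).anti ?_
    · rintro c ⟨j, h1, h2, rfl⟩
      rcases lt_or_gt_of_ne h1 with h3 | h3
      · exact Or.inl (ha h3)
      · right
        refine ha (lt_of_le_of_ne ?_ h2.symm)
        rw [Fin.lt_def] at h3
        rw [Fin.le_def]
        simp only [Fin.val_castSucc, Fin.val_succ] at h3 ⊢
        omega
    · intro z hz
      obtain ⟨j, p, rfl⟩ := mem_iUnion.1 hz
      by_cases h1 : j = i.castSucc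
      · subst h1
        rw [Equiv.swap_apply_left]
        exact Or.inl (Or.inr ⟨p, mem_univ p, rfl⟩)
      · by_cases h2 : j = i.succ
        · subst h2
          rw [Equiv.swap_apply_right]
          exact Or.inr ⟨p, mem_univ p, rfl⟩
        · rw [Equiv.swap_apply_of_ne_of_ne h1 h2]
          exact Or.inl (Or.inl ⟨u (a j) p, ⟨a j, ⟨j, h1, h2, rfl⟩, p, rfl⟩, rfl⟩)
  | one =>
    refine te_diag S G n ?_
    intro z hz
    obtain ⟨j, p, rfl⟩ := mem_iUnion.1 hz
    rfl
  | mul π σ _ _ h1 h2 =>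
    refine h2.comp h1 ?_
    intro z hz
    obtain ⟨j, p, rfl⟩ := mem_iUnion.1 hz
    exact ⟨u (a (σ j)) p, mem_iUnion.2 ⟨j, p, rfl⟩, mem_iUnion.2 ⟨σ j, p, rfl⟩⟩

theorem thm_SYA : St_SYA := by
  intro L M S G n β u hu hI hC s a a' ha ha'
  have hb : StrictMono (a ∘ Tuple.sort a) :=
    (Tuple.monotone_sort a).strictMono_of_injective (ha.comp (Tuple.sort a).injective)
  have hb' : StrictMono (a' ∘ Tuple.sort a') :=
    (Tuple.monotone_sort a').strictMono_of_injective (ha'.comp (Tuple.sort a').injective)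
  have h1 := hI s _ _ hb hb'
  have h2 := SYA_perm hC _ hb' ((Tuple.sort a').symm * Tuple.sort a)
  refine h1.comp h2 ?_
  intro z hz
  obtain ⟨j, p, rfl⟩ := mem_iUnion.1 hz
  obtain ⟨k, rfl⟩ := (Tuple.sort a).surjective j
  refine ⟨u ((a' ∘ Tuple.sort a') k) p, mem_iUnion.2 ⟨k, p, rfl⟩, mem_iUnion.2 ⟨k, p, ?_⟩⟩
  simp [Function.comp]

end HERN
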