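import Pool.Agent.HERN.St

/-!
# HERN [SYB]: different parts which do not commute
-/

set_option autoImplicit false
set_option linter.unusedVariables false

namespace HERN

open Set Pool.Agent.Helper5.DU Pool.Agent.Helper6.Str Pool.Agent.Helper79.VC
  Pool.Agent.Helper97.LO Pool.Agent.Helper97.VC HER

section SYB

variable {L : FirstOrder.Language.{0, 0}} {M : Type} {S : L.Structure M} {G : Set M} {n : ℕ}
  {β γ : Type}

private theorem SYB_addG {p r : Set (M × M)} (h : TE S G n p) (hr : r ⊆ dg G ∪ p) :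
    TE S G n r := by
  intro s hs hn
  have h1 := h (s ∩ p) inter_subset_right ((encard_le_encard inter_subset_left).trans hn)
  refine h1.anti ?_
  rintro a (ha | ha)
  · exact Or.inl ha
  · rcases hr (hs ha) with h2 | h2
    · exact Or.inl h2
    · exact Or.inr ⟨ha, h2⟩

private theorem SYB_ind {u : ℚ → β → M} (h : Ind S G n u) (D : Finset ℚ) (f : ℚ → ℚ)
    (hf : StrictMonoOn f D) : TE S G n {b | ∃ d ∈ D, b ∈ prs (u d) (u (f d))} := by
  have h1 := h D.card (fun i => D.orderEmbOfFin rfl i) (fun i => f (D.orderEmbOfFin rfl i))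
    (D.orderEmbOfFin rfl).strictMono (fun i j hij => hf (D.orderEmbOfFin_mem rfl i)
      (D.orderEmbOfFin_mem rfl j) ((D.orderEmbOfFin rfl).strictMono hij))
  refine h1.anti ?_
  rintro b ⟨d, hd, hb⟩
  have h2 : d ∈ range (D.orderEmbOfFin rfl) := by
    rw [Finset.range_orderEmbOfFin]
    exact hd
  obtain ⟨i, rfl⟩ := h2
  exact mem_iUnion.mpr ⟨i, hb⟩

private theorem SYB_E {u : ℚ → β → M} (h : Ind S G n u) {C0 : Set ℚ} (hC0 : C0.Finite)
    {lo hi : ℚ} (hC : ∀ c ∈ C0, c < lo ∨ hi < c) {s t s' t' : ℚ} (h1 : lo < s) (h2 : s < t)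
    (h3 : t < hi) (h1' : lo < s') (h2' : s' < t') (h3' : t' < hi) :
    TE S G n (dg {z | ∃ c ∈ C0, z ∈ range (u c)} ∪ prs (u s) (u s') ∪ prs (u t) (u t')) := by
  classical
  have hs : ∀ c ∈ C0, c ≠ s := by
    rintro c hc rfl
    rcases hC c hc with h4 | h4 <;> linarith
  have ht : ∀ c ∈ C0, c ≠ t := by
    rintro c hc rfl
    rcases hC c hc with h4 | h4 <;> linarith
  let f : ℚ → ℚ := fun c => if c = s then s' else if c = t then t' else c
  have fs : f s = s' := if_pos rfl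
  have ft : f t = t' := by
    show (if t = s then s' else if t = t then t' else t) = t'
    rw [if_neg h2.ne', if_pos rfl]
  have fc : ∀ c ∈ C0, f c = c := fun c hc => by
    show (if c = s then s' else if c = t then t' else c) = c
    rw [if_neg (hs c hc), if_neg (ht c hc)]
  have hf : StrictMonoOn f ((hC0.toFinset ∪ {s, t} : Finset ℚ) : Set ℚ) := by
    intro a ha b hb hab
    have ha' : a ∈ C0 ∨ a = s ∨ a = t := by
      simp at ha
      tauto
    have hb' : b ∈ C0 ∨ b = s ∨ b = t := by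
      simp at hb
      tauto
    rcases ha' with ha' | rfl | rfl <;> rcases hb' with hb' | rfl | rfl
    · rw [fc a ha', fc b hb']
      exact hab
    · rw [fc a ha', fs]
      rcases hC a ha' with h4 | h4 <;> linarith
    · rw [fc a ha', ft]
      rcases hC a ha' with h4 | h4 <;> linarith
    · rw [fc b hb', fs]
      rcases hC b hb' with h4 | h4 <;> linarith
    · exact absurd hab (lt_irrefl _)
    · rw [fs, ft]
      exact h2'
    · rw [fc b hb', ft]
      rcases hC b hb' with h4 | h4 <;> linarith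
    · linarith
    · exact absurd hab (lt_irrefl _)
  refine (SYB_ind h _ f hf).anti ?_
  rintro b ((⟨z, ⟨c, hc, hz⟩, rfl⟩ | hb) | hb)
  · obtain ⟨p, rfl⟩ := hz
    refine ⟨c, ?_, p, ?_⟩
    · simp [hc]
    · rw [fc c hc]
  · refine ⟨s, by simp, ?_⟩
    rw [fs]
    exact hb
  · refine ⟨t, by simp, ?_⟩
    rw [ft]
    exact hb

private theorem SYB_swap (X : Set M) (w w' : γ → M) : SW X w w' = SW X w' w := by
  ext a
  constructor
  · rintro ((⟨h1, h2, h3, h4⟩ | h) | h)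
    · exact Or.inl (Or.inl ⟨h1, h2, h4, h3⟩)
    · exact Or.inr h
    · exact Or.inl (Or.inr h)
  · rintro ((⟨h1, h2, h3, h4⟩ | h) | h)
    · exact Or.inl (Or.inl ⟨h1, h2, h4, h3⟩)
    · exact Or.inr h
    · exact Or.inl (Or.inr h)

private theorem SYB_fix {X : Set M} {w w' : γ → M} {x : M} (h : x ∈ X) (h1 : x ∉ range w)
    (h2 : x ∉ range w') : (x, x) ∈ SW X w w' := Or.inl (Or.inl ⟨rfl, h, h1, h2⟩)

private theorem SYB_l {X : Set M} {w w' : γ → M} (p : γ) : (w p, w' p) ∈ SW X w w' :=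
  Or.inl (Or.inr ⟨p, rfl⟩)

private theorem SYB_r {X : Set M} {w w' : γ → M} (p : γ) : (w' p, w p) ∈ SW X w w' :=
  Or.inr ⟨p, rfl⟩

private theorem SYB_three {X : Set M} {a b c : γ → M} (hab : ∀ p q, a p ≠ b q)
    (hac : ∀ p q, a p ≠ c q) (hbc : ∀ p q, b p ≠ c q) (ha : ∀ p, a p ∈ X) (hc : ∀ p, c p ∈ X)
    (h1 : TE S G n (SW X a b)) (h2 : TE S G n (SW X b c)) : TE S G n (SW X a c) := by
  have h3 : TE S G n {z | ∃ m, (z.1, m) ∈ SW X b c ∧ (m, z.2) ∈ SW X a b} :=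
    h2.comp h1 fun z hz => hz
  refine h3.comp h2 ?_
  rintro z ((⟨e1, e2, e3, e4⟩ | ⟨p, rfl⟩) | ⟨p, rfl⟩)
  · obtain ⟨z1, z2⟩ := z
    have e1' : z1 = z2 := e1
    subst e1'
    by_cases hb : z1 ∈ range b
    · obtain ⟨p, rfl⟩ := hb
      refine ⟨c p, ⟨c p, SYB_l p, SYB_fix (hc p) ?_ ?_⟩, SYB_r p⟩
      · rintro ⟨q, hq⟩
        exact hac q p hq
      · rintro ⟨q, hq⟩
        exact hbc q p hq
    · exact ⟨z1, ⟨z1, SYB_fix e2 hb e4, SYB_fix e2 e3 hb⟩, SYB_fix e2 hb e4⟩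
  · refine ⟨b p, ⟨a p, SYB_fix (ha p) ?_ ?_, SYB_l p⟩, SYB_l p⟩
    · rintro ⟨q, hq⟩
      exact hab p q hq.symm
    · rintro ⟨q, hq⟩
      exact hac p q hq.symm
  · refine ⟨a p, ⟨b p, SYB_r p, SYB_r p⟩, SYB_fix (ha p) ?_ ?_⟩
    · rintro ⟨q, hq⟩
      exact hab p q hq.symm
    · rintro ⟨q, hq⟩
      exact hac p q hq.symm

private theorem SYB_lo {C0 : Set ℚ} (hC0 : C0.Finite) (x : ℚ) :
    ∃ lo < x, ∀ c ∈ C0, c < x → c < lo := by
  induction C0, hC0 using Set.Finite.induction_on with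
  | empty => exact ⟨x - 1, by linarith, fun c hc => absurd hc (notMem_empty c)⟩
  | @insert a C0 ha _ ih =>
    obtain ⟨lo, h1, h2⟩ := ih
    by_cases hax : a < x
    · refine ⟨max lo ((a + x) / 2), max_lt h1 (by linarith), ?_⟩
      rintro c (rfl | hc) hcx
      · exact lt_of_lt_of_le (by linarith) (le_max_right _ _)
      · exact lt_of_lt_of_le (h2 c hc hcx) (le_max_left _ _)
    · refine ⟨lo, h1, ?_⟩
      rintro c (rfl | hc) hcx
      · exact absurd hcx hax
      · exact h2 c hc hcx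

private theorem SYB_hi {C0 : Set ℚ} (hC0 : C0.Finite) (x : ℚ) :
    ∃ hi, x < hi ∧ ∀ c ∈ C0, x < c → hi < c := by
  obtain ⟨lo, h1, h2⟩ := SYB_lo (hC0.image fun c => -c) (-x)
  refine ⟨-lo, by linarith, fun c hc hxc => ?_⟩
  have := h2 (-c) (mem_image_of_mem _ hc) (by linarith)
  linarith

/-- positions -/
private def SYB_e (i k : ℕ) : ℕ := (i + 1) ^ 2 + k

private theorem SYB_elt {i j k l : ℕ} (h : i < j) (hk : k ≤ i + 1) : SYB_e i k < SYB_e j l := by
  unfold SYB_e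
  have h1 : (i + 2) ^ 2 ≤ (j + 1) ^ 2 := Nat.pow_le_pow_left (by omega) 2
  nlinarith

private theorem SYB_einj {i j k l : ℕ} (hk : k ≤ i + 1) (hl : l ≤ j + 1)
    (h : SYB_e i k = SYB_e j l) : i = j ∧ k = l := by
  rcases lt_trichotomy i j with h1 | h1 | h1
  · exact absurd h (SYB_elt h1 hk).ne
  · subst h1
    refine ⟨rfl, ?_⟩
    unfold SYB_e at h
    omega
  · exact absurd h (SYB_elt h1 hl).ne'

end SYB

theorem thm_SYB : St_SYB := by
  intro L M S F G n β _ u P Q hR hF hG hinj hoff hInd hPQ _ _ hQQ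
  classical
  unfold Cmm at hPQ
  push Not at hPQ
  obtain ⟨x, y, hxy, C, hC, hTE⟩ := hPQ
  have hTE' : ∃ q ⊆ (dg {z | ∃ c ∈ C, z ∈ range (u c)} ∪ prt P (u x) (u y) ∪
      prt Q (u y) (u x)), q.encard ≤ n ∧ ¬ AtEq S S (dg G ∪ q) := by
    by_contra hcon
    push Not at hcon
    exact hTE hcon
  obtain ⟨q, hq, hqn, hAt⟩ := hTE'
  have hqfin : q.Finite := finite_of_encard_le_coe hqn
  -- the context
  set ctx : Set M := {z | (z, z) ∈ q} with hctx
  have hctxC : ∀ z ∈ ctx, ∃ c ∈ C, z ∈ range (u c) := by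
    intro z hz
    rcases hq hz with (⟨z', ⟨c, hc, hzc⟩, hzz⟩ | ⟨p, _, hp⟩) | ⟨p, _, hp⟩
    · have h1 : z' = z := congrArg Prod.fst hzz
      rw [h1] at hzc
      exact ⟨c, hc, hzc⟩
    · have h1 : u x p = u y p := (congrArg Prod.fst hp).trans (congrArg Prod.snd hp).symm
      exact absurd (hinj x p y p h1).1 hxy.ne
    · have h1 : u y p = u x p := (congrArg Prod.fst hp).trans (congrArg Prod.snd hp).symm
      exact absurd (hinj y p x p h1).1 hxy.ne'
  set C0 : Set ℚ := {c | c ∈ C ∧ ∃ z ∈ ctx, z ∈ range (u c)} with hC0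
  have hctxfin : ctx.Finite := by
    refine (hqfin.image Prod.fst).subset fun z hz => ⟨(z, z), hz, rfl⟩
  have hC0fin : C0.Finite := by
    have h1 : ∀ z : M, {c | z ∈ range (u c)}.Finite := by
      intro z
      refine Set.Subsingleton.finite ?_
      rintro c ⟨p, hp⟩ c' ⟨p', hp'⟩
      exact (hinj c p c' p' (hp.trans hp'.symm)).1
    refine (hctxfin.biUnion fun z _ => h1 z).subset ?_
    rintro c ⟨_, z, hz, hzc⟩
    exact mem_biUnion hz hzc
  have hctx0 : ∀ z ∈ ctx, ∃ c ∈ C0, z ∈ range (u c) := by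
    intro z hz
    obtain ⟨c, hc, hzc⟩ := hctxC z hz
    exact ⟨c, ⟨hc, z, hz, hzc⟩, hzc⟩
  obtain ⟨lo, hlo, hlo'⟩ := SYB_lo hC0fin x
  obtain ⟨hi, hhi, hhi'⟩ := SYB_hi hC0fin y
  have hCc : ∀ c ∈ C0, c < lo ∨ hi < c := by
    intro c hc
    rcases hC c hc.1 with h | h
    · exact Or.inl (hlo' c hc h)
    · exact Or.inr (hhi' c hc h)
  have hlh : 0 < hi - lo := by linarith
  -- the positions
  set pos : ℕ → ℚ := fun m => hi - (hi - lo) / ((m : ℚ) + 2) with hpos
  have hpos_lt : ∀ m, pos m < hi := by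
    intro m
    have h1 : 0 < (hi - lo) / ((m : ℚ) + 2) := by positivity
    show hi - (hi - lo) / ((m : ℚ) + 2) < hi
    linarith
  have hpos_gt : ∀ m, lo < pos m := by
    intro m
    have h1 : (hi - lo) / ((m : ℚ) + 2) < hi - lo := by
      have h0 : (0 : ℚ) ≤ m := Nat.cast_nonneg m
      rw [div_lt_iff₀ (by linarith)]
      nlinarith
    show lo < hi - (hi - lo) / ((m : ℚ) + 2)
    linarith
  have hpos_mono : StrictMono pos := by
    intro m m' hm
    have h0 : (0 : ℚ) ≤ m := Nat.cast_nonneg m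
    have h1 : (m : ℚ) < m' := by exact_mod_cast hm
    have h2 : (hi - lo) / ((m' : ℚ) + 2) < (hi - lo) / ((m : ℚ) + 2) :=
      div_lt_div_of_pos_left hlh (by linarith) (by linarith)
    show hi - (hi - lo) / ((m : ℚ) + 2) < hi - (hi - lo) / ((m' : ℚ) + 2)
    linarith
  set Z : Set M := {z | ∃ m p, z = u (pos m) p ∧ ((p ∈ P ∧ ∃ i, m = SYB_e i 0) ∨
    (p ∈ Q ∧ ∃ i k, k ≤ i ∧ m = SYB_e i (k + 1)))} with hZ
  set X : Set M := G ∪ ctx ∪ Z with hX
  have hZc : Z.Countable := by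
    refine (countable_range fun a : ℕ × β => u (pos a.1) a.2).mono ?_
    rintro z ⟨m, p, rfl, _⟩
    exact ⟨(m, p), rfl⟩
  have hXc : X.Countable := (hG.countable.union hctxfin.countable).union hZc
  have hnF : ∀ c p, u c p ∉ F := fun c p h => hoff c p (Or.inl h)
  have hnG : ∀ c p, u c p ∉ G := fun c p h => hoff c p (Or.inr h)
  have hXF : X ∩ F ⊆ G := by
    rintro z ⟨(hz | hz) | hz, hzF⟩
    · exact hz
    · obtain ⟨c, _, p, rfl⟩ := hctx0 z hz
      exact absurd hzF (hnF c p)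
    · obtain ⟨m, p, rfl, _⟩ := hz
      exact absurd hzF (hnF _ p)
  set w : ℕ → ℕ → Q → M := fun i k p => u (pos (SYB_e i (k + 1))) p with hw
  have hwX : ∀ i k p, k ≤ i → w i k p ∈ X := fun i k p hk =>
    Or.inr ⟨_, _, rfl, Or.inr ⟨p.2, i, k, hk, rfl⟩⟩
  have hwdis : ∀ i k p j l q, k ≤ i → l ≤ j → w i k p = w j l q → i = j ∧ k = l ∧ p = q := by
    intro i k p j l q hk hl h
    obtain ⟨h1, h2⟩ := hinj _ _ _ _ h
    obtain ⟨h3, h4⟩ := SYB_einj (by omega) (by omega) (hpos_mono.injective h1)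
    exact ⟨h3, by omega, Subtype.ext h2⟩
  -- adjacent members of a row
  have hadj : ∀ i k, k + 1 ≤ i → TE S G n (SW X (w i k) (w i (k + 1))) := by
    intro i k hk
    have h1 := hQQ (pos (SYB_e i (k + 1))) (pos (SYB_e i (k + 1 + 1)))
      (hpos_mono (by unfold SYB_e; omega))
      {c | c < pos (SYB_e i (k + 1)) ∨ pos (SYB_e i (k + 1 + 1)) < c} (fun c hc => hc)
    refine SYB_addG h1 ?_
    rintro z ((⟨e1, e2, e3, e4⟩ | ⟨p, rfl⟩) | ⟨p, rfl⟩)
    · obtain ⟨z1, z2⟩ := z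
      have e1' : z1 = z2 := e1
      subst e1'
      rcases e2 with (hz | hz) | hz
      · exact Or.inl ⟨z1, hz, rfl⟩
      · obtain ⟨c, hc, hzc⟩ := hctx0 z1 hz
        refine Or.inr (Or.inl (Or.inl ⟨z1, ⟨c, ?_, hzc⟩, rfl⟩))
        rcases hCc c hc with h | h
        · exact Or.inl (h.trans (hpos_gt _))
        · exact Or.inr ((hpos_lt _).trans h)
      · obtain ⟨m, p, rfl, hm⟩ := hz
        refine Or.inr (Or.inl (Or.inl ⟨u (pos m) p, ⟨pos m, ?_, mem_range_self p⟩, rfl⟩))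
        have hm1 : m ≠ SYB_e i (k + 1) := by
          rintro rfl
          rcases hm with ⟨_, j, hj⟩ | ⟨hp, -⟩
          · have := (SYB_einj (by omega) (by omega) hj).2
            omega
          · exact e3 ⟨⟨p, hp⟩, rfl⟩
        have hm2 : m ≠ SYB_e i (k + 1 + 1) := by
          rintro rfl
          rcases hm with ⟨_, j, hj⟩ | ⟨hp, -⟩
          · have := (SYB_einj (by omega) (by omega) hj).2
            omega
          · exact e4 ⟨⟨p, hp⟩, rfl⟩
        have hm3 : SYB_e i (k + 1 + 1) = SYB_e i (k + 1) + 1 := rfl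
        rcases lt_or_gt_of_ne hm1 with h | h
        · exact Or.inl (hpos_mono h)
        · exact Or.inr (hpos_mono (by omega))
    · exact Or.inr (Or.inl (Or.inr ⟨p, p.2, rfl⟩))
    · exact Or.inr (Or.inr ⟨p, p.2, rfl⟩)
  have hrow : ∀ i k d, k + (d + 1) ≤ i → TE S G n (SW X (w i k) (w i (k + (d + 1)))) := by
    intro i k d
    induction d with
    | zero => exact fun h => hadj i k h
    | succ d ih =>
      intro h
      refine SYB_three (b := w i (k + (d + 1))) (fun p q h1 => ?_) (fun p q h1 => ?_)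
        (fun p q h1 => ?_) (fun p => hwX _ _ _ (by omega)) (fun p => hwX _ _ _ h)
        (ih (by omega)) (hadj i (k + (d + 1)) h)
      · have := (hwdis _ _ _ _ _ _ (by omega) (by omega) h1).2.1
        omega
      · have := (hwdis _ _ _ _ _ _ (by omega) (by omega) h1).2.1
        omega
      · have := (hwdis _ _ _ _ _ _ (by omega) (by omega) h1).2.1
        omega
  have hrow' : ∀ i k l, k < l → l ≤ i → TE S G n (SW X (w i k) (w i l)) := by
    intro i k l hkl hl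
    obtain ⟨d, rfl⟩ : ∃ d, l = k + (d + 1) := ⟨l - k - 1, by omega⟩
    exact hrow i k d hl
  -- different rows
  have hnon : ∀ i j k l, i < j → k ≤ i → l ≤ j → ¬ TE S G n (SW X (w i k) (w j l)) := by
    intro i j k l hij hk hl hT
    apply hAt
    have p1 : pos (SYB_e i (k + 1)) < pos (SYB_e j 0) := hpos_mono (SYB_elt hij (by omega))
    have p2 : pos (SYB_e j 0) < pos (SYB_e j (l + 1)) := hpos_mono (by unfold SYB_e; omega)
    have T1 := SYB_E hInd hC0fin hCc hlo hxy hhi (hpos_gt (SYB_e j 0)) p2 (hpos_lt _)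
    have T2 := SYB_E hInd hC0fin hCc (hpos_gt _) p1 (hpos_lt _) hlo hxy hhi
    have T3 : TE S G n (dg ctx ∪ prt P (u (pos (SYB_e j 0))) (u (pos (SYB_e j 0))) ∪
        prt Q (u (pos (SYB_e j (l + 1)))) (u (pos (SYB_e i (k + 1))))) := by
      refine hT.anti ?_
      rintro z ((⟨z, hz, rfl⟩ | ⟨p, hp, rfl⟩) | ⟨p, hp, rfl⟩)
      · obtain ⟨c, hc, p, rfl⟩ := hctx0 z hz
        refine SYB_fix (Or.inl (Or.inr hz)) ?_ ?_
        · rintro ⟨q', hq'⟩
          have h1 := (hinj _ _ _ _ hq').1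
          rcases hCc c hc with h | h
          · have := hpos_gt (SYB_e i (k + 1))
            linarith
          · have := hpos_lt (SYB_e i (k + 1))
            linarith
        · rintro ⟨q', hq'⟩
          have h1 := (hinj _ _ _ _ hq').1
          rcases hCc c hc with h | h
          · have := hpos_gt (SYB_e j (l + 1))
            linarith
          · have := hpos_lt (SYB_e j (l + 1))
            linarith
      · refine SYB_fix (Or.inr ⟨_, _, rfl, Or.inl ⟨hp, j, rfl⟩⟩) ?_ ?_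
        · rintro ⟨q', hq'⟩
          have h1 := (hinj _ _ _ _ hq').1
          linarith
        · rintro ⟨q', hq'⟩
          have h1 := (hinj _ _ _ _ hq').1
          linarith
      · exact SYB_r (⟨p, hp⟩ : Q)
    have T4 : TE S G n {a | ∃ b, (a.1, b) ∈ (dg {z | ∃ c ∈ C0, z ∈ range (u c)} ∪
        prs (u x) (u (pos (SYB_e j 0))) ∪ prs (u y) (u (pos (SYB_e j (l + 1))))) ∧
        (b, a.2) ∈ (dg ctx ∪ prt P (u (pos (SYB_e j 0))) (u (pos (SYB_e j 0))) ∪
        prt Q (u (pos (SYB_e j (l + 1)))) (u (pos (SYB_e i (k + 1)))))} :=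
      T1.comp T3 fun a ha => ha
    have T5 : TE S G n (dg ctx ∪ prt P (u x) (u y) ∪ prt Q (u y) (u x)) := by
      refine T4.comp T2 ?_
      rintro z ((⟨z, hz, rfl⟩ | ⟨p, hp, rfl⟩) | ⟨p, hp, rfl⟩)
      · have hz' := hctx0 z hz
        exact ⟨z, ⟨z, Or.inl (Or.inl ⟨z, hz', rfl⟩), Or.inl (Or.inl ⟨z, hz, rfl⟩)⟩,
          Or.inl (Or.inl ⟨z, hz', rfl⟩)⟩
      · exact ⟨u (pos (SYB_e j 0)) p, ⟨u (pos (SYB_e j 0)) p, Or.inl (Or.inr ⟨p, rfl⟩),
          Or.inl (Or.inr ⟨p, hp, rfl⟩)⟩, Or.inr ⟨p, rfl⟩⟩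
      · exact ⟨u (pos (SYB_e i (k + 1))) p, ⟨u (pos (SYB_e j (l + 1))) p, Or.inr ⟨p, rfl⟩,
          Or.inr ⟨p, hp, rfl⟩⟩, Or.inl (Or.inr ⟨p, rfl⟩)⟩
    refine T5 q (fun a ha => ?_) hqn
    rcases hq ha with (⟨z, _, rfl⟩ | h) | h
    · exact Or.inl (Or.inl ⟨z, ha, rfl⟩)
    · exact Or.inl (Or.inr h)
    · exact Or.inr h
  refine hR G X n Q w hG hXc (fun z hz => Or.inl (Or.inl hz)) hXF ⟨?_, hwdis, ?_, ?_⟩
  · intro i k p hk
    exact ⟨hwX i k p hk, hnG _ _⟩
  · intro i k l hk hl hkl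
    rcases lt_or_gt_of_ne hkl with h | h
    · exact hrow' i k l h hl
    · rw [SYB_swap]
      exact hrow' i l k h hk
  · intro i j k l hij hk hl
    rcases lt_or_gt_of_ne hij with h | h
    · exact hnon i j k l h hk hl
    · rw [SYB_swap]
      exact hnon j i l k h hl hk

end HERN
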