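import Pool.Agent.HERN.St

/-!
# HERN, module SYC: equal parts which do not commute
-/

set_option autoImplicit false
set_option linter.unusedVariables false

namespace HERN

open Set Pool.Agent.Helper5.DU Pool.Agent.Helper6.Str Pool.Agent.Helper79.VC
  Pool.Agent.Helper97.LO Pool.Agent.Helper97.VC HER

variable {L : FirstOrder.Language.{0, 0}} {M : Type} {S : L.Structure M} {G : Set M} {n : ℕ}
  {β : Type}

/-- increasing maps of finite sets of positions -/
theorem SYC_ind {u : ℚ → β → M} (h : Ind S G n u) (T : Finset ℚ) (f : ℚ → ℚ)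
    (hf : ∀ s ∈ T, ∀ t ∈ T, s < t → f s < f t) :
    TE S G n {a | ∃ t ∈ T, ∃ p, a = (u t p, u (f t) p)} := by
  refine (h T.card (T.orderEmbOfFin rfl) (f ∘ T.orderEmbOfFin rfl)
    (T.orderEmbOfFin rfl).strictMono ?_).anti ?_
  · intro i j hij
    exact hf _ (T.orderEmbOfFin_mem rfl i) _ (T.orderEmbOfFin_mem rfl j)
      ((T.orderEmbOfFin rfl).strictMono hij)
  · rintro _ ⟨t, ht, p, rfl⟩
    have h1 : t ∈ Set.range (T.orderEmbOfFin rfl) := by
      rw [Finset.range_orderEmbOfFin]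
      exact ht
    obtain ⟨j, hj⟩ := h1
    refine mem_iUnion.mpr ⟨j, p, ?_⟩
    show (u (T.orderEmbOfFin rfl j) p, u (f (T.orderEmbOfFin rfl j)) p) = _
    rw [hj]

/-- one moving block -/
theorem SYC_one {u : ℚ → β → M} (h : Ind S G n u) (C : Finset ℚ) {s t : ℚ}
    (hC : ∀ c ∈ C, c < s ∨ t < c) (hst : s < t) :
    TE S G n (dg {z | ∃ c ∈ C, z ∈ range (u c)} ∪ prs (u s) (u t)) := by
  classical
  refine (SYC_ind h (insert s C) (fun a => if a = s then t else a) ?_).anti ?_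
  · intro a ha b hb hab
    rw [Finset.mem_insert] at ha hb
    by_cases h1 : a = s <;> by_cases h2 : b = s
    · simp only [h1, h2, if_true]
      rw [h1, h2] at hab
      exact absurd hab (lt_irrefl _)
    · simp only [h1, h2, if_true, if_false]
      rcases hC b (hb.resolve_left h2) with h3 | h3
      · rw [h1] at hab
        exact absurd (hab.trans h3) (lt_irrefl _)
      · exact h3
    · simp only [h1, h2, if_true, if_false]
      rw [h2] at hab
      exact hab.trans hst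
    · simp only [h1, h2, if_false]
      exact hab
  · rintro a (⟨z, ⟨c, hc, p, rfl⟩, rfl⟩ | ⟨p, rfl⟩)
    · refine ⟨c, Finset.mem_insert_of_mem hc, p, ?_⟩
      by_cases h1 : c = s
      · rcases hC c hc with h3 | h3
        · exact absurd h3 (by rw [h1]; exact lt_irrefl _)
        · rw [h1] at h3
          exact absurd (h3.trans hst) (lt_irrefl _)
      · simp [h1]
    · exact ⟨s, Finset.mem_insert_self _ _, p, by simp⟩

/-- two moving blocks -/
theorem SYC_two {u : ℚ → β → M} (h : Ind S G n u) (C : Finset ℚ) {lo hi z1 z2 z1' z2' : ℚ}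
    (hC : ∀ c ∈ C, c < lo ∨ hi < c) (h1 : lo ≤ z1) (h2 : z1 < z2) (h3 : z2 ≤ hi)
    (h1' : lo ≤ z1') (h2' : z1' < z2') (h3' : z2' ≤ hi) :
    TE S G n (dg {z | ∃ c ∈ C, z ∈ range (u c)} ∪ prs (u z1) (u z1') ∪
      prs (u z2) (u z2')) := by
  classical
  have hlow : ∀ c ∈ C, c ≠ z1 ∧ c ≠ z2 := by
    intro c hc
    rcases hC c hc with h | h
    · exact ⟨by rintro rfl; linarith, by rintro rfl; linarith⟩
    · exact ⟨by rintro rfl; linarith, by rintro rfl; linarith⟩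
  refine (SYC_ind h (insert z1 (insert z2 C))
    (fun a => if a = z1 then z1' else if a = z2 then z2' else a) ?_).anti ?_
  · intro a ha b hb hab
    rw [Finset.mem_insert, Finset.mem_insert] at ha hb
    rcases ha with rfl | rfl | ha <;> rcases hb with rfl | rfl | hb
    · exact absurd hab (lt_irrefl _)
    · have : b ≠ a := hab.ne'
      simp only [this, if_true, if_false]
      exact h2'
    · simp only [(hlow b hb).1, (hlow b hb).2, if_true, if_false]
      rcases hC b hb with h | h <;> linarith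
    · exact absurd (hab.trans h2) (lt_irrefl _)
    · exact absurd hab (lt_irrefl _)
    · have : a ≠ z1 := h2.ne'
      simp only [this, (hlow b hb).1, (hlow b hb).2, if_true, if_false]
      rcases hC b hb with h | h <;> linarith
    · simp only [(hlow a ha).1, (hlow a ha).2, if_true, if_false]
      rcases hC a ha with h | h <;> linarith
    · have : b ≠ z1 := h2.ne'
      simp only [this, (hlow a ha).1, (hlow a ha).2, if_true, if_false]
      rcases hC a ha with h | h <;> linarith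
    · simp only [(hlow a ha).1, (hlow a ha).2, (hlow b hb).1, (hlow b hb).2, if_false]
      exact hab
  · rintro a ((⟨z, ⟨c, hc, p, rfl⟩, rfl⟩ | ⟨p, rfl⟩) | ⟨p, rfl⟩)
    · refine ⟨c, Finset.mem_insert_of_mem (Finset.mem_insert_of_mem hc), p, ?_⟩
      simp [(hlow c hc).1, (hlow c hc).2]
    · exact ⟨z1, Finset.mem_insert_self _ _, p, by simp⟩
    · have : z2 ≠ z1 := h2.ne'
      exact ⟨z2, Finset.mem_insert_of_mem (Finset.mem_insert_self _ _), p, by simp [this]⟩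

/-- types of pairs of `Q`-tuples over `G ∪ D` -/
def SYC_E {L : FirstOrder.Language.{0, 0}} {M : Type} (S : L.Structure M) (G : Set M)
    {β : Type} (h k h' k' : β → M) : Prop := AtEq S S (dg G ∪ prs h h' ∪ prs k k')

theorem SYC_E.trans {h k h' k' h'' k'' : β → M} (h1 : SYC_E S G h k h' k')
    (h2 : SYC_E S G h' k' h'' k'') : SYC_E S G h k h'' k'' := by
  refine AtEq.comp' h1 h2 ?_
  rintro a ((⟨z, hz, rfl⟩ | ⟨p, rfl⟩) | ⟨p, rfl⟩)
  · exact ⟨z, Or.inl (Or.inl ⟨z, hz, rfl⟩), Or.inl (Or.inl ⟨z, hz, rfl⟩)⟩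
  · exact ⟨h' p, Or.inl (Or.inr ⟨p, rfl⟩), Or.inl (Or.inr ⟨p, rfl⟩)⟩
  · exact ⟨k' p, Or.inr ⟨p, rfl⟩, Or.inr ⟨p, rfl⟩⟩

theorem SYC_E.symm {h k h' k' : β → M} (h1 : SYC_E S G h k h' k') : SYC_E S G h' k' h k := by
  refine AtEq.symm' h1 ?_
  rintro a ((⟨z, hz, rfl⟩ | ⟨p, rfl⟩) | ⟨p, rfl⟩)
  · exact Or.inl (Or.inl ⟨z, hz, rfl⟩)
  · exact Or.inl (Or.inr ⟨p, rfl⟩)
  · exact Or.inr ⟨p, rfl⟩

theorem SYC_E.swap {h k h' k' : β → M} (h1 : SYC_E S G h k h' k') : SYC_E S G k h k' h' := by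
  refine h1.anti ?_
  rintro a ((ha | ha) | ha)
  · exact Or.inl (Or.inl ha)
  · exact Or.inr ha
  · exact Or.inl (Or.inr ha)

theorem SYC_E.perm {h k h' k' : β → M} (h1 : SYC_E S G h k h' k') (π : Equiv.Perm β) :
    SYC_E S G (h ∘ π) k (h' ∘ π) k' := by
  unfold SYC_E
  rw [prs_comp_perm]
  exact h1

/-- tuples with the same range -/
theorem SYC_perm [Finite β] {h k : β → M} (hk : Function.Injective k)
    (hh : Function.Injective h) (hr : range h = range k) : ∃ π : Equiv.Perm β, h = k ∘ π := by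
  classical
  have h1 : ∀ p, ∃ q, k q = h p := fun p => by
    have : h p ∈ range k := by
      rw [← hr]
      exact mem_range_self p
    exact this
  choose f hf using h1
  have hinj : Function.Injective f := fun p q hpq => hh (by rw [← hf p, ← hf q, hpq])
  refine ⟨Equiv.ofBijective f ⟨hinj, Finite.surjective_of_injective hinj⟩, ?_⟩
  funext p
  exact (hf p).symm

/-- moving a block through one proper part of another block -/
theorem SYC_step {u : ℚ → β → M} (hI : Ind S G n u) (C : Finset ℚ) {P Q : Set β}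
    {s z t : ℚ} (hsz : s < z) (hzt : z < t) (hC : ∀ c ∈ C, c < s ∨ t < c)
    (hPQ : Cmm S G n u P Q) :
    TE S G n (dg {y | ∃ c ∈ C, y ∈ range (u c)} ∪ prt P (u z) (u z) ∪ prt Q (u t) (u s)) := by
  have h1 := hPQ z t hzt (C : Set ℚ) (fun c hc => (hC c hc).imp_left fun h => h.trans hsz)
  have h2 := SYC_two hI C hC hsz.le hzt le_rfl le_rfl hsz hzt.le
  refine h1.comp h2 ?_
  rintro a ((⟨y, hy, rfl⟩ | ⟨p, hp, rfl⟩) | ⟨p, hp, rfl⟩)
  · exact ⟨y, Or.inl (Or.inl ⟨y, hy, rfl⟩), Or.inl (Or.inl ⟨y, hy, rfl⟩)⟩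
  · exact ⟨u t p, Or.inl (Or.inr ⟨p, hp, rfl⟩), Or.inr ⟨p, rfl⟩⟩
  · exact ⟨u z p, Or.inr ⟨p, hp, rfl⟩, Or.inl (Or.inr ⟨p, rfl⟩)⟩

/-- moving a block through a mixed tuple -/
theorem SYC_move {u : ℚ → β → M} (hI : Ind S G n u) {Q : Set β}
    (hinj : ∀ x p y q, u x p = u y q → x = y ∧ p = q)
    {D : Set M} (C : Finset ℚ) (hD : ∀ z ∈ D, ∃ c ∈ C, z ∈ range (u c)) {x y : ℚ}
    (hC : ∀ c ∈ C, c < x ∨ y < c)
    (hE : ∀ (p : Set (M × M)) (h k h' k' : Q → M), TE S G n p →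
      dg D ∪ prs h h' ∪ prs k k' ⊆ p → SYC_E S (G ∪ D) h k h' k')
    (hQ : ∀ P ⊂ Q, Cmm S G n u P Q) (h : Q → M) (Z : Finset ℚ)
    (hZ : ∀ z ∈ Z, {p | p ∈ Q ∧ u z p ∈ range h} ⊂ Q)
    (hh : ∀ p, ∃ z ∈ Z, ∃ q ∈ Q, h p = u z q) (m : ℕ) :
    ∀ s t : ℚ, x ≤ s → s < t → t ≤ y → s ∉ Z → t ∉ Z →
      (Z.filter fun z => s < z ∧ z < t).card ≤ m →
      SYC_E S (G ∪ D) (fun q : Q => u s q) h (fun q : Q => u t q) h := by
  classical
  have hstep : ∀ s z t : ℚ, x ≤ s → s < z → z < t → t ≤ y → z ∈ Z → s ∉ Z → t ∉ Z →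
      (∀ c ∈ Z, s < c → c < t → c = z) →
      SYC_E S (G ∪ D) (fun q : Q => u s q) h (fun q : Q => u t q) h := by
    intro s z t hxs hsz hzt hty hz hs ht honly
    have hCc : ∀ c ∈ C ∪ Z.erase z, c < s ∨ t < c := by
      intro c hc
      rcases Finset.mem_union.mp hc with h1 | h1
      · rcases hC c h1 with h2 | h2
        · exact Or.inl (lt_of_lt_of_le h2 hxs)
        · exact Or.inr (lt_of_le_of_lt hty h2)
      · rw [Finset.mem_erase] at h1
        by_contra h2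
        push Not at h2
        have h3 : c ≠ s := fun h => hs (h ▸ h1.2)
        have h4 : c ≠ t := fun h => ht (h ▸ h1.2)
        exact h1.1 (honly c h1.2 (lt_of_le_of_ne h2.1 h3.symm) (lt_of_le_of_ne h2.2 h4))
    have h1 := SYC_step hI (C ∪ Z.erase z) hsz hzt hCc (hQ _ (hZ z hz))
    refine (hE _ (fun q : Q => u t q) h (fun q : Q => u s q) h h1 ?_).symm
    rintro a ((⟨d, hd, rfl⟩ | ⟨q, rfl⟩) | ⟨q, rfl⟩)
    · obtain ⟨c, hc, hdc⟩ := hD d hd
      exact Or.inl (Or.inl ⟨d, ⟨c, Finset.mem_union_left _ hc, hdc⟩, rfl⟩)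
    · exact Or.inr ⟨q, q.2, rfl⟩
    · obtain ⟨z', hz', q', hq', hq⟩ := hh q
      by_cases h2 : z' = z
      · subst h2
        refine Or.inl (Or.inr ⟨q', ⟨hq', ?_⟩, ?_⟩)
        · exact ⟨q, hq⟩
        · show (u z' q', u z' q') = (h q, h q)
          rw [hq]
      · refine Or.inl (Or.inl ⟨h q, ⟨z', Finset.mem_union_right _ (Finset.mem_erase.mpr
          ⟨h2, hz'⟩), ?_⟩, rfl⟩)
        exact ⟨q', hq.symm⟩
  have hbase : ∀ s t : ℚ, x ≤ s → s < t → t ≤ y → s ∉ Z → t ∉ Z →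
      (∀ c ∈ Z, s < c → c < t → False) →
      SYC_E S (G ∪ D) (fun q : Q => u s q) h (fun q : Q => u t q) h := by
    intro s t hxs hst hty hs ht hno
    have hCc : ∀ c ∈ C ∪ Z, c < s ∨ t < c := by
      intro c hc
      rcases Finset.mem_union.mp hc with h1 | h1
      · rcases hC c h1 with h2 | h2
        · exact Or.inl (lt_of_lt_of_le h2 hxs)
        · exact Or.inr (lt_of_le_of_lt hty h2)
      · by_contra h2
        push Not at h2
        have h3 : c ≠ s := fun h => hs (h ▸ h1)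
        have h4 : c ≠ t := fun h => ht (h ▸ h1)
        exact hno c h1 (lt_of_le_of_ne h2.1 h3.symm) (lt_of_le_of_ne h2.2 h4)
    have h1 := SYC_one hI (C ∪ Z) hCc hst
    refine hE _ (fun q : Q => u s q) h (fun q : Q => u t q) h h1 ?_
    rintro a ((⟨d, hd, rfl⟩ | ⟨q, rfl⟩) | ⟨q, rfl⟩)
    · obtain ⟨c, hc, hdc⟩ := hD d hd
      exact Or.inl ⟨d, ⟨c, Finset.mem_union_left _ hc, hdc⟩, rfl⟩
    · exact Or.inr ⟨q, rfl⟩
    · obtain ⟨z', hz', q', hq', hq⟩ := hh q
      refine Or.inl ⟨h q, ⟨z', Finset.mem_union_right _ hz', ?_⟩, rfl⟩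
      exact ⟨q', hq.symm⟩
  induction m with
  | zero =>
    intro s t hxs hst hty hs ht hm
    refine hbase s t hxs hst hty hs ht fun c hc h1 h2 => ?_
    have h3 : c ∈ Z.filter fun z => s < z ∧ z < t := Finset.mem_filter.mpr ⟨hc, h1, h2⟩
    rw [Finset.card_eq_zero.mp (Nat.le_zero.mp hm)] at h3
    simp at h3
  | succ m ih =>
    intro s t hxs hst hty hs ht hm
    by_cases hne : (Z.filter fun z => s < z ∧ z < t).Nonempty
    · set W := Z.filter fun z => s < z ∧ z < t with hW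
      set z := W.min' hne with hz
      have hzW : z ∈ W := Finset.min'_mem _ _
      obtain ⟨hzZ, hsz, hzt⟩ := Finset.mem_filter.mp hzW
      set W' := insert t (W.erase z) with hW'
      have hW'ne : W'.Nonempty := Finset.insert_nonempty _ _
      set nx := W'.min' hW'ne with hnx
      have hnx1 : z < nx := by
        have h1 : nx ∈ W' := Finset.min'_mem _ _
        rcases Finset.mem_insert.mp h1 with h2 | h2
        · rw [h2]
          exact hzt
        · rw [Finset.mem_erase] at h2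
          exact lt_of_le_of_ne (Finset.min'_le _ _ h2.2) (Ne.symm h2.1)
      have hnx2 : ∀ c ∈ W, c ≠ z → nx ≤ c := fun c hc hcz =>
        Finset.min'_le _ _ (Finset.mem_insert_of_mem (Finset.mem_erase.mpr ⟨hcz, hc⟩))
      have hnx3 : nx ≤ t := Finset.min'_le _ _ (Finset.mem_insert_self _ _)
      obtain ⟨t', ht'1, ht'2⟩ := exists_between hnx1
      have ht't : t' < t := lt_of_lt_of_le ht'2 hnx3
      have ht'Z : t' ∉ Z := by
        intro h1
        have h2 : t' ∈ W := Finset.mem_filter.mpr ⟨h1, hsz.trans ht'1, ht't⟩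
        exact absurd (hnx2 t' h2 ht'1.ne') (not_le.mpr ht'2)
      have h1 := hstep s z t' hxs hsz ht'1 (ht't.le.trans hty) hzZ hs ht'Z (by
        intro c hc hsc hct
        by_contra hcz
        have h2 : c ∈ W := Finset.mem_filter.mpr ⟨hc, hsc, hct.trans ht't⟩
        exact absurd (hnx2 c h2 hcz) (not_le.mpr (hct.trans ht'2)))
      refine h1.trans (ih t' t (hxs.trans (hsz.trans ht'1).le) ht't hty ht'Z ht ?_)
      have h2 : (Z.filter fun z => t' < z ∧ z < t) ⊆ W.erase z := by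
        intro c hc
        obtain ⟨h3, h4, h5⟩ := Finset.mem_filter.mp hc
        refine Finset.mem_erase.mpr ⟨?_, Finset.mem_filter.mpr ⟨h3, (hsz.trans ht'1).trans h4,
          h5⟩⟩
        exact (ht'1.trans h4).ne'
      have h3 := Finset.card_le_card h2
      rw [Finset.card_erase_of_mem hzW] at h3
      omega
    · rw [Finset.not_nonempty_iff_eq_empty] at hne
      refine hbase s t hxs hst hty hs ht fun c hc h1 h2 => ?_
      have h3 : c ∈ Z.filter fun z => s < z ∧ z < t := Finset.mem_filter.mpr ⟨hc, h1, h2⟩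
      rw [hne] at h3
      simp at h3

theorem thm_SYC : St_SYC := by
  classical
  intro L M S F G n β _ u Q hO hF hG hinj hoff hI hnot hQ
  -- the failure
  unfold Cmm at hnot
  push Not at hnot
  obtain ⟨x, y, hxy, C, hC, hTE⟩ := hnot
  unfold TE at hTE
  push Not at hTE
  obtain ⟨q, hq, hqn, hqF⟩ := hTE
  have hqfin : q.Finite := Set.finite_of_encard_le_coe hqn
  -- both parts are contained in `q`
  have hp1 : prt Q (u x) (u y) ⊆ q := by
    rintro _ ⟨p, hp, rfl⟩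
    by_contra hpq
    have h1 : Q \ {p} ⊂ Q := by
      refine ⟨sdiff_subset, fun h => ?_⟩
      exact (h hp).2 rfl
    refine hqF (hQ _ h1 x y hxy C hC q ?_ hqn)
    intro a ha
    rcases hq ha with (h2 | ⟨p', hp', rfl⟩) | h2
    · exact Or.inl (Or.inl h2)
    · refine Or.inl (Or.inr ⟨p', ⟨hp', ?_⟩, rfl⟩)
      rintro rfl
      exact hpq ha
    · exact Or.inr h2
  have hp2 : prt Q (u y) (u x) ⊆ q := by
    rintro _ ⟨p, hp, rfl⟩
    by_contra hpq
    have h1 : Q \ {p} ⊂ Q := by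
      refine ⟨sdiff_subset, fun h => ?_⟩
      exact (h hp).2 rfl
    have h3 := (hQ _ h1 x y hxy C hC).symm' (r := q) (by
      intro a ha
      rcases hq ha with (⟨z, hz, rfl⟩ | ⟨p', hp', rfl⟩) | ⟨p', hp', rfl⟩
      · exact Or.inl (Or.inl ⟨z, hz, rfl⟩)
      · exact Or.inr ⟨p', hp', rfl⟩
      · refine Or.inl (Or.inr ⟨p', ⟨hp', ?_⟩, rfl⟩)
        rintro rfl
        exact hpq ha)
    exact hqF (h3 q Subset.rfl hqn)
  -- the rest
  set D : Set M := {z | (z, z) ∈ q ∧ ∃ c ∈ C, z ∈ range (u c)} with hD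
  have hDfin : D.Finite := by
    have h1 : D ⊆ Prod.fst '' q := fun z hz => ⟨(z, z), hz.1, rfl⟩
    exact (hqfin.image _).subset h1
  obtain ⟨C0, hC0, hDC0⟩ : ∃ C0 : Finset ℚ, (∀ c ∈ C0, c ∈ C) ∧
      ∀ z ∈ D, ∃ c ∈ C0, z ∈ range (u c) := by
    have h1 : ∀ z : M, ∃ c : ℚ, z ∈ D → c ∈ C ∧ z ∈ range (u c) := by
      intro z
      by_cases hz : z ∈ D
      · obtain ⟨c, hc, hzc⟩ := hz.2
        exact ⟨c, fun _ => ⟨hc, hzc⟩⟩
      · exact ⟨0, fun h => absurd h hz⟩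
    choose c hc using h1
    refine ⟨hDfin.toFinset.image c, fun a ha => ?_, fun z hz => ⟨c z, ?_, (hc z hz).2⟩⟩
    · obtain ⟨z, hz, rfl⟩ := Finset.mem_image.mp ha
      exact (hc z (hDfin.mem_toFinset.mp hz)).1
    · exact Finset.mem_image.mpr ⟨z, hDfin.mem_toFinset.mpr hz, rfl⟩
  have hC0' : ∀ c ∈ C0, c < x ∨ y < c := fun c hc => hC c (hC0 c hc)
  have hDpos : ∀ z ∈ D, ∀ t, x ≤ t → t ≤ y → ∀ p, u t p ≠ z := by
    intro z hz t hxt hty p hp
    obtain ⟨c, hc, ⟨p', hp'⟩⟩ := hDC0 z hz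
    have h1 := (hinj t p c p' (hp.trans hp'.symm)).1
    rcases hC0' c hc with h | h
    · rw [← h1] at h
      linarith
    · rw [← h1] at h
      linarith
  set a : Q → M := fun p => u x p with ha
  set a' : Q → M := fun p => u y p with ha'
  have hcard : D.encard + (Nat.card Q : ℕ∞) + (Nat.card Q : ℕ∞) ≤ (n : ℕ∞) := by
    refine le_trans ?_ hqn
    have h1 : (dg D).encard = D.encard := by
      unfold dg
      refine Function.Injective.encard_image (fun s t hst => ?_) D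
      exact (Prod.ext_iff.mp hst).1
    have h2 : (prs a a').encard = (Nat.card Q : ℕ∞) := by
      unfold prs
      rw [← image_univ, Function.Injective.encard_image, encard_univ, ENat.card_eq_coe_natCard]
      intro s t hst
      exact Subtype.ext (hinj _ _ _ _ (Prod.ext_iff.mp hst).1).2
    have h3 : (prs a' a).encard = (Nat.card Q : ℕ∞) := by
      unfold prs
      rw [← image_univ, Function.Injective.encard_image, encard_univ, ENat.card_eq_coe_natCard]
      intro s t hst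
      exact Subtype.ext (hinj _ _ _ _ (Prod.ext_iff.mp hst).1).2
    rw [← h1]
    nth_rewrite 1 [← h2]
    rw [← h3, ← Set.encard_union_eq, ← Set.encard_union_eq]
    · refine Set.encard_le_encard ?_
      rintro b ((⟨z, hz, rfl⟩ | ⟨p, rfl⟩) | ⟨p, rfl⟩)
      · exact hz.1
      · exact hp1 ⟨p, p.2, rfl⟩
      · exact hp2 ⟨p, p.2, rfl⟩
    · rw [Set.disjoint_left]
      rintro b (⟨z, hz, rfl⟩ | ⟨p, rfl⟩) ⟨p', hp'⟩
      · exact hDpos z hz y hxy.le le_rfl p' (Prod.ext_iff.mp hp').1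
      · exact hxy.ne' (hinj _ _ _ _ (Prod.ext_iff.mp hp').1).1
    · rw [Set.disjoint_left]
      rintro b ⟨z, hz, rfl⟩ ⟨p', hp'⟩
      exact hDpos z hz x le_rfl hxy.le p' (Prod.ext_iff.mp hp').1
  have hE : ∀ (p : Set (M × M)) (h k h' k' : Q → M), TE S G n p →
      dg D ∪ prs h h' ∪ prs k k' ⊆ p → SYC_E S (G ∪ D) h k h' k' := by
    intro p h k h' k' hp hsub
    have h1 := hp _ hsub (by
      refine (Set.encard_union_le _ _).trans ((add_le_add ((Set.encard_union_le _ _).trans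
        (add_le_add (Set.encard_image_le _ _) (prs_encard_le _ _))) (prs_encard_le _ _)).trans
        hcard))
    refine h1.anti ?_
    rintro b ((⟨z, hz | hz, rfl⟩ | hb) | hb)
    · exact Or.inl ⟨z, hz, rfl⟩
    · exact Or.inr (Or.inl (Or.inl ⟨z, hz, rfl⟩))
    · exact Or.inr (Or.inl (Or.inr hb))
    · exact Or.inr (Or.inr hb)
  have hF1 : ∀ z1 z2 z1' z2' : ℚ, x ≤ z1 → z1 < z2 → z2 ≤ y → x ≤ z1' → z1' < z2' → z2' ≤ y →
      SYC_E S (G ∪ D) (fun p : Q => u z1 p) (fun p : Q => u z2 p) (fun p : Q => u z1' p)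
        (fun p : Q => u z2' p) := by
    intro z1 z2 z1' z2' h1 h2 h3 h4 h5 h6
    refine hE _ _ _ _ _ (SYC_two hI C0 hC0' h1 h2 h3 h4 h5 h6) ?_
    rintro b ((⟨z, hz, rfl⟩ | ⟨p, rfl⟩) | ⟨p, rfl⟩)
    · exact Or.inl (Or.inl ⟨z, hDC0 z hz, rfl⟩)
    · exact Or.inl (Or.inr ⟨p, rfl⟩)
    · exact Or.inr ⟨p, rfl⟩
  have hF2 : ¬ SYC_E S (G ∪ D) a a' a' a := by
    intro h
    apply hqF
    refine h.anti ?_
    rintro b (⟨z, hz, rfl⟩ | hb)
    · exact Or.inl (Or.inl ⟨z, Or.inl hz, rfl⟩)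
    · rcases hq hb with (⟨z, hz, rfl⟩ | ⟨p, hp, rfl⟩) | ⟨p, hp, rfl⟩
      · exact Or.inl (Or.inl ⟨z, Or.inr ⟨hb, hz⟩, rfl⟩)
      · exact Or.inl (Or.inr ⟨⟨p, hp⟩, rfl⟩)
      · exact Or.inr ⟨⟨p, hp⟩, rfl⟩
  -- positions
  obtain ⟨ι, hι⟩ : ∃ ι : ℚ → ℚ, StrictMono ι ∧ ∀ z, x < ι z ∧ ι z < y := by
    have : Nontrivial (Ioo x y) := by
      obtain ⟨s, hs1, hs2⟩ := exists_between hxy
      obtain ⟨t, ht1, ht2⟩ := exists_between hs2
      exact ⟨⟨s, hs1, hs2⟩, ⟨t, hs1.trans ht1, ht2⟩, fun h => ht1.ne (Subtype.ext_iff.mp h)⟩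
    obtain ⟨e⟩ := Order.embedding_from_countable_to_dense (α := ℚ) (β := Ioo x y)
    exact ⟨fun z => e z, fun s t hst => e.strictMono hst, fun z => (e z).2⟩
  obtain ⟨hι1, hι2⟩ := hι
  set v : ℚ → Q → M := fun z p => u (ι z) p with hv
  have hvinj : ∀ z, Function.Injective (v z) := fun z p p' h =>
    Subtype.ext (hinj _ _ _ _ h).2
  have hQne : Nonempty Q := by
    by_contra h1
    have h2 : IsEmpty Q := not_nonempty_iff.mp h1
    apply hF2
    refine atEq_diag S ?_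
    rintro b ((⟨z, hz, rfl⟩ | ⟨p, rfl⟩) | ⟨p, rfl⟩)
    · rfl
    · exact h2.elim p
    · exact h2.elim p
  -- mixed tuples
  have hmix : ∀ h : Q → M, Function.Injective h → (∀ p, ∃ z q, h p = v z q) →
      (∀ z, range h ≠ range (v z)) → SYC_E S (G ∪ D) a h a' h := by
    intro h hhinj hh hne
    choose z q' hzq using hh
    have hrf : (range h).Finite := finite_range h
    set Z : Finset ℚ := (finite_range fun p => ι (z p)).toFinset with hZ
    have hmemZ : ∀ c, c ∈ Z ↔ ∃ p, ι (z p) = c := by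
      intro c
      rw [hZ, Set.Finite.mem_toFinset]
      rfl
    refine SYC_move hI hinj C0 hDC0 hC0' hE hQ h Z ?_ ?_ Z.card x y le_rfl hxy le_rfl ?_ ?_ ?_
    · intro c hc
      obtain ⟨p0, rfl⟩ := (hmemZ c).mp hc
      refine ⟨fun p hp => hp.1, fun hsub => ?_⟩
      apply hne (z p0)
      symm
      refine Set.eq_of_subset_of_ncard_le ?_ ?_ hrf
      · rintro _ ⟨p, rfl⟩
        exact (hsub p.2).2
      · rw [← image_univ, ← image_univ, Set.ncard_image_of_injective _ hhinj,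
          Set.ncard_image_of_injective _ (hvinj _)]
    · intro p
      exact ⟨ι (z p), (hmemZ _).mpr ⟨p, rfl⟩, q' p, (q' p).2, hzq p⟩
    · intro h1
      obtain ⟨p, hp⟩ := (hmemZ _).mp h1
      exact (hι2 (z p)).1.ne' hp
    · intro h1
      obtain ⟨p, hp⟩ := (hmemZ _).mp h1
      exact (hι2 (z p)).2.ne hp
    · exact Finset.card_filter_le _ _
  set Gn : Set M := G ∪ D ∪ F ∪ range a ∪ range a' with hGn
  have hGD : G ∪ D ⊆ Gn := fun z hz => Or.inl (Or.inl (Or.inl hz))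
  set B : (Q → M) → Prop := fun h =>
    SYC_E S (G ∪ D) a h a (v 0) ∧ SYC_E S (G ∪ D) h a' (v 0) a' with hB
  set O : (Q → M) → (Q → M) → Prop := fun h k => SYC_E S (G ∪ D) h k a a' with hOd
  have hBv : ∀ z, B (v z) := fun z =>
    ⟨hF1 _ _ _ _ le_rfl (hι2 z).1 (hι2 z).2.le le_rfl (hι2 0).1 (hι2 0).2.le,
      hF1 _ _ _ _ (hι2 z).1.le (hι2 z).2 le_rfl (hι2 0).1.le (hι2 0).2 le_rfl⟩
  have hBinj : ∀ h, B h → Function.Injective h := by
    intro h hBh p p' hpp
    have h1 := hBh.1.1 (h p, v 0 p) (Or.inr ⟨p, rfl⟩) (h p', v 0 p') (Or.inr ⟨p', rfl⟩)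
    exact hvinj 0 (h1.mp hpp)
  -- proper labellings fix the types over other blocks
  have hlab1 : ∀ (h : Q → M) (z s : ℚ), B h → range h = range (v z) → s < z →
      SYC_E S (G ∪ D) (v s) h (v s) (v z) := by
    intro h z s hBh hr hsz
    obtain ⟨π, rfl⟩ := SYC_perm (hvinj z) (hBinj h hBh) hr
    have h1 : SYC_E S (G ∪ D) (v s) (v z) a (v z) :=
      hF1 _ _ _ _ (hι2 s).1.le (hι1 hsz) (hι2 z).2.le le_rfl (hι2 z).1 (hι2 z).2.le
    have h2 : SYC_E S (G ∪ D) (v s) (v z ∘ π) a (v z ∘ π) := (h1.swap.perm π).swap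
    exact (h2.trans (hBh.1.trans (hBv z).1.symm)).trans h1.symm
  have hlab2 : ∀ (h : Q → M) (z s : ℚ), B h → range h = range (v z) → z < s →
      SYC_E S (G ∪ D) h (v s) (v z) (v s) := by
    intro h z s hBh hr hsz
    obtain ⟨π, rfl⟩ := SYC_perm (hvinj z) (hBinj h hBh) hr
    have h1 : SYC_E S (G ∪ D) (v z) (v s) (v z) a' :=
      hF1 _ _ _ _ (hι2 z).1.le (hι1 hsz) (hι2 s).2.le (hι2 z).1.le (hι2 z).2 le_rfl
    have h2 : SYC_E S (G ∪ D) (v z ∘ π) (v s) (v z ∘ π) a' := h1.perm π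
    exact (h2.trans (hBh.2.trans (hBv z).2.symm)).trans h1.symm
  have hord : ∀ (h k : Q → M) (z z' : ℚ), z < z' → range h = range (v z) →
      range k = range (v z') → B h → B k → SYC_E S (G ∪ D) h k a a' := by
    intro h k z z' hzz hr hr' hBh hBk
    have h1 : SYC_E S (G ∪ D) (v z) k (v z) (v z') := hlab1 k z' z hBk hr' hzz
    obtain ⟨π, rfl⟩ := SYC_perm (hvinj z) (hBinj h hBh) hr
    have h2 : SYC_E S (G ∪ D) (v z ∘ π) k (v z ∘ π) (v z') := h1.perm π
    have h3 := hlab2 _ z z' hBh hr hzz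
    exact (h2.trans h3).trans (hF1 _ _ _ _ (hι2 z).1.le (hι1 hzz) (hι2 z').2.le le_rfl hxy
      le_rfl)
  refine hO Gn Q v B O ?_ (fun z hz => Or.inl (Or.inl (Or.inr hz))) ?_ ?_ ?_ ?_ hBv ?_ ?_
  · exact (((hG.union hDfin).union hF).union (finite_range a)).union (finite_range a')
  · intro z p z' p' h
    obtain ⟨h1, h2⟩ := hinj _ _ _ _ h
    exact ⟨hι1.injective h1, Subtype.ext h2⟩
  · rintro z p ((((h | h) | h) | ⟨p', h⟩) | ⟨p', h⟩)
    · exact hoff _ _ (Or.inr h)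
    · exact hDpos _ h (ι z) (hι2 z).1.le (hι2 z).2.le p rfl
    · exact hoff _ _ (Or.inl h)
    · exact (hι2 z).1.ne (hinj _ _ _ _ h).1
    · exact (hι2 z).2.ne' (hinj _ _ _ _ h).1
  · intro h h' hhh
    have h1 : SYC_E S (G ∪ D) a h a h' := by
      refine hhh.anti ?_
      rintro b ((⟨z, hz, rfl⟩ | ⟨p, rfl⟩) | ⟨p, rfl⟩)
      · exact Or.inl ⟨z, hGD hz, rfl⟩
      · exact Or.inl ⟨a p, Or.inl (Or.inr ⟨p, rfl⟩), rfl⟩
      · exact Or.inr ⟨p, rfl⟩
    have h2 : SYC_E S (G ∪ D) h a' h' a' := by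
      refine hhh.anti ?_
      rintro b ((⟨z, hz, rfl⟩ | ⟨p, rfl⟩) | ⟨p, rfl⟩)
      · exact Or.inl ⟨z, hGD hz, rfl⟩
      · exact Or.inr ⟨p, rfl⟩
      · exact Or.inl ⟨a' p, Or.inr ⟨p, rfl⟩, rfl⟩
    constructor
    · rintro ⟨h3, h4⟩
      exact ⟨h1.symm.trans h3, h2.symm.trans h4⟩
    · rintro ⟨h3, h4⟩
      exact ⟨h1.trans h3, h2.trans h4⟩
  · intro h k h' k' hhk
    have h1 : SYC_E S (G ∪ D) h k h' k' := by
      refine hhk.anti ?_
      rintro b ((⟨z, hz, rfl⟩ | ⟨p, rfl⟩) | ⟨p, rfl⟩)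
      · exact Or.inl (Or.inl ⟨z, hGD hz, rfl⟩)
      · exact Or.inl (Or.inr ⟨p, rfl⟩)
      · exact Or.inr ⟨p, rfl⟩
    exact ⟨fun h2 => h1.symm.trans h2, fun h2 => h1.trans h2⟩
  · intro h hh hBh
    by_contra hne
    push Not at hne
    have h1 := hmix h (hBinj h hBh) hh hne
    apply hF2
    have h2 : SYC_E S (G ∪ D) a a' a (v 0) :=
      hF1 _ _ _ _ le_rfl hxy le_rfl le_rfl (hι2 0).1 (hι2 0).2.le
    have h3 : SYC_E S (G ∪ D) (v 0) a' a a' :=
      hF1 _ _ _ _ (hι2 0).1.le (hι2 0).2 le_rfl le_rfl hxy le_rfl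
    exact ((((h2.trans hBh.1.symm).trans h1).trans hBh.2.swap).trans h3.swap)
  · intro z z' h k hzz hr hr' hBh hBk
    constructor
    · intro hO1
      by_contra hlt
      have h1 : z' < z := lt_of_le_of_ne (not_lt.mp hlt) (Ne.symm hzz)
      have h2 := hord k h z' z h1 hr' hr hBk hBh
      exact hF2 (hO1.symm.trans h2.swap)
    · intro hlt
      exact hord h k z z' hlt hr hr' hBh hBk

end HERN
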