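import Pool.Agent.HERN.St

/-!
# HERN, module SYD: rational sequences
-/

set_option autoImplicit false
set_option linter.unusedVariables false

namespace HERN

open Set Pool.Agent.Helper5.DU Pool.Agent.Helper6.Str Pool.Agent.Helper79.VC
  Pool.Agent.Helper97.LO Pool.Agent.Helper97.VC HER

variable {L : FirstOrder.Language.{0, 0}} {M : Type} {S : L.Structure M} {G : Set M} {n : ℕ}
  {β : Type}

theorem SYD_move {u : ℚ → β → M} (hI : Ind S G n u) {e : ℚ → ℚ} (he : StrictMono e) {s : ℕ}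
    {a : Fin s → ℚ} (ha : Function.Injective a) :
    TE S G n (⋃ j, prs (u (a j)) (u (e (a j)))) := by
  have hb : StrictMono (a ∘ Tuple.sort a) :=
    (Tuple.monotone_sort a).strictMono_of_injective (ha.comp (Tuple.sort a).injective)
  refine (hI s _ _ hb (he.comp hb)).anti ?_
  intro z hz
  obtain ⟨j, p, rfl⟩ := mem_iUnion.1 hz
  obtain ⟨k, rfl⟩ := (Tuple.sort a).surjective j
  exact mem_iUnion.2 ⟨k, p, rfl⟩

theorem SYD_sym {u : ℚ → β → M} {P Q : Set β} (h : Cmm S G n u P Q) : Cmm S G n u Q P := by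
  intro x y hxy C hC
  refine (h x y hxy C hC).symm' ?_
  rintro a ((⟨x, hx, rfl⟩ | ⟨i, hi, rfl⟩) | ⟨i, hi, rfl⟩)
  · exact Or.inl (Or.inl ⟨x, hx, rfl⟩)
  · exact Or.inr ⟨i, hi, rfl⟩
  · exact Or.inl (Or.inr ⟨i, hi, rfl⟩)

theorem thm_SYD (hA : St_SYA) (hB : St_SYB) (hC : St_SYC) : St_SYD := by
  classical
  intro L M S F G n β _ u hR hO hF hG hu hI
  -- the finitely many tuples which meet `F ∪ G`
  have hfin : {x : ℚ | ∃ p, u x p ∈ F ∪ G}.Finite := by
    by_cases hne : Nonempty β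
    · obtain ⟨p0⟩ := hne
      have h1 : ∀ x : ℚ, ∃ p, (∃ p, u x p ∈ F ∪ G) → u x p ∈ F ∪ G := by
        intro x
        by_cases h : ∃ p, u x p ∈ F ∪ G
        · obtain ⟨p, hp⟩ := h
          exact ⟨p, fun _ => hp⟩
        · exact ⟨p0, fun h' => absurd h' h⟩
      choose f hf using h1
      refine Set.Finite.of_injOn (f := fun x => u x (f x)) (t := F ∪ G) ?_ ?_ (hF.union hG)
      · intro x hx
        exact hf x hx
      · intro x _ y _ hxy
        exact (hu x _ y _ hxy).1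
    · refine Set.Finite.subset Set.finite_empty ?_
      rintro x ⟨p, -⟩
      exact absurd ⟨p⟩ hne
  obtain ⟨r, hr⟩ := hfin.bddAbove
  obtain ⟨e⟩ := Order.embedding_from_countable_to_dense ℚ (Set.Ioi r)
  have he : StrictMono fun x => ((e x : Set.Ioi r) : ℚ) := fun x y hxy =>
    (e.strictMono hxy : e x < e y)
  have hoff : ∀ x p, u (e x) p ∉ F ∪ G := by
    intro x p h
    have h1 := hr ⟨p, h⟩
    exact absurd (e x).2 (not_lt.2 h1)
  have hu' : ∀ x p y q, u (e x) p = u (e y) q → x = y ∧ p = q := by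
    intro x p y q h
    obtain ⟨h1, h2⟩ := hu _ _ _ _ h
    exact ⟨e.injective (Subtype.ext h1), h2⟩
  have hI' : Ind S G n (fun x => u (e x)) := by
    intro s a a' ha ha'
    exact hI s _ _ (he.comp ha) (he.comp ha')
  have hcm : Cmm S G n (fun x => u (e x)) univ univ := by
    by_contra hcon
    have h1 : ∃ m : ℕ, ∃ P Q : Set β, Q.ncard = m ∧ ¬ Cmm S G n (fun x => u (e x)) P Q :=
      ⟨_, univ, univ, rfl, hcon⟩
    obtain ⟨P0, Q, hQ, hPQ0⟩ := Nat.find_spec h1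
    have hminQ : ∀ P' Q' : Set β, Q'.ncard < Q.ncard → Cmm S G n (fun x => u (e x)) P' Q' := by
      intro P' Q' h
      by_contra hc
      exact Nat.find_min h1 (by rw [← hQ]; exact h) ⟨P', Q', rfl, hc⟩
    have h2 : ∃ m : ℕ, ∃ P : Set β, P.ncard = m ∧ ¬ Cmm S G n (fun x => u (e x)) P Q :=
      ⟨_, P0, rfl, hPQ0⟩
    obtain ⟨P, hP, hPQ⟩ := Nat.find_spec h2
    have hminP : ∀ P' : Set β, P'.ncard < P.ncard → Cmm S G n (fun x => u (e x)) P' Q := by
      intro P' h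
      by_contra hc
      exact Nat.find_min h2 (by rw [← hP]; exact h) ⟨P', rfl, hc⟩
    by_cases hQQ : Cmm S G n (fun x => u (e x)) Q Q
    · exact hB L M S F G n β (fun x => u (e x)) P Q hR hF hG hu' hoff hI' hPQ
        (fun P' hP' => hminP P' (Set.ncard_lt_ncard hP' (Set.toFinite _)))
        (fun Q' hQ' => hminQ P Q' (Set.ncard_lt_ncard hQ' (Set.toFinite _))) hQQ
    · exact hC L M S F G n β (fun x => u (e x)) Q hO hF hG hu' hoff hI' hQQ
        (fun Q' hQ' => SYD_sym (hminQ Q Q' (Set.ncard_lt_ncard hQ' (Set.toFinite _))))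
  have hT := hA L M S G n β (fun x => u (e x)) hu' hI' hcm
  intro s a a' ha ha'
  have h1 := SYD_move hI he ha
  have h2 := hT s a a' ha ha'
  have h3 := (SYD_move hI he ha').symm
  refine (h1.comp h2 (r := ⋃ j, prs (u (a j)) (u (e (a' j)))) ?_).comp h3 ?_
  · intro z hz
    obtain ⟨j, p, rfl⟩ := mem_iUnion.1 hz
    exact ⟨u (e (a j)) p, mem_iUnion.2 ⟨j, p, rfl⟩, mem_iUnion.2 ⟨j, p, rfl⟩⟩
  · intro z hz
    obtain ⟨j, p, rfl⟩ := mem_iUnion.1 hz
    exact ⟨u (e (a' j)) p, mem_iUnion.2 ⟨j, p, rfl⟩, mem_iUnion.2 ⟨j, p, rfl⟩⟩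

end HERN
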