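import Pool.Agent.HERN.St

/-!
# HERN, module SYM: sequences of length `ω₁` are totally indiscernible
-/

set_option autoImplicit false
set_option linter.unusedVariables false

namespace HERN

open Set Pool.Agent.Helper5.DU Pool.Agent.Helper6.Str Pool.Agent.Helper79.VC
  Pool.Agent.Helper97.LO Pool.Agent.Helper97.VC HER

variable {L : FirstOrder.Language.{0, 0}} {M N : Type}

/-- transfer of types along partial isomorphisms -/
private theorem SYM_tr {S : L.Structure M} {T : L.Structure N} {m n : ℕ} {g : Fin m → M}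
    {g' : Fin m → N} {r1 r2 : Set (M × N)} {p : Set (M × M)} {p' : Set (N × N)}
    (h1 : AtEq S T (prs g g' ∪ r1)) (h2 : AtEq S T (prs g g' ∪ r2)) (h : TE S (range g) n p)
    (hp : ∀ z ∈ p', ∃ x ∈ p, (x.1, z.1) ∈ r1 ∧ (x.2, z.2) ∈ r2) : TE T (range g') n p' := by
  intro q hq hn
  choose f hf using fun z : q => hp z (hq z.2)
  have h3 := h (range f) (by rintro _ ⟨z, rfl⟩; exact (hf z).1) (by
    rw [← image_univ]
    refine (encard_image_le _ _).trans ?_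
    rw [encard_univ]
    exact hn)
  have h4 : AtEq T S (Prod.swap '' (prs g g' ∪ r1)) := by
    refine AtEq.symm' h1 ?_
    rintro _ ⟨a, ha, rfl⟩
    exact ha
  have h5 := (AtEq.comp' h4 h3 (r := Prod.swap '' prs g g' ∪ range fun z : q => (z.1.1, (f z).2)) ?_)
  · refine AtEq.comp' h5 h2 ?_
    rintro a (⟨x, ⟨i, rfl⟩, rfl⟩ | ha)
    · exact ⟨g i, Or.inl ⟨(g i, g' i), ⟨i, rfl⟩, rfl⟩, Or.inl ⟨i, rfl⟩⟩
    · exact ⟨(f ⟨a, ha⟩).2, Or.inr ⟨⟨a, ha⟩, rfl⟩, Or.inr (hf ⟨a, ha⟩).2.2⟩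
  · rintro a (⟨_, ⟨i, rfl⟩, rfl⟩ | ⟨z, rfl⟩)
    · exact ⟨g i, ⟨(g i, g' i), Or.inl ⟨i, rfl⟩, rfl⟩, Or.inl ⟨g i, ⟨i, rfl⟩, rfl⟩⟩
    · exact ⟨(f z).1, ⟨((f z).1, z.1.1), Or.inr (hf z).2.1, rfl⟩, Or.inr ⟨z, rfl⟩⟩

/-- transfer in the other direction -/
private theorem SYM_tr' {S : L.Structure M} {T : L.Structure N} {m n : ℕ} {g : Fin m → M}
    {g' : Fin m → N} {r1 r2 : Set (M × N)} {p : Set (M × M)} {p' : Set (N × N)}
    (h1 : AtEq S T (prs g g' ∪ r1)) (h2 : AtEq S T (prs g g' ∪ r2)) (h : TE T (range g') n p')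
    (hp : ∀ x ∈ p, ∃ z ∈ p', (x.1, z.1) ∈ r1 ∧ (x.2, z.2) ∈ r2) : TE S (range g) n p := by
  refine SYM_tr (r1 := Prod.swap '' r1) (r2 := Prod.swap '' r2) (AtEq.symm' h1 ?_) (AtEq.symm' h2 ?_) h ?_
  · rintro a (⟨i, rfl⟩ | ⟨b, hb, rfl⟩)
    · exact Or.inl ⟨i, rfl⟩
    · exact Or.inr hb
  · rintro a (⟨i, rfl⟩ | ⟨b, hb, rfl⟩)
    · exact Or.inl ⟨i, rfl⟩
    · exact Or.inr hb
  · intro x hx
    obtain ⟨z, hz, hz1, hz2⟩ := hp x hx
    exact ⟨z, hz, ⟨_, hz1, rfl⟩, ⟨_, hz2, rfl⟩⟩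

private theorem SYM_ind {S : L.Structure M} {G : Set M} {n : ℕ} {β J : Type} [LinearOrder J]
    {W : J → β → M} (h : Ind S G n W) {s : ℕ} (a a' : Fin s → J) (ha : Function.Injective a)
    (haa : ∀ i j, a i < a j ↔ a' i < a' j) : TE S G n (⋃ j, prs (W (a j)) (W (a' j))) := by
  have h1 : StrictMono (a ∘ Tuple.sort a) :=
    (Tuple.monotone_sort a).strictMono_of_injective (ha.comp (Tuple.sort a).injective)
  have h2 : StrictMono (a' ∘ Tuple.sort a) := fun i j hij => (haa _ _).1 (h1 hij)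
  refine (h s _ _ h1 h2).anti ?_
  intro x hx
  obtain ⟨j, hj⟩ := mem_iUnion.1 hx
  refine mem_iUnion.2 ⟨(Tuple.sort a).symm j, ?_⟩
  simpa using hj

theorem thm_SYM (hD : St_SYD) (hR : St_ROWS) (hO : St_ORDB) : St_SYM := by
  intro L M S F hV G n β _ W hG hF hW hI
  obtain ⟨m, g, hg⟩ : ∃ (m : ℕ) (g : Fin m → M), range g = G := by
    obtain ⟨m, ⟨e⟩⟩ := (hG.to_subtype).exists_equiv_fin
    refine ⟨m, fun i => (e.symm i : M), ?_⟩
    ext x
    constructor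
    · rintro ⟨i, rfl⟩
      exact (e.symm i).2
    · intro hx
      exact ⟨e ⟨x, hx⟩, by simp⟩
  subst hg
  obtain ⟨N, T, F', g', u, hF', hP, hu⟩ := hV β m W g hW
  -- general form for injective tuples of rationals
  have hu' : ∀ (s : ℕ) (q : Fin s → ℚ), Function.Injective q →
      ∃ a : Fin s → Om, (∀ i j, q i < q j ↔ a i < a j) ∧ Function.Injective a ∧
        AtEq S T (prs g g' ∪ ⋃ j, prs (W (a j)) (u (q j))) := by
    intro s q hq
    have h1 : StrictMono (q ∘ Tuple.sort q) :=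
      (Tuple.monotone_sort q).strictMono_of_injective (hq.comp (Tuple.sort q).injective)
    obtain ⟨a, ha, haT⟩ := hu s _ h1
    refine ⟨a ∘ (Tuple.sort q).symm, fun i j => ?_, ha.injective.comp (Equiv.injective _), ?_⟩
    · have h2 := h1.lt_iff_lt (a := (Tuple.sort q).symm i) (b := (Tuple.sort q).symm j)
      have h3 := ha.lt_iff_lt (a := (Tuple.sort q).symm i) (b := (Tuple.sort q).symm j)
      simp only [Function.comp_apply, Equiv.apply_symm_apply] at h2 ⊢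
      rw [h2, h3]
    · refine haT.anti (union_subset_union_right _ ?_)
      intro x hx
      obtain ⟨j, hj⟩ := mem_iUnion.1 hx
      refine mem_iUnion.2 ⟨(Tuple.sort q).symm j, ?_⟩
      simpa using hj
  have huinj : ∀ x p y q, u x p = u y q → x = y ∧ p = q := by
    intro x p y q hxy
    by_cases hxy' : x = y
    · subst hxy'
      obtain ⟨a, -, -, haT⟩ := hu' 1 (fun _ => x) (fun i j _ => Subsingleton.elim i j)
      refine ⟨rfl, ?_⟩
      have h1 := (haT.1 (W (a 0) p, u x p) (Or.inr (mem_iUnion.2 ⟨0, p, rfl⟩))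
        (W (a 0) q, u x q) (Or.inr (mem_iUnion.2 ⟨0, q, rfl⟩))).2 hxy
      exact (hW _ _ _ _ h1).2
    · exfalso
      obtain ⟨a, -, hai, haT⟩ := hu' 2 ![x, y] (by
        intro i j hij
        fin_cases i <;> fin_cases j <;> simp_all)
      have h1 := (haT.1 (W (a 0) p, u x p) (Or.inr (mem_iUnion.2 ⟨0, p, rfl⟩))
        (W (a 1) q, u y q) (Or.inr (mem_iUnion.2 ⟨1, q, rfl⟩))).2 hxy
      have h2 := hai (hW _ _ _ _ h1).1
      exact absurd h2 (by decide)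
  have hIu : Ind T (range g') n u := by
    intro s a a' ha ha'
    obtain ⟨b, hb, hbT⟩ := hu s a ha
    obtain ⟨b', hb', hbT'⟩ := hu s a' ha'
    refine SYM_tr hbT hbT' (hI s b b' hb hb') ?_
    intro z hz
    obtain ⟨j, p, rfl⟩ := mem_iUnion.1 hz
    exact ⟨(W (b j) p, W (b' j) p), mem_iUnion.2 ⟨j, p, rfl⟩, mem_iUnion.2 ⟨j, p, rfl⟩,
      mem_iUnion.2 ⟨j, p, rfl⟩⟩
  have hT : TInd T (range g') n u := hD L N T F' (range g') n β u (hR L N T F' hF' hP)
    (hO L N T F' hF' hP) hF' (finite_range g') huinj hIu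
  intro s a a' ha ha'
  -- rationals with the same order pattern
  have hq : ∀ a : Fin s → Om, Function.Injective a → ∃ q : Fin s → ℚ, Function.Injective q ∧
      ∀ i j, q i < q j ↔ a i < a j := by
    intro a ha
    have h1 : StrictMono (a ∘ Tuple.sort a) :=
      (Tuple.monotone_sort a).strictMono_of_injective (ha.comp (Tuple.sort a).injective)
    refine ⟨fun i => (((Tuple.sort a).symm i : Fin s) : ℕ), ?_, fun i j => ?_⟩
    · intro i j hij
      have hij' : ((((Tuple.sort a).symm i : Fin s) : ℕ) : ℚ) =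
        (((Tuple.sort a).symm j : Fin s) : ℕ) := hij
      have : ((Tuple.sort a).symm i : ℕ) = ((Tuple.sort a).symm j : ℕ) := by exact_mod_cast hij'
      exact (Tuple.sort a).symm.injective (Fin.ext this)
    · have h2 := h1.lt_iff_lt (a := (Tuple.sort a).symm i) (b := (Tuple.sort a).symm j)
      simp only [Function.comp_apply, Equiv.apply_symm_apply] at h2
      rw [h2]
      simp only [Nat.cast_lt, Fin.val_fin_lt]
  obtain ⟨q, hqi, hq1⟩ := hq a ha
  obtain ⟨q', hqi', hq1'⟩ := hq a' ha'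
  obtain ⟨b, hb1, hbi, hbT⟩ := hu' s q hqi
  obtain ⟨b', hb1', hbi', hbT'⟩ := hu' s q' hqi'
  have e1 : TE S (range g) n (⋃ j, prs (W (a j)) (W (b j))) :=
    SYM_ind hI a b ha fun i j => by rw [← hq1, hb1]
  have e2 : TE S (range g) n (⋃ j, prs (W (b j)) (W (b' j))) := by
    refine SYM_tr' hbT hbT' (hT s q q' hqi hqi') ?_
    intro x hx
    obtain ⟨j, p, rfl⟩ := mem_iUnion.1 hx
    exact ⟨(u (q j) p, u (q' j) p), mem_iUnion.2 ⟨j, p, rfl⟩, mem_iUnion.2 ⟨j, p, rfl⟩,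
      mem_iUnion.2 ⟨j, p, rfl⟩⟩
  have e3 : TE S (range g) n (⋃ j, prs (W (b' j)) (W (a' j))) :=
    SYM_ind hI b' a' hbi' fun i j => by rw [← hb1', hq1']
  have e4 : TE S (range g) n (⋃ j, prs (W (a j)) (W (b' j))) := by
    refine e1.comp e2 ?_
    intro x hx
    obtain ⟨j, p, rfl⟩ := mem_iUnion.1 hx
    exact ⟨W (b j) p, mem_iUnion.2 ⟨j, p, rfl⟩, mem_iUnion.2 ⟨j, p, rfl⟩⟩
  refine e4.comp e3 ?_
  intro x hx
  obtain ⟨j, p, rfl⟩ := mem_iUnion.1 hx
  exact ⟨W (b' j) p, mem_iUnion.2 ⟨j, p, rfl⟩, mem_iUnion.2 ⟨j, p, rfl⟩⟩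

end HERN
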