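import Pool.Agent.HERN.St

/-!
# HERN [TAMN]: the large structure is tame
-/

set_option autoImplicit false
set_option linter.unusedVariables false

namespace HERN

open Set Pool.Agent.Helper5.DU Pool.Agent.Helper6.Str Pool.Agent.Helper79.VC
  Pool.Agent.Helper97.LO Pool.Agent.Helper97.VC HER

variable {L : FirstOrder.Language.{0, 0}} {M : Type} {S : L.Structure M} {A : Set M}
  {B : M → Set M}

theorem TAMN_mem_dg {X : Set M} {a : M × M} : a ∈ dg X ↔ ∃ x ∈ X, a = (x, x) := by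
  constructor
  · rintro ⟨x, hx, rfl⟩
    exact ⟨x, hx, rfl⟩
  · rintro ⟨x, hx, rfl⟩
    exact ⟨x, hx, rfl⟩

theorem TAMN_symm {x y : M} (hx : x ∈ B x) (h : BIN S A B x y) : BIN S A B y x := by
  obtain ⟨h, hb, hxy, hat⟩ := h
  have : Nonempty M := ⟨x⟩
  have hinv := hb.invOn_invFunOn
  have hg : BijOn (Function.invFunOn h (B x)) (B y) (B x) := hb.symm hinv.symm
  refine ⟨Function.invFunOn h (B x), hg, ?_, AtEq.symm' hat ?_⟩
  · rw [← hxy]
    exact hinv.1 hx
  · rintro ⟨a, a'⟩ (ha | ⟨ha, ha'⟩)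
    · obtain ⟨z, hz, hzz⟩ := TAMN_mem_dg.mp ha
      rw [Prod.mk.injEq] at hzz
      refine Or.inl (TAMN_mem_dg.mpr ⟨z, hz, ?_⟩)
      rw [hzz.1, hzz.2]
    · refine Or.inr ⟨?_, ?_⟩
      · show a' ∈ B x
        have ha'' : a' = Function.invFunOn h (B x) a := ha'
        rw [ha'']
        exact hg.mapsTo ha
      · show a = h a'
        have ha'' : a' = Function.invFunOn h (B x) a := ha'
        rw [ha'']
        exact (hinv.2 ha).symm

theorem TAMN_trans {x y z : M} (h1 : BIN S A B x y) (h2 : BIN S A B y z) :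
    BIN S A B x z := by
  obtain ⟨h, hb, hxy, hat⟩ := h1
  obtain ⟨k, kb, kyz, kat⟩ := h2
  refine ⟨k ∘ h, kb.comp hb, ?_, AtEq.comp' hat kat ?_⟩
  · rw [Function.comp_apply, hxy, kyz]
  · rintro ⟨a, a'⟩ (ha | ⟨ha, ha'⟩)
    · obtain ⟨z, hz, hzz⟩ := TAMN_mem_dg.mp ha
      rw [Prod.mk.injEq] at hzz
      refine ⟨z, Or.inl (TAMN_mem_dg.mpr ⟨z, hz, ?_⟩), Or.inl (TAMN_mem_dg.mpr ⟨z, hz, ?_⟩)⟩
      · rw [hzz.1]
      · rw [hzz.2]
    · exact ⟨h a, Or.inr ⟨ha, rfl⟩, Or.inr ⟨hb.mapsTo ha, ha'⟩⟩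

/-- a countable set with infinitely many blocks of each isomorphism type -/
theorem TAMN_Y0 {T : Set M} (hb : BlkN S A B) (hfin : ∀ x ∉ A, (B x).Finite)
    (hunc : ∀ x ∉ A, ¬ {y | y ∉ A ∧ BIN S A B x y}.Countable) (hT : T.Countable)
    (hTA : ∀ t ∈ T, t ∉ A) (hrep : ∀ x ∉ A, ∃ t ∈ T, BIN S A B t x) :
    ∃ Y0 : Set M, Y0.Countable ∧ A ⊆ Y0 ∧ (∀ x ∈ Y0, x ∉ A → B x ⊆ Y0) ∧
      ∀ u ∉ A, {y | y ∈ Y0 ∧ y ∉ A ∧ BIN S A B u y}.Infinite := by
  classical
  have hZ : ∀ x : M, ∃ Z : Set M, Z.Countable ∧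
      (x ∉ A → Z.Infinite ∧ ∀ y ∈ Z, y ∉ A ∧ BIN S A B x y) := by
    intro x
    by_cases hx : x ∈ A
    · exact ⟨∅, countable_empty, fun h => absurd hx h⟩
    · have hinf : {y | y ∉ A ∧ BIN S A B x y}.Infinite := fun h => hunc x hx h.countable
      refine ⟨range fun n => (hinf.natEmbedding _ n : M), countable_range _, fun _ => ⟨?_, ?_⟩⟩
      · exact infinite_range_of_injective
          (Subtype.val_injective.comp (hinf.natEmbedding _).injective)
      · rintro _ ⟨n, rfl⟩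
        exact (hinf.natEmbedding _ n).2
  choose Z hZ1 hZ2 using hZ
  refine ⟨A ∪ ⋃ x ∈ T, ⋃ y ∈ Z x, B y, ?_, subset_union_left, ?_, ?_⟩
  · refine hb.ctbl.union (hT.biUnion fun x hx => (hZ1 x).biUnion fun y hy => ?_)
    exact (hfin y ((hZ2 x (hTA x hx)).2 y hy).1).countable
  · rintro x (hx | hx) hxA
    · exact absurd hx hxA
    · simp only [mem_iUnion] at hx
      obtain ⟨x', hx', y, hy, hxy⟩ := hx
      have hyA := ((hZ2 x' (hTA x' hx')).2 y hy).1
      have h1 := (hb.out y hyA x hxy).2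
      rw [h1]
      refine subset_union_of_subset_right ?_ _
      intro w hw
      simp only [mem_iUnion]
      exact ⟨x', hx', y, hy, hw⟩
  · intro u hu
    obtain ⟨t, ht, htu⟩ := hrep u hu
    have htA := hTA t ht
    have h1 : BIN S A B u t := TAMN_symm (hb.self t htA) htu
    refine ((hZ2 t htA).1).mono fun y hy => ?_
    have h3 := (hZ2 t htA).2 y hy
    refine ⟨Or.inr ?_, h3.1, TAMN_trans h1 h3.2⟩
    simp only [mem_iUnion]
    exact ⟨t, ht, y, hy, hb.self y h3.1⟩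

/-- isomorphisms between unions of `A` and finitely many blocks -/
structure TAMN_S (S : L.Structure M) (A : Set M) (B : M → Set M) (Y0 : Set M)
    (H : M → M) (D : Set M) : Prop where
  AD : A ⊆ D
  idA : ∀ a ∈ A, H a = a
  fin : (D \ A).Finite
  blk : ∀ x ∈ D, x ∉ A → B x ⊆ D
  outA : ∀ x ∈ D, x ∉ A → H x ∉ A
  img : ∀ x ∈ D, x ∉ A → H '' B x = B (H x)
  inj : InjOn H D
  hat : ∀ x ∈ D, x ∉ A → AtEq S S (dg A ∪ {a | a.1 ∈ B x ∧ a.2 = H a.1})
  hY : ∀ x ∈ D, H x ∈ Y0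

theorem TAMN_ext {Y0 : Set M} (hb : BlkN S A B) (hfin : ∀ x ∉ A, (B x).Finite)
    (hY : ∀ x ∈ Y0, x ∉ A → B x ⊆ Y0) {H : M → M} {D : Set M} (hS : TAMN_S S A B Y0 H D)
    {u y : M} (hu : u ∉ D) (hy : y ∈ Y0) (hyA : y ∉ A) (hyD : y ∉ H '' D)
    (hiso : BIN S A B u y) :
    ∃ (H' : M → M) (D' : Set M), TAMN_S S A B Y0 H' D' ∧ D ⊆ D' ∧ (∀ x ∈ D, H' x = H x) ∧
      u ∈ D' ∧ H' u = y := by
  classical
  obtain ⟨h, hbij, hhu, hat⟩ := hiso
  have huA : u ∉ A := fun h1 => hu (hS.AD h1)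
  have hdis : ∀ w ∈ D, w ∉ B u := by
    intro w hw hwu
    obtain ⟨h1, h2⟩ := hb.out u huA w hwu
    apply hu
    apply hS.blk w hw h1
    rw [h2]
    exact hb.self u huA
  let H' : M → M := fun x => if x ∈ B u then h x else H x
  have H1 : ∀ x ∈ B u, H' x = h x := fun x hx => if_pos hx
  have H2 : ∀ x ∈ D, H' x = H x := fun x hx => if_neg (hdis x hx)
  refine ⟨H', D ∪ B u, ?_, subset_union_left, H2, Or.inr (hb.self u huA), ?_⟩
  · refine ⟨hS.AD.trans subset_union_left, fun a ha => ?_, ?_, ?_, ?_, ?_, ?_, ?_, ?_⟩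
    · rw [H2 a (hS.AD ha), hS.idA a ha]
    · refine (hS.fin.union (hfin u huA)).subset ?_
      rintro x ⟨hx | hx, hxA⟩
      · exact Or.inl ⟨hx, hxA⟩
      · exact Or.inr hx
    · rintro x (hx | hx) hxA
      · exact (hS.blk x hx hxA).trans subset_union_left
      · rw [(hb.out u huA x hx).2]
        exact subset_union_right
    · rintro x (hx | hx) hxA
      · rw [H2 x hx]
        exact hS.outA x hx hxA
      · rw [H1 x hx]
        exact (hb.out y hyA _ (hbij.mapsTo hx)).1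
    · rintro x (hx | hx) hxA
      · rw [H2 x hx, ← hS.img x hx hxA]
        exact image_congr fun w hw => H2 w (hS.blk x hx hxA hw)
      · rw [H1 x hx, (hb.out u huA x hx).2, (hb.out y hyA _ (hbij.mapsTo hx)).2,
          ← hbij.image_eq]
        exact image_congr fun w hw => H1 w hw
    · have key : ∀ x ∈ D, ∀ x' ∈ B u, H x ≠ h x' := by
        intro x hx x' hx' he
        have h1 : H x ∈ B y := by
          rw [he]
          exact hbij.mapsTo hx'
        obtain ⟨h2, h3⟩ := hb.out y hyA _ h1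
        by_cases hxA : x ∈ A
        · rw [hS.idA x hxA] at h2
          exact h2 hxA
        · apply hyD
          have h4 := hb.self y hyA
          rw [← h3, ← hS.img x hx hxA] at h4
          obtain ⟨w, hw, hwy⟩ := h4
          exact ⟨w, hS.blk x hx hxA hw, hwy⟩
      rintro x (hx | hx) x' (hx' | hx') he
      · rw [H2 x hx, H2 x' hx'] at he
        exact hS.inj hx hx' he
      · rw [H2 x hx, H1 x' hx'] at he
        exact absurd he (key x hx x' hx')
      · rw [H1 x hx, H2 x' hx'] at he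
        exact absurd he.symm (key x' hx' x hx)
      · rw [H1 x hx, H1 x' hx'] at he
        exact hbij.injOn hx hx' he
    · rintro x (hx | hx) hxA
      · have e : {a : M × M | a.1 ∈ B x ∧ a.2 = H' a.1} = {a | a.1 ∈ B x ∧ a.2 = H a.1} := by
          ext a
          constructor
          · rintro ⟨h1, h2⟩
            exact ⟨h1, by rw [h2, H2 _ (hS.blk x hx hxA h1)]⟩
          · rintro ⟨h1, h2⟩
            exact ⟨h1, by rw [h2, H2 _ (hS.blk x hx hxA h1)]⟩
        rw [e]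
        exact hS.hat x hx hxA
      · have e : {a : M × M | a.1 ∈ B x ∧ a.2 = H' a.1} = {a | a.1 ∈ B u ∧ a.2 = h a.1} := by
          rw [(hb.out u huA x hx).2]
          ext a
          constructor
          · rintro ⟨h1, h2⟩
            exact ⟨h1, by rw [h2, H1 _ h1]⟩
          · rintro ⟨h1, h2⟩
            exact ⟨h1, by rw [h2, H1 _ h1]⟩
        rw [e]
        exact hat
    · rintro x (hx | hx)
      · rw [H2 x hx]
        exact hS.hY x hx
      · rw [H1 x hx]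
        exact hY y hy hyA (hbij.mapsTo hx)
  · rw [H1 u (hb.self u huA), hhu]

/-- the pairs matched by `H` on `D` -/
def TAMN_P (H : M → M) (D : Set M) : Set (M × M) := {q | ∃ u ∈ D, q = (u, H u)}

theorem TAMN_atEq (hb : BlkN S A B) {Y0 : Set M} {H : M → M} {D : Set M}
    (hS : TAMN_S S A B Y0 H D) : AtEq S S (TAMN_P H D) := by
  have h := hb.cross {q | ∃ u ∈ D, u ∉ A ∧ q = (u, H u)} ?_ ?_ ?_
  · refine h.anti ?_
    rintro _ ⟨u, hu, rfl⟩
    by_cases huA : u ∈ A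
    · left
      rw [hS.idA u huA]
      exact TAMN_mem_dg.mpr ⟨u, huA, rfl⟩
    · exact Or.inr ⟨u, hu, huA, rfl⟩
  · rintro _ ⟨u, hu, huA, rfl⟩
    exact ⟨huA, hS.outA u hu huA⟩
  · rintro _ ⟨u, hu, huA, rfl⟩ _ ⟨v, hv, hvA, rfl⟩
    show B u = B v ↔ B (H u) = B (H v)
    constructor
    · intro h1
      rw [← hS.img u hu huA, ← hS.img v hv hvA, h1]
    · intro h1
      have h2 : H v ∈ H '' B u := by
        rw [hS.img u hu huA, h1]
        exact hb.self _ (hS.outA v hv hvA)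
      obtain ⟨w, hw, hwv⟩ := h2
      have h3 := hS.inj (hS.blk u hu huA hw) hv hwv
      rw [h3] at hw
      exact ((hb.out u huA v hw).2).symm
  · intro x hxA
    by_cases hx : ∃ u ∈ D, u ∉ A ∧ u ∈ B x
    · obtain ⟨u, hu, huA, hux⟩ := hx
      have e : B u = B x := (hb.out x hxA u hux).2
      refine (hS.hat u hu huA).anti ?_
      rintro a (ha | ⟨⟨v, hv, hvA, rfl⟩, ha⟩)
      · exact Or.inl ha
      · refine Or.inr ⟨?_, rfl⟩
        rw [e]
        exact ha
    · refine atEq_diag S ?_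
      rintro a (ha | ⟨⟨v, hv, hvA, rfl⟩, ha⟩)
      · obtain ⟨z, -, rfl⟩ := TAMN_mem_dg.mp ha
        rfl
      · exact absurd ⟨v, hv, hvA, ha⟩ hx

theorem TAMN_bfr (hb : BlkN S A B) (hfin : ∀ x ∉ A, (B x).Finite)
    (hunc : ∀ x ∉ A, ¬ {y | y ∉ A ∧ BIN S A B x y}.Countable)
    {Y0 : Set M} (hY : ∀ x ∈ Y0, x ∉ A → B x ⊆ Y0)
    (hYinf : ∀ u ∉ A, {y | y ∈ Y0 ∧ y ∉ A ∧ BIN S A B u y}.Infinite) (γ : Ordinal.{0}) :
    ∀ (H : M → M) (D : Set M), TAMN_S S A B Y0 H D → BFR S S univ Y0 γ (TAMN_P H D) := by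
  induction γ using WellFoundedLT.induction with
  | _ γ ih =>
    intro H D hS
    rw [BFR.def]
    refine ⟨TAMN_atEq hb hS, fun β hβ => ⟨fun u _ => ?_, fun y' hy' => ?_⟩⟩
    · by_cases huD : u ∈ D
      · refine ⟨H u, hS.hY u huD, ?_⟩
        have h1 : insert (u, H u) (TAMN_P H D) = TAMN_P H D := insert_eq_of_mem ⟨u, huD, rfl⟩
        rw [h1]
        exact ih β hβ H D hS
      · have huA : u ∉ A := fun h => huD (hS.AD h)
        obtain ⟨y, ⟨hy1, hy2, hy3⟩, hy4⟩ :=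
          ((hYinf u huA).sdiff (hS.fin.image H)).nonempty
        have hyD : y ∉ H '' D := by
          rintro ⟨w, hw, hwy⟩
          by_cases hwA : w ∈ A
          · apply hy2
            rw [← hwy, hS.idA w hwA]
            exact hwA
          · exact hy4 ⟨w, ⟨hw, hwA⟩, hwy⟩
        obtain ⟨H', D', hS', h1, h2, h3, h4⟩ := TAMN_ext hb hfin hY hS huD hy1 hy2 hyD hy3
        refine ⟨y, hy1, BFR.anti ?_ (ih β hβ H' D' hS')⟩
        rintro q (rfl | ⟨w, hw, rfl⟩)
        · exact ⟨u, h3, by rw [h4]⟩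
        · exact ⟨w, h1 hw, by rw [h2 w hw]⟩
    · by_cases hyD : y' ∈ H '' D
      · obtain ⟨u, hu, rfl⟩ := hyD
        refine ⟨u, mem_univ _, ?_⟩
        have h1 : insert (u, H u) (TAMN_P H D) = TAMN_P H D := insert_eq_of_mem ⟨u, hu, rfl⟩
        rw [h1]
        exact ih β hβ H D hS
      · have hyA : y' ∉ A := fun h => hyD ⟨y', hS.AD h, hS.idA y' h⟩
        obtain ⟨u, ⟨hu1, hu2⟩, hu3⟩ : ∃ u, u ∈ {u | u ∉ A ∧ BIN S A B y' u} ∧ u ∉ D := by
          by_contra hcon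
          push Not at hcon
          apply hunc y' hyA
          refine hS.fin.countable.mono ?_
          intro u hu
          exact ⟨hcon u hu, hu.1⟩
        obtain ⟨H', D', hS', h1, h2, h3, h4⟩ := TAMN_ext hb hfin hY hS hu3 hy' hyA hyD
          (TAMN_symm (hb.self y' hyA) hu2)
        refine ⟨u, mem_univ _, BFR.anti ?_ (ih β hβ H' D' hS')⟩
        rintro q (rfl | ⟨w, hw, rfl⟩)
        · exact ⟨u, h3, by rw [h4]⟩
        · exact ⟨w, h1 hw, by rw [h2 w hw]⟩

/-- [TAMN] -/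
theorem thm_TAMN : St_TAMN := by
  intro L M S A B T hb hfin hunc hT hTA hrep
  obtain ⟨Y0, hY0, hAY, hY, hYinf⟩ := TAMN_Y0 hb hfin hunc hT hTA hrep
  refine ⟨M, S, Y0, hY0, fun γ _ => ?_⟩
  have hS : TAMN_S S A B Y0 id A := by
    refine ⟨subset_rfl, fun a _ => rfl, ?_, fun x hx hxA => absurd hx hxA,
      fun x hx hxA => absurd hx hxA, fun x hx hxA => absurd hx hxA, injOn_id A,
      fun x hx hxA => absurd hx hxA, fun x hx => hAY hx⟩
    rw [sdiff_self]
    exact finite_empty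
  exact BFR.anti (empty_subset _) (TAMN_bfr hb hfin hunc hY hYinf γ id A hS)

end HERN
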