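import Pool.Agent.HERN.St

/-!
# HERN: thinning (module THINB).  helper91.
-/

set_option autoImplicit false

namespace HERN

open Set Pool.Agent.Helper5.DU Pool.Agent.Helper6.Str Pool.Agent.Helper79.VC
  Pool.Agent.Helper97.LO Pool.Agent.Helper97.VC HER

/-- the tuple with the pattern `π`; the values in the infinite part are given by `v` -/
private def THINB_e {k : ℕ} {s : Finset ℕ} (v : Fin k → ℕ) (π : Fin k → s ⊕ Fin k) : Fin k → ℕ :=
  fun j => Sum.elim (fun x : s => (x : ℕ)) v (π j)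

/-- every tuple has a pattern -/
private theorem THINB_pat {k : ℕ} (s : Finset ℕ) (g : ℕ → ℕ) (E : Fin k → ℕ)
    (hE : ∀ j, E j ∈ s ∨ E j ∈ Set.range g) :
    ∃ (π : Fin k → s ⊕ Fin k) (v : Fin k → ℕ), StrictMono v ∧ E = THINB_e (g ∘ v) π := by
  classical
  have h1 : ∀ j, ∃ e : ℕ, E j ∈ s ∨ g e = E j := by
    intro j
    rcases hE j with h | ⟨e, he⟩
    · exact ⟨0, Or.inl h⟩
    · exact ⟨e, Or.inr he⟩
  choose e he using h1
  have h2 : (Finset.univ.image e).card ≤ k := by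
    refine Finset.card_image_le.trans ?_
    rw [Finset.card_univ, Fintype.card_fin]
  obtain ⟨T, hT, hc⟩ := Infinite.exists_superset_card_eq (Finset.univ.image e) k h2
  have h3 : ∀ j, ∃ r : Fin k, T.orderEmbOfFin hc r = e j := by
    intro j
    have h4 : e j ∈ (T : Set ℕ) := Finset.mem_coe.2 (hT (Finset.mem_image_of_mem e (Finset.mem_univ j)))
    rw [← Finset.range_orderEmbOfFin T hc] at h4
    exact h4
  choose r hr using h3
  refine ⟨fun j => if h : E j ∈ s then Sum.inl ⟨E j, h⟩ else Sum.inr (r j),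
    fun x => T.orderEmbOfFin hc x, (T.orderEmbOfFin hc).strictMono, funext fun j => ?_⟩
  show E j = Sum.elim (fun x : s => (x : ℕ)) (g ∘ fun x => T.orderEmbOfFin hc x)
    (if h : E j ∈ s then Sum.inl ⟨E j, h⟩ else Sum.inr (r j))
  by_cases h : E j ∈ s
  · rw [dif_pos h]
    rfl
  · rw [dif_neg h]
    have h5 := (he j).resolve_left h
    rw [← h5, ← hr j]
    rfl

/-- an injection whose first values are in a finite set -/
private theorem THINB_inj (S : Finset ℕ) (n : ℕ) (hn : n < S.card) :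
    ∃ ψ : ℕ → ℕ, Function.Injective ψ ∧ ∀ m, m ≤ n → ψ m ∈ S := by
  classical
  obtain ⟨B, hB⟩ : ∃ B, ∀ x ∈ S, x < B := ⟨S.sup id + 1, fun x hx =>
    Nat.lt_succ_of_le (Finset.le_sup (f := id) hx)⟩
  refine ⟨fun m => if h : m < S.card then S.orderEmbOfFin rfl ⟨m, h⟩ else B + m, ?_, ?_⟩
  · intro a b hab
    have hab : (if h : a < S.card then S.orderEmbOfFin rfl ⟨a, h⟩ else B + a) =
      if h : b < S.card then S.orderEmbOfFin rfl ⟨b, h⟩ else B + b := hab
    by_cases ha : a < S.card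
    · by_cases hb : b < S.card
      · rw [dif_pos ha, dif_pos hb] at hab
        exact congrArg Fin.val ((S.orderEmbOfFin rfl).injective hab)
      · rw [dif_pos ha, dif_neg hb] at hab
        have := hB _ (S.orderEmbOfFin_mem rfl ⟨a, ha⟩)
        omega
    · by_cases hb : b < S.card
      · rw [dif_neg ha, dif_pos hb] at hab
        have := hB _ (S.orderEmbOfFin_mem rfl ⟨b, hb⟩)
        omega
      · rw [dif_neg ha, dif_neg hb] at hab
        omega
  · intro m hm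
    have h : m < S.card := lt_of_le_of_lt hm hn
    show (if h : m < S.card then S.orderEmbOfFin rfl ⟨m, h⟩ else B + m) ∈ S
    rw [dif_pos h]
    exact S.orderEmbOfFin_mem rfl ⟨m, h⟩

/-- the first `n + 1` elements of the row `a` have the same colours -/
private def THINB_P {C : Type} {k : ℕ} (c : ℕ → ℕ → (Fin k → ℕ) → C) (n : ℕ) (s : Finset ℕ)
    (a : ℕ) (H : Set ℕ) : Prop :=
  ∃ ψ : ℕ → ℕ, Function.Injective ψ ∧ ∀ m m', m ≤ n → m' ≤ n → ∀ E : Fin k → ℕ,
    (∀ j, E j ∈ s ∨ E j ∈ H) → c a (ψ m) E = c a (ψ m') E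

/-- one row -/
private theorem THINB_row (hR : St_RAMN) {C : Type} [Finite C] {k : ℕ}
    (c : ℕ → ℕ → (Fin k → ℕ) → C) (n : ℕ) (s : Finset ℕ) (a : ℕ) (H : Set ℕ) (hH : H.Infinite) :
    ∃ H' ⊆ H, H'.Infinite ∧ THINB_P c n s a H' := by
  classical
  have : Fintype C := Fintype.ofFinite C
  obtain ⟨h, hh, hhH⟩ : ∃ h : ℕ → ℕ, StrictMono h ∧ ∀ x, h x ∈ H :=
    ⟨Nat.nth (· ∈ H), Nat.nth_strictMono hH, fun x => Nat.nth_mem_of_infinite hH x⟩
  let N : ℕ := Fintype.card ((Fin k → s ⊕ Fin k) → C) * n + 1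
  obtain ⟨φ, κ, hφ, hκ⟩ := hR ((Fin k → s ⊕ Fin k) → Fin N → C) k
    fun v π m => c a m (THINB_e (h ∘ v) π)
  have hpig : Fintype.card ((Fin k → s ⊕ Fin k) → C) * n < Fintype.card (Fin N) := by
    rw [Fintype.card_fin]
    exact Nat.lt_succ_self _
  obtain ⟨y, hy⟩ := Fintype.exists_lt_card_fiber_of_mul_lt_card
    (fun (m : Fin N) (π : Fin k → s ⊕ Fin k) => κ π m) hpig
  obtain ⟨ψ, hψ1, hψ2⟩ := THINB_inj ((Finset.univ.filter fun m : Fin N =>
    (fun π : Fin k → s ⊕ Fin k => κ π m) = y).map Fin.valEmbedding) n (by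
      rw [Finset.card_map]
      exact hy)
  refine ⟨Set.range (h ∘ φ), ?_, Set.infinite_range_of_injective (hh.comp hφ).injective, ψ, hψ1, ?_⟩
  · rintro _ ⟨x, rfl⟩
    exact hhH _
  · have key : ∀ m, m ≤ n → ∀ (π : Fin k → s ⊕ Fin k) (v : Fin k → ℕ), StrictMono v →
        c a (ψ m) (THINB_e (h ∘ φ ∘ v) π) = y π := by
      intro m hm π v hv
      have h1 := hψ2 m hm
      rw [Finset.mem_map] at h1
      obtain ⟨m0, h2, h3⟩ := h1
      have h3 : (m0 : ℕ) = ψ m := h3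
      rw [Finset.mem_filter] at h2
      have h4 := congrFun h2.2 π
      have h5 := congrFun (congrFun (hκ v hv) π) m0
      rw [← h3]
      exact h5.trans h4
    intro m m' hm hm' E hE
    obtain ⟨π, v, hv, rfl⟩ := THINB_pat s (h ∘ φ) E hE
    exact (key m hm π v hv).trans (key m' hm' π v hv).symm

/-- THINB: thinning -/
theorem thm_THINB (hR : St_RAMN) : St_THINB := by
  intro C _ k c
  let T : Type := {p : Finset ℕ × ℕ × Set ℕ // p.2.2.Infinite}
  have step : ∀ (n : ℕ) (p : T), ∃ q : T, q.1.2.1 ∈ p.1.2.2 ∧ q.1.1 = insert q.1.2.1 p.1.1 ∧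
      q.1.2.2 ⊆ p.1.2.2 ∧ (∀ x ∈ q.1.2.2, q.1.2.1 < x) ∧ THINB_P c n q.1.1 q.1.2.1 q.1.2.2 := by
    rintro n ⟨⟨s, b, H⟩, hH⟩
    obtain ⟨a, ha⟩ := Set.Infinite.nonempty hH
    have h1 : (H \ Set.Iic a).Infinite := Set.Infinite.sdiff hH (Set.finite_Iic a)
    obtain ⟨H', h2, h3, h4⟩ := THINB_row hR c n (insert a s) a _ h1
    exact ⟨⟨⟨insert a s, a, H'⟩, h3⟩, ha, rfl, fun x hx => (h2 hx).1,
      fun x hx => not_le.1 (h2 hx).2, h4⟩
  choose f hf1 hf2 hf3 hf4 hf5 using step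
  let σ : ℕ → T := fun n => Nat.rec ⟨⟨∅, 0, Set.univ⟩, Set.infinite_univ⟩ (fun n p => f n p) n
  have hs : ∀ n, σ (n + 1) = f n (σ n) := fun n => rfl
  let φ : ℕ → ℕ := fun n => (σ (n + 1)).1.2.1
  have h1 : ∀ n, φ n ∈ (σ n).1.2.2 := fun n => hf1 n (σ n)
  have h2 : StrictMono φ := strictMono_nat_of_lt_succ fun n => hf4 n (σ n) _ (h1 (n + 1))
  have h3 : ∀ n j, j < n → φ j ∈ (σ n).1.1 := by
    intro n
    induction n with
    | zero => exact fun j hj => absurd hj (Nat.not_lt_zero j)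
    | succ n ih =>
      intro j hj
      rw [hs, hf2]
      rcases Nat.lt_succ_iff_lt_or_eq.1 hj with h | h
      · exact Finset.mem_insert_of_mem (ih j h)
      · rw [h]
        exact Finset.mem_insert_self _ _
  have h4 : Antitone fun n => (σ n).1.2.2 := antitone_nat_of_succ_le fun n => hf3 n (σ n)
  choose ψ hψ1 hψ2 using fun n => hf5 n (σ n)
  refine ⟨φ, ψ, h2, hψ1, fun i m m' hm hm' E => hψ2 i m m' hm hm' (φ ∘ E) fun j => ?_⟩
  rcases Nat.lt_or_ge (E j) (i + 1) with h | h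
  · exact Or.inl (h3 (i + 1) (E j) h)
  · exact Or.inr (h4 h (h1 (E j)))

end HERN
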