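import Pool.Agent.HERN.St
import Pool.Agent.HERN.INC

/-!
# HERN: uniform systems are commuting
-/

set_option autoImplicit false

namespace HERN

open Set Pool.Agent.Helper5.DU Pool.Agent.Helper6.Str Pool.Agent.Helper79.VC
  Pool.Agent.Helper97.LO Pool.Agent.Helper97.VC HER

/-- a strictly increasing sequence of countable ordinals -/
theorem CU_seq : ∃ o : ℕ → Om, StrictMono o := by
  choose o ho using fun n : ℕ => od_surj (natCast_lt_om1 n)
  refine ⟨o, fun a b hab => ?_⟩
  rw [← od_lt_od, ho, ho]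
  exact_mod_cast hab

/-- the elements of a set of systems -/
private def CU_el {M X : Type} (D : Set (X → M)) : Set M := {x | ∃ v ∈ D, x ∈ range v}

theorem thm_CU (hQ : St_SQC) (hI : St_INC) : St_CU := by
  intro L M S F G n I _ β _ V cl hSym hGf hFG hG hP hDat
  have hcl := hP.icl
  obtain ⟨K, ⟨e⟩⟩ := Finite.exists_equiv_fin I
  -- the sequence of systems
  obtain ⟨W, hWY, hWR⟩ := hQ ((Σ i, β i) → M) {v | ∀ i, (fun p => v ⟨i, p⟩) ∈ V i}
    (fun D v => Gen cl (CU_el D) (fun i => (e i : ℕ)) (fun i p => v ⟨i, p⟩)) (by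
      intro D _ hD
      have hc : (CU_el D).Countable := countable_ranges hD
      obtain ⟨w, hw, hg⟩ := INC_exists (J := I) hcl (fun i => (hG i).fam) (fun i => i)
        (fun i => (e i : ℕ)) (CU_el D) hc
      exact ⟨fun x => w x.1 x.2, hw, hg⟩)
  have hWoff : ∀ (a : Om) (i : I), Off (cl ({x | ∃ a' < a, x ∈ range (W a')} ∪
      {x | ∃ i', (e i' : ℕ) < e i ∧ x ∈ range (fun p => W a ⟨i', p⟩)}))
      (fun p => W a ⟨i, p⟩) := by
    intro a i
    refine (hWR a i).anti (hcl.mono _ _ (union_subset_union_left _ ?_))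
    rintro x ⟨a', ha', hx⟩
    exact ⟨W a', ⟨a', ha', rfl⟩, hx⟩
  have hWlt : ∀ a p a' p', a < a' → W a p ≠ W a' p' := by
    intro a p a' p' h h1
    refine hWoff a' p'.1 p'.2 (hcl.sub _ (Or.inl ⟨a, h, ?_⟩))
    exact ⟨p, h1⟩
  have hWinj : ∀ a p a' p', W a p = W a' p' → a = a' ∧ p = p' := by
    intro a p a' p' h
    rcases lt_trichotomy a a' with h1 | h1 | h1
    · exact absurd h (hWlt a p a' p' h1)
    · subst h1
      refine ⟨rfl, ?_⟩
      obtain ⟨i, p⟩ := p
      obtain ⟨i', p'⟩ := p'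
      by_cases hii : i = i'
      · subst hii
        have h2 := (hG i).fam.inj (hWY a i) (a₁ := p) (a₂ := p') h
        rw [h2]
      · exact absurd h (Gen.disj (hWR a) hcl
          (fun x y hxy => e.injective (Fin.ext hxy)) hii p p')
    · exact absurd h.symm (hWlt a' p' a p h1)
  -- the sequence is indiscernible
  have hind : Ind S G (n + 1) W := by
    intro s a a' ha ha'
    have hrk : Function.Injective (fun x : Fin s × I => (x.1 : ℕ) * K + (e x.2 : ℕ)) := by
      rintro ⟨j, i⟩ ⟨j', i'⟩ h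
      have h1 := (e i).2
      have h2 := (e i').2
      have h3 : (j : ℕ) * K + (e i : ℕ) = (j' : ℕ) * K + (e i' : ℕ) := h
      have h4 : (j : ℕ) = j' := by
        by_contra hne
        rcases lt_or_gt_of_ne hne with h5 | h5
        · have h6 : ((j : ℕ) + 1) * K ≤ (j' : ℕ) * K := Nat.mul_le_mul_right K h5
          rw [add_mul, one_mul] at h6
          omega
        · have h6 : ((j' : ℕ) + 1) * K ≤ (j : ℕ) * K := Nat.mul_le_mul_right K h5
          rw [add_mul, one_mul] at h6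
          omega
      have h5 : (e i : ℕ) = e i' := by
        rw [h4] at h3
        omega
      exact Prod.ext (Fin.ext h4) (e.injective (Fin.ext h5))
    have hgen : ∀ b : Fin s → Om, StrictMono b →
        Gen cl ∅ (fun x : Fin s × I => (x.1 : ℕ) * K + (e x.2 : ℕ))
          (fun x : Fin s × I => fun p : β x.2 => W (b x.1) ⟨x.2, p⟩) := by
      intro b hb x
      refine (hWoff (b x.1) x.2).anti (hcl.mono _ _ ?_)
      rintro y (hy | ⟨x', hx', hy⟩)
      · exact absurd hy (notMem_empty y)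
      · have h1 := (e x.2).2
        have h3 : (x'.1 : ℕ) * K + (e x'.2 : ℕ) < (x.1 : ℕ) * K + (e x.2 : ℕ) := hx'
        rcases lt_trichotomy (x'.1 : ℕ) x.1 with h4 | h4 | h4
        · left
          refine ⟨b x'.1, hb h4, ?_⟩
          obtain ⟨p, hp⟩ := hy
          exact ⟨⟨x'.2, p⟩, hp⟩
        · right
          have h5 : x'.1 = x.1 := Fin.ext h4
          rw [h4] at h3
          refine ⟨x'.2, by omega, ?_⟩
          obtain ⟨p, hp⟩ := hy
          refine ⟨p, ?_⟩
          rw [← h5]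
          exact hp
        · exfalso
          have h6 : ((x.1 : ℕ) + 1) * K ≤ (x'.1 : ℕ) * K := Nat.mul_le_mul_right K h4
          rw [add_mul, one_mul] at h6
          omega
    have h := hI L M S G n I β V cl hG hP hDat (Fin s × I) (fun x => x.2)
      (fun x p => W (a x.1) ⟨x.2, p⟩) (fun x p => W (a' x.1) ⟨x.2, p⟩)
      (fun x : Fin s × I => (x.1 : ℕ) * K + (e x.2 : ℕ)) hrk (fun x => hWY (a x.1) x.2)
      (fun x => hWY (a' x.1) x.2) (hgen a ha) (hgen a' ha')
    refine h.anti ?_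
    intro x hx
    obtain ⟨j, p, hp⟩ := mem_iUnion.1 hx
    exact mem_iUnion.2 ⟨(j, p.1), p.2, hp⟩
  have htot : TInd S G (n + 1) W := hSym G (n + 1) (Σ i, β i) W hGf hFG hWinj hind
  obtain ⟨o, ho⟩ := CU_seq
  refine ⟨hcl, ?_⟩
  intro J _ l w w' rk rk' A hA hrk hrk' hw hw' hg hg' q hq hn
  by_cases hqA : ∃ g ∈ A, (g, g) ∈ q
  · obtain ⟨g, hgA, hgq⟩ := hqA
    exact (hP.com J l w w' rk rk' A hA hrk hrk' hw hw' hg hg' g hgA).of_insertG hq hn hgq
  · have hq' : q ⊆ ⋃ j, prs (w j) (w' j) := by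
      intro a ha
      rcases hq ha with ⟨x, hx, rfl⟩ | h
      · exact absurd ⟨x, hx, ha⟩ hqA
      · exact h
    have hgen : ∀ r : J → ℕ, Gen cl ∅ r
        (fun j : J => fun p : β (l j) => W (o (r j)) ⟨l j, p⟩) := by
      intro r j
      refine (hWoff (o (r j)) (l j)).anti (hcl.mono _ _ ?_)
      rintro y (hy | ⟨i, hi, p, hp⟩)
      · exact absurd hy (notMem_empty y)
      · left
        exact ⟨o (r i), ho hi, ⟨l i, p⟩, hp⟩
    have h1 := hI L M S G n I β V cl hG hP hDat J l w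
      (fun j p => W (o (rk j)) ⟨l j, p⟩) rk hrk hw (fun j => hWY (o (rk j)) (l j))
      (hg.mono (fun _ => Subset.rfl) hcl (empty_subset A)) (hgen rk)
    have h2 := hI L M S G n I β V cl hG hP hDat J l w'
      (fun j p => W (o (rk' j)) ⟨l j, p⟩) rk' hrk' hw' (fun j => hWY (o (rk' j)) (l j))
      (hg'.mono (fun _ => Subset.rfl) hcl (empty_subset A)) (hgen rk')
    obtain ⟨s, ⟨eJ⟩⟩ := Finite.exists_equiv_fin J
    have h3 := htot s (fun j => o (rk (eJ.symm j))) (fun j => o (rk' (eJ.symm j)))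
      (ho.injective.comp (hrk.comp eJ.symm.injective))
      (ho.injective.comp (hrk'.comp eJ.symm.injective))
    have h4 : TE S G (n + 1) (⋃ j, prs (w j) (fun p => W (o (rk' j)) ⟨l j, p⟩)) := by
      refine h1.comp h3 ?_
      intro a ha
      obtain ⟨j, p, hp⟩ := mem_iUnion.1 ha
      refine ⟨W (o (rk j)) ⟨l j, p⟩, mem_iUnion.2 ⟨j, p, ?_⟩,
        mem_iUnion.2 ⟨eJ j, ⟨l j, p⟩, ?_⟩⟩
      · rw [← hp]
      · rw [← hp]
        simp only [Equiv.symm_apply_apply]
    have h5 : TE S G (n + 1) (⋃ j, prs (w j) (w' j)) := by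
      refine h4.comp h2.symm ?_
      intro a ha
      obtain ⟨j, p, hp⟩ := mem_iUnion.1 ha
      refine ⟨W (o (rk' j)) ⟨l j, p⟩, mem_iUnion.2 ⟨j, p, ?_⟩, mem_iUnion.2 ⟨j, p, ?_⟩⟩
      · rw [← hp]
      · rw [← hp]
        rfl
    exact h5 q hq' hn

end HERN
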