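import Pool.Agent.HERN.St
import Pool.Agent.HERN.INC
import Pool.Agent.HERN.CU

/-!
# HERN [TOT]: generic sequences in one family
-/

set_option autoImplicit false
set_option linter.unusedVariables false
set_option linter.unusedSectionVars false

namespace HERN

open Set Pool.Agent.Helper5.DU Pool.Agent.Helper6.Str Pool.Agent.Helper79.VC
  Pool.Agent.Helper97.LO Pool.Agent.Helper97.VC HER

/-- generic sequences in the same order -/
private theorem TOT_same {L : FirstOrder.Language.{0, 0}} {M : Type} {S : L.Structure M}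
    {G : Set M} {n : ℕ} {β : Type} [Finite β] {V V' : Set (β → M)} {cl cl' : Set M → Set M}
    (hMX : MX S G n V cl) (hVV : V' ⊆ V) (hF : Fam V')
    (hHM : ∀ c ∈ V', ∀ c' ∈ V', HM S G n V cl c c') (hcl' : IsCl cl')
    (hPR : PR2 S G n V' cl') :
    ∀ (k : ℕ) (J : Type) [Finite J] (w w' : J → β → M) (rk : J → ℕ), Nat.card J = k →
      Function.Injective rk → (∀ j, w j ∈ V') → (∀ j, w' j ∈ V') →
      Gen (fun A => cl A ∪ cl' A) ∅ rk w → Gen (fun A => cl A ∪ cl' A) ∅ rk w' →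
      TE S G n (⋃ j, prs (w j) (w' j)) := by
  have hcl'' : IsCl fun A => cl A ∪ cl' A := hMX.icl.union hcl'
  intro k
  induction k using Nat.strong_induction_on with
  | _ k ih =>
  intro J _ w w' rk hk hrk hw hw' hg hg' q hq hn
  by_cases hJ : Nonempty J
  swap
  · refine atEq_diag S ?_
    rintro a (⟨x, -, rfl⟩ | ha)
    · rfl
    · obtain ⟨j, _⟩ := mem_iUnion.1 (hq ha)
      exact absurd ⟨j⟩ hJ
  obtain ⟨j0, hj0⟩ := Finite.exists_min rk
  have hlt : ∀ j, j ≠ j0 → rk j0 < rk j := fun j hj =>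
    lt_of_le_of_ne (hj0 j) fun h => hj (hrk h).symm
  have hgen : ∀ v : J → β → M, Gen (fun A => cl A ∪ cl' A) ∅ rk v →
      Gen (fun A => cl A ∪ cl' A) (range (v j0)) (fun j : {j : J // j ≠ j0} => rk j.1)
        (fun j : {j : J // j ≠ j0} => v j.1) := by
    intro v hv j
    refine (hv j.1).anti (hcl''.mono _ _ ?_)
    rintro x (hx | ⟨i, hi, hx⟩)
    · exact Or.inr ⟨j0, hlt j.1 j.2, hx⟩
    · exact Or.inr ⟨i.1, hi, hx⟩
  by_cases hq0 : ∃ p, (w j0 p, w' j0 p) ∈ q
  · obtain ⟨p0, hp0⟩ := hq0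
    by_cases hA : q ⊆ prs (w j0) (w' j0)
    · obtain ⟨x, hx, hxo⟩ := hF.exists_off (hcl'.ctbl _ (countable_range (w j0)))
      obtain ⟨x', hx', hxo'⟩ := hF.exists_off (hcl'.ctbl _ (countable_range (w' j0)))
      exact hPR (w j0) (hw j0) x hx (w' j0) (hw' j0) x' hx' hxo hxo' q
        (hA.trans subset_union_left) hn
    by_cases hB : ∃ j1, j1 ≠ j0 ∧ q ⊆ prs (w j0) (w' j0) ∪ prs (w j1) (w' j1)
    · obtain ⟨j1, hj1, hq1⟩ := hB
      have hoff : ∀ v : J → β → M, Gen (fun A => cl A ∪ cl' A) ∅ rk v →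
          Off (cl' (range (v j0))) (v j1) := by
        intro v hv
        have h1 := (hgen v hv).off hcl'' ⟨j1, hj1⟩
        exact h1.anti subset_union_right
      exact hPR (w j0) (hw j0) (w j1) (hw j1) (w' j0) (hw' j0) (w' j1) (hw' j1)
        (hoff w hg) (hoff w' hg') q hq1 hn
    have hB' : ∀ j1, j1 ≠ j0 → ∃ a ∈ q, a ∉ prs (w j0) (w' j0) ∧ a ∉ prs (w j1) (w' j1) := by
      intro j1 hj1
      by_contra h1
      push Not at h1
      refine hB ⟨j1, hj1, fun a ha => ?_⟩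
      by_cases h2 : a ∈ prs (w j0) (w' j0)
      · exact Or.inl h2
      · exact Or.inr (h1 a ha h2)
    have hcA : (range (w j0) ∪ range (w' j0)).Countable :=
      (countable_range _).union (countable_range _)
    obtain ⟨w2, hw2, hg2⟩ := INC_exists (J := {j : J // j ≠ j0}) (I := Unit)
      (β := fun _ => β) (V := fun _ => V') hcl'' (fun _ => hF) (fun _ => ())
      (fun j => rk j.1) _ hcA
    have hrk' : Function.Injective (fun j : {j : J // j ≠ j0} => rk j.1) := fun i j h =>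
      Subtype.ext (hrk h)
    -- the elements in the middle
    have hmid : ∀ a : M × M, ∃ b : M × M, a ∈ q → ((a = (w j0 p0, w' j0 p0) → b = a) ∧
        (((∃ p, a = (w j0 p, w' j0 p)) ∧ b = a) ∨
        ∃ (j : {j : J // j ≠ j0}) (p : β), a = (w j.1 p, w' j.1 p) ∧
          b = (w2 j p, w2 j p))) := by
      intro a
      by_cases ha : a ∈ q
      · by_cases ha0 : ∃ p, a = (w j0 p, w' j0 p)
        · exact ⟨a, fun _ => ⟨fun _ => rfl, Or.inl ⟨ha0, rfl⟩⟩⟩
        · obtain ⟨j, hj⟩ := mem_iUnion.1 (hq ha)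
          obtain ⟨p, hp⟩ := hj
          have hj' : j ≠ j0 := by
            rintro rfl
            exact ha0 ⟨p, hp.symm⟩
          exact ⟨(w2 ⟨j, hj'⟩ p, w2 ⟨j, hj'⟩ p), fun _ => ⟨fun h => absurd ⟨p0, h⟩ ha0,
            Or.inr ⟨⟨j, hj'⟩, p, hp.symm, rfl⟩⟩⟩
      · exact ⟨a, fun h => absurd h ha⟩
    choose f hf using hmid
    have hf0 : f (w j0 p0, w' j0 p0) = (w j0 p0, w' j0 p0) := (hf _ hp0).1 rfl
    -- a pair in a third block
    have hthird : ∀ j : {j : J // j ≠ j0}, ∃ a ∈ q, ∃ (i : {j : J // j ≠ j0}) (p : β),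
        i ≠ j ∧ a = (w i.1 p, w' i.1 p) ∧ f a = (w2 i p, w2 i p) := by
      intro j
      obtain ⟨a, ha, ha0, haj⟩ := hB' j.1 j.2
      rcases (hf a ha).2 with ⟨⟨p, hp⟩, -⟩ | ⟨i, p, hp, hb⟩
      · exact absurd ⟨p, hp.symm⟩ ha0
      · refine ⟨a, ha, i, p, ?_, hp, hb⟩
        rintro rfl
        exact haj ⟨p, hp.symm⟩
    have hle : ∀ A : Set M, cl A ⊆ (fun A => cl A ∪ cl' A) A := fun A => subset_union_left
    refine INC_comp3 (fun a => (f a).1) (fun a => (f a).2) ?_ ?_ ?_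
    · refine hMX.mx {j : J // j ≠ j0} (fun j => w j.1) w2 (fun j => rk j.1) (fun j => rk j.1)
        (range (w j0)) (countable_range _) hrk' hrk' (fun j => hVV (hw j.1))
        (fun j => hVV (hw2 j)) ((hgen w hg).mono hle hcl'' Subset.rfl)
        (hg2.mono hle hcl'' subset_union_left) _ ?_ ((encard_image_le _ _).trans hn) ?_ ?_
      · rintro _ ⟨a, ha, rfl⟩
        rcases (hf a ha).2 with ⟨⟨p, hp⟩, hb⟩ | ⟨j, p, hp, hb⟩
        · left
          refine ⟨w j0 p, ⟨p, rfl⟩, ?_⟩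
          simp only [hb]
          rw [hp]
        · right
          refine mem_iUnion.2 ⟨j, p, ?_⟩
          simp only [hb]
          rw [hp]
      · refine ⟨_, ⟨_, hp0, rfl⟩, ⟨w j0 p0, ⟨p0, rfl⟩, ?_⟩⟩
        simp only [hf0]
      · rintro ⟨j, -, hj⟩
        obtain ⟨a, ha, i, p, hij, hap, hfa⟩ := hthird j
        have h1 := hj ⟨a, ha, rfl⟩
        simp only [hap] at h1
        rcases h1 with ⟨x, ⟨p', hp'⟩, hx⟩ | ⟨p', hp'⟩
        · have h2 : x = w i.1 p := congrArg Prod.fst hx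
          rw [← hp'] at h2
          exact hg.disj hcl'' hrk i.2.symm p' p h2
        · have h2 : w j.1 p' = w i.1 p := congrArg Prod.fst hp'
          exact hg.disj hcl'' hrk (fun h => hij (Subtype.ext h.symm)) p' p h2
    · refine hHM (w j0) (hw j0) (w' j0) (hw' j0) {j : J // j ≠ j0} w2 (fun j => rk j.1) hrk'
        (fun j => hVV (hw2 j)) (hg2.mono hle hcl'' Subset.rfl) _ ?_
        ((encard_image_le _ _).trans hn) ?_
      · rintro _ ⟨a, ha, rfl⟩
        rcases (hf a ha).2 with ⟨⟨p, hp⟩, hb⟩ | ⟨j, p, hp, hb⟩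
        · left
          refine ⟨p, ?_⟩
          simp only [hb]
          rw [hp]
        · right
          refine mem_iUnion.2 ⟨j, w2 j p, ⟨p, rfl⟩, ?_⟩
          simp only [hb]
      · rintro ⟨j, -, hj⟩
        obtain ⟨a, ha, i, p, hij, hap, hfa⟩ := hthird j
        have h1 := hj ⟨a, ha, rfl⟩
        simp only [hfa] at h1
        rcases h1 with ⟨p', hp'⟩ | ⟨x, ⟨p', hp'⟩, hx⟩
        · have h2 : w j0 p' = w2 i p := congrArg Prod.fst hp'
          refine hg2.off hcl'' i p (hcl''.sub _ (Or.inl ⟨p', h2⟩))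
        · have h2 : x = w2 i p := congrArg Prod.fst hx
          rw [← hp'] at h2
          exact hg2.disj hcl'' hrk' hij.symm p' p h2
    · refine hMX.mx {j : J // j ≠ j0} w2 (fun j => w' j.1) (fun j => rk j.1) (fun j => rk j.1)
        (range (w' j0)) (countable_range _) hrk' hrk' (fun j => hVV (hw2 j))
        (fun j => hVV (hw' j.1)) (hg2.mono hle hcl'' subset_union_right)
        ((hgen w' hg').mono hle hcl'' Subset.rfl) _ ?_ ((encard_image_le _ _).trans hn) ?_ ?_
      · rintro _ ⟨a, ha, rfl⟩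
        rcases (hf a ha).2 with ⟨⟨p, hp⟩, hb⟩ | ⟨j, p, hp, hb⟩
        · left
          refine ⟨w' j0 p, ⟨p, rfl⟩, ?_⟩
          simp only [hb]
          rw [hp]
        · right
          refine mem_iUnion.2 ⟨j, p, ?_⟩
          simp only [hb]
          rw [hp]
      · refine ⟨_, ⟨_, hp0, rfl⟩, ⟨w' j0 p0, ⟨p0, rfl⟩, ?_⟩⟩
        simp only [hf0]
      · rintro ⟨j, -, hj⟩
        obtain ⟨a, ha, i, p, hij, hap, hfa⟩ := hthird j
        have h1 := hj ⟨a, ha, rfl⟩
        simp only [hap] at h1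
        rcases h1 with ⟨x, ⟨p', hp'⟩, hx⟩ | ⟨p', hp'⟩
        · have h2 : x = w' i.1 p := congrArg Prod.snd hx
          rw [← hp'] at h2
          exact hg'.disj hcl'' hrk i.2.symm p' p h2
        · have h2 : w' j.1 p' = w' i.1 p := congrArg Prod.snd hp'
          exact hg'.disj hcl'' hrk (fun h => hij (Subtype.ext h.symm)) p' p h2
  · have hlt' : Nat.card {j : J // j ≠ j0} < k := by
      rw [← hk]
      exact Finite.card_subtype_lt (p := fun j => j ≠ j0) (x := j0) (by simp)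
    have h1 := ih _ hlt' {j : J // j ≠ j0} (fun j => w j.1)
      (fun j => w' j.1) (fun j => rk j.1) rfl (fun i j h => Subtype.ext (hrk h))
      (fun j => hw j.1) (fun j => hw' j.1) (INC_sub hcl'' hg Subtype.val)
      (INC_sub hcl'' hg' Subtype.val)
    refine h1 q ?_ hn
    intro a ha
    obtain ⟨j, hj⟩ := mem_iUnion.1 (hq ha)
    obtain ⟨p, hp⟩ := hj
    have hj' : j ≠ j0 := by
      rintro rfl
      refine hq0 ⟨p, ?_⟩
      simp only at hp
      rw [hp]
      exact ha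
    exact mem_iUnion.2 ⟨⟨j, hj'⟩, p, hp⟩

theorem thm_TOT (hQ : St_SQC) : St_TOT := by
  intro L M S F G n β _ V V' cl cl' hSym hGf hFG hMX hVV hF hHM hcl' hPR
  have hcl'' : IsCl fun A => cl A ∪ cl' A := hMX.icl.union hcl'
  refine ⟨fun A => cl A ∪ cl' A, hcl'', ?_⟩
  -- a generic sequence of length `ω₁`
  obtain ⟨W, hWY, hWR⟩ := hQ (β → M) V'
    (fun D v => Off ((fun A => cl A ∪ cl' A) {x | ∃ v ∈ D, x ∈ range v}) v) (by
      intro D _ hD
      exact hF.exists_off (hcl''.ctbl _ (countable_ranges hD)))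
  have hWoff : ∀ a : Om, Off ((fun A => cl A ∪ cl' A) {x | ∃ a' < a, x ∈ range (W a')})
      (W a) := by
    intro a
    refine (hWR a).anti (hcl''.mono _ _ ?_)
    rintro x ⟨a', ha', hx⟩
    exact ⟨W a', ⟨a', ha', rfl⟩, hx⟩
  have hWlt : ∀ a p a' p', a < a' → W a p ≠ W a' p' := by
    intro a p a' p' h h1
    exact hWoff a' p' (hcl''.sub _ ⟨a, h, p, h1⟩)
  have hWinj : ∀ a p a' p', W a p = W a' p' → a = a' ∧ p = p' := by
    intro a p a' p' h
    rcases lt_trichotomy a a' with h1 | h1 | h1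
    · exact absurd h (hWlt a p a' p' h1)
    · subst h1
      exact ⟨rfl, hF.inj (hWY a) h⟩
    · exact absurd h.symm (hWlt a' p' a p h1)
  have hsame := TOT_same hMX hVV hF hHM hcl' hPR
  -- the sequence is indiscernible
  have hind : Ind S G n W := by
    intro s a a' ha ha'
    have hgen : ∀ b : Fin s → Om, StrictMono b →
        Gen (fun A => cl A ∪ cl' A) ∅ (fun x : Fin s => (x : ℕ)) (fun x => W (b x)) := by
      intro b hb x
      refine (hWoff (b x)).anti (hcl''.mono _ _ ?_)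
      rintro y (hy | ⟨x', hx', hy⟩)
      · exact absurd hy (notMem_empty y)
      · exact ⟨b x', hb hx', hy⟩
    exact hsame _ (Fin s) (fun x => W (a x)) (fun x => W (a' x)) (fun x => (x : ℕ)) rfl
      Fin.val_injective (fun x => hWY _) (fun x => hWY _) (hgen a ha) (hgen a' ha')
  have htot : TInd S G n W := hSym G n β W hGf hFG hWinj hind
  obtain ⟨o, ho⟩ := CU_seq
  intro J _ w w' rk rk' hrk hrk' hw hw' hg hg'
  have hgen : ∀ r : J → ℕ, Gen (fun A => cl A ∪ cl' A) ∅ r (fun j : J => W (o (r j))) := by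
    intro r j
    refine (hWoff (o (r j))).anti (hcl''.mono _ _ ?_)
    rintro y (hy | ⟨i, hi, hy⟩)
    · exact absurd hy (notMem_empty y)
    · exact ⟨o (r i), ho hi, hy⟩
  have h1 := hsame _ J w (fun j => W (o (rk j))) rk rfl hrk hw (fun j => hWY _) hg (hgen rk)
  have h2 := hsame _ J w' (fun j => W (o (rk' j))) rk' rfl hrk' hw' (fun j => hWY _) hg'
    (hgen rk')
  obtain ⟨s, ⟨eJ⟩⟩ := Finite.exists_equiv_fin J
  have h3 := htot s (fun j => o (rk (eJ.symm j))) (fun j => o (rk' (eJ.symm j)))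
    (ho.injective.comp (hrk.comp eJ.symm.injective))
    (ho.injective.comp (hrk'.comp eJ.symm.injective))
  have h4 : TE S G n (⋃ j, prs (w j) (W (o (rk' j)))) := by
    refine h1.comp h3 ?_
    intro a ha
    obtain ⟨j, p, hp⟩ := mem_iUnion.1 ha
    refine ⟨W (o (rk j)) p, mem_iUnion.2 ⟨j, p, ?_⟩, mem_iUnion.2 ⟨eJ j, p, ?_⟩⟩
    · rw [← hp]
    · rw [← hp]
      simp only [Equiv.symm_apply_apply]
  refine h4.comp h2.symm ?_
  intro a ha
  obtain ⟨j, p, hp⟩ := mem_iUnion.1 ha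
  refine ⟨W (o (rk' j)) p, mem_iUnion.2 ⟨j, p, ?_⟩, mem_iUnion.2 ⟨j, p, ?_⟩⟩
  · rw [← hp]
  · rw [← hp]
    rfl

end HERN
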