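import Pool.Agent.HERN.St
import Pool.Agent.HERN.VQa

/-!
# HERN [VQ]: copies of `ω₁`-sequences along the rationals (helper22)
-/

set_option autoImplicit false

namespace HERN

open Set Pool.Agent.Helper5.DU Pool.Agent.Helper6.Str Pool.Agent.Helper79.VC
  Pool.Agent.Helper97.LO Pool.Agent.Helper97.VC HER

/-! ## Rich sets of countable ordinals -/

/-- the set `I` of countable ordinals can be divided `γ` times -/
def VQ_Rich (γ : Ordinal.{0}) (I : Set Om) : Prop :=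
  ∀ β, (h : β < γ) → ∃ c ∈ I, VQ_Rich β (I ∩ Iio c) ∧ VQ_Rich β (I ∩ Ioi c)
termination_by γ
decreasing_by all_goals exact h

theorem VQ_Rich.def {γ : Ordinal.{0}} {I : Set Om} : VQ_Rich γ I ↔
    ∀ β < γ, ∃ c ∈ I, VQ_Rich β (I ∩ Iio c) ∧ VQ_Rich β (I ∩ Ioi c) := by
  rw [VQ_Rich]

theorem VQ_Rich.mono {β : Ordinal.{0}} : ∀ {γ : Ordinal.{0}} {I J : Set Om}, β ≤ γ → I ⊆ J →
    VQ_Rich γ I → VQ_Rich β J := by
  induction β using WellFoundedLT.induction with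
  | _ β ih =>
    intro γ I J hβ hIJ h
    rw [VQ_Rich.def]
    intro β' hβ'
    obtain ⟨c, hc, h1, h2⟩ := (VQ_Rich.def.mp h) β' (hβ'.trans_le hβ)
    exact ⟨c, hIJ hc, ih β' hβ' le_rfl (inter_subset_inter_left _ hIJ) h1,
      ih β' hβ' le_rfl (inter_subset_inter_left _ hIJ) h2⟩

theorem VQ_bd {A : Set Om} (hA : A.Countable) : ∃ b, ∀ a ∈ A, a < b := by
  have h1 : (⋃ a ∈ A, Iic a).Countable := by
    refine hA.biUnion fun a _ => ?_
    rw [← Iio_insert]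
    exact (countable_Iio_om a).insert a
  obtain ⟨b, -, hb⟩ := nonempty_of_large (not_countable_diff not_countable_om h1)
  refine ⟨b, fun a ha => ?_⟩
  by_contra h
  exact hb (mem_iUnion₂.mpr ⟨a, ha, not_lt.mp h⟩)

theorem VQ_rich_ex {γ : Ordinal.{0}} : γ < om1 → ∀ a : Om, ∃ b, a < b ∧ VQ_Rich γ (Ioo a b) := by
  induction γ using WellFoundedLT.induction with
  | _ γ ih =>
    intro hγ a
    have h1 : ∀ β : Iio γ, ∃ c b : Om, a < c ∧ c < b ∧ VQ_Rich β.1 (Ioo a c) ∧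
        VQ_Rich β.1 (Ioo c b) := by
      intro β
      obtain ⟨c, hc, h2⟩ := ih β.1 β.2 (lt_trans β.2 hγ) a
      obtain ⟨b, hb, h3⟩ := ih β.1 β.2 (lt_trans β.2 hγ) c
      exact ⟨c, b, hc, hb, h2, h3⟩
    choose c b hc hb h2 h3 using h1
    have : Countable (Iio γ) := (countable_Iio hγ).to_subtype
    obtain ⟨d, hd⟩ := VQ_bd ((countable_range b).insert a)
    refine ⟨d, hd a (mem_insert _ _), ?_⟩
    rw [VQ_Rich.def]
    intro β hβ
    have hbd := hd _ (mem_insert_of_mem a (mem_range_self (⟨β, hβ⟩ : Iio γ)))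
    refine ⟨c ⟨β, hβ⟩, ⟨hc _, (hb _).trans hbd⟩, (h2 ⟨β, hβ⟩).mono le_rfl ?_,
      (h3 ⟨β, hβ⟩).mono le_rfl ?_⟩
    · intro x hx
      exact ⟨⟨hx.1, hx.2.trans ((hb _).trans hbd)⟩, hx.2⟩
    · intro x hx
      exact ⟨⟨(hc _).trans hx.1, hx.2.trans hbd⟩, hx.1⟩

theorem VQ_rich_univ {γ : Ordinal.{0}} (hγ : γ < om1) : VQ_Rich γ univ := by
  obtain ⟨a, ha⟩ := od_surj (Ordinal.omega_pos 1 : (0 : Ordinal.{0}) < om1)
  obtain ⟨b, -, h⟩ := VQ_rich_ex hγ a
  exact h.mono le_rfl (subset_univ _)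

/-! ## Sequences with bookkeeping -/

theorem VQ_seq {P : Type} (le : P → P → Prop) (hrefl : ∀ p, le p p)
    (htrans : ∀ p q r, le p q → le q r → le p r) (T : ℕ → P → P → Prop)
    (h : ∀ t p0 p, le p0 p → ∃ p', le p p' ∧ T t p0 p') (p : P) :
    ∃ s : ℕ → P, (∀ i j, i ≤ j → le (s i) (s j)) ∧ ∀ t j, ∃ i, j ≤ i ∧ T t (s j) (s i) := by
  classical
  have h' : ∀ t p0 p, ∃ p', le p0 p → le p p' ∧ T t p0 p' := by
    intro t p0 p
    by_cases hp : le p0 p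
    · obtain ⟨p', hp'⟩ := h t p0 p hp
      exact ⟨p', fun _ => hp'⟩
    · exact ⟨p, fun h => absurd h hp⟩
  choose nx hnx using h'
  let H : ℕ → ℕ → P := fun i => Nat.rec (fun _ => p) (fun i Hi j => if j ≤ i then Hi j else
    nx (Nat.unpair i).2 (Hi (Nat.unpair i).1) (Hi i)) i
  have hH : ∀ i j, H (i + 1) j = if j ≤ i then H i j else
    nx (Nat.unpair i).2 (H i (Nat.unpair i).1) (H i i) := fun i j => rfl
  let s : ℕ → P := fun i => H i i
  have hs : ∀ i j, j ≤ i → H i j = s j := by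
    intro i
    induction i with
    | zero =>
      intro j hj
      rw [Nat.le_zero.mp hj]
    | succ i ih =>
      intro j hj
      rcases hj.eq_or_lt with rfl | hj
      · rfl
      · rw [hH, if_pos (Nat.lt_succ_iff.mp hj)]
        exact ih j (Nat.lt_succ_iff.mp hj)
  have hs1 : ∀ i, s (i + 1) = nx (Nat.unpair i).2 (s (Nat.unpair i).1) (s i) := by
    intro i
    show H (i + 1) (i + 1) = _
    rw [hH, if_neg (by omega), hs i _ (Nat.unpair_left_le i)]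
  have hm : ∀ j i, i ≤ j → le (s i) (s j) := by
    intro j
    induction j with
    | zero =>
      intro i hi
      rw [Nat.le_zero.mp hi]
      exact hrefl _
    | succ j ih =>
      intro i hi
      rcases hi.eq_or_lt with rfl | hi
      · exact hrefl _
      · refine htrans _ _ _ (ih i (Nat.lt_succ_iff.mp hi)) ?_
        rw [hs1]
        exact (hnx _ _ _ (ih _ (Nat.unpair_left_le j))).1
  refine ⟨s, fun i j hij => hm j i hij, fun t j => ⟨Nat.pair j t + 1,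
    (Nat.left_le_pair j t).trans (Nat.le_succ _), ?_⟩⟩
  rw [hs1]
  have h1 := (hnx (Nat.unpair (Nat.pair j t)).2 (s (Nat.unpair (Nat.pair j t)).1)
    (s (Nat.pair j t)) (hm _ _ (Nat.unpair_left_le _))).2
  simpa only [Nat.unpair_pair] using h1

/-! ## Approximations -/

section

variable {L : FirstOrder.Language.{0, 0}} {M β : Type} {m : ℕ}

/-- the values of the variables -/
def VQ_val (g : Fin m → M) (W : Om → β → M) (x : (ℚ → Om) × (ℕ → M)) :
    Fin m ⊕ (ℚ × β) ⊕ ℕ → M :=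
  Sum.elim g (Sum.elim (fun p => W (x.1 p.1) p.2) x.2)

/-- finite sets of variables -/
def VQ_E (m : ℕ) (β : Type) (Q : Finset ℚ) (k : ℕ) : Set (Fin m ⊕ (ℚ × β) ⊕ ℕ) :=
  range Sum.inl ∪ (fun p => Sum.inr (Sum.inl p)) '' {p : ℚ × β | p.1 ∈ Q} ∪
    (fun i => Sum.inr (Sum.inr i)) '' {i : ℕ | i < k}

theorem VQ_E_fin [Finite β] (Q : Finset ℚ) (k : ℕ) : (VQ_E m β Q k).Finite := by
  refine ((finite_range _).union (Finite.image _ ?_)).union (Finite.image _ (finite_Iio k))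
  have h1 : {p : ℚ × β | p.1 ∈ Q} = (Q : Set ℚ) ×ˢ (univ : Set β) := by
    ext p
    simp
  rw [h1]
  exact Q.finite_toSet.prod finite_univ

theorem VQ_E_mono {Q Q' : Finset ℚ} {k k' : ℕ} (hQ : Q ⊆ Q') (hk : k ≤ k') :
    VQ_E m β Q k ⊆ VQ_E m β Q' k' := by
  refine union_subset_union (union_subset_union_right _ (image_mono ?_)) (image_mono ?_)
  · intro p hp
    exact hQ hp
  · intro i hi
    exact lt_of_lt_of_le hi hk

/-- the gap at `z` -/
def VQ_gap (Q : Finset ℚ) (α : ℚ → Om) (z : ℚ) : Set Om :=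
  {c | ∀ q ∈ Q, (q < z → α q < c) ∧ (z < q → c < α q)}

/-- approximations -/
structure VQ_St (S : L.Structure M) (δ : Ordinal.{0}) (g : Fin m → M) (W : Om → β → M) where
  /-- rationals -/
  Q : Finset ℚ
  /-- number of the Henkin variables -/
  k : ℕ
  /-- realisations -/
  R : Om → (ℚ → Om) × (ℕ → M)
  mono : ∀ r, StrictMonoOn (R r).1 Q
  rich : ∀ r, ∀ z ∉ Q, VQ_Rich (od r) (VQ_gap Q (R r).1 z)
  eqv : ∀ r r', BFR S S univ univ δ (VQ_pr (VQ_E m β Q k) (VQ_val g W (R r))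
    (VQ_val g W (R r')))

variable {S : L.Structure M} {δ : Ordinal.{0}} {g : Fin m → M} {W : Om → β → M}

/-- extension of approximations -/
structure VQ_le (s s' : VQ_St S δ g W) : Prop where
  Q : s.Q ⊆ s'.Q
  k : s.k ≤ s'.k
  eqv : ∀ r r', BFR S S univ univ δ (VQ_pr (VQ_E m β s.Q s.k) (VQ_val g W (s.R r))
    (VQ_val g W (s'.R r')))

theorem VQ_le.refl (s : VQ_St S δ g W) : VQ_le s s := ⟨Finset.Subset.refl _, le_rfl, s.eqv⟩

theorem VQ_le.trans {s s' s'' : VQ_St S δ g W} (h : VQ_le s s') (h' : VQ_le s' s'') :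
    VQ_le s s'' := by
  refine ⟨h.Q.trans h'.Q, h.k.trans h'.k, fun r r' => ?_⟩
  refine (h.eqv r r').trans (h'.eqv r' r') ?_
  rintro _ ⟨e, he, rfl⟩
  exact ⟨VQ_val g W (s'.R r') e, ⟨e, he, rfl⟩, ⟨e, VQ_E_mono h.Q h.k he, rfl⟩⟩

variable [∀ n, IsEmpty (L.Functions n)] [∀ n, Countable (L.Relations n)]
  {K : Set (L.Structure ℕ)}

theorem VQ_code (hS : VSt K δ S) {V : Type} {E : Set V} (hE : E.Finite) :
    ∃ κ : (V → M) → ℕ, ∀ x y, κ x = κ y → BFR S S univ univ δ (VQ_pr E x y) := by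
  obtain ⟨n, f, hf⟩ := hE.fin_embedding
  obtain ⟨κ, hκ⟩ := hS.code hS.lt n
  refine ⟨fun x => κ fun i => x (f i), fun x y hxy => BFR.anti ?_ (hκ _ _ hxy)⟩
  rintro _ ⟨e, he, rfl⟩
  rw [← hf] at he
  obtain ⟨i, rfl⟩ := he
  exact ⟨i, rfl⟩

theorem VQ_hom (hS : VSt K δ S) {V : Type} {E : Set V} (hE : E.Finite) (y : Om → V → M) :
    ∃ φ : Om → Om, (∀ r, r ≤ φ r) ∧
      ∀ r r', BFR S S univ univ δ (VQ_pr E (y (φ r)) (y (φ r'))) := by
  obtain ⟨κ, hκ⟩ := VQ_code hS hE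
  have h1 : ∃ n, ∀ r, ∃ r', r ≤ r' ∧ κ (y r') = n := by
    by_contra hcon
    push Not at hcon
    choose r hr using hcon
    obtain ⟨b, hb⟩ := VQ_bd (countable_range r)
    exact hr (κ (y b)) b (hb _ (mem_range_self _)).le rfl
  obtain ⟨n, hn⟩ := h1
  choose φ hφ1 hφ2 using hn
  exact ⟨φ, hφ1, fun r r' => hκ _ _ ((hφ2 r).trans (hφ2 r').symm)⟩

omit [∀ n, IsEmpty (L.Functions n)] [∀ n, Countable (L.Relations n)] in
/-- the first approximation -/
theorem VQ_start [Nonempty M] (S : L.Structure M) (δ : Ordinal.{0}) (g : Fin m → M)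
    (W : Om → β → M) : Nonempty (VQ_St S δ g W) := by
  obtain ⟨x0⟩ := ‹Nonempty M›
  obtain ⟨a, -⟩ := od_surj (Ordinal.omega_pos 1 : (0 : Ordinal.{0}) < om1)
  refine ⟨⟨∅, 0, fun _ => (fun _ => a, fun _ => x0), fun r => ?_, fun r z _ => ?_,
    fun r r' => ?_⟩⟩
  · intro x hx
    simp at hx
  · refine (VQ_rich_univ (od_lt r)).mono le_rfl fun c _ q hq => ?_
    simp at hq
  · refine BFR.refl S univ δ ?_
    rintro _ ⟨e, -, rfl⟩
    exact ⟨mem_univ _, rfl⟩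

/-- a new rational -/
theorem VQ_rat [Finite β] (hS : VSt K δ S) (s : VQ_St S δ g W) (z : ℚ) :
    ∃ s' : VQ_St S δ g W, VQ_le s s' ∧ z ∈ s'.Q := by
  classical
  by_cases hz : z ∈ s.Q
  · exact ⟨s, VQ_le.refl s, hz⟩
  have h1 : ∀ r : Om, ∃ (t c : Om), r ≤ t ∧ c ∈ VQ_gap s.Q (s.R t).1 z ∧
      VQ_Rich (od r) (VQ_gap s.Q (s.R t).1 z ∩ Iio c) ∧
      VQ_Rich (od r) (VQ_gap s.Q (s.R t).1 z ∩ Ioi c) := by
    intro r
    obtain ⟨t, ht⟩ := VQ_bd (countable_singleton r)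
    have hrt := ht r (mem_singleton r)
    obtain ⟨c, hc, h2, h3⟩ := (VQ_Rich.def.mp (s.rich t z hz)) (od r) (od_lt_od.mpr hrt)
    exact ⟨t, c, hrt.le, hc, h2, h3⟩
  choose t c hrt hc hc1 hc2 using h1
  let R1 : Om → (ℚ → Om) × (ℕ → M) := fun r =>
    (Function.update (s.R (t r)).1 z (c r), (s.R (t r)).2)
  have hR1z : ∀ r, (R1 r).1 z = c r := fun r => Function.update_self _ _ _
  have hR1q : ∀ r, ∀ q, q ≠ z → (R1 r).1 q = (s.R (t r)).1 q := fun r q hq =>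
    Function.update_of_ne hq _ _
  have hne : ∀ q ∈ s.Q, q ≠ z := fun q hq h => hz (h ▸ hq)
  have hmono : ∀ r, StrictMonoOn (R1 r).1 (insert z s.Q : Finset ℚ) := by
    intro r a ha b hb hab
    rw [Finset.mem_coe, Finset.mem_insert] at ha hb
    rcases ha with rfl | ha <;> rcases hb with rfl | hb
    · exact absurd hab (lt_irrefl _)
    · rw [hR1z, hR1q r b (hne b hb)]
      exact ((hc r) b hb).2 hab
    · rw [hR1z, hR1q r a (hne a ha)]
      exact ((hc r) a ha).1 hab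
    · rw [hR1q r a (hne a ha), hR1q r b (hne b hb)]
      exact s.mono (t r) ha hb hab
  have hrich : ∀ r, ∀ y ∉ insert z s.Q,
      VQ_Rich (od r) (VQ_gap (insert z s.Q) (R1 r).1 y) := by
    intro r y hy
    rw [Finset.mem_insert, not_or] at hy
    have hgap : ∀ d, d ∈ VQ_gap s.Q (s.R (t r)).1 y → (z < y → c r < d) → (y < z → d < c r) →
        d ∈ VQ_gap (insert z s.Q) (R1 r).1 y := by
      intro d hd h1 h2 q hq
      rcases Finset.mem_insert.mp hq with rfl | hq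
      · rw [hR1z]
        exact ⟨h1, h2⟩
      · rw [hR1q r q (hne q hq)]
        exact hd q hq
    by_cases hsame : ∀ q ∈ s.Q, (q < y ↔ q < z)
    · -- the same gap
      have h3 : ∀ q ∈ s.Q, (y < q ↔ z < q) := by
        intro q hq
        have hqy : q ≠ y := fun h => hy.2 (h ▸ hq)
        constructor
        · intro h4
          refine lt_of_le_of_ne (not_lt.mp fun h5 => ?_) (hne q hq).symm
          exact absurd ((hsame q hq).mpr h5) (not_lt.mpr h4.le)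
        · intro h4
          refine lt_of_le_of_ne (not_lt.mp fun h5 => ?_) hqy.symm
          exact absurd ((hsame q hq).mp h5) (not_lt.mpr h4.le)
      have h4 : VQ_gap s.Q (s.R (t r)).1 z ⊆ VQ_gap s.Q (s.R (t r)).1 y := by
        intro d hd q hq
        exact ⟨fun h5 => (hd q hq).1 ((hsame q hq).mp h5), fun h5 => (hd q hq).2 ((h3 q hq).mp h5)⟩
      rcases lt_or_gt_of_ne hy.1 with h5 | h5
      · refine (hc1 r).mono le_rfl ?_
        rintro d ⟨hd1, hd2⟩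
        exact hgap d (h4 hd1) (fun h6 => absurd h6 (not_lt.mpr h5.le)) fun _ => hd2
      · refine (hc2 r).mono le_rfl ?_
        rintro d ⟨hd1, hd2⟩
        exact hgap d (h4 hd1) (fun _ => hd2) fun h6 => absurd h6 (not_lt.mpr h5.le)
    · -- another gap
      refine (s.rich (t r) y hy.2).mono ?_ ?_
      · rcases (hrt r).eq_or_lt with h | h
        · rw [← h]
        · exact (od_lt_od.mpr h).le
      · push Not at hsame
        obtain ⟨q, hq, h3⟩ := hsame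
        intro d hd
        refine hgap d hd (fun h4 => ?_) (fun h4 => ?_)
        · have h5 : q < y := by
            rcases h3 with h3 | h3
            · exact h3.1
            · exact h3.2.trans h4
          have h6 : z < q := by
            rcases h3 with h3 | h3
            · exact lt_of_le_of_ne h3.2 (hne q hq).symm
            · exact absurd (h3.2.trans h4) (not_lt.mpr h3.1)
          exact (((hc r) q hq).2 h6).trans ((hd q hq).1 h5)
        · have h5 : y < q := by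
            rcases h3 with h3 | h3
            · exact h4.trans_le h3.2
            · exact lt_of_le_of_ne h3.1 (fun h => hy.2 (h ▸ hq))
          have h6 : q < z := by
            rcases h3 with h3 | h3
            · exact h3.1.trans h4
            · exact h3.2
          exact ((hd q hq).2 h5).trans (((hc r) q hq).1 h6)
  obtain ⟨φ, hφ1, hφ2⟩ := VQ_hom hS (VQ_E_fin (m := m) (β := β) (insert z s.Q) s.k)
    fun r => VQ_val g W (R1 r)
  refine ⟨⟨insert z s.Q, s.k, fun r => R1 (φ r), fun r => hmono _, fun r y hy => ?_, hφ2⟩,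
    ⟨Finset.subset_insert _ _, le_rfl, fun r r' => ?_⟩, Finset.mem_insert_self _ _⟩
  · refine (hrich (φ r) y hy).mono ?_ Subset.rfl
    rcases (hφ1 r).eq_or_lt with h | h
    · rw [← h]
    · exact (od_lt_od.mpr h).le
  · refine BFR.anti ?_ (s.eqv r (t (φ r')))
    rintro _ ⟨e, he, rfl⟩
    refine ⟨e, he, ?_⟩
    rcases he with (⟨i, rfl⟩ | ⟨p, hp, rfl⟩) | ⟨i, hi, rfl⟩
    · rfl
    · show (_, W ((s.R (t (φ r'))).1 p.1) p.2) = (_, W ((R1 (φ r')).1 p.1) p.2)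
      rw [hR1q _ _ (hne _ hp)]
    · rfl

/-- a new Henkin variable -/
theorem VQ_hen [Finite β] (hS : VSt K δ S) (s0 s : VQ_St S δ g W) (h0 : VQ_le s0 s)
    {γ : Ordinal.{0}} (hγ : γ < δ) (r0 : Om) (y0 : M) :
    ∃ s' : VQ_St S δ g W, VQ_le s s' ∧ s0.k < s'.k ∧ ∃ e ∈ VQ_E m β s'.Q s'.k, ∀ r,
      BFR S S univ univ γ (insert (y0, VQ_val g W (s'.R r) e)
        (VQ_pr (VQ_E m β s0.Q s0.k) (VQ_val g W (s0.R r0)) (VQ_val g W (s'.R r)))) := by
  classical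
  have h1 : ∀ r : Om, ∃ y, BFR S S univ univ γ (insert (y0, y)
      (VQ_pr (VQ_E m β s0.Q s0.k) (VQ_val g W (s0.R r0)) (VQ_val g W (s.R r)))) := by
    intro r
    obtain ⟨y, -, hy⟩ := (h0.eqv r0 r).forth hγ (mem_univ y0)
    exact ⟨y, hy⟩
  choose y hy using h1
  let R1 : Om → (ℚ → Om) × (ℕ → M) := fun r =>
    ((s.R r).1, Function.update (s.R r).2 s.k (y r))
  have hval : ∀ r, ∀ e ∈ VQ_E m β s.Q s.k, VQ_val g W (R1 r) e = VQ_val g W (s.R r) e := by
    rintro r e ((⟨i, rfl⟩ | ⟨p, hp, rfl⟩) | ⟨i, hi, rfl⟩)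
    · rfl
    · rfl
    · show Function.update (s.R r).2 s.k (y r) i = (s.R r).2 i
      exact Function.update_of_ne (ne_of_lt hi) _ _
  have hnew : ∀ r, VQ_val g W (R1 r) (Sum.inr (Sum.inr s.k)) = y r := fun r =>
    Function.update_self _ _ _
  obtain ⟨φ, hφ1, hφ2⟩ := VQ_hom hS (VQ_E_fin (m := m) (β := β) s.Q (s.k + 1))
    fun r => VQ_val g W (R1 r)
  refine ⟨⟨s.Q, s.k + 1, fun r => R1 (φ r), fun r => s.mono _, fun r z hz => ?_, hφ2⟩,
    ⟨Finset.Subset.refl _, Nat.le_succ _, fun r r' => ?_⟩, Nat.lt_succ_of_le h0.k,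
    Sum.inr (Sum.inr s.k), Or.inr ⟨s.k, Nat.lt_succ_self _, rfl⟩, fun r => ?_⟩
  · refine (s.rich (φ r) z hz).mono ?_ Subset.rfl
    rcases (hφ1 r).eq_or_lt with h | h
    · rw [← h]
    · exact (od_lt_od.mpr h).le
  · refine BFR.anti ?_ (s.eqv r (φ r'))
    rintro _ ⟨e, he, rfl⟩
    refine ⟨e, he, ?_⟩
    show (_, VQ_val g W (s.R (φ r')) e) = (_, VQ_val g W (R1 (φ r')) e)
    rw [hval _ e he]
  · refine BFR.anti ?_ (hy (φ r))
    rintro _ (rfl | ⟨e, he, rfl⟩)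
    · left
      show (y0, VQ_val g W (R1 (φ r)) (Sum.inr (Sum.inr s.k))) = _
      rw [hnew]
    · right
      refine ⟨e, he, ?_⟩
      show _ = (_, VQ_val g W (R1 (φ r)) e)
      rw [hval _ e (VQ_E_mono h0.Q h0.k he)]

end

theorem thm_VQ : St_VQ := by
  classical
  intro L _ _ K δ M S hS hK β _ m W g hW
  have hMi : Infinite M := hS.infinite
  obtain ⟨r0, -⟩ := od_surj (Ordinal.omega_pos 1 : (0 : Ordinal.{0}) < om1)
  -- codes of elements over an approximation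
  have hcode : ∀ (s0 : VQ_St S δ g W) (γ : Ordinal.{0}), ∃ κ : M → ℕ, γ < δ → ∀ y y',
      κ y = κ y' → BFR S S univ univ γ (insert (y, y')
        (VQ_pr (VQ_E m β s0.Q s0.k) (VQ_val g W (s0.R r0)) (VQ_val g W (s0.R r0)))) := by
    intro s0 γ
    by_cases hγ : γ < δ
    · have hfin : (VQ_val g W (s0.R r0) '' VQ_E m β s0.Q s0.k).Finite :=
        (VQ_E_fin _ _).image _
      obtain ⟨κ, hκ⟩ := countable_classes hS.scat (hγ.trans hS.lt) hS.lev hfin.toFinset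
      refine ⟨κ, fun _ y y' hyy => BFR.anti (insert_subset_insert ?_) (hκ y y' hyy)⟩
      rintro _ ⟨e, he, rfl⟩
      exact ⟨VQ_val g W (s0.R r0) e, by rw [hfin.coe_toFinset]; exact ⟨e, he, rfl⟩, rfl⟩
    · exact ⟨fun _ => 0, fun h => absurd h hγ⟩
  choose κ hκ using hcode
  -- requirements
  have hc : Countable (Iio δ) := (countable_Iio hS.lt).to_subtype
  have hne : Nonempty (ℚ ⊕ (Iio δ × ℕ)) := ⟨Sum.inl 0⟩
  obtain ⟨en, hen⟩ := exists_surjective_nat (ℚ ⊕ (Iio δ × ℕ))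
  let T : ℕ → VQ_St S δ g W → VQ_St S δ g W → Prop := fun t s0 s' =>
    (∀ z : ℚ, en t = Sum.inl z → z ∈ s'.Q) ∧
    ∀ (γ : Iio δ) (n : ℕ), en t = Sum.inr (γ, n) → ∀ y, κ s0 γ.1 y = n → s0.k < s'.k ∧
      ∃ e ∈ VQ_E m β s'.Q s'.k, BFR S S univ univ γ.1 (insert (y, VQ_val g W (s'.R r0) e)
        (VQ_pr (VQ_E m β s0.Q s0.k) (VQ_val g W (s0.R r0)) (VQ_val g W (s'.R r0))))
  have hT : ∀ t s0 s, VQ_le s0 s → ∃ s', VQ_le s s' ∧ T t s0 s' := by
    intro t s0 s h0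
    rcases hent : en t with z | ⟨γ, n⟩
    · obtain ⟨s', h1, h2⟩ := VQ_rat hS s z
      refine ⟨s', h1, fun z' hz' => ?_, fun γ n h3 => ?_⟩
      · rw [hent] at hz'
        rw [← Sum.inl_injective hz']
        exact h2
      · rw [hent] at h3
        cases h3
    · by_cases hy : ∃ y, κ s0 γ.1 y = n
      · obtain ⟨y1, hy1⟩ := hy
        obtain ⟨s', h1, h2, e, he, h3⟩ := VQ_hen hS s0 s h0 γ.2 r0 y1
        refine ⟨s', h1, fun z' hz' => ?_, fun γ' n' h4 y hy => ⟨h2, e, he, ?_⟩⟩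
        · rw [hent] at hz'
          cases hz'
        · rw [hent] at h4
          cases h4
          refine (hκ s0 γ.1 γ.2 y y1 (hy.trans hy1.symm)).trans (h3 r0) ?_
          rintro _ (rfl | ⟨e, he, rfl⟩)
          · exact ⟨y1, mem_insert _ _, mem_insert _ _⟩
          · exact ⟨_, mem_insert_of_mem _ ⟨e, he, rfl⟩, mem_insert_of_mem _ ⟨e, he, rfl⟩⟩
      · refine ⟨s, VQ_le.refl s, fun z' hz' => ?_, fun γ' n' h4 y hy' => ?_⟩
        · rw [hent] at hz'
          cases hz'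
        · rw [hent] at h4
          cases h4
          exact absurd ⟨y, hy'⟩ hy
  obtain ⟨start⟩ := VQ_start S δ g W
  obtain ⟨s, hs1, hs2⟩ := VQ_seq VQ_le VQ_le.refl (fun _ _ _ => VQ_le.trans) T hT start
  have hQ : ∀ z : ℚ, ∃ j, z ∈ (s j).Q := by
    intro z
    obtain ⟨t, ht⟩ := hen (Sum.inl z)
    obtain ⟨i, -, hi⟩ := hs2 t 0
    exact ⟨i, hi.1 z ht⟩
  have hδ0 : (0 : Ordinal.{0}) < δ :=
    (Ordinal.omega0_pos.trans_le le_self_add).trans_le hS.om
  have hhen : ∀ j, ∀ γ < δ, ∀ y : M, ∃ i, j ≤ i ∧ (s j).k < (s i).k ∧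
      ∃ e ∈ VQ_E m β (s i).Q (s i).k, BFR S S univ univ γ
        (insert (y, VQ_val g W ((s i).R r0) e) (VQ_pr (VQ_E m β (s j).Q (s j).k)
          (VQ_val g W ((s j).R r0)) (VQ_val g W ((s i).R r0)))) := by
    intro j γ hγ y
    obtain ⟨t, ht⟩ := hen (Sum.inr (⟨γ, hγ⟩, κ (s j) γ y))
    obtain ⟨i, hji, hi⟩ := hs2 t j
    obtain ⟨h1, e, he, h2⟩ := hi.2 _ _ ht y rfl
    exact ⟨i, hji, h1, e, he, h2⟩
  have hk : ∀ k : ℕ, ∃ j, k < (s j).k := by
    intro k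
    induction k with
    | zero =>
      obtain ⟨i, -, h1, -⟩ := hhen 0 0 hδ0 (Classical.arbitrary M)
      exact ⟨i, Nat.lt_of_le_of_lt (Nat.zero_le _) h1⟩
    | succ k ih =>
      obtain ⟨j, hj⟩ := ih
      obtain ⟨i, -, h1, -⟩ := hhen j 0 hδ0 (Classical.arbitrary M)
      exact ⟨i, Nat.lt_of_le_of_lt hj h1⟩
  obtain ⟨T', hT'K, π, hπ⟩ := VQ_lim hS (fun j => VQ_E m β (s j).Q (s j).k)
    (fun j => VQ_val g W ((s j).R r0)) (fun i j hij => VQ_E_mono (hs1 i j hij).Q (hs1 i j hij).k)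
    (by
      rintro (i | p | k)
      · exact ⟨0, Or.inl (Or.inl ⟨i, rfl⟩)⟩
      · obtain ⟨j, hj⟩ := hQ p.1
        exact ⟨j, Or.inl (Or.inr ⟨p, hj, rfl⟩)⟩
      · obtain ⟨j, hj⟩ := hk k
        exact ⟨j, Or.inr ⟨k, hj, rfl⟩⟩)
    (fun i j hij => (hs1 i j hij).eqv r0 r0)
    (fun j γ hγ z => by
      obtain ⟨i, hji, -, e, he, h1⟩ := hhen j γ hγ z
      exact ⟨i, hji, e, he, h1⟩)
  obtain ⟨F', hF', hHF⟩ := hK _ hT'K
  refine ⟨ℕ, T', F', fun i => π (Sum.inl i), fun x p => π (Sum.inr (Sum.inl (x, p))), hF',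
    thm_PIG L K ℕ T' F' hS.scat hHF, fun n q hq => ?_⟩
  choose J hJ using fun i => hQ (q i)
  have hJ' : ∀ i, q i ∈ (s (Finset.univ.sup J)).Q := fun i =>
    (hs1 _ _ (Finset.le_sup (Finset.mem_univ i))).Q (hJ i)
  refine ⟨fun i => ((s (Finset.univ.sup J)).R r0).1 (q i), fun i i' hii =>
    (s (Finset.univ.sup J)).mono r0 (hJ' i) (hJ' i') (hq hii), ?_⟩
  refine AtEq.symm' (hπ (Finset.univ.sup J)) ?_
  rintro _ (⟨i, rfl⟩ | h)
  · exact ⟨Sum.inl i, Or.inl (Or.inl ⟨i, rfl⟩), rfl⟩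
  · obtain ⟨i, p, rfl⟩ := mem_iUnion.mp h
    exact ⟨Sum.inr (Sum.inl (q i, p)), Or.inl (Or.inr ⟨(q i, p), hJ' i, rfl⟩), rfl⟩

end HERN
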