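import Pool.Agent.HERN.St

/-!
# HERN [WIN]: connected sets of given size
-/

set_option autoImplicit false
set_option linter.unusedVariables false

namespace HERN

open Set Pool.Agent.Helper5.DU Pool.Agent.Helper6.Str Pool.Agent.Helper79.VC
  Pool.Agent.Helper97.LO Pool.Agent.Helper97.VC HER

private theorem WIN_cross {M : Type} (R : M → M → Prop) (D : Set M) {x y : M}
    (h : Relation.ReflTransGen R x y) (hx : x ∈ D) (hy : y ∉ D) :
    ∃ a ∈ D, ∃ b, b ∉ D ∧ R a b := by
  induction h with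
  | refl => exact absurd hx hy
  | @tail b c hb hbc ih =>
    by_cases h1 : b ∈ D
    · exact ⟨b, h1, c, hy, hbc⟩
    · exact ih h1

/-- connected sets -/
private def WINConn {M : Type} (r : ℕ) (H : ∀ b : ℕ, (Fin b → M) → Prop) (D : Set M) : Prop :=
  ∀ D' ⊆ D, D'.Nonempty → D' ≠ D → ∃ b ≤ r, ∃ h : Fin b → M, Function.Injective h ∧
      (∀ p, h p ∈ D) ∧ H b h ∧ (∃ p, h p ∈ D') ∧ ∃ p, h p ∉ D'

private theorem WIN_step {M : Type} (r : ℕ) (H : ∀ b : ℕ, (Fin b → M) → Prop) (D : Set M)
    (hD : WINConn r H D) (b : ℕ) (hb : b ≤ r) (h : Fin b → M) (hi : Function.Injective h)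
    (hH : H b h) (a : M) (haD : a ∈ D) (hah : a ∈ range h) : WINConn r H (D ∪ range h) := by
  intro D' hD' hne hne'
  by_cases h1 : (D' ∩ D).Nonempty
  · by_cases h2 : D' ∩ D = D
    · have h3 : D ⊆ D' := by
        rw [← h2]
        exact inter_subset_left
      obtain ⟨z, hz, hz'⟩ : ∃ z ∈ D ∪ range h, z ∉ D' := by
        by_contra hc
        push Not at hc
        exact hne' (Subset.antisymm hD' hc)
      obtain ⟨q, rfl⟩ : z ∈ range h := hz.resolve_left fun h4 => hz' (h3 h4)
      obtain ⟨p, rfl⟩ := hah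
      exact ⟨b, hb, h, hi, fun p => Or.inr ⟨p, rfl⟩, hH, ⟨p, h3 haD⟩, q, hz'⟩
    · obtain ⟨b', hb', h', hi', hm, hH', ⟨p, hp⟩, q, hq⟩ := hD (D' ∩ D) inter_subset_right h1 h2
      exact ⟨b', hb', h', hi', fun p => Or.inl (hm p), hH', ⟨p, hp.1⟩, q,
        fun h3 => hq ⟨h3, hm q⟩⟩
  · obtain ⟨z, hz⟩ := hne
    obtain ⟨q, rfl⟩ : z ∈ range h := (hD' hz).resolve_left fun h4 => h1 ⟨z, hz, h4⟩
    obtain ⟨p, rfl⟩ := hah
    exact ⟨b, hb, h, hi, fun p => Or.inr ⟨p, rfl⟩, hH, ⟨q, hz⟩, p, fun h3 => h1 ⟨h p, h3, haD⟩⟩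

theorem thm_WIN : St_WIN := by
  intro M r H C m hm hC
  have key : ∀ k : ℕ, k ≤ m → ∃ D ⊆ C, (k : ℕ∞) < D.encard ∧ D.encard ≤ (m + r + 1 : ℕ) ∧
      WINConn r H D := by
    intro k
    induction k with
    | zero =>
      intro _
      obtain ⟨x, hx⟩ : C.Nonempty := by
        rw [← encard_pos]
        exact lt_of_le_of_lt (zero_le) hm
      refine ⟨{x}, singleton_subset_iff.mpr hx, ?_, ?_, ?_⟩
      · rw [encard_singleton]
        exact_mod_cast one_pos
      · rw [encard_singleton]
        exact_mod_cast (by omega : 1 ≤ m + r + 1)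
      · intro D' hD' hne hne'
        exact absurd (hne.subset_singleton_iff.mp hD') hne'
    | succ k ih =>
      intro hk
      obtain ⟨D, hDC, hkD, hDm, hD⟩ := ih (by omega)
      by_cases h1 : ((k + 1 : ℕ) : ℕ∞) < D.encard
      · exact ⟨D, hDC, h1, hDm, hD⟩
      · have h2 : D.encard ≤ (m : ℕ∞) := (not_lt.mp h1).trans (by exact_mod_cast hk)
        obtain ⟨x, hx⟩ : D.Nonempty := by
          rw [← encard_pos]
          exact lt_of_le_of_lt (zero_le) hkD
        obtain ⟨y, hy, hy'⟩ : ∃ y ∈ C, y ∉ D := by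
          by_contra hc
          push Not at hc
          exact absurd (encard_le_encard hc) (not_le.mpr (lt_of_le_of_lt h2 hm))
        obtain ⟨a, ha, b, hb, c, hcr, h, hi, hhC, hH, hah, hbh⟩ :=
          WIN_cross _ D (hC x (hDC hx) y hy) hx hy'
        refine ⟨D ∪ range h, union_subset hDC (range_subset_iff.mpr hhC), ?_, ?_,
          WIN_step r H D hD c hcr h hi hH a ha hah⟩
        · have h3 : (insert b D).encard ≤ (D ∪ range h).encard :=
            encard_le_encard (insert_subset (Or.inr hbh) subset_union_left)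
          rw [encard_insert_of_notMem hb] at h3
          refine lt_of_lt_of_le ?_ h3
          have h4 : ((k + 1 : ℕ) : ℕ∞) ≤ D.encard := by
            have := Order.add_one_le_of_lt hkD
            exact_mod_cast this
          have h5 : D.encard < ⊤ := lt_of_le_of_lt h2 (ENat.natCast_lt_top m)
          exact lt_of_le_of_lt h4 (ENat.lt_add_one_iff h5.ne |>.mpr le_rfl)
        · refine (encard_union_le _ _).trans ?_
          have h3 : (range h).encard ≤ (r : ℕ∞) := by
            rw [← image_univ]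
            refine (encard_image_le _ _).trans ?_
            rw [encard_univ, ENat.card_eq_coe_fintype_card, Fintype.card_fin]
            exact_mod_cast hcr
          refine (add_le_add h2 h3).trans ?_
          exact_mod_cast (by omega : m + r ≤ m + r + 1)
  obtain ⟨D, h1, h2, h3, h4⟩ := key m le_rfl
  exact ⟨D, h1, h2, h3, h4⟩

end HERN
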