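import Pool.Agent.HER.ALL
import Pool.Agent.HERN.A0
import Pool.Agent.HERN.BAD
import Pool.Agent.HERN.BFIN
import Pool.Agent.HERN.BK0
import Pool.Agent.HERN.BN
import Pool.Agent.HERN.CCN
import Pool.Agent.HERN.CFC
import Pool.Agent.HERN.CH
import Pool.Agent.HERN.CHE
import Pool.Agent.HERN.CHG
import Pool.Agent.HERN.CLAA
import Pool.Agent.HERN.CLX
import Pool.Agent.HERN.CMBN
import Pool.Agent.HERN.CN
import Pool.Agent.HERN.COM
import Pool.Agent.HERN.CR
import Pool.Agent.HERN.CU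
import Pool.Agent.HERN.CX
import Pool.Agent.HERN.DAT
import Pool.Agent.HERN.FIN
import Pool.Agent.HERN.FIT
import Pool.Agent.HERN.FP
import Pool.Agent.HERN.FRC
import Pool.Agent.HERN.FTN
import Pool.Agent.HERN.HCO
import Pool.Agent.HERN.HOM
import Pool.Agent.HERN.INC
import Pool.Agent.HERN.LAB
import Pool.Agent.HERN.MAINN
import Pool.Agent.HERN.MIX
import Pool.Agent.HERN.NAB
import Pool.Agent.HERN.ORDB
import Pool.Agent.HERN.PA0
import Pool.Agent.HERN.PA2
import Pool.Agent.HERN.PA3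
import Pool.Agent.HERN.PA5
import Pool.Agent.HERN.PAC
import Pool.Agent.HERN.PAIR
import Pool.Agent.HERN.PAR
import Pool.Agent.HERN.PAS
import Pool.Agent.HERN.PCM
import Pool.Agent.HERN.PGG
import Pool.Agent.HERN.PGL
import Pool.Agent.HERN.PGX
import Pool.Agent.HERN.PN0
import Pool.Agent.HERN.PNS
import Pool.Agent.HERN.PTF
import Pool.Agent.HERN.RAMN
import Pool.Agent.HERN.RCL
import Pool.Agent.HERN.REP
import Pool.Agent.HERN.RGB
import Pool.Agent.HERN.RINV
import Pool.Agent.HERN.RKP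
import Pool.Agent.HERN.RMV
import Pool.Agent.HERN.ROWS
import Pool.Agent.HERN.RPR
import Pool.Agent.HERN.RTR
import Pool.Agent.HERN.SIZ
import Pool.Agent.HERN.SQC
import Pool.Agent.HERN.SYA
import Pool.Agent.HERN.SYB
import Pool.Agent.HERN.SYC
import Pool.Agent.HERN.SYD
import Pool.Agent.HERN.SYM
import Pool.Agent.HERN.TAMN
import Pool.Agent.HERN.THINB
import Pool.Agent.HERN.TOT
import Pool.Agent.HERN.VQ
import Pool.Agent.HERN.WIN

/-!
# HERN: all modules together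
-/

set_option autoImplicit false

namespace HERN

theorem all_RCL : St_RCL := thm_RCL thm_NAB (thm_RGB thm_NAB)

theorem all_ROWS : St_ROWS :=
  thm_ROWS (thm_RPR thm_NAB) (thm_RTR (thm_RGB thm_NAB) all_RCL
    (thm_RKP thm_NAB (thm_RGB thm_NAB) all_RCL thm_RMV)) thm_RINV

theorem all_SYM : St_SYM := thm_SYM (thm_SYD thm_SYA thm_SYB thm_SYC) all_ROWS thm_ORDB

theorem all_CX : St_CX := thm_CX (thm_FTN thm_RAMN) thm_VQ all_ROWS thm_ORDB all_SYM

theorem all_COM : St_COM :=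
  thm_COM thm_PCM (thm_CR thm_DAT (thm_CU thm_SQC thm_INC)) thm_CFC

theorem all_PAIR : St_PAIR :=
  thm_PAIR thm_PA0 (thm_PA2 thm_SQC) thm_PA3 (thm_PA5 thm_CLAA thm_PAC thm_PAR
    (thm_PAS thm_ORDB))

theorem all_BN : St_BN :=
  thm_BN thm_PGX thm_PGG (thm_PGL thm_PGG) (thm_FP thm_LAB) thm_MIX thm_HOM all_PAIR
    (thm_TOT thm_SQC) thm_CMBN (thm_BFIN (thm_THINB thm_RAMN))

theorem all_PNS : St_PNS := thm_PNS all_COM all_BN thm_PTF (thm_CN thm_CCN)

/-- the large structures of a hereditary class of bounded arity are tame -/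
theorem all_MAINN : St_MAINN :=
  thm_MAINN all_CX thm_PN0 all_PNS thm_REP (thm_CLX thm_BAD)
    (thm_BK0 thm_CH (thm_FRC thm_CH thm_CHE thm_CHG)) (thm_SIZ thm_A0 thm_HCO thm_WIN) thm_FIT
    thm_TAMN

end HERN
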