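import Pool.Agent.HER.St

/-!
# HERN: hereditary classes of structures of bounded arity, definitions
-/

set_option autoImplicit false
set_option linter.unusedVariables false

namespace HERN

open Set Pool.Agent.Helper5.DU Pool.Agent.Helper6.Str Pool.Agent.Helper79.VC
  Pool.Agent.Helper97.LO Pool.Agent.Helper97.VC HER

variable {L : FirstOrder.Language.{0, 0}} {M N : Type}

/-! ## Types -/

/-- the pairs of corresponding elements of two tuples -/
def prs {β M N : Type} (w : β → M) (w' : β → N) : Set (M × N) := range fun i => (w i, w' i)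

/-- the pairs of corresponding elements of two tuples, coordinates in `P` -/
def prt {β M N : Type} (P : Set β) (w : β → M) (w' : β → N) : Set (M × N) :=
  (fun i => (w i, w' i)) '' P

/-- `p` preserves the `n`-types over `G`. -/
def TE (S : L.Structure M) (G : Set M) (n : ℕ) (p : Set (M × M)) : Prop :=
  ∀ q ⊆ p, q.encard ≤ n → AtEq S S (dg G ∪ q)

/-- finitely many types of tuples over `G` -/
def FT (S : L.Structure M) (G : Set M) : Prop :=
  ∀ (β : Type) [Finite β], ∃ (C : Type) (_ : Finite C) (t : (β → M) → C),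
    ∀ v v', t v = t v' ↔ AtEq S S (dg G ∪ prs v v')

/-- `w` avoids `E` -/
def Off {β M : Type} (E : Set M) (w : β → M) : Prop := ∀ i, w i ∉ E

/-- an uncountable set of pairwise disjoint injective tuples -/
structure Fam {β M : Type} (V : Set (β → M)) : Prop where
  unc : ¬ V.Countable
  dis : ∀ w ∈ V, ∀ w' ∈ V, ∀ p q, w p = w' q → w = w' ∧ p = q

/-- almost all members of `V` and almost all members of `V'` have the same types -/
def Eqv (S : L.Structure M) (G : Set M) (n : ℕ) {β : Type} (V V' : Set (β → M)) : Prop :=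
  ∀ A : Set M, A.Countable → ∃ E : Set M, E.Countable ∧
    ∀ w ∈ V, ∀ w' ∈ V', Off E w → Off E w' → TE S G n (dg A ∪ prs w w')

/-- good families -/
structure Gd (S : L.Structure M) (G : Set M) (n : ℕ) {β : Type} (V : Set (β → M)) : Prop where
  fam : Fam V
  eqv : Eqv S G n V V

/-- `V` is a finite union of good families, up to a countable set. -/
def PT (S : L.Structure M) (G : Set M) (n : ℕ) {β : Type} (V : Set (β → M)) : Prop :=
  ∃ (k : ℕ) (U : Fin k → Set (β → M)), (∀ i, U i ⊆ V ∧ Gd S G n (U i)) ∧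
    (V \ ⋃ i, U i).Countable

/-! ## Generic sequences -/

/-- closure operator -/
structure IsCl {M : Type} (cl : Set M → Set M) : Prop where
  mono : ∀ A B, A ⊆ B → cl A ⊆ cl B
  sub : ∀ A, A ⊆ cl A
  ctbl : ∀ A, A.Countable → (cl A).Countable

/-- generic sequences over `A` in the order given by `rk` -/
def Gen {J M : Type} {β : J → Type} (cl : Set M → Set M) (A : Set M) (rk : J → ℕ)
    (w : ∀ j, β j → M) : Prop :=
  ∀ j, Off (cl (A ∪ {x | ∃ i, rk i < rk j ∧ x ∈ range (w i)})) (w j)

/-- Generic sequences of members of the families `V i` have the same types, in any order. -/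
structure Cm (S : L.Structure M) (G : Set M) (n : ℕ) {I : Type} {β : I → Type}
    (V : ∀ i, Set (β i → M)) (cl : Set M → Set M) : Prop where
  icl : IsCl cl
  com : ∀ (J : Type) [Finite J] (l : J → I) (w w' : ∀ j, β (l j) → M) (rk rk' : J → ℕ)
    (A : Set M), A.Countable → Function.Injective rk → Function.Injective rk' →
    (∀ j, w j ∈ V (l j)) → (∀ j, w' j ∈ V (l j)) → Gen cl A rk w → Gen cl A rk' w' →
    TE S G n (dg A ∪ ⋃ j, prs (w j) (w' j))

/-- the induction hypothesis of level `n` -/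
structure PN (S : L.Structure M) (F : Set M) (n : ℕ) : Prop where
  com : ∀ G : Set M, G.Finite → F ⊆ G → ∀ (I : Type) [Countable I] (β : I → Type)
    [∀ i, Finite (β i)] (V : ∀ i, Set (β i → M)), (∀ i, Gd S G n (V i)) →
    ∃ cl, Cm S G n V cl
  pt : ∀ G : Set M, G.Finite → F ⊆ G → ∀ (β : Type) [Finite β] (V : Set (β → M)), Fam V →
    (∃ V' ⊆ V, Gd S G n V') ∧ PT S G n V
  cc : ∀ G : Set M, G.Finite → F ⊆ G → ∀ (β : Type) [Finite β],
    ¬ ∃ V : ℕ → Set (β → M), (∀ i, Gd S G n (V i)) ∧ ∀ i j, i ≠ j → ¬ Eqv S G n (V i) (V j)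

/-! ## Properties of the structure -/

/-- every `ω₁`-sequence of tuples has a copy along the rationals in a structure with the
pigeonhole principle -/
def VQp (S : L.Structure M) : Prop :=
  ∀ (β : Type) [Finite β] (m : ℕ) (W : Om → β → M) (g : Fin m → M),
    (∀ a p a' p', W a p = W a' p' → a = a' ∧ p = p') →
    ∃ (N : Type) (T : L.Structure N) (F' : Set N) (g' : Fin m → N) (u : ℚ → β → N),
      F'.Finite ∧ Pig T F' ∧ ∀ (s : ℕ) (q : Fin s → ℚ), StrictMono q →
        ∃ a : Fin s → Om, StrictMono a ∧ AtEq S T (prs g g' ∪ ⋃ j, prs (W (a j)) (u (q j)))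

/-- the pairs of the permutation of `X` which exchanges `w` and `w'` -/
def SW {β M : Type} (X : Set M) (w w' : β → M) : Set (M × M) :=
  {a | a.1 = a.2 ∧ a.1 ∈ X ∧ a.1 ∉ range w ∧ a.1 ∉ range w'} ∪ prs w w' ∪ prs w' w

/-- Rows `w i 0, ..., w i i` of disjoint tuples in `X`, the exchange of two tuples preserves
the `n`-types of `X` over `G` if and only if they are in the same row. -/
structure Rows (S : L.Structure M) (G : Set M) (n : ℕ) (X : Set M) {β : Type}
    (w : ℕ → ℕ → β → M) : Prop where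
  inX : ∀ i k p, k ≤ i → w i k p ∈ X ∧ w i k p ∉ G
  dis : ∀ i k p j l q, k ≤ i → l ≤ j → w i k p = w j l q → i = j ∧ k = l ∧ p = q
  row : ∀ i k l, k ≤ i → l ≤ i → k ≠ l → TE S G n (SW X (w i k) (w i l))
  non : ∀ i j k l, i ≠ j → k ≤ i → l ≤ j → ¬ TE S G n (SW X (w i k) (w j l))

/-- there are no rows -/
def RowsP (S : L.Structure M) (F : Set M) : Prop :=
  ∀ (G X : Set M) (n : ℕ) (β : Type) [Finite β] (w : ℕ → ℕ → β → M), G.Finite →
    X.Countable → G ⊆ X → X ∩ F ⊆ G → ¬ Rows S G n X w

/-- there are no visible sequences of type `ℚ` of visible tuples -/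
def OrdP (S : L.Structure M) (F : Set M) : Prop :=
  ∀ (G : Set M) (β : Type) [Finite β] [Nonempty β] (u : ℚ → β → M) (B : (β → M) → Prop)
    (O : (β → M) → (β → M) → Prop), G.Finite → F ⊆ G →
    (∀ x p y q, u x p = u y q → x = y ∧ p = q) → (∀ x p, u x p ∉ G) →
    (∀ h h', AtEq S S (dg G ∪ prs h h') → (B h ↔ B h')) →
    (∀ h k h' k', AtEq S S (dg G ∪ prs h h' ∪ prs k k') → (O h k ↔ O h' k')) →
    (∀ x, B (u x)) → (∀ h, (∀ p, ∃ x q, h p = u x q) → B h → ∃ x, range h = range (u x)) →
    (∀ x y h k, x ≠ y → range h = range (u x) → range k = range (u y) → B h → B k →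
      (O h k ↔ x < y)) → False

/-- indiscernible sequences -/
def Ind (S : L.Structure M) (G : Set M) (n : ℕ) {J β : Type} [LinearOrder J]
    (W : J → β → M) : Prop :=
  ∀ (s : ℕ) (a a' : Fin s → J), StrictMono a → StrictMono a' →
    TE S G n (⋃ j, prs (W (a j)) (W (a' j)))

/-- totally indiscernible sequences -/
def TInd (S : L.Structure M) (G : Set M) (n : ℕ) {J β : Type} (W : J → β → M) : Prop :=
  ∀ (s : ℕ) (a a' : Fin s → J), Function.Injective a → Function.Injective a' →
    TE S G n (⋃ j, prs (W (a j)) (W (a' j)))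

/-- the `P`-part of a tuple of the sequence commutes with the `Q`-part of the next tuple -/
def Cmm (S : L.Structure M) (G : Set M) (n : ℕ) {β : Type} (u : ℚ → β → M) (P Q : Set β) :
    Prop :=
  ∀ x y : ℚ, x < y → ∀ C : Set ℚ, (∀ c ∈ C, c < x ∨ y < c) →
    TE S G n (dg {z | ∃ c ∈ C, z ∈ range (u c)} ∪ prt P (u x) (u y) ∪ prt Q (u y) (u x))

/-- indiscernible sequences of length `ω₁` are totally indiscernible -/
def SymP (S : L.Structure M) (F : Set M) : Prop :=
  ∀ (G : Set M) (n : ℕ) (β : Type) [Finite β] (W : Om → β → M), G.Finite → F ⊆ G →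
    (∀ a p a' p', W a p = W a' p' → a = a' ∧ p = p') → Ind S G n W → TInd S G n W

/-- all general properties of the structure -/
structure Cx (S : L.Structure M) (F : Set M) : Prop where
  fin : F.Finite
  unc : ¬ (univ : Set M).Countable
  pig : Pig S F
  vq : VQp S
  ft : ∀ G : Set M, G.Finite → F ⊆ G → FT S G
  rows : RowsP S F
  ord : OrdP S F
  sym : SymP S F

/-! ## Rows -/

/-- two disjoint injective tuples -/
def Dj {β M : Type} (w w' : β → M) : Prop :=
  Function.Injective w ∧ Function.Injective w' ∧ ∀ p q, w p ≠ w' q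

/-- the permutation `σ` of `X` preserves the `n`-types over `G` -/
def NA (S : L.Structure M) (G : Set M) (n : ℕ) (X : Set M) (σ : Equiv.Perm M) : Prop :=
  (∀ x, σ x ∈ X ↔ x ∈ X) ∧ TE S G n {a | a.1 ∈ X ∧ a.2 = σ a.1}

/-- the rows are primitive -/
def RPrim (S : L.Structure M) (G : Set M) (n : ℕ) (X : Set M) {β : Type}
    (w : ℕ → ℕ → β → M) : Prop :=
  ∀ (i k l : ℕ) (Q : Set β), k ≤ i → l ≤ i → k ≠ l → Q.Nonempty → Q ≠ univ →
    ¬ TE S G n (SW X (fun q : Q => w i k q) (fun q : Q => w i l q))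

/-- a primitive row with `K` members -/
structure PRow (S : L.Structure M) (G : Set M) (n : ℕ) (X : Set M) {β : Type} (K : ℕ)
    (w : Fin K → β → M) : Prop where
  inX : ∀ k p, w k p ∈ X ∧ w k p ∉ G
  dis : ∀ k p l q, w k p = w l q → k = l ∧ p = q
  row : ∀ k l, k ≠ l → TE S G n (SW X (w k) (w l))
  prim : ∀ (k l : Fin K) (Q : Set β), k ≠ l → Q.Nonempty → Q ≠ univ →
    ¬ TE S G n (SW X (fun q : Q => w k q) (fun q : Q => w l q))

/-- good blocks: ranges of members of primitive rows -/
def GB (S : L.Structure M) (G : Set M) (n : ℕ) (X : Set M) (β : Type) (K : ℕ) (B : Set M) :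
    Prop :=
  ∃ w : Fin K → β → M, PRow S G n X K w ∧ ∃ k, B = range (w k)

/-- equivalence of blocks -/
def BE (S : L.Structure M) (G : Set M) (n : ℕ) (X : Set M) (β : Type) (B B' : Set M) : Prop :=
  B = B' ∨ ∃ h h' : β → M, Dj h h' ∧ range h = B ∧ range h' = B' ∧ TE S G n (SW X h h')

/-- the finite sizes of the classes of good blocks -/
def Inv (S : L.Structure M) (G : Set M) (n : ℕ) (X : Set M) (β : Type) (K : ℕ) : Set ℕ :=
  {m | ∃ B, GB S G n X β K B ∧
    {B' | GB S G n X β K B' ∧ BE S G n X β B B'}.encard = (m : ℕ∞)}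

/-- `X'` arises from `X` by removing good blocks, many blocks of each class are kept. -/
structure Trunc (S : L.Structure M) (G : Set M) (n : ℕ) (X : Set M) (β : Type) (K L' : ℕ)
    (X' : Set M) : Prop where
  sub : X' ⊆ X
  sup : ∀ x ∈ X, x ∉ X' → ∃ B, GB S G n X β K B ∧ x ∈ B ∧ Disjoint B X'
  keep : ∀ B, GB S G n X β K B → ¬ B ⊆ X' →
    (L' : ℕ∞) ≤ {B' | GB S G n X β K B' ∧ BE S G n X β B B' ∧ B' ⊆ X'}.encard

/-! ## Commuting families -/

/-- the types which meet `A` are the same for all generic sequences -/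
structure PCm (S : L.Structure M) (G : Set M) (n : ℕ) {I : Type} {β : I → Type}
    (V : ∀ i, Set (β i → M)) (cl : Set M → Set M) : Prop where
  icl : IsCl cl
  com : ∀ (J : Type) [Finite J] (l : J → I) (w w' : ∀ j, β (l j) → M) (rk rk' : J → ℕ)
    (A : Set M), A.Countable → Function.Injective rk → Function.Injective rk' →
    (∀ j, w j ∈ V (l j)) → (∀ j, w' j ∈ V (l j)) → Gen cl A rk w → Gen cl A rk' w' →
    ∀ g ∈ A, TE S (insert g G) n (dg A ∪ ⋃ j, prs (w j) (w' j))

/-- `c` and `c'` see later members of the families in the same way. -/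
def Dat (S : L.Structure M) (G : Set M) (n : ℕ) {I : Type} {β : I → Type}
    (V : ∀ i, Set (β i → M)) (cl : Set M → Set M) {γ : Type} (c c' : γ → M) : Prop :=
  ∀ (J : Type) [Finite J] (l : J → I) (w : ∀ j, β (l j) → M) (rk : J → ℕ),
    Function.Injective rk → (∀ j, w j ∈ V (l j)) → Gen cl (range c ∪ range c') rk w →
    TE S G n (prs c c' ∪ ⋃ j, dg (range (w j)))

/-! ## One family -/

/-- The proper parts of the family `V` are good of level `n + 1`, `V` is good of level `n`. -/
structure PG (S : L.Structure M) (G : Set M) (n : ℕ) {β : Type} (V : Set (β → M)) : Prop where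
  fam : Fam V
  pg : ∀ A : Set M, A.Countable → ∃ E : Set M, E.Countable ∧
    ∀ w ∈ V, ∀ w' ∈ V, Off E w → Off E w' →
      (∀ P : Set β, P ≠ univ → TE S G (n + 1) (dg A ∪ prt P w w')) ∧
      TE S G n (dg A ∪ prs w w')

/-- the label of `U` on the family `V` is trivial -/
def Trv (S : L.Structure M) (G : Set M) {β : Type} (V : Set (β → M)) (U : Set M) : Prop :=
  ∃ E : Set M, E.Countable ∧ ∀ w ∈ V, ∀ w' ∈ V, Off E w → Off E w' →
    AtEq S S (dg G ∪ dg U ∪ prs w w')

/-- the labels of the sets of at most `k` elements which meet `A` and a generic member are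
trivial -/
def FPp (S : L.Structure M) (G : Set M) (k : ℕ) {β : Type} (V : Set (β → M)) : Prop :=
  ∀ A : Set M, A.Countable → ∃ E : Set M, E.Countable ∧ ∀ w ∈ V, Off E w →
    ∀ U : Set M, U.encard ≤ k → (U ∩ A).Nonempty → (U ∩ range w).Nonempty → Trv S G V U

/-- Types of level `n` which meet `A` are the same for all generic sequences, except those of
one full tuple of the family. -/
structure MX (S : L.Structure M) (G : Set M) (n : ℕ) {β : Type} (V : Set (β → M))
    (cl : Set M → Set M) : Prop where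
  icl : IsCl cl
  mx : ∀ (J : Type) [Finite J] (w w' : J → β → M) (rk rk' : J → ℕ) (A : Set M),
    A.Countable → Function.Injective rk → Function.Injective rk' → (∀ j, w j ∈ V) →
    (∀ j, w' j ∈ V) → Gen cl A rk w → Gen cl A rk' w' →
    ∀ q ⊆ dg A ∪ ⋃ j, prs (w j) (w' j), q.encard ≤ n → (q ∩ dg A).Nonempty →
      (¬ ∃ j, prs (w j) (w' j) ⊆ q ∧ q ⊆ dg A ∪ prs (w j) (w' j)) → AtEq S S (dg G ∪ q)

/-- `c` and `c'` see later members of the family in the same way, up to single full tuples. -/
def HM (S : L.Structure M) (G : Set M) (n : ℕ) {β : Type} (V : Set (β → M))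
    (cl : Set M → Set M) (c c' : β → M) : Prop :=
  ∀ (J : Type) [Finite J] (w : J → β → M) (rk : J → ℕ), Function.Injective rk →
    (∀ j, w j ∈ V) → Gen cl (range c ∪ range c') rk w →
    ∀ q ⊆ prs c c' ∪ ⋃ j, dg (range (w j)), q.encard ≤ n →
      (¬ ∃ j, dg (range (w j)) ⊆ q ∧ q ⊆ prs c c' ∪ dg (range (w j))) → AtEq S S (dg G ∪ q)

/-- all generic pairs have the same type -/
def PR2 (S : L.Structure M) (G : Set M) (n : ℕ) {β : Type} (V : Set (β → M))
    (cl : Set M → Set M) : Prop :=
  ∀ c ∈ V, ∀ w ∈ V, ∀ c' ∈ V, ∀ w' ∈ V, Off (cl (range c)) w → Off (cl (range c')) w' →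
    TE S G n (prs c c' ∪ prs w w')

/-- generic sequences of members of the family have the same types, in any order -/
def Tot (S : L.Structure M) (G : Set M) (n : ℕ) {β : Type} (V : Set (β → M))
    (cl : Set M → Set M) : Prop :=
  ∀ (J : Type) [Finite J] (w w' : J → β → M) (rk rk' : J → ℕ), Function.Injective rk →
    Function.Injective rk' → (∀ j, w j ∈ V) → (∀ j, w' j ∈ V) → Gen cl ∅ rk w →
    Gen cl ∅ rk' w' → TE S G n (⋃ j, prs (w j) (w' j))

/-! ## Coloured sets -/

/-- the properties of a coloured set which are used for `St_CLA` -/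
structure CSA {M C : Type} (inv : C → C) (col : M → M → C) : Prop where
  inv2 : ∀ c, inv (inv c) = c
  sym : ∀ x y, col y x = inv (col x y)
  cnt : ∀ (n : ℕ) (a : Fin n → M) (φ : (Fin n → C) → (Fin n → C) → C → Prop)
    (X : (ℕ → Bool) → Set M), (∀ f, (X f).Countable ∧ (X f).Infinite ∧ range a ⊆ X f) →
    ∃ f g, f ≠ g ∧ Cnt col a φ (X f) = Cnt col a φ (X g)
  rat : ∀ (i : ℚ → M) (κ : C), Function.Injective i → (∀ p q, p < q → col (i p) (i q) = κ) →
    inv κ = κ
  seq1 : ∀ (s : Om → M) (κ : C), Function.Injective s → (∀ a b, a < b → col (s a) (s b) = κ) →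
    inv κ = κ

end HERN
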