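import Pool.Agent.HERN.St

/-!
# HERN: [PA3] the group of relabellings is minimal
-/

set_option autoImplicit false
set_option linter.unusedVariables false

namespace HERN

open Set Pool.Agent.Helper5.DU Pool.Agent.Helper6.Str Pool.Agent.Helper79.VC
  Pool.Agent.Helper97.LO Pool.Agent.Helper97.VC HER

section PA3

variable {L : FirstOrder.Language.{0, 0}} {M β : Type} {S : L.Structure M} {G D : Set M} {n : ℕ}

private theorem PA3_trans {a b c : β → M} (h : TE S G n (dg D ∪ prs a b))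
    (h' : TE S G n (dg D ∪ prs b c)) : TE S G n (dg D ∪ prs a c) := by
  refine h.comp h' ?_
  rintro _ (⟨x, hx, rfl⟩ | ⟨p, rfl⟩)
  · exact ⟨x, Or.inl ⟨x, hx, rfl⟩, Or.inl ⟨x, hx, rfl⟩⟩
  · exact ⟨b p, Or.inr ⟨p, rfl⟩, Or.inr ⟨p, rfl⟩⟩

/-- relabellings which preserve the type -/
private def PA3_P (S : L.Structure M) (G D : Set M) (n : ℕ) (w : β → M) : Set (Equiv.Perm β) :=
  {π | TE S G n (dg D ∪ prs (w ∘ π) w)}

private theorem PA3_P_sub {w w' : β → M} (h : TE S G n (dg D ∪ prs w w'))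
    (h' : TE S G n (dg D ∪ prs w' w)) : PA3_P S G D n w ⊆ PA3_P S G D n w' := by
  intro π hπ
  have h1 : TE S G n (dg D ∪ prs (w' ∘ π) (w ∘ π)) := by
    rw [prs_comp_perm]; exact h'
  exact PA3_trans h1 (PA3_trans hπ h)

end PA3

theorem thm_PA3 : St_PA3 := by
  classical
  intro L M S F G n β _ V D hFT hG hFG hD hV
  -- refining a family
  have key : ∀ (V' : Set (β → M)) (D' : Set M), D'.Finite →
      ∃ (C : Type) (_ : Finite C) (t : (β → M) → C),
        ∀ v v', t v = t v' → TE S G n (dg D' ∪ prs v v') := by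
    intro V' D' hD'
    obtain ⟨C, hC, t, ht⟩ := hFT (G ∪ D') (hG.union hD') (hFG.trans subset_union_left) β
    refine ⟨C, hC, t, fun v v' hvv' q hq _ => ((ht v v').1 hvv').anti ?_⟩
    rintro a (⟨x, hx, rfl⟩ | ha)
    · exact Or.inl ⟨x, Or.inl hx, rfl⟩
    · rcases hq ha with ⟨x, hx, rfl⟩ | ha
      · exact Or.inl ⟨x, Or.inr hx, rfl⟩
      · exact Or.inr ha
  -- admissible pairs
  let A : Set M → Set (β → M) → Prop := fun D' V' => D ⊆ D' ∧ D'.Finite ∧ V' ⊆ V ∧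
    ¬ V'.Countable ∧ ∀ w ∈ V', ∀ w' ∈ V', TE S G n (dg D' ∪ prs w w')
  have hex : ∃ N : ℕ, ∃ D' V', A D' V' ∧ ∃ w ∈ V', (PA3_P S G D' n w).ncard = N := by
    obtain ⟨C, hC, t, ht⟩ := key V D hD
    obtain ⟨c, hc⟩ := exists_uncountable_fiber hV.unc t
    have h1 : ∃ w, w ∈ {w ∈ V | t w = c} := by
      by_contra h2
      push Not at h2
      exact hc ((Set.eq_empty_of_forall_notMem h2) ▸ countable_empty)
    obtain ⟨w, hw⟩ := h1
    refine ⟨_, D, {w ∈ V | t w = c}, ⟨Subset.rfl, hD, fun w hw => hw.1, hc, ?_⟩, w, hw, rfl⟩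
    intro w hw w' hw'
    exact ht w w' (hw.2.trans hw'.2.symm)
  obtain ⟨D', V', ⟨hDD', hD', hV', hu, hTE⟩, w₀, hw₀, hN⟩ := Nat.find_spec hex
  have hmin : ∀ D'' V'', A D'' V'' → ∀ w ∈ V'',
      (PA3_P S G D' n w₀).ncard ≤ (PA3_P S G D'' n w).ncard := by
    intro D'' V'' hA w hw
    rw [hN]
    exact Nat.find_min' hex ⟨D'', V'', hA, w, hw, rfl⟩
  refine ⟨D', hDD', hD', V', hV', hu, hTE, fun w hw => ?_⟩
  obtain ⟨C, hC, t, ht⟩ := key V' (D' ∪ range w) (hD'.union (finite_range w))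
  let B : Set (β → M) := ⋃ c ∈ {c : C | {w' ∈ V' | t w' = c}.Countable}, {w' ∈ V' | t w' = c}
  have hB : B.Countable := Countable.biUnion (to_countable _) fun c hc => hc
  refine ⟨{x | ∃ w' ∈ B, x ∈ range w'}, countable_ranges hB, fun w' hw' hoff π hπ => ?_⟩
  have hfam : Fam V' := hV.mono hV' hu
  have hunc : ¬ {v ∈ V' | t v = t w'}.Countable := by
    intro hc
    obtain ⟨p⟩ := hfam.nonempty
    refine hoff p ⟨w', ?_, mem_range_self p⟩
    exact mem_biUnion (show t w' ∈ {c : C | {w' ∈ V' | t w' = c}.Countable} from hc) ⟨hw', rfl⟩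
  have hA : A (D' ∪ range w) {v ∈ V' | t v = t w'} :=
    ⟨hDD'.trans subset_union_left, hD'.union (finite_range w), fun v hv => hV' hv.1, hunc,
      fun v hv v' hv' => ht v v' (hv.2.trans hv'.2.symm)⟩
  have h1 := hmin _ _ hA w' ⟨hw', rfl⟩
  have h2 : PA3_P S G D' n w' ⊆ PA3_P S G D' n w₀ :=
    PA3_P_sub (hTE w' hw' w₀ hw₀) (hTE w₀ hw₀ w' hw')
  have h3 : PA3_P S G (D' ∪ range w) n w' ⊆ PA3_P S G D' n w' := by
    intro ρ hρ
    refine TE.anti hρ ?_
    rintro a (⟨x, hx, rfl⟩ | ha)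
    · exact Or.inl ⟨x, Or.inl hx, rfl⟩
    · exact Or.inr ha
  have h4 : PA3_P S G (D' ∪ range w) n w' = PA3_P S G D' n w₀ :=
    Set.eq_of_subset_of_ncard_le (h3.trans h2) h1 (toFinite _)
  have h5 : π ∈ PA3_P S G (D' ∪ range w) n w' := by
    rw [h4]
    exact h2 hπ
  refine TE.anti h5 ?_
  rintro a (⟨x, hx, rfl⟩ | ha)
  · exact Or.inl ⟨x, Or.inr hx, rfl⟩
  · exact Or.inr ha

end HERN
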