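import Pool.Agent.HERN.St

/-!
# HERN, module RKP: truncated sets
-/

set_option autoImplicit false
set_option linter.unusedVariables false

namespace HERN

open Set Pool.Agent.Helper5.DU Pool.Agent.Helper6.Str Pool.Agent.Helper79.VC
  Pool.Agent.Helper97.LO Pool.Agent.Helper97.VC HER

variable {L : FirstOrder.Language.{0, 0}} {M : Type} {S : L.Structure M} {G : Set M} {n : ℕ}
  {X X' : Set M} {β : Type} {K L' : ℕ}

theorem RKP_GB_sub {B : Set M} (h : GB S G n X β K B) : B ⊆ X := by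
  obtain ⟨w, hw, k, rfl⟩ := h
  rintro _ ⟨p, rfl⟩
  exact (hw.inX k p).1

theorem RKP_GB_off {B : Set M} (h : GB S G n X β K B) : ∀ x ∈ B, x ∉ G := by
  obtain ⟨w, hw, k, rfl⟩ := h
  rintro _ ⟨p, rfl⟩
  exact (hw.inX k p).2

/-- a kept block of the class of a removed block which avoids a small set -/
theorem RKP_avoid (hB : St_RGB) [Finite β] (hK : 2 * Nat.card β + n + 6 ≤ K)
    (hT : Trunc S G n X β K L' X') {B : Set M} (hGB : GB S G n X β K B) (hBX : ¬ B ⊆ X')
    {W : Set M} (hW : W.encard < (L' : ℕ∞)) :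
    ∃ B', GB S G n X β K B' ∧ BE S G n X β B B' ∧ B' ⊆ X' ∧ Disjoint B' W := by
  classical
  by_contra hcon
  push Not at hcon
  have h1 := hT.keep B hGB hBX
  have h2 : {B' | GB S G n X β K B' ∧ BE S G n X β B B' ∧ B' ⊆ X'}.encard ≤ W.encard := by
    have h3 : ∀ B' : Set M, (GB S G n X β K B' ∧ BE S G n X β B B' ∧ B' ⊆ X') →
        ∃ x, x ∈ B' ∧ x ∈ W := by
      rintro B' ⟨h4, h5, h6⟩
      have := hcon B' h4 h5 h6
      rw [Set.not_disjoint_iff] at this
      exact this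
    have h3' : ∀ B' : Set M, ∃ x : M, (GB S G n X β K B' ∧ BE S G n X β B B' ∧ B' ⊆ X') →
        x ∈ B' ∧ x ∈ W := by
      intro B'
      by_cases h : GB S G n X β K B' ∧ BE S G n X β B B' ∧ B' ⊆ X'
      · obtain ⟨x, hx⟩ := h3 B' h
        exact ⟨x, fun _ => hx⟩
      · by_cases hM : Nonempty M
        · exact ⟨hM.some, fun h' => absurd h' h⟩
        · exfalso
          have : IsEmpty M := not_nonempty_iff.mp hM
          apply hBX
          intro x
          exact isEmptyElim x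
    choose f hf using h3'
    refine Set.encard_le_encard_of_injOn (f := f) (fun B' hB' => (hf B' hB').2) ?_
    intro B1 h7 B2 h8 h9
    rcases hB L M S G n X β K B1 B2 hK h7.1 h8.1 with h10 | h10
    · exact h10
    · exact (Set.disjoint_left.mp h10 (hf B1 h7).1 (h9 ▸ (hf B2 h8).1)).elim
  exact absurd (h1.trans h2) (not_le.mpr hW)

theorem RKP_move (hN : St_NAB) (hB : St_RGB) [Finite β] (hK : 2 * Nat.card β + n + 6 ≤ K)
    (hL : K + n + 2 * Nat.card β ≤ L') (hT : Trunc S G n X β K L' X') (m : ℕ) :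
    ∀ U V : Set M, U ⊆ X' → V ⊆ X → U.encard ≤ ((2 * Nat.card β : ℕ) : ℕ∞) →
      V.encard ≤ (n : ℕ∞) → (V \ X').encard ≤ (m : ℕ∞) →
      ∃ σ : Equiv.Perm M, NA S G n X σ ∧ (∀ x ∈ U, σ x = x) ∧ ∀ x ∈ V, σ x ∈ X' := by
  obtain ⟨hN1, hN2, -, hN4⟩ := hN L M S G n X
  induction m with
  | zero =>
    intro U V hU hV _ _ h0
    have h1 : V \ X' = ∅ := by
      rw [← Set.encard_eq_zero]
      exact le_antisymm (by simpa using h0) zero_le
    refine ⟨1, hN1, fun x _ => rfl, fun x hx => ?_⟩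
    by_contra h2
    have : x ∈ V \ X' := ⟨hx, h2⟩
    rw [h1] at this
    exact this
  | succ m ih =>
    intro U V hU hV hUn hVn hm
    by_cases h1 : V ⊆ X'
    · exact ⟨1, hN1, fun x _ => rfl, fun x hx => h1 hx⟩
    obtain ⟨x, hx, hx'⟩ := Set.not_subset.mp h1
    obtain ⟨B, hGB, hxB, hBd⟩ := hT.sup x (hV hx) hx'
    have hBX : ¬ B ⊆ X' := fun h => hx' (h hxB)
    have hW : (U ∪ V).encard < (L' : ℕ∞) := by
      refine lt_of_le_of_lt ((Set.encard_union_le U V).trans (add_le_add hUn hVn)) ?_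
      have : 2 * Nat.card β + n < L' := by omega
      exact_mod_cast this
    obtain ⟨B', hGB', hBE, hB'X, hB'd⟩ := RKP_avoid hB hK hT hGB hBX hW
    rcases hBE with h2 | ⟨h, h', hDj, rfl, rfl, hTE⟩
    · subst h2
      exact absurd hB'X hBX
    have hhX : ∀ p, h p ∈ X := fun p => RKP_GB_sub hGB (mem_range_self p)
    have hh'X : ∀ p, h' p ∈ X := fun p => hT.sub (hB'X (mem_range_self p))
    obtain ⟨σ, hσ1, hσ2, hσ3, hσ4⟩ := hN4 β h h' hDj hhX hh'X
    have hσ := hσ4.mpr hTE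
    have hV1 : σ '' V ⊆ X := by
      rintro _ ⟨v, hv, rfl⟩
      exact (hσ.1 v).mpr (hV hv)
    have hdiff : σ '' V \ X' ⊆ (V \ X') \ {x} := by
      rintro _ ⟨⟨v, hv, rfl⟩, hv'⟩
      have hvh : v ∉ range h := by
        rintro ⟨p, rfl⟩
        apply hv'
        rw [hσ1]
        exact hB'X (mem_range_self p)
      have hvh' : v ∉ range h' := fun hh => Set.disjoint_left.mp hB'd hh (Or.inr hv)
      have hfix := hσ3 v hvh hvh'
      rw [hfix] at hv' ⊢
      refine ⟨⟨hv, hv'⟩, fun h3 => ?_⟩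
      rw [mem_singleton_iff] at h3
      subst h3
      exact hvh hxB
    have hcard : (σ '' V \ X').encard ≤ (m : ℕ∞) := by
      refine (Set.encard_le_encard hdiff).trans ?_
      have h3 : x ∈ V \ X' := ⟨hx, hx'⟩
      have h4 := Set.encard_sdiff_singleton_add_one h3
      rw [← h4] at hm
      have h5 : ((V \ X') \ {x}).encard + 1 ≤ (m : ℕ∞) + 1 := by
        have : ((m + 1 : ℕ) : ℕ∞) = (m : ℕ∞) + 1 := by push_cast; rfl
        rw [this] at hm
        exact hm
      exact (WithTop.add_le_add_iff_right (WithTop.one_ne_top)).mp h5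
    obtain ⟨τ, hτ, hτU, hτV⟩ := ih U (σ '' V) hU hV1 hUn
      ((Set.encard_image_le _ _).trans hVn) hcard
    refine ⟨τ * σ, hN2 τ σ hτ hσ, fun y hy => ?_, fun y hy => ?_⟩
    · have hyh : y ∉ range h := fun hh => Set.disjoint_left.mp hBd hh (hU hy)
      have hyh' : y ∉ range h' := fun hh => Set.disjoint_left.mp hB'd hh (Or.inl hy)
      rw [Equiv.Perm.mul_apply, hσ3 y hyh hyh', hτU y hy]
    · rw [Equiv.Perm.mul_apply]
      exact hτV _ ⟨y, hy, rfl⟩

theorem RKP_card_sub [Finite β] (Q : Set β) : Nat.card Q ≤ Nat.card β :=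
  Nat.card_le_card_of_injective (fun q : Q => (q : β)) Subtype.val_injective

theorem thm_RKP (hN : St_NAB) (hB : St_RGB) (hC : St_RCL) (hM : St_RMV) : St_RKP := by
  intro L M S G n X β _ K L' X' hGX hK hL hT
  have hG : G ⊆ X' := by
    intro g hg
    by_contra h1
    obtain ⟨B, hGB, hgB, -⟩ := hT.sup g (hGX hg) h1
    exact RKP_GB_off hGB g hgB hg
  have hmv : ∀ (γ : Type) [Finite γ] (h h' : γ → M), Nat.card γ ≤ Nat.card β → Dj h h' →
      (∀ p, h p ∈ X' ∧ h' p ∈ X') → (TE S G n (SW X' h h') ↔ TE S G n (SW X h h')) := by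
    intro γ _ h h' hγ
    refine hM L M S G n X X' (2 * Nat.card β) hG hT.sub ?_ γ h h' (by omega)
    intro U V hU hV hUn hVn
    have hfin : (V \ X').Finite := (Set.finite_of_encard_le_coe hVn).subset sdiff_subset
    refine RKP_move hN hB hK hL hT (V \ X').ncard U V hU hV hUn hVn ?_
    rw [hfin.cast_ncard_eq]
  -- rows in the two sets
  have hrow : ∀ w : Fin K → β → M, (∀ k p, w k p ∈ X') →
      (PRow S G n X' K w ↔ PRow S G n X K w) := by
    intro w hw
    have hparts : ∀ (hd : ∀ k p l q, w k p = w l q → k = l ∧ p = q) (k l : Fin K) (Q : Set β),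
        k ≠ l → (TE S G n (SW X' (fun q : Q => w k q) (fun q : Q => w l q)) ↔
          TE S G n (SW X (fun q : Q => w k q) (fun q : Q => w l q))) := by
      intro hd k l Q hkl
      refine hmv Q _ _ (RKP_card_sub Q) ⟨?_, ?_, ?_⟩ fun p => ⟨hw _ _, hw _ _⟩
      · intro p q hpq
        exact Subtype.ext (hd _ _ _ _ hpq).2
      · intro p q hpq
        exact Subtype.ext (hd _ _ _ _ hpq).2
      · intro p q hpq
        exact hkl (hd _ _ _ _ hpq).1
    have hfull : ∀ (hd : ∀ k p l q, w k p = w l q → k = l ∧ p = q) (k l : Fin K),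
        k ≠ l → (TE S G n (SW X' (w k) (w l)) ↔ TE S G n (SW X (w k) (w l))) := by
      intro hd k l hkl
      refine hmv β _ _ le_rfl ⟨?_, ?_, ?_⟩ fun p => ⟨hw _ _, hw _ _⟩
      · intro p q hpq
        exact (hd _ _ _ _ hpq).2
      · intro p q hpq
        exact (hd _ _ _ _ hpq).2
      · intro p q hpq
        exact hkl (hd _ _ _ _ hpq).1
    constructor
    · intro h
      refine ⟨fun k p => ⟨hT.sub (h.inX k p).1, (h.inX k p).2⟩, h.dis, fun k l hkl =>
        (hfull h.dis k l hkl).mp (h.row k l hkl), fun k l Q hkl hQ hQ' h1 =>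
        h.prim k l Q hkl hQ hQ' ((hparts h.dis k l Q hkl).mpr h1)⟩
    · intro h
      refine ⟨fun k p => ⟨hw k p, (h.inX k p).2⟩, h.dis, fun k l hkl =>
        (hfull h.dis k l hkl).mpr (h.row k l hkl), fun k l Q hkl hQ hQ' h1 =>
        h.prim k l Q hkl hQ hQ' ((hparts h.dis k l Q hkl).mp h1)⟩
  refine ⟨hG, fun B => ⟨?_, ?_⟩, ?_⟩
  · rintro ⟨w, hw, k, rfl⟩
    refine ⟨⟨w, (hrow w fun k p => (hw.inX k p).1).mp hw, k, rfl⟩, ?_⟩
    rintro _ ⟨p, rfl⟩
    exact (hw.inX k p).1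
  · rintro ⟨hGB, hBX'⟩
    obtain ⟨hC1, hC2, hC3, -⟩ := hC L M S G n X β K hK
    obtain ⟨w, hw, k, rfl⟩ := hGB
    by_cases h1 : ∀ l, range (w l) ⊆ X'
    · exact ⟨w, (hrow w fun l p => h1 l (mem_range_self p)).mpr hw, k, rfl⟩
    · push Not at h1
      obtain ⟨l, hl⟩ := h1
      have hkl : l ≠ k := by
        rintro rfl
        exact hl hBX'
      have hGl : GB S G n X β K (range (w l)) := ⟨w, hw, l, rfl⟩
      have hGk : GB S G n X β K (range (w k)) := ⟨w, hw, k, rfl⟩
      have hBE : BE S G n X β (range (w l)) (range (w k)) := by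
        refine Or.inr ⟨w l, w k, ⟨?_, ?_, ?_⟩, rfl, rfl, hw.row l k hkl⟩
        · intro p q hpq
          exact (hw.dis _ _ _ _ hpq).2
        · intro p q hpq
          exact (hw.dis _ _ _ _ hpq).2
        · intro p q hpq
          exact hkl (hw.dis _ _ _ _ hpq).1
      have hkeep := hT.keep _ hGl hl
      set 𝒦 : Set (Set M) := {B' | GB S G n X β K B' ∧ BE S G n X β (range (w l)) B' ∧ B' ⊆ X'}
        with h𝒦
      have hk𝒦 : range (w k) ∈ 𝒦 := ⟨hGk, hBE, hBX'⟩
      have hK1 : ((1 : ℕ) : ℕ∞) ≤ (K : ℕ∞) := by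
        have : 1 ≤ K := by omega
        exact_mod_cast this
      obtain ⟨T, hT1, hT2, hT3⟩ := Set.exists_superset_subset_encard_eq
        (s := {range (w k)}) (t := 𝒦) (k := (K : ℕ∞)) (by simpa using hk𝒦)
        (by rw [Set.encard_singleton]; exact_mod_cast hK1)
        (le_trans (by exact_mod_cast (show K ≤ L' by omega)) hkeep)
      have hTfin : T.Finite := Set.finite_of_encard_eq_coe hT3
      have hTcard : Nat.card T = K := by
        rw [Nat.card_coe_set_eq, Set.ncard_def, hT3]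
        rfl
      have : Finite T := hTfin
      let e : T ≃ Fin K := Finite.equivFinOfCardEq hTcard
      let C : Fin K → Set M := fun i => (e.symm i : Set M)
      have hCinj : Function.Injective C := fun i j hij => e.symm.injective (Subtype.ext hij)
      have hC𝒦 : ∀ i, C i ∈ 𝒦 := fun i => hT2 (e.symm i).2
      obtain ⟨v, hv, hvC⟩ := hC3 (range (w k)) K C hGk hCinj fun i =>
        ⟨(hC𝒦 i).1, hC2 _ _ _ hGk hGl (hC𝒦 i).1 (hC1 _ _ hBE) (hC𝒦 i).2.1⟩
      have hv' : ∀ i p, v i p ∈ X' := fun i p => (hC𝒦 i).2.2 (by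
        rw [← hvC i]
        exact mem_range_self p)
      refine ⟨v, (hrow v hv').mpr hv, e ⟨range (w k), hT1 rfl⟩, ?_⟩
      rw [hvC]
      simp [C]
  · intro B B' hBX hBX'
    constructor
    · rintro (h | ⟨h, h', hDj, rfl, rfl, hTE⟩)
      · exact Or.inl h
      · exact Or.inr ⟨h, h', hDj, rfl, rfl, (hmv β h h' le_rfl hDj fun p =>
          ⟨hBX (mem_range_self p), hBX' (mem_range_self p)⟩).mp hTE⟩
    · rintro (h | ⟨h, h', hDj, rfl, rfl, hTE⟩)
      · exact Or.inl h
      · exact Or.inr ⟨h, h', hDj, rfl, rfl, (hmv β h h' le_rfl hDj fun p =>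
          ⟨hBX (mem_range_self p), hBX' (mem_range_self p)⟩).mpr hTE⟩

end HERN
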