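import Pool.Agent.HERN.TE

/-!
# HERN: frozen statements
-/

set_option autoImplicit false
set_option linter.unusedVariables false

namespace HERN

open Set Pool.Agent.Helper5.DU Pool.Agent.Helper6.Str Pool.Agent.Helper79.VC
  Pool.Agent.Helper97.LO Pool.Agent.Helper97.VC HER

/-! ## Combinatorics -/

/-- [RAMN] Ramsey's theorem for `k`-subsets -/
def St_RAMN : Prop := ∀ (C : Type) [Finite C] (k : ℕ) (c : (Fin k → ℕ) → C),
  ∃ (φ : ℕ → ℕ) (κ : C), StrictMono φ ∧ ∀ v : Fin k → ℕ, StrictMono v → c (φ ∘ v) = κ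

/-- [THINB] thinning: `c i m E` is the colour of the element `m` of row `i` and the `k`-tuple `E`
of spine elements -/
def St_THINB : Prop := ∀ (C : Type) [Finite C] (k : ℕ) (c : ℕ → ℕ → (Fin k → ℕ) → C),
  ∃ (φ : ℕ → ℕ) (ψ : ℕ → ℕ → ℕ), StrictMono φ ∧ (∀ i, Function.Injective (ψ i)) ∧
    ∀ i m m', m ≤ i → m' ≤ i → ∀ E : Fin k → ℕ,
      c (φ i) (ψ i m) (φ ∘ E) = c (φ i) (ψ i m') (φ ∘ E)

/-- [SQC] transfinite choice -/
def St_SQC : Prop := ∀ (X : Type) (Y : Set X) (R : Set X → X → Prop),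
  (∀ D ⊆ Y, D.Countable → ∃ x ∈ Y, R D x) →
  ∃ s : Om → X, (∀ a, s a ∈ Y) ∧ ∀ b, R (s '' {a | a < b}) (s b)

/-- [CLAA] `HER.St_CLA` for the weaker properties `CSA` -/
def St_CLAA : Prop := ∀ (M C : Type) [Finite C] (inv : C → C) (col : M → M → C) (Y : Set M),
  CSA inv col → ¬ Y.Countable → ∃ Y' ⊆ Y, ¬ Y'.Countable ∧ ∃ κ, inv κ = κ ∧ Hom col Y' κ

/-! ## Pigeonhole principle -/

/-- [FTN] finitely many types -/
def St_FTN : Prop := ∀ (L : FirstOrder.Language.{0, 0}) (M : Type) (S : L.Structure M)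
  (F : Set M), F.Finite → Infinite M → Pig S F → FT S F

/-! ### Rows -/

/-- [NAB] exchange of two tuples as a permutation -/
def St_NAB : Prop := ∀ (L : FirstOrder.Language.{0, 0}) (M : Type) (S : L.Structure M)
  (G : Set M) (n : ℕ) (X : Set M),
  NA S G n X 1 ∧ (∀ σ τ, NA S G n X σ → NA S G n X τ → NA S G n X (σ * τ)) ∧
  (∀ σ, NA S G n X σ → NA S G n X σ⁻¹) ∧
  ∀ (β : Type) [Finite β] (w w' : β → M), Dj w w' → (∀ p, w p ∈ X) → (∀ p, w' p ∈ X) →
    ∃ σ : Equiv.Perm M, (∀ p, σ (w p) = w' p) ∧ (∀ p, σ (w' p) = w p) ∧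
      (∀ x, x ∉ range w → x ∉ range w' → σ x = x) ∧
      (NA S G n X σ ↔ TE S G n (SW X w w'))

/-- [RPR] primitive rows -/
def St_RPR : Prop := ∀ (L : FirstOrder.Language.{0, 0}) (M : Type) (S : L.Structure M)
  (G : Set M) (n : ℕ) (X : Set M) (β : Type) [Finite β] (w : ℕ → ℕ → β → M),
  Rows S G n X w → ∃ (P : Set β) (φ : ℕ → ℕ), StrictMono φ ∧ P.Nonempty ∧
    Rows S G n X (fun i k (p : P) => w (φ i) k p) ∧
    RPrim S G n X (fun i k (p : P) => w (φ i) k p)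

/-- [RGB] good blocks are equal or disjoint -/
def St_RGB : Prop := ∀ (L : FirstOrder.Language.{0, 0}) (M : Type) (S : L.Structure M)
  (G : Set M) (n : ℕ) (X : Set M) (β : Type) [Finite β] (K : ℕ) (B B' : Set M),
  2 * Nat.card β + n + 6 ≤ K → GB S G n X β K B → GB S G n X β K B' → B = B' ∨ Disjoint B B'

/-- [RCL] classes of good blocks -/
def St_RCL : Prop := ∀ (L : FirstOrder.Language.{0, 0}) (M : Type) (S : L.Structure M)
  (G : Set M) (n : ℕ) (X : Set M) (β : Type) [Finite β] (K : ℕ),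
  2 * Nat.card β + n + 6 ≤ K →
  (∀ B B', BE S G n X β B B' → BE S G n X β B' B) ∧
  (∀ B B' B'', GB S G n X β K B → GB S G n X β K B' → GB S G n X β K B'' →
    BE S G n X β B B' → BE S G n X β B' B'' → BE S G n X β B B'') ∧
  (∀ (B : Set M) (m : ℕ) (C : Fin m → Set M), GB S G n X β K B → Function.Injective C →
    (∀ i, GB S G n X β K (C i) ∧ BE S G n X β B (C i)) →
    ∃ w : Fin m → β → M, PRow S G n X m w ∧ ∀ i, range (w i) = C i) ∧
  ∀ (B : Set M) (m : ℕ) (v : Fin m → β → M), GB S G n X β K B →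
    (∀ i, Function.Injective (v i) ∧ GB S G n X β K (range (v i)) ∧
      BE S G n X β B (range (v i))) →
    (∀ i j, i ≠ j → Disjoint (range (v i)) (range (v j)) ∧
      ¬ TE S G n (SW X (v i) (v j))) → m ≤ (Nat.card β).factorial

/-- [RMV] moving tuples into `X'` -/
def St_RMV : Prop := ∀ (L : FirstOrder.Language.{0, 0}) (M : Type) (S : L.Structure M)
  (G : Set M) (n : ℕ) (X X' : Set M) (d : ℕ), G ⊆ X' → X' ⊆ X →
  (∀ U V : Set M, U ⊆ X' → V ⊆ X → U.encard ≤ d → V.encard ≤ n →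
    ∃ σ : Equiv.Perm M, NA S G n X σ ∧ (∀ x ∈ U, σ x = x) ∧ ∀ x ∈ V, σ x ∈ X') →
  ∀ (γ : Type) [Finite γ] (h h' : γ → M), 2 * Nat.card γ ≤ d → Dj h h' →
    (∀ p, h p ∈ X' ∧ h' p ∈ X') → (TE S G n (SW X' h h') ↔ TE S G n (SW X h h'))

/-- [RKP] truncated sets -/
def St_RKP : Prop := ∀ (L : FirstOrder.Language.{0, 0}) (M : Type) (S : L.Structure M)
  (G : Set M) (n : ℕ) (X : Set M) (β : Type) [Finite β] (K L' : ℕ) (X' : Set M), G ⊆ X →
  2 * Nat.card β + n + 6 ≤ K → K + n + 2 * Nat.card β ≤ L' → Trunc S G n X β K L' X' →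
  G ⊆ X' ∧ (∀ B, GB S G n X' β K B ↔ GB S G n X β K B ∧ B ⊆ X') ∧
    ∀ B B', B ⊆ X' → B' ⊆ X' → (BE S G n X' β B B' ↔ BE S G n X β B B')

/-- [RTR] sets with given sizes of the classes -/
def St_RTR : Prop := ∀ (L : FirstOrder.Language.{0, 0}) (M : Type) (S : L.Structure M)
  (G : Set M) (n : ℕ) (X : Set M) (β : Type) [Finite β] (w : ℕ → ℕ → β → M),
  Nonempty β → G ⊆ X → Rows S G n X w → RPrim S G n X w →
  ∃ K L' : ℕ, ∀ f : ℕ → Bool, ∃ X', G ⊆ X' ∧ X' ⊆ X ∧ X'.Infinite ∧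
    ∀ m, L' < m → (m ∈ Inv S G n X' β K ↔ ∃ i : ℕ, m = L' + 1 + 2 * i + (if f i then 1 else 0))

/-- [RINV] the sizes of the classes are invariant -/
def St_RINV : Prop := ∀ (L : FirstOrder.Language.{0, 0}) (M : Type) (S : L.Structure M)
  (F G : Set M) (n : ℕ) (X Y : Set M) (β : Type) [Finite β] (K : ℕ), F.Finite → G.Finite →
  G ⊆ X → G ⊆ Y → X ∩ F ⊆ G → Y ∩ F ⊆ G →
  BFR S S (X ∪ F) (Y ∪ F) Ordinal.omega0 (dg (G ∪ F)) → Inv S G n X β K ⊆ Inv S G n Y β K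

/-- [ROWS] there are no rows -/
def St_ROWS : Prop := ∀ (L : FirstOrder.Language.{0, 0}) (M : Type) (S : L.Structure M)
  (F : Set M), F.Finite → Pig S F → RowsP S F

/-! ### Sequences -/

/-- [VQ] copies of `ω₁`-sequences along the rationals -/
def St_VQ : Prop := ∀ (L : FirstOrder.Language.{0, 0}) [∀ n, IsEmpty (L.Functions n)]
  [∀ n, Countable (L.Relations n)] (K : Set (L.Structure ℕ)) (δ : Ordinal.{0}) (M : Type)
  (S : L.Structure M), VSt K δ S → HerK K → VQp S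

/-- [ORDB] visible sequences of visible tuples are decoded -/
def St_ORDB : Prop := ∀ (L : FirstOrder.Language.{0, 0}) (M : Type) (S : L.Structure M)
  (F : Set M), F.Finite → Pig S F → OrdP S F

/-- [SYA] adjacent transpositions -/
def St_SYA : Prop := ∀ (L : FirstOrder.Language.{0, 0}) (M : Type) (S : L.Structure M)
  (G : Set M) (n : ℕ) (β : Type) (u : ℚ → β → M),
  (∀ x p y q, u x p = u y q → x = y ∧ p = q) → Ind S G n u → Cmm S G n u univ univ →
  TInd S G n u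

/-- [SYB] different parts which do not commute -/
def St_SYB : Prop := ∀ (L : FirstOrder.Language.{0, 0}) (M : Type) (S : L.Structure M)
  (F G : Set M) (n : ℕ) (β : Type) [Finite β] (u : ℚ → β → M) (P Q : Set β), RowsP S F →
  F.Finite → G.Finite → (∀ x p y q, u x p = u y q → x = y ∧ p = q) →
  (∀ x p, u x p ∉ F ∪ G) → Ind S G n u → ¬ Cmm S G n u P Q → (∀ P' ⊂ P, Cmm S G n u P' Q) →
  (∀ Q' ⊂ Q, Cmm S G n u P Q') → Cmm S G n u Q Q → False

/-- [SYC] equal parts which do not commute -/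
def St_SYC : Prop := ∀ (L : FirstOrder.Language.{0, 0}) (M : Type) (S : L.Structure M)
  (F G : Set M) (n : ℕ) (β : Type) [Finite β] (u : ℚ → β → M) (Q : Set β), OrdP S F →
  F.Finite → G.Finite → (∀ x p y q, u x p = u y q → x = y ∧ p = q) →
  (∀ x p, u x p ∉ F ∪ G) → Ind S G n u → ¬ Cmm S G n u Q Q → (∀ Q' ⊂ Q, Cmm S G n u Q' Q) →
  False

/-- [SYD] rational sequences -/
def St_SYD : Prop := ∀ (L : FirstOrder.Language.{0, 0}) (M : Type) (S : L.Structure M)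
  (F G : Set M) (n : ℕ) (β : Type) [Finite β] (u : ℚ → β → M), RowsP S F → OrdP S F →
  F.Finite → G.Finite → (∀ x p y q, u x p = u y q → x = y ∧ p = q) → Ind S G n u →
  TInd S G n u

/-- [SYM] sequences of length `ω₁` -/
def St_SYM : Prop := ∀ (L : FirstOrder.Language.{0, 0}) (M : Type) (S : L.Structure M)
  (F : Set M), VQp S → SymP S F

/-- [CX] all properties -/
def St_CX : Prop := ∀ (L : FirstOrder.Language.{0, 0}) [∀ n, IsEmpty (L.Functions n)]
  [∀ n, Countable (L.Relations n)] (K : Set (L.Structure ℕ)) (δ : Ordinal.{0}) (M : Type)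
  (S : L.Structure M), VSt K δ S → HerK K → ¬ (univ : Set M).Countable → ∃ F, Cx S F

/-! ## Good families -/

/-- [PTF] partition in good families -/
def St_PTF : Prop := ∀ (L : FirstOrder.Language.{0, 0}) (M : Type) (S : L.Structure M)
  (G : Set M) (n : ℕ) (β : Type) [Finite β] (V : Set (β → M)), Fam V →
  (∀ V' ⊆ V, Fam V' → ∃ V'' ⊆ V', Gd S G n V'') →
  (¬ ∃ U : ℕ → Set (β → M), (∀ i, U i ⊆ V ∧ Gd S G n (U i)) ∧
    ∀ i j, i ≠ j → ¬ Eqv S G n (U i) (U j)) → PT S G n V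

/-- [PCM] types which meet `A` -/
def St_PCM : Prop := ∀ (L : FirstOrder.Language.{0, 0}) (M : Type) (S : L.Structure M)
  (F G : Set M) (n : ℕ) (I : Type) [Countable I] (β : I → Type) [∀ i, Finite (β i)]
  (V : ∀ i, Set (β i → M)), PN S F n → G.Finite → F ⊆ G → (∀ i, Gd S G (n + 1) (V i)) →
  ∃ cl, PCm S G n V cl

/-- [DAT] finitely many data -/
def St_DAT : Prop := ∀ (L : FirstOrder.Language.{0, 0}) (M : Type) (S : L.Structure M)
  (G : Set M) (n : ℕ) (I : Type) [Finite I] (β : I → Type) [∀ i, Finite (β i)]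
  (V : ∀ i, Set (β i → M)) (cl : Set M → Set M) (γ : Type) [Finite γ] (Y : Set (γ → M)),
  FT S G → (∀ i, Gd S G (n + 1) (V i)) → PCm S G n V cl → ¬ Y.Countable →
  (∀ c ∈ Y, ∀ c' ∈ Y, ∀ c'' ∈ Y, Dat S G (n + 1) V cl c c' → Dat S G (n + 1) V cl c' c'' →
    Dat S G (n + 1) V cl c c'') ∧
  (∀ c ∈ Y, ∀ c' ∈ Y, Dat S G (n + 1) V cl c c' → Dat S G (n + 1) V cl c' c) ∧
  ∃ (C : Type) (_ : Finite C) (t : (γ → M) → C), ∀ c ∈ Y, ∀ c' ∈ Y, t c = t c' →
    Dat S G (n + 1) V cl c c'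

/-- [INC] uniform systems: generic sequences in the same order -/
def St_INC : Prop := ∀ (L : FirstOrder.Language.{0, 0}) (M : Type) (S : L.Structure M)
  (G : Set M) (n : ℕ) (I : Type) (β : I → Type) [∀ i, Finite (β i)]
  (V : ∀ i, Set (β i → M)) (cl : Set M → Set M), (∀ i, Gd S G (n + 1) (V i)) →
  PCm S G n V cl → (∀ i, ∀ c ∈ V i, ∀ c' ∈ V i, Dat S G (n + 1) V cl c c') →
  ∀ (J : Type) [Finite J] (l : J → I) (w w' : ∀ j, β (l j) → M) (rk : J → ℕ),
    Function.Injective rk → (∀ j, w j ∈ V (l j)) → (∀ j, w' j ∈ V (l j)) → Gen cl ∅ rk w →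
    Gen cl ∅ rk w' → TE S G (n + 1) (⋃ j, prs (w j) (w' j))

/-- [CU] uniform systems are commuting -/
def St_CU : Prop := ∀ (L : FirstOrder.Language.{0, 0}) (M : Type) (S : L.Structure M)
  (F G : Set M) (n : ℕ) (I : Type) [Finite I] (β : I → Type) [∀ i, Finite (β i)]
  (V : ∀ i, Set (β i → M)) (cl : Set M → Set M), SymP S F → G.Finite → F ⊆ G →
  (∀ i, Gd S G (n + 1) (V i)) → PCm S G n V cl →
  (∀ i, ∀ c ∈ V i, ∀ c' ∈ V i, Dat S G (n + 1) V cl c c') → Cm S G (n + 1) V cl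

/-- [CR] finite systems of good families are commuting -/
def St_CR : Prop := ∀ (L : FirstOrder.Language.{0, 0}) (M : Type) (S : L.Structure M)
  (F G : Set M) (n : ℕ) (I : Type) [Finite I] (β : I → Type) [∀ i, Finite (β i)]
  (V : ∀ i, Set (β i → M)) (cl : Set M → Set M), SymP S F → FT S G → G.Finite → F ⊆ G →
  (∀ i, Gd S G (n + 1) (V i)) → PCm S G n V cl → ∃ cl', Cm S G (n + 1) V cl'

/-- [CFC] countable systems -/
def St_CFC : Prop := ∀ (L : FirstOrder.Language.{0, 0}) (M : Type) (S : L.Structure M)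
  (G : Set M) (n : ℕ) (I : Type) [Countable I] (β : I → Type) (V : ∀ i, Set (β i → M)),
  (∀ I' : Finset I, ∃ cl, Cm S G n (fun i : I' => V i) cl) → ∃ cl, Cm S G n V cl

/-- [COM] good families commute, level `n + 1` -/
def St_COM : Prop := ∀ (L : FirstOrder.Language.{0, 0}) (M : Type) (S : L.Structure M)
  (F G : Set M) (n : ℕ) (I : Type) [Countable I] (β : I → Type) [∀ i, Finite (β i)]
  (V : ∀ i, Set (β i → M)), Cx S F → PN S F n → G.Finite → F ⊆ G →
  (∀ i, Gd S G (n + 1) (V i)) → ∃ cl, Cm S G (n + 1) V cl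

/-! ## Existence of good families -/

/-- [PGX] partially good families -/
def St_PGX : Prop := ∀ (L : FirstOrder.Language.{0, 0}) (M : Type) (S : L.Structure M)
  (F G : Set M) (n : ℕ) (β : Type) [Finite β] (V : Set (β → M)), PN S F n → G.Finite →
  F ⊆ G → (∀ (P : Set β) (V' : Set (P → M)), P ≠ univ → Fam V' → PT S G (n + 1) V') →
  Fam V → ∃ V' ⊆ V, PG S G n V'

/-- [PGG] partially good families with trivial labels are good -/
def St_PGG : Prop := ∀ (L : FirstOrder.Language.{0, 0}) (M : Type) (S : L.Structure M)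
  (G : Set M) (n : ℕ) (β : Type) [Finite β] (V : Set (β → M)), PG S G n V →
  (∀ U : Set M, U.encard + Nat.card β ≤ n + 1 → Trv S G V U) → Gd S G (n + 1) V

/-- [PGL] large tuples -/
def St_PGL : Prop := ∀ (L : FirstOrder.Language.{0, 0}) (M : Type) (S : L.Structure M)
  (G : Set M) (n : ℕ) (β : Type) [Finite β] (V : Set (β → M)), FT S G → PG S G n V →
  n + 1 ≤ Nat.card β → ∃ V' ⊆ V, Gd S G (n + 1) V'

/-- [LAB] finitely many labels of tuples containing `g` -/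
def St_LAB : Prop := ∀ (L : FirstOrder.Language.{0, 0}) (M : Type) (S : L.Structure M)
  (G : Set M) (n k : ℕ) (β : Type) [Finite β] (V : Set (β → M)) (g : M), FT S G →
  PT S (insert g G) n V → k + Nat.card β = n + 1 →
  ∃ N : ℕ, ∀ u : Fin (N + 1) → Fin k → M, (∀ i, g ∈ range (u i)) →
    ∃ i j, i ≠ j ∧ ∃ E : Set M, E.Countable ∧ ∀ w ∈ V, Off E w →
      AtEq S S (dg G ∪ prs (u i) (u j) ∪ dg (range w))

/-- [FP] most labels are trivial -/
def St_FP : Prop := ∀ (L : FirstOrder.Language.{0, 0}) (M : Type) (S : L.Structure M)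
  (F G : Set M) (n k : ℕ) (β : Type) [Finite β] (V : Set (β → M)), Cx S F → PN S F n →
  G.Finite → F ⊆ G → PG S G n V → k + Nat.card β = n + 1 →
  ∃ V' ⊆ V, ¬ V'.Countable ∧ FPp S G k V'

/-- [MIX] types which meet `A` -/
def St_MIX : Prop := ∀ (L : FirstOrder.Language.{0, 0}) (M : Type) (S : L.Structure M)
  (F G : Set M) (n k : ℕ) (β : Type) [Finite β] (V : Set (β → M)), PN S F n →
  G.Finite → F ⊆ G → PG S G n V → k + Nat.card β = n + 1 → FPp S G k V →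
  ∃ cl, MX S G (n + 1) V cl

/-- [HOM] homogeneous subfamilies -/
def St_HOM : Prop := ∀ (L : FirstOrder.Language.{0, 0}) (M : Type) (S : L.Structure M)
  (G : Set M) (n : ℕ) (β : Type) [Finite β] (V : Set (β → M)) (cl : Set M → Set M), FT S G →
  Fam V → MX S G n V cl → ∃ V' ⊆ V, ¬ V'.Countable ∧
    ∀ c ∈ V', ∀ c' ∈ V', HM S G n V cl c c'

/-- [PA0] two members which see the members of a family in different ways -/
def St_PA0 : Prop := ∀ (L : FirstOrder.Language.{0, 0}) (M : Type) (S : L.Structure M)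
  (G : Set M) (n : ℕ) (β : Type) [Finite β] (V : Set (β → M)), FT S G → Fam V →
  (∃ V' ⊆ V, ¬ V'.Countable ∧ ∃ cl, IsCl cl ∧ PR2 S G n V' cl) ∨
  ∃ c1 ∈ V, ∃ c2 ∈ V, ∃ V' ⊆ V, ¬ V'.Countable ∧
    ∀ w ∈ V', ¬ TE S G n (prs c1 c2 ∪ dg (range w))

/-- [PA2] tuples which are not members of the family -/
def St_PA2 : Prop := ∀ (L : FirstOrder.Language.{0, 0}) (M : Type) (S : L.Structure M)
  (G : Set M) (n : ℕ) (β : Type) [Finite β] (V V' : Set (β → M)) (cl : Set M → Set M)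
  (c1 c2 : β → M), IsCl cl → Fam V → V' ⊆ V → ¬ V'.Countable → HM S G n V cl c1 c2 →
  ∃ V'' ⊆ V', ¬ V''.Countable ∧ ∀ h : β → M, Function.Injective h →
    (∀ p, ∃ w ∈ V'', h p ∈ range w) → (∀ w ∈ V'', range h ≠ range w) →
    TE S G n (prs c1 c2 ∪ dg (range h))

/-- [PA3] the group of relabellings is minimal -/
def St_PA3 : Prop := ∀ (L : FirstOrder.Language.{0, 0}) (M : Type) (S : L.Structure M)
  (F G : Set M) (n : ℕ) (β : Type) [Finite β] (V : Set (β → M)) (D : Set M),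
  (∀ G : Set M, G.Finite → F ⊆ G → FT S G) → G.Finite → F ⊆ G → D.Finite → Fam V →
  ∃ D' : Set M, D ⊆ D' ∧ D'.Finite ∧ ∃ V' ⊆ V, ¬ V'.Countable ∧
    (∀ w ∈ V', ∀ w' ∈ V', TE S G n (dg D' ∪ prs w w')) ∧
    ∀ w ∈ V', ∃ E : Set M, E.Countable ∧ ∀ w' ∈ V', Off E w' → ∀ π : Equiv.Perm β,
      TE S G n (dg D' ∪ prs (w' ∘ π) w') → TE S G n (dg (range w) ∪ prs (w' ∘ π) w')

/-- the colour of a pair of members of `V` up to relabellings which preserve the type over `D` -/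
def ColE {L : FirstOrder.Language.{0, 0}} {M β : Type} (S : L.Structure M) (G : Set M) (n : ℕ)
    (D : Set M) (w w' v v' : β → M) : Prop :=
  ∃ π π' : Equiv.Perm β, TE S G n (dg D ∪ prs (w ∘ π) w) ∧ TE S G n (dg D ∪ prs (w' ∘ π') w') ∧
    TE S G n (prs (w ∘ π) v ∪ prs (w' ∘ π') v')

/-- visible families -/
structure Vis {L : FirstOrder.Language.{0, 0}} {M β : Type} (S : L.Structure M) (G : Set M)
    (n : ℕ) (D : Set M) (V : Set (β → M)) : Prop where
  fam : Fam V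
  off : ∀ w ∈ V, Off (G ∪ D) w
  eqD : ∀ w ∈ V, ∀ w' ∈ V, TE S G n (dg D ∪ prs w w')
  vis : ∀ h : β → M, (∀ p, ∃ w ∈ V, h p ∈ range w) →
    (∃ w ∈ V, TE S G n (dg D ∪ prs h w)) → ∃ w ∈ V, range h = range w

/-- [PAC] the counting invariants -/
def St_PAC : Prop := ∀ (L : FirstOrder.Language.{0, 0}) (M : Type) (S : L.Structure M)
  (F G : Set M) (n : ℕ) (β : Type) [Finite β] (V : Set (β → M)) (D : Set M) (C : Type)
  (col : V → V → C), F.Finite → Pig S F → G.Finite → F ⊆ G → D.Finite → 2 ≤ n →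
  Vis S G n D V →
  (∀ w w' v v' : V, col w w' = col v v' ↔ ColE S G n D (w : β → M) w' v v') →
  ∀ (k : ℕ) (a : Fin k → V) (φ : (Fin k → C) → (Fin k → C) → C → Prop)
    (X : (ℕ → Bool) → Set V), (∀ f, (X f).Countable ∧ (X f).Infinite ∧ range a ⊆ X f) →
    ∃ f g, f ≠ g ∧ Cnt col a φ (X f) = Cnt col a φ (X g)

/-- [PAR] rational sequences -/
def St_PAR : Prop := ∀ (L : FirstOrder.Language.{0, 0}) (M : Type) (S : L.Structure M)
  (F G : Set M) (n : ℕ) (β : Type) [Finite β] (V : Set (β → M)) (D : Set M), F.Finite →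
  OrdP S F → G.Finite → F ⊆ G → D.Finite → 2 ≤ n → Vis S G n D V →
  ∀ (i : ℚ → β → M), Function.Injective i → (∀ x, i x ∈ V) →
    (∀ x y x' y', x < y → x' < y' → ColE S G n D (i x) (i y) (i x') (i y')) →
    ∀ x y, x < y → ColE S G n D (i x) (i y) (i y) (i x)

/-- [PAS] sequences of length `ω₁` -/
def St_PAS : Prop := ∀ (L : FirstOrder.Language.{0, 0}) (M : Type) (S : L.Structure M)
  (F G : Set M) (n : ℕ) (β : Type) [Finite β] (V : Set (β → M)) (D : Set M), VQp S →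
  G.Finite → F ⊆ G → D.Finite → 2 ≤ n → Vis S G n D V →
  ∀ (s : Om → β → M), Function.Injective s → (∀ x, s x ∈ V) →
    (∀ x y x' y', x < y → x' < y' → ColE S G n D (s x) (s y) (s x') (s y')) →
    ∀ x y, x < y → ColE S G n D (s x) (s y) (s y) (s x)

/-- [PA5] generic pairs in visible families -/
def St_PA5 : Prop := ∀ (L : FirstOrder.Language.{0, 0}) (M : Type) (S : L.Structure M)
  (F G : Set M) (n : ℕ) (β : Type) [Finite β] (V : Set (β → M)) (D : Set M), Cx S F →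
  G.Finite → F ⊆ G → D.Finite → 2 ≤ n → Vis S G n D V →
  (∀ w ∈ V, ∃ E : Set M, E.Countable ∧ ∀ w' ∈ V, Off E w' → ∀ π : Equiv.Perm β,
    TE S G n (dg D ∪ prs (w' ∘ π) w') → TE S G n (dg (range w) ∪ prs (w' ∘ π) w')) →
  ∃ V' ⊆ V, ¬ V'.Countable ∧ ∃ cl, IsCl cl ∧ PR2 S G n V' cl

/-- [PAIR] generic pairs -/
def St_PAIR : Prop := ∀ (L : FirstOrder.Language.{0, 0}) (M : Type) (S : L.Structure M)
  (F G : Set M) (n : ℕ) (β : Type) [Finite β] (V : Set (β → M)) (cl : Set M → Set M),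
  Cx S F → G.Finite → F ⊆ G → 2 ≤ n → IsCl cl → Fam V →
  (∀ c ∈ V, ∀ c' ∈ V, HM S G n V cl c c') →
  ∃ V' ⊆ V, ¬ V'.Countable ∧ ∃ cl, IsCl cl ∧ PR2 S G n V' cl

/-- [TOT] generic sequences in one family -/
def St_TOT : Prop := ∀ (L : FirstOrder.Language.{0, 0}) (M : Type) (S : L.Structure M)
  (F G : Set M) (n : ℕ) (β : Type) [Finite β] (V V' : Set (β → M)) (cl cl' : Set M → Set M),
  SymP S F → G.Finite → F ⊆ G → MX S G n V cl → V' ⊆ V → Fam V' →
  (∀ c ∈ V', ∀ c' ∈ V', HM S G n V cl c c') → IsCl cl' → PR2 S G n V' cl' →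
  ∃ cl'', IsCl cl'' ∧ Tot S G n V' cl''

/-- [CMBN] combs of tuples -/
def St_CMBN : Prop := ∀ (L : FirstOrder.Language.{0, 0}) (M : Type) (S : L.Structure M)
  (G : Set M) (k : ℕ) (β : Type) [Finite β] (V : Set (β → M)), FT S G → Fam V →
  (∀ V' ⊆ V, ¬ V'.Countable → ∃ U : Set M, U.encard ≤ k ∧ ¬ Trv S G V' U) →
  ∃ (z : ℕ → Fin k → M) (W : ℕ → Set (β → M)), (∀ i, W i ⊆ V ∧ ¬ (W i).Countable) ∧
    ∀ i j, i < j → ∀ w ∈ W i, ∀ w' ∈ W j, ¬ AtEq S S (dg G ∪ prs (z i) (z i) ∪ prs w w')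

/-- [BFIN] the end of the construction of good families -/
def St_BFIN : Prop := ∀ (L : FirstOrder.Language.{0, 0}) (M : Type) (S : L.Structure M)
  (F G : Set M) (n k : ℕ) (β : Type) [Finite β] (V : Set (β → M)) (cl cl' : Set M → Set M)
  (z : ℕ → Fin k → M) (W : ℕ → Set (β → M)), RowsP S F → FT S G → G.Finite → F ⊆ G →
  k + Nat.card β = n + 1 → 1 ≤ k → Fam V → PG S G n V → MX S G (n + 1) V cl → IsCl cl' →
  Tot S G (n + 1) V cl' → (∀ i, W i ⊆ V ∧ ¬ (W i).Countable) →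
  (∀ i j, i < j → ∀ w ∈ W i, ∀ w' ∈ W j, ¬ AtEq S S (dg G ∪ prs (z i) (z i) ∪ prs w w')) →
  False

/-- [BN] existence of good families, level `n + 1` -/
def St_BN : Prop := ∀ (L : FirstOrder.Language.{0, 0}) (M : Type) (S : L.Structure M)
  (F G : Set M) (n : ℕ) (β : Type) [Finite β] (V : Set (β → M)), Cx S F → PN S F n →
  G.Finite → F ⊆ G → (∀ (P : Set β) (V' : Set (P → M)), P ≠ univ → Fam V' →
    PT S G (n + 1) V') → Fam V → ∃ V' ⊆ V, Gd S G (n + 1) V'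

/-- [CCN] combs of good families -/
def St_CCN : Prop := ∀ (L : FirstOrder.Language.{0, 0}) (M : Type) (S : L.Structure M)
  (G : Set M) (n : ℕ) (β : Type) [Finite β] (V : ℕ → Set (β → M)), FT S G →
  (∀ i, Gd S G n (V i)) → (∀ i j, i ≠ j → ¬ Eqv S G n (V i) (V j)) →
  ∃ (φ : ℕ → ℕ) (z : ℕ → Fin n → M), StrictMono φ ∧
    ∀ i j, i < j → ∃ E : Set M, E.Countable ∧ ∀ w ∈ V (φ i), ∀ w' ∈ V (φ j), Off E w →
      Off E w' → ¬ TE S G n (prs (z i) (z i) ∪ prs w w')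

/-- [CN] finitely many good families, level `n + 1` -/
def St_CN : Prop := ∀ (L : FirstOrder.Language.{0, 0}) (M : Type) (S : L.Structure M)
  (F G : Set M) (n : ℕ) (β : Type) [Finite β], RowsP S F → FT S G → G.Finite → F ⊆ G →
  (∀ V : ℕ → Set (β → M), (∀ i, Gd S G n (V i)) → ∃ cl, Cm S G n V cl) →
  ¬ ∃ V : ℕ → Set (β → M), (∀ i, Gd S G n (V i)) ∧ ∀ i j, i ≠ j → ¬ Eqv S G n (V i) (V j)

/-- [PN0] level `0` -/
def St_PN0 : Prop := ∀ (L : FirstOrder.Language.{0, 0}) (M : Type) (S : L.Structure M)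
  (F : Set M), Cx S F → PN S F 0

/-- [PNS] the induction step -/
def St_PNS : Prop := ∀ (L : FirstOrder.Language.{0, 0}) (M : Type) (S : L.Structure M)
  (F : Set M) (n : ℕ), Cx S F → PN S F n → PN S F (n + 1)

/-! ## The structure of the large structure -/

/-- representatives of the good families of level `r`; the finite set `a0` distinguishes them -/
structure Rep {L : FirstOrder.Language.{0, 0}} {M : Type} (S : L.Structure M) (F : Set M)
    (r : ℕ) {I : ℕ → Type} (U : ∀ b, I b → Set (Fin b → M)) (cl : Set M → Set M)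
    (a0 : Set M) : Prop where
  fin : ∀ b, Finite (I b)
  gd : ∀ b (i : I b), Gd S F r (U b i)
  rep : ∀ b, 1 ≤ b → b ≤ r → ∀ V : Set (Fin b → M), Gd S F r V → ∃ i, Eqv S F r (U b i) V
  com : Cm S F r (fun x : Σ b, I b => U x.1 x.2) cl
  a0f : a0.Finite
  Fa0 : F ⊆ a0
  dist : ∀ b (i i' : I b), i ≠ i' → ∀ w ∈ U b i, ∀ w' ∈ U b i', Off (cl a0) w →
    Off (cl a0) w' → ¬ TE S F r (dg a0 ∪ prs w w')

/-- the tuple `w` realises over `A` the generic type of the family `V` -/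
def Tp {L : FirstOrder.Language.{0, 0}} {M : Type} (S : L.Structure M) (F : Set M) (r : ℕ)
    (cl : Set M → Set M) {b : ℕ} (V : Set (Fin b → M)) (A : Set M) (w : Fin b → M) : Prop :=
  ∀ w' ∈ V, Off (cl A) w' → TE S F r (dg A ∪ prs w' w)

/-- generic sequences over `A` and `w` -/
def Ext {L : FirstOrder.Language.{0, 0}} {M : Type} (S : L.Structure M) (F : Set M) (r : ℕ)
    {I : ℕ → Type} (U : ∀ b, I b → Set (Fin b → M)) (cl : Set M → Set M) (A : Set M)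
    {b : ℕ} (i : I b) (w : Fin b → M) : Prop :=
  ∀ (J : Type) [Finite J] (l : J → Σ b, I b) (w' v' : ∀ j, Fin (l j).1 → M) (rk : J → ℕ)
    (v : Fin b → M), Function.Injective rk → (∀ j, w' j ∈ U (l j).1 (l j).2) →
    (∀ j, v' j ∈ U (l j).1 (l j).2) → v ∈ U b i → Off (cl A) v → Gen cl (A ∪ range w) rk w' →
    Gen cl (A ∪ range v) rk v' → TE S F r (dg A ∪ prs w v ∪ ⋃ j, prs (w' j) (v' j))

/-- closed countable sets -/
structure Clos {L : FirstOrder.Language.{0, 0}} {M : Type} (S : L.Structure M) (F : Set M)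
    (r : ℕ) {I : ℕ → Type} (U : ∀ b, I b → Set (Fin b → M)) (cl : Set M → Set M)
    (a0 : Set M) (A : Set M) : Prop where
  ctbl : A.Countable
  a0A : a0 ⊆ A
  ok : ∀ b, 1 ≤ b → b ≤ r → ∀ w : Fin b → M, Function.Injective w → Off A w →
    ∃ i : I b, Tp S F r cl (U b i) A w ∧ Ext S F r U cl A i w

/-- [REP] representatives of good families -/
def St_REP : Prop := ∀ (L : FirstOrder.Language.{0, 0}) (M : Type) (S : L.Structure M)
  (F : Set M) (r : ℕ), Cx S F → PN S F r →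
  ∃ (I : ℕ → Type) (U : ∀ b, I b → Set (Fin b → M)) (cl : Set M → Set M) (a0 : Set M),
    Rep S F r U cl a0

/-- [BAD] there are only countably many disjoint bad tuples -/
def St_BAD : Prop := ∀ (L : FirstOrder.Language.{0, 0}) (M : Type) (S : L.Structure M)
  (F : Set M) (r : ℕ) (I : ℕ → Type) (U : ∀ b, I b → Set (Fin b → M)) (cl : Set M → Set M)
  (a0 : Set M) (A : Set M) (b : ℕ) (V : Set (Fin b → M)), Cx S F → PN S F r →
  Rep S F r U cl a0 → A.Countable → 1 ≤ b → b ≤ r → Fam V →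
  ∃ w ∈ V, ∃ i : I b, Tp S F r cl (U b i) A w ∧ Ext S F r U cl A i w

/-- [CLX] closed sets -/
def St_CLX : Prop := ∀ (L : FirstOrder.Language.{0, 0}) (M : Type) (S : L.Structure M)
  (F : Set M) (r : ℕ) (I : ℕ → Type) (U : ∀ b, I b → Set (Fin b → M)) (cl : Set M → Set M)
  (a0 : Set M) (A : Set M), Cx S F → PN S F r → Rep S F r U cl a0 → A.Countable →
  ∃ B, A ⊆ B ∧ Clos S F r U cl a0 B

/-- [A0] the type over `a0` determines the type over closed sets -/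
def St_A0 : Prop := ∀ (L : FirstOrder.Language.{0, 0}) (M : Type) (S : L.Structure M)
  (F : Set M) (r : ℕ) (I : ℕ → Type) (U : ∀ b, I b → Set (Fin b → M)) (cl : Set M → Set M)
  (a0 : Set M) (A : Set M) (β : Type) [Finite β] (w w' : β → M), Rep S F r U cl a0 →
  Clos S F r U cl a0 A → Nat.card β ≤ r → Function.Injective w → Function.Injective w' →
  Off A w → Off A w' → TE S F r (dg a0 ∪ prs w w') → TE S F r (dg A ∪ prs w w')

/-- chain systems: the elements of `w` of level `k` are in `B (k + 1)` and not in `B k` -/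
def Chn {L : FirstOrder.Language.{0, 0}} {M : Type} (S : L.Structure M) (F : Set M)
    (r : ℕ) {I : ℕ → Type} (U : ∀ b, I b → Set (Fin b → M)) (cl : Set M → Set M)
    (a0 : Set M) (A : Set M) {β : Type} (ρ : β → ℕ) (w : β → M) : Prop :=
  ∃ B : ℕ → Set M, B 0 = A ∧ (∀ k, B k ⊆ B (k + 1)) ∧ (∀ k, Clos S F r U cl a0 (B k)) ∧
    ∀ p, w p ∉ B (ρ p) ∧ w p ∈ B (ρ p + 1)

/-- [CH] chain systems with the same parts are equivalent -/
def St_CH : Prop := ∀ (L : FirstOrder.Language.{0, 0}) (M : Type) (S : L.Structure M)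
  (F : Set M) (r : ℕ) (I : ℕ → Type) (U : ∀ b, I b → Set (Fin b → M)) (cl : Set M → Set M)
  (a0 : Set M) (A : Set M) (β : Type) [Finite β] (w w' : β → M) (ρ ρ' : β → ℕ),
  Rep S F r U cl a0 → Nat.card β ≤ r → Function.Injective w → Function.Injective w' →
  Chn S F r U cl a0 A ρ w → Chn S F r U cl a0 A ρ' w' → (∀ p q, ρ p = ρ q ↔ ρ' p = ρ' q) →
  (∀ p, TE S F r (dg A ∪ prt {q | ρ q = ρ p} w w')) → TE S F r (dg A ∪ prs w w')

/-- [CHE] existence of chain systems -/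
def St_CHE : Prop := ∀ (L : FirstOrder.Language.{0, 0}) (M : Type) (S : L.Structure M)
  (F : Set M) (r : ℕ) (I : ℕ → Type) (U : ∀ b, I b → Set (Fin b → M)) (cl : Set M → Set M)
  (a0 : Set M) (A : Set M) (β : Type) [Finite β] (w : β → M) (ρ : β → ℕ),
  Rep S F r U cl a0 → (∀ A' : Set M, A'.Countable → ∃ B, A' ⊆ B ∧ Clos S F r U cl a0 B) →
  Clos S F r U cl a0 A → Nat.card β ≤ r → Function.Injective w → Off A w →
  ∃ w' : β → M, Function.Injective w' ∧ Chn S F r U cl a0 A ρ w' ∧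
    ∀ p, TE S F r (dg A ∪ prt {q | ρ q = ρ p} w w')

/-- [CHG] grouping of levels -/
def St_CHG : Prop := ∀ (L : FirstOrder.Language.{0, 0}) (M : Type) (S : L.Structure M)
  (F : Set M) (r : ℕ) (I : ℕ → Type) (U : ∀ b, I b → Set (Fin b → M)) (cl : Set M → Set M)
  (a0 : Set M) (A : Set M) (β : Type) [Finite β] (w : β → M) (ρ ρ' : β → ℕ),
  Chn S F r U cl a0 A ρ w → (∀ p q, ρ p ≤ ρ q → ρ' p ≤ ρ' q) → Chn S F r U cl a0 A ρ' w

/-- the parts of `w` given by `κ` are free over `A` -/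
def Fre {L : FirstOrder.Language.{0, 0}} {M : Type} (S : L.Structure M) (F : Set M)
    (r : ℕ) {I : ℕ → Type} (U : ∀ b, I b → Set (Fin b → M)) (cl : Set M → Set M)
    (a0 : Set M) (A : Set M) {β : Type} (κ : β → ℕ) (w : β → M) : Prop :=
  ∃ (ρ : β → ℕ) (w' : β → M), (∀ p q, ρ p = ρ q ↔ κ p = κ q) ∧ Function.Injective w' ∧
    Chn S F r U cl a0 A ρ w' ∧ TE S F r (dg A ∪ prs w w')

/-- decomposable tuples -/
def Dcp {L : FirstOrder.Language.{0, 0}} {M : Type} (S : L.Structure M) (F : Set M)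
    (r : ℕ) {I : ℕ → Type} (U : ∀ b, I b → Set (Fin b → M)) (cl : Set M → Set M)
    (a0 : Set M) (A : Set M) {β : Type} (w : β → M) : Prop :=
  ∃ κ : β → ℕ, (∃ p q, κ p ≠ κ q) ∧ Fre S F r U cl a0 A κ w

/-- `x` and `y` are in an indecomposable tuple -/
def Lnk {L : FirstOrder.Language.{0, 0}} {M : Type} (S : L.Structure M) (F : Set M)
    (r : ℕ) {I : ℕ → Type} (U : ∀ b, I b → Set (Fin b → M)) (cl : Set M → Set M)
    (a0 : Set M) (A : Set M) (x y : M) : Prop :=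
  ∃ (b : ℕ) (w : Fin b → M), b ≤ r ∧ Function.Injective w ∧ Off A w ∧
    ¬ Dcp S F r U cl a0 A w ∧ x ∈ range w ∧ y ∈ range w

/-- [FRC] the parts of a tuple in the different components are free -/
def St_FRC : Prop := ∀ (L : FirstOrder.Language.{0, 0}) (M : Type) (S : L.Structure M)
  (F : Set M) (r : ℕ) (I : ℕ → Type) (U : ∀ b, I b → Set (Fin b → M)) (cl : Set M → Set M)
  (a0 : Set M) (A : Set M) (β : Type) [Finite β] (w : β → M) (κ : β → ℕ),
  Rep S F r U cl a0 → (∀ A' : Set M, A'.Countable → ∃ B, A' ⊆ B ∧ Clos S F r U cl a0 B) →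
  Clos S F r U cl a0 A → Nat.card β ≤ r → Function.Injective w → Off A w →
  (∀ p q, κ p = κ q ↔ Relation.ReflTransGen (Lnk S F r U cl a0 A) (w p) (w q)) →
  Fre S F r U cl a0 A κ w

/-- `M` is partitioned in the countable set `A` and the blocks `B x`; the atomic type of a set
over `A` is determined by its parts in the blocks. -/
structure BlkN {L : FirstOrder.Language.{0, 0}} {M : Type} (S : L.Structure M) (A : Set M)
    (B : M → Set M) : Prop where
  ctbl : A.Countable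
  self : ∀ x ∉ A, x ∈ B x
  out : ∀ x ∉ A, ∀ y ∈ B x, y ∉ A ∧ B y = B x
  cross : ∀ p : Set (M × M), (∀ a ∈ p, a.1 ∉ A ∧ a.2 ∉ A) →
    (∀ a ∈ p, ∀ a' ∈ p, B a.1 = B a'.1 ↔ B a.2 = B a'.2) →
    (∀ x ∉ A, AtEq S S (dg A ∪ {a ∈ p | a.1 ∈ B x})) → AtEq S S (dg A ∪ p)

/-- there is an isomorphism over `A` from the block of `x` to the block of `y` -/
def BIN {L : FirstOrder.Language.{0, 0}} {M : Type} (S : L.Structure M) (A : Set M)
    (B : M → Set M) (x y : M) : Prop :=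
  ∃ h : M → M, BijOn h (B x) (B y) ∧ h x = y ∧ AtEq S S (dg A ∪ {a | a.1 ∈ B x ∧ a.2 = h a.1})

/-- [BK0] the blocks -/
def St_BK0 : Prop := ∀ (L : FirstOrder.Language.{0, 0}) (M : Type) (S : L.Structure M)
  (F : Set M) (r : ℕ) (I : ℕ → Type) (U : ∀ b, I b → Set (Fin b → M)) (cl : Set M → Set M)
  (a0 : Set M) (A : Set M), 2 ≤ r → (∀ m, r < m → IsEmpty (L.Relations m)) →
  Rep S F r U cl a0 → (∀ A' : Set M, A'.Countable → ∃ B, A' ⊆ B ∧ Clos S F r U cl a0 B) →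
  Clos S F r U cl a0 A →
  BlkN S A (fun x => {y | Relation.ReflTransGen (Lnk S F r U cl a0 A) x y}) ∧
  (∀ x ∉ A, {y | Relation.ReflTransGen (Lnk S F r U cl a0 A) x y}.Countable)

/-- `D` is a component of `X` for the hypergraph `H` -/
def IsCmp {M : Type} (r : ℕ) (a0 : Set M) (H : ∀ b : ℕ, (Fin b → M) → Prop) (X D : Set M) :
    Prop :=
  D ⊆ X \ a0 ∧ (∀ b ≤ r, ∀ h : Fin b → M, Function.Injective h → (∀ p, h p ∈ X \ a0) →
    H b h → (∃ p, h p ∈ D) → ∀ p, h p ∈ D) ∧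
  ∀ D' ⊆ D, D'.Nonempty → D' ≠ D → ∃ b ≤ r, ∃ h : Fin b → M, Function.Injective h ∧
    (∀ p, h p ∈ D) ∧ H b h ∧ (∃ p, h p ∈ D') ∧ ∃ p, h p ∉ D'

/-- [HCO] the sizes of the components of hypergraphs -/
def St_HCO : Prop := ∀ (L : FirstOrder.Language.{0, 0}) (M : Type) (S : L.Structure M)
  (F : Set M) (r : ℕ) (a0 : Set M) (H : ∀ b : ℕ, (Fin b → M) → Prop)
  (X : (ℕ → Bool) → Set M), Pig S F → a0.Finite → F ⊆ a0 →
  (∀ b h h', AtEq S S (dg a0 ∪ prs h h') → (H b h ↔ H b h')) →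
  (∀ f, (X f).Countable ∧ (X f).Infinite ∧ a0 ⊆ X f) →
  ∃ f g, f ≠ g ∧ {m : ℕ | ∃ D, D.encard = (m : ℕ∞) ∧ IsCmp r a0 H (X f) D} =
    {m : ℕ | ∃ D, D.encard = (m : ℕ∞) ∧ IsCmp r a0 H (X g) D}

/-- [WIN] connected sets of given size -/
def St_WIN : Prop := ∀ (M : Type) (r : ℕ) (H : ∀ b : ℕ, (Fin b → M) → Prop) (C : Set M)
  (m : ℕ), (m : ℕ∞) < C.encard → (∀ x ∈ C, ∀ y ∈ C, Relation.ReflTransGen (fun x y =>
    ∃ b ≤ r, ∃ h : Fin b → M, Function.Injective h ∧ (∀ p, h p ∈ C) ∧ H b h ∧ x ∈ range h ∧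
      y ∈ range h) x y) →
  ∃ D ⊆ C, (m : ℕ∞) < D.encard ∧ D.encard ≤ (m + r + 1 : ℕ) ∧
    ∀ D' ⊆ D, D'.Nonempty → D' ≠ D → ∃ b ≤ r, ∃ h : Fin b → M, Function.Injective h ∧
      (∀ p, h p ∈ D) ∧ H b h ∧ (∃ p, h p ∈ D') ∧ ∃ p, h p ∉ D'

/-- [SIZ] the sizes of the components are bounded -/
def St_SIZ : Prop := ∀ (L : FirstOrder.Language.{0, 0}) (M : Type) (S : L.Structure M)
  (F : Set M) (r : ℕ) (I : ℕ → Type) (U : ∀ b, I b → Set (Fin b → M)) (cl : Set M → Set M)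
  (a0 : Set M) (A : Set M), Cx S F → Rep S F r U cl a0 →
  (∀ A' : Set M, A'.Countable → ∃ B, A' ⊆ B ∧ Clos S F r U cl a0 B) →
  Clos S F r U cl a0 A →
  ∃ m : ℕ, {D : Set M | ∃ x ∉ A, D = {y | Relation.ReflTransGen (Lnk S F r U cl a0 A) x y} ∧
    (m : ℕ∞) < D.encard}.Finite

/-- [FIT] finite blocks, each of uncountably many occurrences -/
def St_FIT : Prop := ∀ (L : FirstOrder.Language.{0, 0}) (M : Type) (S : L.Structure M)
  (F : Set M) (r : ℕ) (I : ℕ → Type) (U : ∀ b, I b → Set (Fin b → M)) (cl : Set M → Set M)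
  (a0 : Set M) (A : Set M) (B : M → Set M) (m : ℕ), 2 ≤ r →
  (∀ m, r < m → IsEmpty (L.Relations m)) → Rep S F r U cl a0 → Clos S F r U cl a0 A →
  BlkN S A B → (∀ x ∉ A, (B x).Countable) →
  {D : Set M | ∃ x ∉ A, D = B x ∧ (m : ℕ∞) < D.encard}.Finite →
  ∃ (A' : Set M) (B' : M → Set M) (T : Set M), BlkN S A' B' ∧ (∀ x ∉ A', (B' x).Finite) ∧
    (∀ x ∉ A', ¬ {y | y ∉ A' ∧ BIN S A' B' x y}.Countable) ∧ T.Countable ∧
    (∀ t ∈ T, t ∉ A') ∧ ∀ x ∉ A', ∃ t ∈ T, BIN S A' B' t x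

/-- [TAMN] the large structure is tame -/
def St_TAMN : Prop := ∀ (L : FirstOrder.Language.{0, 0}) (M : Type) (S : L.Structure M)
  (A : Set M) (B : M → Set M) (T : Set M), BlkN S A B → (∀ x ∉ A, (B x).Finite) →
  (∀ x ∉ A, ¬ {y | y ∉ A ∧ BIN S A B x y}.Countable) → T.Countable → (∀ t ∈ T, t ∉ A) →
  (∀ x ∉ A, ∃ t ∈ T, BIN S A B t x) → TameX S (univ : Set M)

/-- [MAINN] the large structure of a hereditary class of bounded arity is tame -/
def St_MAINN : Prop := ∀ (L : FirstOrder.Language.{0, 0}) [∀ n, IsEmpty (L.Functions n)]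
  [∀ n, Countable (L.Relations n)] (K : Set (L.Structure ℕ)) (δ : Ordinal.{0}) (M : Type)
  (S : L.Structure M) (r : ℕ), (∀ m, r < m → IsEmpty (L.Relations m)) → VSt K δ S →
  HerK K → TameX S (univ : Set M)

end HERN
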